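import Mathlib

/-!
# Definitions

`K` is a field of characteristic different from two, `F` an algebraic closure, `α i` are an odd number
of distinct elements of `K`.  The curve `y ^ 2 = ∏ i, (x - α i)` has one point at infinity, and the
group of the `F`-points of its Jacobian is the class group of the coordinate ring of the affine curve.
This file defines this group, the action of the automorphisms of `F` over `K` on it, Tate modules of
abelian groups and rational Tate modules.
-/

set_option linter.unusedSectionVars false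

namespace Pool.Agent.N171

open Polynomial

/-! ### class groups -/

section cl

variable {R R' : Type*} [CommRing R] [IsDomain R] [CommRing R'] [IsDomain R']

variable (R) in
/-- The class group, as an additive group. -/
def ClG : Type _ := Additive (ClassGroup R)

noncomputable instance instClG : AddCommGroup (ClG R) :=
  (Additive.addCommGroup : AddCommGroup (Additive (ClassGroup R)))

/-- The isomorphism of class groups given by an isomorphism of rings. -/
noncomputable def clMap (g : R ≃+* R') : ClG R →+ ClG R' :=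
  (MonoidHom.toAdditive (ClassGroup.mulEquiv g).toMonoidHom :
    Additive (ClassGroup R) →+ Additive (ClassGroup R'))

end cl

/-! ### the coordinate ring -/

section defs

variable {F ι : Type*} [Field F] [Fintype ι]

/-- The polynomial with the roots `α i`. -/
noncomputable def fP (α : ι → F) : F[X] := ∏ i, (X - Polynomial.C (α i))

/-- The hypotheses on the roots. -/
class Hyp (α : ι → F) : Prop where
  inj : Function.Injective α
  odd : Odd (Fintype.card ι)
  two : (2 : F) ≠ 0

/-- The function field. -/
abbrev FF (α : ι → F) : Type _ :=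
  QuadraticAlgebra (RatFunc F) (algebraMap F[X] (RatFunc F) (fP α)) 0

theorem fP_ne_zero (α : ι → F) : fP α ≠ 0 :=
  Finset.prod_ne_zero_iff.2 fun _ _ => X_sub_C_ne_zero _

theorem fP_natDegree (α : ι → F) : (fP α).natDegree = Fintype.card ι := by
  unfold fP
  rw [natDegree_prod _ _ fun i _ => X_sub_C_ne_zero _]
  simp

theorem fP_eval₂ {A : Type*} [CommRing A] (g : F →+* A) (z : A) (α : ι → F) :
    (fP α).eval₂ g z = ∏ i, (z - g (α i)) := by
  unfold fP
  rw [eval₂_finsetProd]
  exact Finset.prod_congr rfl fun i _ => by rw [eval₂_sub, eval₂_X, eval₂_C]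

theorem fP_eval (z : F) (α : ι → F) : (fP α).eval z = ∏ i, (z - α i) :=
  fP_eval₂ (RingHom.id F) z α

theorem not_square (α : ι → F) [Hyp α] (r : RatFunc F) :
    r ^ 2 ≠ algebraMap F[X] (RatFunc F) (fP α) := by
  intro h
  have hr : r ≠ 0 := by
    rintro rfl
    exact (map_ne_zero_iff _ (IsFractionRing.injective F[X] (RatFunc F))).2 (fP_ne_zero α)
      (by rw [← h]; ring)
  have h1 := congrArg RatFunc.intDegree h
  rw [pow_two, RatFunc.intDegree_mul hr hr, RatFunc.intDegree_polynomial, fP_natDegree] at h1
  obtain ⟨k, hk⟩ := Hyp.odd (α := α)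
  omega

instance (α : ι → F) [Hyp α] :
    Fact (∀ r : RatFunc F, r ^ 2 ≠ algebraMap F[X] (RatFunc F) (fP α) + 0 * r) :=
  ⟨fun r => by
    rw [zero_mul, add_zero]
    exact not_square α r⟩

/-- The coordinate ring `F[x, y] / (y ^ 2 - f)`. -/
abbrev RR (α : ι → F) : Type _ := QuadraticAlgebra F[X] (fP α) 0

variable {α : ι → F}

/-- The embedding in the function field. -/
noncomputable def jR : RR α →+* FF α where
  toFun x := ⟨algebraMap F[X] (RatFunc F) x.re, algebraMap F[X] (RatFunc F) x.im⟩
  map_one' := by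
    ext
    · exact map_one _
    · exact map_zero _
  map_zero' := by
    ext
    · exact map_zero _
    · exact map_zero _
  map_add' x y := by
    ext
    · simp only [QuadraticAlgebra.re_add, map_add]
    · simp only [QuadraticAlgebra.im_add, map_add]
  map_mul' x y := by
    ext
    · simp only [QuadraticAlgebra.re_mul, map_add, map_mul]
    · simp only [QuadraticAlgebra.im_mul, map_add, map_mul, map_zero, zero_mul]

theorem jR_apply (x : RR α) :
    jR x = ⟨algebraMap F[X] (RatFunc F) x.re, algebraMap F[X] (RatFunc F) x.im⟩ := rfl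

theorem jR_inj : Function.Injective (jR (α := α)) := by
  intro x y h
  have h1 := congrArg QuadraticAlgebra.re h
  have h2 := congrArg QuadraticAlgebra.im h
  exact QuadraticAlgebra.ext (IsFractionRing.injective F[X] (RatFunc F) h1)
    (IsFractionRing.injective F[X] (RatFunc F) h2)

instance [Hyp α] : IsDomain (RR α) := (jR_inj (α := α)).isDomain (jR (α := α))

theorem map_fP {σ : F ≃+* F} (hσ : ∀ i, σ (α i) = α i) :
    (fP α).map (σ : F →+* F) = fP α := by
  unfold fP
  rw [Polynomial.map_prod]
  refine Finset.prod_congr rfl fun i _ => ?_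
  rw [Polynomial.map_sub, Polynomial.map_X, Polynomial.map_C]
  congr 2
  exact hσ i

/-- The action on the coordinate ring. -/
noncomputable def gRi {σ : F ≃+* F} (hσ : ∀ i, σ (α i) = α i) : RR α ≃+* RR α where
  toFun x := ⟨x.re.map (σ : F →+* F), x.im.map (σ : F →+* F)⟩
  invFun x := ⟨x.re.map (σ.symm : F →+* F), x.im.map (σ.symm : F →+* F)⟩
  left_inv x := by
    ext1
    · change (x.re.map _).map _ = x.re
      rw [Polynomial.map_map, RingEquiv.symm_comp, Polynomial.map_id]
    · change (x.im.map _).map _ = x.im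
      rw [Polynomial.map_map, RingEquiv.symm_comp, Polynomial.map_id]
  right_inv x := by
    ext1
    · change (x.re.map _).map _ = x.re
      rw [Polynomial.map_map, RingEquiv.comp_symm, Polynomial.map_id]
    · change (x.im.map _).map _ = x.im
      rw [Polynomial.map_map, RingEquiv.comp_symm, Polynomial.map_id]
  map_mul' x y := by
    ext1
    · simp only [QuadraticAlgebra.re_mul, Polynomial.map_add, Polynomial.map_mul, map_fP hσ]
    · simp only [QuadraticAlgebra.im_mul, Polynomial.map_add, Polynomial.map_mul,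
        Polynomial.map_zero, zero_mul]
  map_add' x y := by
    ext1
    · simp only [QuadraticAlgebra.re_add, Polynomial.map_add]
    · simp only [QuadraticAlgebra.im_add, Polynomial.map_add]

theorem gRi_apply {σ : F ≃+* F} (hσ : ∀ i, σ (α i) = α i) (x : RR α) :
    gRi hσ x = ⟨x.re.map (σ : F →+* F), x.im.map (σ : F →+* F)⟩ := rfl

/-- The class group of the coordinate ring, as an additive group. -/
def CL (α : ι → F) [Hyp α] : Type _ := ClG (RR α)

noncomputable instance instCL [Hyp α] : AddCommGroup (CL α) := (instClG : AddCommGroup (ClG (RR α)))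

/-- The action on the class group of the coordinate ring. -/
noncomputable def clAct [Hyp α] {σ : F ≃+* F} (hσ : ∀ i, σ (α i) = α i) : CL α →+ CL α :=
  (clMap (gRi hσ) : ClG (RR α) →+ ClG (RR α))

end defs

/-! ### the Jacobian -/

section jac

variable {K : Type*} [Field K] (F : Type*) [Field F] [Algebra K F] {ι : Type*} [Fintype ι]

/-- The elements of `K` as elements of `F`. -/
def lf (α : ι → K) : ι → F := fun i => algebraMap K F (α i)

instance (α : ι → K) [h : Hyp α] : Hyp (lf F α) where
  inj := (algebraMap K F).injective.comp h.inj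
  odd := h.odd
  two := by
    have h1 : (2 : F) = algebraMap K F 2 := by rw [map_ofNat]
    rw [h1, Ne, map_eq_zero]
    exact h.two

/-- The group of the `F`-points of the Jacobian of the curve `y ^ 2 = ∏ i, (x - α i)`: the class group
of the coordinate ring `F[x, y]`. -/
def Jac (α : ι → K) [Hyp α] : Type _ := CL (lf F α)

noncomputable instance (α : ι → K) [Hyp α] : AddCommGroup (Jac F α) :=
  (instCL : AddCommGroup (CL (lf F α)))

variable {F}

theorem lf_fix (σ : F ≃ₐ[K] F) (α : ι → K) (i : ι) : (σ : F ≃+* F) (lf F α i) = lf F α i :=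
  σ.commutes _

/-- The action of an automorphism of `F` over `K` on the points of the Jacobian: it acts on the
coefficients of the elements of the coordinate ring. -/
noncomputable def jacAct (α : ι → K) [Hyp α] (σ : F ≃ₐ[K] F) : Jac F α →+ Jac F α :=
  (clAct (lf_fix σ α) : CL (lf F α) →+ CL (lf F α))

end jac

/-! ### Tate modules -/

section tate

open PadicInt

variable {p : ℕ} {M : Type*} [AddCommGroup M]

/-- The `p`-adic Tate module of an abelian group: the sequences of elements with
`a 0 = 0` and `p (a (n + 1)) = a n`. -/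
@[ext] structure TateMod (p : ℕ) (M : Type*) [AddCommGroup M] where
  /-- the sequence -/
  seq : ℕ → M
  prop : seq 0 = 0 ∧ ∀ n, p • seq (n + 1) = seq n

instance : Zero (TateMod p M) := ⟨⟨0, rfl, fun _ => smul_zero _⟩⟩

instance : Add (TateMod p M) := ⟨fun a b => ⟨a.1 + b.1, by
  rw [Pi.add_apply, a.2.1, b.2.1, add_zero], fun n => by
  rw [Pi.add_apply, smul_add, a.2.2, b.2.2]; rfl⟩⟩

instance : Neg (TateMod p M) := ⟨fun a => ⟨-a.1, by rw [Pi.neg_apply, a.2.1, neg_zero], fun n => by
  rw [Pi.neg_apply, smul_neg, a.2.2]; rfl⟩⟩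

instance : Sub (TateMod p M) := ⟨fun a b => ⟨a.1 - b.1, by
  rw [Pi.sub_apply, a.2.1, b.2.1, sub_zero], fun n => by
  rw [Pi.sub_apply, smul_sub, a.2.2, b.2.2]; rfl⟩⟩

instance : SMul ℕ (TateMod p M) := ⟨fun k a => ⟨k • a.1, by
  rw [Pi.smul_apply, a.2.1, smul_zero], fun n => by
  rw [Pi.smul_apply, smul_comm, a.2.2]; rfl⟩⟩

instance : SMul ℤ (TateMod p M) := ⟨fun k a => ⟨k • a.1, by
  rw [Pi.smul_apply, a.2.1, smul_zero], fun n => by
  rw [Pi.smul_apply, smul_comm, a.2.2]; rfl⟩⟩

theorem tm_inj : Function.Injective (TateMod.seq : TateMod p M → ℕ → M) := fun _ _ h =>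
  TateMod.ext h

instance : AddCommGroup (TateMod p M) :=
  Function.Injective.addCommGroup TateMod.seq tm_inj rfl (fun _ _ => rfl) (fun _ => rfl)
    (fun _ _ => rfl) (fun _ _ => rfl) (fun _ _ => rfl)

/-- The evaluation. -/
def tmEv (n : ℕ) : TateMod p M →+ M where
  toFun a := a.1 n
  map_zero' := rfl
  map_add' _ _ := rfl

variable [hpp : Fact p.Prime]

omit hpp in
theorem tm_zero (a : TateMod p M) : a.1 0 = 0 := a.2.1

omit hpp in
theorem tm_succ (a : TateMod p M) (n : ℕ) : p • a.1 (n + 1) = a.1 n := a.2.2 n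

omit hpp in
theorem tm_tors (a : TateMod p M) (n : ℕ) : p ^ n • a.1 n = 0 := by
  induction n with
  | zero => rw [pow_zero, one_smul, tm_zero]
  | succ n ih => rw [pow_succ, mul_smul, tm_succ, ih]

omit hpp in
theorem tm_pow (a : TateMod p M) (n m : ℕ) : p ^ m • a.1 (n + m) = a.1 n := by
  induction m with
  | zero => rw [pow_zero, one_smul, add_zero]
  | succ m ih => rw [pow_succ, mul_smul, ← add_assoc, tm_succ, ih]

omit hpp in
theorem tm_congr (a : TateMod p M) {n k l : ℕ} (h : (k : ZMod (p ^ n)) = l) :
    k • a.1 n = l • a.1 n := by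
  have key : ∀ k l : ℕ, k ≤ l → (k : ZMod (p ^ n)) = l → k • a.1 n = l • a.1 n := by
    intro k l hkl h
    obtain ⟨d, rfl⟩ := Nat.exists_eq_add_of_le hkl
    have h1 : ((d : ℕ) : ZMod (p ^ n)) = 0 := by
      rw [Nat.cast_add] at h
      exact left_eq_add.1 h
    rw [ZMod.natCast_eq_zero_iff] at h1
    obtain ⟨c, rfl⟩ := h1
    rw [add_smul, mul_comm, mul_smul, tm_tors, smul_zero, add_zero]
  rcases le_total k l with hkl | hkl
  · exact key k l hkl h
  · exact (key l k hkl h.symm).symm

/-- Multiplication with a `p`-adic integer. -/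
noncomputable instance : SMul ℤ_[p] (TateMod p M) where
  smul z a := ⟨fun n => (toZModPow n z).val • a.1 n, by
    refine ⟨by rw [tm_zero, smul_zero], fun n => ?_⟩
    rw [smul_comm, tm_succ]
    apply tm_congr
    rw [ZMod.natCast_val, ZMod.natCast_val, cast_toZModPow n (n + 1) (Nat.le_succ n),
      ZMod.cast_id]⟩

theorem tm_smul_apply (z : ℤ_[p]) (a : TateMod p M) (n : ℕ) :
    (z • a).1 n = (toZModPow n z).val • a.1 n := rfl

theorem tm_smul_eq {z : ℤ_[p]} {k n : ℕ} (h : toZModPow n z = k) (a : TateMod p M) :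
    (z • a).1 n = k • a.1 n := by
  rw [tm_smul_apply]
  apply tm_congr
  rw [ZMod.natCast_val, ZMod.cast_id, h]

theorem exists_rep_nat (z : ℤ_[p]) (n : ℕ) : ∃ k : ℕ, toZModPow n z = k :=
  ⟨(toZModPow n z).val, by rw [ZMod.natCast_val, ZMod.cast_id]⟩

omit hpp in
theorem tm_ext {a b : TateMod p M} (h : ∀ n, a.1 n = b.1 n) : a = b :=
  TateMod.ext (funext h)

noncomputable instance : Module ℤ_[p] (TateMod p M) where
  one_smul a := by
    apply tm_ext
    intro n
    rw [tm_smul_eq (k := 1) (by simp), one_smul]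
  mul_smul z w a := by
    apply tm_ext
    intro n
    obtain ⟨k, hk⟩ := exists_rep_nat z n
    obtain ⟨l, hl⟩ := exists_rep_nat w n
    rw [tm_smul_eq hk, tm_smul_eq hl,
      tm_smul_eq (k := k * l) (by rw [map_mul, hk, hl, Nat.cast_mul]), mul_smul]
  smul_zero z := by
    apply tm_ext
    intro n
    rw [tm_smul_apply]
    exact smul_zero _
  smul_add z a b := by
    apply tm_ext
    intro n
    rw [tm_smul_apply]
    exact smul_add _ _ _
  add_smul z w a := by
    apply tm_ext
    intro n
    obtain ⟨k, hk⟩ := exists_rep_nat z n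
    obtain ⟨l, hl⟩ := exists_rep_nat w n
    change _ = (z • a).1 n + (w • a).1 n
    rw [tm_smul_eq hk, tm_smul_eq hl,
      tm_smul_eq (k := k + l) (by rw [map_add, hk, hl, Nat.cast_add]), add_smul]
  zero_smul a := by
    apply tm_ext
    intro n
    rw [tm_smul_eq (k := 0) (by simp), zero_smul]
    rfl

/-- The map of Tate modules of a homomorphism. -/
noncomputable def tmMap {M' : Type*} [AddCommGroup M'] (f : M →+ M') :
    TateMod p M →ₗ[ℤ_[p]] TateMod p M' where
  toFun a := ⟨fun n => f (a.1 n), by rw [tm_zero, map_zero], fun n => by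
    rw [← map_nsmul, tm_succ]⟩
  map_add' a b := tm_ext fun n => map_add f _ _
  map_smul' z a := tm_ext fun n => by
    change f ((toZModPow n z).val • a.1 n) = (toZModPow n z).val • f (a.1 n)
    rw [map_nsmul]

theorem tmMap_apply {M' : Type*} [AddCommGroup M'] (f : M →+ M') (a : TateMod p M) (n : ℕ) :
    (tmMap f a).1 n = f (a.1 n) := rfl

end tate

/-! ### rational Tate modules and Tate classes -/

section rat

open TensorProduct

noncomputable section

/-- The rational Tate module `ℚ_2 ⊗ T` with its action. -/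
def ratRep {T : Type*} [AddCommGroup T] [Module ℤ_[2] T] {Γ : Type*} [Group Γ]
    (ρ : Representation ℤ_[2] Γ T) : Representation ℚ_[2] Γ (ℚ_[2] ⊗[ℤ_[2]] T) where
  toFun s := (ρ s).baseChange ℚ_[2]
  map_one' := by
    rw [map_one]
    exact LinearMap.baseChange_id
  map_mul' s t := by
    rw [map_mul]
    exact LinearMap.baseChange_comp _ _

/-- A 2-adic character as a character with values in `ℚ_2`. -/
def ratChar {Γ : Type*} [Group Γ] (χ : Γ →* ℤ_[2]ˣ) : Γ →* ℚ_[2] :=
  (algebraMap ℤ_[2] ℚ_[2] : ℤ_[2] →* ℚ_[2]).comp ((Units.coeHom ℤ_[2]).comp χ)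

end

/-- An alternating form on `V ^ n` of the shape `ω q (v i) (w j) + ω q (v j) (w i)`. -/
def IsLef {k V Q : Type*} [Field k] [AddCommGroup V] [Module k V] (ω : Q → V →ₗ[k] V →ₗ[k] k)
    {n : ℕ} (B : (Fin n → V) [⋀^Fin 2]→ₗ[k] k) : Prop :=
  ∃ (q : Q) (i j : Fin n), ∀ v w, B ![v, w] = ω q (v i) (w j) + ω q (v j) (w i)

/-- The indicator function of a set. -/
def ind {ι : Type*} [DecidableEq ι] (S : Finset ι) : ι → ZMod 2 := fun i => if i ∈ S then 1 else 0

end rat

end Pool.Agent.N171
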