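import Mathlib
import Pool.Agent.N171.Bas

/-!
# Tate modules of abelian groups
-/

namespace Pool.Agent.N171

open PadicInt

variable {p : ℕ} [hpp : Fact p.Prime] {M : Type*} [AddCommGroup M]

theorem tm_natCast_smul (k : ℕ) (a : TateMod p M) : (k : ℤ_[p]) • a = k • a :=
  Nat.cast_smul_eq_nsmul _ _ _

omit hpp in
theorem tm_shift {a : TateMod p M} (h : a.1 1 = 0) : ∃ b : TateMod p M, p • b = a := by
  refine ⟨⟨fun n => a.1 (n + 1), h, fun n => tm_succ a (n + 1)⟩, ?_⟩
  ext n
  exact tm_succ a n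

theorem tm_shift' {a : TateMod p M} (h : a.1 1 = 0) : ∃ b : TateMod p M, (p : ℤ_[p]) • b = a := by
  obtain ⟨b, hb⟩ := tm_shift h
  exact ⟨b, by rw [tm_natCast_smul, hb]⟩

theorem tm_shift_pow {a : TateMod p M} {n : ℕ} (h : a.1 n = 0) :
    ∃ b : TateMod p M, (p : ℤ_[p]) ^ n • b = a := by
  induction n generalizing a with
  | zero => exact ⟨a, by rw [pow_zero, one_smul]⟩
  | succ n ih =>
    have h1 : a.1 1 = 0 := by
      rw [← tm_pow a 1 n, add_comm 1 n, h, smul_zero]
    obtain ⟨b, hb⟩ := tm_shift' h1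
    have h2 : b.1 n = 0 := by
      rw [← hb] at h
      rw [tm_natCast_smul] at h
      change p • b.1 (n + 1) = 0 at h
      rwa [tm_succ] at h
    obtain ⟨c, hc⟩ := ih h2
    exact ⟨c, by rw [pow_succ', mul_smul, hc, hb]⟩

omit hpp in
theorem tm_p_smul_inj {a : TateMod p M} (h : p • a = 0) : a = 0 := by
  ext n
  have h1 := congrArg (fun b : TateMod p M => b.1 (n + 1)) h
  change p • a.1 (n + 1) = 0 at h1
  rw [tm_succ] at h1
  exact h1

theorem tm_pow_smul_inj {a : TateMod p M} (n : ℕ) (h : (p : ℤ_[p]) ^ n • a = 0) : a = 0 := by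
  induction n with
  | zero => rwa [pow_zero, one_smul] at h
  | succ n ih =>
    rw [pow_succ', mul_smul, tm_natCast_smul] at h
    exact ih (tm_p_smul_inj h)

instance : Module.IsTorsionFree ℤ_[p] (TateMod p M) := by
  rw [Module.isTorsionFree_iff_smul_eq_zero]
  intro z a h
  by_cases hz : z = 0
  · exact Or.inl hz
  · right
    rw [unitCoeff_spec hz, mul_smul] at h
    have h1 : (p : ℤ_[p]) ^ z.valuation • a = 0 := by
      rw [← Units.smul_def] at h
      exact (smul_eq_zero_iff_eq _).1 h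
    exact tm_pow_smul_inj _ h1

theorem tm_eval_pow_smul (n : ℕ) (a : TateMod p M) : ((p : ℤ_[p]) ^ n • a).1 n = 0 := by
  rw [tm_smul_eq (k := p ^ n) (by rw [map_pow, map_natCast, Nat.cast_pow]), tm_tors]

/-! ### completeness -/

theorem mem_pow_smul (N : Type*) [AddCommGroup N] [Module ℤ_[p] N] (n : ℕ) (x : N) :
    x ∈ (Ideal.span {(p : ℤ_[p])} ^ n • ⊤ : Submodule ℤ_[p] N) ↔
      ∃ y, (p : ℤ_[p]) ^ n • y = x := by
  rw [Ideal.span_singleton_pow, Submodule.ideal_span_singleton_smul,
    Submodule.mem_smul_pointwise_iff_exists]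
  simp

instance : IsHausdorff (Ideal.span {(p : ℤ_[p])}) (TateMod p M) where
  haus' a h := by
    apply tm_ext
    intro n
    have h1 := h n
    rw [SModEq.zero, mem_pow_smul] at h1
    obtain ⟨b, hb⟩ := h1
    rw [← hb, tm_eval_pow_smul]
    rfl

instance isPrecomplete_pi (S : Type*) [Fintype S] :
    IsPrecomplete (Ideal.span {(p : ℤ_[p])}) (S → ℤ_[p]) where
  prec' f hf := by
    classical
    have h1 : ∀ s, ∃ L : ℤ_[p], ∀ n, f n s ≡ L
        [SMOD (Ideal.span {(p : ℤ_[p])} ^ n • ⊤ : Submodule ℤ_[p] ℤ_[p])] := by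
      intro s
      have h2 : IsPrecomplete (Ideal.span {(p : ℤ_[p])}) ℤ_[p] := by
        rw [← maximalIdeal_eq_span_p]
        infer_instance
      refine h2.prec' (fun n => f n s) fun {m n} hmn => ?_
      have h3 := hf hmn
      rw [SModEq.sub_mem, mem_pow_smul] at h3 ⊢
      obtain ⟨y, hy⟩ := h3
      exact ⟨y s, by rw [← Pi.sub_apply, ← hy]; rfl⟩
    choose L hL using h1
    refine ⟨L, fun n => ?_⟩
    rw [SModEq.sub_mem, mem_pow_smul]
    have h2 : ∀ s, ∃ y, (p : ℤ_[p]) ^ n • y = f n s - L s := by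
      intro s
      have := hL s n
      rwa [SModEq.sub_mem, mem_pow_smul] at this
    choose y hy using h2
    exact ⟨y, funext hy⟩

/-- A Hausdorff module with finite reduction is finitely generated. -/
theorem finite_of_finite_quot (N : Type*) [AddCommGroup N] [Module ℤ_[p] N]
    [IsHausdorff (Ideal.span {(p : ℤ_[p])}) N] {S : Type*} [Fintype S] (b : S → N)
    (hb : ∀ x : N, ∃ (c : S → ℤ_[p]) (y : N), x = ∑ s, c s • b s + (p : ℤ_[p]) • y) :
    Function.Surjective (Fintype.linearCombination ℤ_[p] b) := by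
  apply surjective_of_mkQ_comp_surjective (I := Ideal.span {(p : ℤ_[p])})
  intro y
  obtain ⟨x, rfl⟩ := Submodule.mkQ_surjective _ y
  obtain ⟨c, y, hx⟩ := hb x
  refine ⟨c, ?_⟩
  rw [LinearMap.comp_apply, Submodule.mkQ_apply, Submodule.mkQ_apply, Submodule.Quotient.eq]
  have h1 := (mem_pow_smul (p := p) N 1
    ((Fintype.linearCombination ℤ_[p] b) c - x)).2 ⟨-y, by
      rw [hx, Fintype.linearCombination_apply, pow_one, smul_neg]
      abel⟩
  rwa [pow_one] at h1

/-- The Tate module is finitely generated if there are finitely many elements of order `p`. -/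
theorem tm_finite (h : {x : M | p • x = 0}.Finite) : Module.Finite ℤ_[p] (TateMod p M) := by
  classical
  have h1 : (Set.range fun a : TateMod p M => a.1 1).Finite := by
    apply h.subset
    rintro _ ⟨a, rfl⟩
    change p • a.1 1 = 0
    rw [tm_succ, tm_zero]
  let S := Set.range fun a : TateMod p M => a.1 1
  have : Fintype S := h1.fintype
  have hS : ∀ s : S, ∃ a : TateMod p M, a.1 1 = s.1 := fun s => s.2
  choose b hb using hS
  have h2 := finite_of_finite_quot (TateMod p M) b (fun x => by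
    let s : S := ⟨x.1 1, x, rfl⟩
    have h3 : (x - b s).1 1 = 0 := by
      change x.1 1 - (b s).1 1 = 0
      rw [hb, sub_self]
    obtain ⟨y, hy⟩ := tm_shift' h3
    refine ⟨Pi.single s 1, y, ?_⟩
    rw [hy, Finset.sum_eq_single s]
    · rw [Pi.single_eq_same, one_smul]
      abel
    · intro t _ ht
      rw [Pi.single_eq_of_ne ht, zero_smul]
    · intro h
      exact absurd (Finset.mem_univ _) h)
  exact Module.Finite.of_surjective _ h2

theorem tm_free [Module.Finite ℤ_[p] (TateMod p M)] : Module.Free ℤ_[p] (TateMod p M) :=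
  inferInstance

omit hpp in
/-- Lifts of elements of order `p` if the group is divisible. -/
theorem tm_lift (hdiv : ∀ x : M, ∃ y, p • y = x) {x : M} (hx : p • x = 0) :
    ∃ a : TateMod p M, a.1 1 = x := by
  choose g hg using hdiv
  let s : ℕ → M := fun n => Nat.rec x (fun _ y => g y) n
  refine ⟨⟨fun n => Nat.casesOn n 0 s, rfl, fun n => ?_⟩, rfl⟩
  cases n with
  | zero => exact hx
  | succ n => exact hg (s n)

/-! ### maps -/

end Pool.Agent.N171
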