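import Mathlib
import Pool.Agent.N171.Tt

/-!
# Logarithms of 2-adic operators and multilinear forms
-/

namespace Pool.Agent.N171

open PadicInt

section forms

variable {T : Type*} [AddCommGroup T] [Module ℤ_[2] T] {κ : Type*} [Fintype κ] [DecidableEq κ]
  (φ : MultilinearMap ℤ_[2] (fun _ : κ => T) ℚ_[2])

theorem norm_smul_le_two (c : ℤ_[2]) (q : ℚ_[2]) : ‖c • q‖ = ‖c‖ * ‖q‖ := by
  rw [Algebra.smul_def, norm_mul]
  rfl

theorem exists_bound [Module.Finite ℤ_[2] T] : ∃ C : ℝ, 0 ≤ C ∧ ∀ x, ‖φ x‖ ≤ C := by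
  obtain ⟨n, s, hs⟩ := Module.Finite.exists_fin (R := ℤ_[2]) (M := T)
  refine ⟨∑ I : κ → Fin n, ‖φ (fun k => s (I k))‖, Finset.sum_nonneg fun _ _ => norm_nonneg _,
    fun x => ?_⟩
  have h1 : ∀ k, ∃ c : Fin n → ℤ_[2], ∑ i, c i • s i = x k := by
    intro k
    have : x k ∈ Submodule.span ℤ_[2] (Set.range s) := by rw [hs]; trivial
    exact (Submodule.mem_span_range_iff_exists_fun _).1 this
  choose c hc using h1
  have h2 : φ x = ∑ I : κ → Fin n, (∏ k, c k (I k)) • φ (fun k => s (I k)) := by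
    have h3 : x = fun k => ∑ i, c k i • s i := funext fun k => (hc k).symm
    rw [h3, φ.map_sum]
    refine Finset.sum_congr rfl fun I _ => ?_
    rw [← φ.map_smul_univ]
  rw [h2]
  refine (norm_sum_le _ _).trans (Finset.sum_le_sum fun I _ => ?_)
  rw [norm_smul_le_two]
  exact mul_le_of_le_one_left (norm_nonneg _) (norm_le_one _)

/-- The derivation of a form given by an operator. -/
noncomputable def Dr' (X : T →ₗ[ℤ_[2]] T) (x : κ → T) : ℚ_[2] :=
  ∑ k, φ (Function.update x k (X (x k)))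

omit [Fintype κ] in
theorem piecewise_smul (c : ℤ_[2]) (w z : κ → T) (s : Finset κ) :
    φ (s.piecewise (c • w) z) = c ^ s.card • φ (s.piecewise w z) := by
  have h := φ.map_piecewise_smul (fun _ => c) (s.piecewise w z) s
  rw [Finset.prod_const] at h
  rw [← h]
  congr 1
  funext k
  by_cases hk : k ∈ s
  · simp [hk]
  · simp [hk]

theorem near {C : ℝ} (hC : ∀ x, ‖φ x‖ ≤ C) (c : ℤ_[2]) (z w : κ → T) :
    ‖φ (z + c • w) - φ z‖ ≤ 2 ^ Fintype.card κ * C * ‖c‖ := by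
  have hC0 : 0 ≤ C := (norm_nonneg _).trans (hC 0)
  rw [add_comm z, φ.map_add_univ, ← Finset.add_sum_erase _ _ (Finset.mem_univ (∅ : Finset κ)),
    Finset.piecewise_empty, add_sub_cancel_left]
  refine (norm_sum_le _ _).trans ?_
  have h1 : ∀ s ∈ Finset.univ.erase (∅ : Finset κ), ‖φ (s.piecewise (c • w) z)‖ ≤ C * ‖c‖ := by
    intro s hs
    have hs' : s ≠ ∅ := Finset.ne_of_mem_erase hs
    have hcard : s.card ≠ 0 := by rwa [Ne, Finset.card_eq_zero]
    rw [piecewise_smul, norm_smul_le_two, norm_pow, mul_comm]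
    apply mul_le_mul (hC _) _ (pow_nonneg (norm_nonneg _) _) hC0
    exact pow_le_of_le_one (norm_nonneg _) (norm_le_one _) hcard
  refine (Finset.sum_le_sum h1).trans ?_
  rw [Finset.sum_const, nsmul_eq_mul, mul_assoc]
  apply mul_le_mul_of_nonneg_right _ (mul_nonneg hC0 (norm_nonneg _))
  have h2 : (Finset.univ.erase (∅ : Finset κ)).card ≤ 2 ^ Fintype.card κ := by
    refine (Finset.card_erase_le).trans ?_
    rw [Finset.card_univ, Fintype.card_finset]
  exact_mod_cast h2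

theorem second {C : ℝ} (hC : ∀ x, ‖φ x‖ ≤ C) (c : ℤ_[2]) (z w : κ → T) :
    ‖φ (z + c • w) - φ z - c • ∑ k, φ (Function.update z k (w k))‖ ≤
      2 ^ Fintype.card κ * C * ‖c‖ ^ 2 := by
  have hC0 : 0 ≤ C := (norm_nonneg _).trans (hC 0)
  have h1 : φ (z + c • w) - φ z - c • ∑ k, φ (Function.update z k (w k)) =
      ∑ s ∈ Finset.univ.filter (fun s : Finset κ => 2 ≤ s.card), φ (s.piecewise (c • w) z) := by
    have e1 : ∑ s ∈ Finset.univ.filter (fun s : Finset κ => s.card = 0),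
        φ (s.piecewise (c • w) z) = φ z := by
      have : Finset.univ.filter (fun s : Finset κ => s.card = 0) = {∅} := by
        ext s
        simp
      rw [this, Finset.sum_singleton, Finset.piecewise_empty]
    have e2 : ∑ s ∈ Finset.univ.filter (fun s : Finset κ => s.card = 1),
        φ (s.piecewise (c • w) z) = c • ∑ k, φ (Function.update z k (w k)) := by
      rw [Finset.smul_sum]
      symm
      refine Finset.sum_bij (fun k _ => {k}) ?_ ?_ ?_ ?_
      · intro k _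
        simp
      · intro a _ b _ h
        exact Finset.singleton_injective h
      · intro s hs
        obtain ⟨k, hk⟩ := Finset.card_eq_one.1 (Finset.mem_filter.1 hs).2
        exact ⟨k, Finset.mem_univ _, hk.symm⟩
      · intro k _
        rw [piecewise_smul, Finset.card_singleton, pow_one, Finset.piecewise_singleton]
    rw [add_comm z, φ.map_add_univ, ← e1, ← e2, sub_sub, ← Finset.sum_union, ←
      Finset.filter_or, sub_eq_iff_eq_add, ← Finset.sum_union, ← Finset.filter_or]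
    · refine Finset.sum_congr ?_ fun _ _ => rfl
      ext s
      simp only [Finset.mem_univ, Finset.mem_filter, true_and, true_iff]
      omega
    · rw [Finset.disjoint_filter]
      intro s _ h
      omega
    · rw [Finset.disjoint_filter]
      intro s _ h
      omega
  rw [h1]
  refine (norm_sum_le _ _).trans ?_
  have h1 : ∀ s ∈ Finset.univ.filter (fun s : Finset κ => 2 ≤ s.card),
      ‖φ (s.piecewise (c • w) z)‖ ≤ C * ‖c‖ ^ 2 := by
    intro s hs
    rw [piecewise_smul, norm_smul_le_two, norm_pow, mul_comm]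
    apply mul_le_mul (hC _) _ (pow_nonneg (norm_nonneg _) _) hC0
    exact pow_le_pow_of_le_one (norm_nonneg _) (norm_le_one _) (Finset.mem_filter.1 hs).2
  refine (Finset.sum_le_sum h1).trans ?_
  rw [Finset.sum_const, nsmul_eq_mul, mul_assoc]
  apply mul_le_mul_of_nonneg_right _ (mul_nonneg hC0 (pow_nonneg (norm_nonneg _) _))
  have h2 : (Finset.univ.filter (fun s : Finset κ => 2 ≤ s.card)).card ≤ 2 ^ Fintype.card κ := by
    refine (Finset.card_filter_le _ _).trans ?_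
    rw [Finset.card_univ, Fintype.card_finset]
  exact_mod_cast h2

end forms

/-! ### the logarithm -/

section log

variable {T : Type*} [AddCommGroup T] [Module ℤ_[2] T]

/-- The sequence with `g ^ 2 ^ n = 1 + 2 ^ (n + 2) Y n`. -/
noncomputable def Ys (Y₀ : Module.End ℤ_[2] T) : ℕ → Module.End ℤ_[2] T
  | 0 => Y₀
  | n + 1 => Ys Y₀ n + (2 : ℤ_[2]) ^ (n + 1) • (Ys Y₀ n * Ys Y₀ n)

theorem Ys_pow (Y₀ : Module.End ℤ_[2] T) (n : ℕ) :
    (1 + (4 : ℤ_[2]) • Y₀) ^ 2 ^ n = 1 + (2 : ℤ_[2]) ^ (n + 2) • Ys Y₀ n := by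
  induction n with
  | zero =>
    rw [pow_zero, pow_one, zero_add]
    norm_num [Ys]
  | succ n ih =>
    rw [pow_succ, pow_mul, ih, pow_two, Ys]
    simp only [mul_add, add_mul, one_mul, mul_one, smul_add, mul_smul_comm, smul_mul_assoc,
      smul_smul]
    have e1 : (2 : ℤ_[2]) ^ (n + 1 + 2) * 2 ^ (n + 1) = 2 ^ (n + 2) * 2 ^ (n + 2) := by ring
    have e2 : (2 : ℤ_[2]) ^ (n + 1 + 2) = 2 ^ (n + 2) + 2 ^ (n + 2) := by ring
    rw [e1, e2, add_smul]
    abel

theorem exists_limit (N : Type*) [AddCommGroup N] [Module ℤ_[2] N] [Module.Finite ℤ_[2] N]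
    [Module.Free ℤ_[2] N] (f : ℕ → N) (hf : ∀ n, ∃ z, f (n + 1) - f n = (2 : ℤ_[2]) ^ n • z) :
    ∃ L, ∀ n, ∃ z, L - f n = (2 : ℤ_[2]) ^ n • z := by
  have h2 : ((2 : ℕ) : ℤ_[2]) = 2 := by norm_num
  let b := Module.Free.chooseBasis ℤ_[2] N
  let e := b.equivFun
  have h1 := isPrecomplete_pi (p := 2) (Module.Free.ChooseBasisIndex ℤ_[2] N)
  obtain ⟨L, hL⟩ := h1.prec' (fun n => e (f n)) (by
    intro m n hmn
    obtain ⟨d, rfl⟩ := Nat.exists_eq_add_of_le hmn
    clear hmn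
    induction d with
    | zero => rfl
    | succ d ih =>
      refine ih.trans ?_
      obtain ⟨z, hz⟩ := hf (m + d)
      apply SModEq.symm
      rw [SModEq.sub_mem, mem_pow_smul]
      refine ⟨(2 : ℤ_[2]) ^ d • e z, ?_⟩
      rw [h2, smul_smul, ← pow_add, ← map_smul, ← hz, map_sub]
      rfl)
  refine ⟨e.symm L, fun n => ?_⟩
  have h3 := hL n
  rw [SModEq.sub_mem, mem_pow_smul] at h3
  obtain ⟨y, hy⟩ := h3
  refine ⟨e.symm (-y), ?_⟩
  apply e.injective
  rw [map_sub, map_smul, LinearEquiv.apply_symm_apply, LinearEquiv.apply_symm_apply, smul_neg,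
    ← h2, hy, neg_sub]

theorem exists_log [Module.Finite ℤ_[2] T] [Module.Free ℤ_[2] T] (Y₀ : Module.End ℤ_[2] T) :
    ∃ Y : Module.End ℤ_[2] T, (∃ Z, Y - Y₀ = (2 : ℤ_[2]) • Z) ∧
      ∀ n, ∃ Z, Y - Ys Y₀ n = (2 : ℤ_[2]) ^ n • Z := by
  obtain ⟨L, hL⟩ := exists_limit (Module.End ℤ_[2] T) (fun n => Ys Y₀ n) (fun n =>
    ⟨(2 : ℤ_[2]) • (Ys Y₀ n * Ys Y₀ n), by
      rw [Ys, add_sub_cancel_left, smul_smul, ← pow_succ]⟩)
  refine ⟨L, ?_, hL⟩
  obtain ⟨Z, hZ⟩ := hL 1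
  refine ⟨Z + Ys Y₀ 0 * Ys Y₀ 0, ?_⟩
  have h1 : Ys Y₀ 1 = Ys Y₀ 0 + (2 : ℤ_[2]) ^ (0 + 1) • (Ys Y₀ 0 * Ys Y₀ 0) := rfl
  have h2 : L - Y₀ = (L - Ys Y₀ 1) + (Ys Y₀ 1 - Ys Y₀ 0) := by
    rw [sub_add_sub_cancel]
    rfl
  rw [h2, hZ, h1, add_sub_cancel_left, zero_add, pow_one, smul_add]

end log

section kill

variable {T : Type*} [AddCommGroup T] [Module ℤ_[2] T] {κ : Type*} [Fintype κ] [DecidableEq κ]
  (φ : MultilinearMap ℤ_[2] (fun _ : κ => T) ℚ_[2])

theorem norm_two_pow (n : ℕ) : ‖(2 : ℤ_[2]) ^ n‖ = (1 / 2) ^ n := by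
  have h := norm_p_pow (p := 2) n
  have h2 : ((2 : ℕ) : ℤ_[2]) = 2 := by norm_num
  rw [h2] at h
  rw [h, zpow_neg, zpow_natCast, one_div, inv_pow]
  norm_num

theorem eq_zero_of_le {x : ℚ_[2]} {K : ℝ} (h : ∀ n : ℕ, ‖x‖ ≤ K * (1 / 2) ^ n) : x = 0 := by
  rw [← norm_le_zero_iff]
  have h1 : Filter.Tendsto (fun n : ℕ => K * (1 / 2 : ℝ) ^ n) Filter.atTop (nhds (K * 0)) :=
    (tendsto_pow_atTop_nhds_zero_of_lt_one (by norm_num) (by norm_num)).const_mul K
  rw [mul_zero] at h1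
  exact ge_of_tendsto' h1 h

theorem pow_one_add (c : ℤ_[2]) (V : Module.End ℤ_[2] T) (l : ℕ) :
    ∃ W, (1 + c • V) ^ l = 1 + c • W := by
  induction l with
  | zero => exact ⟨0, by simp⟩
  | succ l ih =>
    obtain ⟨W, hW⟩ := ih
    refine ⟨W + V + c • (W * V), ?_⟩
    rw [pow_succ, hW]
    simp only [mul_add, add_mul, one_mul, mul_one, smul_add, mul_smul_comm, smul_mul_assoc]
    abel

theorem exists_inv_mod {m : ℕ} (hm : Odd m) (j : ℕ) : ∃ i l : ℕ, m * i = 1 + 2 ^ j * l := by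
  rcases Nat.eq_zero_or_pos j with rfl | hj
  · obtain ⟨k, hk⟩ := hm
    exact ⟨1, 2 * k, by omega⟩
  · have hcop : Nat.Coprime m (2 ^ j) := Nat.Coprime.pow_right j hm.coprime_two_right
    obtain ⟨i, hi⟩ := Nat.exists_mul_mod_eq_one_of_coprime hcop (Nat.one_lt_two_pow hj.ne')
    refine ⟨i, m * i / 2 ^ j, ?_⟩
    have := Nat.div_add_mod (m * i) (2 ^ j)
    omega

/-- A form with a finite orbit is fixed by high powers. -/
theorem fixed_pow [Module.Finite ℤ_[2] T] (Y₀ : Module.End ℤ_[2] T) {M : ℕ} (hM : M ≠ 0)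
    (hφ : ∀ x, φ (fun k => ((1 + (4 : ℤ_[2]) • Y₀) ^ M) (x k)) = φ x) :
    ∃ a, ∀ n, a ≤ n → ∀ x,
      φ (fun k => ((1 + (4 : ℤ_[2]) • Y₀) ^ 2 ^ n : Module.End ℤ_[2] T) (x k)) = φ x := by
  set g : Module.End ℤ_[2] T := 1 + (4 : ℤ_[2]) • Y₀ with hg
  obtain ⟨a, m, hm, rfl⟩ := Nat.exists_eq_two_pow_mul_odd hM
  refine ⟨a, fun n hn x => ?_⟩
  obtain ⟨C, hC0, hC⟩ := exists_bound φ
  -- powers of `g ^ M` fix the form
  have hpow : ∀ (i : ℕ) x, φ (fun k => (g ^ (2 ^ a * m * i)) (x k)) = φ x := by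
    intro i
    induction i with
    | zero => intro x; simp
    | succ i ih =>
      intro x
      rw [mul_add, mul_one, pow_add]
      exact (ih _).trans (hφ x)
  have key : ∀ j : ℕ, ‖φ (fun k => (g ^ 2 ^ n) (x k)) - φ x‖ ≤
      2 ^ Fintype.card κ * C * (1 / 2) ^ j := by
    intro j
    -- an inverse of `m`
    obtain ⟨i, l, hil⟩ := exists_inv_mod hm j
    have h1 : 2 ^ a * m * (2 ^ (n - a) * i) = 2 ^ (n + j) * l + 2 ^ n := by
      have h2 : 2 ^ n = 2 ^ a * 2 ^ (n - a) := by rw [← pow_add, Nat.add_sub_cancel' hn]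
      have h3 : 2 ^ a * m * (2 ^ (n - a) * i) = 2 ^ n * (m * i) := by rw [h2]; ring
      rw [h3, hil, pow_add]
      ring
    obtain ⟨W, hW⟩ : ∃ W, g ^ (2 ^ (n + j) * l) = 1 + (2 : ℤ_[2]) ^ (n + j + 2) • W := by
      rw [pow_mul, hg, Ys_pow]
      exact pow_one_add _ _ _
    have h2 := hpow (2 ^ (n - a) * i) x
    rw [h1] at h2
    have h3 : (fun k => (g ^ (2 ^ (n + j) * l + 2 ^ n)) (x k)) =
        (fun k => (g ^ 2 ^ n) (x k)) + (2 : ℤ_[2]) ^ (n + j + 2) •
          (fun k => W ((g ^ 2 ^ n) (x k))) := by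
      funext k
      rw [pow_add, Module.End.mul_apply, hW]
      rfl
    rw [h3] at h2
    rw [← h2, ← norm_neg, neg_sub]
    refine (near φ hC _ _ _).trans ?_
    rw [norm_two_pow]
    apply mul_le_mul_of_nonneg_left _ (mul_nonneg (by positivity) hC0)
    apply pow_le_pow_of_le_one (by norm_num) (by norm_num)
    omega
  exact sub_eq_zero.1 (eq_zero_of_le key)

/-- The logarithm kills the forms with a finite orbit. -/
theorem log_kills [Module.Finite ℤ_[2] T] (Y₀ : Module.End ℤ_[2] T) {M : ℕ} (hM : M ≠ 0)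
    (hφ : ∀ x, φ (fun k => ((1 + (4 : ℤ_[2]) • Y₀) ^ M : Module.End ℤ_[2] T) (x k)) = φ x)
    {Y : Module.End ℤ_[2] T} (hY : ∀ n, ∃ Z, Y - Ys Y₀ n = (2 : ℤ_[2]) ^ n • Z) (x : κ → T) :
    ∑ k, φ (Function.update x k (Y (x k))) = 0 := by
  obtain ⟨a, ha⟩ := fixed_pow φ Y₀ hM hφ
  obtain ⟨C, hC0, hC⟩ := exists_bound φ
  have key : ∀ n, a ≤ n → ‖∑ k, φ (Function.update x k (Y (x k)))‖ ≤
      (2 ^ Fintype.card κ * C + Fintype.card κ * C) * (1 / 2) ^ n := by
    intro n hn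
    have h1 := second φ hC ((2 : ℤ_[2]) ^ (n + 2)) x (fun k => Ys Y₀ n (x k))
    have h2 : φ (x + (2 : ℤ_[2]) ^ (n + 2) • fun k => Ys Y₀ n (x k)) = φ x := by
      rw [← ha n hn x]
      congr 1
      funext k
      rw [Ys_pow]
      rfl
    rw [h2, sub_self, zero_sub, norm_neg, norm_smul_le_two, norm_two_pow] at h1
    have h3 : ‖∑ k, φ (Function.update x k (Ys Y₀ n (x k)))‖ ≤
        2 ^ Fintype.card κ * C * (1 / 2) ^ n := by
      have hpos : (0 : ℝ) < (1 / 2) ^ (n + 2) := by positivity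
      have h4 : (1 / 2 : ℝ) ^ (n + 2) * ‖∑ k, φ (Function.update x k (Ys Y₀ n (x k)))‖ ≤
          (1 / 2) ^ (n + 2) * (2 ^ Fintype.card κ * C * (1 / 2) ^ (n + 2)) := by
        refine h1.trans (le_of_eq ?_)
        ring
      have h5 := le_of_mul_le_mul_left h4 hpos
      refine h5.trans ?_
      apply mul_le_mul_of_nonneg_left _ (mul_nonneg (by positivity) hC0)
      exact pow_le_pow_of_le_one (by norm_num) (by norm_num) (by omega)
    obtain ⟨Z, hZ⟩ := hY n
    have h4 : ∑ k, φ (Function.update x k (Y (x k))) =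
        ∑ k, φ (Function.update x k (Ys Y₀ n (x k))) +
          (2 : ℤ_[2]) ^ n • ∑ k, φ (Function.update x k (Z (x k))) := by
      rw [Finset.smul_sum, ← Finset.sum_add_distrib]
      refine Finset.sum_congr rfl fun k _ => ?_
      rw [← φ.map_update_smul, ← φ.map_update_add]
      congr 2
      rw [← LinearMap.smul_apply, ← hZ, LinearMap.sub_apply]
      abel
    rw [h4]
    refine (norm_add_le _ _).trans ?_
    rw [norm_smul_le_two, norm_two_pow, add_mul]
    apply add_le_add h3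
    rw [mul_comm]
    apply mul_le_mul_of_nonneg_right _ (by positivity)
    refine (norm_sum_le _ _).trans ((Finset.sum_le_sum fun k _ => hC _).trans (le_of_eq ?_))
    rw [Finset.sum_const, nsmul_eq_mul, Finset.card_univ]
  refine eq_zero_of_le (K := (2 ^ Fintype.card κ * C + Fintype.card κ * C)) fun n => ?_
  refine (key (n + a) (Nat.le_add_left _ _)).trans ?_
  apply mul_le_mul_of_nonneg_left _ (by positivity)
  exact pow_le_pow_of_le_one (by norm_num) (by norm_num) (Nat.le_add_right _ _)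

end kill

end Pool.Agent.N171
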