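import Mathlib
import Pool.Agent.N171.Lg

/-!
# Symplectic Lie algebras over the 2-adic integers
-/

namespace Pool.Agent.N171

open PadicInt

section

variable {T : Type*} [AddCommGroup T] [Module ℤ_[2] T] (B : T →ₗ[ℤ_[2]] T →ₗ[ℤ_[2]] ℤ_[2])

/-- The operator `x ↦ B (u, x) w`. -/
noncomputable def Eo (u w : T) : Module.End ℤ_[2] T := (B u).smulRight w

theorem Eo_apply (u w x : T) : Eo B u w x = B u x • w := rfl

/-- The operator `x ↦ B (u, x) w + B (w, x) u`. -/
noncomputable def so (u w : T) : Module.End ℤ_[2] T := Eo B u w + Eo B w u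

theorem so_apply (u w x : T) : so B u w x = B u x • w + B w x • u := rfl

theorem so_comm (u w : T) : so B u w = so B w u := add_comm _ _

theorem so_self (u : T) : so B u u = (2 : ℤ_[2]) • Eo B u u := (two_smul _ _).symm

theorem so_add_left (u u' w : T) : so B (u + u') w = so B u w + so B u' w := by
  ext x
  simp only [so_apply, LinearMap.add_apply, map_add, smul_add, add_smul]
  abel

theorem so_smul_left (c : ℤ_[2]) (u w : T) : so B (c • u) w = c • so B u w := by
  ext x
  simp only [so_apply, LinearMap.smul_apply, map_smul, smul_add, smul_smul, smul_eq_mul]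
  rw [mul_comm c (B w x)]

theorem so_add_right (u w w' : T) : so B u (w + w') = so B u w + so B u w' := by
  rw [so_comm, so_add_left, so_comm B w, so_comm B w']

theorem so_smul_right (c : ℤ_[2]) (u w : T) : so B u (c • w) = c • so B u w := by
  rw [so_comm, so_smul_left, so_comm]

theorem Eo_add (u w : T) : Eo B (u + w) (u + w) = Eo B u u + Eo B w w + so B u w := by
  ext x
  simp only [Eo_apply, so_apply, LinearMap.add_apply, map_add, smul_add, add_smul]
  abel

theorem Eo_smul (c : ℤ_[2]) (u : T) : Eo B (c • u) (c • u) = (c * c) • Eo B u u := by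
  ext x
  simp only [Eo_apply, LinearMap.smul_apply, map_smul, smul_smul, smul_eq_mul]
  congr 1
  ring

variable (halt : ∀ x, B x x = 0)

include halt in
theorem B_anti (x y : T) : B x y = -B y x := by
  have h := halt (x + y)
  simp only [map_add, LinearMap.add_apply, halt, zero_add, add_zero] at h
  exact eq_neg_of_add_eq_zero_right h

include halt in
theorem bracket_Eo (u w : T) : Eo B u u * Eo B w w - Eo B w w * Eo B u u =
    B u w • so B u w := by
  ext x
  simp only [LinearMap.sub_apply, Module.End.mul_apply, Eo_apply, so_apply, LinearMap.smul_apply,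
    map_smul, smul_add, smul_smul]
  rw [B_anti B halt w u]
  module

include halt in
theorem bracket_so (l u m : T) : Eo B l l * so B u m - so B u m * Eo B l l =
    B l m • so B u l + B l u • so B m l := by
  ext x
  simp only [LinearMap.sub_apply, Module.End.mul_apply, Eo_apply, so_apply, LinearMap.smul_apply,
    map_smul, map_add, smul_add, smul_smul, LinearMap.add_apply]
  rw [B_anti B halt u l, B_anti B halt m l]
  module

/-! ### generation modulo two -/

variable {κ Q : Type*} (v : κ → T) (q : κ → Q)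
  (𝔫 : Submodule ℤ_[2] (Module.End ℤ_[2] T)) (h2 : ∀ X, (2 : ℤ_[2]) • X ∈ 𝔫)
  (hbr : ∀ X ∈ 𝔫, ∀ Y ∈ 𝔫, X * Y - Y * X ∈ 𝔫) (hv : ∀ k, Eo B (v k) (v k) ∈ 𝔫)

/-- Adjacency. -/
def Adj (k l : κ) : Prop := q k = q l ∧ IsUnit (B (v k) (v l))

theorem mem_of_unit_smul {c : ℤ_[2]} (hc : IsUnit c) {X : Module.End ℤ_[2] T}
    (h : c • X ∈ 𝔫) : X ∈ 𝔫 := by
  obtain ⟨u, rfl⟩ := hc
  have := 𝔫.smul_mem ((u⁻¹ : ℤ_[2]ˣ) : ℤ_[2]) h
  rwa [smul_smul, Units.inv_mul, one_smul] at this

include halt hbr hv in
theorem so_adj {k l : κ} (h : Adj B v q k l) : so B (v k) (v l) ∈ 𝔫 := by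
  apply mem_of_unit_smul 𝔫 h.2
  rw [← bracket_Eo B halt]
  exact hbr _ (hv k) _ (hv l)

include halt h2 hbr hv in
theorem so_conn {k l : κ} (h : Relation.ReflTransGen (Adj B v q) k l) :
    so B (v k) (v l) ∈ 𝔫 := by
  induction h with
  | refl =>
    rw [so_self]
    exact h2 _
  | @tail m l _ hml ih =>
    have h1 : IsUnit (B (v l) (v m)) := by
      rw [B_anti B halt]
      exact hml.2.neg
    apply mem_of_unit_smul 𝔫 h1
    have h3 := bracket_so B halt (v l) (v k) (v m)
    have h4 := hbr _ (hv l) _ ih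
    rw [h3] at h4
    have h5 := 𝔫.smul_mem (B (v l) (v k)) (so_adj B halt v q 𝔫 hbr hv hml)
    have h6 := 𝔫.sub_mem h4 h5
    rwa [add_sub_cancel_right] at h6

/-- The span modulo two of the vectors of a component. -/
noncomputable def Wq (c : Q) : Submodule ℤ_[2] T :=
  Submodule.span ℤ_[2] ({x | ∃ k, q k = c ∧ v k = x} ∪ {x | ∃ y, (2 : ℤ_[2]) • y = x})

variable (hconn : ∀ k l, q k = q l → Relation.ReflTransGen (Adj B v q) k l)

include halt h2 hbr hv hconn in
theorem so_mem {c : Q} {u w : T} (hu : u ∈ Wq v q c) (hw : w ∈ Wq v q c) : so B u w ∈ 𝔫 := by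
  have h2' : ∀ y w, so B ((2 : ℤ_[2]) • y) w ∈ 𝔫 := fun y w => by
    rw [so_smul_left]
    exact h2 _
  induction hu using Submodule.span_induction with
  | mem u hu =>
    rcases hu with ⟨k, hk, rfl⟩ | ⟨y, rfl⟩
    · induction hw using Submodule.span_induction with
      | mem w hw =>
        rcases hw with ⟨l, hl, rfl⟩ | ⟨y, rfl⟩
        · exact so_conn B halt v q 𝔫 h2 hbr hv (hconn k l (hk.trans hl.symm))
        · rw [so_comm]
          exact h2' _ _
      | zero =>
        have : so B (v k) 0 = 0 := by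
          have h := so_smul_right B 0 (v k) 0
          rwa [zero_smul, zero_smul] at h
        rw [this]
        exact 𝔫.zero_mem
      | add a b _ _ ha hb =>
        rw [so_add_right]
        exact 𝔫.add_mem ha hb
      | smul c a _ ha =>
        rw [so_smul_right]
        exact 𝔫.smul_mem c ha
    · exact h2' _ _
  | zero =>
    have : so B 0 w = 0 := by
      have h := so_smul_left B 0 0 w
      rwa [zero_smul, zero_smul] at h
    rw [this]
    exact 𝔫.zero_mem
  | add a b _ _ ha hb =>
    rw [so_add_left]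
    exact 𝔫.add_mem ha hb
  | smul c a _ ha =>
    rw [so_smul_left]
    exact 𝔫.smul_mem c ha

include halt h2 hbr hv hconn in
theorem Eo_mem {c : Q} {u : T} (hu : u ∈ Wq v q c) : Eo B u u ∈ 𝔫 := by
  induction hu using Submodule.span_induction with
  | mem u hu =>
    rcases hu with ⟨k, hk, rfl⟩ | ⟨y, rfl⟩
    · exact hv k
    · rw [Eo_smul, mul_smul]
      exact h2 _
  | zero =>
    have : Eo B 0 0 = 0 := by
      have h := Eo_smul B 0 0
      rwa [zero_smul, zero_mul, zero_smul] at h
    rw [this]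
    exact 𝔫.zero_mem
  | add a b ha hb ha' hb' =>
    rw [Eo_add]
    exact 𝔫.add_mem (𝔫.add_mem ha' hb') (so_mem B halt v q 𝔫 h2 hbr hv hconn ha hb)
  | smul c a _ ha =>
    rw [Eo_smul]
    exact 𝔫.smul_mem _ ha

end

/-! ### the dual basis -/

section dual

variable {T : Type*} [AddCommGroup T] [Module ℤ_[2] T] (B : T →ₗ[ℤ_[2]] T →ₗ[ℤ_[2]] ℤ_[2])
  (hnd : ∀ v, (∀ w, ¬ IsUnit (B v w)) → ∃ u, (2 : ℤ_[2]) • u = v)

theorem isUnit_iff_toZModPow (z : ℤ_[2]) : IsUnit z ↔ toZModPow 1 z ≠ 0 := by
  rw [Ne, ← RingHom.mem_ker, ker_toZModPow, pow_one, ← maximalIdeal_eq_span_p,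
    IsLocalRing.mem_maximalIdeal, mem_nonunits_iff, not_not]

include hnd in
theorem exists_dual {n : ℕ} (b : Module.Basis (Fin n) ℤ_[2] T) :
    (∃ b' : Fin n → T, ∀ i j, B (b' i) (b j) = if i = j then 1 else 0) ∧
      ∀ x, (∀ j, B x (b j) = 0) → x = 0 := by
  have h22 : Fact (Nat.Prime (2 ^ 1)) := ⟨by norm_num⟩
  let G : Matrix (Fin n) (Fin n) ℤ_[2] := fun i j => B (b i) (b j)
  have hG : IsUnit G.det := by
    rw [isUnit_iff_toZModPow]
    intro h0
    rw [RingHom.map_det] at h0
    obtain ⟨c, hc0, hc⟩ := Matrix.exists_vecMul_eq_zero_iff.2 h0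
    have hsurj : Function.Surjective (toZModPow 1 : ℤ_[2] →+* ZMod (2 ^ 1)) :=
      ZMod.ringHom_surjective _
    choose c' hc' using fun i => hsurj (c i)
    obtain ⟨u, hu⟩ := hnd (∑ i, c' i • b i) (fun w => by
      rw [isUnit_iff_toZModPow, not_not]
      have h1 : w = ∑ j, b.repr w j • b j := (b.sum_repr w).symm
      rw [h1]
      simp only [map_sum, LinearMap.sum_apply, map_smul, LinearMap.smul_apply, smul_eq_mul,
        map_mul, hc']
      refine Finset.sum_eq_zero fun j _ => ?_
      have h3 := congrFun hc j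
      have h4 : ∑ i, c i * toZModPow 1 (B (b i) (b j)) = 0 := h3
      rw [h4, mul_zero])
    apply hc0
    funext i
    have h1 := congrArg (fun x => b.repr x i) hu
    simp only [map_smul, Finsupp.smul_apply, smul_eq_mul, map_sum, Finsupp.finsetSum_apply,
      b.repr_self, Finsupp.single_apply, mul_ite, mul_one, mul_zero, Finset.sum_ite_eq',
      Finset.mem_univ, if_true] at h1
    rw [← hc', ← h1, map_mul]
    have h2 : toZModPow 1 (2 : ℤ_[2]) = (0 : ZMod (2 ^ 1)) := by
      rw [map_ofNat]
      rfl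
    rw [h2, zero_mul]
    rfl
  have hGG : G⁻¹ * G = 1 := Matrix.nonsing_inv_mul G hG
  have hGG' : G * G⁻¹ = 1 := Matrix.mul_nonsing_inv G hG
  constructor
  · refine ⟨fun i => ∑ k, G⁻¹ i k • b k, fun i j => ?_⟩
    have h1 := congrFun (congrFun hGG i) j
    rw [Matrix.mul_apply, Matrix.one_apply] at h1
    rw [← h1]
    simp only [map_sum, LinearMap.sum_apply, map_smul, LinearMap.smul_apply, smul_eq_mul]
    rfl
  · intro x hx
    have h1 : Matrix.vecMul (fun i => b.repr x i) G = 0 := by
      funext j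
      have h2 := hx j
      have h3 : x = ∑ i, b.repr x i • b i := (b.sum_repr x).symm
      rw [h3] at h2
      simp only [map_sum, LinearMap.sum_apply, map_smul, LinearMap.smul_apply, smul_eq_mul] at h2
      exact h2
    have h2 := congrArg (fun y => Matrix.vecMul y G⁻¹) h1
    simp only [Matrix.vecMul_vecMul, hGG', Matrix.vecMul_one, Matrix.zero_vecMul] at h2
    apply b.repr.injective
    ext i
    rw [map_zero, Finsupp.zero_apply]
    exact congrFun h2 i

theorem sym_sum_mem {ι R N : Type*} [CommRing R] [AddCommGroup N] [Module R N]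
    (S : Submodule R N) (β : ι → ι → R) (E : ι → ι → N) (hβ : ∀ i j, β i j = β j i)
    (h1 : ∀ i, E i i ∈ S) (h2 : ∀ i j, E i j + E j i ∈ S) (s : Finset ι) :
    ∑ i ∈ s, ∑ j ∈ s, β i j • E i j ∈ S := by
  classical
  induction s using Finset.induction_on with
  | empty => simp
  | insert a s ha ih =>
    have h3 : ∑ i ∈ insert a s, ∑ j ∈ insert a s, β i j • E i j =
        β a a • E a a + ∑ j ∈ s, β a j • (E a j + E j a) + ∑ i ∈ s, ∑ j ∈ s, β i j • E i j := by
      rw [Finset.sum_insert ha, Finset.sum_insert ha]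
      have h4 : ∀ i ∈ s, ∑ j ∈ insert a s, β i j • E i j = β a i • E i a +
          ∑ j ∈ s, β i j • E i j := by
        intro i _
        rw [Finset.sum_insert ha, hβ i a]
      rw [Finset.sum_congr rfl h4, Finset.sum_add_distrib]
      simp only [smul_add, Finset.sum_add_distrib]
      abel
    rw [h3]
    exact S.add_mem (S.add_mem (S.smul_mem _ (h1 a))
      (S.sum_mem fun j _ => S.smul_mem _ (h2 a j))) ih

variable {Q : Type*} [Fintype Q] (π : Q → Module.End ℤ_[2] T)

/-- The Lie algebra of the isometries that respect the projections. -/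
def spQ : Submodule ℤ_[2] (Module.End ℤ_[2] T) where
  carrier := {X | (∀ x y, B (X x) y + B x (X y) = 0) ∧ ∀ q x, X (π q x) = π q (X x)}
  zero_mem' := ⟨fun x y => by simp, fun q x => by simp⟩
  add_mem' := by
    rintro X Y ⟨h1, h2⟩ ⟨h3, h4⟩
    refine ⟨fun x y => ?_, fun q x => ?_⟩
    · simp only [LinearMap.add_apply, map_add]
      linear_combination h1 x y + h3 x y
    · simp only [LinearMap.add_apply, map_add, h2, h4]
  smul_mem' := by
    rintro c X ⟨h1, h2⟩
    refine ⟨fun x y => ?_, fun q x => ?_⟩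
    · simp only [LinearMap.smul_apply, map_smul, smul_eq_mul]
      linear_combination c * h1 x y
    · simp only [LinearMap.smul_apply, map_smul, h2]

variable (halt : ∀ x, B x x = 0) (hπ1 : ∀ x, ∑ q, π q x = x) (hππ : ∀ q x, π q (π q x) = π q x)
  (hBπ : ∀ q x y, B (π q x) y = B x (π q y))

include hnd halt hπ1 hππ hBπ in
theorem spQ_le {n : ℕ} (b : Module.Basis (Fin n) ℤ_[2] T)
    (S : Submodule ℤ_[2] (Module.End ℤ_[2] T))
    (hE : ∀ q u, Eo B (π q u) (π q u) ∈ S) (hs : ∀ q u w, so B (π q u) (π q w) ∈ S) :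
    spQ B π ≤ S := by
  rintro X ⟨hX1, hX2⟩
  obtain ⟨⟨b', hb'⟩, hnd'⟩ := exists_dual B hnd b
  have hX : X = ∑ q, ∑ i, ∑ j, B (X (b i)) (b j) • Eo B (π q (b' i)) (π q (b' j)) := by
    have h1 : ∀ x, X x = ∑ i, ∑ j, B (X (b i)) (b j) • (B (b' i) x • b' j) := by
      have h2 : X = ∑ i, ∑ j, B (X (b i)) (b j) • Eo B (b' i) (b' j) := by
        refine b.ext fun k => ?_
        rw [← sub_eq_zero]
        apply hnd'
        intro l
        simp only [LinearMap.sum_apply, LinearMap.smul_apply, Eo_apply, hb', map_sub, map_sum,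
          map_smul, LinearMap.sub_apply, smul_eq_mul, ite_smul, one_smul, zero_smul]
        rw [Finset.sum_eq_single k]
        · rw [Finset.sum_eq_single l]
          · simp
            ring_nf
            simp [hb']
          · intro j _ hj
            simp [hb', hj]
          · intro h
            exact absurd (Finset.mem_univ _) h
        · intro i _ hi
          refine Finset.sum_eq_zero fun j _ => ?_
          simp [hi]
        · intro h
          exact absurd (Finset.mem_univ _) h
      intro x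
      conv_lhs => rw [h2]
      simp only [LinearMap.sum_apply, LinearMap.smul_apply, Eo_apply]
    ext x
    have h3 : X x = ∑ q, π q (X (π q x)) := by
      conv_lhs => rw [← hπ1 x, map_sum]
      refine Finset.sum_congr rfl fun q _ => ?_
      rw [← hX2, hππ]
    rw [h3]
    simp only [LinearMap.sum_apply, LinearMap.smul_apply, Eo_apply]
    refine Finset.sum_congr rfl fun q _ => ?_
    rw [h1, map_sum]
    refine Finset.sum_congr rfl fun i _ => ?_
    rw [map_sum]
    refine Finset.sum_congr rfl fun j _ => ?_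
    rw [map_smul, map_smul, hBπ]
  rw [hX]
  refine S.sum_mem fun q _ => ?_
  apply sym_sum_mem S _ (fun i j => Eo B (π q (b' i)) (π q (b' j)))
  · intro i j
    have h1 := hX1 (b i) (b j)
    rw [B_anti B halt (b i)] at h1
    linear_combination h1
  · exact fun i => hE q _
  · exact fun i j => hs q _ _

end dual

end Pool.Agent.N171
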