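import Mathlib
import Pool.Agent.N171.Bas
import Pool.Agent.H204R3.GP.Defs
import Pool.Agent.H204R3.GP.DescentG
import Pool.Agent.W437.HD.Darboux

/-!
# Tate classes of a product with a large Lie algebra
-/

set_option linter.unusedSectionVars false

namespace Pool.Agent.N171

open Module Pool.Agent.H204R3.CM Pool.Agent.H204R3.SP Pool.Agent.H204R3.GP Pool.Agent.W437.HD

noncomputable section

/-- The products of the forms `ω (P q x) y`. -/
def PW {Ω : Type*} [Field Ω] {V : Type*} [AddCommGroup V] [Module Ω V] (ω : V →ₗ[Ω] V →ₗ[Ω] Ω)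
    {Q : Type*} (P : Q → Module.End Ω V) (m : ℕ) :
    Set (MultilinearMap Ω (fun _ : Fin m × Fin 2 => V) Ω) :=
  {φ | ∃ (σ : Equiv.Perm (Fin m × Fin 2)) (c : Fin m → Q), φ = mmG σ (fun l => ω.comp (P (c l)))}

theorem tateP_mem {Ω : Type*} [Field Ω] [CharZero Ω] {V : Type*} [AddCommGroup V] [Module Ω V]
    {R : Type*} [Fintype R] [DecidableEq R] (e : Basis R Ω V) {inv : R → R} {jj : R → Ω}
    (hinv : ∀ x, inv (inv x) = x) (hjj : ∀ x, jj (inv x) = -jj x) (hj0 : ∀ x, jj x ≠ 0)
    (ω : V →ₗ[Ω] V →ₗ[Ω] Ω) (hω : ∀ x y, ω (e x) (e y) = JJ inv jj x y)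
    {Γ : Type*} [Group Γ] (ρ : Representation Ω Γ V) (χ : Γ →* Ω)
    {Q : Type*} [DecidableEq Q] [Fintype Q] (cls : R → Q) (hcls : ∀ x, cls (inv x) = cls x)
    (hSS : ∀ b c, cls b = cls c → SS ω (e b) (e c) ∈ lieT ρ χ)
    {m : ℕ} (φ : MultilinearMap Ω (fun _ : Fin m × Fin 2 => V) Ω) (hφ : IsTate ρ χ m φ) :
    φ ∈ Submodule.span Ω (PW ω (fun c => PC e cls c) m) := by
  classical
  let BC : Q → (V →ₗ[Ω] V →ₗ[Ω] Ω) := fun c => ω.comp (PC e cls c)
  have hBC' : ∀ c x y, BC c (e x) (e y) = if cls x = c then JJ inv jj x y else 0 := by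
    intro c x y
    change ω (PC e cls c (e x)) (e y) = _
    rw [PC_basis]
    split_ifs
    · rw [hω]
    · rw [map_zero, LinearMap.zero_apply]
  let coef : MultilinearMap Ω (fun _ : Fin m × Fin 2 => V) Ω →ₗ[Ω] ((Fin m × Fin 2 → R) → Ω) :=
    { toFun := fun φ I => φ (fun k => e (I k))
      map_add' := fun _ _ => rfl
      map_smul' := fun _ _ => rfl }
  have hinj : Function.Injective coef := fun φ φ' h =>
    Basis.ext_multilinear (fun _ => e) fun I => congrFun h I
  have hrel : ∀ b c, cls (inv b) = cls c → ∀ I : Fin m × Fin 2 → R,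
      ∑ k, (JJ inv jj b (I k) * coef φ (Function.update I k c) +
        JJ inv jj c (I k) * coef φ (Function.update I k b)) = 0 := by
    intro b c hbc I
    have h2 : SS ω (e b) (e c) ∈ lieT ρ χ := hSS b c (by rw [← hcls b, hbc])
    have h3 := h2 m φ hφ (fun k => e (I k))
    rw [← h3]
    refine Finset.sum_congr rfl fun k _ => ?_
    rw [SS_apply, hω, hω, MultilinearMap.map_update_add, MultilinearMap.map_update_smul,
      MultilinearMap.map_update_smul, smul_eq_mul, smul_eq_mul]
    have h4 : ∀ z : R, coef φ (Function.update I k z) =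
        φ (Function.update (fun k => e (I k)) k (e z)) := by
      intro z
      change φ (fun l => e (Function.update I k z l)) = _
      congr 1
      funext l
      by_cases hl : l = k
      · subst hl
        rw [Function.update_self, Function.update_self]
      · rw [Function.update_of_ne hl, Function.update_of_ne hl]
    rw [h4, h4]
  let F : (Fin m × Fin 2 → Q) → ((Fin m × Fin 2 → R) → Ω) := fun t I =>
    if (fun k => cls (I k)) = t then coef φ I else 0
  have hF : coef φ = ∑ t, F t := by
    funext I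
    rw [Finset.sum_apply]
    simp only [F]
    rw [Finset.sum_ite_eq, if_pos (Finset.mem_univ _)]
  have hFt : ∀ t, F t ∈ InvG cls inv jj (Fin m × Fin 2) t := by
    intro t
    refine ⟨fun b c hbc I => ?_, fun I hI k => ?_⟩
    · have htype : ∀ (k : Fin m × Fin 2) (z : R), cls (I k) = cls z →
          (fun l => cls (Function.update I k z l)) = fun l => cls (I l) := by
        intro k z hz
        funext l
        by_cases hl : l = k
        · subst hl
          rw [Function.update_self, hz]
        · rw [Function.update_of_ne hl]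
      have h1 : ∀ k, JJ inv jj b (I k) * F t (Function.update I k c) +
          JJ inv jj c (I k) * F t (Function.update I k b) =
          if (fun k => cls (I k)) = t then JJ inv jj b (I k) * coef φ (Function.update I k c) +
            JJ inv jj c (I k) * coef φ (Function.update I k b) else 0 := by
        intro k
        have e1 : JJ inv jj b (I k) * F t (Function.update I k c) =
            if (fun k => cls (I k)) = t then JJ inv jj b (I k) *
              coef φ (Function.update I k c) else 0 := by
          by_cases h : I k = inv b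
          · have h2 := htype k c (by rw [h, hbc])
            simp only [F]
            rw [h2]
            split_ifs
            · rfl
            · rw [mul_zero]
          · have h2 : JJ inv jj b (I k) = 0 := by
              unfold JJ
              rw [if_neg h]
            rw [h2, zero_mul, zero_mul]
            split_ifs <;> rfl
        have e2 : JJ inv jj c (I k) * F t (Function.update I k b) =
            if (fun k => cls (I k)) = t then JJ inv jj c (I k) *
              coef φ (Function.update I k b) else 0 := by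
          by_cases h : I k = inv c
          · have h2 := htype k b (by rw [h, hcls, ← hbc, hcls])
            simp only [F]
            rw [h2]
            split_ifs
            · rfl
            · rw [mul_zero]
          · have h2 : JJ inv jj c (I k) = 0 := by
              unfold JJ
              rw [if_neg h]
            rw [h2, zero_mul, zero_mul]
            split_ifs <;> rfl
        rw [e1, e2]
        split_ifs
        · rfl
        · rw [add_zero]
      rw [Finset.sum_congr rfl (fun k _ => h1 k)]
      by_cases hI : (fun k => cls (I k)) = t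
      · simp only [if_pos hI]
        exact hrel b c hbc I
      · simp only [if_neg hI]
        exact Finset.sum_const_zero
    · by_contra h
      apply hI
      simp only [F]
      rw [if_neg]
      rintro rfl
      exact h rfl
  have h1 : coef φ ∈ MatG cls inv jj (Fin m × Fin 2) m := by
    rw [hF]
    exact Submodule.sum_mem _ fun t _ => fftG hinv hjj hj0
      (fun x y h => by rw [hcls, hcls, h]) m (Fin m × Fin 2)
      (by simp [mul_comm]) t (hFt t)
  have h3 : MatG cls inv jj (Fin m × Fin 2) m ≤
      (Submodule.span Ω (PW ω (fun c => PC e cls c) m)).map coef := by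
    unfold MatG
    rw [Submodule.span_le]
    rintro _ ⟨σ, c, rfl⟩
    refine ⟨mmG σ (fun l => BC (c l)), Submodule.subset_span ⟨σ, c, rfl⟩, ?_⟩
    funext I
    change mmG σ (fun l => BC (c l)) (fun k => e (I k)) = _
    rw [mmG_apply]
    exact Finset.prod_congr rfl fun s _ => hBC' _ _ _
  obtain ⟨φ', hφ', hφφ⟩ := h3 h1
  rw [← hinj hφφ]
  exact hφ'

theorem altW_of_tate_mem {k : Type*} [Field k] [CharZero k] {V : Type*} [AddCommGroup V]
    [Module k V] (ω : V →ₗ[k] V →ₗ[k] k) (hanti : ∀ v w, ω v w = -ω w v)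
    {Γ : Type*} [Group Γ] (ρ : Representation k Γ V) (χ : Γ →* k) {Q : Type*}
    (P : Q → Module.End k V) (hωP : ∀ q x y, ω (P q x) y = ω x (P q y)) {n m : ℕ}
    (hall : ∀ φ : MultilinearMap k (fun _ : Fin m × Fin 2 => V) k, IsTate ρ χ m φ →
      φ ∈ Submodule.span k (PW ω P m))
    (f : (Fin n → V) [⋀^Fin m × Fin 2]→ₗ[k] k) (hf : IsTateClass ρ χ m f) :
    f ∈ Submodule.span k {g : (Fin n → V) [⋀^Fin m × Fin 2]→ₗ[k] k |
      ∃ B : Fin m → (Fin n → V) [⋀^Fin 2]→ₗ[k] k,
        (∀ l, IsLef (fun q => ω.comp (P q)) (B l)) ∧ IsWedge B g} := by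
  classical
  obtain ⟨Δ, hΔ, hf⟩ := hf
  let BB : Set (MultilinearMap k (fun _ : Fin 2 => Fin n → V) k) :=
    {B | ∃ (q : Q) (i j : Fin n), B = bil2 ((ω.comp (P q)).compl₁₂
      (LinearMap.proj (R := k) (φ := fun _ : Fin n => V) i)
      (LinearMap.proj (R := k) (φ := fun _ : Fin n => V) j))}
  have hmem : (fun v => f v) ∈ Submodule.span k {g : (Fin m × Fin 2 → Fin n → V) → k |
      ∃ (e : Equiv.Perm (Fin m × Fin 2))
        (B : Fin m → MultilinearMap k (fun _ : Fin 2 => Fin n → V) k),
        (∀ s, B s ∈ BB) ∧ g = fun v => ∏ s, B s (fun ε => v (e (s, ε)))} := by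
    let fc : (Fin m × Fin 2 → Fin n) → MultilinearMap k (fun _ : Fin m × Fin 2 => V) k := fun c =>
      f.toMultilinearMap.compLinearMap (fun l => LinearMap.single k (fun _ : Fin n => V) (c l))
    have hfc : ∀ c, IsTate ρ χ m (fc c) := by
      intro c
      refine ⟨Δ, hΔ, fun s hs v => ?_⟩
      have h1 := hf s hs (fun l => Pi.single (c l) (v l))
      change f (fun l => Pi.single (c l) (ρ s (v l))) = χ s ^ m * f (fun l => Pi.single (c l) (v l))
      rw [← h1]
      congr 1
      funext l i
      by_cases hi : i = c l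
      · subst hi
        rw [Pi.single_eq_same, Pi.single_eq_same]
      · rw [Pi.single_eq_of_ne hi, Pi.single_eq_of_ne hi, map_zero]
    have hsum : (fun v => f v) = ∑ c : Fin m × Fin 2 → Fin n,
        (fun v : Fin m × Fin 2 → Fin n → V => fc c (fun l => v l (c l))) := by
      funext v
      rw [Finset.sum_apply]
      have h1 : v = fun l => ∑ i, Pi.single i (v l i) := by
        funext l
        exact (Finset.univ_sum_single (v l)).symm
      conv_lhs => rw [h1]
      exact f.toMultilinearMap.map_sum (fun l i => Pi.single i (v l i))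
    rw [hsum]
    refine Submodule.sum_mem _ fun c _ => ?_
    have h2 := hall (fc c) (hfc c)
    have h3 : ∀ φ ∈ Submodule.span k (PW ω P m),
        (fun v : Fin m × Fin 2 → Fin n → V => φ (fun l => v l (c l))) ∈
        Submodule.span k {g : (Fin m × Fin 2 → Fin n → V) → k |
      ∃ (e : Equiv.Perm (Fin m × Fin 2))
        (B : Fin m → MultilinearMap k (fun _ : Fin 2 => Fin n → V) k),
        (∀ s, B s ∈ BB) ∧ g = fun v => ∏ s, B s (fun ε => v (e (s, ε)))} := by
      intro φ hφ
      induction hφ using Submodule.span_induction with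
      | mem φ hφ =>
        obtain ⟨σ, d, rfl⟩ := hφ
        refine Submodule.subset_span ⟨σ, fun s => bil2 ((ω.comp (P (d s))).compl₁₂
          (LinearMap.proj (c (σ (s, 0)))) (LinearMap.proj (c (σ (s, 1))))),
          fun s => ⟨_, _, _, rfl⟩, ?_⟩
        funext v
        rw [mmG_apply]
        rfl
      | zero => exact Submodule.zero_mem _
      | add a b _ _ ha hb => exact Submodule.add_mem _ ha hb
      | smul c a _ ha => exact Submodule.smul_mem _ c ha
    exact h3 _ h2
  have h1 := alt_span BB f hmem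
  refine Submodule.span_mono ?_ h1
  rintro g ⟨B, hB, hg⟩
  refine ⟨fun l => MultilinearMap.alternatization (B l), fun l => ?_, hg⟩
  obtain ⟨q, i, j, hBl⟩ := hB l
  refine ⟨q, i, j, fun v w => ?_⟩
  rw [MultilinearMap.alternatization_apply, hBl]
  rw [Fintype.sum_eq_add (1 : Equiv.Perm (Fin 2)) (Equiv.swap 0 1) (by decide)
    (by
      intro x hx
      exfalso
      revert x
      decide)]
  rw [Equiv.Perm.sign_one, one_smul, Equiv.Perm.sign_swap (by decide)]
  change ω (P q (v i)) (w j) + (-1 : ℤˣ) • ω (P q (w i)) (v j) = _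
  rw [Units.neg_smul, one_smul]
  change _ = ω (P q (v i)) (w j) + ω (P q (v j)) (w i)
  rw [hωP q (w i), hanti (w i)]
  ring

/-- Tate classes are generated in degree two if the Lie algebra contains the symplectic Lie
algebras of the factors. -/
theorem gen_of_proj {k : Type*} [Field k] [CharZero k] {V : Type*} [AddCommGroup V] [Module k V]
    [FiniteDimensional k V] (ω : V →ₗ[k] V →ₗ[k] k) (halt : ∀ v, ω v v = 0)
    (hnd : ∀ u, (∀ v, ω v u = 0) → u = 0)
    {Γ : Type*} [Group Γ] (ρ : Representation k Γ V) (χ : Γ →* k)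
    (hωρ : ∀ s u v, ω (ρ s u) (ρ s v) = χ s * ω u v)
    {Q : Type*} [DecidableEq Q] [Fintype Q] (P : Q → Module.End k V)
    (hP1 : ∀ x, ∑ q, P q x = x) (hPP : ∀ q x, P q (P q x) = P q x)
    (hPP' : ∀ q r x, q ≠ r → P q (P r x) = 0)
    (hωP : ∀ q x y, ω (P q x) y = ω x (P q y)) (hPρ : ∀ q s x, P q (ρ s x) = ρ s (P q x))
    (hSS : ∀ q u w, SS ω (P q u) (P q w) ∈ lieT ρ χ) {n m : ℕ}
    (f : (Fin n → V) [⋀^Fin m × Fin 2]→ₗ[k] k) (hf : IsTateClass ρ χ m f) :
    f ∈ Submodule.span k {g : (Fin n → V) [⋀^Fin m × Fin 2]→ₗ[k] k |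
      ∃ B : Fin m → (Fin n → V) [⋀^Fin 2]→ₗ[k] k,
        (∀ l, IsLef (fun q => ω.comp (P q)) (B l)) ∧ IsWedge B g} := by
  classical
  let W : Q → Submodule k V := fun q => LinearMap.range (P q)
  have hW : ∀ q (x : W q), P q x = x := by
    rintro q ⟨_, ⟨x, rfl⟩⟩
    exact hPP q x
  let E : V ≃ₗ[k] (∀ q, W q) :=
    { toFun := fun v q => ⟨P q v, v, rfl⟩
      map_add' := fun u v => by
        funext q
        exact Subtype.ext (map_add (P q) u v)
      map_smul' := fun c v => by
        funext q
        exact Subtype.ext (map_smul (P q) c v)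
      invFun := fun w => ∑ q, (w q : V)
      left_inv := fun v => hP1 v
      right_inv := fun w => by
        funext q
        apply Subtype.ext
        change P q (∑ r, (w r : V)) = w q
        rw [map_sum, Finset.sum_eq_single q]
        · exact hW q (w q)
        · intro r _ hr
          rw [← hW r (w r)]
          exact hPP' q r _ (Ne.symm hr)
        · intro h
          exact absurd (Finset.mem_univ _) h }
  let ωq : ∀ q, W q →ₗ[k] W q →ₗ[k] k := fun q => ω.domRestrict₁₂ (W q) (W q)
  have hD := fun q => exists_darboux (k := k) (finrank k (W q)) (W q) (ωq q) (fun v => halt v)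
    (fun u hu => by
      apply Subtype.ext
      apply hnd
      intro x
      rw [← hW q u, ← hωP]
      exact hu ⟨P q x, x, rfl⟩) le_rfl
  choose R fR dR eq inv jj h1 h2 h3 h4 h5 using hD
  let e : Basis (Σ q, R q) k V := (Pi.basis eq).map E.symm
  have he : ∀ y : Σ q, R q, e y = (eq y.1 y.2 : V) := by
    rintro ⟨q, x⟩
    change E.symm ((Pi.basis eq) ⟨q, x⟩) = _
    rw [Pi.basis_apply]
    change ∑ r, ((Pi.single q (eq q x) : ∀ r, W r) r : V) = _
    rw [Finset.sum_eq_single q]
    · rw [Pi.single_eq_same]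
    · intro r _ hr
      rw [Pi.single_eq_of_ne hr]
      rfl
    · intro h
      exact absurd (Finset.mem_univ _) h
  let inv' : (Σ q, R q) → (Σ q, R q) := fun y => ⟨y.1, inv y.1 y.2⟩
  let jj' : (Σ q, R q) → k := fun y => jj y.1 y.2
  have hPe : ∀ (q : Q) (y : Σ q, R q), P q (e y) = if y.1 = q then e y else 0 := by
    intro q y
    rw [he]
    split_ifs with h
    · subst h
      exact hW _ _
    · rw [← hW y.1 (eq y.1 y.2)]
      exact hPP' _ _ _ (Ne.symm h)
  have hω : ∀ x y, ω (e x) (e y) = JJ inv' jj' x y := by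
    rintro ⟨q, x⟩ ⟨r, y⟩
    by_cases hqr : q = r
    · subst hqr
      rw [he, he]
      have h6 := h5 q x y
      change ω (eq q x) (eq q y) = _ at h6
      rw [h6]
      unfold JJ
      by_cases hx : y = inv q x
      · rw [if_pos hx, if_pos (by rw [hx])]
      · rw [if_neg hx, if_neg]
        intro h
        apply hx
        simpa [inv'] using h
    · have h6 : ω (e ⟨q, x⟩) (e ⟨r, y⟩) = 0 := by
        have h7 := hPe q ⟨q, x⟩
        rw [if_pos rfl] at h7
        rw [← h7, hωP, hPe, if_neg (Ne.symm hqr), map_zero]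
      rw [h6]
      unfold JJ
      rw [if_neg]
      intro h
      exact hqr (congrArg Sigma.fst h).symm
  have hPC : ∀ c, PC e Sigma.fst c = P c := by
    intro c
    refine e.ext fun y => ?_
    rw [PC_basis, hPe]
  have hall : ∀ φ : MultilinearMap k (fun _ : Fin m × Fin 2 => V) k, IsTate ρ χ m φ →
      φ ∈ Submodule.span k (PW ω P m) := by
    intro φ hφ
    have h8 : PW ω P m = PW ω (fun c => PC e Sigma.fst c) m := by
      simp only [hPC]
    rw [h8]
    refine tateP_mem e (inv := inv') (jj := jj') ?_ ?_ ?_ ω hω ρ χ Sigma.fst (fun x => rfl) ?_ φ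
      hφ
    · rintro ⟨q, x⟩
      simp only [inv', h1]
    · rintro ⟨q, x⟩
      exact h3 q x
    · rintro ⟨q, x⟩
      rcases h4 q x with h | h
      · change jj q x ≠ 0
        rw [h]
        exact one_ne_zero
      · change jj q x ≠ 0
        rw [h]
        exact neg_ne_zero.2 one_ne_zero
    · rintro ⟨q, x⟩ ⟨r, y⟩ (rfl : q = r)
      have h6 := hPe q ⟨q, x⟩
      have h7 := hPe q ⟨q, y⟩
      rw [if_pos rfl] at h6 h7
      rw [← h6, ← h7]
      exact hSS q _ _
  refine altW_of_tate_mem ω (fun v w => ?_) ρ χ P hωP hall f hf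
  have h9 := halt (v + w)
  simp only [map_add, LinearMap.add_apply, halt, zero_add, add_zero] at h9
  exact eq_neg_of_add_eq_zero_right h9

theorem tate_of_lef {k V Γ Q : Type*} [Field k] [AddCommGroup V] [Module k V] [Group Γ]
    (ρ : Representation k Γ V) (χ : Γ →* k) (ω : Q → V →ₗ[k] V →ₗ[k] k)
    (hω : ∀ q s u v, ω q (ρ s u) (ρ s v) = χ s * ω q u v)
    (h : ∀ (n m : ℕ) (f : (Fin n → V) [⋀^Fin m × Fin 2]→ₗ[k] k), IsTateClass ρ χ m f →
      f ∈ Submodule.span k {g : (Fin n → V) [⋀^Fin m × Fin 2]→ₗ[k] k |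
        ∃ B : Fin m → (Fin n → V) [⋀^Fin 2]→ₗ[k] k, (∀ l, IsLef ω (B l)) ∧ IsWedge B g}) :
    TateGeneratedInDegreeTwo ρ χ := by
  intro n m f hf
  refine Submodule.span_mono ?_ (h n m f hf)
  rintro g ⟨B, hB, hg⟩
  refine ⟨B, fun l => ⟨⊤, inferInstance, fun s _ v => ?_⟩, hg⟩
  obtain ⟨q, i, j, hBl⟩ := hB l
  have h1 : v = ![v 0, v 1] := by
    funext l
    fin_cases l <;> rfl
  have h2 : (fun l i => ρ s (v l i)) = ![fun i => ρ s (v 0 i), fun i => ρ s (v 1 i)] := by
    funext l
    fin_cases l <;> rfl
  rw [h2, hBl, pow_one]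
  conv_rhs => rw [h1, hBl]
  rw [hω, hω, mul_add]

end

end Pool.Agent.N171
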