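import Mathlib
import Pool.Agent.N171.Lieg
import Pool.Agent.N171.Prd

/-!
# The abstract theorem: reflections modulo four give all Tate classes
-/

set_option linter.unusedSectionVars false

namespace Pool.Agent.N171

open PadicInt TensorProduct Module Pool.Agent.H204R3.SP Pool.Agent.H204R3.GP

noncomputable section

variable {T : Type*} [AddCommGroup T] [Module ℤ_[2] T] {Γ : Type*} [Group Γ]

theorem ratChar_apply (χ : Γ →* ℤ_[2]ˣ) (s : Γ) :
    ratChar χ s = algebraMap ℤ_[2] ℚ_[2] (χ s : ℤ_[2]) := rfl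

theorem ratRep_tmul (ρ : Representation ℤ_[2] Γ T) (s : Γ) (c : ℚ_[2]) (x : T) :
    ratRep ρ s (c ⊗ₜ x) = c ⊗ₜ ρ s x := rfl

variable (ρ : Representation ℤ_[2] Γ T) (χ : Γ →* ℤ_[2]ˣ)

/-- The integral endomorphisms that kill all Tate forms. -/
def gZ : Submodule ℤ_[2] (Module.End ℤ_[2] T) where
  carrier := {X | (LinearMap.baseChange ℚ_[2] X : Module.End ℚ_[2] (ℚ_[2] ⊗[ℤ_[2]] T)) ∈
    lieT (ratRep ρ) (ratChar χ)}
  zero_mem' := by
    change LinearMap.baseChange ℚ_[2] (0 : T →ₗ[ℤ_[2]] T) ∈ lieT (ratRep ρ) (ratChar χ)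
    rw [LinearMap.baseChange_zero]
    exact Submodule.zero_mem _
  add_mem' := by
    intro X Y hX hY
    change LinearMap.baseChange ℚ_[2] (X + Y) ∈ lieT (ratRep ρ) (ratChar χ)
    rw [LinearMap.baseChange_add]
    exact Submodule.add_mem _ hX hY
  smul_mem' := by
    intro c X hX
    change LinearMap.baseChange ℚ_[2] (c • X) ∈ lieT (ratRep ρ) (ratChar χ)
    rw [LinearMap.baseChange_smul]
    have h1 : c • (LinearMap.baseChange ℚ_[2] X : Module.End ℚ_[2] (ℚ_[2] ⊗[ℤ_[2]] T)) =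
        (algebraMap ℤ_[2] ℚ_[2] c) • LinearMap.baseChange ℚ_[2] X := by
      refine LinearMap.ext fun x => ?_
      exact (algebraMap_smul ℚ_[2] c _).symm
    rw [h1]
    exact Submodule.smul_mem _ _ hX

theorem mem_gZ {X : Module.End ℤ_[2] T} : X ∈ gZ ρ χ ↔
    (LinearMap.baseChange ℚ_[2] X : Module.End ℚ_[2] (ℚ_[2] ⊗[ℤ_[2]] T)) ∈
      lieT (ratRep ρ) (ratChar χ) := Iff.rfl

theorem gZ_bracket {X Y : Module.End ℤ_[2] T} (hX : X ∈ gZ ρ χ) (hY : Y ∈ gZ ρ χ) :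
    X * Y - Y * X ∈ gZ ρ χ := by
  rw [mem_gZ] at *
  have h1 : (LinearMap.baseChange ℚ_[2] (X * Y - Y * X) :
      Module.End ℚ_[2] (ℚ_[2] ⊗[ℤ_[2]] T)) = LinearMap.baseChange ℚ_[2] X *
        LinearMap.baseChange ℚ_[2] Y - LinearMap.baseChange ℚ_[2] Y *
        LinearMap.baseChange ℚ_[2] X := by
    rw [LinearMap.baseChange_sub]
    congr 1
    · exact LinearMap.baseChange_comp _ _
    · exact LinearMap.baseChange_comp _ _
  rw [h1]
  exact lieT_bracket _ _ hX hY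

/-- The restriction of a form on `ℚ_2 ⊗ T` to `T`. -/
def resT {κ : Type*} (φ : MultilinearMap ℚ_[2] (fun _ : κ => ℚ_[2] ⊗[ℤ_[2]] T) ℚ_[2]) :
    MultilinearMap ℤ_[2] (fun _ : κ => T) ℚ_[2] :=
  (φ.restrictScalars ℤ_[2]).compLinearMap (fun _ => TensorProduct.mk ℤ_[2] ℚ_[2] T 1)

theorem resT_apply {κ : Type*} (φ : MultilinearMap ℚ_[2] (fun _ : κ => ℚ_[2] ⊗[ℤ_[2]] T) ℚ_[2])
    (x : κ → T) : resT φ x = φ (fun k => 1 ⊗ₜ x k) := rfl

variable [Module.Finite ℤ_[2] T] [Module.Free ℤ_[2] T]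

theorem log_mem {s : Γ} {c : ℤ_[2]} (hc : c * (χ s : ℤ_[2]) = 1) {Y₀ Y : Module.End ℤ_[2] T}
    (h0 : c • (ρ s * ρ s) = 1 + (4 : ℤ_[2]) • Y₀)
    (hY : ∀ n, ∃ Z, Y - Ys Y₀ n = (2 : ℤ_[2]) ^ n • Z) : Y ∈ gZ ρ χ := by
  classical
  rw [mem_gZ]
  intro m φ hφ
  obtain ⟨Δ, hΔ, hφ⟩ := hφ
  obtain ⟨M, hM0, -, hM⟩ := Subgroup.exists_pow_mem_of_index_ne_zero hΔ.index_ne_zero s
  let b := Module.Free.chooseBasis ℤ_[2] T
  have hφ' : ∀ x, resT φ (fun k => ((1 + (4 : ℤ_[2]) • Y₀) ^ M : Module.End ℤ_[2] T) (x k)) =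
      resT φ x := by
    intro x
    have h1 : (1 + (4 : ℤ_[2]) • Y₀) ^ M = c ^ M • ρ (s ^ M * s ^ M) := by
      rw [← h0, smul_pow, map_mul, map_pow, (Commute.refl (ρ s)).mul_pow]
    rw [h1]
    have h2 : (fun k => (c ^ M • ρ (s ^ M * s ^ M) : Module.End ℤ_[2] T) (x k)) =
        fun k => (fun _ => c ^ M) k • (fun k => ρ (s ^ M * s ^ M) (x k)) k := rfl
    rw [h2, MultilinearMap.map_smul_univ, resT_apply]
    have h3 := hφ _ (Δ.mul_mem hM hM) (fun k => 1 ⊗ₜ x k)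
    simp only [ratRep_tmul] at h3
    rw [h3, resT_apply, Finset.prod_const, Finset.card_univ, Fintype.card_prod, Fintype.card_fin,
      Fintype.card_fin, ← algebraMap_smul ℚ_[2], smul_eq_mul, ← mul_assoc, ratChar_apply,
      ← map_pow, ← map_mul]
    have h4 : (c ^ M) ^ (m * 2) * ((χ (s ^ M * s ^ M) : ℤ_[2]ˣ) : ℤ_[2]) ^ m = 1 := by
      rw [map_mul, map_pow, Units.val_mul, Units.val_pow_eq_pow_val]
      calc _ = (c * (χ s : ℤ_[2])) ^ (M * (m * 2)) := by
            rw [mul_pow]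
            ring
        _ = 1 := by rw [hc, one_pow]
    rw [h4, map_one, one_mul]
  refine kills_of_basis (b.baseChange ℚ_[2]) _ _ fun I => ?_
  have h1 := log_kills (resT φ) Y₀ hM0.ne' hφ' hY (fun k => b (I k))
  rw [← h1]
  refine Finset.sum_congr rfl fun k _ => ?_
  rw [resT_apply]
  congr 1
  funext l
  by_cases hl : l = k
  · subst hl
    rw [Function.update_self, Function.update_self, Module.Basis.baseChange_apply]
    rfl
  · rw [Function.update_of_ne hl, Function.update_of_ne hl, Module.Basis.baseChange_apply]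

variable (B : T →ₗ[ℤ_[2]] T →ₗ[ℤ_[2]] ℤ_[2]) (halt : ∀ x, B x x = 0)

/-- The lift of the reflection data to the Lie algebra. -/
theorem refl_mem (halt : ∀ x, B x x = 0) (v : T) (s : Γ)
    (hs8 : ∃ z, (χ s : ℤ_[2]) = 1 + 8 * z)
    (hs : ∀ x, ∃ y, ρ s x = x + (2 : ℤ_[2]) • (B v x • v) + (4 : ℤ_[2]) • y) :
    ∃ Y ∈ gZ ρ χ, ∃ Z, Y = Eo B v v + (2 : ℤ_[2]) • Z := by
  classical
  let b := Module.Free.chooseBasis ℤ_[2] T
  choose w hw using fun i => hs (b i)
  let W : Module.End ℤ_[2] T := b.constr ℤ_[2] w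
  have hW : ρ s = 1 + (2 : ℤ_[2]) • Eo B v v + (4 : ℤ_[2]) • W := by
    refine b.ext fun i => ?_
    rw [hw]
    simp only [LinearMap.add_apply, LinearMap.smul_apply, W, Module.Basis.constr_basis, Eo_apply]
    rfl
  have hEE : Eo B v v * Eo B v v = 0 := by
    ext x
    rw [Module.End.mul_apply, Eo_apply, Eo_apply, map_smul, halt, smul_zero, zero_smul]
    rfl
  obtain ⟨z, hz⟩ := hs8
  obtain ⟨z', hz'⟩ : ∃ z', (((χ s)⁻¹ : ℤ_[2]ˣ) : ℤ_[2]) = 1 + 8 * z' := by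
    refine ⟨-z * (((χ s)⁻¹ : ℤ_[2]ˣ) : ℤ_[2]), ?_⟩
    have h1 : (χ s : ℤ_[2]) * (((χ s)⁻¹ : ℤ_[2]ˣ) : ℤ_[2]) = 1 := Units.mul_inv _
    rw [hz] at h1
    linear_combination h1
  set E := Eo B v v with hE
  set Y₁ : Module.End ℤ_[2] T := W + E * W + W * E + (2 : ℤ_[2]) • (W * W) with hY₁
  have h1 : ρ s * ρ s = 1 + (4 : ℤ_[2]) • (E + (2 : ℤ_[2]) • Y₁) := by
    rw [hW, hY₁]
    simp only [mul_add, add_mul, one_mul, mul_one, smul_mul_assoc, mul_smul_comm, hEE, smul_zero,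
      add_zero]
    module
  have h2 : (1 + 8 * z') • (ρ s * ρ s) = 1 + (4 : ℤ_[2]) • (E + (2 : ℤ_[2]) •
      (Y₁ + z' • (1 + (4 : ℤ_[2]) • (E + (2 : ℤ_[2]) • Y₁)))) := by
    rw [h1]
    module
  obtain ⟨Y, ⟨Z, hZ⟩, hY⟩ := exists_log (E + (2 : ℤ_[2]) •
      (Y₁ + z' • (1 + (4 : ℤ_[2]) • (E + (2 : ℤ_[2]) • Y₁))))
  refine ⟨Y, log_mem ρ χ (s := s) (c := 1 + 8 * z') (by rw [← hz']; exact Units.inv_mul _) h2 hY,
    Z + (Y₁ + z' • (1 + (4 : ℤ_[2]) • (E + (2 : ℤ_[2]) • Y₁))), ?_⟩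
  rw [sub_eq_iff_eq_add] at hZ
  rw [hZ]
  module

variable (hnd : ∀ v, (∀ w, ¬ IsUnit (B v w)) → ∃ u, (2 : ℤ_[2]) • u = v)
  (hB : ∀ s x y, B (ρ s x) (ρ s y) = (χ s : ℤ_[2]) * B x y)
  {Q : Type*} [DecidableEq Q] [Fintype Q] (π : Q → Module.End ℤ_[2] T)
  (hπ1 : ∀ x, ∑ q, π q x = x) (hππ : ∀ q x, π q (π q x) = π q x)
  (hππ' : ∀ q r x, q ≠ r → π q (π r x) = 0)
  (hBπ : ∀ q x y, B (π q x) y = B x (π q y)) (hπρ : ∀ q s x, π q (ρ s x) = ρ s (π q x))

/-- The form on `ℚ_2 ⊗ T`. -/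
abbrev BV : (ℚ_[2] ⊗[ℤ_[2]] T) →ₗ[ℚ_[2]] (ℚ_[2] ⊗[ℤ_[2]] T) →ₗ[ℚ_[2]] ℚ_[2] :=
  LinearMap.BilinForm.baseChange ℚ_[2] B

theorem BV_tmul (x y : T) : BV B (1 ⊗ₜ x) (1 ⊗ₜ y) = algebraMap ℤ_[2] ℚ_[2] (B x y) := by
  rw [BV, LinearMap.BilinForm.baseChange_tmul, mul_one, Algebra.smul_def, mul_one]

theorem ext_tmul {W : Type*} [AddCommGroup W] [Module ℚ_[2] W]
    {f g : (ℚ_[2] ⊗[ℤ_[2]] T) →ₗ[ℚ_[2]] W} (h : ∀ x : T, f (1 ⊗ₜ x) = g (1 ⊗ₜ x)) : f = g := by
  refine LinearMap.ext fun z => ?_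
  induction z with
  | zero => rw [map_zero, map_zero]
  | tmul c x =>
    have h1 : (c ⊗ₜ x : ℚ_[2] ⊗[ℤ_[2]] T) = c • ((1 : ℚ_[2]) ⊗ₜ x) := by
      rw [TensorProduct.smul_tmul', smul_eq_mul, mul_one]
    rw [h1, map_smul, map_smul, h]
  | add u v hu hv => rw [map_add, map_add, hu, hv]

include hB in
theorem BV_inv (s : Γ) (u v : ℚ_[2] ⊗[ℤ_[2]] T) :
    BV B (ratRep ρ s u) (ratRep ρ s v) = ratChar χ s * BV B u v := by
  have h1 : (BV B).compl₁₂ (ratRep ρ s) (ratRep ρ s) = ratChar χ s • BV B := by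
    refine ext_tmul fun x => ext_tmul fun y => ?_
    rw [LinearMap.compl₁₂_apply, ratRep_tmul, ratRep_tmul, BV_tmul, LinearMap.smul_apply,
      LinearMap.smul_apply, BV_tmul, hB, map_mul, smul_eq_mul]
    rfl
  have h2 := congrArg (fun f => f u v) h1
  exact h2

include halt in
theorem BV_anti (u w : ℚ_[2] ⊗[ℤ_[2]] T) : BV B w u = -BV B u w := by
  have h3 : (BV B).flip = -BV B := by
    refine ext_tmul fun x => ext_tmul fun y => ?_
    rw [LinearMap.flip_apply, BV_tmul, LinearMap.neg_apply, LinearMap.neg_apply, BV_tmul,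
      B_anti B halt, map_neg]
  exact congrArg (fun f => f u w) h3

include halt in
theorem BV_alt (u : ℚ_[2] ⊗[ℤ_[2]] T) : BV B u u = 0 := by
  have h := BV_anti B halt u u
  have h2 : (2 : ℚ_[2]) * BV B u u = 0 := by linear_combination h
  exact (mul_eq_zero.1 h2).resolve_left (by norm_num)

include hnd in
theorem BV_nd (u : ℚ_[2] ⊗[ℤ_[2]] T) (hu : ∀ v, BV B v u = 0) : u = 0 := by
  classical
  let n := Fintype.card (Module.Free.ChooseBasisIndex ℤ_[2] T)
  let b₀ : Module.Basis (Fin n) ℤ_[2] T :=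
    (Module.Free.chooseBasis ℤ_[2] T).reindex (Fintype.equivFin _)
  obtain ⟨b', hb'⟩ := (exists_dual B hnd b₀).1
  let e := b₀.baseChange ℚ_[2]
  have h1 : ∀ i, e.coord i = BV B (1 ⊗ₜ b' i) := by
    intro i
    refine e.ext fun j => ?_
    rw [Module.Basis.coord_apply, Module.Basis.repr_self, Module.Basis.baseChange_apply, BV_tmul,
      hb', Finsupp.single_apply]
    by_cases h : i = j
    · rw [if_pos h, if_pos h.symm, map_one]
    · rw [if_neg h, if_neg (Ne.symm h), map_zero]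
  refine e.forall_coord_eq_zero_iff.1 fun i => ?_
  rw [h1, hu]

include hπρ hB in
theorem BP_tate (q : Q) : IsTate2 (ratRep ρ) (ratChar χ)
    ((BV B).comp (LinearMap.baseChange ℚ_[2] (π q))) := by
  refine ⟨⊤, inferInstance, fun s _ u v => ?_⟩
  rw [LinearMap.comp_apply, LinearMap.comp_apply]
  have h1 : LinearMap.baseChange ℚ_[2] (π q) (ratRep ρ s u) =
      ratRep ρ s (LinearMap.baseChange ℚ_[2] (π q) u) := by
    have h2 : (LinearMap.baseChange ℚ_[2] (π q)).comp (ratRep ρ s) =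
        (ratRep ρ s).comp (LinearMap.baseChange ℚ_[2] (π q)) := by
      refine ext_tmul fun x => ?_
      rw [LinearMap.comp_apply, LinearMap.comp_apply, ratRep_tmul, LinearMap.baseChange_tmul,
        LinearMap.baseChange_tmul, ratRep_tmul, hπρ]
    exact congrArg (fun f => f u) h2
  rw [h1]
  exact BV_inv ρ χ B hB s _ _

include hB hnd hπρ hBπ in
theorem gZ_le : gZ ρ χ ≤ spQ B π := by
  classical
  intro X hX
  rw [mem_gZ] at hX
  have hinj : Function.Injective (algebraMap ℤ_[2] ℚ_[2]) :=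
    FaithfulSMul.algebraMap_injective _ _
  have h1 : ∀ x y, B (X x) y + B x (X y) = 0 := by
    intro x y
    have h2 := lieT_sp (ratRep ρ) (ratChar χ) (BV B) (BV_inv ρ χ B hB) hX (1 ⊗ₜ x) (1 ⊗ₜ y)
    rw [LinearMap.baseChange_tmul, LinearMap.baseChange_tmul, BV_tmul, BV_tmul, ← map_add] at h2
    exact hinj (by rw [h2, map_zero])
  refine ⟨h1, fun q x => ?_⟩
  have h3 : ∀ y, B (π q (X x)) y + B (π q x) (X y) = 0 := by
    intro y
    have h2 := lieT_bil (ratRep ρ) (ratChar χ) (BP_tate ρ χ B hB π hπρ q) hX (1 ⊗ₜ x) (1 ⊗ₜ y)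
    rw [LinearMap.baseChange_tmul, LinearMap.baseChange_tmul, LinearMap.comp_apply,
      LinearMap.comp_apply, LinearMap.baseChange_tmul, LinearMap.baseChange_tmul, BV_tmul, BV_tmul,
      ← map_add] at h2
    exact hinj (by rw [h2, map_zero])
  rw [← sub_eq_zero]
  let n := Fintype.card (Module.Free.ChooseBasisIndex ℤ_[2] T)
  let b₀ : Module.Basis (Fin n) ℤ_[2] T :=
    (Module.Free.chooseBasis ℤ_[2] T).reindex (Fintype.equivFin _)
  apply (exists_dual B hnd b₀).2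
  intro j
  have h4 := h1 (π q x) (b₀ j)
  have h5 := h3 (b₀ j)
  rw [map_sub, LinearMap.sub_apply]
  linear_combination h4 - h5

theorem two_smul_cancel {x : T} (h : (2 : ℤ_[2]) • x = 0) : x = 0 := by
  let b := Module.Free.chooseBasis ℤ_[2] T
  apply b.repr.injective
  rw [map_zero]
  ext i
  have h1 := congrArg (fun y => b.repr y i) h
  simp only [map_smul, Finsupp.smul_apply, map_zero, Finsupp.zero_apply, smul_eq_mul] at h1
  exact (mul_eq_zero.1 h1).resolve_left (by norm_num)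

/-- `S + 2 End`. -/
def nn (S : Submodule ℤ_[2] (Module.End ℤ_[2] T)) : Submodule ℤ_[2] (Module.End ℤ_[2] T) where
  carrier := {X | ∃ Y ∈ S, ∃ Z, X = Y + (2 : ℤ_[2]) • Z}
  zero_mem' := ⟨0, S.zero_mem, 0, by simp⟩
  add_mem' := by
    rintro _ _ ⟨Y, hY, Z, rfl⟩ ⟨Y', hY', Z', rfl⟩
    exact ⟨Y + Y', S.add_mem hY hY', Z + Z', by module⟩
  smul_mem' := by
    rintro c _ ⟨Y, hY, Z, rfl⟩
    exact ⟨c • Y, S.smul_mem c hY, c • Z, by module⟩

variable {κ : Type*} (v : κ → T) (q : κ → Q) (σ : κ → Γ)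
  (hσ8 : ∀ k, ∃ z, (χ (σ k) : ℤ_[2]) = 1 + 8 * z)
  (hσ : ∀ k x, ∃ y, ρ (σ k) x = x + (2 : ℤ_[2]) • (B (v k) x • v k) + (4 : ℤ_[2]) • y)
  (hconn : ∀ k l, q k = q l → Relation.ReflTransGen (Adj B v q) k l)
  (hspan : ∀ c x, π c x ∈ Wq v q c)

include halt hnd hB hπ1 hππ hBπ hπρ hσ8 hσ hconn hspan in
theorem spQ_le_gZ : spQ B π ≤ gZ ρ χ := by
  classical
  have hle : gZ ρ χ ≤ spQ B π := gZ_le ρ χ B hnd hB π hBπ hπρ
  have h2 : ∀ X, (2 : ℤ_[2]) • X ∈ nn (gZ ρ χ) := fun X =>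
    ⟨0, Submodule.zero_mem _, X, by rw [zero_add]⟩
  have hbr : ∀ X ∈ nn (gZ ρ χ), ∀ Y ∈ nn (gZ ρ χ), X * Y - Y * X ∈ nn (gZ ρ χ) := by
    rintro _ ⟨X, hX, Z, rfl⟩ _ ⟨X', hX', Z', rfl⟩
    refine ⟨X * X' - X' * X, gZ_bracket ρ χ hX hX', X * Z' + Z * X' + (2 : ℤ_[2]) • (Z * Z') -
      (X' * Z + Z' * X + (2 : ℤ_[2]) • (Z' * Z)), ?_⟩
    simp only [mul_add, add_mul, smul_mul_assoc, mul_smul_comm]
    module
  have hv : ∀ k, Eo B (v k) (v k) ∈ nn (gZ ρ χ) := by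
    intro k
    obtain ⟨Y, hY, Z, hZ⟩ := refl_mem ρ χ B halt (v k) (σ k) (hσ8 k) (hσ k)
    exact ⟨Y, hY, -Z, by rw [hZ]; module⟩
  have hsp : spQ B π ≤ nn (gZ ρ χ) := by
    let n := Fintype.card (Module.Free.ChooseBasisIndex ℤ_[2] T)
    let b₀ : Module.Basis (Fin n) ℤ_[2] T :=
      (Module.Free.chooseBasis ℤ_[2] T).reindex (Fintype.equivFin _)
    exact spQ_le B hnd π halt hπ1 hππ hBπ b₀ (nn (gZ ρ χ))
      (fun c u => Eo_mem B halt v q _ h2 hbr hv hconn (hspan c u))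
      (fun c u w => so_mem B halt v q _ h2 hbr hv hconn (hspan c u) (hspan c w))
  refine Submodule.le_of_le_smul_of_le_jacobson_bot (I := Ideal.span {(2 : ℤ_[2])})
    (IsNoetherian.noetherian _) ?_ ?_
  · rw [IsLocalRing.jacobson_eq_maximalIdeal ⊥ bot_ne_top, Ideal.span_singleton_le_iff_mem,
      IsLocalRing.mem_maximalIdeal, mem_nonunits_iff, isUnit_iff_toZModPow, not_not, map_ofNat]
    rfl
  · intro X hX
    obtain ⟨Y, hY, Z, rfl⟩ := hsp hX
    refine Submodule.add_mem_sup hY (Submodule.smul_mem_smul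
      (Ideal.mem_span_singleton_self _) ?_)
    have h3 : (2 : ℤ_[2]) • Z ∈ spQ B π := by
      have := Submodule.sub_mem _ hX (hle hY)
      rwa [add_sub_cancel_left] at this
    obtain ⟨h4, h5⟩ := h3
    refine ⟨fun x y => ?_, fun c x => ?_⟩
    · have h6 := h4 x y
      simp only [LinearMap.smul_apply, map_smul, smul_eq_mul] at h6
      rw [← mul_add] at h6
      exact (mul_eq_zero.1 h6).resolve_left (by norm_num)
    · have h6 := h5 c x
      simp only [LinearMap.smul_apply, map_smul] at h6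
      rw [← sub_eq_zero, ← smul_sub] at h6
      exact sub_eq_zero.1 (two_smul_cancel h6)

include hBπ halt hππ hππ' in
theorem so_spQ (c : Q) (u w : T) : so B (π c u) (π c w) ∈ spQ B π := by
  refine ⟨fun x y => ?_, fun d x => ?_⟩
  · rw [so_apply, so_apply]
    simp only [map_add, map_smul, LinearMap.add_apply, LinearMap.smul_apply, smul_eq_mul]
    rw [B_anti B halt x, B_anti B halt x]
    ring
  · rw [so_apply, so_apply, map_add, map_smul, map_smul]
    by_cases hd : d = c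
    · subst hd
      rw [hππ, hππ, ← hBπ, ← hBπ, hππ, hππ]
    · rw [hππ' d c _ hd, hππ' d c _ hd, ← hBπ, ← hBπ, hππ' d c _ hd, hππ' d c _ hd]
      simp

include halt hnd hB hπ1 hππ hππ' hBπ hπρ hσ8 hσ hconn hspan in
/-- **The abstract theorem.** -/
theorem abs_main {n m : ℕ} (f : (Fin n → ℚ_[2] ⊗[ℤ_[2]] T) [⋀^Fin m × Fin 2]→ₗ[ℚ_[2]] ℚ_[2])
    (hf : IsTateClass (ratRep ρ) (ratChar χ) m f) :
    f ∈ Submodule.span ℚ_[2] {g : (Fin n → ℚ_[2] ⊗[ℤ_[2]] T) [⋀^Fin m × Fin 2]→ₗ[ℚ_[2]] ℚ_[2] |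
      ∃ B' : Fin m → (Fin n → ℚ_[2] ⊗[ℤ_[2]] T) [⋀^Fin 2]→ₗ[ℚ_[2]] ℚ_[2],
        (∀ l, IsLef (fun c => (BV B).comp (LinearMap.baseChange ℚ_[2] (π c))) (B' l)) ∧
          IsWedge B' g} := by
  have hfin : FiniteDimensional ℚ_[2] (ℚ_[2] ⊗[ℤ_[2]] T) := inferInstance
  have hbc : ∀ (f g : Module.End ℤ_[2] T) (u : ℚ_[2] ⊗[ℤ_[2]] T),
      LinearMap.baseChange ℚ_[2] f (LinearMap.baseChange ℚ_[2] g u) =
        LinearMap.baseChange ℚ_[2] (f * g) u := by
    intro f g u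
    have h1 : (LinearMap.baseChange ℚ_[2] f).comp (LinearMap.baseChange ℚ_[2] g) =
        LinearMap.baseChange ℚ_[2] (f * g) := by
      refine ext_tmul fun x => ?_
      rfl
    exact congrArg (fun f => f u) h1
  refine gen_of_proj (BV B) (BV_alt B halt) (BV_nd B hnd) (ratRep ρ) (ratChar χ)
    (BV_inv ρ χ B hB) (fun c => LinearMap.baseChange ℚ_[2] (π c)) ?_ ?_ ?_ ?_ ?_ ?_ f hf
  · intro u
    have h1 : ∑ c, LinearMap.baseChange ℚ_[2] (π c) = LinearMap.id := by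
      refine ext_tmul fun x => ?_
      rw [LinearMap.sum_apply, LinearMap.id_apply]
      simp only [LinearMap.baseChange_tmul]
      rw [← TensorProduct.tmul_sum, hπ1]
    have h2 := congrArg (fun f => f u) h1
    simpa only [LinearMap.sum_apply, LinearMap.id_apply] using h2
  · intro c u
    rw [hbc]
    congr 2
    ext x
    exact hππ c x
  · intro c d u hcd
    rw [hbc]
    have h1 : π c * π d = 0 := by
      ext x
      exact hππ' c d x hcd
    rw [h1, LinearMap.baseChange_zero, LinearMap.zero_apply]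
  · intro c u w
    have h1 : (BV B).comp (LinearMap.baseChange ℚ_[2] (π c)) =
        (BV B).compl₂ (LinearMap.baseChange ℚ_[2] (π c)) := by
      refine ext_tmul fun x => ext_tmul fun y => ?_
      rw [LinearMap.comp_apply, LinearMap.compl₂_apply, LinearMap.baseChange_tmul,
        LinearMap.baseChange_tmul, BV_tmul, BV_tmul, hBπ]
    exact congrArg (fun f => f u w) h1
  · intro c s u
    have h1 : (LinearMap.baseChange ℚ_[2] (π c)).comp (ratRep ρ s) =
        (ratRep ρ s).comp (LinearMap.baseChange ℚ_[2] (π c)) := by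
      refine ext_tmul fun x => ?_
      rw [LinearMap.comp_apply, LinearMap.comp_apply, ratRep_tmul, LinearMap.baseChange_tmul,
        LinearMap.baseChange_tmul, ratRep_tmul, hπρ]
    exact congrArg (fun f => f u) h1
  · intro c u w
    have key : ∀ x y : T, SS (BV B) (LinearMap.baseChange ℚ_[2] (π c) (1 ⊗ₜ x))
        (LinearMap.baseChange ℚ_[2] (π c) (1 ⊗ₜ y)) ∈ lieT (ratRep ρ) (ratChar χ) := by
      intro x y
      have h1 := spQ_le_gZ ρ χ B halt hnd hB π hπ1 hππ hBπ hπρ v q σ hσ8 hσ hconn hspan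
        (so_spQ B halt π hππ hππ' hBπ c x y)
      rw [mem_gZ] at h1
      convert! h1
      refine ext_tmul fun z => ?_
      rw [SS_apply, LinearMap.baseChange_tmul, LinearMap.baseChange_tmul,
        LinearMap.baseChange_tmul, BV_tmul, BV_tmul, so_apply, TensorProduct.tmul_add]
      rw [algebraMap_smul, algebraMap_smul, TensorProduct.tmul_smul, TensorProduct.tmul_smul]
    induction u with
    | zero =>
      have h1 : SS (BV B) (LinearMap.baseChange ℚ_[2] (π c) 0)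
          (LinearMap.baseChange ℚ_[2] (π c) w) = 0 := by
        refine LinearMap.ext fun z => ?_
        rw [SS_apply, map_zero, map_zero, LinearMap.zero_apply, zero_smul, smul_zero, add_zero]
        rfl
      rw [h1]
      exact Submodule.zero_mem _
    | add u u' hu hu' =>
      have h1 : SS (BV B) (LinearMap.baseChange ℚ_[2] (π c) (u + u'))
          (LinearMap.baseChange ℚ_[2] (π c) w) = SS (BV B) (LinearMap.baseChange ℚ_[2] (π c) u)
          (LinearMap.baseChange ℚ_[2] (π c) w) + SS (BV B) (LinearMap.baseChange ℚ_[2] (π c) u')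
          (LinearMap.baseChange ℚ_[2] (π c) w) := by
        refine LinearMap.ext fun z => ?_
        simp only [SS_apply, LinearMap.add_apply, map_add]
        module
      rw [h1]
      exact Submodule.add_mem _ hu hu'
    | tmul a x =>
      have ha : ∀ (a : ℚ_[2]) (x : T), (a ⊗ₜ x : ℚ_[2] ⊗[ℤ_[2]] T) = a • ((1 : ℚ_[2]) ⊗ₜ x) := by
        intro a x
        rw [TensorProduct.smul_tmul', smul_eq_mul, mul_one]
      have h1 : SS (BV B) (LinearMap.baseChange ℚ_[2] (π c) (a ⊗ₜ x))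
          (LinearMap.baseChange ℚ_[2] (π c) w) = a • SS (BV B)
          (LinearMap.baseChange ℚ_[2] (π c) (1 ⊗ₜ x)) (LinearMap.baseChange ℚ_[2] (π c) w) := by
        refine LinearMap.ext fun z => ?_
        rw [ha a x]
        simp only [SS_apply, LinearMap.smul_apply, map_smul]
        module
      rw [h1]
      apply Submodule.smul_mem
      clear h1
      induction w with
      | zero =>
        have h1 : SS (BV B) (LinearMap.baseChange ℚ_[2] (π c) (1 ⊗ₜ x))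
            (LinearMap.baseChange ℚ_[2] (π c) 0) = 0 := by
          refine LinearMap.ext fun z => ?_
          rw [SS_apply, map_zero, map_zero, LinearMap.zero_apply, zero_smul, smul_zero, add_zero]
          rfl
        rw [h1]
        exact Submodule.zero_mem _
      | add w w' hw hw' =>
        have h1 : SS (BV B) (LinearMap.baseChange ℚ_[2] (π c) (1 ⊗ₜ x))
            (LinearMap.baseChange ℚ_[2] (π c) (w + w')) =
            SS (BV B) (LinearMap.baseChange ℚ_[2] (π c) (1 ⊗ₜ x))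
            (LinearMap.baseChange ℚ_[2] (π c) w) +
            SS (BV B) (LinearMap.baseChange ℚ_[2] (π c) (1 ⊗ₜ x))
            (LinearMap.baseChange ℚ_[2] (π c) w') := by
          refine LinearMap.ext fun z => ?_
          simp only [SS_apply, LinearMap.add_apply, map_add]
          module
        rw [h1]
        exact Submodule.add_mem _ hw hw'
      | tmul a' y =>
        have h1 : SS (BV B) (LinearMap.baseChange ℚ_[2] (π c) (1 ⊗ₜ x))
            (LinearMap.baseChange ℚ_[2] (π c) (a' ⊗ₜ y)) = a' • SS (BV B)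
            (LinearMap.baseChange ℚ_[2] (π c) (1 ⊗ₜ x))
            (LinearMap.baseChange ℚ_[2] (π c) (1 ⊗ₜ y)) := by
          refine LinearMap.ext fun z => ?_
          rw [ha a' y]
          simp only [SS_apply, LinearMap.smul_apply, map_smul]
          module
        rw [h1]
        exact Submodule.smul_mem _ _ (key x y)

end

end Pool.Agent.N171
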