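import Mathlib
import Pool.Agent.N171.Abs

/-!
# Vector valued Tate forms and their Lie algebra

`T` is a free module over the 2-adic integers with an action `ρ` of a group `Γ`, and `t` is an action of
`Γ` by matrices.  `IsTW` are the families `φ j` of forms on `T` in `a` variables which are transformed by
`t` under a subgroup of finite index.
-/

set_option linter.unusedSectionVars false

namespace Pool.Agent.N171

open PadicInt TensorProduct Module Pool.Agent.H204R3.SP Pool.Agent.H204R3.GP

noncomputable section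

/-- Derivations of a multilinear map: the commutator. -/
theorem Dr_comm {R N T κ : Type*} [CommRing R] [AddCommGroup N] [Module R N] [AddCommGroup T]
    [Module R T] [Fintype κ] [DecidableEq κ] (φ : MultilinearMap R (fun _ : κ => T) N)
    (A B : Module.End R T) (v : κ → T) :
    ∑ k, φ (Function.update v k ((A * B - B * A) (v k))) =
      ∑ j, ∑ k, φ (Function.update (Function.update v j (B (v j))) k
        (A (Function.update v j (B (v j)) k))) -
      ∑ j, ∑ k, φ (Function.update (Function.update v j (A (v j))) k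
        (B (Function.update v j (A (v j)) k))) := by
  have key : ∀ (A B : Module.End R T),
      ∑ j, ∑ k, φ (Function.update (Function.update v j (B (v j))) k
        (A (Function.update v j (B (v j)) k))) =
      ∑ j, φ (Function.update v j (A (B (v j)))) + ∑ j, ∑ k, if k ≠ j then
          φ (Function.update (Function.update v j (B (v j))) k (A (v k))) else 0 := by
    intro A B
    rw [← Finset.sum_add_distrib]
    refine Finset.sum_congr rfl fun j _ => ?_
    rw [← Finset.add_sum_erase _ _ (Finset.mem_univ j), Function.update_self,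
      Function.update_idem]
    congr 1
    rw [← Finset.sum_filter]
    have h1 : Finset.univ.filter (fun k => k ≠ j) = Finset.univ.erase j := by
      ext k
      simp
    rw [h1]
    refine Finset.sum_congr rfl fun k hk => ?_
    rw [Function.update_of_ne (Finset.ne_of_mem_erase hk)]
  have h2 : ∑ j, ∑ k, (if k ≠ j then
      φ (Function.update (Function.update v j (B (v j))) k (A (v k))) else 0) =
      ∑ j, ∑ k, (if k ≠ j then
      φ (Function.update (Function.update v j (A (v j))) k (B (v k))) else 0) := by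
    rw [Finset.sum_comm]
    refine Finset.sum_congr rfl fun j _ => Finset.sum_congr rfl fun k _ => ?_
    by_cases h : k = j
    · subst h
      simp
    · rw [if_pos h, if_pos (Ne.symm h), Function.update_comm (Ne.symm h)]
  have h1 : ∀ k, φ (Function.update v k ((A * B - B * A) (v k))) =
      φ (Function.update v k (A (B (v k)))) - φ (Function.update v k (B (A (v k)))) := by
    intro k
    rw [LinearMap.sub_apply, MultilinearMap.map_update_sub]
    rfl
  rw [Finset.sum_congr rfl (fun k _ => h1 k), Finset.sum_sub_distrib, key A B, key B A, h2]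
  abel

variable {T : Type*} [AddCommGroup T] [Module ℤ_[2] T] {Γ : Type*} [Group Γ]
  (ρ : Representation ℤ_[2] Γ T) {d : ℕ} (κ : Type*) [Fintype κ] [DecidableEq κ] (t : Γ →* Matrix (Fin d) (Fin d) ℤ_[2])

/-- Vector valued Tate forms in coordinates. -/
def IsTW (φ : Fin d → MultilinearMap ℤ_[2] (fun _ : κ => T) ℚ_[2]) : Prop :=
  ∃ Δ : Subgroup Γ, Δ.FiniteIndex ∧ ∀ s ∈ Δ, ∀ j x,
    φ j (fun k => ρ s (x k)) = ∑ i, t s j i • φ i x

/-- The pairs of operators on `T` and on the values with the same action on all Tate forms. -/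
def LW (X : Module.End ℤ_[2] T) (Y : Matrix (Fin d) (Fin d) ℤ_[2]) : Prop :=
  ∀ φ, IsTW ρ κ t φ → ∀ j x,
    ∑ k, φ j (Function.update x k (X (x k))) = ∑ i, Y j i • φ i x

variable {ρ κ t}

theorem LW_add {X X' : Module.End ℤ_[2] T} {Y Y' : Matrix (Fin d) (Fin d) ℤ_[2]}
    (h : LW ρ κ t X Y) (h' : LW ρ κ t X' Y') : LW ρ κ t (X + X') (Y + Y') := by
  intro φ hφ j x
  simp only [LinearMap.add_apply, MultilinearMap.map_update_add, Finset.sum_add_distrib,
    Matrix.add_apply, add_smul]
  rw [h φ hφ, h' φ hφ]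

theorem LW_smul (c : ℤ_[2]) {X : Module.End ℤ_[2] T} {Y : Matrix (Fin d) (Fin d) ℤ_[2]}
    (h : LW ρ κ t X Y) : LW ρ κ t (c • X) (c • Y) := by
  intro φ hφ j x
  simp only [LinearMap.smul_apply, MultilinearMap.map_update_smul, Matrix.smul_apply, smul_eq_mul,
    mul_smul]
  rw [← Finset.smul_sum, ← Finset.smul_sum, h φ hφ]

theorem LW_zero : LW ρ κ t (0 : Module.End ℤ_[2] T) 0 := by
  intro φ _ j x
  simp only [LinearMap.zero_apply, Matrix.zero_apply, zero_smul, Finset.sum_const_zero]
  exact Finset.sum_eq_zero fun k _ => (φ j).map_coord_zero k (Function.update_self _ _ _)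

theorem LW_bracket {X X' : Module.End ℤ_[2] T} {Y Y' : Matrix (Fin d) (Fin d) ℤ_[2]}
    (h : LW ρ κ t X Y) (h' : LW ρ κ t X' Y') :
    LW ρ κ t (X * X' - X' * X) (Y * Y' - Y' * Y) := by
  intro φ hφ j x
  have key : ∀ {X X' : Module.End ℤ_[2] T} {Y Y' : Matrix (Fin d) (Fin d) ℤ_[2]},
      LW ρ κ t X Y → LW ρ κ t X' Y' →
      ∑ l, ∑ k, φ j (Function.update (Function.update x l (X' (x l))) k
        (X (Function.update x l (X' (x l)) k))) = ∑ m, (Y * Y') j m • φ m x := by
    intro X X' Y Y' h h'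
    have h1 : ∀ l, ∑ k, φ j (Function.update (Function.update x l (X' (x l))) k
        (X (Function.update x l (X' (x l)) k))) =
        ∑ i, Y j i • φ i (Function.update x l (X' (x l))) := fun l => h φ hφ j _
    rw [Finset.sum_congr rfl fun l _ => h1 l, Finset.sum_comm]
    have h2 : ∀ i, ∑ l, Y j i • φ i (Function.update x l (X' (x l))) =
        ∑ m, (Y j i * Y' i m) • φ m x := by
      intro i
      rw [← Finset.smul_sum, h' φ hφ, Finset.smul_sum]
      exact Finset.sum_congr rfl fun m _ => smul_smul _ _ _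
    rw [Finset.sum_congr rfl fun i _ => h2 i, Finset.sum_comm]
    refine Finset.sum_congr rfl fun m _ => ?_
    rw [Matrix.mul_apply, Finset.sum_smul]
  rw [Dr_comm, key h h', key h' h, ← Finset.sum_sub_distrib]
  refine Finset.sum_congr rfl fun m _ => ?_
  rw [Matrix.sub_apply, sub_smul]

theorem LW_cancel {X : Module.End ℤ_[2] T} {Y : Matrix (Fin d) (Fin d) ℤ_[2]}
    (h : LW ρ κ t ((2 : ℤ_[2]) • X) ((2 : ℤ_[2]) • Y)) : LW ρ κ t X Y := by
  intro φ hφ j x
  have h1 := h φ hφ j x
  simp only [LinearMap.smul_apply, MultilinearMap.map_update_smul, Matrix.smul_apply, smul_eq_mul,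
    mul_smul] at h1
  rw [← Finset.smul_sum, ← Finset.smul_sum] at h1
  have h2 : ∀ z : ℚ_[2], (2 : ℤ_[2]) • z = 2 * z := by
    intro z
    rw [Algebra.smul_def, map_ofNat]
  rw [h2, h2] at h1
  exact mul_left_cancel₀ (by norm_num) h1

/-! ### the scalar form -/

/-- The scalar form of a vector valued form. -/
def phat (φ : Fin d → MultilinearMap ℤ_[2] (fun _ : κ => T) ℚ_[2]) :
    MultilinearMap ℤ_[2] (fun _ : Option κ => T × (Fin d → ℤ_[2])) ℚ_[2] where
  toFun z := ∑ j, (z none).2 j • φ j (fun k => (z (some k)).1)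
  map_update_add' := by
    intro dec z k x y
    rw [← Finset.sum_add_distrib]
    refine Finset.sum_congr rfl fun j _ => ?_
    cases k with
    | none =>
      simp only [Function.update_self, Prod.snd_add, Pi.add_apply, add_smul]
      congr 3 <;> funext l <;> rw [Function.update_of_ne (by simp), Function.update_of_ne (by simp)]
    | some k =>
      have h1 : ∀ w : T × (Fin d → ℤ_[2]),
          (fun l => (Function.update z (some k) w (some l)).1) =
            Function.update (fun l => (z (some l)).1) k w.1 := by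
        intro w
        funext l
        by_cases hl : l = k
        · subst hl
          rw [Function.update_self, Function.update_self]
        · rw [Function.update_of_ne hl, Function.update_of_ne (fun h => hl (Option.some.inj h))]
      have h2 : ∀ w : T × (Fin d → ℤ_[2]), Function.update z (some k) w none = z none := by
        intro w
        rw [Function.update_of_ne (by simp)]
      simp only [h1, h2, Prod.fst_add, MultilinearMap.map_update_add, smul_add]
  map_update_smul' := by
    intro dec z k c x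
    rw [Finset.smul_sum]
    refine Finset.sum_congr rfl fun j _ => ?_
    cases k with
    | none =>
      simp only [Function.update_self, Prod.smul_snd, Pi.smul_apply, smul_eq_mul, mul_smul]
      congr 3
      funext l
      rw [Function.update_of_ne (by simp), Function.update_of_ne (by simp)]
    | some k =>
      have h1 : ∀ w : T × (Fin d → ℤ_[2]),
          (fun l => (Function.update z (some k) w (some l)).1) =
            Function.update (fun l => (z (some l)).1) k w.1 := by
        intro w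
        funext l
        by_cases hl : l = k
        · subst hl
          rw [Function.update_self, Function.update_self]
        · rw [Function.update_of_ne hl, Function.update_of_ne (fun h => hl (Option.some.inj h))]
      have h2 : ∀ w : T × (Fin d → ℤ_[2]), Function.update z (some k) w none = z none := by
        intro w
        rw [Function.update_of_ne (by simp)]
      simp only [h1, h2, Prod.smul_fst, MultilinearMap.map_update_smul]
      rw [smul_comm]

theorem phat_apply (φ : Fin d → MultilinearMap ℤ_[2] (fun _ : κ => T) ℚ_[2])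
    (z : Option κ → T × (Fin d → ℤ_[2])) :
    phat φ z = ∑ j, (z none).2 j • φ j (fun k => (z (some k)).1) := rfl

/-- The block operator. -/
def pm {D : Type*} [AddCommGroup D] [Module ℤ_[2] D] :
    (Module.End ℤ_[2] T × Module.End ℤ_[2] D) →ₐ[ℤ_[2]] Module.End ℤ_[2] (T × D) :=
  LinearMap.prodMapAlgHom ℤ_[2] T D

theorem pm_apply {D : Type*} [AddCommGroup D] [Module ℤ_[2] D]
    (p : Module.End ℤ_[2] T × Module.End ℤ_[2] D) (z : T × D) : pm p z = (p.1 z.1, p.2 z.2) := rfl

theorem Ys_pm {D : Type*} [AddCommGroup D] [Module ℤ_[2] D]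
    (p : Module.End ℤ_[2] T × Module.End ℤ_[2] D) (n : ℕ) :
    Ys (pm p) n = pm (Ys p.1 n, Ys p.2 n) := by
  induction n with
  | zero => rfl
  | succ n ih =>
    rw [Ys, ih, ← map_mul, ← map_smul, ← map_add]
    rfl

theorem phat_kill [Module.Finite ℤ_[2] T] {φ : Fin d → MultilinearMap ℤ_[2] (fun _ : κ => T) ℚ_[2]}
    {s : Γ} {M : ℕ} (hM : M ≠ 0) {χs c : ℤ_[2]} (hc : c * χs = 1)
    (hφ : ∀ j x, φ j (fun k => (ρ s ^ M * ρ s ^ M : Module.End ℤ_[2] T) (x k)) =
      ∑ i, (t s ^ M * t s ^ M) j i • φ i x)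
    {X₀ X : Module.End ℤ_[2] T} (h0 : c • (ρ s * ρ s) = 1 + (4 : ℤ_[2]) • X₀)
    (hX : ∀ n, ∃ Z, X - Ys X₀ n = (2 : ℤ_[2]) ^ n • Z)
    {Y₀ Y : Module.End ℤ_[2] (Fin d → ℤ_[2])}
    (h1 : ∀ μ, (1 + (4 : ℤ_[2]) • Y₀) μ = χs ^ Fintype.card κ • Matrix.vecMul μ (t s⁻¹ * t s⁻¹))
    (hY : ∀ n, ∃ Z, Y - Ys Y₀ n = (2 : ℤ_[2]) ^ n • Z) (μ : Fin d → ℤ_[2]) (x : κ → T) :
    ∑ j, (Y μ) j • φ j x + ∑ j, μ j • ∑ k, φ j (Function.update x k (X (x k))) = 0 := by
  classical
  have hpow : ∀ (M : ℕ) μ, ((1 + (4 : ℤ_[2]) • Y₀) ^ M : Module.End ℤ_[2] (Fin d → ℤ_[2])) μ =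
      (χs ^ Fintype.card κ) ^ M • Matrix.vecMul μ (t s⁻¹ ^ M * t s⁻¹ ^ M) := by
    intro M
    induction M with
    | zero => intro μ; simp
    | succ M ih =>
      intro μ
      rw [pow_succ', Module.End.mul_apply, ih, map_smul, h1, Matrix.vecMul_vecMul, smul_smul,
        ← pow_succ]
      congr 2
      have h2 : Commute (t s⁻¹ ^ M) (t s⁻¹) := (Commute.refl _).pow_left M
      calc t s⁻¹ ^ M * t s⁻¹ ^ M * (t s⁻¹ * t s⁻¹) = t s⁻¹ ^ M * (t s⁻¹ ^ M * t s⁻¹) * t s⁻¹ := by
            simp only [mul_assoc]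
        _ = t s⁻¹ ^ M * (t s⁻¹ * t s⁻¹ ^ M) * t s⁻¹ := by rw [h2.eq]
        _ = _ := by simp only [pow_succ, mul_assoc]
  have hφ' : ∀ z, phat φ (fun k => ((1 + (4 : ℤ_[2]) • pm (X₀, Y₀)) ^ M :
      Module.End ℤ_[2] (T × (Fin d → ℤ_[2]))) (z k)) = phat φ z := by
    intro z
    have h2 : (1 + (4 : ℤ_[2]) • pm (X₀, Y₀)) ^ M = pm ((1 + (4 : ℤ_[2]) • X₀) ^ M,
        (1 + (4 : ℤ_[2]) • Y₀) ^ M) := by
      rw [← map_one pm, ← map_smul, ← map_add, ← map_pow]
      rfl
    rw [h2, phat_apply]
    simp only [pm_apply]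
    have h3 : (1 + (4 : ℤ_[2]) • X₀) ^ M = c ^ M • (ρ s ^ M * ρ s ^ M) := by
      rw [← h0, smul_pow, (Commute.refl (ρ s)).mul_pow]
    have h4 : ∀ j, φ j (fun k => ((1 + (4 : ℤ_[2]) • X₀) ^ M : Module.End ℤ_[2] T) (z (some k)).1) =
        (c ^ M) ^ Fintype.card κ • ∑ i, (t s ^ M * t s ^ M) j i • φ i (fun k => (z (some k)).1) := by
      intro j
      rw [h3]
      have h5 : (fun k => (c ^ M • (ρ s ^ M * ρ s ^ M) : Module.End ℤ_[2] T) (z (some k)).1) =
          fun k => (fun _ => c ^ M) k • (fun k => (ρ s ^ M * ρ s ^ M : Module.End ℤ_[2] T)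
            (z (some k)).1) k := rfl
      rw [h5, MultilinearMap.map_smul_univ, hφ, Finset.prod_const, Finset.card_univ]
    simp only [h4, hpow]
    rw [phat_apply]
    simp only [Pi.smul_apply, smul_eq_mul]
    have h6 : (χs ^ Fintype.card κ) ^ M * (c ^ M) ^ Fintype.card κ = 1 := by
      calc (χs ^ Fintype.card κ) ^ M * (c ^ M) ^ Fintype.card κ = (c * χs) ^ (Fintype.card κ * M) := by
            rw [mul_pow]
            ring
        _ = 1 := by rw [hc, one_pow]
    have h7 : t s⁻¹ ^ M * t s⁻¹ ^ M * (t s ^ M * t s ^ M) = 1 := by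
      rw [← map_pow, ← map_pow, ← map_mul, ← map_mul, ← map_mul]
      have : s⁻¹ ^ M * s⁻¹ ^ M * (s ^ M * s ^ M) = 1 := by
        rw [inv_pow]
        group
      rw [this, map_one]
    have h8 : ∀ j, ((χs ^ Fintype.card κ) ^ M * Matrix.vecMul (z none).2 (t s⁻¹ ^ M * t s⁻¹ ^ M) j) •
        (c ^ M) ^ Fintype.card κ • ∑ i, (t s ^ M * t s ^ M) j i • φ i (fun k => (z (some k)).1) =
        ∑ i, (Matrix.vecMul (z none).2 (t s⁻¹ ^ M * t s⁻¹ ^ M) j * (t s ^ M * t s ^ M) j i) •
          φ i (fun k => (z (some k)).1) := by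
      intro j
      rw [smul_smul, Finset.smul_sum]
      refine Finset.sum_congr rfl fun i _ => ?_
      rw [smul_smul]
      congr 1
      linear_combination (Matrix.vecMul (z none).2 (t s⁻¹ ^ M * t s⁻¹ ^ M) j *
        (t s ^ M * t s ^ M) j i) * h6
    rw [Finset.sum_congr rfl fun j _ => h8 j, Finset.sum_comm]
    refine Finset.sum_congr rfl fun i _ => ?_
    rw [← Finset.sum_smul]
    congr 1
    have h9 := congrFun (Matrix.vecMul_vecMul (z none).2 (t s⁻¹ ^ M * t s⁻¹ ^ M)
      (t s ^ M * t s ^ M)) i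
    rw [h7, Matrix.vecMul_one] at h9
    rw [← h9]
    rfl
  have hYs : ∀ n, ∃ Z, pm (X, Y) - Ys (pm (X₀, Y₀)) n = (2 : ℤ_[2]) ^ n • Z := by
    intro n
    obtain ⟨Z, hZ⟩ := hX n
    obtain ⟨Z', hZ'⟩ := hY n
    refine ⟨pm (Z, Z'), ?_⟩
    rw [Ys_pm, ← map_sub, ← map_smul]
    congr 1
    exact Prod.ext hZ hZ'
  have h2 := log_kills (phat φ) (pm (X₀, Y₀)) hM hφ' hYs
    (fun k => Option.elim k (0, μ) (fun k => (x k, 0)))
  rw [Fintype.sum_option, phat_apply] at h2
  rw [← h2]
  congr 1
  rw [Finset.sum_congr rfl fun j _ => Finset.smul_sum, Finset.sum_comm]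
  refine Finset.sum_congr rfl fun k _ => ?_
  rw [phat_apply]
  refine Finset.sum_congr rfl fun j _ => ?_
  rw [Function.update_of_ne (by simp)]
  congr 2
  funext l
  by_cases hl : l = k
  · subst hl
    rw [Function.update_self, Function.update_self]
    rfl
  · rw [Function.update_of_ne hl, Function.update_of_ne (fun h => hl (Option.some.inj h))]
    rfl

end

end Pool.Agent.N171
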