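import Mathlib
import Pool.Agent.N171.LW

/-!
# The Lie algebra of the Jacobian kills the vector valued Tate forms
-/

set_option linter.unusedSectionVars false

namespace Pool.Agent.N171

open PadicInt TensorProduct Module Pool.Agent.H204R3.SP Pool.Agent.H204R3.GP

noncomputable section

variable {T : Type*} [AddCommGroup T] [Module ℤ_[2] T] [Module.Finite ℤ_[2] T]
  [Module.Free ℤ_[2] T] {Γ : Type*} [Group Γ]
  (ρ : Representation ℤ_[2] Γ T) (χ : Γ →* ℤ_[2]ˣ) {d : ℕ} (κ : Type*) [Fintype κ]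
  [DecidableEq κ] (t : Γ →* Matrix (Fin d) (Fin d) ℤ_[2])
  (B : T →ₗ[ℤ_[2]] T →ₗ[ℤ_[2]] ℤ_[2])

theorem inv_eight {s : Γ} (h : ∃ z, (χ s : ℤ_[2]) = 1 + 8 * z) :
    ∃ z', (((χ s)⁻¹ : ℤ_[2]ˣ) : ℤ_[2]) = 1 + 8 * z' := by
  obtain ⟨z, hz⟩ := h
  refine ⟨-z * (((χ s)⁻¹ : ℤ_[2]ˣ) : ℤ_[2]), ?_⟩
  have h1 : (χ s : ℤ_[2]) * (((χ s)⁻¹ : ℤ_[2]ˣ) : ℤ_[2]) = 1 := Units.mul_inv _
  rw [hz] at h1
  linear_combination h1

/-- The data of the lift of a reflection. -/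
theorem refl_data (halt : ∀ x, B x x = 0) (v : T) (s : Γ)
    (hs8 : ∃ z, (χ s : ℤ_[2]) = 1 + 8 * z)
    (hs : ∀ x, ∃ y, ρ s x = x + (2 : ℤ_[2]) • (B v x • v) + (4 : ℤ_[2]) • y) :
    ∃ (c : ℤ_[2]) (X₀ X : Module.End ℤ_[2] T), c * (χ s : ℤ_[2]) = 1 ∧
      c • (ρ s * ρ s) = 1 + (4 : ℤ_[2]) • X₀ ∧
      (∀ n, ∃ Z, X - Ys X₀ n = (2 : ℤ_[2]) ^ n • Z) ∧
      ∃ Z, X = Eo B v v + (2 : ℤ_[2]) • Z := by
  classical
  let b := Module.Free.chooseBasis ℤ_[2] T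
  choose w hw using fun i => hs (b i)
  let W : Module.End ℤ_[2] T := b.constr ℤ_[2] w
  have hW : ρ s = 1 + (2 : ℤ_[2]) • Eo B v v + (4 : ℤ_[2]) • W := by
    refine b.ext fun i => ?_
    rw [hw]
    simp only [LinearMap.add_apply, LinearMap.smul_apply, W, Module.Basis.constr_basis, Eo_apply]
    rfl
  have hEE : Eo B v v * Eo B v v = 0 := by
    ext x
    rw [Module.End.mul_apply, Eo_apply, Eo_apply, map_smul, halt, smul_zero, zero_smul]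
    rfl
  obtain ⟨z', hz'⟩ := inv_eight χ hs8
  set E := Eo B v v with hE
  set Y₁ : Module.End ℤ_[2] T := W + E * W + W * E + (2 : ℤ_[2]) • (W * W) with hY₁
  have h1 : ρ s * ρ s = 1 + (4 : ℤ_[2]) • (E + (2 : ℤ_[2]) • Y₁) := by
    rw [hW, hY₁]
    simp only [mul_add, add_mul, one_mul, mul_one, smul_mul_assoc, mul_smul_comm, hEE, smul_zero,
      add_zero]
    module
  have h2 : (1 + 8 * z') • (ρ s * ρ s) = 1 + (4 : ℤ_[2]) • (E + (2 : ℤ_[2]) •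
      (Y₁ + z' • (1 + (4 : ℤ_[2]) • (E + (2 : ℤ_[2]) • Y₁)))) := by
    rw [h1]
    module
  obtain ⟨Y, ⟨Z, hZ⟩, hY⟩ := exists_log (E + (2 : ℤ_[2]) •
      (Y₁ + z' • (1 + (4 : ℤ_[2]) • (E + (2 : ℤ_[2]) • Y₁))))
  refine ⟨1 + 8 * z', _, Y, by rw [← hz']; exact Units.inv_mul _, h2, hY,
    Z + (Y₁ + z' • (1 + (4 : ℤ_[2]) • (E + (2 : ℤ_[2]) • Y₁))), ?_⟩
  rw [sub_eq_iff_eq_add] at hZ
  rw [hZ]
  module

theorem pow_eight (n : ℕ) (z : ℤ_[2]) : ∃ z', (1 + 8 * z) ^ n = 1 + 8 * z' := by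
  induction n with
  | zero => exact ⟨0, by simp⟩
  | succ n ih =>
    obtain ⟨z', hz'⟩ := ih
    exact ⟨z' + z + 8 * z' * z, by rw [pow_succ, hz']; ring⟩

/-- The logarithm of a reflection acts on the values through a matrix divisible by two. -/
theorem log_LW {s : Γ} (hs8 : ∃ z, (χ s : ℤ_[2]) = 1 + 8 * z) (ht : ∃ Z, t s = 1 + (4 : ℤ_[2]) • Z)
    {c : ℤ_[2]} (hc : c * (χ s : ℤ_[2]) = 1) {X₀ X : Module.End ℤ_[2] T}
    (h0 : c • (ρ s * ρ s) = 1 + (4 : ℤ_[2]) • X₀)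
    (hX : ∀ n, ∃ Z, X - Ys X₀ n = (2 : ℤ_[2]) ^ n • Z) :
    ∃ Y, LW ρ κ t X ((2 : ℤ_[2]) • Y) := by
  obtain ⟨Z, hZ⟩ := ht
  obtain ⟨Z', hZ'⟩ : ∃ Z', t s⁻¹ = 1 + (4 : ℤ_[2]) • Z' := by
    refine ⟨-(Z * t s⁻¹), ?_⟩
    have h1 : t s * t s⁻¹ = 1 := by rw [← map_mul, mul_inv_cancel, map_one]
    rw [hZ, add_mul, one_mul, smul_mul_assoc] at h1
    rw [← h1]
    module
  obtain ⟨z, hz⟩ := hs8
  obtain ⟨z', hz'⟩ := pow_eight (Fintype.card κ) z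
  obtain ⟨Z'', hZ''⟩ : ∃ Z'' : Matrix (Fin d) (Fin d) ℤ_[2],
      (1 + 8 * z') • (t s⁻¹ * t s⁻¹) = 1 + (8 : ℤ_[2]) • Z'' := by
    refine ⟨z' • 1 + (1 + 8 * z') • (Z' + (2 : ℤ_[2]) • (Z' * Z')), ?_⟩
    rw [hZ']
    simp only [mul_add, add_mul, one_mul, mul_one, smul_mul_assoc, mul_smul_comm]
    module
  let Y₀ : Module.End ℤ_[2] (Fin d → ℤ_[2]) := (2 : ℤ_[2]) • Matrix.vecMulLinear Z''
  have h1 : ∀ μ, (1 + (4 : ℤ_[2]) • Y₀) μ =
      (χ s : ℤ_[2]) ^ Fintype.card κ • Matrix.vecMul μ (t s⁻¹ * t s⁻¹) := by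
    intro μ
    rw [hz, hz', ← Matrix.vecMul_smul, hZ'', Matrix.vecMul_add, Matrix.vecMul_one,
      Matrix.vecMul_smul]
    simp only [Y₀, LinearMap.add_apply, LinearMap.smul_apply, Module.End.one_apply,
      Matrix.vecMulLinear_apply, smul_smul]
    norm_num
  obtain ⟨Y, ⟨Y', hY'⟩, hY⟩ := exists_log Y₀
  refine ⟨Matrix.of fun j i => -((Matrix.vecMulLinear Z'' + Y') (Pi.single j 1)) i, ?_⟩
  intro φ hφ j x
  obtain ⟨Δ, hΔ, hφ⟩ := hφ
  obtain ⟨M, hM0, -, hM⟩ := Subgroup.exists_pow_mem_of_index_ne_zero hΔ.index_ne_zero s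
  have h3 := phat_kill (ρ := ρ) (t := t) (φ := φ) hM0.ne' (χs := (χ s : ℤ_[2])) hc (fun j x => by
    have h4 := hφ _ (Δ.mul_mem hM hM) j x
    rw [map_mul, map_pow, map_mul, map_pow] at h4
    exact h4) h0 hX h1 hY (Pi.single j 1) x
  have h4 : ∑ i, (Pi.single j 1 : Fin d → ℤ_[2]) i • ∑ k, φ i (Function.update x k (X (x k))) =
      ∑ k, φ j (Function.update x k (X (x k))) := by
    rw [Finset.sum_eq_single j]
    · rw [Pi.single_eq_same, one_smul]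
    · intro i _ hi
      rw [Pi.single_eq_of_ne hi, zero_smul]
    · intro h
      exact absurd (Finset.mem_univ _) h
  rw [h4] at h3
  rw [eq_neg_of_add_eq_zero_right h3, ← Finset.sum_neg_distrib]
  refine Finset.sum_congr rfl fun i _ => ?_
  rw [← neg_smul]
  congr 1
  have h5 : Y = (2 : ℤ_[2]) • ((Matrix.vecMulLinear Z'' : Module.End ℤ_[2] (Fin d → ℤ_[2])) +
      Y') := by
    rw [smul_add, ← hY']
    simp only [Y₀]
    abel
  rw [h5]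
  simp only [Matrix.smul_apply, Matrix.of_apply, LinearMap.smul_apply, Pi.smul_apply, smul_eq_mul]
  ring

variable (halt : ∀ x, B x x = 0) (hnd : ∀ v, (∀ w, ¬ IsUnit (B v w)) → ∃ u, (2 : ℤ_[2]) • u = v)
  {Q : Type*} [DecidableEq Q] [Fintype Q] (π : Q → Module.End ℤ_[2] T)
  (hπ1 : ∀ x, ∑ q, π q x = x) (hππ : ∀ q x, π q (π q x) = π q x)
  (hππ' : ∀ q r x, q ≠ r → π q (π r x) = 0)
  (hBπ : ∀ q x y, B (π q x) y = B x (π q y))

theorem spQ_bracket {X X' : Module.End ℤ_[2] T} (h : X ∈ spQ B π) (h' : X' ∈ spQ B π) :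
    X * X' - X' * X ∈ spQ B π := by
  obtain ⟨h1, h2⟩ := h
  obtain ⟨h1', h2'⟩ := h'
  refine ⟨fun x y => ?_, fun q x => ?_⟩
  · simp only [LinearMap.sub_apply, Module.End.mul_apply, map_sub]
    linear_combination h1 (X' x) y - h1' (X x) y + h1 x (X' y) - h1' x (X y)
  · simp only [LinearMap.sub_apply, Module.End.mul_apply, map_sub, h2, h2']

include halt hππ hππ' hBπ in
theorem Eo_spQ (c : Q) (u : T) : Eo B (π c u) (π c u) ∈ spQ B π := by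
  refine ⟨fun x y => ?_, fun d x => ?_⟩
  · rw [Eo_apply, Eo_apply]
    simp only [map_smul, LinearMap.smul_apply, smul_eq_mul]
    rw [B_anti B halt x]
    ring
  · rw [Eo_apply, Eo_apply, map_smul]
    by_cases hd : d = c
    · subst hd
      rw [hππ, ← hBπ, hππ]
    · rw [hππ' d c _ hd, ← hBπ, hππ' d c _ hd]
      simp

/-- Nakayama's lemma. -/
theorem nakayama_sp {S : Submodule ℤ_[2] (Module.End ℤ_[2] T)} (hle : S ≤ spQ B π)
    (hsp : spQ B π ≤ nn S) : spQ B π ≤ S := by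
  refine Submodule.le_of_le_smul_of_le_jacobson_bot (I := Ideal.span {(2 : ℤ_[2])})
    (IsNoetherian.noetherian _) ?_ ?_
  · rw [IsLocalRing.jacobson_eq_maximalIdeal ⊥ bot_ne_top, Ideal.span_singleton_le_iff_mem,
      IsLocalRing.mem_maximalIdeal, mem_nonunits_iff, isUnit_iff_toZModPow, not_not, map_ofNat]
    rfl
  · intro X hX
    obtain ⟨Y, hY, Z, rfl⟩ := hsp hX
    refine Submodule.add_mem_sup hY (Submodule.smul_mem_smul
      (Ideal.mem_span_singleton_self _) ?_)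
    have h3 : (2 : ℤ_[2]) • Z ∈ spQ B π := by
      have := Submodule.sub_mem _ hX (hle hY)
      rwa [add_sub_cancel_left] at this
    obtain ⟨h4, h5⟩ := h3
    refine ⟨fun x y => ?_, fun c x => ?_⟩
    · have h6 := h4 x y
      simp only [LinearMap.smul_apply, map_smul, smul_eq_mul] at h6
      rw [← mul_add] at h6
      exact (mul_eq_zero.1 h6).resolve_left (by norm_num)
    · have h6 := h5 c x
      simp only [LinearMap.smul_apply, map_smul] at h6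
      rw [← sub_eq_zero, ← smul_sub] at h6
      exact sub_eq_zero.1 (two_smul_cancel h6)

/-- The elements of the symplectic Lie algebra that act on the values through a matrix divisible by
`2 ^ b`. -/
def PL (b : ℕ) : Submodule ℤ_[2] (Module.End ℤ_[2] T) where
  carrier := {X | X ∈ spQ B π ∧ ∃ Y, LW ρ κ t X ((2 : ℤ_[2]) ^ b • Y)}
  zero_mem' := ⟨Submodule.zero_mem _, 0, by rw [smul_zero]; exact LW_zero⟩
  add_mem' := by
    rintro X X' ⟨h, Y, hY⟩ ⟨h', Y', hY'⟩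
    exact ⟨Submodule.add_mem _ h h', Y + Y', by rw [smul_add]; exact LW_add hY hY'⟩
  smul_mem' := by
    rintro c X ⟨h, Y, hY⟩
    exact ⟨Submodule.smul_mem _ c h, c • Y, by rw [smul_comm]; exact LW_smul c hY⟩

theorem PL_bracket {b : ℕ} {X X' : Module.End ℤ_[2] T} (h : X ∈ PL ρ κ t B π b)
    (h' : X' ∈ PL ρ κ t B π b) : X * X' - X' * X ∈ PL ρ κ t B π b := by
  obtain ⟨h, Y, hY⟩ := h
  obtain ⟨h', Y', hY'⟩ := h'
  refine ⟨spQ_bracket B π h h', (2 : ℤ_[2]) ^ b • (Y * Y' - Y' * Y), ?_⟩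
  have h1 := LW_bracket hY hY'
  simp only [smul_mul_assoc, mul_smul_comm] at h1
  rw [smul_sub, smul_sub]
  exact h1

variable {ρ κ t}

include halt hnd hπ1 hππ hππ' hBπ in
/-- The bootstrapping step. -/
theorem PL_succ {b : ℕ} (hb : 1 ≤ b) (h : spQ B π ≤ PL ρ κ t B π b) :
    spQ B π ≤ PL ρ κ t B π (b + 1) := by
  have hle : PL ρ κ t B π (b + 1) ≤ spQ B π := fun X hX => hX.1
  have h2 : ∀ X, (2 : ℤ_[2]) • X ∈ nn (PL ρ κ t B π (b + 1)) := fun X =>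
    ⟨0, Submodule.zero_mem _, X, by rw [zero_add]⟩
  have hE : ∀ q u, Eo B (π q u) (π q u) ∈ nn (PL ρ κ t B π (b + 1)) := by
    intro q u
    by_cases hu : ∃ w, IsUnit (B (π q u) w)
    · obtain ⟨w, c, hc⟩ := hu
      set x := π q u with hx
      set m := π q (((c⁻¹ : ℤ_[2]ˣ) : ℤ_[2]) • w) with hm
      have hxm : B x m = 1 := by
        rw [hm, ← hBπ, hx, hππ, map_smul, ← hx, ← hc, smul_eq_mul, Units.inv_mul]
      have hEx : Eo B x x ∈ spQ B π := Eo_spQ B halt π hππ hππ' hBπ q u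
      obtain ⟨-, Y, hY⟩ := h hEx
      obtain ⟨-, Y', hY'⟩ := h (Eo_spQ B halt π hππ hππ' hBπ q (((c⁻¹ : ℤ_[2]ˣ) : ℤ_[2]) • w))
      rw [← hm] at hY'
      have h3 := LW_bracket hY hY'
      rw [bracket_Eo B halt, hxm, one_smul] at h3
      have h4 := LW_bracket hY h3
      rw [bracket_so B halt, hxm, one_smul, halt, zero_smul, add_zero, so_self] at h4
      obtain ⟨k, rfl⟩ : ∃ k, b = k + 1 := ⟨b - 1, by omega⟩
      have h5 : (2 : ℤ_[2]) ^ (k + 1) • Y * ((2 : ℤ_[2]) ^ (k + 1) • Y * (2 : ℤ_[2]) ^ (k + 1) • Y' -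
          (2 : ℤ_[2]) ^ (k + 1) • Y' * (2 : ℤ_[2]) ^ (k + 1) • Y) -
          ((2 : ℤ_[2]) ^ (k + 1) • Y * (2 : ℤ_[2]) ^ (k + 1) • Y' -
          (2 : ℤ_[2]) ^ (k + 1) • Y' * (2 : ℤ_[2]) ^ (k + 1) • Y) * (2 : ℤ_[2]) ^ (k + 1) • Y =
          (2 : ℤ_[2]) • ((2 : ℤ_[2]) ^ (k + 1 + 1) • ((2 : ℤ_[2]) ^ (2 * k) •
            (Y * (Y * Y' - Y' * Y) - (Y * Y' - Y' * Y) * Y))) := by
        simp only [smul_mul_assoc, mul_smul_comm, mul_sub, sub_mul, smul_sub, smul_smul]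
        have e1 : (2 : ℤ_[2]) ^ (k + 1) * (2 ^ (k + 1) * 2 ^ (k + 1)) =
            2 * (2 ^ (k + 1 + 1) * 2 ^ (2 * k)) := by ring
        simp only [e1, mul_assoc]
      rw [h5] at h4
      exact ⟨Eo B x x, ⟨hEx, _, LW_cancel h4⟩, 0, by rw [smul_zero, add_zero]⟩
    · obtain ⟨y, hy⟩ := hnd (π q u) (fun w hw => hu ⟨w, hw⟩)
      rw [← hy, Eo_smul, mul_smul]
      exact h2 _
  refine nakayama_sp B π hle ?_
  let n := Fintype.card (Module.Free.ChooseBasisIndex ℤ_[2] T)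
  let b₀ : Module.Basis (Fin n) ℤ_[2] T :=
    (Module.Free.chooseBasis ℤ_[2] T).reindex (Fintype.equivFin _)
  refine spQ_le B hnd π halt hπ1 hππ hBπ b₀ _ hE fun q u w => ?_
  have h3 : so B (π q u) (π q w) = Eo B (π q (u + w)) (π q (u + w)) -
      Eo B (π q u) (π q u) - Eo B (π q w) (π q w) := by
    rw [map_add, Eo_add]
    abel
  rw [h3]
  exact Submodule.sub_mem _ (Submodule.sub_mem _ (hE _ _) (hE _ _)) (hE _ _)

variable {μ : Type*} (v : μ → T) (q : μ → Q) (σ : μ → Γ)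
  (hσ8 : ∀ k, ∃ z, (χ (σ k) : ℤ_[2]) = 1 + 8 * z)
  (hσ : ∀ k x, ∃ y, ρ (σ k) x = x + (2 : ℤ_[2]) • (B (v k) x • v k) + (4 : ℤ_[2]) • y)
  (hconn : ∀ k l, q k = q l → Relation.ReflTransGen (Adj B v q) k l)
  (hspan : ∀ c x, π c x ∈ Wq v q c)
  (hB : ∀ s x y, B (ρ s x) (ρ s y) = (χ s : ℤ_[2]) * B x y)
  (hπρ : ∀ q s x, π q (ρ s x) = ρ s (π q x))
  (ht : ∀ k, ∃ Z, t (σ k) = 1 + (4 : ℤ_[2]) • Z)

include halt hnd hB hπ1 hππ hππ' hBπ hπρ hσ8 hσ hconn hspan ht in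
theorem PL_one : spQ B π ≤ PL ρ κ t B π 1 := by
  classical
  have hle : PL ρ κ t B π 1 ≤ spQ B π := fun X hX => hX.1
  have h2 : ∀ X, (2 : ℤ_[2]) • X ∈ nn (PL ρ κ t B π 1) := fun X =>
    ⟨0, Submodule.zero_mem _, X, by rw [zero_add]⟩
  have hbr : ∀ X ∈ nn (PL ρ κ t B π 1), ∀ Y ∈ nn (PL ρ κ t B π 1),
      X * Y - Y * X ∈ nn (PL ρ κ t B π 1) := by
    rintro _ ⟨X, hX, Z, rfl⟩ _ ⟨X', hX', Z', rfl⟩
    refine ⟨X * X' - X' * X, PL_bracket ρ κ t B π hX hX', X * Z' + Z * X' +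
      (2 : ℤ_[2]) • (Z * Z') - (X' * Z + Z' * X + (2 : ℤ_[2]) • (Z' * Z)), ?_⟩
    simp only [mul_add, add_mul, smul_mul_assoc, mul_smul_comm]
    module
  have hv : ∀ k, Eo B (v k) (v k) ∈ nn (PL ρ κ t B π 1) := by
    intro k
    obtain ⟨c, X₀, X, hc, h0, hX, Z, hZ⟩ := refl_data ρ χ B halt (v k) (σ k) (hσ8 k) (hσ k)
    have h3 : X ∈ spQ B π := gZ_le ρ χ B hnd hB π hBπ hπρ (log_mem ρ χ hc h0 hX)
    obtain ⟨Y, hY⟩ := log_LW ρ χ κ t (hσ8 k) (ht k) hc h0 hX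
    exact ⟨X, ⟨h3, Y, by rw [pow_one]; exact hY⟩, -Z, by rw [hZ]; module⟩
  refine nakayama_sp B π hle ?_
  let n := Fintype.card (Module.Free.ChooseBasisIndex ℤ_[2] T)
  let b₀ : Module.Basis (Fin n) ℤ_[2] T :=
    (Module.Free.chooseBasis ℤ_[2] T).reindex (Fintype.equivFin _)
  exact spQ_le B hnd π halt hπ1 hππ hBπ b₀ (nn (PL ρ κ t B π 1))
    (fun c u => Eo_mem B halt v q _ h2 hbr hv hconn (hspan c u))
    (fun c u w => so_mem B halt v q _ h2 hbr hv hconn (hspan c u) (hspan c w))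

include halt hnd hB hπ1 hππ hππ' hBπ hπρ hσ8 hσ hconn hspan ht in
/-- The symplectic Lie algebra kills all the vector valued Tate forms. -/
theorem kill_all {X : Module.End ℤ_[2] T} (hX : X ∈ spQ B π)
    {φ : Fin d → MultilinearMap ℤ_[2] (fun _ : κ => T) ℚ_[2]} (hφ : IsTW ρ κ t φ) (j : Fin d)
    (x : κ → T) : ∑ k, φ j (Function.update x k (X (x k))) = 0 := by
  have key : ∀ b, spQ B π ≤ PL ρ κ t B π (b + 1) := by
    intro b
    induction b with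
    | zero => exact PL_one χ B halt hnd π hπ1 hππ hππ' hBπ v q σ hσ8 hσ hconn hspan hB hπρ ht
    | succ b ih => exact PL_succ B halt hnd π hπ1 hππ hππ' hBπ (Nat.succ_pos b) ih
  refine eq_zero_of_le (K := ∑ i, ‖φ i x‖) fun n => ?_
  obtain ⟨-, Y, hY⟩ := key n hX
  rw [hY φ hφ, Finset.sum_mul]
  refine (norm_sum_le _ _).trans (Finset.sum_le_sum fun i _ => ?_)
  rw [norm_smul_le_two, Matrix.smul_apply, smul_eq_mul, norm_mul, norm_two_pow, mul_comm]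
  refine mul_le_mul_of_nonneg_left ?_ (norm_nonneg _)
  refine (mul_le_of_le_one_right (by positivity) (norm_le_one _)).trans ?_
  exact pow_le_pow_of_le_one (by norm_num) (by norm_num) (Nat.le_succ n)

end

end Pool.Agent.N171
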