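import Mathlib
import Pool.Agent.N171.Inv

/-!
# Vector valued forms killed by the symplectic Lie algebras
-/

set_option linter.unusedSectionVars false

namespace Pool.Agent.N171

open Module Pool.Agent.H204R3.CM Pool.Agent.H204R3.SP Pool.Agent.H204R3.GP Pool.Agent.W437.HD

noncomputable section

variable {k V W Γ : Type*} [Field k] [AddCommGroup V] [Module k V] [AddCommGroup W] [Module k W] [Group Γ]

/-- Tate classes with values in the representation `τ`. -/
def IsTateV (ρ : Representation k Γ V) (τ : Representation k Γ W) {n : ℕ} {κ : Type*}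
    (f : (Fin n → V) [⋀^κ]→ₗ[k] W) : Prop :=
  ∃ Δ : Subgroup Γ, Δ.FiniteIndex ∧ ∀ s ∈ Δ, ∀ v : κ → Fin n → V,
    f (fun l i => ρ s (v l i)) = τ s (f v)

/-- The forms `v ↦ g v • w`, where `g` is a wedge product of `m` forms `ω q (v i) (w j) + ω q (v j) (w i)`
and `w` is a Tate class of weight `m` of `W`. -/
def IsProdW {Q : Type*} (χ : Γ →* k) (τ : Representation k Γ W) (ω : Q → V →ₗ[k] V →ₗ[k] k)
    {n m : ℕ} (h : (Fin n → V) [⋀^Fin m × Fin 2]→ₗ[k] W) : Prop :=
  ∃ (B : Fin m → (Fin n → V) [⋀^Fin 2]→ₗ[k] k) (g : (Fin n → V) [⋀^Fin m × Fin 2]→ₗ[k] k) (w : W),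
    (∀ l, IsLef ω (B l)) ∧ IsWedge B g ∧
    (∃ Δ : Subgroup Γ, Δ.FiniteIndex ∧ ∀ s ∈ Δ, τ s w = χ s ^ m • w) ∧ ∀ v, h v = g v • w

variable (ρ : Representation k Γ V) (χ : Γ →* k) (τ : Representation k Γ W)
  {Q : Type*} (ω : Q → V →ₗ[k] V →ₗ[k] k)
  (hω : ∀ q s u v, ω q (ρ s u) (ρ s v) = χ s * ω q u v) {n m : ℕ}

include hω in
theorem lef_equiv {g : (Fin n → V) [⋀^Fin m × Fin 2]→ₗ[k] k}
    (hg : g ∈ Submodule.span k {g : (Fin n → V) [⋀^Fin m × Fin 2]→ₗ[k] k |
      ∃ B : Fin m → (Fin n → V) [⋀^Fin 2]→ₗ[k] k, (∀ l, IsLef ω (B l)) ∧ IsWedge B g}) (s : Γ)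
    (v : Fin m × Fin 2 → Fin n → V) : g (fun l i => ρ s (v l i)) = χ s ^ m * g v := by
  induction hg using Submodule.span_induction with
  | mem g hg =>
    obtain ⟨B, hB, hg⟩ := hg
    rw [hg, hg, Finset.mul_sum]
    refine Finset.sum_congr rfl fun σ _ => ?_
    have h1 : ∀ l, B l ![fun i => ρ s (v (σ (l, 0)) i), fun i => ρ s (v (σ (l, 1)) i)] =
        χ s * B l ![v (σ (l, 0)), v (σ (l, 1))] := by
      intro l
      obtain ⟨q, i, j, hBl⟩ := hB l
      rw [hBl, hBl, hω, hω, mul_add]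
    rw [Finset.prod_congr rfl fun l _ => h1 l, Finset.prod_mul_distrib, Finset.prod_const,
      Finset.card_univ, Fintype.card_fin]
    ring
  | zero => simp
  | add a b _ _ ha hb => rw [AlternatingMap.add_apply, AlternatingMap.add_apply, ha, hb, mul_add]
  | smul c a _ ha =>
    rw [AlternatingMap.smul_apply, AlternatingMap.smul_apply, ha, smul_eq_mul, smul_eq_mul]
    ring

theorem prodW_mem {g : (Fin n → V) [⋀^Fin m × Fin 2]→ₗ[k] k}
    (hg : g ∈ Submodule.span k {g : (Fin n → V) [⋀^Fin m × Fin 2]→ₗ[k] k |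
      ∃ B : Fin m → (Fin n → V) [⋀^Fin 2]→ₗ[k] k, (∀ l, IsLef ω (B l)) ∧ IsWedge B g}) {w : W}
    (hw : ∃ Δ : Subgroup Γ, Δ.FiniteIndex ∧ ∀ s ∈ Δ, τ s w = χ s ^ m • w) :
    (LinearMap.toSpanSingleton k W w).compAlternatingMap g ∈
      Submodule.span k {h | IsProdW χ τ ω h} := by
  induction hg using Submodule.span_induction with
  | mem g hg =>
    obtain ⟨B, hB, hg⟩ := hg
    exact Submodule.subset_span ⟨B, g, w, hB, hg, hw, fun v => rfl⟩
  | zero =>
    have h1 : (LinearMap.toSpanSingleton k W w).compAlternatingMap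
        (0 : (Fin n → V) [⋀^Fin m × Fin 2]→ₗ[k] k) = 0 := by
      ext v
      simp
    rw [h1]
    exact Submodule.zero_mem _
  | add a b _ _ ha hb =>
    have h1 : (LinearMap.toSpanSingleton k W w).compAlternatingMap (a + b) =
        (LinearMap.toSpanSingleton k W w).compAlternatingMap a +
        (LinearMap.toSpanSingleton k W w).compAlternatingMap b := by
      ext v
      simp
    rw [h1]
    exact Submodule.add_mem _ ha hb
  | smul c a _ ha =>
    have h1 : (LinearMap.toSpanSingleton k W w).compAlternatingMap (c • a) =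
        c • (LinearMap.toSpanSingleton k W w).compAlternatingMap a := by
      ext v
      simp
    rw [h1]
    exact Submodule.smul_mem _ _ ha

theorem exists_li {A : Type*} [AddCommGroup A] [Module k A] {d : ℕ} (fj : Fin d → A) :
    ∃ (r : ℕ) (g : Fin r → A) (c : Fin r → Fin d → k), LinearIndependent k g ∧
      (∀ i, g i ∈ Submodule.span k (Set.range fj)) ∧ ∀ j, fj j = ∑ i, c i j • g i := by
  have hS : FiniteDimensional k (Submodule.span k (Set.range fj)) :=
    FiniteDimensional.span_of_finite k (Set.finite_range fj)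
  let g := finBasis k (Submodule.span k (Set.range fj))
  refine ⟨_, fun i => (g i : A), fun i j => g.repr ⟨fj j, Submodule.subset_span ⟨j, rfl⟩⟩ i, ?_,
    fun i => (g i).2, fun j => ?_⟩
  · exact g.linearIndependent.map' (Submodule.subtype _) (Submodule.ker_subtype _)
  · have h := congrArg (Submodule.subtype (Submodule.span k (Set.range fj)))
      (g.sum_repr ⟨fj j, Submodule.subset_span ⟨j, rfl⟩⟩)
    rw [map_sum] at h
    simp only [map_smul] at h
    exact h.symm

/-- The evaluation of alternating maps. -/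
def evA {κ A M : Type*} [AddCommGroup A] [Module k A] [AddCommGroup M] [Module k M] (v : κ → A) :
    (A [⋀^κ]→ₗ[k] M) →ₗ[k] M where
  toFun g := g v
  map_add' _ _ := rfl
  map_smul' _ _ := rfl

theorem evA_apply {κ A M : Type*} [AddCommGroup A] [Module k A] [AddCommGroup M] [Module k M]
    (v : κ → A) (g : A [⋀^κ]→ₗ[k] M) : evA v g = g v := rfl

theorem sum_evA {κ A M μ : Type*} [AddCommGroup A] [Module k A] [AddCommGroup M] [Module k M]
    (v : κ → A) (s : Finset μ) (g : μ → A [⋀^κ]→ₗ[k] M) : (∑ i ∈ s, g i) v = ∑ i ∈ s, g i v := by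
  rw [← evA_apply, map_sum]
  rfl

include hω in
/-- A vector valued Tate class with Lefschetz coordinates. -/
theorem assemble {d : ℕ} (b : Basis (Fin d) k W) (f : (Fin n → V) [⋀^Fin m × Fin 2]→ₗ[k] W)
    (hf : IsTateV ρ τ f)
    (hL : ∀ j, (b.coord j).compAlternatingMap f ∈
      Submodule.span k {g : (Fin n → V) [⋀^Fin m × Fin 2]→ₗ[k] k |
      ∃ B : Fin m → (Fin n → V) [⋀^Fin 2]→ₗ[k] k, (∀ l, IsLef ω (B l)) ∧ IsWedge B g}) :
    f ∈ Submodule.span k {h | IsProdW χ τ ω h} := by
  classical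
  obtain ⟨r, g, c, hli, hgS, hc⟩ := exists_li (k := k)
    (fun j => (b.coord j).compAlternatingMap f)
  have hgL : ∀ i, g i ∈ Submodule.span k {g : (Fin n → V) [⋀^Fin m × Fin 2]→ₗ[k] k |
      ∃ B : Fin m → (Fin n → V) [⋀^Fin 2]→ₗ[k] k, (∀ l, IsLef ω (B l)) ∧ IsWedge B g} := by
    intro i
    refine (Submodule.span_le.2 ?_) (hgS i)
    rintro _ ⟨j, rfl⟩
    exact hL j
  clear hgS hL
  let w : Fin r → W := fun i => ∑ j, c i j • b j
  have hfv : ∀ v, f v = ∑ i, g i v • w i := by
    intro v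
    have h1 : ∀ j, b.repr (f v) j = ∑ i, c i j * g i v := by
      intro j
      have h2 := congrArg (evA v) (hc j)
      rw [evA_apply, evA_apply, sum_evA] at h2
      exact h2
    conv_lhs => rw [← b.sum_repr (f v)]
    simp only [h1, w, Finset.sum_smul, Finset.smul_sum]
    rw [Finset.sum_comm]
    refine Finset.sum_congr rfl fun i _ => Finset.sum_congr rfl fun j _ => ?_
    rw [smul_smul, mul_comm]
  obtain ⟨Δ, hΔ, hf⟩ := hf
  have hw : ∀ s ∈ Δ, ∀ i, τ s (w i) = χ s ^ m • w i := by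
    intro s hs i
    have h1 : ∀ v, ∑ i, g i v • (τ s (w i) - χ s ^ m • w i) = 0 := by
      intro v
      have h2 := hf s hs v
      rw [hfv, hfv, map_sum] at h2
      simp only [smul_sub, Finset.sum_sub_distrib]
      rw [sub_eq_zero]
      simp only [map_smul] at h2
      rw [← h2]
      refine Finset.sum_congr rfl fun i _ => ?_
      rw [lef_equiv ρ χ ω hω (hgL i), mul_smul, smul_comm]
    rw [← sub_eq_zero]
    apply b.repr.injective
    rw [map_zero]
    ext j
    rw [Finsupp.zero_apply]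
    have h3 : ∑ i, b.repr (τ s (w i) - χ s ^ m • w i) j • g i = 0 := by
      ext v
      have h4 := congrArg (fun x => b.repr x j) (h1 v)
      simp only [map_sum, Finsupp.finsetSum_apply, map_smul, Finsupp.smul_apply, map_zero,
        Finsupp.zero_apply] at h4
      rw [sum_evA]
      rw [AlternatingMap.zero_apply, ← h4]
      refine Finset.sum_congr rfl fun i _ => ?_
      rw [AlternatingMap.smul_apply, smul_eq_mul, smul_eq_mul, mul_comm]
    exact Fintype.linearIndependent_iff.1 hli _ h3 i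
  have hf' : f = ∑ i, (LinearMap.toSpanSingleton k W (w i)).compAlternatingMap (g i) := by
    ext v
    rw [hfv, sum_evA]
    rfl
  rw [hf']
  exact Submodule.sum_mem _ fun i _ => prodW_mem χ τ ω (hgL i) ⟨Δ, hΔ, fun s hs => hw s hs i⟩

end

end Pool.Agent.N171
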