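import Mathlib
import Pool.Agent.N171.LW2
import Pool.Agent.N171.InvW

/-!
# The abstract theorem for Tate classes with values in a representation
-/

set_option linter.unusedSectionVars false

namespace Pool.Agent.N171

open PadicInt TensorProduct Module Pool.Agent.H204R3.SP Pool.Agent.H204R3.GP

noncomputable section

/-- The endomorphisms that kill a form. -/
def killS {k V κ : Type*} [Field k] [AddCommGroup V] [Module k V] [Fintype κ] [DecidableEq κ]
    (ψ : MultilinearMap k (fun _ : κ => V) k) : Submodule k (Module.End k V) where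
  carrier := {X | Kills X ψ}
  zero_mem' := by
    intro v
    refine Finset.sum_eq_zero fun l _ => ?_
    exact ψ.map_coord_zero l (Function.update_self _ _ _)
  add_mem' := by
    intro X Y hX hY v
    simp only [LinearMap.add_apply, MultilinearMap.map_update_add, Finset.sum_add_distrib]
    rw [hX v, hY v, add_zero]
  smul_mem' := by
    intro c X hX v
    simp only [LinearMap.smul_apply, MultilinearMap.map_update_smul]
    rw [← Finset.smul_sum, hX v, smul_zero]

theorem mem_killS {k V κ : Type*} [Field k] [AddCommGroup V] [Module k V] [Fintype κ]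
    [DecidableEq κ] {ψ : MultilinearMap k (fun _ : κ => V) k} {X : Module.End k V} :
    X ∈ killS ψ ↔ Kills X ψ := Iff.rfl

variable {T : Type*} [AddCommGroup T] [Module ℤ_[2] T] [Module.Finite ℤ_[2] T]
  [Module.Free ℤ_[2] T] (B : T →ₗ[ℤ_[2]] T →ₗ[ℤ_[2]] ℤ_[2]) {κ : Type*} [Fintype κ]
  [DecidableEq κ]

theorem kills_rat {X : Module.End ℤ_[2] T}
    {ψ : MultilinearMap ℚ_[2] (fun _ : κ => ℚ_[2] ⊗[ℤ_[2]] T) ℚ_[2]}
    (h : ∀ x : κ → T, ∑ k, resT ψ (Function.update x k (X (x k))) = 0) :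
    (LinearMap.baseChange ℚ_[2] X : Module.End ℚ_[2] (ℚ_[2] ⊗[ℤ_[2]] T)) ∈ killS ψ := by
  classical
  let b := Module.Free.chooseBasis ℤ_[2] T
  refine kills_of_basis (b.baseChange ℚ_[2]) _ _ fun I => ?_
  rw [← h (fun k => b (I k))]
  refine Finset.sum_congr rfl fun k _ => ?_
  rw [resT_apply]
  congr 1
  funext l
  by_cases hl : l = k
  · subst hl
    rw [Function.update_self, Function.update_self, Module.Basis.baseChange_apply]
    rfl
  · rw [Function.update_of_ne hl, Function.update_of_ne hl, Module.Basis.baseChange_apply]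

theorem SS_rat {p : Module.End ℤ_[2] T}
    {ψ : MultilinearMap ℚ_[2] (fun _ : κ => ℚ_[2] ⊗[ℤ_[2]] T) ℚ_[2]}
    (h : ∀ u w, (LinearMap.baseChange ℚ_[2] (so B (p u) (p w)) :
      Module.End ℚ_[2] (ℚ_[2] ⊗[ℤ_[2]] T)) ∈ killS ψ) (u w : ℚ_[2] ⊗[ℤ_[2]] T) :
    SS (BV B) (LinearMap.baseChange ℚ_[2] p u) (LinearMap.baseChange ℚ_[2] p w) ∈ killS ψ := by
  have key : ∀ x y : T, SS (BV B) (LinearMap.baseChange ℚ_[2] p (1 ⊗ₜ x))
      (LinearMap.baseChange ℚ_[2] p (1 ⊗ₜ y)) ∈ killS ψ := by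
    intro x y
    have h1 := h x y
    convert! h1
    refine ext_tmul fun z => ?_
    rw [SS_apply, LinearMap.baseChange_tmul, LinearMap.baseChange_tmul,
      LinearMap.baseChange_tmul, BV_tmul, BV_tmul, so_apply, TensorProduct.tmul_add]
    rw [algebraMap_smul, algebraMap_smul, TensorProduct.tmul_smul, TensorProduct.tmul_smul]
  have ha : ∀ (a : ℚ_[2]) (x : T), (a ⊗ₜ x : ℚ_[2] ⊗[ℤ_[2]] T) = a • ((1 : ℚ_[2]) ⊗ₜ x) := by
    intro a x
    rw [TensorProduct.smul_tmul', smul_eq_mul, mul_one]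
  induction u with
  | zero =>
    have h1 : SS (BV B) (LinearMap.baseChange ℚ_[2] p 0) (LinearMap.baseChange ℚ_[2] p w) = 0 := by
      refine LinearMap.ext fun z => ?_
      rw [SS_apply, map_zero, map_zero, LinearMap.zero_apply, zero_smul, smul_zero, add_zero]
      rfl
    rw [h1]
    exact Submodule.zero_mem _
  | add u u' hu hu' =>
    have h1 : SS (BV B) (LinearMap.baseChange ℚ_[2] p (u + u'))
        (LinearMap.baseChange ℚ_[2] p w) = SS (BV B) (LinearMap.baseChange ℚ_[2] p u)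
        (LinearMap.baseChange ℚ_[2] p w) + SS (BV B) (LinearMap.baseChange ℚ_[2] p u')
        (LinearMap.baseChange ℚ_[2] p w) := by
      refine LinearMap.ext fun z => ?_
      simp only [SS_apply, LinearMap.add_apply, map_add]
      module
    rw [h1]
    exact Submodule.add_mem _ hu hu'
  | tmul a x =>
    have h1 : SS (BV B) (LinearMap.baseChange ℚ_[2] p (a ⊗ₜ x))
        (LinearMap.baseChange ℚ_[2] p w) = a • SS (BV B)
        (LinearMap.baseChange ℚ_[2] p (1 ⊗ₜ x)) (LinearMap.baseChange ℚ_[2] p w) := by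
      refine LinearMap.ext fun z => ?_
      rw [ha a x]
      simp only [SS_apply, LinearMap.smul_apply, map_smul]
      module
    rw [h1]
    apply Submodule.smul_mem
    clear h1
    induction w with
    | zero =>
      have h1 : SS (BV B) (LinearMap.baseChange ℚ_[2] p (1 ⊗ₜ x))
          (LinearMap.baseChange ℚ_[2] p 0) = 0 := by
        refine LinearMap.ext fun z => ?_
        rw [SS_apply, map_zero, map_zero, LinearMap.zero_apply, zero_smul, smul_zero, add_zero]
        rfl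
      rw [h1]
      exact Submodule.zero_mem _
    | add w w' hw hw' =>
      have h1 : SS (BV B) (LinearMap.baseChange ℚ_[2] p (1 ⊗ₜ x))
          (LinearMap.baseChange ℚ_[2] p (w + w')) =
          SS (BV B) (LinearMap.baseChange ℚ_[2] p (1 ⊗ₜ x))
          (LinearMap.baseChange ℚ_[2] p w) +
          SS (BV B) (LinearMap.baseChange ℚ_[2] p (1 ⊗ₜ x))
          (LinearMap.baseChange ℚ_[2] p w') := by
        refine LinearMap.ext fun z => ?_
        simp only [SS_apply, LinearMap.add_apply, map_add]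
        module
      rw [h1]
      exact Submodule.add_mem _ hw hw'
    | tmul a' y =>
      have h1 : SS (BV B) (LinearMap.baseChange ℚ_[2] p (1 ⊗ₜ x))
          (LinearMap.baseChange ℚ_[2] p (a' ⊗ₜ y)) = a' • SS (BV B)
          (LinearMap.baseChange ℚ_[2] p (1 ⊗ₜ x))
          (LinearMap.baseChange ℚ_[2] p (1 ⊗ₜ y)) := by
        refine LinearMap.ext fun z => ?_
        rw [ha a' y]
        simp only [SS_apply, LinearMap.smul_apply, map_smul]
        module
      rw [h1]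
      exact Submodule.smul_mem _ _ (key x y)

variable {Γ : Type*} [Group Γ] (ρ : Representation ℤ_[2] Γ T) (χ : Γ →* ℤ_[2]ˣ)
  {W : Type*} [AddCommGroup W] [Module ℚ_[2] W] (τ : Representation ℚ_[2] Γ W) {d : ℕ}
  (bW : Basis (Fin d) ℚ_[2] W) (t : Γ →* Matrix (Fin d) (Fin d) ℤ_[2])
  (hτ : ∀ s i, τ s (bW i) = ∑ j, algebraMap ℤ_[2] ℚ_[2] (t s j i) • bW j)

include hτ in
/-- The coordinates of a vector valued Tate class. -/
theorem isTW_of {n : ℕ} {f : (Fin n → ℚ_[2] ⊗[ℤ_[2]] T) [⋀^κ]→ₗ[ℚ_[2]] W}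
    (hf : IsTateV (ratRep ρ) τ f) (c : κ → Fin n) :
    IsTW ρ κ t (fun j => resT (cmp ((bW.coord j).compAlternatingMap f).toMultilinearMap c)) := by
  obtain ⟨Δ, hΔ, hf⟩ := hf
  refine ⟨Δ, hΔ, fun s hs j x => ?_⟩
  have h1 : ∀ (y : κ → T) (i : Fin d),
      resT (cmp ((bW.coord i).compAlternatingMap f).toMultilinearMap c) y =
      bW.repr (f (fun l => Pi.single (c l) (1 ⊗ₜ y l))) i := fun _ _ => rfl
  simp only [h1]
  have h2 := hf s hs (fun l => Pi.single (c l) (1 ⊗ₜ x l))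
  have h3 : (fun l i => ratRep ρ s ((Pi.single (c l) (1 ⊗ₜ x l) :
      Fin n → ℚ_[2] ⊗[ℤ_[2]] T) i)) = fun l => Pi.single (c l) (1 ⊗ₜ ρ s (x l)) := by
    funext l i
    by_cases hi : i = c l
    · subst hi
      rw [Pi.single_eq_same, Pi.single_eq_same]
      rfl
    · rw [Pi.single_eq_of_ne hi, Pi.single_eq_of_ne hi, map_zero]
  rw [h3] at h2
  rw [h2]
  set y := f (fun l => Pi.single (c l) (1 ⊗ₜ x l)) with hy
  have h4 : τ s y = ∑ i, bW.repr y i • τ s (bW i) := by
    conv_lhs => rw [← bW.sum_repr y, map_sum]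
    exact Finset.sum_congr rfl fun i _ => map_smul _ _ _
  rw [h4]
  simp only [hτ, map_sum, Finsupp.finsetSum_apply, map_smul, Finsupp.smul_apply, smul_eq_mul,
    Basis.repr_self, Finsupp.single_apply, mul_ite, mul_one, mul_zero, Finset.sum_ite_eq',
    Finset.mem_univ, if_true]
  refine Finset.sum_congr rfl fun i _ => ?_
  rw [Algebra.smul_def, mul_comm]

variable (halt : ∀ x, B x x = 0) (hnd : ∀ v, (∀ w, ¬ IsUnit (B v w)) → ∃ u, (2 : ℤ_[2]) • u = v)
  {Q : Type*} [DecidableEq Q] [Fintype Q] (π : Q → Module.End ℤ_[2] T)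
  (hπ1 : ∀ x, ∑ q, π q x = x) (hππ : ∀ q x, π q (π q x) = π q x)
  (hππ' : ∀ q r x, q ≠ r → π q (π r x) = 0)
  (hBπ : ∀ q x y, B (π q x) y = B x (π q y))
  {μ : Type*} (v : μ → T) (q : μ → Q) (σ : μ → Γ)
  (hσ8 : ∀ k, ∃ z, (χ (σ k) : ℤ_[2]) = 1 + 8 * z)
  (hσ : ∀ k x, ∃ y, ρ (σ k) x = x + (2 : ℤ_[2]) • (B (v k) x • v k) + (4 : ℤ_[2]) • y)
  (hconn : ∀ k l, q k = q l → Relation.ReflTransGen (Adj B v q) k l)
  (hspan : ∀ c x, π c x ∈ Wq v q c)
  (hB : ∀ s x y, B (ρ s x) (ρ s y) = (χ s : ℤ_[2]) * B x y)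
  (hπρ : ∀ q s x, π q (ρ s x) = ρ s (π q x))
  (ht : ∀ k, ∃ Z, t (σ k) = 1 + (4 : ℤ_[2]) • Z)

include hτ halt hnd hB hπ1 hππ hππ' hBπ hπρ hσ8 hσ hconn hspan ht in
theorem coord_kill {n : ℕ} {f : (Fin n → ℚ_[2] ⊗[ℤ_[2]] T) [⋀^κ]→ₗ[ℚ_[2]] W}
    (hf : IsTateV (ratRep ρ) τ f) (c : κ → Fin n) (j : Fin d) (cc : Q)
    (u w : ℚ_[2] ⊗[ℤ_[2]] T) :
    Kills (SS (BV B) (LinearMap.baseChange ℚ_[2] (π cc) u) (LinearMap.baseChange ℚ_[2] (π cc) w))
      (cmp ((bW.coord j).compAlternatingMap f).toMultilinearMap c) := by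
  refine SS_rat B (fun u w => kills_rat fun x => ?_) u w
  exact kill_all (ρ := ρ) (κ := κ) (t := t) χ B halt hnd π hπ1 hππ hππ' hBπ v q σ hσ8 hσ hconn
    hspan hB hπρ ht (so_spQ B halt π hππ hππ' hBπ cc u w) (isTW_of ρ τ bW t hτ hf c) j x

theorem bc_mul (f g : Module.End ℤ_[2] T) (u : ℚ_[2] ⊗[ℤ_[2]] T) :
    LinearMap.baseChange ℚ_[2] f (LinearMap.baseChange ℚ_[2] g u) =
      LinearMap.baseChange ℚ_[2] (f * g) u := by
  have h1 : (LinearMap.baseChange ℚ_[2] f).comp (LinearMap.baseChange ℚ_[2] g) =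
      LinearMap.baseChange ℚ_[2] (f * g) := by
    refine ext_tmul fun x => ?_
    rfl
  exact congrArg (fun f => f u) h1

include halt hnd hπ1 hππ hππ' hBπ in
/-- `kil_main` for the extended forms. -/
theorem kil_rat :
    (∀ (m : ℕ) (φ : MultilinearMap ℚ_[2] (fun _ : Fin m × Fin 2 => ℚ_[2] ⊗[ℤ_[2]] T) ℚ_[2]),
      (∀ q u w, Kills (SS (BV B) (LinearMap.baseChange ℚ_[2] (π q) u)
        (LinearMap.baseChange ℚ_[2] (π q) w)) φ) →
      φ ∈ Submodule.span ℚ_[2] (PW (BV B) (fun q => LinearMap.baseChange ℚ_[2] (π q)) m)) ∧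
    (∀ (a : ℕ) (φ : MultilinearMap ℚ_[2] (fun _ : Fin a => ℚ_[2] ⊗[ℤ_[2]] T) ℚ_[2]), Odd a →
      (∀ q u w, Kills (SS (BV B) (LinearMap.baseChange ℚ_[2] (π q) u)
        (LinearMap.baseChange ℚ_[2] (π q) w)) φ) → φ = 0) := by
  have hfin : FiniteDimensional ℚ_[2] (ℚ_[2] ⊗[ℤ_[2]] T) := inferInstance
  refine kil_main (BV B) (BV_alt B halt) (BV_nd B hnd)
    (fun c => LinearMap.baseChange ℚ_[2] (π c)) ?_ ?_ ?_ ?_
  · intro u
    have h1 : ∑ c, LinearMap.baseChange ℚ_[2] (π c) = LinearMap.id := by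
      refine ext_tmul fun x => ?_
      rw [LinearMap.sum_apply, LinearMap.id_apply]
      simp only [LinearMap.baseChange_tmul]
      rw [← TensorProduct.tmul_sum, hπ1]
    have h2 := congrArg (fun f => f u) h1
    simpa only [LinearMap.sum_apply, LinearMap.id_apply] using h2
  · intro c u
    rw [bc_mul]
    congr 2
    ext x
    exact hππ c x
  · intro c d u hcd
    rw [bc_mul]
    have h1 : π c * π d = 0 := by
      ext x
      exact hππ' c d x hcd
    rw [h1, LinearMap.baseChange_zero, LinearMap.zero_apply]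
  · intro c u w
    have h1 : (BV B).comp (LinearMap.baseChange ℚ_[2] (π c)) =
        (BV B).compl₂ (LinearMap.baseChange ℚ_[2] (π c)) := by
      refine ext_tmul fun x => ext_tmul fun y => ?_
      rw [LinearMap.comp_apply, LinearMap.compl₂_apply, LinearMap.baseChange_tmul,
        LinearMap.baseChange_tmul, BV_tmul, BV_tmul, hBπ]
    exact congrArg (fun f => f u w) h1

include hτ halt hnd hB hπ1 hππ hππ' hBπ hπρ hσ8 hσ hconn hspan ht in
/-- **The abstract theorem, even degree.** -/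
theorem absW_even {n m : ℕ} (f : (Fin n → ℚ_[2] ⊗[ℤ_[2]] T) [⋀^Fin m × Fin 2]→ₗ[ℚ_[2]] W)
    (hf : IsTateV (ratRep ρ) τ f) :
    f ∈ Submodule.span ℚ_[2] {h | IsProdW (ratChar χ) τ
      (fun c => (BV B).comp (LinearMap.baseChange ℚ_[2] (π c))) h} := by
  have hfin : FiniteDimensional ℚ_[2] (ℚ_[2] ⊗[ℤ_[2]] T) := inferInstance
  refine assemble (ratRep ρ) (ratChar χ) τ _ ?_ bW f hf fun j => ?_
  · intro c s u w
    rw [LinearMap.comp_apply, LinearMap.comp_apply]
    have h1 : LinearMap.baseChange ℚ_[2] (π c) (ratRep ρ s u) =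
        ratRep ρ s (LinearMap.baseChange ℚ_[2] (π c) u) := by
      have h2 : (LinearMap.baseChange ℚ_[2] (π c)).comp (ratRep ρ s) =
          (ratRep ρ s).comp (LinearMap.baseChange ℚ_[2] (π c)) := by
        refine ext_tmul fun x => ?_
        rw [LinearMap.comp_apply, LinearMap.comp_apply, ratRep_tmul, LinearMap.baseChange_tmul,
          LinearMap.baseChange_tmul, ratRep_tmul, hπρ]
      exact congrArg (fun f => f u) h2
    rw [h1]
    exact BV_inv ρ χ B hB s _ _
  · refine altK_mem (BV B) (fun v w => BV_anti B halt w v)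
      (fun c => LinearMap.baseChange ℚ_[2] (π c)) ?_ _ fun c => ?_
    · intro c u w
      have h1 : (BV B).comp (LinearMap.baseChange ℚ_[2] (π c)) =
          (BV B).compl₂ (LinearMap.baseChange ℚ_[2] (π c)) := by
        refine ext_tmul fun x => ext_tmul fun y => ?_
        rw [LinearMap.comp_apply, LinearMap.compl₂_apply, LinearMap.baseChange_tmul,
          LinearMap.baseChange_tmul, BV_tmul, BV_tmul, hBπ]
      exact congrArg (fun f => f u w) h1
    · exact (kil_rat B halt hnd π hπ1 hππ hππ' hBπ).1 m _ fun cc u w =>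
        coord_kill B ρ χ τ bW t hτ halt hnd π hπ1 hππ hππ' hBπ v q σ hσ8 hσ hconn hspan hB hπρ ht
          hf c j cc u w

include hτ halt hnd hB hπ1 hππ hππ' hBπ hπρ hσ8 hσ hconn hspan ht in
/-- **The abstract theorem, odd degree.** -/
theorem absW_odd {n a : ℕ} (ha : Odd a)
    (f : (Fin n → ℚ_[2] ⊗[ℤ_[2]] T) [⋀^Fin a]→ₗ[ℚ_[2]] W)
    (hf : IsTateV (ratRep ρ) τ f) : f = 0 := by
  have h1 : ∀ j c, cmp ((bW.coord j).compAlternatingMap f).toMultilinearMap c = 0 :=
    fun j c => (kil_rat B halt hnd π hπ1 hππ hππ' hBπ).2 a _ ha fun cc u w =>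
      coord_kill B ρ χ τ bW t hτ halt hnd π hπ1 hππ hππ' hBπ v q σ hσ8 hσ hconn hspan hB hπρ ht
        hf c j cc u w
  ext x
  apply bW.repr.injective
  ext j
  have h2 := cmp_sum ((bW.coord j).compAlternatingMap f).toMultilinearMap x
  rw [AlternatingMap.zero_apply, map_zero, Finsupp.zero_apply]
  refine h2.trans (Finset.sum_eq_zero fun c _ => ?_)
  rw [h1]
  rfl

end

end Pool.Agent.N171
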