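import Mathlib

/-!
# Submodules of the graph module which are stable under the even permutations
-/

set_option linter.unusedSectionVars false

namespace Pool.Agent.N171.Al

open Equiv

section comb

variable {τ : Type*} [Fintype τ] [DecidableEq τ]

theorem exists_notMem (s : Finset τ) (h : s.card < Fintype.card τ) : ∃ x, x ∉ s := by
  by_contra h1
  push Not at h1
  have h2 : s = Finset.univ := Finset.eq_univ_iff_forall.2 h1
  rw [h2, Finset.card_univ] at h
  exact lt_irrefl _ h

theorem zmod_two_ne {a b : ZMod 2} (h : a ≠ b) : a = b + 1 := by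
  revert a b
  decide

theorem zmod_two_add_self (a : ZMod 2) : a + a = 0 := by
  revert a
  decide

theorem zmod_two_cases (a : ZMod 2) : a = 0 ∨ a = 1 := by
  revert a
  decide

/-- A matrix with row sums zero is determined by the entries outside the diagonal. -/
theorem ext_off {S S' : τ → τ → ZMod 2} (hr : ∀ i, ∑ j, S i j = 0) (hr' : ∀ i, ∑ j, S' i j = 0)
    (h : ∀ i j, i ≠ j → S i j = S' i j) : S = S' := by
  funext i j
  by_cases hij : i = j
  · subst hij
    have h1 := hr i
    have h2 := hr' i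
    rw [← Finset.add_sum_erase _ _ (Finset.mem_univ i)] at h1 h2
    have h3 : ∑ j ∈ Finset.univ.erase i, S i j = ∑ j ∈ Finset.univ.erase i, S' i j :=
      Finset.sum_congr rfl fun j hj => h i j (Finset.ne_of_mem_erase hj).symm
    rw [h3] at h1
    exact add_right_cancel (h1.trans h2.symm)
  · exact h i j hij

/-- The indicator function of a point. -/
def dl (p : τ) : τ → ZMod 2 := fun i => if i = p then 1 else 0

theorem dl_self (p : τ) : dl p p = 1 := if_pos rfl

theorem dl_ne {p i : τ} (h : i ≠ p) : dl p i = 0 := if_neg h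

theorem sum_dl (p : τ) : ∑ i, dl p i = 1 := by
  simp [dl]

/-- The graph with the edges between `a`, `b` and the points of `u`. -/
def W (a b : τ) : (τ → ZMod 2) →ₗ[ZMod 2] (τ → τ → ZMod 2) where
  toFun u i j := (dl a i + dl b i) * u j + u i * (dl a j + dl b j) +
    if i = j then (dl a i + dl b i) * ∑ l, u l else 0
  map_add' u v := by
    funext i j
    simp only [Pi.add_apply, Finset.sum_add_distrib]
    split_ifs <;> ring
  map_smul' c u := by
    funext i j
    simp only [Pi.smul_apply, smul_eq_mul, RingHom.id_apply, ← Finset.mul_sum]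
    split_ifs <;> ring

theorem W_apply (a b : τ) (u : τ → ZMod 2) (i j : τ) :
    W a b u i j = (dl a i + dl b i) * u j + u i * (dl a j + dl b j) +
      if i = j then (dl a i + dl b i) * ∑ l, u l else 0 := rfl

theorem W_row (a b : τ) (u : τ → ZMod 2) (i : τ) : ∑ j, W a b u i j = 0 := by
  simp only [W_apply, Finset.sum_add_distrib, ← Finset.mul_sum, sum_dl]
  rw [Finset.sum_ite_eq]
  simp only [Finset.mem_univ, if_true]
  have h1 : (1 : ZMod 2) + 1 = 0 := rfl
  rw [h1, mul_zero, add_zero]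
  exact zmod_two_add_self _

theorem W_off {a b : τ} {u : τ → ZMod 2} {i j : τ} (h : i ≠ j) :
    W a b u i j = (dl a i + dl b i) * u j + u i * (dl a j + dl b j) := by
  rw [W_apply, if_neg h, add_zero]

/-- The function on the complement of two points. -/
def fl (a b : τ) : τ → ZMod 2 := fun i => if i = a ∨ i = b then 0 else 1

/-- A submodule of the graph module, stable under the even permutations. -/
structure Stab (G : Submodule (ZMod 2) (τ → τ → ZMod 2)) : Prop where
  sym : ∀ S ∈ G, ∀ i j, S i j = S j i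
  row : ∀ S ∈ G, ∀ i, ∑ j, S i j = 0
  stab : ∀ S ∈ G, ∀ π : Perm τ, Perm.sign π = 1 → (fun i j => S (π i) (π j)) ∈ G

/-- The three cycle `x → y → z → x`. -/
def cyc3 (x y z : τ) : Perm τ := swap x y * swap y z

theorem sign_cyc3 {x y z : τ} (hxy : x ≠ y) (hyz : y ≠ z) : Perm.sign (cyc3 x y z) = 1 := by
  rw [cyc3, map_mul, Perm.sign_swap hxy, Perm.sign_swap hyz]
  rfl

theorem cyc3_x {x y z : τ} (hxy : x ≠ y) (hxz : x ≠ z) : cyc3 x y z x = y := by
  rw [cyc3, Perm.mul_apply, swap_apply_of_ne_of_ne hxy hxz, swap_apply_left]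

theorem cyc3_y {x y z : τ} (hyz : y ≠ z) (hxz : x ≠ z) : cyc3 x y z y = z := by
  rw [cyc3, Perm.mul_apply, swap_apply_left, swap_apply_of_ne_of_ne hxz.symm hyz.symm]

theorem cyc3_z {x y z : τ} : cyc3 x y z z = x := by
  rw [cyc3, Perm.mul_apply, swap_apply_right, swap_apply_right]

theorem cyc3_ne {x y z i : τ} (hx : i ≠ x) (hy : i ≠ y) (hz : i ≠ z) : cyc3 x y z i = i := by
  rw [cyc3, Perm.mul_apply, swap_apply_of_ne_of_ne hy hz, swap_apply_of_ne_of_ne hx hy]

variable {G : Submodule (ZMod 2) (τ → τ → ZMod 2)} (hG : Stab G)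

/-- The sum of the three rotations. -/
def MM (S : τ → τ → ZMod 2) (x y z : τ) : τ → τ → ZMod 2 := fun i j =>
  S i j + S (cyc3 x y z i) (cyc3 x y z j) +
    S (cyc3 x y z (cyc3 x y z i)) (cyc3 x y z (cyc3 x y z j))

include hG in
theorem MM_mem {S : τ → τ → ZMod 2} (hS : S ∈ G) {x y z : τ} (hxy : x ≠ y) (hyz : y ≠ z) :
    MM S x y z ∈ G := by
  refine G.add_mem (G.add_mem hS (hG.stab S hS _ (sign_cyc3 hxy hyz))) ?_
  exact hG.stab S hS (cyc3 x y z * cyc3 x y z) (by
    rw [map_mul, sign_cyc3 hxy hyz, one_mul])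

theorem MM_swap {S : τ → τ → ZMod 2} (hs : ∀ i j, S i j = S j i) {x y z : τ} (hxy : x ≠ y)
    (hyz : y ≠ z) (hxz : x ≠ z) (i j : τ) :
    MM S x y z (swap x y i) (swap x y j) = MM S x y z i j := by
  have hT : ∀ i, i = x ∨ i = y ∨ i = z ∨ (i ≠ x ∧ i ≠ y ∧ i ≠ z) := by
    intro i
    by_cases h1 : i = x
    · exact Or.inl h1
    by_cases h2 : i = y
    · exact Or.inr (Or.inl h2)
    by_cases h3 : i = z
    · exact Or.inr (Or.inr (Or.inl h3))
    exact Or.inr (Or.inr (Or.inr ⟨h1, h2, h3⟩))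
  have ex := cyc3_x hxy hxz
  have ey := cyc3_y (x := x) hyz hxz
  have ez := cyc3_z (x := x) (y := y) (z := z)
  have sz : swap x y z = z := swap_apply_of_ne_of_ne hxz.symm hyz.symm
  rcases hT i with rfl | rfl | rfl | ⟨h1, h2, h3⟩ <;>
    rcases hT j with rfl | rfl | rfl | ⟨h4, h5, h6⟩ <;>
    simp_all only [MM, swap_apply_left, swap_apply_right, ne_eq, not_false_eq_true, cyc3_ne,
      swap_apply_of_ne_of_ne]
  all_goals ring

theorem three_mul' (c : ZMod 2) : c + c + c = c := by
  revert c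
  decide

theorem MM_out {S : τ → τ → ZMod 2} {x y z i j : τ} (h1 : i ≠ x) (h2 : i ≠ y) (h3 : i ≠ z)
    (h4 : j ≠ x) (h5 : j ≠ y) (h6 : j ≠ z) : MM S x y z i j = S i j := by
  rw [MM, cyc3_ne h1 h2 h3, cyc3_ne h1 h2 h3, cyc3_ne h4 h5 h6, cyc3_ne h4 h5 h6, three_mul']

include hG in
/-- A vertex pair and a function such that the graph belongs to the module. -/
theorem W_of {S : τ → τ → ZMod 2} (hS : S ∈ G) {a b x y z : τ} (hab : a ≠ b) (hxy : x ≠ y)
    (hyz : y ≠ z) (hxz : x ≠ z) (hax : a ≠ x) (hay : a ≠ y) (haz : a ≠ z) (hbx : b ≠ x)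
    (hby : b ≠ y) (hbz : b ≠ z) :
    ∃ u : τ → ZMod 2, u a = 0 ∧ u b = 0 ∧
      (∀ w, w ≠ a → w ≠ b → w ≠ x → w ≠ y → w ≠ z → u w = S a w + S b w) ∧
      ∑ w, u w = S a a + S b b ∧ W a b u ∈ G := by
  have hM := MM_mem hG hS hxy hyz
  set M := MM S x y z with hMdef
  have hsw := MM_swap (hG.sym S hS) hxy hyz hxz
  rw [← hMdef] at hsw
  have hp : Perm.sign (swap x y * swap a b) = 1 := by
    rw [map_mul, Perm.sign_swap hxy, Perm.sign_swap hab]
    rfl
  have hM2 := hG.stab M hM _ hp
  have hM3 : (fun i j => M ((swap x y * swap a b) i) ((swap x y * swap a b) j)) =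
      fun i j => M (swap a b i) (swap a b j) := by
    funext i j
    rw [Perm.mul_apply, Perm.mul_apply, hsw]
  rw [hM3] at hM2
  refine ⟨fun w => if w = a ∨ w = b then 0 else M a w + M b w, by simp, by simp, ?_, ?_, ?_⟩
  · intro w h1 h2 h3 h4 h5
    have h6 : ¬ (w = a ∨ w = b) := by tauto
    simp only [if_neg h6, hMdef, MM_out hax hay haz h3 h4 h5, MM_out hbx hby hbz h3 h4 h5]
  · have h1 := hG.row M hM a
    have h2 := hG.row M hM b
    rw [← Finset.add_sum_erase _ _ (Finset.mem_univ a),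
      ← Finset.add_sum_erase _ _ (Finset.mem_erase.2 ⟨hab.symm, Finset.mem_univ b⟩)] at h1 h2
    rw [← Finset.add_sum_erase _ _ (Finset.mem_univ a),
      ← Finset.add_sum_erase _ _ (Finset.mem_erase.2 ⟨hab.symm, Finset.mem_univ b⟩)]
    have h3 : ∑ w ∈ (Finset.univ.erase a).erase b, (if w = a ∨ w = b then 0 else M a w + M b w) =
        ∑ w ∈ (Finset.univ.erase a).erase b, M a w + ∑ w ∈ (Finset.univ.erase a).erase b, M b w := by
      rw [← Finset.sum_add_distrib]
      refine Finset.sum_congr rfl fun w hw => ?_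
      rw [Finset.mem_erase, Finset.mem_erase] at hw
      rw [if_neg (by tauto)]
    rw [h3]
    simp only [true_or, or_true, if_true, zero_add]
    have h4 := hG.sym M hM a b
    have h5 : M a a = S a a := MM_out hax hay haz hax hay haz
    have h6 : M b b = S b b := MM_out hbx hby hbz hbx hby hbz
    have h7 := zmod_two_add_self (M a b)
    have h8 := zmod_two_add_self (M a a)
    have h9 := zmod_two_add_self (M b b)
    rw [← h5, ← h6]
    linear_combination h1 + h2 - h7 + h4 - h8 - h9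
  · have h1 : W a b (fun w => if w = a ∨ w = b then 0 else M a w + M b w) =
        M + fun i j => M (swap a b i) (swap a b j) := by
      refine ext_off (W_row a b _) (fun i => ?_) fun i j hij => ?_
      · exact hG.row _ (G.add_mem hM hM2) i
      · rw [W_off hij]
        simp only [Pi.add_apply]
        have hs := hG.sym M hM
        by_cases h1 : i = a
        · subst h1
          by_cases h2 : j = b
          · subst h2
            simp [hs j i, zmod_two_add_self]
          · simp [dl, h2, hab, hij.symm, swap_apply_of_ne_of_ne]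
        · by_cases h2 : i = b
          · subst h2
            by_cases h3 : j = a
            · subst h3
              simp [hs j i, zmod_two_add_self]
            · simp [dl, h3, hab.symm, hij.symm, swap_apply_of_ne_of_ne, add_comm]
          · by_cases h3 : j = a
            · subst h3
              simp [dl, h1, h2, hab, swap_apply_of_ne_of_ne, hs i]
            · by_cases h4 : j = b
              · subst h4
                simp [dl, h1, h2, hab.symm, swap_apply_of_ne_of_ne, hs i, add_comm]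
              · simp [dl, h1, h2, h3, h4, swap_apply_of_ne_of_ne, zmod_two_add_self]
    rw [h1]
    exact G.add_mem hM hM2

theorem dl_perm (π : Perm τ) (a i : τ) : dl (π a) (π i) = dl a i := by
  simp [dl]

theorem W_perm (a b : τ) (u : τ → ZMod 2) (π : Perm τ) :
    (fun i j => W a b u (π⁻¹ i) (π⁻¹ j)) = W (π a) (π b) (fun i => u (π⁻¹ i)) := by
  funext i j
  have h1 : ∀ a i, dl (π a) i = dl a (π⁻¹ i) := by
    intro a i
    simp [dl, Equiv.symm_apply_eq]
  have h2 : ∑ l, u (π⁻¹ l) = ∑ l, u l := Equiv.sum_comp π⁻¹ u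
  rw [W_apply, W_apply, h1, h1, h1, h1, h2]
  simp

include hG in
theorem W_move {a b : τ} {u : τ → ZMod 2} (h : W a b u ∈ G) {π : Perm τ}
    (hπ : Perm.sign π = 1) : W (π a) (π b) (fun i => u (π⁻¹ i)) ∈ G := by
  rw [← W_perm]
  exact hG.stab _ h _ (by rw [map_inv, hπ, inv_one])

theorem dl_pi (π : Perm τ) (p : τ) : (fun i => dl p (π⁻¹ i)) = dl (π p) := by
  funext i
  simp [dl, Equiv.symm_apply_eq]

include hG in
theorem pair_move {a b p q : τ} (h : W a b (dl p + dl q) ∈ G) {π : Perm τ}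
    (hπ : Perm.sign π = 1) : W (π a) (π b) (dl (π p) + dl (π q)) ∈ G := by
  have h1 := W_move hG h hπ
  have h2 : (fun i => (dl p + dl q) (π⁻¹ i)) = dl (π p) + dl (π q) := by
    rw [← dl_pi, ← dl_pi]
    rfl
  rwa [h2] at h1

include hG in
theorem cut_move {a b : τ} (h : W a b (fl a b) ∈ G) {π : Perm τ}
    (hπ : Perm.sign π = 1) : W (π a) (π b) (fl (π a) (π b)) ∈ G := by
  have h1 := W_move hG h hπ
  have h2 : (fun i => fl a b (π⁻¹ i)) = fl (π a) (π b) := by
    funext i
    simp only [fl, Perm.inv_eq_iff_eq]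
  rwa [h2] at h1

theorem pair_symm (a b p q : τ) : W a b (dl p + dl q) = W p q (dl a + dl b) := by
  refine ext_off (W_row _ _ _) (W_row _ _ _) fun i j hij => ?_
  rw [W_off hij, W_off hij]
  simp only [Pi.add_apply]
  ring

theorem W_symm (a b : τ) (u : τ → ZMod 2) : W a b u = W b a u := by
  funext i j
  rw [W_apply, W_apply, add_comm (dl a i), add_comm (dl a j)]

include hG in
/-- A function that is not constant outside the two points. -/
theorem pair_of {a b p q r : τ} {u : τ → ZMod 2} (hu : W a b u ∈ G) (hpq : p ≠ q) (hpr : p ≠ r)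
    (hqr : q ≠ r) (hap : a ≠ p) (haq : a ≠ q) (har : a ≠ r) (hbp : b ≠ p) (hbq : b ≠ q)
    (hbr : b ≠ r) (hne : u p ≠ u q) (h : u r = u q) : W a b (dl p + dl r) ∈ G := by
  have h1 : Perm.sign (cyc3 p q r)⁻¹ = 1 := by rw [map_inv, sign_cyc3 hpq hqr, inv_one]
  have h2 := W_move hG hu h1
  have h3 : (cyc3 p q r)⁻¹ a = a := Perm.inv_eq_iff_eq.2 (cyc3_ne hap haq har).symm
  have h4 : (cyc3 p q r)⁻¹ b = b := Perm.inv_eq_iff_eq.2 (cyc3_ne hbp hbq hbr).symm
  rw [h3, h4, inv_inv] at h2
  have h5 : dl p + dl r = u + fun i => u (cyc3 p q r i) := by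
    funext i
    simp only [Pi.add_apply]
    by_cases h6 : i = p
    · subst h6
      rw [cyc3_x hpq hpr, dl_self, dl_ne hpr, zmod_two_ne hne, add_right_comm, zmod_two_add_self,
        zero_add, add_zero]
    by_cases h7 : i = q
    · subst h7
      rw [cyc3_y hqr hpr, dl_ne h6, dl_ne hqr, h, add_zero]
      exact (zmod_two_add_self _).symm
    by_cases h8 : i = r
    · subst h8
      rw [cyc3_z, dl_ne h6, dl_self, h, zmod_two_ne hne, ← add_assoc, zmod_two_add_self]
    rw [cyc3_ne h6 h7 h8, zmod_two_add_self, dl_ne h6, dl_ne h8, add_zero]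
  rw [h5, map_add]
  exact G.add_mem hu h2

include hG in
theorem pair_add {a b p q r : τ} (h1 : W a b (dl p + dl q) ∈ G) (h2 : W a b (dl p + dl r) ∈ G) :
    W a b (dl q + dl r) ∈ G := by
  have h3 : dl q + dl r = (dl p + dl q) + (dl p + dl r) := by
    funext i
    simp only [Pi.add_apply]
    linear_combination - zmod_two_add_self (dl p i)
  rw [h3, map_add]
  exact G.add_mem h1 h2

include hG in
/-- One pair suffices. -/
theorem pair_all {a b p q : τ} (hpq : p ≠ q) (hap : a ≠ p) (haq : a ≠ q)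
    (hbp : b ≠ p) (hbq : b ≠ q) (h : W a b (dl p + dl q) ∈ G) {p' q' : τ}
    (hap' : a ≠ p') (haq' : a ≠ q') (hbp' : b ≠ p') (hbq' : b ≠ q') :
    W a b (dl p' + dl q') ∈ G := by
  have key : ∀ r, a ≠ r → b ≠ r → W a b (dl p + dl r) ∈ G := by
    intro r har hbr
    by_cases h1 : p = r
    · subst h1
      have : dl p + dl p = 0 := by
        funext i
        exact zmod_two_add_self _
      rw [this, map_zero]
      exact G.zero_mem
    by_cases h2 : q = r
    · rwa [← h2]
    have h3 := pair_move hG h (sign_cyc3 hpq h2)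
    rw [cyc3_ne hap haq har, cyc3_ne hbp hbq hbr, cyc3_x hpq h1, cyc3_y h2 h1] at h3
    have h4 := h
    rw [add_comm] at h4
    exact pair_add hG h4 h3
  exact pair_add hG (key p' hap' hbp') (key q' haq' hbq')

theorem pair_conn (P : τ → τ → Prop) (hs : ∀ a b, P a b → P b a)
    (hm : ∀ a b c, a ≠ b → a ≠ c → b ≠ c → P a b → P a c) {a b : τ} (hab : a ≠ b) (h : P a b)
    {c d : τ} (hcd : c ≠ d) : P c d := by
  have h1 : ∀ c, c ≠ a → P a c := by
    intro c hc
    by_cases h2 : b = c
    · rwa [← h2]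
    · exact hm a b c hab hc.symm h2 h
  by_cases h2 : c = a
  · subst h2
    exact h1 d hcd.symm
  · have h3 := hs _ _ (h1 c h2)
    by_cases h4 : a = d
    · rwa [← h4]
    · exact hm c a d h2 hcd h4 h3

variable (hn : Odd (Fintype.card τ)) (h5 : 5 ≤ Fintype.card τ)

include h5 in
theorem exists_two (a b c : τ) : ∃ e f, e ≠ f ∧ e ≠ a ∧ e ≠ b ∧ e ≠ c ∧ f ≠ a ∧ f ≠ b ∧ f ≠ c := by
  obtain ⟨e, he⟩ := exists_notMem ({a, b, c} : Finset τ) (lt_of_le_of_lt Finset.card_le_three
    (by omega))
  obtain ⟨f, hf⟩ := exists_notMem ({e, a, b, c} : Finset τ) (lt_of_le_of_lt Finset.card_le_four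
    (by omega))
  simp only [Finset.mem_insert, Finset.mem_singleton, not_or] at he hf
  exact ⟨e, f, fun h => hf.1 h.symm, he.1, he.2.1, he.2.2, hf.2.1, hf.2.2.1, hf.2.2.2⟩

include hG h5 in
theorem pair_spread {a b p q : τ} (hab : a ≠ b) (hpq : p ≠ q) (hap : a ≠ p) (haq : a ≠ q)
    (hbp : b ≠ p) (hbq : b ≠ q) (h : W a b (dl p + dl q) ∈ G) :
    ∀ a b p q, a ≠ b → p ≠ q → a ≠ p → a ≠ q → b ≠ p → b ≠ q → W a b (dl p + dl q) ∈ G := by
  intro c d r s hcd hrs hcr hcs hdr hds
  refine pair_conn (fun a b => ∀ p q, a ≠ p → a ≠ q → b ≠ p → b ≠ q →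
    W a b (dl p + dl q) ∈ G) (fun a b h p q h1 h2 h3 h4 => ?_)
    (fun a b c hab hac hbc h p q h1 h2 h3 h4 => ?_) hab
    (fun p' q' h1 h2 h3 h4 => pair_all hG hpq hap haq hbp hbq h h1 h2 h3 h4) hcd r s hcr hcs hdr hds
  · rw [W_symm]
    exact h p q h3 h4 h1 h2
  · obtain ⟨e, f, hef, hea, heb, hec, hfa, hfb, hfc⟩ := exists_two h5 a b c
    have h5 := h e f hea.symm hfa.symm heb.symm hfb.symm
    rw [pair_symm] at h5
    have h6 := pair_all hG hab hea heb hfa hfb h5 (p' := a) (q' := c) hea hec hfa hfc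
    rw [pair_symm] at h6
    exact pair_all hG hef hea.symm hfa.symm hec.symm hfc.symm h6 h1 h2 h3 h4

include hG h5 in
theorem cut_spread {a b : τ} (hab : a ≠ b) (h : W a b (fl a b) ∈ G) :
    ∀ a b, a ≠ b → W a b (fl a b) ∈ G := by
  intro c d hcd
  refine pair_conn (fun a b => W a b (fl a b) ∈ G) (fun a b h => ?_)
    (fun a b c hab hac hbc h => ?_) hab h hcd
  · have h1 : fl b a = fl a b := by
      funext i
      simp only [fl, or_comm]
    rwa [W_symm, h1]
  · obtain ⟨e, f, -, hea, heb, hec, -⟩ := exists_two h5 a b c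
    have h6 := cut_move hG h (sign_cyc3 hbc hec.symm)
    rwa [cyc3_ne hab hac hea.symm, cyc3_x hbc heb.symm] at h6

include hn in
theorem sum_fl {a b : τ} (hab : a ≠ b) : ∑ i, fl a b i = 1 := by
  have h1 : ∀ i, fl a b i = 1 + dl a i + dl b i := by
    intro i
    by_cases h2 : i = a
    · subst h2
      rw [dl_self, dl_ne hab, fl, if_pos (Or.inl rfl)]
      rfl
    by_cases h3 : i = b
    · subst h3
      rw [dl_self, dl_ne h2, fl, if_pos (Or.inr rfl)]
      rfl
    rw [dl_ne h2, dl_ne h3, fl, if_neg (by tauto), add_zero, add_zero]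
  simp only [h1, Finset.sum_add_distrib, sum_dl, Finset.sum_const, Finset.card_univ,
    nsmul_eq_mul, mul_one]
  rw [(ZMod.natCast_eq_one_iff_odd).2 hn]
  rfl

include hG hn in
/-- A function with odd sum leads to a cut. -/
theorem cut_of {a b x₀ : τ} {u : τ → ZMod 2} (hab : a ≠ b) (hax : a ≠ x₀) (hbx : b ≠ x₀)
    (hua : u a = 0) (hub : u b = 0) (hsum : ∑ w, u w = 1) (hu : W a b u ∈ G)
    (hall : ∀ p q, a ≠ p → a ≠ q → b ≠ p → b ≠ q → u p ≠ u q →
      ∀ r s, a ≠ r → a ≠ s → b ≠ r → b ≠ s → W a b (dl r + dl s) ∈ G) :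
    W a b (fl a b) ∈ G := by
  by_cases hc : ∃ p q, a ≠ p ∧ a ≠ q ∧ b ≠ p ∧ b ≠ q ∧ u p ≠ u q
  · obtain ⟨p, q, h1, h2, h3, h4, h5⟩ := hc
    have h6 := hall p q h1 h2 h3 h4 h5
    have h7 : fl a b = u + ∑ w, (fl a b w + u w) • (dl w + dl x₀) := by
      funext i
      simp only [Pi.add_apply, Finset.sum_apply, Pi.smul_apply, smul_eq_mul, mul_add,
        Finset.sum_add_distrib]
      have h8 : ∀ v : τ → ZMod 2, ∑ w, v w * dl w i = v i := by
        intro v
        simp [dl]
      rw [h8, ← Finset.sum_mul, Finset.sum_add_distrib, sum_fl hn hab, hsum]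
      have h9 : (1 : ZMod 2) + 1 = 0 := rfl
      rw [h9]
      linear_combination - zmod_two_add_self (u i)
    rw [h7, map_add, map_sum]
    refine G.add_mem hu (G.sum_mem fun w _ => ?_)
    rw [map_smul]
    by_cases h8 : w = a
    · subst h8
      rw [hua, fl, if_pos (Or.inl rfl), add_zero, zero_smul]
      exact G.zero_mem
    by_cases h9 : w = b
    · subst h9
      rw [hub, fl, if_pos (Or.inr rfl), add_zero, zero_smul]
      exact G.zero_mem
    exact G.smul_mem _ (h6 w x₀ (Ne.symm h8) hax (Ne.symm h9) hbx)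
  · push Not at hc
    have h1 : ∀ p, a ≠ p → b ≠ p → u p = u x₀ := fun p h1 h2 => hc p x₀ h1 hax h2 hbx
    have h2 : u = u x₀ • fl a b := by
      funext i
      rw [Pi.smul_apply, smul_eq_mul, fl]
      by_cases h3 : i = a
      · rw [if_pos (Or.inl h3), h3, hua, mul_zero]
      by_cases h4 : i = b
      · rw [if_pos (Or.inr h4), h4, hub, mul_zero]
      rw [if_neg (by tauto), mul_one]
      exact h1 i (Ne.symm h3) (Ne.symm h4)
    have h3 : u x₀ = 1 := by
      have h4 := hsum
      rw [h2] at h4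
      simp only [Pi.smul_apply, smul_eq_mul] at h4
      rwa [← Finset.mul_sum, sum_fl hn hab, mul_one] at h4
    rw [h3, one_smul] at h2
    rwa [← h2]

theorem sum_diag {S : τ → τ → ZMod 2} (hs : ∀ i j, S i j = S j i) (hr : ∀ i, ∑ j, S i j = 0) :
    ∑ i, S i i = 0 := by
  have h1 : ∑ p : τ × τ, S p.1 p.2 = 0 := by
    rw [Fintype.sum_prod_type]
    exact Finset.sum_eq_zero fun i _ => hr i
  rw [← Finset.sum_filter_add_sum_filter_not _ (fun p => p.1 = p.2)] at h1
  have h2 : ∑ p : τ × τ with ¬ p.1 = p.2, S p.1 p.2 = 0 := by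
    refine Finset.sum_involution (fun p _ => p.swap) ?_ ?_ ?_ ?_
    · intro p _
      rw [Prod.fst_swap, Prod.snd_swap, hs p.2, zmod_two_add_self]
    · intro p hp _ h3
      rw [Finset.mem_filter] at hp
      exact hp.2 (congrArg Prod.snd h3)
    · intro p hp
      rw [Finset.mem_filter] at hp ⊢
      exact ⟨Finset.mem_univ _, fun h => hp.2 h.symm⟩
    · intro p _
      exact Prod.swap_swap p
  rw [h2, add_zero] at h1
  rw [← h1]
  refine Finset.sum_bij (fun i _ => (i, i)) ?_ ?_ ?_ ?_
  · intro i _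
    simp
  · intro i _ j _ h
    exact congrArg Prod.fst h
  · intro p hp
    rw [Finset.mem_filter] at hp
    exact ⟨p.1, Finset.mem_univ _, Prod.ext rfl hp.2⟩
  · intro i _
    rfl

include hG h5 in
theorem pair_all_of {a b : τ} {u : τ → ZMod 2} (hu : W a b u ∈ G) (p q : τ) (hap : a ≠ p)
    (haq : a ≠ q) (hbp : b ≠ p) (hbq : b ≠ q) (hne : u p ≠ u q) :
    ∀ r s, a ≠ r → a ≠ s → b ≠ r → b ≠ s → W a b (dl r + dl s) ∈ G := by
  intro r s h1 h2 h3 h4
  have hpq : p ≠ q := fun h => hne (by rw [h])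
  obtain ⟨e, he⟩ := exists_notMem ({a, b, p, q} : Finset τ) (lt_of_le_of_lt Finset.card_le_four
    (by omega))
  simp only [Finset.mem_insert, Finset.mem_singleton, not_or] at he
  obtain ⟨hea, heb, hep, heq⟩ := he
  have h6 : u e = u q ∨ u e = u p := by
    have := zmod_two_ne hne
    rcases zmod_two_cases (u e) with h | h <;> rcases zmod_two_cases (u q) with h' | h' <;>
      rw [h, this, h'] <;> decide
  rcases h6 with h6 | h6
  · exact pair_all hG (Ne.symm hep) hap (Ne.symm hea) hbp (Ne.symm heb)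
      (pair_of hG hu hpq (Ne.symm hep) (Ne.symm heq) hap haq (Ne.symm hea) hbp hbq (Ne.symm heb)
        hne h6) h1 h2 h3 h4
  · exact pair_all hG (Ne.symm heq) haq (Ne.symm hea) hbq (Ne.symm heb)
      (pair_of hG hu hpq.symm (Ne.symm heq) (Ne.symm hep) haq hap (Ne.symm hea) hbq hbp
        (Ne.symm heb) hne.symm h6) h1 h2 h3 h4

include hG hn h5 in
/-- A graph that is not Eulerian leads to all cuts. -/
theorem cut_main {S : τ → τ → ZMod 2} (hS : S ∈ G) (hne : ∃ i, S i i ≠ 0) :
    ∀ a b, a ≠ b → W a b (fl a b) ∈ G := by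
  obtain ⟨a, ha⟩ := hne
  obtain ⟨b, hb⟩ : ∃ b, S b b = 0 := by
    by_contra h
    push Not at h
    have h1 : ∀ i, S i i = 1 := fun i => (zmod_two_cases _).resolve_left (h i)
    have h2 := sum_diag (hG.sym S hS) (hG.row S hS)
    simp only [h1, Finset.sum_const, Finset.card_univ, nsmul_eq_mul, mul_one] at h2
    rw [(ZMod.natCast_eq_one_iff_odd).2 hn] at h2
    exact one_ne_zero h2
  have hab : a ≠ b := by
    rintro rfl
    exact ha hb
  obtain ⟨x, hx⟩ := exists_notMem ({a, b} : Finset τ) (lt_of_le_of_lt Finset.card_le_two (by omega))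
  obtain ⟨y, z, hyz, hya, hyb, hyx, hza, hzb, hzx⟩ := exists_two h5 a b x
  simp only [Finset.mem_insert, Finset.mem_singleton, not_or] at hx
  obtain ⟨hxa, hxb⟩ := hx
  obtain ⟨u, hua, hub, -, hsum, hu⟩ := W_of hG hS hab (Ne.symm hyx) hyz (Ne.symm hzx)
    (Ne.symm hxa) (Ne.symm hya) (Ne.symm hza) (Ne.symm hxb) (Ne.symm hyb) (Ne.symm hzb)
  refine cut_spread hG h5 hab (cut_of hG hn hab (Ne.symm hxa) (Ne.symm hxb) hua hub ?_ hu ?_)
  · rw [hsum, hb, add_zero]
    exact (zmod_two_cases _).resolve_left ha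
  · exact fun p q h1 h2 h3 h4 h6 => pair_all_of hG h5 hu p q h1 h2 h3 h4 h6

theorem exists_ne_of {S : τ → τ → ZMod 2} (hs : ∀ i j, S i j = S j i)
    (hne : ∃ i j k l, i ≠ j ∧ k ≠ l ∧ S i j ≠ S k l) :
    ∃ a b w, a ≠ b ∧ a ≠ w ∧ b ≠ w ∧ S a w ≠ S b w := by
  by_contra hc
  push Not at hc
  obtain ⟨i, j, k, l, hij, hkl, h⟩ := hne
  apply h
  refine pair_conn (fun a b => S i j = S a b) (fun a b h => ?_) (fun a b c h1 h2 h3 h => ?_)
    hij rfl hkl
  · rw [h, hs]
  · rw [h, hs a c, hs a b]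
    exact hc b c a h3 h1.symm h2.symm

include hG hn h5 in
/-- A nonconstant graph on at least seven points leads to all cycles of length four. -/
theorem pair_main {S : τ → τ → ZMod 2} (hS : S ∈ G) (h7 : Fintype.card τ ≠ 5)
    (hE : ∀ i, S i i = 0) (hne : ∃ i j k l, i ≠ j ∧ k ≠ l ∧ S i j ≠ S k l) :
    ∀ a b p q, a ≠ b → p ≠ q → a ≠ p → a ≠ q → b ≠ p → b ≠ q → W a b (dl p + dl q) ∈ G := by
  obtain ⟨a, b, w, hab, haw, hbw, h⟩ := exists_ne_of (hG.sym S hS) hne
  have h6 : 7 ≤ Fintype.card τ := by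
    obtain ⟨k, hk⟩ := hn
    omega
  obtain ⟨x, hx⟩ := exists_notMem ({a, b, w} : Finset τ)
    (lt_of_le_of_lt Finset.card_le_three (by omega))
  obtain ⟨y, hy⟩ := exists_notMem ({x, a, b, w} : Finset τ)
    (lt_of_le_of_lt Finset.card_le_four (by omega))
  obtain ⟨z, hz⟩ := exists_notMem ({y, x, a, b, w} : Finset τ)
    (lt_of_le_of_lt Finset.card_le_five (by omega))
  simp only [Finset.mem_insert, Finset.mem_singleton, not_or] at hx hy hz
  obtain ⟨hxa, hxb, hxw⟩ := hx
  obtain ⟨hyx, hya, hyb, hyw⟩ := hy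
  obtain ⟨hzy, hzx, hza, hzb, hzw⟩ := hz
  obtain ⟨u, hua, hub, huw, hsum, hu⟩ := W_of hG hS hab (Ne.symm hyx) (Ne.symm hzy)
    (Ne.symm hzx) (Ne.symm hxa) (Ne.symm hya) (Ne.symm hza) (Ne.symm hxb) (Ne.symm hyb)
    (Ne.symm hzb)
  have hw : u w = 1 := by
    rw [huw w haw.symm hbw.symm (Ne.symm hxw) (Ne.symm hyw) (Ne.symm hzw), zmod_two_ne h,
      add_right_comm, zmod_two_add_self, zero_add]
  rw [hE, hE, add_zero] at hsum
  obtain ⟨v, hav, hbv, hv⟩ : ∃ v, a ≠ v ∧ b ≠ v ∧ u v ≠ u w := by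
    by_contra hc
    push Not at hc
    have h1 : u = fl a b := by
      funext i
      rw [fl]
      by_cases h3 : i = a
      · rw [if_pos (Or.inl h3), h3, hua]
      by_cases h4 : i = b
      · rw [if_pos (Or.inr h4), h4, hub]
      rw [if_neg (by tauto), hc i (Ne.symm h3) (Ne.symm h4), hw]
    rw [h1, sum_fl hn hab] at hsum
    exact one_ne_zero hsum
  have h8 := pair_all_of hG h5 hu v w hav haw hbv hbw hv
  exact pair_spread hG h5 hab (Ne.symm hyx) (Ne.symm hxa) (Ne.symm hya) (Ne.symm hxb)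
    (Ne.symm hyb) (h8 x y (Ne.symm hxa) (Ne.symm hya) (Ne.symm hxb) (Ne.symm hyb))

include hG in
/-- The bowtie leads to a cycle of length four. -/
theorem bowtie {R : τ → τ → ZMod 2} (hR : R ∈ G) {a b x y z : τ} (hab : a ≠ b) (hax : a ≠ x)
    (hay : a ≠ y) (haz : a ≠ z) (hbx : b ≠ x) (hby : b ≠ y) (hbz : b ≠ z) (hxy : x ≠ y)
    (hxz : x ≠ z) (hyz : y ≠ z) (hT : ∀ i, i = a ∨ i = b ∨ i = x ∨ i = y ∨ i = z)
    (e1 : R a z = 1) (e2 : R b z = 1) (e3 : R x z = 1) (e4 : R y z = 1) (e5 : R a x = 1)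
    (e6 : R b y = 1) (e7 : R a b = 0) (e8 : R x y = 0) (e9 : R a y = 0) (e10 : R b x = 0) :
    W z y (dl a + dl x) ∈ G := by
  have hp : Perm.sign (swap z y * swap a x) = 1 := by
    rw [map_mul, Perm.sign_swap hyz.symm, Perm.sign_swap hax]
    rfl
  have hR2 := hG.stab R hR _ hp
  have hs := hG.sym R hR
  have h1 : W z y (dl a + dl x) =
      R + fun i j => R ((swap z y * swap a x) i) ((swap z y * swap a x) j) := by
    have pa : (swap z y * swap a x) a = x := by
      rw [Perm.mul_apply, swap_apply_left, swap_apply_of_ne_of_ne hxz hxy]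
    have px : (swap z y * swap a x) x = a := by
      rw [Perm.mul_apply, swap_apply_right, swap_apply_of_ne_of_ne haz hay]
    have py : (swap z y * swap a x) y = z := by
      rw [Perm.mul_apply, swap_apply_of_ne_of_ne hay.symm hxy.symm, swap_apply_right]
    have pz : (swap z y * swap a x) z = y := by
      rw [Perm.mul_apply, swap_apply_of_ne_of_ne haz.symm hxz.symm, swap_apply_left]
    have pb : (swap z y * swap a x) b = b := by
      rw [Perm.mul_apply, swap_apply_of_ne_of_ne hab.symm hbx, swap_apply_of_ne_of_ne hbz hby]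
    refine ext_off (W_row _ _ _) (fun i => ?_) fun i j hij => ?_
    · exact hG.row _ (G.add_mem hR hR2) i
    · rw [W_off hij]
      simp only [Pi.add_apply]
      have f1 := (hs z a).trans e1
      have f2 := (hs z b).trans e2
      have f3 := (hs z x).trans e3
      have f4 := (hs z y).trans e4
      have f5 := (hs x a).trans e5
      have f6 := (hs y b).trans e6
      have f7 := (hs b a).trans e7
      have f8 := (hs y x).trans e8
      have f9 := (hs y a).trans e9
      have f10 := (hs x b).trans e10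
      have two : (1 : ZMod 2) + 1 = 0 := rfl
      rcases hT i with rfl | rfl | rfl | rfl | rfl <;>
        rcases hT j with rfl | rfl | rfl | rfl | rfl <;>
        first
        | exact absurd rfl hij
        | (simp only [pa, pb, px, py, pz, dl_self, dl_ne hab, dl_ne hax, dl_ne hay, dl_ne haz,
            dl_ne hbx, dl_ne hby, dl_ne hbz, dl_ne hxy, dl_ne hxz, dl_ne hyz, dl_ne hab.symm,
            dl_ne hax.symm, dl_ne hay.symm, dl_ne haz.symm, dl_ne hbx.symm, dl_ne hby.symm,
            dl_ne hbz.symm, dl_ne hxy.symm, dl_ne hxz.symm, dl_ne hyz.symm, e1, e2, e3, e4, e5,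
            e6, e7, e8, e9, e10, f1, f2, f3, f4, f5, f6, f7, f8, f9, f10, add_zero, zero_add,
            mul_zero, mul_one, two])
  rw [h1]
  exact G.add_mem hR hR2

include hG h5 in
/-- A nonconstant Eulerian graph on five points leads to all cycles of length four. -/
theorem five_main {S : τ → τ → ZMod 2} (hS : S ∈ G) (h7 : Fintype.card τ = 5)
    (hE : ∀ i, S i i = 0) (hne : ∃ i j k l, i ≠ j ∧ k ≠ l ∧ S i j ≠ S k l) :
    ∀ a b p q, a ≠ b → p ≠ q → a ≠ p → a ≠ q → b ≠ p → b ≠ q → W a b (dl p + dl q) ∈ G := by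
  obtain ⟨a, b, z, hab, haz, hbz, h⟩ := exists_ne_of (hG.sym S hS) hne
  obtain ⟨x, y, hxy, hxa, hxb, hxz, hya, hyb, hyz⟩ := exists_two h5 a b z
  have hT : ∀ i, i = a ∨ i = b ∨ i = x ∨ i = y ∨ i = z := by
    have h1 : ({a, b, x, y, z} : Finset τ) = Finset.univ := by
      apply Finset.eq_univ_of_card
      rw [h7, Finset.card_insert_of_notMem, Finset.card_insert_of_notMem,
        Finset.card_insert_of_notMem, Finset.card_insert_of_notMem, Finset.card_singleton]
      all_goals simp only [Finset.mem_insert, Finset.mem_singleton, not_or]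
      · exact hyz
      · exact ⟨hxy, hxz⟩
      · exact ⟨hxb.symm, hyb.symm, hbz⟩
      · exact ⟨hab, hxa.symm, hya.symm, haz⟩
    intro i
    have h2 : i ∈ ({a, b, x, y, z} : Finset τ) := by
      rw [h1]
      exact Finset.mem_univ i
    simpa only [Finset.mem_insert, Finset.mem_singleton] using h2
  -- the symmetrised graph
  have key : ∀ x y : τ, x ≠ y → x ≠ a → x ≠ b → x ≠ z → y ≠ a → y ≠ b → y ≠ z →
      (∀ i, i = a ∨ i = b ∨ i = x ∨ i = y ∨ i = z) → S a x + S b y = 1 →
      W z y (dl a + dl x) ∈ G := by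
    intro x y hxy hxa hxb hxz hya hyb hyz hT hs1
    have hp : Perm.sign (swap a b * swap x y) = 1 := by
      rw [map_mul, Perm.sign_swap hab, Perm.sign_swap hxy]
      rfl
    have hR2 := G.add_mem hS (hG.stab S hS _ hp)
    set R := S + fun i j => S ((swap a b * swap x y) i) ((swap a b * swap x y) j) with hRdef
    have hRa : ∀ i j, R i j = S i j + S ((swap a b * swap x y) i) ((swap a b * swap x y) j) :=
      fun i j => rfl
    have pa : (swap a b * swap x y) a = b := by
      rw [Perm.mul_apply, swap_apply_of_ne_of_ne hxa.symm hya.symm, swap_apply_left]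
    have pb : (swap a b * swap x y) b = a := by
      rw [Perm.mul_apply, swap_apply_of_ne_of_ne hxb.symm hyb.symm, swap_apply_right]
    have px : (swap a b * swap x y) x = y := by
      rw [Perm.mul_apply, swap_apply_left, swap_apply_of_ne_of_ne hya hyb]
    have py : (swap a b * swap x y) y = x := by
      rw [Perm.mul_apply, swap_apply_right, swap_apply_of_ne_of_ne hxa hxb]
    have pz : (swap a b * swap x y) z = z := by
      rw [Perm.mul_apply, swap_apply_of_ne_of_ne hxz.symm hyz.symm,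
        swap_apply_of_ne_of_ne haz.symm hbz.symm]
    have hs := hG.sym S hS
    have hRs := hG.sym R hR2
    have hsum : ∀ f : τ → ZMod 2, ∑ i, f i = f a + f b + f x + f y + f z := by
      intro f
      have h1 : (Finset.univ : Finset τ) = {a, b, x, y, z} := by
        ext i
        simpa only [Finset.mem_univ, Finset.mem_insert, Finset.mem_singleton, true_iff] using hT i
      rw [h1, Finset.sum_insert, Finset.sum_insert, Finset.sum_insert, Finset.sum_insert,
        Finset.sum_singleton]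
      · ring
      all_goals simp only [Finset.mem_insert, Finset.mem_singleton, not_or]
      · exact hyz
      · exact ⟨hxy, hxz⟩
      · exact ⟨hxb.symm, hyb.symm, hbz⟩
      · exact ⟨hab, hxa.symm, hya.symm, haz⟩
    have e1 : R a z = 1 := by
      rw [hRa, pa, pz, zmod_two_ne h, add_right_comm, zmod_two_add_self, zero_add]
    have e2 : R b z = 1 := by
      rw [hRa, pb, pz, zmod_two_ne h, ← add_assoc, zmod_two_add_self, zero_add]
    have e5 : R a x = 1 := by rw [hRa, pa, px, hs1]
    have e6 : R b y = 1 := by rw [hRa, pb, py, add_comm, hs1]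
    have e7 : R a b = 0 := by rw [hRa, pa, pb, hs b a, zmod_two_add_self]
    have e8 : R x y = 0 := by rw [hRa, px, py, hs y x, zmod_two_add_self]
    have d : ∀ i, R i i = 0 := by
      intro i
      rw [hRa, hE, hE, add_zero]
    have r1 := hG.row R hR2 a
    have r2 := hG.row R hR2 b
    have r3 := hG.row R hR2 x
    have r4 := hG.row R hR2 y
    rw [hsum] at r1 r2 r3 r4
    have two : (1 : ZMod 2) + 1 = 0 := rfl
    have e9 : R a y = 0 := by
      rw [d, e7, e5, e1] at r1
      linear_combination r1 - two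
    have e10 : R b x = 0 := by
      rw [hRs b a, e7, d, e6, e2] at r2
      linear_combination r2 - two
    have e3 : R x z = 1 := by
      rw [hRs x a, e5, hRs x b, e10, d, e8] at r3
      linear_combination r3 - two
    have e4 : R y z = 1 := by
      rw [hRs y a, e9, hRs y b, e6, hRs y x, e8, d] at r4
      linear_combination r4 - two
    exact bowtie hG hR2 hab hxa.symm hya.symm haz hxb.symm hyb.symm hbz hxy hxz hyz hT e1 e2 e3 e4
      e5 e6 e7 e8 e9 e10
  have hsumS : S a x + S b y + (S a y + S b x) = 1 := by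
    have r1 := hG.row S hS a
    have r2 := hG.row S hS b
    have hsum : ∀ f : τ → ZMod 2, ∑ i, f i = f a + f b + f x + f y + f z := by
      intro f
      have h1 : (Finset.univ : Finset τ) = {a, b, x, y, z} := by
        ext i
        simpa only [Finset.mem_univ, Finset.mem_insert, Finset.mem_singleton, true_iff] using hT i
      rw [h1, Finset.sum_insert, Finset.sum_insert, Finset.sum_insert, Finset.sum_insert,
        Finset.sum_singleton]
      · ring
      all_goals simp only [Finset.mem_insert, Finset.mem_singleton, not_or]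
      · exact hyz
      · exact ⟨hxy, hxz⟩
      · exact ⟨hxb.symm, hyb.symm, hbz⟩
      · exact ⟨hab, hxa.symm, hya.symm, haz⟩
    rw [hsum, hE, zmod_two_ne h] at r1
    rw [hsum, hE, hG.sym S hS b a] at r2
    have two : (1 : ZMod 2) + 1 = 0 := rfl
    linear_combination r1 + r2 - zmod_two_add_self (S a b) - zmod_two_add_self (S b z) - two
  rcases zmod_two_cases (S a x + S b y) with h1 | h1
  · rw [h1, zero_add] at hsumS
    have h2 := key y x hxy.symm hya hyb hyz hxa hxb hxz (fun i => by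
      rcases hT i with h | h | h | h | h
      · exact Or.inl h
      · exact Or.inr (Or.inl h)
      · exact Or.inr (Or.inr (Or.inr (Or.inl h)))
      · exact Or.inr (Or.inr (Or.inl h))
      · exact Or.inr (Or.inr (Or.inr (Or.inr h)))) hsumS
    exact pair_spread hG h5 hxz.symm hya.symm haz.symm hyz.symm hxa hxy h2
  · have h2 := key x y hxy hxa hxb hxz hya hyb hyz hT h1
    exact pair_spread hG h5 hyz.symm hxa.symm haz.symm hxz.symm hya hxy.symm h2

include hG hn h5 in
/-- **The alternative.** -/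
theorem alt_main (hne : ∃ S ∈ G, ∃ i j k l, i ≠ j ∧ k ≠ l ∧ S i j ≠ S k l) :
    (∀ a b, a ≠ b → W a b (fl a b) ∈ G) ∨ ∀ a b p q, a ≠ b → p ≠ q → a ≠ p → a ≠ q → b ≠ p →
      b ≠ q → W a b (dl p + dl q) ∈ G := by
  obtain ⟨S, hS, hne⟩ := hne
  by_cases h : ∃ i, S i i ≠ 0
  · exact Or.inl (cut_main hG hn h5 hS h)
  · push Not at h
    by_cases h7 : Fintype.card τ = 5
    · exact Or.inr (five_main hG h5 hS h7 h hne)
    · exact Or.inr (pair_main hG hn h5 hS h7 h hne)

end comb

end Pool.Agent.N171.Al
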