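import Mathlib
import Pool.Agent.N171.LW2
import Pool.Agent.N171.Al1

/-!
# Frames of a symplectic module over the 2-adic integers
-/

set_option linter.unusedSectionVars false

namespace Pool.Agent.N171.Al

open PadicInt Module Pool.Agent.N171

noncomputable section

theorem isUnit_iff_toZMod (z : ℤ_[2]) : IsUnit z ↔ (toZMod z : ZMod 2) = 1 := by
  have h1 : IsUnit z ↔ (toZMod z : ZMod 2) ≠ 0 := by
    rw [Ne, ← RingHom.mem_ker, ker_toZMod, IsLocalRing.mem_maximalIdeal, mem_nonunits_iff, not_not]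
  rw [h1]
  constructor
  · exact (zmod_two_cases _).resolve_left
  · intro h h0
    rw [h] at h0
    exact one_ne_zero h0

theorem toZMod_eq_zero (z : ℤ_[2]) : (toZMod z : ZMod 2) = 0 ↔ ∃ y, z = 2 * y := by
  rw [← RingHom.mem_ker, ker_toZMod, maximalIdeal_eq_span_p, Ideal.mem_span_singleton]
  rfl

theorem toZMod_two : (toZMod (2 : ℤ_[2]) : ZMod 2) = 0 := by
  rw [map_ofNat]
  rfl

variable {T : Type*} [AddCommGroup T] [Module ℤ_[2] T] [Module.Finite ℤ_[2] T]
  [Module.Free ℤ_[2] T] (B : T →ₗ[ℤ_[2]] T →ₗ[ℤ_[2]] ℤ_[2]) {τ : Type*} [Fintype τ]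
  [DecidableEq τ] (D : τ → T)

/-- A frame: vectors with odd products, whose sum is even, and which generate modulo two. -/
structure Frame : Prop where
  alt : ∀ x, B x x = 0
  nd : ∀ v, (∀ w, ¬ IsUnit (B v w)) → ∃ u, (2 : ℤ_[2]) • u = v
  one : ∀ i j, i ≠ j → IsUnit (B (D i) (D j))
  sum : ∃ y, ∑ i, D i = (2 : ℤ_[2]) • y
  span : ∀ x, x ∈ Submodule.span ℤ_[2] (Set.range D ∪ {x | ∃ y, (2 : ℤ_[2]) • y = x})

/-- The reduced products with the frame. -/
def rr (x : T) : τ → ZMod 2 := fun j => toZMod (B x (D j))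

theorem rr_apply (x : T) (j : τ) : rr B D x j = toZMod (B x (D j)) := rfl

theorem rr_add (x y : T) : rr B D (x + y) = rr B D x + rr B D y := by
  funext j
  simp only [rr, map_add, LinearMap.add_apply, Pi.add_apply]

theorem rr_zero : rr B D 0 = 0 := by
  funext j
  simp only [rr, map_zero, LinearMap.zero_apply, Pi.zero_apply]

theorem rr_smul (c : ℤ_[2]) (x : T) : rr B D (c • x) = (toZMod c : ZMod 2) • rr B D x := by
  funext j
  simp only [rr, map_smul, LinearMap.smul_apply, Pi.smul_apply, smul_eq_mul, map_mul]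

theorem rr_two (x : T) : rr B D ((2 : ℤ_[2]) • x) = 0 := by
  rw [rr_smul, toZMod_two, zero_smul]

theorem rr_self (x : T) : rr B D x + rr B D x = 0 := by
  funext j
  exact zmod_two_add_self _

theorem rr_neg (x : T) : rr B D (-x) = rr B D x := by
  have h1 : rr B D (-x) + rr B D x = 0 := by
    rw [← rr_add, neg_add_cancel, rr_zero]
  have h2 := rr_self B D x
  rw [← h2] at h1
  exact add_right_cancel h1

theorem rr_sub (x y : T) : rr B D (x - y) = rr B D x + rr B D y := by
  rw [sub_eq_add_neg, rr_add, rr_neg]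

theorem rr_sum {ι : Type*} (s : Finset ι) (f : ι → T) :
    rr B D (∑ i ∈ s, f i) = ∑ i ∈ s, rr B D (f i) := by
  classical
  induction s using Finset.induction_on with
  | empty => rw [Finset.sum_empty, Finset.sum_empty, rr_zero]
  | insert a s ha ih => rw [Finset.sum_insert ha, Finset.sum_insert ha, rr_add, ih]

variable {B D} (hF : Frame B D)

include hF

theorem rr_D (i j : τ) : rr B D (D i) j = 1 + dl i j := by
  by_cases h : j = i
  · subst h
    rw [rr, hF.alt, map_zero, dl_self]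
    rfl
  · rw [rr, dl_ne h, add_zero, ← isUnit_iff_toZMod]
    exact hF.one i j (Ne.symm h)

theorem rr_even {x : T} (h : rr B D x = 0) (y : T) : (toZMod (B x y) : ZMod 2) = 0 := by
  have h1 := hF.span y
  induction h1 using Submodule.span_induction with
  | mem y hy =>
    rcases hy with ⟨j, rfl⟩ | ⟨y, rfl⟩
    · exact congrFun h j
    · rw [map_smul, smul_eq_mul, map_mul, toZMod_two, zero_mul]
  | zero => rw [map_zero, map_zero]
  | add a b _ _ ha hb => rw [map_add, map_add, ha, hb, add_zero]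
  | smul c a _ ha => rw [map_smul, smul_eq_mul, map_mul, ha, mul_zero]

theorem rr_ker {x : T} (h : rr B D x = 0) : ∃ z, x = (2 : ℤ_[2]) • z := by
  obtain ⟨u, hu⟩ := hF.nd x (fun w hw => by
    rw [isUnit_iff_toZMod, rr_even hF h w] at hw
    exact zero_ne_one hw)
  exact ⟨u, hu.symm⟩

theorem rr_inj {x y : T} (h : rr B D x = rr B D y) : ∃ z, x = y + (2 : ℤ_[2]) • z := by
  have h1 : rr B D (x - y) = 0 := by
    rw [rr_sub, h]
    exact rr_self B D y
  obtain ⟨z, hz⟩ := rr_ker hF h1
  exact ⟨z, by rw [← hz, add_sub_cancel]⟩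

theorem rr_map (N : Module.End ℤ_[2] T) {x y : T} (h : rr B D x = rr B D y) :
    rr B D (N x) = rr B D (N y) := by
  obtain ⟨z, hz⟩ := rr_inj hF h
  rw [hz, map_add, map_smul, rr_add, rr_two, add_zero]

theorem B_rr {x y : T} (h : rr B D x = rr B D y) (w : T) :
    (toZMod (B x w) : ZMod 2) = toZMod (B y w) := by
  obtain ⟨z, hz⟩ := rr_inj hF h
  rw [hz, map_add, map_smul, LinearMap.add_apply, LinearMap.smul_apply, smul_eq_mul, map_add,
    map_mul, toZMod_two, zero_mul, add_zero]

theorem Sm_ker {N : Module.End ℤ_[2] T} (h : ∀ i, rr B D (N (D i)) = 0) :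
    ∃ Z : Module.End ℤ_[2] T, N = (2 : ℤ_[2]) • Z := by
  have h1 : ∀ x, rr B D (N x) = 0 := by
    intro x
    have h2 := hF.span x
    induction h2 using Submodule.span_induction with
    | mem y hy =>
      rcases hy with ⟨j, rfl⟩ | ⟨y, rfl⟩
      · exact h j
      · rw [map_smul, rr_two]
    | zero => rw [map_zero, rr_zero]
    | add a b _ _ ha hb => rw [map_add, rr_add, ha, hb, add_zero]
    | smul c a _ ha => rw [map_smul, rr_smul, ha, smul_zero]
  let b := Module.Free.chooseBasis ℤ_[2] T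
  choose w hw using fun i => rr_ker hF (h1 (b i))
  refine ⟨b.constr ℤ_[2] w, b.ext fun i => ?_⟩
  rw [hw, LinearMap.smul_apply, Module.Basis.constr_basis]

theorem Sm_inj {N N' : Module.End ℤ_[2] T} (h : ∀ i, rr B D (N (D i)) = rr B D (N' (D i))) :
    ∃ Z : Module.End ℤ_[2] T, N = N' + (2 : ℤ_[2]) • Z := by
  obtain ⟨Z, hZ⟩ := Sm_ker hF (N := N - N') (fun i => by
    rw [LinearMap.sub_apply, rr_sub, h]
    exact rr_self B D _)
  exact ⟨Z, by rw [← hZ, add_sub_cancel]⟩

theorem B_symm2 (x y : T) : (toZMod (B x y) : ZMod 2) = toZMod (B y x) := by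
  rw [B_anti B hF.alt x y, map_neg]
  exact neg_eq_of_add_eq_zero_left (zmod_two_add_self _)

theorem sum_rr (x : T) : ∑ j, rr B D x j = 0 := by
  obtain ⟨y, hy⟩ := hF.sum
  simp only [rr]
  rw [← map_sum, ← map_sum, hy, map_smul, smul_eq_mul, map_mul, toZMod_two, zero_mul]

/-- The operator `x ↦ B(u,x) w` modulo two. -/
theorem rr_Eo (u w : T) (i : τ) : rr B D (Eo B u w (D i)) = rr B D u i • rr B D w := by
  rw [Eo_apply, rr_smul, rr_apply]

theorem rr_so (u w : T) (i : τ) : rr B D (so B u w (D i)) =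
    rr B D u i • rr B D w + rr B D w i • rr B D u := by
  rw [so, LinearMap.add_apply, rr_add, rr_Eo hF, rr_Eo hF]

theorem rr_pair {a b : τ} : rr B D (D a + D b) = dl a + dl b := by
  funext j
  rw [rr_add, Pi.add_apply, rr_D hF, rr_D hF, Pi.add_apply]
  have two : (1 : ZMod 2) + 1 = 0 := rfl
  linear_combination two

end

end Pool.Agent.N171.Al
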