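import Mathlib
import Pool.Agent.N171.Al3

/-!
# Logarithms and the Lie algebra of a group with a large image modulo two
-/

set_option linter.unusedSectionVars false

namespace Pool.Agent.N171.Al

open PadicInt Module Pool.Agent.N171 Equiv

noncomputable section

theorem Ys_div {T : Type*} [AddCommGroup T] [Module ℤ_[2] T] (j : ℕ)
    (N₁ : Module.End ℤ_[2] T) (n : ℕ) :
    ∃ Z, Ys ((2 : ℤ_[2]) ^ j • N₁) n = (2 : ℤ_[2]) ^ j • (N₁ + (2 : ℤ_[2]) • Z) := by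
  induction n with
  | zero => exact ⟨0, by rw [smul_zero, add_zero]; rfl⟩
  | succ n ih =>
    obtain ⟨Z, hZ⟩ := ih
    refine ⟨Z + ((2 : ℤ_[2]) ^ n * (2 : ℤ_[2]) ^ j) •
      ((N₁ + (2 : ℤ_[2]) • Z) * (N₁ + (2 : ℤ_[2]) • Z)), ?_⟩
    rw [Ys, hZ, pow_succ (2 : ℤ_[2]) n, smul_mul_smul_comm]
    generalize (N₁ + (2 : ℤ_[2]) • Z) * (N₁ + (2 : ℤ_[2]) • Z) = A
    module

theorem exists_logd {T : Type*} [AddCommGroup T] [Module ℤ_[2] T] [Module.Finite ℤ_[2] T]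
    [Module.Free ℤ_[2] T] (j : ℕ) (N₁ : Module.End ℤ_[2] T) :
    ∃ Y Z : Module.End ℤ_[2] T, Y = (2 : ℤ_[2]) ^ j • (N₁ + (2 : ℤ_[2]) • Z) ∧
      ∀ n, ∃ Z, Y - Ys ((2 : ℤ_[2]) ^ j • N₁) n = (2 : ℤ_[2]) ^ n • Z := by
  obtain ⟨L, -, hL⟩ := exists_log ((2 : ℤ_[2]) ^ j • N₁)
  obtain ⟨Z, hZ⟩ := hL (j + 1)
  obtain ⟨Z', hZ'⟩ := Ys_div j N₁ (j + 1)
  refine ⟨L, Z + Z', ?_, hL⟩
  rw [sub_eq_iff_eq_add] at hZ
  rw [hZ, hZ', pow_succ]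
  module

variable {T : Type*} [AddCommGroup T] [Module ℤ_[2] T] [Module.Finite ℤ_[2] T]
  [Module.Free ℤ_[2] T] {B : T →ₗ[ℤ_[2]] T →ₗ[ℤ_[2]] ℤ_[2]} {τ : Type*} [Fintype τ]
  [DecidableEq τ] {D : τ → T} {Γ : Type*} [Group Γ] {ρ : Representation ℤ_[2] Γ T}
  {χ : Γ →* ℤ_[2]ˣ} {d : ℕ} (t : Γ →* Matrix (Fin d) (Fin d) ℤ_[2]) (κ : Type*) [Fintype κ]
  [DecidableEq κ]

/-- The logarithm of an element acts on the values through a divisible matrix. -/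
theorem log_LWd {s : Γ} (j : ℕ) (ht : ∃ Z, t s = 1 + (2 : ℤ_[2]) ^ (j + 2) • Z)
    {X₀ X : Module.End ℤ_[2] T} (h0 : ρ s * ρ s = 1 + (4 : ℤ_[2]) • X₀)
    (hX : ∀ n, ∃ Z, X - Ys X₀ n = (2 : ℤ_[2]) ^ n • Z) :
    ∃ Y, LW ρ κ t X ((2 : ℤ_[2]) ^ (j + 1) • Y) := by
  obtain ⟨Z, hZ⟩ := ht
  obtain ⟨Z', hZ'⟩ : ∃ Z', t s⁻¹ = 1 + (2 : ℤ_[2]) ^ (j + 2) • Z' := by
    refine ⟨-(Z * t s⁻¹), ?_⟩
    have h1 : t s * t s⁻¹ = 1 := by rw [← map_mul, mul_inv_cancel, map_one]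
    rw [hZ, add_mul, one_mul, smul_mul_assoc] at h1
    rw [← h1]
    module
  obtain ⟨Z'', hZ''⟩ : ∃ Z'' : Matrix (Fin d) (Fin d) ℤ_[2],
      t s⁻¹ * t s⁻¹ = 1 + ((4 : ℤ_[2]) * (2 : ℤ_[2]) ^ (j + 1)) • Z'' := by
    refine ⟨Z' + (2 : ℤ_[2]) ^ (j + 1) • (Z' * Z'), ?_⟩
    rw [hZ']
    simp only [mul_add, add_mul, one_mul, mul_one, smul_mul_smul_comm]
    have e1 : (4 : ℤ_[2]) * 2 ^ (j + 1) = 2 ^ (j + 2) + 2 ^ (j + 2) := by ring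
    have e2 : (2 : ℤ_[2]) ^ (j + 2) * 2 ^ (j + 2) = (4 * 2 ^ (j + 1)) * 2 ^ (j + 1) := by ring
    rw [e2, e1]
    module
  let Y₀ : Module.End ℤ_[2] (Fin d → ℤ_[2]) := (2 : ℤ_[2]) ^ (j + 1) • Matrix.vecMulLinear Z''
  have h1 : ∀ μ, (1 + (4 : ℤ_[2]) • Y₀) μ =
      (1 : ℤ_[2]) ^ Fintype.card κ • Matrix.vecMul μ (t s⁻¹ * t s⁻¹) := by
    intro μ
    rw [one_pow, one_smul, hZ'', Matrix.vecMul_add, Matrix.vecMul_one, Matrix.vecMul_smul]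
    simp only [Y₀, LinearMap.add_apply, LinearMap.smul_apply, Module.End.one_apply,
      Matrix.vecMulLinear_apply, smul_smul]
  obtain ⟨Y, Y', hY', hY⟩ := exists_logd (j + 1) (Matrix.vecMulLinear Z'' :
    Module.End ℤ_[2] (Fin d → ℤ_[2]))
  refine ⟨Matrix.of fun j i => -((Matrix.vecMulLinear Z'' + (2 : ℤ_[2]) • Y') (Pi.single j 1)) i,
    ?_⟩
  intro φ hφ j' x
  obtain ⟨Δ, hΔ, hφ⟩ := hφ
  obtain ⟨M, hM0, -, hM⟩ := Subgroup.exists_pow_mem_of_index_ne_zero hΔ.index_ne_zero s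
  have h3 := phat_kill (ρ := ρ) (t := t) (φ := φ) hM0.ne' (χs := (1 : ℤ_[2])) (one_mul 1)
    (fun j x => by
      have h4 := hφ _ (Δ.mul_mem hM hM) j x
      rw [map_mul, map_pow, map_mul, map_pow] at h4
      exact h4) (by rw [one_smul]; exact h0) hX h1 hY (Pi.single j' 1) x
  have h4 : ∑ i, (Pi.single j' 1 : Fin d → ℤ_[2]) i • ∑ k, φ i (Function.update x k (X (x k))) =
      ∑ k, φ j' (Function.update x k (X (x k))) := by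
    rw [Finset.sum_eq_single j']
    · rw [Pi.single_eq_same, one_smul]
    · intro i _ hi
      rw [Pi.single_eq_of_ne hi, zero_smul]
    · intro h
      exact absurd (Finset.mem_univ _) h
  rw [h4] at h3
  rw [eq_neg_of_add_eq_zero_right h3, ← Finset.sum_neg_distrib]
  refine Finset.sum_congr rfl fun i _ => ?_
  rw [← neg_smul]
  congr 1
  rw [hY']
  simp only [Matrix.smul_apply, Matrix.of_apply, LinearMap.smul_apply, Pi.smul_apply, smul_eq_mul,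
    mul_neg]

theorem LW_cancel_pow {X : Module.End ℤ_[2] T} {Y : Matrix (Fin d) (Fin d) ℤ_[2]} (j : ℕ)
    (h : LW ρ κ t ((2 : ℤ_[2]) ^ j • X) ((2 : ℤ_[2]) ^ j • Y)) : LW ρ κ t X Y := by
  induction j with
  | zero => simpa only [pow_zero, one_smul] using h
  | succ j ih =>
    rw [pow_succ', mul_smul, mul_smul] at h
    exact ih (LW_cancel h)

theorem pow_smul_cancel {x : T} (j : ℕ) (h : (2 : ℤ_[2]) ^ j • x = 0) : x = 0 := by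
  induction j with
  | zero => simpa only [pow_zero, one_smul] using h
  | succ j ih =>
    rw [pow_succ', mul_smul] at h
    exact ih (two_smul_cancel h)

/-- The trivial projection. -/
abbrev p1 (T : Type*) [AddCommGroup T] [Module ℤ_[2] T] : Unit → Module.End ℤ_[2] T := fun _ => 1

theorem sp_cancel (j : ℕ) {X : Module.End ℤ_[2] T} (h : (2 : ℤ_[2]) ^ j • X ∈ spQ B (p1 T)) :
    X ∈ spQ B (p1 T) := by
  refine ⟨fun x y => ?_, fun _ x => rfl⟩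
  have h1 := h.1 x y
  simp only [LinearMap.smul_apply, map_smul, smul_eq_mul] at h1
  rw [← mul_add] at h1
  exact (mul_eq_zero.1 h1).resolve_left (pow_ne_zero _ (by norm_num))

variable (hF : Big B D ρ χ)

/-- The algebra modulo two. -/
abbrev nk (B : T →ₗ[ℤ_[2]] T →ₗ[ℤ_[2]] ℤ_[2]) (ρ : Representation ℤ_[2] Γ T) :
    Submodule ℤ_[2] (Module.End ℤ_[2] T) := nn (PL ρ κ t B (p1 T) 1)

theorem nk_two (X : Module.End ℤ_[2] T) : (2 : ℤ_[2]) • X ∈ nk t κ B ρ :=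
  ⟨0, Submodule.zero_mem _, X, by rw [zero_add]⟩

theorem nk_congr {X Y Z : Module.End ℤ_[2] T} (h : X ∈ nk t κ B ρ) (hZ : Y = X + (2 : ℤ_[2]) • Z) :
    Y ∈ nk t κ B ρ := by
  rw [hZ]
  exact Submodule.add_mem _ h (nk_two t κ Z)

theorem nk_bracket {X Y : Module.End ℤ_[2] T} (h : X ∈ nk t κ B ρ) (h' : Y ∈ nk t κ B ρ) :
    X * Y - Y * X ∈ nk t κ B ρ := by
  obtain ⟨X, hX, Z, rfl⟩ := h
  obtain ⟨X', hX', Z', rfl⟩ := h'
  refine ⟨X * X' - X' * X, PL_bracket ρ κ t B (p1 T) hX hX', X * Z' + Z * X' +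
    (2 : ℤ_[2]) • (Z * Z') - (X' * Z + Z' * X + (2 : ℤ_[2]) • (Z' * Z)), ?_⟩
  simp only [mul_add, add_mul, smul_mul_assoc, mul_smul_comm]
  module

include hF in
theorem log_nn (j : ℕ) {s : Γ} {N : Module.End ℤ_[2] T} {M : Matrix (Fin d) (Fin d) ℤ_[2]}
    (h1 : χ s = 1) (h2 : ρ s = 1 + (2 : ℤ_[2]) ^ (j + 1) • N)
    (h3 : t s = 1 + (2 : ℤ_[2]) ^ (j + 2) • M) : N + (2 : ℤ_[2]) ^ j • (N * N) ∈ nk t κ B ρ := by
  have h0 : ρ s * ρ s = 1 + (4 : ℤ_[2]) • ((2 : ℤ_[2]) ^ j • (N + (2 : ℤ_[2]) ^ j • (N * N))) := by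
    rw [h2]
    simp only [mul_add, add_mul, one_mul, mul_one, smul_mul_smul_comm]
    have e1 : (2 : ℤ_[2]) ^ (j + 1) * 2 ^ (j + 1) = 4 * (2 ^ j * 2 ^ j) := by ring
    rw [e1, pow_succ (2 : ℤ_[2]) j]
    generalize N * N = A
    module
  obtain ⟨X, Z, hX', hX⟩ := exists_logd j (N + (2 : ℤ_[2]) ^ j • (N * N))
  obtain ⟨Y, hY⟩ := log_LWd (ρ := ρ) t κ j ⟨M, h3⟩ h0 hX
  have h4 : X ∈ spQ B (p1 T) := gZ_le ρ χ B hF.frame.nd hF.inv (p1 T) (fun _ _ _ => rfl)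
    (fun _ _ _ => rfl) (log_mem ρ χ (c := 1) (by rw [h1, Units.val_one, one_mul])
      (by rw [one_smul]; exact h0) hX)
  rw [hX'] at h4 hY
  refine ⟨N + (2 : ℤ_[2]) ^ j • (N * N) + (2 : ℤ_[2]) • Z, ⟨sp_cancel j h4, Y, ?_⟩, -Z, by module⟩
  rw [pow_one]
  rw [pow_succ, mul_smul] at hY
  exact LW_cancel_pow t κ j hY

include hF in
/-- The elements of the graph module give elements of the algebra. -/
theorem Gs_nk {j : ℕ} {S : τ → τ → ZMod 2} (hS : S ∈ Gs B D ρ χ t j) :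
    ∃ N : Module.End ℤ_[2] T, (∀ i, rr B D (N (D i)) = S i) ∧
      N + (2 : ℤ_[2]) ^ j • (N * N) ∈ nk t κ B ρ := by
  obtain ⟨s, N, M, h1, h2, h3, rfl⟩ := hS
  exact ⟨N, fun i => rfl, log_nn t κ hF j h1 h2 h3⟩

end

end Pool.Agent.N171.Al
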