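import Mathlib
import Pool.Agent.N171.Al5
import Pool.Agent.N171.AbsW

/-!
# The abstract theorem for groups with a large image modulo two
-/

set_option linter.unusedSectionVars false

namespace Pool.Agent.N171.Al

open PadicInt Module TensorProduct Pool.Agent.N171 Equiv Pool.Agent.H204R3.SP Pool.Agent.H204R3.GP

noncomputable section

variable {T : Type*} [AddCommGroup T] [Module ℤ_[2] T] [Module.Finite ℤ_[2] T]
  [Module.Free ℤ_[2] T] {B : T →ₗ[ℤ_[2]] T →ₗ[ℤ_[2]] ℤ_[2]} {τ : Type*} [Fintype τ]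
  [DecidableEq τ] {D : τ → T} {Γ : Type*} [Group Γ] {ρ : Representation ℤ_[2] Γ T}
  {χ : Γ →* ℤ_[2]ˣ} {d : ℕ} (t : Γ →* Matrix (Fin d) (Fin d) ℤ_[2]) (κ : Type*) [Fintype κ]
  [DecidableEq κ] (hF : Big B D ρ χ) {σ : Γ} {m : ℕ}
  (hσ : ∃ N, ρ σ = 1 + (2 : ℤ_[2]) • N) (hσt : ∃ M, t σ = 1 + (2 : ℤ_[2]) ^ m • M)
  (hσm : ¬ ∃ (a : ℤ_[2]) (Z : Module.End ℤ_[2] T), ρ σ = a • 1 + (2 : ℤ_[2]) ^ m • Z)

include hF hσ hσt hσm in
/-- All the transvections of the pairs belong to the algebra modulo two. -/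
theorem Eo_all {a b : τ} (hab : a ≠ b) : Eo B (D a + D b) (D a + D b) ∈ nk t κ B ρ := by
  have hfr := hF.frame
  have hn := hF.odd
  have h5 := hF.five
  obtain ⟨j, hj⟩ := exists_level t hF hσ hσt hσm
  rcases alt_main (Gs_stab t hF j) hn h5 hj with hc | hc
  · cases j with
    | zero =>
      obtain ⟨N, hN, hk⟩ := Gs_nk t κ hF (hc a b hab)
      rw [pow_zero, one_smul] at hk
      exact nk_of_rr t κ hfr hk fun i => (cut_sq hfr hn hab hN i).symm
    | succ j =>
      have key : ∀ a b, a ≠ b → ∃ N : Module.End ℤ_[2] T,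
          (∀ i, rr B D (N (D i)) = W a b (fl a b) i) ∧ N ∈ nk t κ B ρ := by
        intro a b hab
        obtain ⟨N, hN, hk⟩ := Gs_nk t κ hF (hc a b hab)
        refine ⟨N, hN, ?_⟩
        have h1 := Submodule.sub_mem _ hk (nk_two t κ ((2 : ℤ_[2]) ^ j • (N * N)))
        rwa [smul_smul, ← pow_succ', add_sub_cancel_right] at h1
      refine Eo_pair hfr t κ (fun a b c d hab hcd hac had hbc hbd => ?_) hn h5 hab
      obtain ⟨N, hN, hk⟩ := key a b hab
      obtain ⟨N', hN', hk'⟩ := key c d hcd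
      exact nk_of_rr t κ hfr (nk_bracket t κ hk hk') fun i =>
        (cut_comm hfr hn hab hcd hac had hbc hbd hN hN' i).symm
  · refine Eo_pair hfr t κ (fun a b c d hab hcd hac had hbc hbd => ?_) hn h5 hab
    obtain ⟨N, hN, hk⟩ := Gs_nk t κ hF (hc a b c d hab hcd hac had hbc hbd)
    have h1 : ∀ i, rr B D (N (D i)) = rr B D (so B (D a + D b) (D c + D d) (D i)) := by
      intro i
      rw [hN, rr_so hfr, rr_pair hfr, rr_pair hfr]
      funext k
      rw [W_apply]
      have h2 : ∑ l, (dl c + dl d : τ → ZMod 2) l = 0 := by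
        simp only [Pi.add_apply, Finset.sum_add_distrib, sum_dl]
        rfl
      rw [h2, mul_zero, ite_self, add_zero]
      rfl
    have h2 : (toZMod (B (D a + D b) (D c + D d)) : ZMod 2) = 0 := by
      rw [pair_B hfr, dl_ne hac.symm, dl_ne hbc.symm, dl_ne had.symm, dl_ne hbd.symm]
      rfl
    refine nk_of_rr t κ hfr hk fun i => ?_
    obtain ⟨Z, hZ⟩ := Sm_inj hfr h1
    have h3 : rr B D (N (N (D i))) = 0 := by
      rw [rr_map hfr N (h1 i)]
      conv_lhs => rw [hZ]
      rw [LinearMap.add_apply, LinearMap.smul_apply, rr_add, rr_two, add_zero, so_sq hfr h2]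
    rw [LinearMap.add_apply, LinearMap.smul_apply, Module.End.mul_apply, rr_add, rr_smul, h3,
      smul_zero, add_zero, h1]

include hF hσ hσt hσm in
/-- The symplectic Lie algebra acts on the values through even matrices. -/
theorem PL_one' : spQ B (p1 T) ≤ PL ρ κ t B (p1 T) 1 := by
  classical
  have hfr := hF.frame
  have hle : PL ρ κ t B (p1 T) 1 ≤ spQ B (p1 T) := fun X hX => hX.1
  obtain ⟨i₀, -⟩ := exists_notMem (∅ : Finset τ) (by
    rw [Finset.card_empty]
    have := hF.five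
    omega)
  let v : {k : τ // k ≠ i₀} → T := fun k => D k + D i₀
  let q : {k : τ // k ≠ i₀} → Unit := fun _ => ()
  have hv : ∀ k, Eo B (v k) (v k) ∈ nk t κ B ρ := fun k => Eo_all t κ hF hσ hσt hσm k.2
  have hconn : ∀ k l, q k = q l → Relation.ReflTransGen (Adj B v q) k l := by
    intro k l _
    by_cases hkl : k = l
    · rw [hkl]
    · refine Relation.ReflTransGen.single ⟨rfl, ?_⟩
      rw [isUnit_iff_toZMod]
      change toZMod (B (D k + D i₀) (D l + D i₀)) = 1
      have hkl' : (l : τ) ≠ k := fun h => hkl (Subtype.ext h.symm)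
      rw [pair_B hfr, dl_ne hkl', dl_ne l.2, dl_ne k.2.symm, dl_self]
      rfl
  have h0 : D i₀ ∈ Wq v q () := by
    obtain ⟨y, hy⟩ := hfr.sum
    obtain ⟨r, hr⟩ := hF.odd
    have h1 : ∀ s : Finset τ, ∑ i ∈ s, (D i + D i₀) ∈ Wq v q () := by
      intro s
      refine Submodule.sum_mem _ fun i _ => ?_
      by_cases hi : i = i₀
      · subst hi
        exact Submodule.subset_span (Or.inr ⟨D i, two_smul _ _⟩)
      · exact Submodule.subset_span (Or.inl ⟨⟨i, hi⟩, rfl, rfl⟩)
    have h2 := h1 Finset.univ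
    rw [Finset.sum_add_distrib, hy, Finset.sum_const, Finset.card_univ, hr] at h2
    have h3 : (2 : ℤ_[2]) • (y + (r : ℤ_[2]) • D i₀) ∈ Wq v q () :=
      Submodule.subset_span (Or.inr ⟨_, rfl⟩)
    have h4 := Submodule.sub_mem _ h2 h3
    have h5 : (2 : ℤ_[2]) • y + (2 * r + 1) • D i₀ - (2 : ℤ_[2]) • (y + (r : ℤ_[2]) • D i₀) =
        D i₀ := by
      rw [← Nat.cast_smul_eq_nsmul ℤ_[2]]
      push_cast
      module
    rwa [h5] at h4
  have hspan : ∀ x, x ∈ Wq v q () := by
    intro x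
    have hx := hfr.span x
    induction hx using Submodule.span_induction with
    | mem x hx =>
      rcases hx with ⟨i, rfl⟩ | ⟨y, rfl⟩
      · by_cases hi : i = i₀
        · rw [hi]
          exact h0
        · have h1 : D i + D i₀ ∈ Wq v q () := Submodule.subset_span (Or.inl ⟨⟨i, hi⟩, rfl, rfl⟩)
          have h2 := Submodule.sub_mem _ h1 h0
          rwa [add_sub_cancel_right] at h2
      · exact Submodule.subset_span (Or.inr ⟨y, rfl⟩)
    | zero => exact Submodule.zero_mem _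
    | add a b _ _ ha hb => exact Submodule.add_mem _ ha hb
    | smul c a _ ha => exact Submodule.smul_mem _ c ha
  refine nakayama_sp B (p1 T) hle ?_
  let n := Fintype.card (Module.Free.ChooseBasisIndex ℤ_[2] T)
  let b₀ : Module.Basis (Fin n) ℤ_[2] T :=
    (Module.Free.chooseBasis ℤ_[2] T).reindex (Fintype.equivFin _)
  exact spQ_le B hfr.nd (p1 T) hfr.alt (fun x => by simp) (fun _ _ => rfl) (fun _ _ _ => rfl) b₀
    (nn (PL ρ κ t B (p1 T) 1))
    (fun c u => Eo_mem B hfr.alt v q _ (nk_two t κ) (fun X hX Y hY => nk_bracket t κ hX hY) hv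
      hconn (hspan u))
    (fun c u w => so_mem B hfr.alt v q _ (nk_two t κ) (fun X hX Y hY => nk_bracket t κ hX hY) hv
      hconn (hspan u) (hspan w))

include hF hσ hσt hσm in
/-- The symplectic Lie algebra kills all the vector valued Tate forms. -/
theorem kill_all' {X : Module.End ℤ_[2] T} (hX : X ∈ spQ B (p1 T))
    {φ : Fin d → MultilinearMap ℤ_[2] (fun _ : κ => T) ℚ_[2]} (hφ : IsTW ρ κ t φ) (j : Fin d)
    (x : κ → T) : ∑ k, φ j (Function.update x k (X (x k))) = 0 := by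
  have key : ∀ b, spQ B (p1 T) ≤ PL ρ κ t B (p1 T) (b + 1) := by
    intro b
    induction b with
    | zero => exact PL_one' t κ hF hσ hσt hσm
    | succ b ih =>
      exact PL_succ B hF.frame.alt hF.frame.nd (p1 T) (fun x => by simp)
        (fun _ _ => rfl) (fun _ _ _ h => absurd rfl h) (fun _ _ _ => rfl) (Nat.succ_pos b) ih
  refine eq_zero_of_le (K := ∑ i, ‖φ i x‖) fun n => ?_
  obtain ⟨-, Y, hY⟩ := key n hX
  rw [hY φ hφ, Finset.sum_mul]
  refine (norm_sum_le _ _).trans (Finset.sum_le_sum fun i _ => ?_)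
  rw [norm_smul_le_two, Matrix.smul_apply, smul_eq_mul, norm_mul, norm_two_pow, mul_comm]
  refine mul_le_mul_of_nonneg_left ?_ (norm_nonneg _)
  refine (mul_le_of_le_one_right (by positivity) (norm_le_one _)).trans ?_
  exact pow_le_pow_of_le_one (by norm_num) (by norm_num) (Nat.le_succ n)

variable {W : Type*} [AddCommGroup W] [Module ℚ_[2] W] (τW : Representation ℚ_[2] Γ W)
  (bW : Basis (Fin d) ℚ_[2] W)
  (hτ : ∀ s i, τW s (bW i) = ∑ j, algebraMap ℤ_[2] ℚ_[2] (t s j i) • bW j)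

variable {κ}

include hτ hF hσ hσt hσm in
theorem coord_kill' {n : ℕ} {f : (Fin n → ℚ_[2] ⊗[ℤ_[2]] T) [⋀^κ]→ₗ[ℚ_[2]] W}
    (hf : IsTateV (ratRep ρ) τW f) (c : κ → Fin n) (j : Fin d) (cc : Unit)
    (u w : ℚ_[2] ⊗[ℤ_[2]] T) :
    Kills (SS (BV B) (LinearMap.baseChange ℚ_[2] (p1 T cc) u)
      (LinearMap.baseChange ℚ_[2] (p1 T cc) w))
      (cmp ((bW.coord j).compAlternatingMap f).toMultilinearMap c) := by
  refine SS_rat B (fun u w => kills_rat fun x => ?_) u w
  exact kill_all' (ρ := ρ) (κ := κ) t hF hσ hσt hσm (so_spQ B hF.frame.alt (p1 T) (fun _ _ => rfl)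
    (fun _ _ _ h => absurd rfl h) (fun _ _ _ => rfl) cc u w) (isTW_of ρ τW bW t hτ hf c) j x

include hτ hF hσ hσt hσm in
/-- **The abstract theorem, even degree.** -/
theorem absA_even {n m : ℕ} (f : (Fin n → ℚ_[2] ⊗[ℤ_[2]] T) [⋀^Fin m × Fin 2]→ₗ[ℚ_[2]] W)
    (hf : IsTateV (ratRep ρ) τW f) :
    f ∈ Submodule.span ℚ_[2] {h | IsProdW (ratChar χ) τW (fun _ : Unit => BV B) h} := by
  have hfin : FiniteDimensional ℚ_[2] (ℚ_[2] ⊗[ℤ_[2]] T) := inferInstance
  have hid : (fun c : Unit => (BV B).comp (LinearMap.baseChange ℚ_[2] (p1 T c))) =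
      fun _ : Unit => BV B := by
    funext c
    refine ext_tmul fun x => ext_tmul fun y => ?_
    rw [LinearMap.comp_apply, LinearMap.baseChange_tmul]
    rfl
  rw [← hid]
  refine assemble (ratRep ρ) (ratChar χ) τW _ ?_ bW f hf fun j => ?_
  · intro c s u w
    rw [congrFun hid c]
    exact BV_inv ρ χ B hF.inv s _ _
  · refine altK_mem (BV B) (fun v w => BV_anti B hF.frame.alt w v)
      (fun c => LinearMap.baseChange ℚ_[2] (p1 T c)) ?_ _ fun c => ?_
    · intro c u w
      have h1 : (BV B).comp (LinearMap.baseChange ℚ_[2] (p1 T c)) =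
          (BV B).compl₂ (LinearMap.baseChange ℚ_[2] (p1 T c)) := by
        refine ext_tmul fun x => ext_tmul fun y => ?_
        rw [LinearMap.comp_apply, LinearMap.compl₂_apply, LinearMap.baseChange_tmul,
          LinearMap.baseChange_tmul, BV_tmul, BV_tmul]
        rfl
      exact congrArg (fun f => f u w) h1
    · exact (kil_rat B hF.frame.alt hF.frame.nd (p1 T) (fun x => by simp) (fun _ _ => rfl)
        (fun _ _ _ h => absurd rfl h) (fun _ _ _ => rfl)).1 m _ fun cc u w =>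
        coord_kill' t hF hσ hσt hσm τW bW hτ hf c j cc u w

include hτ hF hσ hσt hσm in
/-- **The abstract theorem, odd degree.** -/
theorem absA_odd {n a : ℕ} (ha : Odd a)
    (f : (Fin n → ℚ_[2] ⊗[ℤ_[2]] T) [⋀^Fin a]→ₗ[ℚ_[2]] W)
    (hf : IsTateV (ratRep ρ) τW f) : f = 0 := by
  have h1 : ∀ j c, cmp ((bW.coord j).compAlternatingMap f).toMultilinearMap c = 0 :=
    fun j c => (kil_rat B hF.frame.alt hF.frame.nd (p1 T) (fun x => by simp) (fun _ _ => rfl)
        (fun _ _ _ h => absurd rfl h) (fun _ _ _ => rfl)).2 a _ ha fun cc u w =>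
      coord_kill' t hF hσ hσt hσm τW bW hτ hf c j cc u w
  ext x
  apply bW.repr.injective
  ext j
  have h2 := cmp_sum ((bW.coord j).compAlternatingMap f).toMultilinearMap x
  rw [AlternatingMap.zero_apply, map_zero, Finsupp.zero_apply]
  refine h2.trans (Finset.sum_eq_zero fun c _ => ?_)
  rw [h1]
  rfl

end

end Pool.Agent.N171.Al
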