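import Mathlib

/-!
# Square roots of power series
-/

namespace Pool.Agent.N171

open PowerSeries

variable {F : Type*} [Field F]

theorem exists_sqrt_ps (h2 : (2 : F) ≠ 0) (p : F⟦X⟧) (hp : constantCoeff p = 1) :
    ∃ s : F⟦X⟧, s * s = p ∧ constantCoeff s = 1 := by
  have h := HenselianRing.is_henselian (R := F⟦X⟧) (I := Ideal.span {(X : F⟦X⟧)})
    (Polynomial.X ^ 2 - Polynomial.C p) (Polynomial.monic_X_pow_sub_C p two_ne_zero) 1 ?_ ?_
  · obtain ⟨a, ha, ha1⟩ := h
    refine ⟨a, ?_, ?_⟩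
    · have h1 : a ^ 2 - p = 0 := by simpa [Polynomial.IsRoot] using ha
      rw [← pow_two]
      exact sub_eq_zero.1 h1
    · rw [Ideal.mem_span_singleton, X_dvd_iff, map_sub, map_one] at ha1
      exact sub_eq_zero.1 ha1
  · rw [Ideal.mem_span_singleton, X_dvd_iff]
    simp [hp]
  · have h1 : IsUnit (2 : F⟦X⟧) := by
      rw [PowerSeries.isUnit_iff_constantCoeff]
      have : constantCoeff (2 : F⟦X⟧) = 2 := map_ofNat constantCoeff 2
      rw [this]
      exact isUnit_iff_ne_zero.2 h2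
    have h3 : (Polynomial.derivative (Polynomial.X ^ 2 - Polynomial.C p)).eval 1 = (2 : F⟦X⟧) := by
      simp [one_add_one_eq_two]
    rw [h3]
    exact h1.map _

end Pool.Agent.N171
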