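import Mathlib
import Pool.Agent.N171.PS

/-!
# Orders and leading coefficients of Laurent series, the tame symbol
-/

namespace Pool.Agent.N171

open HahnSeries

variable {F : Type*} [Field F]

/-- The lowest term of the series `x` is `a t ^ n`. -/
def LT (x : LaurentSeries F) (n : ℤ) (a : F) : Prop :=
  (∀ m < n, x.coeff m = 0) ∧ x.coeff n = a ∧ a ≠ 0

theorem LT.ne_zero {x : LaurentSeries F} {n : ℤ} {a : F} (h : LT x n a) : x ≠ 0 := by
  rintro rfl
  exact h.2.2 (by rw [← h.2.1, coeff_zero])

theorem LT.order {x : LaurentSeries F} {n : ℤ} {a : F} (h : LT x n a) : x.order = n := by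
  apply le_antisymm
  · apply order_le_of_coeff_ne_zero
    rw [h.2.1]
    exact h.2.2
  · by_contra hlt
    push Not at hlt
    exact h.ne_zero (coeff_order_eq_zero.1 (h.1 _ hlt))

theorem LT.lc {x : LaurentSeries F} {n : ℤ} {a : F} (h : LT x n a) : x.leadingCoeff = a := by
  rw [leadingCoeff_eq, h.order, h.2.1]

theorem LT_of_ne {x : LaurentSeries F} (h : x ≠ 0) : LT x x.order x.leadingCoeff :=
  ⟨fun _ hm => coeff_eq_zero_of_lt_order hm, leadingCoeff_eq.symm, leadingCoeff_ne_zero.2 h⟩

theorem LT.mul {x y : LaurentSeries F} {n m : ℤ} {a b : F} (hx : LT x n a) (hy : LT y m b) :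
    LT (x * y) (n + m) (a * b) := by
  have h := LT_of_ne (mul_ne_zero hx.ne_zero hy.ne_zero)
  rwa [order_mul hx.ne_zero hy.ne_zero, leadingCoeff_mul, hx.order, hy.order, hx.lc, hy.lc] at h

theorem LT.add_of_lt {x y : LaurentSeries F} {n m : ℤ} {a b : F} (hx : LT x n a) (hy : LT y m b)
    (h : n < m) : LT (x + y) n a := by
  refine ⟨fun k hk => ?_, ?_, hx.2.2⟩
  · rw [coeff_add, hx.1 k hk, hy.1 k (hk.trans h), add_zero]
  · rw [coeff_add, hx.2.1, hy.1 n h, add_zero]

theorem LT.add_of_eq {x y : LaurentSeries F} {n : ℤ} {a b : F} (hx : LT x n a) (hy : LT y n b)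
    (h : a + b ≠ 0) : LT (x + y) n (a + b) := by
  refine ⟨fun k hk => ?_, ?_, h⟩
  · rw [coeff_add, hx.1 k hk, hy.1 k hk, add_zero]
  · rw [coeff_add, hx.2.1, hy.2.1]

theorem LT.neg {x : LaurentSeries F} {n : ℤ} {a : F} (hx : LT x n a) : LT (-x) n (-a) := by
  refine ⟨fun k hk => ?_, ?_, neg_ne_zero.2 hx.2.2⟩
  · rw [coeff_neg, hx.1 k hk, neg_zero]
  · rw [coeff_neg, hx.2.1]

theorem LT_single {n : ℤ} {a : F} (ha : a ≠ 0) : LT (single n a) n a :=
  ⟨fun _ hm => coeff_single_of_ne hm.ne, coeff_single_same _ _, ha⟩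

theorem LT_C {a : F} (ha : a ≠ 0) : LT (C a : LaurentSeries F) 0 a := LT_single ha

theorem LT_one : LT (1 : LaurentSeries F) 0 1 := LT_C one_ne_zero

theorem LT.inj {x : LaurentSeries F} {n m : ℤ} {a b : F} (h : LT x n a) (h' : LT x m b) :
    n = m ∧ a = b := by
  constructor
  · rw [← h.order, ← h'.order]
  · rw [← h.lc, ← h'.lc]

theorem LT.pow {x : LaurentSeries F} {n : ℤ} {a : F} (hx : LT x n a) (k : ℕ) :
    LT (x ^ k) (k * n) (a ^ k) := by
  induction k with
  | zero => simpa using LT_one
  | succ k ih =>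
    have h := ih.mul hx
    rw [pow_succ, pow_succ]
    convert h using 1
    push_cast
    ring

theorem LT.prod {ι : Type*} (s : Finset ι) {x : ι → LaurentSeries F} {n : ι → ℤ} {a : ι → F}
    (h : ∀ i ∈ s, LT (x i) (n i) (a i)) : LT (∏ i ∈ s, x i) (∑ i ∈ s, n i) (∏ i ∈ s, a i) := by
  classical
  induction s using Finset.induction_on with
  | empty => simpa using LT_one
  | insert i s hi ih =>
    rw [Finset.prod_insert hi, Finset.sum_insert hi, Finset.prod_insert hi]
    exact (h i (Finset.mem_insert_self _ _)).mul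
      (ih fun j hj => h j (Finset.mem_insert_of_mem hj))

/-- A Laurent series with an even order whose leading coefficient is a square is a square. -/
theorem exists_sqrt (h2 : (2 : F) ≠ 0) {p : LaurentSeries F} {k : ℤ} {e : F}
    (hp : LT p (2 * k) (e ^ 2)) : ∃ w, w * w = p ∧ LT w k e := by
  have he : e ≠ 0 := by
    intro h
    exact hp.2.2 (by rw [h]; ring)
  -- normalised power series
  have h1 := LaurentSeries.single_order_mul_powerSeriesPart p
  rw [hp.order] at h1
  have hc : PowerSeries.constantCoeff (LaurentSeries.powerSeriesPart p) = e ^ 2 := by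
    rw [← PowerSeries.coeff_zero_eq_constantCoeff_apply, LaurentSeries.powerSeriesPart_coeff,
      hp.order]
    simpa using hp.2.1
  obtain ⟨s, hs, hs1⟩ := exists_sqrt_ps h2 (PowerSeries.C (e ^ 2)⁻¹ *
    LaurentSeries.powerSeriesPart p) (by
      rw [map_mul, hc, PowerSeries.constantCoeff_C, inv_mul_cancel₀ (pow_ne_zero _ he)])
  have hsl : LT ((s : PowerSeries F) : LaurentSeries F) 0 1 := by
    refine ⟨fun m hm => ?_, ?_, one_ne_zero⟩
    · rw [PowerSeries.coeff_coe]
      simp [hm]
    · have := LaurentSeries.coeff_coe_powerSeries s 0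
      rw [PowerSeries.coeff_zero_eq_constantCoeff_apply, hs1] at this
      exact this
  have hs' : ((s : PowerSeries F) : LaurentSeries F) * ((s : PowerSeries F) : LaurentSeries F) =
      C (e ^ 2)⁻¹ * ((LaurentSeries.powerSeriesPart p : PowerSeries F) : LaurentSeries F) := by
    rw [← PowerSeries.coe_C, ← PowerSeries.coe_mul, ← PowerSeries.coe_mul, hs]
  refine ⟨single k e * ((s : PowerSeries F) : LaurentSeries F), ?_, ?_⟩
  · rw [mul_mul_mul_comm, hs', single_mul_single]
    conv_rhs => rw [← h1]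
    rw [← mul_assoc, C_apply, single_mul_single]
    congr 3
    · ring
    · field_simp
  · have h := (LT_single he (n := k)).mul hsl
    rwa [add_zero, mul_one] at h

theorem sqrt_unique (h2 : (2 : F) ≠ 0) {w w' : LaurentSeries F} {n m : ℤ} {e : F}
    (h : w * w = w' * w') (hw : LT w n e) (hw' : LT w' m e) : w = w' := by
  rcases mul_self_eq_mul_self_iff.1 h with h | h
  · exact h
  · exfalso
    rw [h] at hw
    have h1 := (hw.inj hw'.neg).2
    have h3 : 2 * e = 0 := by linear_combination h1
    exact hw.2.2 ((mul_eq_zero.1 h3).resolve_left h2)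

/-! ### units -/

/-- The order of a nonzero series. -/
noncomputable def oo (x : (LaurentSeries F)ˣ) : ℤ := (x : LaurentSeries F).order

/-- The leading coefficient of a nonzero series. -/
noncomputable def ll : (LaurentSeries F)ˣ →* Fˣ where
  toFun x := Units.mk0 (x : LaurentSeries F).leadingCoeff (leadingCoeff_ne_zero.2 x.ne_zero)
  map_one' := Units.ext (by simp)
  map_mul' x y := Units.ext (by simp)

theorem oo_mul (x y : (LaurentSeries F)ˣ) : oo (x * y) = oo x + oo y :=
  order_mul x.ne_zero y.ne_zero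

theorem oo_one : oo (1 : (LaurentSeries F)ˣ) = 0 := order_one

/-- The order as a homomorphism. -/
noncomputable def ooH : (LaurentSeries F)ˣ →* Multiplicative ℤ where
  toFun x := Multiplicative.ofAdd (oo x)
  map_one' := by rw [oo_one]; rfl
  map_mul' x y := by rw [oo_mul]; rfl

theorem oo_inv (x : (LaurentSeries F)ˣ) : oo x⁻¹ = -oo x := by
  have h := oo_mul x x⁻¹
  rw [mul_inv_cancel, oo_one] at h
  omega

theorem LT_unit (x : (LaurentSeries F)ˣ) : LT (x : LaurentSeries F) (oo x) (ll x : F) :=
  LT_of_ne x.ne_zero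

theorem oo_eq {x : (LaurentSeries F)ˣ} {n : ℤ} {a : F} (h : LT (x : LaurentSeries F) n a) :
    oo x = n := h.order

theorem ll_eq {x : (LaurentSeries F)ˣ} {n : ℤ} {a : Fˣ} (h : LT (x : LaurentSeries F) n a) :
    ll x = a := Units.ext h.lc

/-- The tame symbol. -/
noncomputable def tame (x y : (LaurentSeries F)ˣ) : Fˣ :=
  (-1) ^ (oo x * oo y) * (ll x ^ oo y * (ll y ^ oo x)⁻¹)

theorem tame_mul_left (x x' y : (LaurentSeries F)ˣ) : tame (x * x') y = tame x y * tame x' y := by
  unfold tame
  rw [oo_mul, map_mul, add_mul, zpow_add, mul_zpow, zpow_add, mul_inv]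
  simp only [mul_assoc, mul_left_comm]

theorem tame_mul_right (x y y' : (LaurentSeries F)ˣ) :
    tame x (y * y') = tame x y * tame x y' := by
  unfold tame
  rw [oo_mul, map_mul, mul_add, zpow_add, mul_zpow, zpow_add, mul_inv]
  simp only [mul_assoc, mul_left_comm]

theorem neg_one_zpow_even {n : ℤ} (h : Even n) : (-1 : Fˣ) ^ n = 1 := Even.neg_one_zpow h

theorem tame_steinberg {x y : (LaurentSeries F)ˣ}
    (h : (x : LaurentSeries F) + (y : LaurentSeries F) = 1) : tame x y = 1 := by
  have hx := LT_unit x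
  have hy := LT_unit y
  have key : ∀ {x y : (LaurentSeries F)ˣ}, (x : LaurentSeries F) + (y : LaurentSeries F) = 1 →
      0 < oo x → oo y = 0 ∧ ll y = 1 := by
    intro x y h hpos
    have h1 : (y : LaurentSeries F) = 1 + -x := by rw [← h]; ring
    have h2 := LT_one.add_of_lt (LT_unit x).neg hpos
    rw [← h1] at h2
    exact ⟨oo_eq h2, ll_eq (by simpa using h2)⟩
  rcases lt_trichotomy 0 (oo x) with hpos | hzero | hneg
  · obtain ⟨h1, h2⟩ := key h hpos
    unfold tame
    rw [h1, h2]
    simp
  · rcases lt_trichotomy 0 (oo y) with hpos | hzero' | hneg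
    · obtain ⟨h1, h2⟩ := key (by rw [add_comm]; exact h) hpos
      unfold tame
      rw [h1, h2]
      simp
    · unfold tame
      rw [← hzero, ← hzero']
      simp
    · exfalso
      have h1 : LT (1 : LaurentSeries F) (oo y) (ll y : F) := by
        rw [← h, add_comm]
        exact hy.add_of_lt hx (by omega)
      have := (h1.inj LT_one).1
      omega
  · have h1 : (y : LaurentSeries F) = -x + 1 := by rw [← h]; ring
    have h2 := hx.neg.add_of_lt LT_one hneg
    rw [← h1] at h2
    have h3 : oo y = oo x := oo_eq h2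
    have h4 : ll y = -1 * ll x := by
      apply ll_eq (n := oo x)
      simpa using h2
    unfold tame
    rw [h3, h4, mul_zpow, mul_inv, mul_left_comm (ll x ^ oo x), mul_inv_cancel, mul_one,
      ← zpow_neg, ← zpow_add]
    apply neg_one_zpow_even
    have : oo x * oo x + -oo x = oo x * (oo x - 1) := by ring
    rw [this]
    exact Int.even_mul_pred_self _

end Pool.Agent.N171
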