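import Mathlib
import Pool.Agent.N171.Lau

/-!
# Families of places and the product of the tame symbols
-/

namespace Pool.Agent.N171

open HahnSeries

/-- A family of places of the field `L`, given by embeddings in the field of Laurent series. -/
structure Places (L F Pl : Type*) [Field L] [Field F] where
  /-- the expansions -/
  φ : Pl → (L →+* LaurentSeries F)
  fin : ∀ u : Lˣ, {P | oo (Units.map (φ P : L →* LaurentSeries F) u) ≠ 0}.Finite

namespace Places

variable {L F Pl : Type*} [Field L] [Field F] (p : Places L F Pl)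

/-- The expansion of a nonzero function. -/
noncomputable def ex (P : Pl) : Lˣ →* (LaurentSeries F)ˣ := Units.map (p.φ P : L →* LaurentSeries F)

theorem ex_val (P : Pl) (u : Lˣ) : ((p.ex P u : (LaurentSeries F)ˣ) : LaurentSeries F) = p.φ P u :=
  rfl

/-- The order of a function at a place. -/
noncomputable def o (P : Pl) (u : Lˣ) : ℤ := oo (p.ex P u)

/-- The leading coefficient of a function at a place. -/
noncomputable def l (P : Pl) : Lˣ →* Fˣ := ll.comp (p.ex P)

theorem o_mul (P : Pl) (u w : Lˣ) : p.o P (u * w) = p.o P u + p.o P w := by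
  unfold o
  rw [map_mul, oo_mul]

theorem o_inv (P : Pl) (u : Lˣ) : p.o P u⁻¹ = -p.o P u := by
  unfold o
  rw [map_inv, oo_inv]

theorem o_one (P : Pl) : p.o P 1 = 0 := by
  unfold o
  rw [map_one, oo_one]

theorem o_eq {P : Pl} {u : Lˣ} {n : ℤ} {a : F} (h : LT (p.φ P u) n a) : p.o P u = n := h.order

theorem l_eq {P : Pl} {u : Lˣ} {n : ℤ} {a : Fˣ} (h : LT (p.φ P u) n a) : p.l P u = a :=
  Units.ext h.lc

theorem l_val {P : Pl} {u : Lˣ} {n : ℤ} {a : F} (h : LT (p.φ P u) n a) : (p.l P u : F) = a :=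
  h.lc

theorem LT_ex (P : Pl) (u : Lˣ) : LT (p.φ P u) (p.o P u) (p.l P u : F) := LT_unit (p.ex P u)

/-- The divisor of a function. -/
noncomputable def dv (u : Lˣ) : Pl →₀ ℤ :=
  Finsupp.ofSupportFinite (fun P => p.o P u) (p.fin u)

theorem dv_apply (u : Lˣ) (P : Pl) : p.dv u P = p.o P u := rfl

theorem dv_mul (u w : Lˣ) : p.dv (u * w) = p.dv u + p.dv w := by
  ext P
  rw [Finsupp.add_apply, dv_apply, dv_apply, dv_apply, o_mul]

theorem dv_inv (u : Lˣ) : p.dv u⁻¹ = -p.dv u := by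
  ext P
  rw [Finsupp.neg_apply, dv_apply, dv_apply, o_inv]

theorem dv_one : p.dv 1 = 0 := by
  ext P
  rw [dv_apply, o_one, Finsupp.zero_apply]

/-- The divisor as a homomorphism. -/
noncomputable def dvH : Additive Lˣ →+ (Pl →₀ ℤ) where
  toFun u := p.dv u.toMul
  map_zero' := p.dv_one
  map_add' u w := p.dv_mul u.toMul w.toMul

theorem dv_pow (u : Lˣ) (n : ℕ) : p.dv (u ^ n) = n • p.dv u := p.dvH.map_nsmul n (Additive.ofMul u)

theorem dv_zpow (u : Lˣ) (n : ℤ) : p.dv (u ^ n) = n • p.dv u := p.dvH.map_zsmul n (Additive.ofMul u)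

/-- The value of a function at a divisor, by means of the leading coefficients. -/
noncomputable def ev (u : Lˣ) (D : Pl →₀ ℤ) : Fˣ := D.prod fun P n => p.l P u ^ n

theorem ev_add (u : Lˣ) (D D' : Pl →₀ ℤ) : p.ev u (D + D') = p.ev u D * p.ev u D' := by
  classical
  exact Finsupp.prod_add_index' (fun _ => zpow_zero _) (fun _ _ _ => zpow_add _ _ _)

theorem ev_zero (u : Lˣ) : p.ev u 0 = 1 := Finsupp.prod_zero_index

theorem ev_neg (u : Lˣ) (D : Pl →₀ ℤ) : p.ev u (-D) = (p.ev u D)⁻¹ := by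
  rw [eq_inv_iff_mul_eq_one, ← ev_add, neg_add_cancel, ev_zero]

theorem ev_sub (u : Lˣ) (D D' : Pl →₀ ℤ) : p.ev u (D - D') = p.ev u D * (p.ev u D')⁻¹ := by
  rw [sub_eq_add_neg, ev_add, ev_neg]

theorem ev_nsmul (u : Lˣ) (n : ℕ) (D : Pl →₀ ℤ) : p.ev u (n • D) = p.ev u D ^ n := by
  induction n with
  | zero => rw [zero_smul, ev_zero, pow_zero]
  | succ n ih => rw [succ_nsmul, ev_add, ih, pow_succ]

theorem ev_mul (u w : Lˣ) (D : Pl →₀ ℤ) : p.ev (u * w) D = p.ev u D * p.ev w D := by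
  unfold ev Finsupp.prod
  rw [← Finset.prod_mul_distrib]
  refine Finset.prod_congr rfl fun P _ => ?_
  dsimp only
  rw [map_mul, mul_zpow]

/-- The value at a divisor as a homomorphism. -/
noncomputable def evH (D : Pl →₀ ℤ) : Lˣ →* Fˣ where
  toFun u := p.ev u D
  map_one' := by
    unfold ev Finsupp.prod
    refine Finset.prod_eq_one fun P _ => ?_
    dsimp only
    rw [map_one, one_zpow]
  map_mul' u w := p.ev_mul u w D

theorem ev_one (D : Pl →₀ ℤ) : p.ev 1 D = 1 := (p.evH D).map_one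

theorem ev_inv (u : Lˣ) (D : Pl →₀ ℤ) : p.ev u⁻¹ D = (p.ev u D)⁻¹ := (p.evH D).map_inv u

theorem ev_pow (u : Lˣ) (n : ℕ) (D : Pl →₀ ℤ) : p.ev (u ^ n) D = p.ev u D ^ n :=
  (p.evH D).map_pow u n

theorem ev_single (u : Lˣ) (P : Pl) (n : ℤ) : p.ev u (Finsupp.single P n) = p.l P u ^ n :=
  Finsupp.prod_single_index (zpow_zero _)

theorem ev_eq (u : Lˣ) (D : Pl →₀ ℤ) (T : Finset Pl) (h : D.support ⊆ T) :
    p.ev u D = ∏ P ∈ T, p.l P u ^ D P :=
  Finsupp.prod_of_support_subset D h _ fun _ _ => zpow_zero _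

/-- The local symbol. -/
noncomputable def t (P : Pl) (u w : Lˣ) : Fˣ := tame (p.ex P u) (p.ex P w)

theorem t_def (P : Pl) (u w : Lˣ) : p.t P u w =
    (-1) ^ (p.o P u * p.o P w) * (p.l P u ^ p.o P w * (p.l P w ^ p.o P u)⁻¹) := rfl

theorem t_eq_one {P : Pl} {u w : Lˣ} (hu : p.o P u = 0) (hw : p.o P w = 0) : p.t P u w = 1 := by
  rw [t_def, hu, hw]
  simp

open Classical in
/-- The product of the local symbols. -/
noncomputable def S (u w : Lˣ) : Fˣ := ∏ P ∈ (p.dv u).support ∪ (p.dv w).support, p.t P u w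

theorem S_eq (u w : Lˣ) (T : Finset Pl) (hu : (p.dv u).support ⊆ T) (hw : (p.dv w).support ⊆ T) :
    p.S u w = ∏ P ∈ T, p.t P u w := by
  classical
  unfold S
  refine Finset.prod_subset (Finset.union_subset hu hw) fun P _ hP => ?_
  rw [Finset.mem_union, not_or, Finsupp.notMem_support_iff, Finsupp.notMem_support_iff] at hP
  exact p.t_eq_one hP.1 hP.2

theorem S_mul_left (u u' w : Lˣ) : p.S (u * u') w = p.S u w * p.S u' w := by
  classical
  let T := (p.dv u).support ∪ (p.dv u').support ∪ (p.dv w).support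
  have h1 : (p.dv u).support ⊆ T := fun x hx => by simp only [T, Finset.mem_union]; tauto
  have h2 : (p.dv u').support ⊆ T := fun x hx => by simp only [T, Finset.mem_union]; tauto
  have h3 : (p.dv w).support ⊆ T := fun x hx => by simp only [T, Finset.mem_union]; tauto
  have h4 : (p.dv (u * u')).support ⊆ T := by
    rw [dv_mul]
    exact Finsupp.support_add.trans (Finset.union_subset h1 h2)
  rw [p.S_eq _ _ T h4 h3, p.S_eq _ _ T h1 h3, p.S_eq _ _ T h2 h3, ← Finset.prod_mul_distrib]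
  refine Finset.prod_congr rfl fun P _ => ?_
  unfold t
  rw [map_mul, tame_mul_left]

theorem t_symm (P : Pl) (u w : Lˣ) : p.t P w u = (p.t P u w)⁻¹ := by
  rw [t_def, t_def, mul_inv, mul_inv, inv_inv, mul_comm (p.o P w)]
  congr 1
  · rw [← zpow_neg]
    rcases Int.even_or_odd (p.o P u * p.o P w) with h | h
    · rw [Even.neg_one_zpow h, Even.neg_one_zpow h.neg]
    · rw [Odd.neg_one_zpow h, Odd.neg_one_zpow h.neg]
  · rw [mul_comm]

theorem S_symm (u w : Lˣ) : p.S w u = (p.S u w)⁻¹ := by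
  classical
  let T := (p.dv u).support ∪ (p.dv w).support
  have h1 : (p.dv u).support ⊆ T := Finset.subset_union_left
  have h3 : (p.dv w).support ⊆ T := Finset.subset_union_right
  rw [p.S_eq _ _ T h3 h1, p.S_eq _ _ T h1 h3, ← Finset.prod_inv_distrib]
  exact Finset.prod_congr rfl fun P _ => p.t_symm P u w

theorem S_mul_right (u w w' : Lˣ) : p.S u (w * w') = p.S u w * p.S u w' := by
  rw [p.S_symm (w * w') u, S_mul_left, mul_inv, ← p.S_symm w u, ← p.S_symm w' u]

/-- The symbol as a homomorphism. -/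
noncomputable def SH (w : Lˣ) : Lˣ →* Fˣ where
  toFun u := p.S u w
  map_one' := by
    have h := p.S_mul_left 1 1 w
    rw [mul_one] at h
    exact left_eq_mul.1 h
  map_mul' u u' := p.S_mul_left u u' w

theorem S_one_left (w : Lˣ) : p.S 1 w = 1 := (p.SH w).map_one

theorem S_inv_left (u w : Lˣ) : p.S u⁻¹ w = (p.S u w)⁻¹ := (p.SH w).map_inv u

theorem S_one_right (u : Lˣ) : p.S u 1 = 1 := by
  rw [S_symm, S_one_left, inv_one]

theorem S_inv_right (u w : Lˣ) : p.S u w⁻¹ = (p.S u w)⁻¹ := by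
  rw [S_symm, S_inv_left, S_symm, inv_inv]

theorem S_steinberg {u w : Lˣ} (h : (u : L) + w = 1) : p.S u w = 1 := by
  classical
  unfold S
  refine Finset.prod_eq_one fun P _ => ?_
  apply tame_steinberg
  rw [ex_val, ex_val, ← map_add, h, map_one]

/-- Reciprocity in terms of values at divisors. -/
theorem S_ev (u w : Lˣ) (h : ∀ P, Even (p.o P u * p.o P w)) :
    p.S u w = p.ev u (p.dv w) * (p.ev w (p.dv u))⁻¹ := by
  classical
  let T := (p.dv u).support ∪ (p.dv w).support
  have h1 : (p.dv u).support ⊆ T := Finset.subset_union_left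
  have h3 : (p.dv w).support ⊆ T := Finset.subset_union_right
  rw [p.S_eq _ _ T h1 h3, p.ev_eq _ _ T h3, p.ev_eq _ _ T h1, ← Finset.prod_inv_distrib,
    ← Finset.prod_mul_distrib]
  refine Finset.prod_congr rfl fun P _ => ?_
  rw [t_def, Even.neg_one_zpow (h P), one_mul, dv_apply, dv_apply]

/-- The degree of a divisor. -/
noncomputable def deg : (Pl →₀ ℤ) →+ ℤ := Finsupp.liftAddHom fun _ => AddMonoidHom.id ℤ

theorem deg_single (P : Pl) (n : ℤ) : deg (Finsupp.single P n) = n := by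
  simp [deg]

theorem deg_eq (D : Pl →₀ ℤ) (T : Finset Pl) (h : D.support ⊆ T) : deg D = ∑ P ∈ T, D P := by
  unfold deg
  rw [Finsupp.liftAddHom_apply, Finsupp.sum_of_support_subset D h _ (fun _ _ => rfl)]
  rfl

/-- The value of a constant at a divisor of degree zero is one. -/
theorem ev_const {c : Lˣ} {a : Fˣ} (hc : ∀ P, p.l P c = a) (D : Pl →₀ ℤ) :
    p.ev c D = a ^ deg D := by
  rw [p.ev_eq c D _ subset_rfl, deg_eq D _ subset_rfl]
  have h : ∀ T : Finset Pl, ∏ P ∈ T, p.l P c ^ D P = a ^ ∑ P ∈ T, D P := by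
    classical
    intro T
    induction T using Finset.induction_on with
    | empty => simp
    | insert P T hP ih => rw [Finset.prod_insert hP, Finset.sum_insert hP, ih, hc, zpow_add]
  exact h _

end Places

end Pool.Agent.N171
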