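import Mathlib
import Pool.Agent.N171.Plc

/-!
# The projective line
-/

namespace Pool.Agent.N171

open HahnSeries Polynomial

variable {F : Type*} [Field F]

theorem algebraMap_ne_zero {q : F[X]} (hq : q ≠ 0) : algebraMap F[X] (RatFunc F) q ≠ 0 :=
  (map_ne_zero_iff _ (IsFractionRing.injective F[X] (RatFunc F))).2 hq

/-- A nonzero polynomial as a rational function. -/
noncomputable def pU (q : F[X]) (hq : q ≠ 0) : (RatFunc F)ˣ :=
  Units.mk0 (algebraMap F[X] (RatFunc F) q) (algebraMap_ne_zero hq)

/-- The nonzero constants. -/
noncomputable def cU (a : Fˣ) : (RatFunc F)ˣ :=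
  pU (Polynomial.C (a : F)) (Polynomial.C_ne_zero.2 a.ne_zero)

/-- The function `x - b`. -/
noncomputable def xU (b : F) : (RatFunc F)ˣ := pU (X - Polynomial.C b) (X_sub_C_ne_zero b)

theorem pU_mul (q r : F[X]) (hq : q ≠ 0) (hr : r ≠ 0) :
    pU (q * r) (mul_ne_zero hq hr) = pU q hq * pU r hr := Units.ext (by simp [pU])

theorem gens_top [IsAlgClosed F] :
    Subgroup.closure (Set.range (cU (F := F)) ∪ Set.range (xU (F := F))) = ⊤ := by
  rw [eq_top_iff]
  rintro u -
  set H := Subgroup.closure (Set.range (cU (F := F)) ∪ Set.range (xU (F := F)))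
  have h1 : ∀ s : Multiset F, ∀ h, pU (s.map (fun b => X - Polynomial.C b)).prod h ∈ H := by
    intro s
    induction s using Multiset.induction_on with
    | empty =>
      intro h
      have : pU (Multiset.map (fun b : F => X - Polynomial.C b) 0).prod h = 1 :=
        Units.ext (by simp [pU])
      rw [this]
      exact one_mem _
    | cons b s ih =>
      intro h
      have h0 : (s.map (fun b => X - Polynomial.C b)).prod ≠ 0 := by
        intro h0
        apply h
        rw [Multiset.map_cons, Multiset.prod_cons, h0, mul_zero]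
      have : pU (Multiset.map (fun b : F => X - Polynomial.C b) (b ::ₘ s)).prod h =
          xU b * pU _ h0 := Units.ext (by simp [pU, xU])
      rw [this]
      exact mul_mem (Subgroup.subset_closure (Or.inr ⟨b, rfl⟩)) (ih h0)
  have h2 : ∀ q : F[X], ∀ hq, pU q hq ∈ H := by
    intro q hq
    have h3 := (IsAlgClosed.splits q).eq_prod_roots
    have h4 : (q.roots.map (fun b => X - Polynomial.C b)).prod ≠ 0 := by
      intro h0
      rw [h0, mul_zero] at h3
      exact hq h3
    have h5 : q.leadingCoeff ≠ 0 := leadingCoeff_ne_zero.2 hq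
    have h6 : pU q hq = cU (Units.mk0 _ h5) * pU _ h4 := by
      apply Units.ext
      change algebraMap F[X] (RatFunc F) q = algebraMap F[X] (RatFunc F) _ *
        algebraMap F[X] (RatFunc F) _
      rw [← map_mul]
      exact congrArg _ h3
    rw [h6]
    exact mul_mem (Subgroup.subset_closure (Or.inl ⟨_, rfl⟩)) (h1 _ _)
  have h3 : u = pU u.1.num (RatFunc.num_ne_zero u.ne_zero) *
      (pU u.1.denom (RatFunc.denom_ne_zero _))⁻¹ := by
    apply Units.ext
    rw [Units.val_mul, Units.val_inv_eq_inv_val, ← div_eq_mul_inv]
    exact (RatFunc.num_div_denom u.1).symm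
  rw [h3]
  exact mul_mem (h2 _ _) (inv_mem (h2 _ _))

theorem gens_induction [IsAlgClosed F] {P : (RatFunc F)ˣ → Prop} (hc : ∀ a, P (cU a))
    (hx : ∀ b, P (xU b)) (hmul : ∀ u v, P u → P v → P (u * v)) (hinv : ∀ u, P u → P u⁻¹)
    (u : (RatFunc F)ˣ) : P u := by
  have h : u ∈ Subgroup.closure (Set.range (cU (F := F)) ∪ Set.range (xU (F := F))) := by
    rw [gens_top]
    trivial
  induction h using Subgroup.closure_induction with
  | mem x hx' =>
    rcases hx' with ⟨a, rfl⟩ | ⟨b, rfl⟩
    · exact hc a
    · exact hx b
  | one =>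
    have := hmul _ _ (hc 1) (hinv _ (hc 1))
    rwa [mul_inv_cancel] at this
  | mul x y _ _ hx hy => exact hmul _ _ hx hy
  | inv x _ hx => exact hinv _ hx

theorem eval_ne_zero [IsAlgClosed F] {A : Type*} [CommRing A] [IsDomain A] (g : F →+* A)
    (hg : Function.Injective g) {z : A}
    (hz : ∀ a, z ≠ g a) {q : F[X]} (hq : q ≠ 0) : q.eval₂ g z ≠ 0 := by
  rw [(IsAlgClosed.splits q).eq_prod_roots, eval₂_mul, eval₂_C]
  apply mul_ne_zero
  · rw [Ne, map_eq_zero_iff g hg]
    exact leadingCoeff_ne_zero.2 hq
  · have h : ∀ s : Multiset F, eval₂ g z (s.map (fun b => X - Polynomial.C b)).prod ≠ 0 := by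
      intro s
      induction s using Multiset.induction_on with
      | empty => simp
      | cons b s ih =>
        rw [Multiset.map_cons, Multiset.prod_cons, eval₂_mul, eval₂_sub, eval₂_X, eval₂_C]
        exact mul_ne_zero (sub_ne_zero.2 (hz b)) ih
    exact h _

/-- The homomorphism from the rational functions that maps `x` to `z`. -/
noncomputable def eH [IsAlgClosed F] (z : LaurentSeries F) (hz : ∀ a, z ≠ HahnSeries.C a) :
    RatFunc F →+* LaurentSeries F :=
  IsFractionRing.lift (A := F[X]) (g := eval₂RingHom HahnSeries.C z) (by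
    rw [injective_iff_map_eq_zero]
    intro q hq
    by_contra h
    exact eval_ne_zero (HahnSeries.C : F →+* LaurentSeries F) HahnSeries.C_injective hz h hq)

theorem eH_pol [IsAlgClosed F] (z : LaurentSeries F) (hz : ∀ a, z ≠ HahnSeries.C a) (q : F[X]) :
    eH z hz (algebraMap F[X] (RatFunc F) q) = q.eval₂ HahnSeries.C z :=
  IsFractionRing.lift_algebraMap _ _

theorem eH_cU [IsAlgClosed F] (z : LaurentSeries F) (hz : ∀ a, z ≠ HahnSeries.C a) (a : Fˣ) :
    eH z hz (cU a) = HahnSeries.C (a : F) := by
  change eH z hz (algebraMap F[X] (RatFunc F) _) = _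
  rw [eH_pol, eval₂_C]

theorem eH_xU [IsAlgClosed F] (z : LaurentSeries F) (hz : ∀ a, z ≠ HahnSeries.C a) (b : F) :
    eH z hz (xU b) = z - HahnSeries.C b := by
  change eH z hz (algebraMap F[X] (RatFunc F) _) = _
  rw [eH_pol, eval₂_sub, eval₂_X, eval₂_C]

/-- Ring homomorphisms from the rational functions are determined by their values at constants and
at `x`. -/
theorem ratHom_ext {A : Type*} [Field A] {g h : RatFunc F →+* A}
    (hC : ∀ a : F, g (algebraMap F[X] (RatFunc F) (Polynomial.C a)) =
      h (algebraMap F[X] (RatFunc F) (Polynomial.C a)))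
    (hX : g (algebraMap F[X] (RatFunc F) X) = h (algebraMap F[X] (RatFunc F) X)) : g = h := by
  apply IsFractionRing.injective_comp_algebraMap (A := F[X])
  exact Polynomial.ringHom_ext hC hX

/-- The coordinate at a point of the line. -/
noncomputable def zL : Option F → LaurentSeries F
  | none => single (-1) 1
  | some a => HahnSeries.C a + single 1 1

theorem zL_none_sub (b : F) : LT (zL (none : Option F) - HahnSeries.C b) (-1) 1 := by
  by_cases hb : b = 0
  · subst hb
    rw [map_zero, sub_zero]
    exact LT_single one_ne_zero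
  · rw [sub_eq_add_neg]
    exact (LT_single one_ne_zero).add_of_lt (LT_C hb).neg (by norm_num)

theorem zL_some_sub {a b : F} (h : a ≠ b) : LT (zL (some a) - HahnSeries.C b) 0 (a - b) := by
  have h1 : zL (some a) - HahnSeries.C b = HahnSeries.C (a - b) + single 1 1 := by
    rw [zL, map_sub]
    ring
  rw [h1]
  exact (LT_C (sub_ne_zero.2 h)).add_of_lt (LT_single one_ne_zero) (by norm_num)

theorem zL_some_self (a : F) : LT (zL (some a) - HahnSeries.C a) 1 1 := by
  have h1 : zL (some a) - HahnSeries.C a = single 1 1 := by
    rw [zL]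
    ring
  rw [h1]
  exact LT_single one_ne_zero

theorem zL_ne (P : Option F) (b : F) : zL P ≠ HahnSeries.C b := by
  rw [← sub_ne_zero]
  cases P with
  | none => exact (zL_none_sub b).ne_zero
  | some a =>
    by_cases h : a = b
    · subst h
      exact (zL_some_self a).ne_zero
    · exact (zL_some_sub h).ne_zero

variable [IsAlgClosed F]

variable (F) in
/-- The places of the rational function field. -/
noncomputable def line : Places (RatFunc F) F (Option F) where
  φ P := eH (zL P) (zL_ne P)
  fin u := by
    induction u using gens_induction with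
    | hc a =>
      convert Set.finite_empty
      ext P
      simp only [Set.mem_ofPred_eq, Set.mem_empty_iff_false, iff_false, not_not]
      apply oo_eq (a := (a : F))
      rw [Units.coe_map]
      change LT (eH (zL P) (zL_ne P) (cU a : RatFunc F)) 0 (a : F)
      rw [eH_cU]
      exact LT_C a.ne_zero
    | hx b =>
      apply Set.Finite.subset (Set.toFinite {none, some b})
      intro P hP
      by_contra h
      apply hP
      cases P with
      | none => exact absurd (Or.inl rfl) h
      | some a =>
        have hab : a ≠ b := by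
          rintro rfl
          exact h (Or.inr rfl)
        apply oo_eq (a := a - b)
        rw [Units.coe_map]
        change LT (eH (zL (some a)) (zL_ne (some a)) (xU b : RatFunc F)) 0 (a - b)
        rw [eH_xU]
        exact zL_some_sub hab
    | hmul u v hu hv =>
      apply (hu.union hv).subset
      intro P hP
      by_contra h
      rw [Set.mem_union, not_or] at h
      simp only [Set.mem_ofPred_eq, not_not] at h hP
      rw [map_mul, oo_mul, h.1, h.2, add_zero] at hP
      exact hP rfl
    | hinv u hu =>
      apply hu.subset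
      intro P hP hP'
      apply hP
      rw [map_inv, oo_inv, hP', neg_zero]

theorem line_cU (P : Option F) (a : Fˣ) : LT ((line F).φ P (cU a)) 0 (a : F) := by
  change LT (eH (zL P) (zL_ne P) (cU a : RatFunc F)) 0 (a : F)
  rw [eH_cU]
  exact LT_C a.ne_zero

theorem line_xU (P : Option F) (b : F) : (line F).φ P (xU b) = zL P - HahnSeries.C b :=
  eH_xU (zL P) (zL_ne P) b

theorem dv_cU (a : Fˣ) : (line F).dv (cU a) = 0 := by
  ext P
  rw [Places.dv_apply, Places.o_eq _ (line_cU P a), Finsupp.zero_apply]

theorem dv_xU (b : F) : (line F).dv (xU b) = Finsupp.single (some b) 1 + Finsupp.single none (-1) := by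
  classical
  ext P
  rw [Places.dv_apply, Finsupp.add_apply, Finsupp.single_apply, Finsupp.single_apply]
  cases P with
  | none =>
    rw [Places.o_eq (a := 1) (n := -1)]
    · simp
    · rw [line_xU]
      exact zL_none_sub b
  | some a =>
    by_cases h : a = b
    · subst h
      rw [Places.o_eq (a := 1) (n := 1)]
      · simp
      · rw [line_xU]
        exact zL_some_self a
    · rw [Places.o_eq (a := a - b) (n := 0)]
      · simp [Ne.symm h]
      · rw [line_xU]
        exact zL_some_sub h

/-- Principal divisors of the line have degree zero. -/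
theorem deg_line (u : (RatFunc F)ˣ) : Places.deg ((line F).dv u) = 0 := by
  induction u using gens_induction with
  | hc a => rw [dv_cU, map_zero]
  | hx b => rw [dv_xU, map_add, Places.deg_single, Places.deg_single]; norm_num
  | hmul u v hu hv => rw [Places.dv_mul, map_add, hu, hv, add_zero]
  | hinv u hu => rw [Places.dv_inv, map_neg, hu, neg_zero]

theorem S_cU (a : Fˣ) (u : (RatFunc F)ˣ) : (line F).S (cU a) u = 1 := by
  rw [Places.S_ev, dv_cU, Places.ev_zero, inv_one, mul_one,
    (line F).ev_const (a := a) (fun P => Units.ext ((line F).l_val (line_cU P a))), deg_line,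
    zpow_zero]
  intro P
  rw [Places.o_eq _ (line_cU P a), zero_mul]
  exact Even.zero

theorem S_xU (a b : F) : (line F).S (xU a) (xU b) = 1 := by
  classical
  have hn : ∀ b : F, (line F).o none (xU b) = -1 ∧ (line F).l none (xU b) = 1 := by
    intro b
    have h := zL_none_sub b
    rw [← line_xU] at h
    exact ⟨(line F).o_eq h, (line F).l_eq (by simpa using h)⟩
  have hs : ∀ b : F, (line F).o (some b) (xU b) = 1 ∧ (line F).l (some b) (xU b) = 1 := by
    intro b
    have h := zL_some_self b
    rw [← line_xU] at h
    exact ⟨(line F).o_eq h, (line F).l_eq (by simpa using h)⟩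
  by_cases hab : a = b
  · subst hab
    rw [(line F).S_eq _ _ {none, some a}, Finset.prod_pair (by simp), Places.t_def, Places.t_def,
      (hn a).1, (hn a).2, (hs a).1, (hs a).2]
    · simp
    all_goals
      intro P hP
      rw [Finsupp.mem_support_iff, dv_xU, Finsupp.add_apply, Finsupp.single_apply,
        Finsupp.single_apply] at hP
      rw [Finset.mem_insert, Finset.mem_singleton]
      by_contra h
      rw [not_or] at h
      rw [if_neg (Ne.symm h.1), if_neg (Ne.symm h.2)] at hP
      exact hP rfl
  · have h0 : a - b ≠ 0 := sub_ne_zero.2 hab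
    have hs' : ∀ a b : F, ∀ h : a - b ≠ 0, (line F).o (some a) (xU b) = 0 ∧
        (line F).l (some a) (xU b) = Units.mk0 (a - b) h := by
      intro a b h'
      have h := zL_some_sub (sub_ne_zero.1 h')
      rw [← line_xU] at h
      exact ⟨(line F).o_eq h, (line F).l_eq (a := Units.mk0 (a - b) h') h⟩
    have h0' : b - a ≠ 0 := sub_ne_zero.2 (Ne.symm hab)
    rw [(line F).S_eq _ _ {none, some a, some b}, Finset.prod_insert (by simp),
      Finset.prod_pair (by simpa using hab), Places.t_def, Places.t_def, Places.t_def,
      (hn a).1, (hn a).2, (hs a).1, (hs a).2, (hn b).1, (hn b).2, (hs b).1, (hs b).2,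
      (hs' a b h0).1, (hs' a b h0).2, (hs' b a h0').1, (hs' b a h0').2]
    · have : Units.mk0 (b - a) h0' = -Units.mk0 (a - b) h0 := Units.ext (by simp)
      rw [this]
      apply Units.ext
      simp
    all_goals
      intro P hP
      rw [Finsupp.mem_support_iff, dv_xU, Finsupp.add_apply, Finsupp.single_apply,
        Finsupp.single_apply] at hP
      rw [Finset.mem_insert, Finset.mem_insert, Finset.mem_singleton]
      by_contra h
      rw [not_or, not_or] at h
      first
      | rw [if_neg (Ne.symm h.1), if_neg (Ne.symm h.2.1)] at hP; exact hP rfl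
      | rw [if_neg (Ne.symm h.1), if_neg (Ne.symm h.2.2)] at hP; exact hP rfl

/-- Reciprocity on the line. -/
theorem S_line (u w : (RatFunc F)ˣ) : (line F).S u w = 1 := by
  induction u using gens_induction with
  | hc a => exact S_cU a w
  | hx a =>
    induction w using gens_induction with
    | hc b => rw [Places.S_symm, S_cU, inv_one]
    | hx b => exact S_xU a b
    | hmul u v hu hv => rw [Places.S_mul_right, hu, hv, mul_one]
    | hinv u hu => rw [Places.S_inv_right, hu, inv_one]
  | hmul u v hu hv => rw [Places.S_mul_left, hu, hv, mul_one]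
  | hinv u hu => rw [Places.S_inv_left, hu, inv_one]

end Pool.Agent.N171
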