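import Mathlib
import Pool.Agent.N171.Lau

/-!
# The automorphism `t ↦ -t` of the field of Laurent series, and automorphisms of the coefficients
-/

namespace Pool.Agent.N171

open HahnSeries

variable {F : Type*} [Field F]

/-- The coefficients of the series in `c t`. -/
noncomputable def sclF (c : Fˣ) (x : LaurentSeries F) : LaurentSeries F where
  coeff n := ((c ^ n : Fˣ) : F) * x.coeff n
  isPWO_support' := by
    apply x.isPWO_support.mono
    intro n hn hn'
    exact hn (by simp only [hn', mul_zero])

theorem sclF_coeff (c : Fˣ) (x : LaurentSeries F) (n : ℤ) :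
    (sclF c x).coeff n = ((c ^ n : Fˣ) : F) * x.coeff n := rfl

theorem sclF_support (c : Fˣ) (x : LaurentSeries F) : (sclF c x).support = x.support := by
  ext n
  rw [mem_support, mem_support, sclF_coeff]
  constructor
  · intro h h'
    exact h (by rw [h', mul_zero])
  · intro h h'
    exact (mul_eq_zero.1 h').elim (Units.ne_zero _) h

/-- The substitution `t ↦ c t`. -/
noncomputable def scl (c : Fˣ) : LaurentSeries F →+* LaurentSeries F where
  toFun := sclF c
  map_one' := by
    ext n
    rw [sclF_coeff, coeff_one]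
    split_ifs with h
    · subst h
      simp
    · simp
  map_mul' x y := by
    ext n
    rw [sclF_coeff, coeff_mul, coeff_mul, Finset.mul_sum]
    apply Finset.sum_congr
    · ext ij
      simp only [Finset.mem_antidiagonal, sclF_support]
    · intro ij hij
      have h1 := (Finset.mem_antidiagonal.1 hij).2.2
      rw [sclF_coeff, sclF_coeff, ← h1, zpow_add, Units.val_mul]
      ring
  map_zero' := by
    ext n
    rw [sclF_coeff, coeff_zero, mul_zero]
  map_add' x y := by
    ext n
    rw [coeff_add, sclF_coeff, sclF_coeff, sclF_coeff, coeff_add, mul_add]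

theorem scl_coeff (c : Fˣ) (x : LaurentSeries F) (n : ℤ) :
    (scl c x).coeff n = ((c ^ n : Fˣ) : F) * x.coeff n := rfl

theorem scl_single (c : Fˣ) (n : ℤ) (r : F) :
    scl c (single n r) = single n (((c ^ n : Fˣ) : F) * r) := by
  ext m
  rw [scl_coeff, coeff_single, coeff_single]
  split_ifs with h
  · rw [h]
  · rw [mul_zero]

theorem scl_C (c : Fˣ) (r : F) : scl c (C r) = C r := by
  rw [C_apply, scl_single]
  simp

theorem scl_LT (c : Fˣ) {x : LaurentSeries F} {n : ℤ} {a : F} (h : LT x n a) :
    LT (scl c x) n (((c ^ n : Fˣ) : F) * a) := by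
  refine ⟨fun m hm => ?_, ?_, mul_ne_zero (Units.ne_zero _) h.2.2⟩
  · rw [scl_coeff, h.1 m hm, mul_zero]
  · rw [scl_coeff, h.2.1]

/-- The action of a homomorphism on the coefficients. -/
noncomputable def cf {F' : Type*} [Field F'] (σ : F →+* F') :
    LaurentSeries F →+* LaurentSeries F' where
  toFun x := x.map σ
  map_one' := HahnSeries.map_one σ.toMonoidWithZeroHom
  map_mul' _ _ := HahnSeries.map_mul σ.toNonUnitalRingHom
  map_zero' := HahnSeries.map_zero σ.toMonoidWithZeroHom.toZeroHom
  map_add' _ _ := HahnSeries.map_add σ.toAddMonoidHom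

theorem cf_coeff {F' : Type*} [Field F'] (σ : F →+* F') (x : LaurentSeries F) (n : ℤ) :
    (cf σ x).coeff n = σ (x.coeff n) := rfl

theorem cf_single {F' : Type*} [Field F'] (σ : F →+* F') (n : ℤ) (r : F) :
    cf σ (single n r) = single n (σ r) := by
  ext m
  rw [cf_coeff, coeff_single, coeff_single]
  split_ifs with h
  · rfl
  · exact map_zero σ

theorem cf_C {F' : Type*} [Field F'] (σ : F →+* F') (r : F) : cf σ (C r) = C (σ r) :=
  cf_single σ 0 r

theorem cf_LT {F' : Type*} [Field F'] (σ : F →+* F') {x : LaurentSeries F} {n : ℤ} {a : F}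
    (h : LT x n a) : LT (cf σ x) n (σ a) := by
  refine ⟨fun m hm => ?_, ?_, (map_ne_zero σ).2 h.2.2⟩
  · rw [cf_coeff, h.1 m hm, map_zero]
  · rw [cf_coeff, h.2.1]

end Pool.Agent.N171
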