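import Mathlib
import Pool.Agent.N171.Bas
import Pool.Agent.N171.P1
import Pool.Agent.N171.Scl

/-!
# The function field of a hyperelliptic curve and its places
-/

namespace Pool.Agent.N171

open HahnSeries Polynomial

section defs

variable {F ι : Type*} [Field F] [Fintype ι]

/-- The affine points. -/
@[ext] structure Pt (α : ι → F) where
  /-- the first coordinate -/
  a : F
  /-- the second coordinate -/
  b : F
  h : b ^ 2 = (fP α).eval a

/-- A homomorphism from a quadratic algebra. -/
noncomputable def qH {A B : Type*} [CommRing A] [CommRing B] (g : A →+* B) {d : A} (w : B)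
    (hw : w * w = g d) : QuadraticAlgebra A d 0 →+* B where
  toFun x := g x.re + g x.im * w
  map_one' := by
    simp [QuadraticAlgebra.re_one, QuadraticAlgebra.im_one]
  map_mul' x y := by
    rw [QuadraticAlgebra.re_mul, QuadraticAlgebra.im_mul]
    simp only [map_add, map_mul, zero_mul, add_zero]
    linear_combination (-(g x.im * g y.im)) * hw
  map_zero' := by simp
  map_add' x y := by
    rw [QuadraticAlgebra.re_add, QuadraticAlgebra.im_add, map_add, map_add]
    ring

theorem qH_apply {A B : Type*} [CommRing A] [CommRing B] (g : A →+* B) {d : A} (w : B)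
    (hw : w * w = g d) (x : QuadraticAlgebra A d 0) : qH g w hw x = g x.re + g x.im * w := rfl

open Classical in
/-- Square of the leading coefficient at the ramified points. -/
noncomputable def cc (α : ι → F) (a : F) : F := ∏ i with α i ≠ a, (a - α i)

theorem cc_ne (α : ι → F) (a : F) : cc α a ≠ 0 := by
  classical
  unfold cc
  rw [Finset.prod_ne_zero_iff]
  intro i hi
  exact sub_ne_zero.2 (Ne.symm (Finset.mem_filter.1 hi).2)

end defs

section curve

variable {F ι : Type*} [Field F] [Fintype ι] {α : ι → F}

theorem Pt.root_of_b {P : Pt α} (h : P.b = 0) : ∃ i, α i = P.a := by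
  have h1 := P.h
  rw [h, fP_eval, zero_pow two_ne_zero] at h1
  obtain ⟨i, _, hi⟩ := Finset.prod_eq_zero_iff.1 h1.symm
  exact ⟨i, (sub_eq_zero.1 hi).symm⟩

theorem Pt.ne_of_b {P : Pt α} (h : P.b ≠ 0) (i : ι) : P.a ≠ α i := by
  intro h1
  have h2 := P.h
  rw [fP_eval, Finset.prod_eq_zero (Finset.mem_univ i) (sub_eq_zero.2 h1)] at h2
  exact h (pow_eq_zero_iff two_ne_zero |>.1 h2)

open Classical in
/-- The first coordinate at a place. -/
noncomputable def zC : Option (Pt α) → LaurentSeries F
  | none => single (-2) 1
  | some P => if P.b = 0 then HahnSeries.C P.a + single 2 (cc α P.a)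
    else HahnSeries.C P.a + single 1 1

open Classical in
/-- The order of the second coordinate. -/
noncomputable def kC : Option (Pt α) → ℤ
  | none => -(Fintype.card ι : ℤ)
  | some P => if P.b = 0 then 1 else 0

open Classical in
/-- The leading coefficient of the second coordinate. -/
noncomputable def eC : Option (Pt α) → F
  | none => 1
  | some P => if P.b = 0 then cc α P.a else P.b

theorem zC_none (b : F) : LT (zC (none : Option (Pt α)) - HahnSeries.C b) (-2) 1 := by
  by_cases hb : b = 0
  · subst hb
    rw [map_zero, sub_zero]
    exact LT_single one_ne_zero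
  · rw [sub_eq_add_neg]
    exact (LT_single one_ne_zero).add_of_lt (LT_C hb).neg (by norm_num)

theorem zC_ram {P : Pt α} (h : P.b = 0) : zC (some P) = HahnSeries.C P.a + single 2 (cc α P.a) := by
  classical
  change (if P.b = 0 then _ else _) = _
  rw [if_pos h]

theorem zC_unr {P : Pt α} (h : P.b ≠ 0) : zC (some P) = HahnSeries.C P.a + single 1 1 := by
  classical
  change (if P.b = 0 then _ else _) = _
  rw [if_neg h]

theorem zC_some_sub (P : Pt α) {b : F} (h : P.a ≠ b) :
    LT (zC (some P) - HahnSeries.C b) 0 (P.a - b) := by
  have h0 := sub_ne_zero.2 h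
  by_cases hb : P.b = 0
  · have h1 : zC (some P) - HahnSeries.C b = HahnSeries.C (P.a - b) + single 2 (cc α P.a) := by
      rw [zC_ram hb, map_sub]
      ring
    rw [h1]
    exact (LT_C h0).add_of_lt (LT_single (cc_ne _ _)) (by norm_num)
  · have h1 : zC (some P) - HahnSeries.C b = HahnSeries.C (P.a - b) + single 1 1 := by
      rw [zC_unr hb, map_sub]
      ring
    rw [h1]
    exact (LT_C h0).add_of_lt (LT_single one_ne_zero) (by norm_num)

theorem zC_ram_self {P : Pt α} (h : P.b = 0) :
    LT (zC (some P) - HahnSeries.C P.a) 2 (cc α P.a) := by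
  have h1 : zC (some P) - HahnSeries.C P.a = single 2 (cc α P.a) := by
    rw [zC_ram h]
    ring
  rw [h1]
  exact LT_single (cc_ne _ _)

theorem zC_unr_self {P : Pt α} (h : P.b ≠ 0) :
    LT (zC (some P) - HahnSeries.C P.a) 1 1 := by
  have h1 : zC (some P) - HahnSeries.C P.a = single 1 1 := by
    rw [zC_unr h]
    ring
  rw [h1]
  exact LT_single one_ne_zero

theorem zC_ne (P : Option (Pt α)) (b : F) : zC P ≠ HahnSeries.C b := by
  rw [← sub_ne_zero]
  cases P with
  | none => exact (zC_none b).ne_zero
  | some P =>
    by_cases h : P.a = b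
    · subst h
      by_cases hb : P.b = 0
      · exact (zC_ram_self hb).ne_zero
      · exact (zC_unr_self hb).ne_zero
    · exact (zC_some_sub P h).ne_zero

/-- The lowest term of the expansion of `f`. -/
theorem LT_f [Hyp α] (P : Option (Pt α)) :
    LT ((fP α).eval₂ HahnSeries.C (zC P)) (2 * kC P) (eC P ^ 2) := by
  classical
  rw [fP_eval₂]
  cases P with
  | none =>
    have h := LT.prod Finset.univ (fun i _ => zC_none (α := α) (α i))
    convert h using 1
    · simp [kC]
      ring
    · simp [eC]
  | some P =>
    by_cases hb : P.b = 0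
    · obtain ⟨i₀, hi₀⟩ := P.root_of_b hb
      have h := LT.prod (F := F) Finset.univ (x := fun i => zC (some P) - HahnSeries.C (α i))
        (n := fun i => if i = i₀ then 2 else 0)
        (a := fun i => if i = i₀ then cc α P.a else P.a - α i) (fun i _ => by
          split_ifs with h
          · rw [h, hi₀]
            exact zC_ram_self hb
          · refine zC_some_sub P fun h' => h ?_
            rw [← hi₀] at h'
            exact (Hyp.inj (α := α) h').symm)
      convert h using 1
      · rw [Finset.sum_ite_eq', if_pos (Finset.mem_univ _)]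
        simp [kC, hb]
      · rw [Finset.prod_ite, Finset.prod_const]
        have e1 : (Finset.univ.filter (fun i => i = i₀)).card = 1 := by
          rw [Finset.filter_eq' Finset.univ i₀, if_pos (Finset.mem_univ _), Finset.card_singleton]
        rw [e1, pow_one]
        simp only [eC, if_pos hb]
        rw [pow_two]
        congr 1
        unfold cc
        apply Finset.prod_congr
        · ext i
          simp only [Finset.mem_filter, Finset.mem_univ, true_and]
          rw [← hi₀]
          exact (Hyp.inj (α := α)).ne_iff
        · intro i _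
          rfl
    · have h := LT.prod (F := F) Finset.univ (x := fun i => zC (some P) - HahnSeries.C (α i))
        (n := fun i => 0) (a := fun i => P.a - α i)
        (fun i _ => zC_some_sub P (P.ne_of_b hb i))
      convert h using 1
      · simp [kC, hb]
      · simp only [eC, if_neg hb]
        rw [P.h, fP_eval]

theorem exists_wC [Hyp α] (P : Option (Pt α)) :
    ∃ w, w * w = (fP α).eval₂ HahnSeries.C (zC P) ∧ LT w (kC P) (eC P) :=
  exists_sqrt (Hyp.two (α := α)) (LT_f P)

/-- The second coordinate at a place. -/
noncomputable def wC [Hyp α] (P : Option (Pt α)) : LaurentSeries F := (exists_wC P).choose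

theorem wC_mul [Hyp α] (P : Option (Pt α)) :
    wC P * wC P = (fP α).eval₂ HahnSeries.C (zC P) := (exists_wC P).choose_spec.1

theorem wC_LT [Hyp α] (P : Option (Pt α)) : LT (wC P) (kC P) (eC P) := (exists_wC P).choose_spec.2

variable [IsAlgClosed F] [Hyp α]

/-- The expansion at a place. -/
noncomputable def φC (P : Option (Pt α)) : FF α →+* LaurentSeries F :=
  qH (eH (zC P) (zC_ne P)) (wC P) (by rw [eH_pol, wC_mul])

theorem φC_apply (P : Option (Pt α)) (x : FF α) :
    φC P x = eH (zC P) (zC_ne P) x.re + eH (zC P) (zC_ne P) x.im * wC P := rfl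

theorem φC_algebraMap (P : Option (Pt α)) (x : RatFunc F) :
    φC P (algebraMap (RatFunc F) (FF α) x) = eH (zC P) (zC_ne P) x := by
  rw [φC_apply]
  simp

/-- The image on the line. -/
def π : Option (Pt α) → Option F := Option.map Pt.a

open Classical in
/-- The ramification index. -/
noncomputable def rC : Option (Pt α) → ℤ
  | none => 2
  | some P => if P.b = 0 then 2 else 1

open Classical in
/-- The leading coefficient of the coordinate at the image. -/
noncomputable def dC : Option (Pt α) → Fˣ
  | none => 1
  | some P => if P.b = 0 then Units.mk0 (cc α P.a) (cc_ne _ _) else 1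

omit [Hyp α] in
theorem eH_LT (P : Option (Pt α)) (r : (RatFunc F)ˣ) :
    LT (eH (zC P) (zC_ne P) r) (rC P * (line F).o (π P) r)
      (((line F).l (π P) r * dC P ^ (line F).o (π P) r : Fˣ) : F) := by
  classical
  induction r using gens_induction with
  | hc a =>
    rw [eH_cU, (line F).o_eq (line_cU _ a), (line F).l_eq (line_cU _ a)]
    simpa using LT_C a.ne_zero
  | hx b =>
    rw [eH_xU]
    cases P with
    | none =>
      have h := zL_none_sub b
      rw [← line_xU] at h
      change LT _ (rC none * (line F).o none _)
        (((line F).l none _ * dC none ^ (line F).o none _ : Fˣ) : F)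
      rw [(line F).o_eq h, (line F).l_eq (a := 1) (by simpa using h)]
      simpa [rC, dC] using zC_none b
    | some P =>
      change LT _ (rC (some P) * (line F).o (some P.a) _)
        (((line F).l (some P.a) _ * dC (some P) ^ (line F).o (some P.a) _ : Fˣ) : F)
      by_cases hab : P.a = b
      · subst hab
        have h := zL_some_self P.a
        rw [← line_xU] at h
        rw [(line F).o_eq h, (line F).l_eq (a := 1) (by simpa using h)]
        by_cases hb : P.b = 0
        · simpa [rC, dC, hb] using zC_ram_self hb
        · simpa [rC, dC, hb] using zC_unr_self hb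
      · have h := zL_some_sub hab
        rw [← line_xU] at h
        rw [(line F).o_eq h, (line F).l_eq (a := Units.mk0 (P.a - b) (sub_ne_zero.2 hab)) h]
        simpa using zC_some_sub P hab
  | hmul u v hu hv =>
    have h := hu.mul hv
    rw [Units.val_mul, map_mul, Places.o_mul, map_mul]
    convert h using 1
    · ring
    · rw [← Units.val_mul, zpow_add]
      congr 1
      simp only [mul_assoc, mul_left_comm]
  | hinv u hu =>
    have h1 : eH (zC P) (zC_ne P) ((u⁻¹ : (RatFunc F)ˣ) : RatFunc F) ≠ 0 :=
      (_root_.map_ne_zero _).2 (Units.ne_zero _)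
    have h2 := LT_of_ne h1
    have h3 := hu.mul h2
    rw [← map_mul, ← Units.val_mul, mul_inv_cancel, Units.val_one, map_one] at h3
    have h4 := h3.inj LT_one
    rw [Places.o_inv, map_inv]
    convert h2 using 1
    · linarith [h4.1]
    · have h5 : (((line F).l (π P) u * dC P ^ (line F).o (π P) u : Fˣ) : F) ≠ 0 := Units.ne_zero _
      rw [zpow_neg, ← mul_inv, Units.val_inv_eq_inv_val]
      field_simp
      exact h4.2.symm

end curve

end Pool.Agent.N171
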