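import Mathlib
import Pool.Agent.N171.Crv

/-!
# Reciprocity on the curve
-/

namespace Pool.Agent.N171

open HahnSeries Polynomial

section

variable {F ι : Type*} [Field F] [Fintype ι] {α : ι → F}

/-- The hyperelliptic involution on points. -/
def Pt.neg (P : Pt α) : Pt α := ⟨P.a, -P.b, by rw [neg_sq, P.h]⟩

theorem Pt.eq_or_neg {P Q : Pt α} (h : P.a = Q.a) : P = Q ∨ P = Q.neg := by
  have h1 : P.b ^ 2 = Q.b ^ 2 := by rw [P.h, Q.h, h]
  rcases sq_eq_sq_iff_eq_or_eq_neg.1 h1 with h2 | h2
  · exact Or.inl (Pt.ext h h2)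
  · exact Or.inr (Pt.ext h h2)

theorem Pt.neg_eq_of_b {P : Pt α} (h : P.b = 0) : P.neg = P := Pt.ext rfl (by
  change -P.b = P.b
  rw [h, neg_zero])

theorem Pt.neg_ne_of_b [Hyp α] {P : Pt α} (h : P.b ≠ 0) : P.neg ≠ P := by
  intro h1
  have h2 := congrArg Pt.b h1
  change -P.b = P.b at h2
  have h3 : 2 * P.b = 0 := by linear_combination -h2
  exact h ((mul_eq_zero.1 h3).resolve_left (Hyp.two (α := α)))

variable [IsAlgClosed F]

theorem exists_pt (α : ι → F) (a : F) : ∃ P : Pt α, P.a = a := by
  obtain ⟨b, hb⟩ := IsAlgClosed.exists_pow_nat_eq ((fP α).eval a) two_pos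
  exact ⟨⟨a, b, hb⟩, rfl⟩

omit [IsAlgClosed F] in
theorem finite_fiber (a : Option F) : ((π (α := α)) ⁻¹' {a}).Finite := by
  cases a with
  | none =>
    apply (Set.finite_singleton none).subset
    intro P hP
    cases P with
    | none => rfl
    | some P => exact absurd hP (by simp [π])
  | some a =>
    by_cases h : ∃ P : Pt α, P.a = a
    · obtain ⟨P, hP⟩ := h
      apply (Set.toFinite {some P, some P.neg}).subset
      intro Q hQ
      cases Q with
      | none => exact absurd hQ (by simp [π])
      | some Q =>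
        have h1 : Q.a = a := by simpa [π] using hQ
        rcases Pt.eq_or_neg (h1.trans hP.symm) with h | h
        · exact Or.inl (congrArg some h)
        · exact Or.inr (congrArg some h)
    · convert Set.finite_empty
      ext Q
      simp only [Set.mem_preimage, Set.mem_singleton_iff, Set.mem_empty_iff_false, iff_false]
      intro hQ
      cases Q with
      | none => exact absurd hQ (by simp [π])
      | some Q => exact h ⟨Q, by simpa [π] using hQ⟩

omit [IsAlgClosed F] in
theorem finite_pre {T : Set (Option F)} (hT : T.Finite) : ((π (α := α)) ⁻¹' T).Finite :=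
  hT.preimage' fun a _ => finite_fiber a

/-- A Laurent series without negative powers. -/
def IntL (x : LaurentSeries F) : Prop := ∀ m < 0, x.coeff m = 0

omit [IsAlgClosed F] in
theorem IntL_of_order {x : LaurentSeries F} (h : x = 0 ∨ 0 ≤ x.order) : IntL x := by
  intro m hm
  rcases h with h | h
  · rw [h, HahnSeries.coeff_zero]
  · exact coeff_eq_zero_of_lt_order (lt_of_lt_of_le hm h)

omit [IsAlgClosed F] in
theorem IntL.order {x : LaurentSeries F} (h : IntL x) (hx : x ≠ 0) : 0 ≤ x.order := by
  by_contra hlt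
  push Not at hlt
  exact hx (coeff_order_eq_zero.1 (h _ hlt))

omit [IsAlgClosed F] in
theorem IntL.mul {x y : LaurentSeries F} (hx : IntL x) (hy : IntL y) : IntL (x * y) := by
  by_cases hx0 : x = 0
  · rw [hx0, zero_mul]
    exact fun _ _ => HahnSeries.coeff_zero
  by_cases hy0 : y = 0
  · rw [hy0, mul_zero]
    exact fun _ _ => HahnSeries.coeff_zero
  apply IntL_of_order
  right
  rw [order_mul hx0 hy0]
  exact add_nonneg (hx.order hx0) (hy.order hy0)

omit [IsAlgClosed F] in
theorem IntL.add {x y : LaurentSeries F} (hx : IntL x) (hy : IntL y) : IntL (x + y) := by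
  intro m hm
  rw [HahnSeries.coeff_add, hx m hm, hy m hm, add_zero]

omit [IsAlgClosed F] in
theorem IntL.neg {x : LaurentSeries F} (hx : IntL x) : IntL (-x) := by
  intro m hm
  rw [HahnSeries.coeff_neg, hx m hm, neg_zero]

variable [Hyp α]

/-- The norm on nonzero functions. -/
noncomputable def NU : (FF α)ˣ →* (RatFunc F)ˣ := Units.map QuadraticAlgebra.norm

/-- The hyperelliptic involution on nonzero functions. -/
noncomputable def sU : (FF α)ˣ →* (FF α)ˣ := Units.map (starRingEnd (FF α)).toMonoidHom

/-- The nonzero functions of the coordinate `x`. -/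
noncomputable def iL : (RatFunc F)ˣ →* (FF α)ˣ :=
  Units.map (algebraMap (RatFunc F) (FF α)).toMonoidHom

omit [IsAlgClosed F] in
theorem iL_NU (u : (FF α)ˣ) : iL (NU u) = u * sU u :=
  Units.ext (QuadraticAlgebra.algebraMap_norm_eq_mul_star (u : FF α))

theorem φC_star (P : Option (Pt α)) (x : FF α) :
    φC P (star x) = eH (zC P) (zC_ne P) x.re - eH (zC P) (zC_ne P) x.im * wC P := by
  rw [φC_apply, QuadraticAlgebra.re_star, QuadraticAlgebra.im_star, zero_mul, add_zero, map_neg,
    neg_mul, sub_eq_add_neg]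

/-- The places of the curve. -/
noncomputable def crv (α : ι → F) [Hyp α] : Places (FF α) F (Option (Pt α)) where
  φ := φC
  fin u := by
    have hfin : ∀ r : RatFunc F, {P : Option (Pt α) | r ≠ 0 ∧
        (eH (zC P) (zC_ne P) r).order ≠ 0}.Finite := by
      intro r
      by_cases hr : r = 0
      · convert Set.finite_empty
        ext P
        simp [hr]
      · apply (finite_pre ((line F).fin (Units.mk0 r hr))).subset
        rintro P ⟨-, hP⟩
        change (line F).o (π P) (Units.mk0 r hr) ≠ 0
        intro h0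
        apply hP
        have h1 := (eH_LT P (Units.mk0 r hr)).order
        rw [h0, mul_zero] at h1
        exact h1
    have hW : {P : Option (Pt α) | kC P ≠ 0}.Finite := by
      apply (finite_pre (α := α) (Set.toFinite ({none} ∪ Set.range fun i => some (α i)))).subset
      intro P hP
      cases P with
      | none => exact Or.inl rfl
      | some P =>
        right
        have hb : P.b = 0 := by
          by_contra hb
          apply hP
          simp [kC, hb]
        obtain ⟨i, hi⟩ := P.root_of_b hb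
        exact ⟨i, by simp [π, hi]⟩
    apply ((hfin u.1.re).union ((hfin u.1.im).union (hW.union (hfin (NU u).1)))).subset
    intro P hP
    by_contra hcon
    simp only [Set.mem_union, not_or, Set.mem_ofPred_eq, not_and, not_not] at hcon
    obtain ⟨h1, h2, h3, h4⟩ := hcon
    apply hP
    have hint : ∀ r : RatFunc F, (r ≠ 0 → (eH (zC P) (zC_ne P) r).order = 0) →
        IntL (eH (zC P) (zC_ne P) r) := by
      intro r hr
      apply IntL_of_order
      by_cases h : r = 0
      · left
        rw [h, map_zero]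
      · right
        rw [hr h]
    have hw : IntL (wC P) := IntL_of_order (Or.inr (by rw [(wC_LT P).order, h3]))
    have i1 : IntL (φC P u) := (hint _ h1).add ((hint _ h2).mul hw)
    have i2 : IntL (φC P (star (u : FF α))) := by
      rw [φC_star, sub_eq_add_neg]
      exact (hint _ h1).add ((hint _ h2).mul hw).neg
    have n1 : φC P u ≠ 0 := (_root_.map_ne_zero _).2 u.ne_zero
    have n2 : φC P (star (u : FF α)) ≠ 0 := (_root_.map_ne_zero _).2 (sU u).ne_zero
    have e1 := congrArg (φC P) (congrArg Units.val (iL_NU u))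
    rw [Units.val_mul, map_mul] at e1
    change φC P (algebraMap (RatFunc F) (FF α) (NU u : RatFunc F)) =
      φC P u * φC P (star (u : FF α)) at e1
    rw [φC_algebraMap] at e1
    have e2 := congrArg HahnSeries.order e1
    rw [order_mul n1 n2, h4 (NU u).ne_zero] at e2
    have i1' := i1.order n1
    have i2' := i2.order n2
    change (φC P u).order = 0
    omega

theorem crv_φ (P : Option (Pt α)) (x : FF α) : (crv α).φ P x = φC P x := rfl

theorem crv_iL (P : Option (Pt α)) (r : (RatFunc F)ˣ) :
    (crv α).φ P (iL r : (FF α)ˣ) = eH (zC P) (zC_ne P) r := φC_algebraMap P r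

theorem o_iL (P : Option (Pt α)) (r : (RatFunc F)ˣ) :
    (crv α).o P (iL r) = rC P * (line F).o (π P) r := by
  apply Places.o_eq
  rw [crv_iL]
  exact eH_LT P r

theorem l_iL (P : Option (Pt α)) (r : (RatFunc F)ˣ) :
    (crv α).l P (iL r) = (line F).l (π P) r * dC P ^ (line F).o (π P) r := by
  apply Places.l_eq
  rw [crv_iL]
  exact eH_LT P r

/-! ### unramified points -/

omit [IsAlgClosed F] in
theorem wC_neg {P : Pt α} (h : P.b ≠ 0) : wC (some P.neg) = -wC (some P) := by
  have hb : P.neg.b ≠ 0 := neg_ne_zero.2 h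
  have hz : zC (some P.neg) = zC (some P) := by
    rw [zC_unr h, zC_unr hb]
    rfl
  apply sqrt_unique (Hyp.two (α := α)) (n := kC (some P.neg)) (m := kC (some P)) (e := -P.b)
  · rw [neg_mul_neg, wC_mul, wC_mul, hz]
  · convert wC_LT (some P.neg) using 1
    simp [eC, hb]
    rfl
  · convert (wC_LT (some P)).neg using 1
    simp [eC, h]

theorem φC_neg {P : Pt α} (h : P.b ≠ 0) (x : FF α) : φC (some P.neg) x = φC (some P) (star x) := by
  have hb : P.neg.b ≠ 0 := neg_ne_zero.2 h
  have hz : zC (some P.neg) = zC (some P) := by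
    rw [zC_unr h, zC_unr hb]
    rfl
  have he : eH (zC (some P.neg)) (zC_ne _) = eH (zC (some P)) (zC_ne _) := by
    congr 1
  rw [φC_star, φC_apply, he, wC_neg h, mul_neg, sub_eq_add_neg]

theorem t_unr {P : Pt α} (h : P.b ≠ 0) (u : (FF α)ˣ) (p : (RatFunc F)ˣ) :
    (crv α).t (some P) u (iL p) * (crv α).t (some P.neg) u (iL p) =
      (line F).t (some P.a) (NU u) p := by
  classical
  have hb : P.neg.b ≠ 0 := neg_ne_zero.2 h
  have e1 : (crv α).ex (some P.neg) u = (crv α).ex (some P) (sU u) := Units.ext (φC_neg h u)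
  have r1 : rC (some P) = 1 := by simp [rC, h]
  have r2 : rC (some P.neg) = 1 := by simp [rC, hb]
  have d1 : dC (some P) = 1 := by simp [dC, h]
  have d2 : dC (some P.neg) = 1 := by simp [dC, hb]
  have o1 : ∀ r, (crv α).o (some P) (iL r) = (line F).o (some P.a) r := by
    intro r
    rw [o_iL, r1, one_mul]
    rfl
  have o2 : ∀ r, (crv α).o (some P.neg) (iL r) = (line F).o (some P.a) r := by
    intro r
    rw [o_iL, r2, one_mul]
    rfl
  have l1 : ∀ r, (crv α).l (some P) (iL r) = (line F).l (some P.a) r := by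
    intro r
    rw [l_iL, d1, one_zpow, mul_one]
    rfl
  have l2 : ∀ r, (crv α).l (some P.neg) (iL r) = (line F).l (some P.a) r := by
    intro r
    rw [l_iL, d2, one_zpow, mul_one]
    rfl
  have e2 : (crv α).t (some P.neg) u (iL p) = (crv α).t (some P) (sU u) (iL p) := by
    have o3 : (crv α).o (some P.neg) u = (crv α).o (some P) (sU u) := by
      unfold Places.o
      rw [e1]
    have l3 : (crv α).l (some P.neg) u = (crv α).l (some P) (sU u) := by
      change ll _ = ll _
      rw [e1]
    rw [Places.t_def, Places.t_def, o3, l3, o1, o2, l1, l2]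
  have e3 : (crv α).t (some P) u (iL p) * (crv α).t (some P) (sU u) (iL p) =
      (crv α).t (some P) (u * sU u) (iL p) := by
    unfold Places.t
    rw [map_mul, tame_mul_left]
  rw [e2, e3, ← iL_NU, Places.t_def, Places.t_def, o1, o1, l1, l1]

/-! ### ramified points -/

/-- Ramified places. -/
def Ram : Option (Pt α) → Prop
  | none => True
  | some P => P.b = 0

omit [IsAlgClosed F] [Hyp α] in
theorem scl_zC {P : Option (Pt α)} (h : Ram P) : scl (-1) (zC P) = zC P := by
  cases P with
  | none =>
    change scl (-1) (single (-2) 1) = single (-2) 1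
    rw [scl_single]
    congr 1
    norm_num
  | some P =>
    rw [zC_ram h, map_add, scl_C, scl_single]
    congr 2
    norm_num

omit [IsAlgClosed F] in
theorem kC_odd {P : Option (Pt α)} (h : Ram P) : Odd (kC P) := by
  cases P with
  | none =>
    obtain ⟨k, hk⟩ := Hyp.odd (α := α)
    refine ⟨-(k : ℤ) - 1, ?_⟩
    change -(Fintype.card ι : ℤ) = _
    rw [hk]
    push_cast
    ring
  | some P =>
    have h' : P.b = 0 := h
    refine ⟨0, ?_⟩
    simp [kC, h']

omit [IsAlgClosed F] in
theorem scl_wC {P : Option (Pt α)} (h : Ram P) : scl (-1) (wC P) = -wC P := by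
  apply sqrt_unique (Hyp.two (α := α)) (n := kC P) (m := kC P) (e := -eC P)
  · rw [neg_mul_neg, ← map_mul, wC_mul]
    have : (fP α).eval₂ HahnSeries.C (zC P) = (fP α).eval₂ HahnSeries.C (scl (-1) (zC P)) := by
      rw [scl_zC h]
    conv_rhs => rw [this]
    rw [fP_eval₂, fP_eval₂, map_prod]
    refine Finset.prod_congr rfl fun i _ => ?_
    rw [map_sub, scl_C]
  · convert scl_LT (-1) (wC_LT P) using 1
    rw [Odd.neg_one_zpow (kC_odd h)]
    simp
  · exact (wC_LT P).neg

theorem φC_ram {P : Option (Pt α)} (h : Ram P) (x : FF α) :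
    φC P (star x) = scl (-1) (φC P x) := by
  have he : (scl (-1)).comp (eH (zC P) (zC_ne P)) = eH (zC P) (zC_ne P) := by
    apply ratHom_ext
    · intro a
      rw [RingHom.comp_apply, eH_pol, eval₂_C, scl_C]
    · rw [RingHom.comp_apply, eH_pol, eval₂_X, scl_zC h]
  have he' : ∀ r, scl (-1) (eH (zC P) (zC_ne P) r) = eH (zC P) (zC_ne P) r :=
    fun r => RingHom.congr_fun he r
  rw [φC_star, φC_apply, map_add, map_mul, he', he', scl_wC h, mul_neg, sub_eq_add_neg]

theorem o_sU {P : Option (Pt α)} (h : Ram P) (u : (FF α)ˣ) :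
    (crv α).o P (sU u) = (crv α).o P u ∧
      (crv α).l P (sU u) = (-1) ^ (crv α).o P u * (crv α).l P u := by
  have h1 := scl_LT (-1) ((crv α).LT_ex P u)
  rw [crv_φ, ← φC_ram h] at h1
  exact ⟨(crv α).o_eq (u := sU u) h1, (crv α).l_eq (u := sU u) (by rw [Units.val_mul]; exact h1)⟩

theorem t_ram {P : Option (Pt α)} (h : Ram P) (u : (FF α)ˣ) (p : (RatFunc F)ˣ) :
    (crv α).t P u (iL p) = (line F).t (π P) (NU u) p := by
  classical
  have hr : rC P = 2 := by
    cases P with
    | none => rfl
    | some P =>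
      have h' : P.b = 0 := h
      simp [rC, h']
  have h1 := congrArg ((crv α).o P) (iL_NU u)
  have h2 := congrArg ((crv α).l P) (iL_NU u)
  rw [Places.o_mul, (o_sU h u).1, o_iL, hr] at h1
  rw [map_mul, (o_sU h u).2, l_iL] at h2
  have h3 : (crv α).o P u = (line F).o (π P) (NU u) := by omega
  rw [h3] at h2
  rw [Places.t_def, Places.t_def, o_iL, l_iL, hr, h3]
  generalize (line F).o (π P) (NU u) = k at *
  generalize (line F).o (π P) p = m at *
  generalize (line F).l (π P) p = q at *
  have h4 : (line F).l (π P) (NU u) = (crv α).l P u ^ (2 : ℤ) * (-1) ^ k * (dC P ^ k)⁻¹ := by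
    rw [eq_mul_inv_iff_mul_eq, h2, zpow_two, mul_assoc, mul_comm ((-1 : Fˣ) ^ k)]
  rw [h4]
  generalize (crv α).l P u = c
  generalize dC P = d
  rw [mul_zpow, mul_zpow, mul_zpow, inv_zpow, ← zpow_mul, ← zpow_mul, ← zpow_mul, ← zpow_mul]
  have e1 : (-1 : Fˣ) ^ (k * (2 * m)) = 1 := Even.neg_one_zpow (by
    rw [mul_left_comm]
    exact even_two_mul _)
  have e2 : (-1 : Fˣ) ^ (k * m) * (-1) ^ (k * m) = 1 := by
    rw [← zpow_add]
    exact Even.neg_one_zpow ⟨k * m, rfl⟩
  rw [e1, one_mul, mul_inv]
  have e3 : (-1 : Fˣ) ^ (k * m) * (c ^ (2 * m) * (-1) ^ (k * m) * (d ^ (k * m))⁻¹ * (q ^ k)⁻¹) =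
      ((-1 : Fˣ) ^ (k * m) * (-1) ^ (k * m)) * (c ^ (2 * m) * ((d ^ (k * m))⁻¹ * (q ^ k)⁻¹)) := by
    simp only [mul_assoc, mul_left_comm]
  rw [e3, e2, one_mul, mul_comm m k, mul_comm ((q ^ k)⁻¹)]

/-! ### reciprocity -/

omit [IsAlgClosed F] [Hyp α] in
theorem ram_or (P : Option (Pt α)) : Ram P ∨ ∃ Q : Pt α, P = some Q ∧ Q.b ≠ 0 := by
  cases P with
  | none => exact Or.inl trivial
  | some P =>
    by_cases h : P.b = 0
    · exact Or.inl h
    · exact Or.inr ⟨P, rfl, h⟩

theorem S_norm (u : (FF α)ˣ) (p : (RatFunc F)ˣ) : (crv α).S u (iL p) = (line F).S (NU u) p := by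
  classical
  let TL : Finset (Option F) := (((crv α).dv u).support ∪ ((crv α).dv (iL p)).support).image π ∪
    (((line F).dv (NU u)).support ∪ ((line F).dv p).support)
  let TC : Finset (Option (Pt α)) := (finite_pre (α := α) TL.finite_toSet).toFinset
  have hTC : ∀ P, P ∈ TC ↔ π P ∈ TL := by
    intro P
    simp [TC]
  rw [(crv α).S_eq _ _ TC, (line F).S_eq _ _ TL]
  rotate_left
  · intro a ha
    exact Finset.mem_union_right _ (Finset.mem_union_left _ ha)
  · intro a ha
    exact Finset.mem_union_right _ (Finset.mem_union_right _ ha)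
  · intro P hP
    rw [hTC]
    exact Finset.mem_union_left _ (Finset.mem_image_of_mem _ (Finset.mem_union_left _ hP))
  · intro P hP
    rw [hTC]
    exact Finset.mem_union_left _ (Finset.mem_image_of_mem _ (Finset.mem_union_right _ hP))
  rw [← Finset.prod_fiberwise_of_maps_to (s := TC) (t := TL) (g := π) (fun P hP => (hTC P).1 hP)]
  refine Finset.prod_congr rfl fun a ha => ?_
  cases a with
  | none =>
    have h1 : TC.filter (fun P => π P = none) = {none} := by
      ext P
      rw [Finset.mem_filter, hTC, Finset.mem_singleton]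
      constructor
      · rintro ⟨-, h⟩
        cases P with
        | none => rfl
        | some P => exact absurd h (by simp [π])
      · rintro rfl
        exact ⟨ha, rfl⟩
    rw [h1, Finset.prod_singleton]
    exact t_ram (P := none) trivial u p
  | some a =>
    obtain ⟨P, hP⟩ := exists_pt α a
    have h1 : TC.filter (fun P => π P = some a) = {some P, some P.neg} := by
      ext Q
      rw [Finset.mem_filter, hTC, Finset.mem_insert, Finset.mem_singleton]
      constructor
      · rintro ⟨-, h⟩
        cases Q with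
        | none => exact absurd h (by simp [π])
        | some Q =>
          have h1 : Q.a = a := by simpa [π] using h
          rcases Pt.eq_or_neg (h1.trans hP.symm) with h | h
          · exact Or.inl (congrArg some h)
          · exact Or.inr (congrArg some h)
      · rintro (rfl | rfl)
        · have : π (some P) = some a := by simp [π, hP]
          exact ⟨by rw [this]; exact ha, this⟩
        · have : π (some P.neg) = some a := by simp [π, Pt.neg, hP]
          exact ⟨by rw [this]; exact ha, this⟩
    rw [h1]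
    by_cases hb : P.b = 0
    · rw [Pt.neg_eq_of_b hb, Finset.pair_eq_singleton, Finset.prod_singleton,
        t_ram (P := some P) hb u p]
      simp [π, hP]
    · rw [Finset.prod_pair (fun h => Pt.neg_ne_of_b hb (Option.some.inj h).symm), t_unr hb, hP]

theorem S_iL (u : (FF α)ˣ) (p : (RatFunc F)ˣ) : (crv α).S u (iL p) = 1 := by
  rw [S_norm, S_line]

theorem S_iL' (u : (FF α)ˣ) (p : (RatFunc F)ˣ) : (crv α).S (iL p) u = 1 := by
  rw [Places.S_symm, S_iL, inv_one]

/-- **Weil reciprocity** on the curve. -/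
theorem S_crv (u w : (FF α)ˣ) : (crv α).S u w = 1 := by
  classical
  -- reduction
  have key : ∀ u : (FF α)ˣ, (∃ p, u = iL p) ∨ ∃ (p : (RatFunc F)ˣ) (s : RatFunc F) (v : (FF α)ˣ),
      u = iL p * v ∧ (v : FF α) = ⟨s, 1⟩ := by
    intro u
    by_cases him : u.1.im = 0
    · left
      have hre : u.1.re ≠ 0 := by
        intro h
        exact u.ne_zero (QuadraticAlgebra.ext h him)
      refine ⟨Units.mk0 _ hre, Units.ext ?_⟩
      change u.1 = algebraMap (RatFunc F) (FF α) u.1.re
      ext
      · simp
      · simp [him]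
    · right
      have hv : (⟨u.1.re / u.1.im, 1⟩ : FF α) ≠ 0 := by
        intro h
        have := congrArg QuadraticAlgebra.im h
        exact one_ne_zero this
      refine ⟨Units.mk0 _ him, u.1.re / u.1.im, Units.mk0 _ hv, Units.ext ?_, rfl⟩
      change u.1 = algebraMap (RatFunc F) (FF α) u.1.im * ⟨u.1.re / u.1.im, 1⟩
      ext
      · simp
        field_simp
      · simp
  rcases key u with ⟨p, rfl⟩ | ⟨p, s, v, rfl, hv⟩
  · exact S_iL' w p
  rcases key w with ⟨q, rfl⟩ | ⟨q, r, v', rfl, hv'⟩
  · exact S_iL _ q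
  rw [Places.S_mul_left, S_iL', one_mul, Places.S_mul_right, S_iL, one_mul]
  by_cases hsr : s = r
  · have : v = v' := Units.ext (by rw [hv, hv', hsr])
    rw [← this]
    have h1 : (crv α).S v v = (crv α).S v (iL (-1)) := by
      unfold Places.S
      have h0 : ((crv α).dv (iL (-1) : (FF α)ˣ)) = 0 := by
        ext P
        have h1 : (iL (-1) : (FF α)ˣ) * iL (-1) = 1 := by rw [← map_mul]; simp
        have h2 := congrArg ((crv α).o P) h1
        rw [Places.o_mul, Places.o_one] at h2
        rw [Places.dv_apply, Finsupp.zero_apply]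
        omega
      rw [h0, Finsupp.support_zero]
      refine Finset.prod_congr (by ext P; simp only [Finset.mem_union, or_self,
        Finset.notMem_empty, or_false]) fun P _ => ?_
      have h1 : (crv α).o P (iL (-1)) = 0 := by
        rw [← Places.dv_apply, h0, Finsupp.zero_apply]
      have h2 : (crv α).l P (iL (-1)) = -1 := by
        apply Places.l_eq (n := 0)
        have : ((iL (-1) : (FF α)ˣ) : FF α) = -1 := by
          change algebraMap (RatFunc F) (FF α) ((-1 : (RatFunc F)ˣ) : RatFunc F) = -1
          simp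
        rw [this, map_neg, map_one]
        simpa using LT_one.neg
      rw [Places.t_def, Places.t_def, h1, h2, mul_zero, zpow_zero, one_mul, zpow_zero, one_mul,
        mul_inv_cancel, mul_one, ← zpow_neg]
      rcases Int.even_or_odd ((crv α).o P v) with h | h
      · rw [Even.neg_one_zpow (h.mul_left _), Even.neg_one_zpow h.neg]
      · rw [Odd.neg_one_zpow (h.mul h), Odd.neg_one_zpow h.neg]
    rw [h1, S_iL]
  · have hsr' : s - r ≠ 0 := sub_ne_zero.2 hsr
    let c : (RatFunc F)ˣ := Units.mk0 _ hsr'
    have h1 : (((iL c)⁻¹ * v : (FF α)ˣ) : FF α) + ((iL (-c))⁻¹ * v' : (FF α)ˣ) = 1 := by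
      have hc : ((iL c : (FF α)ˣ) : FF α) ≠ 0 := Units.ne_zero _
      have hc' : ((iL (-c) : (FF α)ˣ) : FF α) = -((iL c : (FF α)ˣ) : FF α) := by
        change algebraMap (RatFunc F) (FF α) ((-c : (RatFunc F)ˣ) : RatFunc F) =
          -algebraMap (RatFunc F) (FF α) (c : RatFunc F)
        simp
      rw [Units.val_mul, Units.val_mul, Units.val_inv_eq_inv_val, Units.val_inv_eq_inv_val, hc',
        inv_neg, neg_mul, ← sub_eq_add_neg, ← mul_sub, inv_mul_eq_iff_eq_mul₀ hc, mul_one, hv, hv']
      change (⟨s, 1⟩ : FF α) - ⟨r, 1⟩ = algebraMap (RatFunc F) (FF α) (s - r)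
      ext <;> simp
    have h2 := (crv α).S_steinberg h1
    rw [Places.S_mul_left, Places.S_inv_left, S_iL', inv_one, one_mul, Places.S_mul_right,
      Places.S_inv_right, S_iL, inv_one, one_mul] at h2
    exact h2

/-- Principal divisors have degree zero. -/
theorem deg_crv (u : (FF α)ˣ) : Places.deg ((crv α).dv u) = 0 := by
  by_contra hd
  have h1 : ∀ a : Fˣ, a ^ Places.deg ((crv α).dv u) = 1 := by
    intro a
    have h2 := S_iL' u (cU a)
    have hP : ∀ P, LT ((crv α).φ P ((iL (cU a) : (FF α)ˣ) : FF α)) 0 (a : F) := by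
      intro P
      rw [crv_iL, eH_cU]
      exact LT_C a.ne_zero
    rw [Places.S_ev _ _ _ (fun P => by rw [Places.o_eq _ (hP P), zero_mul]; exact Even.zero),
      (crv α).ev_const (fun P => Places.l_eq _ (hP P))] at h2
    have h3 : (crv α).dv (iL (cU a)) = 0 := by
      ext P
      rw [Places.dv_apply, Places.o_eq _ (hP P), Finsupp.zero_apply]
    rwa [h3, Places.ev_zero, inv_one, mul_one] at h2
  have h2 : 0 < (Places.deg ((crv α).dv u)).natAbs := Int.natAbs_pos.2 hd
  obtain ⟨c, hc⟩ := IsAlgClosed.exists_pow_nat_eq (2 : F) h2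
  have hc0 : c ≠ 0 := by
    rintro rfl
    rw [zero_pow h2.ne'] at hc
    exact Hyp.two (α := α) hc.symm
  have h3 := h1 (Units.mk0 c hc0)
  have h4 : (Units.mk0 c hc0) ^ (Places.deg ((crv α).dv u)).natAbs = 1 := by
    rcases Int.natAbs_eq (Places.deg ((crv α).dv u)) with h | h
    · rw [h, zpow_natCast] at h3
      simpa using h3
    · rw [h, zpow_neg, zpow_natCast, inv_eq_one] at h3
      simpa using h3
  have h5 := congrArg Units.val h4
  rw [Units.val_pow_eq_pow_val, Units.val_mk0, hc, Units.val_one] at h5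
  have h6 : (1 : F) = 0 := by linear_combination h5
  exact one_ne_zero h6

end

end Pool.Agent.N171
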