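import Mathlib
import Pool.Agent.N171.Plc
import Pool.Agent.N171.Scl

/-!
# The Weil pairing
-/

namespace Pool.Agent.N171

open HahnSeries

/-- A family of places with the properties of the places of a curve. -/
structure IsCurve {L F Pl : Type*} [Field L] [Field F] (p : Places L F Pl) (cst : Fˣ →* Lˣ) :
    Prop where
  rcp : ∀ u w, p.S u w = 1
  deg : ∀ u, Places.deg (p.dv u) = 0
  cst_LT : ∀ P a, LT (p.φ P (cst a : Lˣ)) 0 (a : F)
  const : ∀ u, p.dv u = 0 → ∃ a, u = cst a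

/-- A group of classes of divisors. -/
structure IsClasses {L F Pl A : Type*} [Field L] [Field F] [AddCommGroup A] (p : Places L F Pl)
    (Θ : (Pl →₀ ℤ) →+ A) : Prop where
  surj : ∀ x, ∃ D, Places.deg D = 0 ∧ Θ D = x
  ker : ∀ D, Places.deg D = 0 → Θ D = 0 → ∃ u, p.dv u = D
  prin : ∀ u, Θ (p.dv u) = 0

section

variable {L F Pl A : Type*} [Field L] [Field F] [AddCommGroup A] {p : Places L F Pl}
  {cst : Fˣ →* Lˣ} (hp : IsCurve p cst) {Θ : (Pl →₀ ℤ) →+ A} (hA : IsClasses p Θ)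

/-- A divisor `D` of degree zero of the class `x` with `m D` the divisor of `h`. -/
structure Rep (p : Places L F Pl) (Θ : (Pl →₀ ℤ) →+ A) (m : ℕ) (x : A) (D : Pl →₀ ℤ) (h : Lˣ) :
    Prop where
  deg : Places.deg D = 0
  cls : Θ D = x
  dv : p.dv h = m • D

/-- The value of the pairing on representatives. -/
noncomputable def E (p : Places L F Pl) (D D' : Pl →₀ ℤ) (h h' : Lˣ) : Fˣ :=
  p.ev h D' * (p.ev h' D)⁻¹

theorem E_symm (D D' : Pl →₀ ℤ) (h h' : Lˣ) : E p D' D h' h = (E p D D' h h')⁻¹ := by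
  unfold E
  rw [mul_inv, inv_inv, mul_comm]

theorem E_self (D : Pl →₀ ℤ) (h : Lˣ) : E p D D h h = 1 := mul_inv_cancel _

include hA in
theorem exists_rep {m : ℕ} {x : A} (hx : m • x = 0) : ∃ D h, Rep p Θ m x D h := by
  obtain ⟨D, hD, hDx⟩ := hA.surj x
  obtain ⟨h, hh⟩ := hA.ker (m • D) (by rw [map_nsmul, hD, smul_zero])
    (by rw [map_nsmul, hDx, hx])
  exact ⟨D, h, hD, hDx, hh⟩

include hp in
theorem ev_S {u w : Lˣ} {m : ℕ} {D : Pl →₀ ℤ} (hm : Even m) (hw : p.dv w = m • D) :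
    p.ev u (p.dv w) = p.ev w (p.dv u) := by
  have h1 := p.S_ev u w (fun P => by
    have h2 : p.o P w = m * D P := by
      rw [← p.dv_apply, hw, Finsupp.smul_apply, nsmul_eq_mul]
    rw [h2]
    obtain ⟨k, hk⟩ := hm
    refine ⟨p.o P u * (k * D P), ?_⟩
    rw [hk]
    push_cast
    ring)
  rw [hp.rcp] at h1
  exact (mul_inv_eq_one.1 h1.symm)

include hp in
theorem ev_cst (a : Fˣ) {D : Pl →₀ ℤ} (hD : Places.deg D = 0) : p.ev (cst a) D = 1 := by
  rw [p.ev_const (fun P => p.l_eq (hp.cst_LT P a)), hD, zpow_zero]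

include hp hA in
theorem E_well {m : ℕ} (hm : Even m) {x y : A} {D₁ D₂ D' : Pl →₀ ℤ} {h₁ h₂ h' : Lˣ}
    (r₁ : Rep p Θ m x D₁ h₁) (r₂ : Rep p Θ m x D₂ h₂) (r' : Rep p Θ m y D' h') :
    E p D₁ D' h₁ h' = E p D₂ D' h₂ h' := by
  obtain ⟨u, hu⟩ := hA.ker (D₂ - D₁) (by rw [map_sub, r₁.deg, r₂.deg, sub_zero])
    (by rw [map_sub, r₁.cls, r₂.cls, sub_self])
  have hD : D₂ = D₁ + p.dv u := by rw [hu]; abel
  obtain ⟨a, ha⟩ := hp.const (h₂ * (h₁ * u ^ m)⁻¹) (by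
    rw [Places.dv_mul, Places.dv_inv, Places.dv_mul, Places.dv_pow, r₁.dv, r₂.dv, hD, smul_add]
    abel)
  have hh : h₂ = cst a * (h₁ * u ^ m) := by rw [← ha, inv_mul_cancel_right]
  unfold E
  rw [hh, hD, Places.ev_mul, ev_cst hp a r'.deg, one_mul, Places.ev_mul, Places.ev_pow,
    ← Places.ev_nsmul, ← r'.dv, ev_S hp hm r'.dv, Places.ev_add, mul_inv]
  rw [mul_assoc, mul_comm (p.ev h' (p.dv u)), mul_assoc, inv_mul_cancel, mul_one]

open Classical in
/-- The Weil pairing. -/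
noncomputable def e (p : Places L F Pl) (Θ : (Pl →₀ ℤ) →+ A) (m : ℕ) (x y : A) : Fˣ :=
  if h : (∃ D h, Rep p Θ m x D h) ∧ (∃ D h, Rep p Θ m y D h) then
    E p h.1.choose h.2.choose h.1.choose_spec.choose h.2.choose_spec.choose
  else 1

include hp hA in
theorem e_eq {m : ℕ} (hm : Even m) {x y : A} {D D' : Pl →₀ ℤ} {h h' : Lˣ}
    (r : Rep p Θ m x D h) (r' : Rep p Θ m y D' h') : e p Θ m x y = E p D D' h h' := by
  have hc : (∃ D h, Rep p Θ m x D h) ∧ (∃ D h, Rep p Θ m y D h) := ⟨⟨D, h, r⟩, ⟨D', h', r'⟩⟩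
  unfold e
  rw [dif_pos hc]
  rw [E_well hp hA hm hc.1.choose_spec.choose_spec r hc.2.choose_spec.choose_spec,
    ← inv_inj, ← E_symm, ← E_symm,
    E_well hp hA hm hc.2.choose_spec.choose_spec r' r]

theorem Rep.add {m : ℕ} {x y : A} {D D' : Pl →₀ ℤ} {h h' : Lˣ}
    (r : Rep p Θ m x D h) (r' : Rep p Θ m y D' h') : Rep p Θ m (x + y) (D + D') (h * h') where
  deg := by rw [map_add, r.deg, r'.deg, add_zero]
  cls := by rw [map_add, r.cls, r'.cls]
  dv := by rw [Places.dv_mul, r.dv, r'.dv, smul_add]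

include hp hA in
theorem e_add_left {m : ℕ} (hm : Even m) {x x' y : A} (hx : m • x = 0) (hx' : m • x' = 0)
    (hy : m • y = 0) : e p Θ m (x + x') y = e p Θ m x y * e p Θ m x' y := by
  obtain ⟨D, h, r⟩ := exists_rep hA hx
  obtain ⟨D', h', r'⟩ := exists_rep hA hx'
  obtain ⟨D'', h'', r''⟩ := exists_rep hA hy
  rw [e_eq hp hA hm (r.add r') r'', e_eq hp hA hm r r'', e_eq hp hA hm r' r'']
  unfold E
  rw [Places.ev_mul, Places.ev_add, mul_inv, mul_mul_mul_comm]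

include hp hA in
theorem e_symm {m : ℕ} (hm : Even m) {x y : A} (hx : m • x = 0) (hy : m • y = 0) :
    e p Θ m y x = (e p Θ m x y)⁻¹ := by
  obtain ⟨D, h, r⟩ := exists_rep hA hx
  obtain ⟨D', h', r'⟩ := exists_rep hA hy
  rw [e_eq hp hA hm r r', e_eq hp hA hm r' r, E_symm]

include hp hA in
theorem e_self {m : ℕ} (hm : Even m) {x : A} (hx : m • x = 0) : e p Θ m x x = 1 := by
  obtain ⟨D, h, r⟩ := exists_rep hA hx
  rw [e_eq hp hA hm r r, E_self]

include hp hA in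
theorem e_add_right {m : ℕ} (hm : Even m) {x y y' : A} (hx : m • x = 0) (hy : m • y = 0)
    (hy' : m • y' = 0) : e p Θ m x (y + y') = e p Θ m x y * e p Θ m x y' := by
  rw [e_symm hp hA hm (by rw [smul_add, hy, hy', add_zero]) hx, e_add_left hp hA hm hy hy' hx,
    mul_inv, ← e_symm hp hA hm hy hx, ← e_symm hp hA hm hy' hx]

include hp hA in
theorem e_pow {m : ℕ} (hm : Even m) {x y : A} (hx : m • x = 0) (hy : m • y = 0) :
    e p Θ m x y ^ m = 1 := by
  obtain ⟨D, h, r⟩ := exists_rep hA hx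
  obtain ⟨D', h', r'⟩ := exists_rep hA hy
  rw [e_eq hp hA hm r r']
  unfold E
  rw [mul_pow, inv_pow, ← Places.ev_nsmul, ← Places.ev_nsmul, ← r.dv, ← r'.dv,
    ev_S hp hm r'.dv, mul_inv_cancel]

include hp hA in
theorem e_two {m : ℕ} (hm : Even m) {x y : A} (hx : (2 * m) • x = 0) (hy : (2 * m) • y = 0) :
    e p Θ m ((2 : ℕ) • x) ((2 : ℕ) • y) = e p Θ (2 * m) x y ^ 2 := by
  obtain ⟨D, h, r⟩ := exists_rep hA hx
  obtain ⟨D', h', r'⟩ := exists_rep hA hy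
  have aux : ∀ {x : A} {D : Pl →₀ ℤ} {h : Lˣ}, Rep p Θ (2 * m) x D h →
      Rep p Θ m ((2 : ℕ) • x) ((2 : ℕ) • D) h := by
    intro x D h r
    refine ⟨by rw [map_nsmul, r.deg, smul_zero], by rw [map_nsmul, r.cls], ?_⟩
    rw [r.dv, smul_smul, mul_comm]
  rw [e_eq hp hA (hm.mul_left 2) r r', e_eq hp hA hm (aux r) (aux r')]
  unfold E
  rw [Places.ev_nsmul, Places.ev_nsmul, mul_pow, inv_pow]

include hp hA in
theorem e_zero_left {m : ℕ} (hm : Even m) {y : A} (hy : m • y = 0) : e p Θ m 0 y = 1 := by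
  have h := e_add_left hp hA hm (x := 0) (x' := 0) (y := y) (smul_zero _) (smul_zero _) hy
  rw [add_zero] at h
  exact left_eq_mul.1 h

include hp hA in
theorem e_sub_left {m : ℕ} (hm : Even m) {x x' y : A} (hx : m • x = 0) (hx' : m • x' = 0)
    (hy : m • y = 0) : e p Θ m (x - x') y = e p Θ m x y * (e p Θ m x' y)⁻¹ := by
  rw [eq_mul_inv_iff_mul_eq, ← e_add_left hp hA hm (by rw [smul_sub, hx, hx', sub_zero]) hx' hy,
    sub_add_cancel]

/-! ### automorphisms -/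

/-- Compatible actions on the function field, the constants, the places and the classes. -/
structure IsAct (p : Places L F Pl) (Θ : (Pl →₀ ℤ) →+ A) (σL : L ≃+* L) (σF : F ≃+* F)
    (σP : Pl → Pl) (σA : A →+ A) : Prop where
  φ : ∀ P x, p.φ (σP P) (σL x) = cf (σF : F →+* F) (p.φ P x)
  cls : ∀ D, Θ (D.mapDomain σP) = σA (Θ D)
  inj : Function.Injective σP
  surj : Function.Surjective σP

variable {σL : L ≃+* L} {σF : F ≃+* F} {σP : Pl → Pl} {σA : A →+ A}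

theorem IsAct.o (hσ : IsAct p Θ σL σF σP σA) (P : Pl) (u : Lˣ) :
    p.o (σP P) (Units.map σL.toMonoidHom u) = p.o P u ∧
      p.l (σP P) (Units.map σL.toMonoidHom u) = Units.map σF.toMonoidHom (p.l P u) := by
  have h := cf_LT (σF : F →+* F) (p.LT_ex P u)
  rw [← hσ.φ] at h
  exact ⟨p.o_eq (u := Units.map σL.toMonoidHom u) h, p.l_eq (u := Units.map σL.toMonoidHom u) h⟩

theorem IsAct.dv (hσ : IsAct p Θ σL σF σP σA) (u : Lˣ) :
    p.dv (Units.map σL.toMonoidHom u) = (p.dv u).mapDomain σP := by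
  ext P
  obtain ⟨Q, rfl⟩ := hσ.surj P
  rw [Places.dv_apply, (hσ.o Q u).1, Finsupp.mapDomain_apply hσ.inj, Places.dv_apply]

theorem IsAct.ev (hσ : IsAct p Θ σL σF σP σA) (u : Lˣ) (D : Pl →₀ ℤ) :
    p.ev (Units.map σL.toMonoidHom u) (D.mapDomain σP) = Units.map σF.toMonoidHom (p.ev u D) := by
  classical
  unfold Places.ev
  rw [Finsupp.prod_mapDomain_index (fun _ => zpow_zero _) (fun _ _ _ => zpow_add _ _ _)]
  unfold Finsupp.prod
  rw [map_prod]
  refine Finset.prod_congr rfl fun P _ => ?_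
  dsimp only
  rw [(hσ.o P u).2, map_zpow]

theorem deg_mapDomain (σP : Pl → Pl) (D : Pl →₀ ℤ) :
    Places.deg (D.mapDomain σP) = Places.deg D := by
  classical
  unfold Places.deg
  rw [Finsupp.liftAddHom_apply, Finsupp.liftAddHom_apply,
    Finsupp.sum_mapDomain_index (fun _ => rfl) (fun _ _ _ => rfl)]

theorem IsAct.rep (hσ : IsAct p Θ σL σF σP σA) {m : ℕ} {x : A} {D : Pl →₀ ℤ} {h : Lˣ}
    (r : Rep p Θ m x D h) :
    Rep p Θ m (σA x) (D.mapDomain σP) (Units.map σL.toMonoidHom h) where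
  deg := by rw [deg_mapDomain, r.deg]
  cls := by rw [hσ.cls, r.cls]
  dv := by
    rw [hσ.dv, r.dv]
    exact (Finsupp.mapDomain.addMonoidHom σP).map_nsmul m D

include hp hA in
theorem IsAct.e (hσ : IsAct p Θ σL σF σP σA) {m : ℕ} (hm : Even m) {x y : A}
    (hx : m • x = 0) (hy : m • y = 0) :
    e p Θ m (σA x) (σA y) = Units.map σF.toMonoidHom (Pool.Agent.N171.e p Θ m x y) := by
  obtain ⟨D, h, r⟩ := exists_rep hA hx
  obtain ⟨D', h', r'⟩ := exists_rep hA hy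
  rw [e_eq hp hA hm r r', e_eq hp hA hm (hσ.rep r) (hσ.rep r')]
  unfold E
  rw [hσ.ev, hσ.ev, map_mul, map_inv]

include hp hA in
/-- The pairing of the cocycle of the halves of a divisor class with a class of order two. -/
theorem IsAct.half (hσ : IsAct p Θ σL σF σP σA) {x y : A} {D D' : Pl →₀ ℤ} {h' : Lˣ}
    (hD : Places.deg D = 0) (hxD : (2 : ℕ) • x = Θ D) (r' : Rep p Θ 2 y D' h')
    (fD : D.mapDomain σP = D) (fD' : D'.mapDomain σP = D') (fh : Units.map σL.toMonoidHom h' = h') :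
    (2 : ℕ) • (σA x - x) = 0 ∧ ∃ w : Fˣ, w ^ 2 = (p.ev h' D)⁻¹ ∧
      Pool.Agent.N171.e p Θ 2 (σA x - x) y = Units.map σF.toMonoidHom w * w⁻¹ := by
  obtain ⟨Q, hQ, hQx⟩ := hA.surj x
  obtain ⟨u, hu⟩ := hA.ker ((2 : ℕ) • Q - D) (by rw [map_sub, map_nsmul, hQ, hD, smul_zero,
    sub_zero]) (by rw [map_sub, map_nsmul, hQx, hxD, sub_self])
  have hmap : (((2 : ℕ) • Q).mapDomain σP : Pl →₀ ℤ) = (2 : ℕ) • Q.mapDomain σP :=
    (Finsupp.mapDomain.addMonoidHom σP).map_nsmul 2 Q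
  have hdu : p.dv (Units.map σL.toMonoidHom u) = (2 : ℕ) • Q.mapDomain σP - D := by
    rw [hσ.dv, hu]
    have h1 : (((2 : ℕ) • Q - D).mapDomain σP : Pl →₀ ℤ) =
        ((2 : ℕ) • Q).mapDomain σP - D.mapDomain σP := by
      rw [eq_sub_iff_add_eq, ← Finsupp.mapDomain_add, sub_add_cancel]
    rw [h1, hmap, fD]
  have r : Rep p Θ 2 (σA x - x) (Q.mapDomain σP - Q) (Units.map σL.toMonoidHom u * u⁻¹) := by
    refine ⟨by rw [map_sub, deg_mapDomain, sub_self], by rw [map_sub, hσ.cls, hQx], ?_⟩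
    rw [Places.dv_mul, Places.dv_inv, hdu, hu, smul_sub]
    abel
  refine ⟨?_, p.ev u D' * (p.ev h' Q)⁻¹, ?_, ?_⟩
  · rw [← r.cls, ← map_nsmul, ← r.dv, hA.prin]
  · rw [mul_pow, inv_pow, ← Places.ev_nsmul, ← Places.ev_nsmul, ← r'.dv,
      ev_S hp even_two r'.dv, hu, Places.ev_sub]
    rw [mul_assoc, mul_comm (p.ev h' D)⁻¹, ← mul_assoc, mul_inv_cancel, one_mul]
  · rw [e_eq hp hA even_two r r']
    unfold E
    rw [Places.ev_mul, Places.ev_inv, Places.ev_sub, map_mul, map_inv, ← hσ.ev, ← hσ.ev, fD', fh,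
      mul_inv, mul_inv, inv_inv]
    simp only [mul_assoc, mul_left_comm]

end

end Pool.Agent.N171
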