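import Mathlib
import Pool.Agent.N171.Crv2
import Pool.Agent.N171.Pair

/-!
# The curve has the properties of a curve
-/

namespace Pool.Agent.N171

open HahnSeries Polynomial

section

variable {L F Pl : Type*} [Field L] [Field F]

/-- Functions without zeros and poles are constant. -/
theorem const_of_deg {p : Places L F Pl} {cst : Fˣ →* Lˣ}
    (hdeg : ∀ u, Places.deg (p.dv u) = 0)
    (hcst : ∀ P a, LT (p.φ P (cst a : Lˣ)) 0 (a : F)) (P₀ : Pl)
    (hC : ∀ a P, p.φ P (cst a : Lˣ) = HahnSeries.C (a : F)) (u : Lˣ)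
    (hu : p.dv u = 0) : ∃ a, u = cst a := by
  have ho : ∀ P, p.o P u = 0 := fun P => by rw [← p.dv_apply, hu, Finsupp.zero_apply]
  refine ⟨p.l P₀ u, ?_⟩
  by_contra hne
  have hv : (u : L) - (cst (p.l P₀ u) : Lˣ) ≠ 0 := fun h => hne (Units.ext (sub_eq_zero.1 h))
  let v : Lˣ := Units.mk0 _ hv
  have hφ : ∀ P, p.φ P v = p.φ P u - HahnSeries.C (p.l P₀ u : F) := by
    intro P
    rw [← hC]
    exact map_sub _ _ _
  have h1 : ∀ P, 0 ≤ p.o P v := by
    intro P
    have h2 : IntL (p.φ P v) := by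
      rw [hφ, sub_eq_add_neg]
      apply IntL.add
      · apply IntL_of_order
        right
        rw [(p.LT_ex P u).order, ho]
      · apply IntL.neg
        apply IntL_of_order
        right
        rw [(LT_C (p.l P₀ u).ne_zero).order]
    exact h2.order ((_root_.map_ne_zero _).2 v.ne_zero)
  have h2 : 0 < p.o P₀ v := by
    rcases (h1 P₀).lt_or_eq with h | h
    · exact h
    · exfalso
      have h3 := p.LT_ex P₀ v
      rw [← h, hφ] at h3
      have h4 := h3.2.1
      have h5 := p.LT_ex P₀ u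
      rw [ho] at h5
      rw [HahnSeries.coeff_sub, h5.2.1, (LT_C (p.l P₀ u).ne_zero).2.1, sub_self] at h4
      exact (p.l P₀ v).ne_zero h4.symm
  have h3 := hdeg v
  rw [Places.deg_eq _ _ subset_rfl] at h3
  have h4 := (Finset.sum_eq_zero_iff_of_nonneg (fun P _ => h1 P)).1 h3
  by_cases h5 : P₀ ∈ (p.dv v).support
  · have h6 := h4 P₀ h5
    change p.o P₀ v = 0 at h6
    omega
  · rw [Finsupp.notMem_support_iff, Places.dv_apply] at h5
    omega

end

section

variable {F ι : Type*} [Field F] [Fintype ι] {α : ι → F} [IsAlgClosed F] [Hyp α]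

theorem φC_cU (P : Option (Pt α)) (a : Fˣ) :
    (crv α).φ P ((iL (cU a) : (FF α)ˣ) : FF α) = HahnSeries.C (a : F) := by
  rw [crv_iL, eH_cU]

theorem isCurve_crv (α : ι → F) [Hyp α] : IsCurve (crv α) (iL.comp
    { toFun := cU, map_one' := Units.ext (by simp [cU, pU]),
      map_mul' := fun a b => Units.ext (by simp [cU, pU]) }) where
  rcp := S_crv
  deg := deg_crv
  cst_LT P a := by
    change LT ((crv α).φ P ((iL (cU a) : (FF α)ˣ) : FF α)) 0 (a : F)
    rw [φC_cU]
    exact LT_C a.ne_zero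
  const := const_of_deg deg_crv (fun P a => by
    change LT ((crv α).φ P ((iL (cU a) : (FF α)ˣ) : FF α)) 0 (a : F)
    rw [φC_cU]
    exact LT_C a.ne_zero) none (fun a P => φC_cU P a)

/-! ### the ramification points -/

variable (α) in
/-- The ramification points. -/
noncomputable def rp (i : ι) : Pt α := ⟨α i, 0, by
  rw [fP_eval, Finset.prod_eq_zero (Finset.mem_univ i) (sub_self _)]
  ring⟩

variable (α) in
/-- The divisors of the ramification points. -/
noncomputable def Dr (i : ι) : Option (Pt α) →₀ ℤ :=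
  Finsupp.single (some (rp α i)) 1 + Finsupp.single none (-1)

omit [IsAlgClosed F] [Hyp α] in
theorem deg_Dr (i : ι) : Places.deg (Dr α i) = 0 := by
  rw [Dr, map_add, Places.deg_single, Places.deg_single]
  norm_num

variable (α) in
/-- The function `x - α i`. -/
noncomputable def hr (i : ι) : (FF α)ˣ := iL (xU (α i))

theorem hr_LT_none (i : ι) : LT ((crv α).φ none (hr α i : (FF α)ˣ)) (-2) 1 := by
  unfold hr
  rw [crv_iL, eH_xU]
  exact zC_none _

theorem hr_LT_self (i : ι) : LT ((crv α).φ (some (rp α i)) (hr α i : (FF α)ˣ)) 2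
    (cc α (α i)) := by
  unfold hr
  rw [crv_iL, eH_xU]
  exact zC_ram_self (P := rp α i) rfl

theorem hr_LT_ne (P : Pt α) {i : ι} (h : P.a ≠ α i) :
    LT ((crv α).φ (some P) (hr α i : (FF α)ˣ)) 0 (P.a - α i) := by
  unfold hr
  rw [crv_iL, eH_xU]
  exact zC_some_sub P h

theorem dv_hr (i : ι) : (crv α).dv (hr α i) = (2 : ℕ) • Dr α i := by
  classical
  ext P
  rw [Places.dv_apply, Finsupp.smul_apply, Dr, Finsupp.add_apply, Finsupp.single_apply,
    Finsupp.single_apply]
  cases P with
  | none =>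
    rw [Places.o_eq _ (hr_LT_none i)]
    simp
  | some P =>
    by_cases h : P.a = α i
    · have hP : P = rp α i := by
        refine Pt.ext h ?_
        have h1 := P.h
        rw [fP_eval, h, Finset.prod_eq_zero (Finset.mem_univ i) (sub_self _)] at h1
        exact pow_eq_zero_iff two_ne_zero |>.1 h1
      rw [hP, Places.o_eq _ (hr_LT_self i)]
      simp
    · have hP : rp α i ≠ P := fun h' => h (by rw [← h']; rfl)
      rw [Places.o_eq _ (hr_LT_ne P h)]
      simp [hP]

/-- The value of `x - α j` at the divisor of the point over `α i`. -/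
theorem ev_hr {i j : ι} (h : i ≠ j) : ((crv α).ev (hr α j) (Dr α i) : F) = α i - α j := by
  have h1 : (rp α i).a ≠ α j := fun h' => h (Hyp.inj (α := α) h')
  rw [Dr, Places.ev_add, Places.ev_single, Places.ev_single,
    Places.l_eq (crv α) (P := none) (u := hr α j) (n := -2) (a := 1) (hr_LT_none j), zpow_one,
    one_zpow, mul_one]
  exact Places.l_val _ (hr_LT_ne _ h1)

variable {A : Type*} [AddCommGroup A] {Θ : (Option (Pt α) →₀ ℤ) →+ A}

theorem rep_Dr (i : ι) : Rep (crv α) Θ 2 (Θ (Dr α i)) (Dr α i) (hr α i) :=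
  ⟨deg_Dr i, rfl, dv_hr i⟩

theorem two_Dr (hA : IsClasses (crv α) Θ) (i : ι) : (2 : ℕ) • Θ (Dr α i) = 0 := by
  rw [← map_nsmul, ← dv_hr, hA.prin]

/-- The Weil pairing of the points of order two. -/
theorem e_Dr (hA : IsClasses (crv α) Θ) {i j : ι} (h : i ≠ j) :
    e (crv α) Θ 2 (Θ (Dr α i)) (Θ (Dr α j)) = -1 := by
  rw [e_eq (isCurve_crv α) hA even_two (rep_Dr i) (rep_Dr j)]
  unfold E
  apply Units.ext
  rw [Units.val_mul, Units.val_inv_eq_inv_val, ev_hr h, ev_hr h.symm, Units.val_neg, Units.val_one]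
  have h1 : α j - α i ≠ 0 := sub_ne_zero.2 fun h' => h (Hyp.inj (α := α) h').symm
  have h2 : α i - α j ≠ 0 := sub_ne_zero.2 fun h' => h (Hyp.inj (α := α) h')
  field_simp
  ring

end

end Pool.Agent.N171
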