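import Mathlib
import Pool.Agent.N171.Crv3

/-!
# The group of divisor classes: halves, and elements of order two
-/

namespace Pool.Agent.N171

open HahnSeries Polynomial

section

variable {F ι : Type*} [Field F] [Fintype ι] {α : ι → F}

/-- The hyperelliptic involution on places. -/
def ng : Option (Pt α) → Option (Pt α) := Option.map Pt.neg

theorem Pt.neg_neg (P : Pt α) : P.neg.neg = P := Pt.ext rfl (_root_.neg_neg P.b)

theorem ng_ng (P : Option (Pt α)) : ng (ng P) = P := by
  cases P with
  | none => rfl
  | some P => exact congrArg some P.neg_neg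

theorem ng_inj : Function.Injective (ng (α := α)) := fun P Q h => by
  rw [← ng_ng P, h, ng_ng]

theorem ng_ram {P : Option (Pt α)} (h : Ram P) : ng P = P := by
  cases P with
  | none => rfl
  | some P => exact congrArg some (Pt.neg_eq_of_b h)

theorem rC_pos (P : Option (Pt α)) : 0 < rC P := by
  cases P with
  | none => exact two_pos
  | some P =>
    by_cases h : P.b = 0
    · simp [rC, h]
    · simp [rC, h]

theorem rC_ram {P : Option (Pt α)} (h : Ram P) : rC P = 2 := by
  cases P with
  | none => rfl
  | some P =>
    have h' : P.b = 0 := h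
    simp [rC, h']

theorem rC_unr {P : Pt α} (h : P.b ≠ 0) : rC (some P) = 1 := by simp [rC, h]

variable [IsAlgClosed F] [Hyp α]

theorem o_sU' (P : Option (Pt α)) (u : (FF α)ˣ) : (crv α).o P (sU u) = (crv α).o (ng P) u := by
  rcases ram_or P with h | ⟨Q, rfl, hQ⟩
  · rw [(o_sU h u).1, ng_ram h]
  · change (φC (some Q) (star (u : FF α))).order = (φC (some Q.neg) (u : FF α)).order
    rw [φC_neg hQ]

theorem dv_sU (u : (FF α)ˣ) : (crv α).dv (sU u) = ((crv α).dv u).mapDomain ng := by
  ext P
  rw [Places.dv_apply, o_sU']
  conv_rhs => rw [← ng_ng P]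
  rw [Finsupp.mapDomain_apply ng_inj, Places.dv_apply]

/-- The function `y`. -/
noncomputable def yU (α : ι → F) [Hyp α] : (FF α)ˣ :=
  Units.mk0 (⟨0, 1⟩ : FF α) (fun h => one_ne_zero (congrArg QuadraticAlgebra.im h))

theorem φC_y (P : Option (Pt α)) : (crv α).φ P (yU α : (FF α)ˣ) = wC P := by
  change eH (zC P) (zC_ne P) 0 + eH (zC P) (zC_ne P) 1 * wC P = wC P
  rw [map_zero, map_one, zero_add, one_mul]

theorem dv_y : (crv α).dv (yU α) = ∑ i, Dr α i := by
  classical
  ext P
  rw [Places.dv_apply, Places.o_eq (crv α) (n := kC P) (a := eC P) (by rw [φC_y]; exact wC_LT P),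
    Finsupp.finsetSum_apply]
  simp only [Dr, Finsupp.add_apply, Finsupp.single_apply]
  cases P with
  | none =>
    simp [kC]
  | some P =>
    by_cases hb : P.b = 0
    · obtain ⟨i, hi⟩ := P.root_of_b hb
      have h1 : ∀ j, (some (rp α j) = some P) ↔ j = i := by
        intro j
        constructor
        · intro h
          have h2 := congrArg Pt.a (Option.some.inj h)
          apply Hyp.inj (α := α)
          rw [hi]
          exact h2
        · rintro rfl
          exact congrArg some (Pt.ext hi hb.symm)
      simp only [h1]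
      simp [kC, hb]
    · have h1 : ∀ j, ¬ (some (rp α j) = some P) := by
        intro j h
        apply hb
        have h2 := congrArg Pt.b (Option.some.inj h)
        exact h2.symm
      simp only [h1]
      simp [kC, hb]

/-- The function `x - a` at the points over `a`. -/
theorem dv_xa (P : Pt α) : (crv α).dv (iL (xU P.a)) =
    (Finsupp.single (some P) 1 + Finsupp.single none (-1)) +
      (Finsupp.single (some P) 1 + Finsupp.single none (-1)).mapDomain ng := by
  classical
  rw [Finsupp.mapDomain_add, Finsupp.mapDomain_single, Finsupp.mapDomain_single]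
  ext Q
  have hl : (line F).dv (xU P.a) (π Q) = (line F).o (π Q) (xU P.a) := rfl
  rw [Places.dv_apply, o_iL, ← hl, dv_xU]
  simp only [Finsupp.add_apply, Finsupp.single_apply]
  cases Q with
  | none => simp [π, rC, ng]
  | some Q =>
    by_cases h : Q.a = P.a
    · rcases Pt.eq_or_neg h with rfl | rfl
      · by_cases hb : Q.b = 0
        · have := Pt.neg_eq_of_b hb
          simp [π, rC, ng, hb, this]
        · have h1 := Pt.neg_ne_of_b hb
          simp [π, rC, ng, hb, h1]
      · by_cases hb : P.b = 0
        · have := Pt.neg_eq_of_b hb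
          simp [π, rC, ng, hb, this]
        · have h1 := (Pt.neg_ne_of_b hb).symm
          have h2 : P.neg.b ≠ 0 := neg_ne_zero.2 hb
          have h3 : P.neg.a = P.a := rfl
          simp [π, rC, ng, h1, h2, h3]
    · have h1 : P ≠ Q := fun h' => h (by rw [h'])
      have h2 : P.neg ≠ Q := fun h' => h (by rw [← h']; rfl)
      simp [π, ng, h1, h2, Ne.symm h]

theorem add_ng {D : Option (Pt α) →₀ ℤ} (hD : Places.deg D = 0) :
    ∃ n : (RatFunc F)ˣ, D + D.mapDomain ng = (crv α).dv (iL n) := by
  classical
  -- without the assumption on the degree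
  have h : ∀ D : Option (Pt α) →₀ ℤ, ∃ n : (RatFunc F)ˣ,
      (D - Finsupp.single none (Places.deg D)) + (D - Finsupp.single none
        (Places.deg D)).mapDomain ng = (crv α).dv (iL n) := by
    intro D
    induction D using Finsupp.induction_linear with
    | zero => exact ⟨1, by simp [Places.dv_one]⟩
    | add D D' h h' =>
      obtain ⟨n, hn⟩ := h
      obtain ⟨n', hn'⟩ := h'
      refine ⟨n * n', ?_⟩
      rw [map_mul, Places.dv_mul, ← hn, ← hn', map_add, Finsupp.single_add]
      have e1 : D + D' - (Finsupp.single none (Places.deg D) + Finsupp.single none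
          (Places.deg D')) = (D - Finsupp.single none (Places.deg D)) +
          (D' - Finsupp.single none (Places.deg D')) := by abel
      rw [e1, Finsupp.mapDomain_add]
      abel
    | single P k =>
      rw [Places.deg_single]
      cases P with
      | none => exact ⟨1, by simp [Places.dv_one]⟩
      | some P =>
        refine ⟨xU P.a ^ k, ?_⟩
        rw [map_zpow, Places.dv_zpow, dv_xa]
        have e1 : (Finsupp.single (some P) k - Finsupp.single none k : Option (Pt α) →₀ ℤ) =
            k • (Finsupp.single (some P) 1 + Finsupp.single none (-1)) := by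
          rw [smul_add, Finsupp.smul_single, Finsupp.smul_single, smul_eq_mul, smul_eq_mul, mul_one,
            mul_neg, mul_one, Finsupp.single_neg, sub_eq_add_neg]
        have e2 : ∀ X : Option (Pt α) →₀ ℤ, (k • X).mapDomain ng = k • X.mapDomain ng :=
          fun X => map_zsmul (Finsupp.mapDomain.addMonoidHom (ng (α := α)) :
            (Option (Pt α) →₀ ℤ) →+ _) k X
        rw [e1, e2, ← smul_add]
  obtain ⟨n, hn⟩ := h D
  refine ⟨n, ?_⟩
  rwa [hD, Finsupp.single_zero, sub_zero] at hn

/-! ### halves -/

omit [IsAlgClosed F] [Hyp α] in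
theorem exists_EO (a : F) (r : ι → F) (s : Finset ι) : ∃ E O : F[X],
    E ^ 2 - (Polynomial.C a - X) * O ^ 2 =
      ∏ i ∈ s, (Polynomial.C (r i ^ 2) - (Polynomial.C a - X)) ∧ E.eval a = ∏ i ∈ s, r i := by
  classical
  induction s using Finset.induction_on with
  | empty => exact ⟨1, 0, by simp, by simp⟩
  | insert i s hi ih =>
    obtain ⟨E, O, h1, h2⟩ := ih
    refine ⟨Polynomial.C (r i) * E + (Polynomial.C a - X) * O, E + Polynomial.C (r i) * O, ?_, ?_⟩
    · rw [Finset.prod_insert hi, ← h1, Polynomial.C_pow]
      ring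
    · rw [Finset.prod_insert hi, ← h2]
      simp

theorem exists_roots (P : Pt α) : ∃ r : ι → F, (∀ i, r i ^ 2 = P.a - α i) ∧ ∏ i, r i = P.b := by
  classical
  have h1 : ∀ i, ∃ r, r ^ 2 = P.a - α i := fun i => IsAlgClosed.exists_pow_nat_eq _ two_pos
  choose r hr using h1
  have h2 : (∏ i, r i) ^ 2 = P.b ^ 2 := by
    rw [P.h, fP_eval, ← Finset.prod_pow]
    exact Finset.prod_congr rfl fun i _ => hr i
  rcases sq_eq_sq_iff_eq_or_eq_neg.1 h2 with h | h
  · exact ⟨r, hr, h⟩
  · have hcard : 0 < Fintype.card ι := by
      obtain ⟨k, hk⟩ := Hyp.odd (α := α)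
      omega
    obtain ⟨i₀⟩ := Fintype.card_pos_iff.1 hcard
    refine ⟨Function.update r i₀ (-r i₀), fun i => ?_, ?_⟩
    · by_cases hi : i = i₀
      · subst hi
        rw [Function.update_self, neg_sq, hr]
      · rw [Function.update_of_ne hi, hr]
    · rw [Finset.prod_update_of_mem (Finset.mem_univ _), neg_mul, ← Finset.prod_erase_mul _ _
        (Finset.mem_univ i₀), Finset.sdiff_singleton_eq_erase] at *
      rw [mul_comm, h, _root_.neg_neg]

/-- The order of a polynomial in `x` is not negative at the affine points. -/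
theorem IntL_pol (P : Pt α) (q : F[X]) :
    IntL ((crv α).φ (some P) (algebraMap (RatFunc F) (FF α) (algebraMap F[X] (RatFunc F) q))) := by
  rw [crv_φ, φC_algebraMap, eH_pol]
  induction q using Polynomial.induction_on' with
  | add p q hp hq =>
    rw [eval₂_add]
    exact hp.add hq
  | monomial n a =>
    rw [eval₂_monomial]
    have hz : IntL (zC (some P)) := by
      by_cases hb : P.b = 0
      · rw [zC_ram hb]
        apply IntL.add
        · intro m hm
          exact coeff_single_of_ne hm.ne
        · intro m hm
          exact coeff_single_of_ne (by omega)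
      · rw [zC_unr hb]
        apply IntL.add
        · intro m hm
          exact coeff_single_of_ne hm.ne
        · intro m hm
          exact coeff_single_of_ne (by omega)
    apply IntL.mul
    · intro m hm
      exact coeff_single_of_ne hm.ne
    · induction n with
      | zero =>
        rw [pow_zero]
        intro m hm
        exact coeff_single_of_ne hm.ne
      | succ n ih =>
        rw [pow_succ]
        exact ih.mul hz

/-- The value of a polynomial at a point is the constant coefficient. -/
theorem coeff_pol (P : Pt α) (q : F[X]) :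
    ((crv α).φ (some P) (algebraMap (RatFunc F) (FF α) (algebraMap F[X] (RatFunc F) q))).coeff 0 =
      q.eval P.a := by
  have hz : ((zC (some P)) : LaurentSeries F).coeff 0 = P.a := by
    by_cases hb : P.b = 0
    · rw [zC_ram hb, HahnSeries.coeff_add, coeff_single_of_ne (by norm_num), add_zero]
      exact coeff_single_same _ _
    · rw [zC_unr hb, HahnSeries.coeff_add, coeff_single_of_ne (by norm_num), add_zero]
      exact coeff_single_same _ _
  obtain ⟨q', hq'⟩ : ∃ q', q = Polynomial.C (q.eval P.a) + (X - Polynomial.C P.a) * q' := by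
    obtain ⟨q', h⟩ := (X_sub_C_dvd_sub_C_eval (a := P.a) (p := q))
    exact ⟨q', by rw [← h]; ring⟩
  have h1 := IntL_pol P q'
  rw [crv_φ, φC_algebraMap] at h1 ⊢
  rw [eH_pol] at h1 ⊢
  have h2 : q.eval₂ HahnSeries.C (zC (some P)) = HahnSeries.C (q.eval P.a) +
      (zC (some P) - HahnSeries.C P.a) * q'.eval₂ HahnSeries.C (zC (some P)) := by
    conv_lhs => rw [hq']
    rw [eval₂_add, eval₂_mul, eval₂_sub, eval₂_X, eval₂_C, eval₂_C]
  rw [h2, HahnSeries.coeff_add]
  have h3 : (HahnSeries.C (q.eval P.a) : LaurentSeries F).coeff 0 = q.eval P.a :=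
    coeff_single_same _ _
  rw [h3]
  by_cases h0 : q'.eval₂ HahnSeries.C (zC (some P)) = 0
  · rw [h0, mul_zero, HahnSeries.coeff_zero, add_zero]
  · have h4 : 0 < (zC (some P) - HahnSeries.C P.a).order ∧ zC (some P) - HahnSeries.C P.a ≠ 0 := by
      by_cases hb : P.b = 0
      · rw [(zC_ram_self hb).order]
        exact ⟨two_pos, (zC_ram_self hb).ne_zero⟩
      · rw [(zC_unr_self hb).order]
        exact ⟨one_pos, (zC_unr_self hb).ne_zero⟩
    rw [coeff_eq_zero_of_lt_order, add_zero]
    rw [order_mul h4.2 h0]
    have := h1.order h0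
    omega

end

end Pool.Agent.N171
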