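import Mathlib
import Pool.Agent.N171.Crv4

/-!
# The group of divisor classes: halves, and elements of order two
-/

namespace Pool.Agent.N171

open HahnSeries Polynomial

section

variable {F ι : Type*} [Field F] [Fintype ι] {α : ι → F}

/-- A divisor with even coefficients. -/
theorem exists_half_div {X : Type*} (D : X →₀ ℤ) (h : ∀ x, 2 ∣ D x) :
    ∃ Z : X →₀ ℤ, D = (2 : ℕ) • Z := by
  refine ⟨D.mapRange (fun k => k / 2) (by norm_num), ?_⟩
  ext x
  rw [Finsupp.smul_apply, Finsupp.mapRange_apply, nsmul_eq_mul]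
  push_cast
  exact (Int.mul_ediv_cancel' (h x)).symm

variable [IsAlgClosed F] [Hyp α]

theorem exists_half_pt (P : Pt α) : ∃ (u : (FF α)ˣ) (Z : Option (Pt α) →₀ ℤ),
    (crv α).dv u = (Finsupp.single (some P) 1 + Finsupp.single none (-1)) + (2 : ℕ) • Z := by
  classical
  obtain ⟨r, hr, hrP⟩ := exists_roots P
  obtain ⟨E, O, hEO, hE⟩ := exists_EO P.a r Finset.univ
  rw [hrP] at hE
  have hf : ∏ i, (Polynomial.C (r i ^ 2) - (Polynomial.C P.a - X)) = fP α := by
    unfold fP
    refine Finset.prod_congr rfl fun i _ => ?_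
    rw [hr, map_sub]
    ring
  rw [hf] at hEO
  set aE : RatFunc F := algebraMap F[X] (RatFunc F) E with haE
  have hu0 : (⟨-aE, 1⟩ : FF α) ≠ 0 := fun h => one_ne_zero (congrArg QuadraticAlgebra.im h)
  let u : (FF α)ˣ := Units.mk0 ⟨-aE, 1⟩ hu0
  have hN : ((NU u : (RatFunc F)ˣ) : RatFunc F) = algebraMap F[X] (RatFunc F)
      ((Polynomial.C P.a - X) * O ^ 2) := by
    change QuadraticAlgebra.norm (⟨-aE, 1⟩ : FF α) = _
    rw [QuadraticAlgebra.norm_def]
    have h1 : (Polynomial.C P.a - X) * O ^ 2 = E ^ 2 - fP α := by rw [← hEO]; ring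
    rw [h1, map_sub, map_pow]
    simp only [← haE]
    ring
  have hO : O ≠ 0 := by
    rintro rfl
    apply (NU u).ne_zero
    rw [hN]
    simp
  have hNU : NU u = cU (-1) * (xU P.a * pU O hO ^ 2) := by
    apply Units.ext
    rw [hN]
    simp only [cU, xU, pU, Units.val_mul, Units.val_pow_eq_pow_val, Units.val_mk0, ← map_pow,
      ← map_mul]
    congr 1
    simp
    ring
  set D₁ : Option (Pt α) →₀ ℤ := Finsupp.single (some P) 1 + Finsupp.single none (-1) with hD₁
  have hsum : ∀ Q, (crv α).o Q u + (crv α).o Q (sU u) =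
      D₁ Q + D₁ (ng Q) + 2 * (rC Q * (line F).o (π Q) (pU O hO)) := by
    intro Q
    have h1 := congrArg ((crv α).o Q) (iL_NU u)
    rw [hNU, map_mul, map_mul, map_pow, Places.o_mul, Places.o_mul, Places.o_mul, pow_two,
      Places.o_mul, o_iL Q (cU (-1)), o_iL Q (pU O hO)] at h1
    have h2 : (line F).o (π Q) (cU (-1)) = 0 := Places.o_eq _ (line_cU _ _)
    have h3 : (crv α).o Q (iL (xU P.a)) = D₁ Q + D₁ (ng Q) := by
      rw [← Places.dv_apply, dv_xa, Finsupp.add_apply]
      congr 1
      conv_lhs => rw [← ng_ng Q]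
      rw [Finsupp.mapDomain_apply ng_inj]
    rw [h2, h3] at h1
    linarith
  have heven : ∀ Q, 2 ∣ ((crv α).dv u - D₁) Q := by
    intro Q
    rw [Finsupp.sub_apply, Places.dv_apply]
    rcases ram_or Q with h | ⟨Q, rfl, hQ⟩
    · have h1 := hsum Q
      rw [o_sU', ng_ram h, rC_ram h] at h1
      omega
    · have e1 : (crv α).φ (some Q) (u : FF α) = -eH (zC (some Q)) (zC_ne _) aE + wC (some Q) := by
        change eH (zC (some Q)) (zC_ne _) (-aE) + eH (zC (some Q)) (zC_ne _) 1 * wC (some Q) = _
        rw [map_neg, map_one, one_mul]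
      have e2 : (crv α).φ (some Q) ((sU u : (FF α)ˣ) : FF α) =
          -eH (zC (some Q)) (zC_ne _) aE - wC (some Q) := by
        change φC (some Q) (star (⟨-aE, 1⟩ : FF α)) = _
        rw [φC_star, map_neg, map_one, one_mul]
      have i0 : IntL (eH (zC (some Q)) (zC_ne _) aE) := by
        have := IntL_pol Q E
        rwa [crv_φ, φC_algebraMap] at this
      have c0 : (eH (zC (some Q)) (zC_ne _) aE).coeff 0 = E.eval Q.a := by
        have := coeff_pol Q E
        rwa [crv_φ, φC_algebraMap] at this
      have hw := wC_LT (some Q)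
      have hk : kC (some Q) = 0 := by simp [kC, hQ]
      have he : eC (some Q) = Q.b := by simp [eC, hQ]
      rw [hk, he] at hw
      have iw : IntL (wC (some Q)) := IntL_of_order (Or.inr (by rw [hw.order]))
      have i1 : IntL ((crv α).φ (some Q) (u : FF α)) := by
        rw [e1]
        exact i0.neg.add iw
      have i2 : IntL ((crv α).φ (some Q) ((sU u : (FF α)ˣ) : FF α)) := by
        rw [e2, sub_eq_add_neg]
        exact i0.neg.add iw.neg
      have n1 : (crv α).φ (some Q) (u : FF α) ≠ 0 := (_root_.map_ne_zero _).2 u.ne_zero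
      have n2 : (crv α).φ (some Q) ((sU u : (FF α)ˣ) : FF α) ≠ 0 :=
        (_root_.map_ne_zero _).2 (sU u).ne_zero
      have o1 : 0 ≤ (crv α).o (some Q) u := i1.order n1
      have o2 : 0 ≤ (crv α).o (some Q) (sU u) := i2.order n2
      have z1 : (-E.eval Q.a + Q.b ≠ 0) → (crv α).o (some Q) u = 0 := by
        intro h
        by_contra h'
        apply h
        have h3 : ((crv α).φ (some Q) (u : FF α)).coeff 0 = 0 :=
          coeff_eq_zero_of_lt_order (lt_of_le_of_ne o1 (Ne.symm h'))
        rwa [e1, HahnSeries.coeff_add, HahnSeries.coeff_neg, c0, hw.2.1] at h3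
      have z2 : (-E.eval Q.a - Q.b ≠ 0) → (crv α).o (some Q) (sU u) = 0 := by
        intro h
        by_contra h'
        apply h
        have h3 : ((crv α).φ (some Q) ((sU u : (FF α)ˣ) : FF α)).coeff 0 = 0 :=
          coeff_eq_zero_of_lt_order (lt_of_le_of_ne o2 (Ne.symm h'))
        rwa [e2, HahnSeries.coeff_sub, HahnSeries.coeff_neg, c0, hw.2.1] at h3
      have h2Q : 2 * Q.b ≠ 0 := mul_ne_zero (Hyp.two (α := α)) hQ
      have h1 := hsum (some Q)
      rw [rC_unr hQ, one_mul] at h1
      by_cases hQP : Q.a = P.a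
      · rcases Pt.eq_or_neg hQP with rfl | rfl
        · have hz := z2 (by
            rw [hE]
            intro h
            apply h2Q
            linear_combination -h)
          have d1 : D₁ (some Q) = 1 := by simp [D₁]
          have d2 : D₁ (ng (some Q)) = 0 := by
            have := Pt.neg_ne_of_b hQ
            simp [D₁, ng, Ne.symm this]
          rw [hz, d1, d2] at h1
          rw [d1]
          omega
        · have hb : P.b ≠ 0 := fun h => hQ (by change -P.b = 0; rw [h, neg_zero])
          have hz := z1 (by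
            change -E.eval P.a + -P.b ≠ 0
            rw [hE]
            intro h
            apply mul_ne_zero (Hyp.two (α := α)) hb
            linear_combination -h)
          have d1 : D₁ (some P.neg) = 0 := by
            have := Pt.neg_ne_of_b hb
            simp [D₁, Ne.symm this]
          rw [hz, d1]
          norm_num
      · have d1 : D₁ (some Q) = 0 := by
          have : P ≠ Q := fun h => hQP (by rw [h])
          simp [D₁, this]
        have d2 : D₁ (ng (some Q)) = 0 := by
          have : P ≠ Q.neg := fun h => hQP (by rw [h]; rfl)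
          simp [D₁, ng, this]
        rw [d1, d2] at h1
        rw [d1]
        by_cases h3 : -E.eval Q.a + Q.b = 0
        · have hz := z2 (by
            intro h
            apply h2Q
            linear_combination h3 - h)
          omega
        · rw [z1 h3]
          norm_num
  obtain ⟨Z, hZ⟩ := exists_half_div _ heven
  refine ⟨u, Z, ?_⟩
  rw [← hZ]
  abel

variable {A : Type*} [AddCommGroup A] {Θ : (Option (Pt α) →₀ ℤ) →+ A}

/-- The group of the divisor classes is divisible by two. -/
theorem two_div (hA : IsClasses (crv α) Θ) (x : A) : ∃ y, (2 : ℕ) • y = x := by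
  classical
  have h : ∀ D : Option (Pt α) →₀ ℤ, ∃ y, (2 : ℕ) • y =
      Θ (D - Finsupp.single none (Places.deg D)) := by
    intro D
    induction D using Finsupp.induction_linear with
    | zero => exact ⟨0, by simp⟩
    | add D D' h h' =>
      obtain ⟨y, hy⟩ := h
      obtain ⟨y', hy'⟩ := h'
      refine ⟨y + y', ?_⟩
      rw [smul_add, hy, hy', ← map_add, map_add Places.deg, Finsupp.single_add]
      congr 1
      abel
    | single P k =>
      rw [Places.deg_single]
      cases P with
      | none => exact ⟨0, by simp⟩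
      | some P =>
        obtain ⟨u, Z, hu⟩ := exists_half_pt P
        refine ⟨-(k • Θ Z), ?_⟩
        have e1 : (Finsupp.single (some P) k - Finsupp.single none k : Option (Pt α) →₀ ℤ) =
            k • (Finsupp.single (some P) 1 + Finsupp.single none (-1)) := by
          rw [smul_add, Finsupp.smul_single, Finsupp.smul_single, smul_eq_mul, smul_eq_mul, mul_one,
            mul_neg, mul_one, Finsupp.single_neg, sub_eq_add_neg]
        have e2 : Θ (Finsupp.single (some P) 1 + Finsupp.single none (-1)) = -((2 : ℕ) • Θ Z) := by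
          have h1 := hA.prin u
          rw [hu, map_add, map_nsmul] at h1
          exact eq_neg_of_add_eq_zero_left h1
        rw [e1, map_zsmul, e2, smul_neg, smul_neg, smul_comm]
  obtain ⟨D, hD, rfl⟩ := hA.surj x
  obtain ⟨y, hy⟩ := h D
  refine ⟨y, ?_⟩
  rw [hy, hD, Finsupp.single_zero, sub_zero]

theorem sum_Dr (hA : IsClasses (crv α) Θ) : ∑ i, Θ (Dr α i) = 0 := by
  rw [← map_sum, ← dv_y, hA.prin]

/-- An invariant divisor. -/
theorem inv_div (hA : IsClasses (crv α) Θ) {G : Option (Pt α) →₀ ℤ} (hG : Places.deg G = 0)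
    (hinv : ∀ P, G (ng P) = G P) :
    Θ G ∈ AddSubgroup.closure (Set.range fun i => Θ (Dr α i)) := by
  classical
  -- half of the unramified points
  have hs : ∀ a : F, ∃ b : F, b ^ 2 = (fP α).eval a := fun a => IsAlgClosed.exists_pow_nat_eq _
    two_pos
  choose s hs using hs
  let T : Option (Pt α) → Prop := fun P => ∃ Q, P = some Q ∧ Q.b ≠ 0 ∧ Q.b = s Q.a
  let H : Option (Pt α) →₀ ℤ := G.filter T
  let H' : Option (Pt α) →₀ ℤ := H - Finsupp.single none (Places.deg H)
  have hH' : Places.deg H' = 0 := by
    rw [map_sub, Places.deg_single, sub_self]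
  obtain ⟨n, hn⟩ := add_ng hH'
  let E : Option (Pt α) →₀ ℤ := G - (H' + H'.mapDomain ng)
  have hE0 : Places.deg E = 0 := by
    rw [map_sub, map_add, deg_mapDomain, hG, hH']
    norm_num
  have hmd : ∀ (X : Option (Pt α) →₀ ℤ) P, X.mapDomain ng P = X (ng P) := by
    intro X P
    conv_lhs => rw [← ng_ng P]
    rw [Finsupp.mapDomain_apply ng_inj]
  have hE1 : ∀ Q : Pt α, Q.b ≠ 0 → E (some Q) = 0 := by
    intro Q hQ
    have hE : E (some Q) = G (some Q) - (H (some Q) + H (some Q.neg)) := by
      change (G - (H' + H'.mapDomain ng)) (some Q) = _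
      rw [Finsupp.sub_apply, Finsupp.add_apply, hmd]
      simp [H', ng]
    have hG' : G (some Q.neg) = G (some Q) := hinv (some Q)
    have hneg : Q.neg.b = -Q.b := rfl
    have hnega : Q.neg.a = Q.a := rfl
    have hsq : Q.b = s Q.a ∨ Q.b = -s Q.a := by
      apply sq_eq_sq_iff_eq_or_eq_neg.1
      rw [Q.h, hs]
    have h2 : Q.b ≠ -Q.b := by
      intro h
      apply mul_ne_zero (Hyp.two (α := α)) hQ
      linear_combination h
    rw [hE]
    rcases hsq with h | h
    · have t1 : T (some Q) := ⟨Q, rfl, hQ, h⟩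
      have t2 : ¬ T (some Q.neg) := by
        rintro ⟨R, hR, -, hR2⟩
        have hR' : Q.neg = R := Option.some.inj hR
        rw [← hR', hneg, hnega, ← h] at hR2
        exact h2 hR2.symm
      have f1 : H (some Q) = G (some Q) := Finsupp.filter_apply_pos T G t1
      have f2 : H (some Q.neg) = 0 := Finsupp.filter_apply_neg T G t2
      rw [f1, f2]
      ring
    · have t1 : ¬ T (some Q) := by
        rintro ⟨R, hR, -, hR2⟩
        have hR' : Q = R := Option.some.inj hR
        rw [← hR', h] at hR2
        apply h2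
        rw [h, _root_.neg_neg]
        exact hR2
      have t2 : T (some Q.neg) := ⟨Q.neg, rfl, by rw [hneg]; exact neg_ne_zero.2 hQ, by
        rw [hneg, hnega, h, _root_.neg_neg]⟩
      have f1 : H (some Q) = 0 := Finsupp.filter_apply_neg T G t1
      have f2 : H (some Q.neg) = G (some Q.neg) := Finsupp.filter_apply_pos T G t2
      rw [f1, f2, hG']
      ring
  have hE2 : E = ∑ i, E (some (rp α i)) • Dr α i := by
    have haff : ∀ Q : Pt α, E (some Q) = (∑ i, E (some (rp α i)) • Dr α i) (some Q) := by
      intro Q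
      rw [Finsupp.finsetSum_apply]
      simp only [Dr, Finsupp.smul_apply, Finsupp.add_apply, Finsupp.single_apply]
      by_cases hQ : Q.b = 0
      · obtain ⟨i, hi⟩ := Q.root_of_b hQ
        have h1 : ∀ j, (some (rp α j) = some Q) ↔ j = i := by
          intro j
          constructor
          · intro h
            have h2 := congrArg Pt.a (Option.some.inj h)
            apply Hyp.inj (α := α)
            rw [hi]
            exact h2
          · rintro rfl
            exact congrArg some (Pt.ext hi hQ.symm)
        simp only [h1]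
        have h2 : rp α i = Q := Option.some.inj ((h1 i).2 rfl)
        simp [h2]
      · have h1 : ∀ j, ¬ (some (rp α j) = some Q) := by
          intro j h
          apply hQ
          have h2 := congrArg Pt.b (Option.some.inj h)
          exact h2.symm
        simp only [h1]
        simp [hE1 Q hQ]
    have hdeg2 : Places.deg (∑ i, E (some (rp α i)) • Dr α i) = 0 := by
      rw [map_sum]
      refine Finset.sum_eq_zero fun i _ => ?_
      rw [map_zsmul, deg_Dr, smul_zero]
    have key : ∀ X : Option (Pt α) →₀ ℤ, (∀ Q : Pt α, X (some Q) = 0) → Places.deg X = 0 →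
        X = 0 := by
      intro X hX hd
      have hX' : X = Finsupp.single none (X none) := by
        ext P
        cases P with
        | none => simp
        | some Q => simp [hX Q]
      rw [hX', Places.deg_single] at hd
      rw [hX', hd, Finsupp.single_zero]
    have := key (E - ∑ i, E (some (rp α i)) • Dr α i) (fun Q => by
      rw [Finsupp.sub_apply, ← haff, sub_self]) (by rw [map_sub, hE0, hdeg2, sub_zero])
    exact sub_eq_zero.1 this
  have hGE : G = E + (crv α).dv (iL n) := by
    rw [← hn]
    change G = G - (H' + H'.mapDomain ng) + _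
    abel
  rw [hGE, map_add, hA.prin, add_zero, hE2, map_sum]
  refine AddSubgroup.sum_mem _ fun i _ => ?_
  rw [map_zsmul]
  exact AddSubgroup.zsmul_mem _ (AddSubgroup.subset_closure (Set.mem_range_self i)) _

omit [IsAlgClosed F] in
theorem sU_iL (n : (RatFunc F)ˣ) : sU (iL n : (FF α)ˣ) = iL n := by
  apply Units.ext
  change star (algebraMap (RatFunc F) (FF α) n) = algebraMap (RatFunc F) (FF α) n
  ext <;> simp

/-- The elements of order two are generated by the ramification points. -/
theorem two_tors (hA : IsClasses (crv α) Θ) {x : A} (hx : (2 : ℕ) • x = 0) :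
    x ∈ AddSubgroup.closure (Set.range fun i => Θ (Dr α i)) := by
  classical
  obtain ⟨D, h, r⟩ := exists_rep hA hx
  obtain ⟨n, hn⟩ := add_ng r.deg
  -- the norm
  have h1 : (crv α).dv (iL (NU h)) = (crv α).dv (iL (n ^ 2)) := by
    rw [iL_NU, Places.dv_mul, dv_sU, r.dv, map_pow, Places.dv_pow, ← hn, smul_add]
    congr 1
    exact map_nsmul (Finsupp.mapDomain.addMonoidHom (ng (α := α)) : (Option (Pt α) →₀ ℤ) →+ _) 2 D
  obtain ⟨c, hc⟩ := (isCurve_crv α).const (iL (NU h) * (iL (n ^ 2))⁻¹) (by
    rw [Places.dv_mul, Places.dv_inv, h1, add_neg_cancel])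
  change iL (NU h) * (iL (n ^ 2))⁻¹ = iL (cU c) at hc
  obtain ⟨d, hd⟩ := IsAlgClosed.exists_pow_nat_eq (c : F) two_pos
  have hd0 : d ≠ 0 := by
    rintro rfl
    rw [zero_pow two_ne_zero] at hd
    exact c.ne_zero hd.symm
  have hcd : cU c = cU (Units.mk0 d hd0) ^ 2 := by
    apply Units.ext
    simp only [cU, pU, Units.val_mk0, Units.val_pow_eq_pow_val]
    rw [← map_pow, ← map_pow, hd]
  let n' : (RatFunc F)ˣ := cU (Units.mk0 d hd0) * n
  have hn' : (crv α).dv (iL n') = (crv α).dv (iL n) := by
    rw [map_mul, Places.dv_mul]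
    have : (crv α).dv (iL (cU (Units.mk0 d hd0)) : (FF α)ˣ) = 0 := by
      ext P
      rw [Places.dv_apply, o_iL, Places.o_eq _ (line_cU _ _), mul_zero, Finsupp.zero_apply]
    rw [this, zero_add]
  have h2 : h * sU h = iL n' * iL n' := by
    rw [← iL_NU, mul_inv_eq_iff_eq_mul.1 hc, hcd]
    simp only [n', map_mul, pow_two]
    simp only [mul_assoc, mul_left_comm]
  -- Hilbert 90
  let v : (FF α)ˣ := h * (iL n')⁻¹
  have hv : v * sU v = 1 := by
    simp only [v, map_mul, map_inv, sU_iL]
    rw [mul_mul_mul_comm, h2, mul_mul_mul_comm, mul_inv_cancel, one_mul]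
  obtain ⟨w, hw⟩ : ∃ w : (FF α)ˣ, v * sU w = w := by
    by_cases h1 : (1 : FF α) + (v : FF α) = 0
    · refine ⟨yU α, ?_⟩
      have h3 : v = -1 := by
        apply Units.ext
        rw [Units.val_neg, Units.val_one]
        exact (neg_eq_of_add_eq_zero_right h1).symm
      apply Units.ext
      rw [h3, Units.val_mul, Units.val_neg, Units.val_one, neg_one_mul]
      change -star (⟨0, 1⟩ : FF α) = ⟨0, 1⟩
      ext <;> simp
    · refine ⟨Units.mk0 _ h1, ?_⟩
      apply Units.ext
      rw [Units.val_mul]
      change (v : FF α) * star ((1 : FF α) + (v : FF α)) = 1 + (v : FF α)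
      have h3 : (v : FF α) * star (v : FF α) = 1 := congrArg Units.val hv
      rw [star_add, star_one, mul_add, mul_one, h3, add_comm]
  -- the invariant divisor
  have h3 : (2 : ℕ) • D = (D + D.mapDomain ng) + ((crv α).dv w - (crv α).dv (sU w)) := by
    have h4 : h = iL n' * (w * (sU w)⁻¹) := by
      have h5 : v = w * (sU w)⁻¹ := by rw [eq_mul_inv_iff_mul_eq, hw]
      rw [← h5]
      simp only [v]
      rw [mul_comm h, mul_inv_cancel_left]
    rw [← r.dv, h4, Places.dv_mul, Places.dv_mul, Places.dv_inv, hn', hn, ← sub_eq_add_neg]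
  have h4 : D - (crv α).dv w = D.mapDomain ng - ((crv α).dv w).mapDomain ng := by
    rw [dv_sU, two_nsmul] at h3
    have h5 : D = D.mapDomain ng + ((crv α).dv w - ((crv α).dv w).mapDomain ng) := by
      have := add_left_cancel (h3.trans (add_assoc _ _ _))
      exact this
    nth_rewrite 1 [h5]
    abel
  have h5 := inv_div hA (G := D - (crv α).dv w) (by rw [map_sub, r.deg, deg_crv, sub_zero])
    (fun P => by
      have h6 : (D.mapDomain ng - ((crv α).dv w).mapDomain ng : Option (Pt α) →₀ ℤ) (ng P) =
          (D - (crv α).dv w) P := by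
        rw [Finsupp.sub_apply, Finsupp.sub_apply, Finsupp.mapDomain_apply ng_inj,
          Finsupp.mapDomain_apply ng_inj]
      rw [← h6, h4])
  rwa [map_sub, hA.prin, sub_zero, r.cls] at h5

end

end Pool.Agent.N171
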