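import Mathlib
import Pool.Agent.N171.Bas
import Pool.Agent.N171.Crv5

/-!
# The coordinate ring is a Dedekind domain
-/

set_option linter.unusedSectionVars false

namespace Pool.Agent.N171

open HahnSeries Polynomial

section ring

variable {F ι : Type*} [Field F] [Fintype ι] {α : ι → F}

noncomputable instance : Algebra (RR α) (FF α) := (jR (α := α)).toAlgebra

theorem algR (x : RR α) : algebraMap (RR α) (FF α) x = jR x := rfl

instance : IsScalarTower F[X] (RR α) (FF α) := IsScalarTower.of_algebraMap_eq fun p => by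
  rw [algR, jR_apply]
  ext
  · rfl
  · exact (map_zero (algebraMap F[X] (RatFunc F))).symm

theorem squarefree_fP [Hyp α] : Squarefree (fP α) := by
  apply Separable.squarefree
  unfold fP
  exact separable_prod_X_sub_C_iff.2 (Hyp.inj (α := α))

variable [Hyp α]

instance : IsFractionRing (RR α) (FF α) where
  map_units := by
    rintro ⟨y, hy⟩
    rw [algR, isUnit_iff_ne_zero]
    intro h
    exact nonZeroDivisors.ne_zero hy (jR_inj (by rw [h, map_zero]))
  surj := by
    intro z
    obtain ⟨a, b, hb, h1⟩ := IsFractionRing.div_surjective (A := F[X]) z.re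
    obtain ⟨c, d, hd, h2⟩ := IsFractionRing.div_surjective (A := F[X]) z.im
    have hb0 : algebraMap F[X] (RatFunc F) b ≠ 0 := by
      rw [Ne, IsFractionRing.to_map_eq_zero_iff]
      exact nonZeroDivisors.ne_zero hb
    have hd0 : algebraMap F[X] (RatFunc F) d ≠ 0 := by
      rw [Ne, IsFractionRing.to_map_eq_zero_iff]
      exact nonZeroDivisors.ne_zero hd
    refine ⟨⟨⟨a * d, c * b⟩, ⟨⟨b * d, 0⟩, ?_⟩⟩, ?_⟩
    · rw [mem_nonZeroDivisors_iff_ne_zero]
      intro h
      have h3 : b * d = 0 := congrArg QuadraticAlgebra.re h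
      rcases mul_eq_zero.1 h3 with h | h
      · exact nonZeroDivisors.ne_zero hb h
      · exact nonZeroDivisors.ne_zero hd h
    · rw [algR, algR, jR_apply, jR_apply]
      ext
      · simp only [QuadraticAlgebra.re_mul, map_mul, map_zero, mul_zero, add_zero]
        rw [← h1]
        field_simp
      · simp only [QuadraticAlgebra.im_mul, map_mul, map_zero, mul_zero, zero_mul, add_zero,
          zero_add]
        rw [← h2]
        field_simp
  exists_of_eq := by
    intro x y h
    exact ⟨1, by rw [jR_inj h]⟩

theorem int_closed (z : FF α) (hz : IsIntegral (RR α) z) :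
    ∃ y, algebraMap (RR α) (FF α) y = z := by
  have hfin : Module.Finite F[X] (RR α) := inferInstance
  have hint : Algebra.IsIntegral F[X] (RR α) := Algebra.IsIntegral.of_finite _ _
  have h1 : IsIntegral F[X] z := isIntegral_trans z hz
  let st : FF α →ₐ[F[X]] FF α :=
    { (starRingEnd (FF α)) with
      commutes' := fun p => by
        change star (algebraMap F[X] (FF α) p) = algebraMap F[X] (FF α) p
        ext
        · rw [QuadraticAlgebra.re_star]
          change algebraMap F[X] (RatFunc F) p + 0 * 0 = algebraMap F[X] (RatFunc F) p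
          rw [zero_mul, add_zero]
        · rw [QuadraticAlgebra.im_star]
          change -(0 : RatFunc F) = 0
          rw [neg_zero] }
  have h2 : IsIntegral F[X] (star z) := h1.map st
  have hinj : Function.Injective (algebraMap (RatFunc F) (FF α)) :=
    (algebraMap (RatFunc F) (FF α)).injective
  have htow : IsScalarTower F[X] (RatFunc F) (FF α) :=
    IsScalarTower.of_algebraMap_eq fun p => rfl
  have hIC : ∀ r : RatFunc F, IsIntegral F[X] (algebraMap (RatFunc F) (FF α) r) →
      ∃ p, algebraMap F[X] (RatFunc F) p = r := by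
    intro r hr
    exact IsIntegrallyClosed.isIntegral_iff.1 ((isIntegral_algebraMap_iff hinj).1 hr)
  have htwo : (2 : RatFunc F) ≠ 0 := by
    have h3 : (2 : RatFunc F) = algebraMap F (RatFunc F) 2 := by rw [map_ofNat]
    rw [h3, Ne, map_eq_zero]
    exact Hyp.two (α := α)
  -- the trace
  obtain ⟨p, hp⟩ : ∃ p, algebraMap F[X] (RatFunc F) p = z.re := by
    obtain ⟨t, ht⟩ := hIC (2 * z.re) (by
      have h3 : algebraMap (RatFunc F) (FF α) (2 * z.re) = z + star z := by
        ext
        · rw [QuadraticAlgebra.re_add, QuadraticAlgebra.re_star]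
          change 2 * z.re = _
          ring
        · rw [QuadraticAlgebra.im_add, QuadraticAlgebra.im_star]
          change (0 : RatFunc F) = _
          ring
      rw [h3]
      exact h1.add h2)
    refine ⟨t * Polynomial.C (2⁻¹ : F), ?_⟩
    rw [map_mul, ht]
    have h4 : (algebraMap F[X] (RatFunc F) (Polynomial.C (2⁻¹ : F))) * 2 = 1 := by
      have h5 : (2 : RatFunc F) = algebraMap F[X] (RatFunc F) (Polynomial.C (2 : F)) := by
        rw [map_ofNat, map_ofNat]
      rw [h5, ← map_mul, ← Polynomial.C_mul, inv_mul_cancel₀ (Hyp.two (α := α)), Polynomial.C_1,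
        map_one]
    linear_combination z.re * h4
  -- the norm
  obtain ⟨w, hw⟩ : ∃ w, algebraMap F[X] (RatFunc F) w =
      algebraMap F[X] (RatFunc F) (fP α) * z.im ^ 2 := by
    obtain ⟨t, ht⟩ := hIC (z.re ^ 2 - algebraMap F[X] (RatFunc F) (fP α) * z.im ^ 2) (by
      have h3 : algebraMap (RatFunc F) (FF α)
          (z.re ^ 2 - algebraMap F[X] (RatFunc F) (fP α) * z.im ^ 2) = z * star z := by
        ext
        · rw [QuadraticAlgebra.re_mul, QuadraticAlgebra.re_star, QuadraticAlgebra.im_star]
          change z.re ^ 2 - algebraMap F[X] (RatFunc F) (fP α) * z.im ^ 2 = _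
          ring
        · rw [QuadraticAlgebra.im_mul, QuadraticAlgebra.re_star, QuadraticAlgebra.im_star]
          change (0 : RatFunc F) = _
          ring
      rw [h3]
      exact h1.mul h2)
    refine ⟨p ^ 2 - t, ?_⟩
    rw [map_sub, map_pow, ht, hp]
    ring
  obtain ⟨g, hg⟩ : ∃ g, algebraMap F[X] (RatFunc F) g =
      algebraMap F[X] (RatFunc F) (fP α) * z.im := by
    apply IsIntegrallyClosed.isIntegral_iff.1
    apply IsIntegral.of_pow (n := 2) two_pos
    have h3 : (algebraMap F[X] (RatFunc F) (fP α) * z.im) ^ 2 =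
        algebraMap F[X] (RatFunc F) (fP α * w) := by
      rw [map_mul, hw]
      ring
    rw [h3]
    exact isIntegral_algebraMap
  have hgf : g ^ 2 = fP α * w := by
    apply IsFractionRing.injective F[X] (RatFunc F)
    rw [map_pow, hg, map_mul, hw]
    ring
  obtain ⟨q, hq⟩ : fP α ∣ g :=
    (Squarefree.dvd_pow_iff_dvd (squarefree_fP (α := α)) two_ne_zero).1 ⟨w, hgf⟩
  refine ⟨⟨p, q⟩, ?_⟩
  rw [algR, jR_apply]
  ext
  · exact hp
  · change algebraMap F[X] (RatFunc F) q = z.im
    have h5 : algebraMap F[X] (RatFunc F) (fP α) ≠ 0 := by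
      rw [Ne, IsFractionRing.to_map_eq_zero_iff]
      exact fP_ne_zero α
    apply mul_left_cancel₀ h5
    rw [← hg, hq, map_mul]

instance : IsDedekindDomain (RR α) := by
  rw [isDedekindDomain_iff (RR α) (FF α)]
  have hfin : Module.Finite F[X] (RR α) := inferInstance
  have hint : Algebra.IsIntegral F[X] (RR α) := Algebra.IsIntegral.of_finite _ _
  refine ⟨inferInstance, IsNoetherianRing.of_finite F[X] (RR α),
    Ring.DimensionLEOne.of_isIntegral F[X] (RR α), fun {z} hz => int_closed z hz⟩

end ring

end Pool.Agent.N171
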