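import Mathlib
import Pool.Agent.N171.Cr

/-!
# The class group of the coordinate ring
-/

set_option linter.unusedSectionVars false

namespace Pool.Agent.N171

open HahnSeries Polynomial

section pts

variable {F ι : Type*} [Field F] [Fintype ι] {α : ι → F}

/-- The value at a point. -/
noncomputable def evP (P : Pt α) : RR α →+* F :=
  qH (evalRingHom P.a) P.b (by rw [← pow_two, P.h]; rfl)

theorem evP_apply (P : Pt α) (x : RR α) : evP P x = x.re.eval P.a + x.im.eval P.a * P.b := rfl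

/-- The ideal of a point. -/
noncomputable def mP (P : Pt α) : Ideal (RR α) := RingHom.ker (evP P)

theorem mem_mP (P : Pt α) (x : RR α) : x ∈ mP P ↔ evP P x = 0 := RingHom.mem_ker

theorem evP_C (P : Pt α) (c : F) : evP P ⟨Polynomial.C c, 0⟩ = c := by
  rw [evP_apply, eval_C, eval_zero, zero_mul, add_zero]

theorem evP_surj (P : Pt α) : Function.Surjective (evP P) := fun c => ⟨_, evP_C P c⟩

instance (P : Pt α) : (mP P).IsMaximal := RingHom.ker_isMaximal_of_surjective _ (evP_surj P)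

theorem evP_x (P : Pt α) (c : F) : evP P ⟨X - Polynomial.C c, 0⟩ = P.a - c := by
  rw [evP_apply, eval_sub, eval_X, eval_C, eval_zero, zero_mul, add_zero]

theorem evP_y (P : Pt α) (c : F) : evP P ⟨-Polynomial.C c, 1⟩ = P.b - c := by
  rw [evP_apply, eval_neg, eval_C, eval_one, one_mul]
  ring

theorem mP_inj : Function.Injective (mP (α := α)) := by
  intro P Q h
  have h1 : (⟨X - Polynomial.C P.a, 0⟩ : RR α) ∈ mP Q := by
    rw [← h, mem_mP, evP_x, sub_self]
  have h2 : (⟨-Polynomial.C P.b, 1⟩ : RR α) ∈ mP Q := by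
    rw [← h, mem_mP, evP_y, sub_self]
  rw [mem_mP, evP_x] at h1
  rw [mem_mP, evP_y] at h2
  exact Pt.ext (sub_eq_zero.1 h1).symm (sub_eq_zero.1 h2).symm

theorem mP_ne_bot (P : Pt α) : mP P ≠ ⊥ := by
  intro h
  have h1 : (⟨X - Polynomial.C P.a, 0⟩ : RR α) ∈ mP P := by
    rw [mem_mP, evP_x, sub_self]
  rw [h, Ideal.mem_bot] at h1
  exact X_sub_C_ne_zero P.a (congrArg QuadraticAlgebra.re h1)

/-- Elements of an ideal that contains the coordinates. -/
theorem mP_le (P : Pt α) {I : Ideal (RR α)} (h1 : (⟨X - Polynomial.C P.a, 0⟩ : RR α) ∈ I)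
    (h2 : (⟨-Polynomial.C P.b, 1⟩ : RR α) ∈ I) : mP P ≤ I := by
  intro r hr
  rw [mem_mP, evP_apply] at hr
  obtain ⟨p, hp⟩ := X_sub_C_dvd_sub_C_eval (a := P.a) (p := r.re)
  obtain ⟨q, hq⟩ := X_sub_C_dvd_sub_C_eval (a := P.a) (p := r.im)
  have h3 : r = ⟨X - Polynomial.C P.a, 0⟩ * ⟨p, q⟩ +
      ⟨Polynomial.C (r.im.eval P.a), 0⟩ * ⟨-Polynomial.C P.b, 1⟩ := by
    ext1
    · rw [QuadraticAlgebra.re_add, QuadraticAlgebra.re_mul, QuadraticAlgebra.re_mul]
      have h4 : r.re = Polynomial.C (r.re.eval P.a) + (X - Polynomial.C P.a) * p := by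
        rw [← hp]; ring
      have h5 : Polynomial.C (r.re.eval P.a) = -(Polynomial.C (r.im.eval P.a) *
          Polynomial.C P.b) := by
        rw [← Polynomial.C_mul, ← Polynomial.C_neg]
        congr 1
        linear_combination hr
      conv_lhs => rw [h4, h5]
      ring
    · rw [QuadraticAlgebra.im_add, QuadraticAlgebra.im_mul, QuadraticAlgebra.im_mul]
      have h4 : r.im = Polynomial.C (r.im.eval P.a) + (X - Polynomial.C P.a) * q := by
        rw [← hq]; ring
      conv_lhs => rw [h4]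
      ring
  rw [h3]
  exact I.add_mem (I.mul_mem_right _ h1) (I.mul_mem_left _ h2)

variable [IsAlgClosed F] [Hyp α]

/-- Every nonzero prime is the ideal of a point. -/
theorem exists_mP {𝔭 : Ideal (RR α)} (h𝔭 : 𝔭.IsPrime) (h0 : 𝔭 ≠ ⊥) : ∃ P, 𝔭 = mP P := by
  have hint : Algebra.IsIntegral F[X] (RR α) := Algebra.IsIntegral.of_finite _ _
  -- the prime of the line
  obtain ⟨r, hr, hr0⟩ := Submodule.exists_mem_ne_zero_of_ne_bot h0
  -- the norm is in the prime
  have hn : (⟨r.re ^ 2 - fP α * r.im ^ 2, 0⟩ : RR α) ∈ 𝔭 := by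
    have h1 : (⟨r.re ^ 2 - fP α * r.im ^ 2, 0⟩ : RR α) = r * star r := by
      ext1
      · rw [QuadraticAlgebra.re_mul, QuadraticAlgebra.re_star, QuadraticAlgebra.im_star]
        ring
      · rw [QuadraticAlgebra.im_mul, QuadraticAlgebra.re_star, QuadraticAlgebra.im_star]
        ring
    rw [h1]
    exact 𝔭.mul_mem_right _ hr
  have hn0 : r.re ^ 2 - fP α * r.im ^ 2 ≠ 0 := by
    intro h
    have h1 : r * star r = 0 := by
      ext1
      · rw [QuadraticAlgebra.re_mul, QuadraticAlgebra.re_star, QuadraticAlgebra.im_star]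
        change _ = (0 : F[X])
        linear_combination h
      · rw [QuadraticAlgebra.im_mul, QuadraticAlgebra.re_star, QuadraticAlgebra.im_star]
        change _ = (0 : F[X])
        ring
    rcases mul_eq_zero.1 h1 with h2 | h2
    · exact hr0 h2
    · exact hr0 (by rw [← star_star r, h2, star_zero])
  -- the polynomials of the prime
  let J : Ideal F[X] := 𝔭.comap (algebraMap F[X] (RR α))
  have hJ : J.IsPrime := Ideal.comap_isPrime _ _
  have hmemJ : ∀ p : F[X], p ∈ J ↔ (⟨p, 0⟩ : RR α) ∈ 𝔭 := fun p => Iff.rfl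
  obtain ⟨a, ha⟩ : ∃ a, (⟨X - Polynomial.C a, 0⟩ : RR α) ∈ 𝔭 := by
    by_contra hne
    push Not at hne
    have h1 : ∀ p : F[X], p ≠ 0 → p ∉ J := by
      intro p hp hpJ
      have h2 := IsAlgClosed.splits p
      rw [h2.eq_prod_roots] at hpJ
      rcases hJ.mem_or_mem hpJ with h | h
      · have h3 : IsUnit (Polynomial.C p.leadingCoeff) :=
          isUnit_C.2 (isUnit_iff_ne_zero.2 (leadingCoeff_ne_zero.2 hp))
        exact hJ.ne_top (Ideal.eq_top_of_isUnit_mem _ h h3)
      · rw [Ideal.IsPrime.multiset_prod_mem_iff_exists_mem hJ] at h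
        obtain ⟨s, hs, hsJ⟩ := h
        rw [Multiset.mem_map] at hs
        obtain ⟨a, -, rfl⟩ := hs
        exact hne a ((hmemJ _).1 hsJ)
    exact h1 _ hn0 ((hmemJ _).2 hn)
  obtain ⟨P, hP⟩ := exists_pt α a
  have h1 : (⟨-Polynomial.C P.b, 1⟩ : RR α) * ⟨-Polynomial.C P.neg.b, 1⟩ ∈ 𝔭 := by
    obtain ⟨q, hq⟩ := X_sub_C_dvd_sub_C_eval (a := a) (p := fP α)
    have h2 : (⟨-Polynomial.C P.b, 1⟩ : RR α) * ⟨-Polynomial.C P.neg.b, 1⟩ =
        ⟨X - Polynomial.C a, 0⟩ * ⟨q, 0⟩ := by
      have h3 : P.neg.b = -P.b := rfl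
      ext1
      · rw [QuadraticAlgebra.re_mul, QuadraticAlgebra.re_mul, h3]
        have h4 : Polynomial.C P.b ^ 2 = Polynomial.C ((fP α).eval a) := by
          rw [← Polynomial.C_pow, P.h, hP]
        simp only [Polynomial.C_neg]
        linear_combination (-1 : F[X]) * h4 + hq
      · rw [QuadraticAlgebra.im_mul, QuadraticAlgebra.im_mul, h3]
        simp only [Polynomial.C_neg]
        ring
    rw [h2]
    exact 𝔭.mul_mem_right _ ha
  have hmax : ∀ Q : Pt α, mP Q ≤ 𝔭 → 𝔭 = mP Q := fun Q h =>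
    ((inferInstance : (mP Q).IsMaximal).eq_of_le h𝔭.ne_top h).symm
  rcases h𝔭.mem_or_mem h1 with h | h
  · exact ⟨P, hmax P (mP_le P (by rw [hP]; exact ha) h)⟩
  · exact ⟨P.neg, hmax P.neg (mP_le P.neg (by
      change (⟨X - Polynomial.C P.a, 0⟩ : RR α) ∈ 𝔭
      rw [hP]; exact ha) h)⟩

/-- Every nonzero ideal is the product of the ideals of points. -/
theorem exists_prod (I : Ideal (RR α)) (hI : I ≠ ⊥) : ∃ s : Multiset (Pt α),
    I = (s.map mP).prod := by
  induction I using UniqueFactorizationMonoid.induction_on_prime with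
  | h₁ => exact absurd rfl hI
  | h₂ J hJ =>
    refine ⟨0, ?_⟩
    rw [Multiset.map_zero, Multiset.prod_zero]
    exact isUnit_iff_eq_one.1 hJ
  | h₃ J 𝔭 hJ h𝔭 ih =>
    obtain ⟨s, rfl⟩ := ih hJ
    obtain ⟨P, rfl⟩ := exists_mP (Ideal.isPrime_of_prime h𝔭) h𝔭.ne_zero
    exact ⟨P ::ₘ s, by rw [Multiset.map_cons, Multiset.prod_cons]⟩

theorem prime_mP (P : Pt α) : Prime (mP P) :=
  Ideal.prime_of_isPrime (mP_ne_bot P) (inferInstance : (mP P).IsMaximal).isPrime

theorem prod_unique {s t : Multiset (Pt α)} (h : (s.map mP).prod = (t.map mP).prod) : s = t := by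
  classical
  have h1 : ∀ s : Multiset (Pt α), UniqueFactorizationMonoid.normalizedFactors (s.map mP).prod =
      s.map mP := by
    intro s
    apply UniqueFactorizationMonoid.normalizedFactors_prod_of_prime
    intro p hp
    obtain ⟨P, -, rfl⟩ := Multiset.mem_map.1 hp
    exact prime_mP P
  have h2 := h1 s
  rw [h, h1 t] at h2
  exact (Multiset.map_injective mP_inj h2).symm

/-! ### orders -/

/-- The expansion of a regular function. -/
theorem IntL_jR (P : Pt α) (r : RR α) : IntL ((crv α).φ (some P) (jR r)) ∧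
    ((crv α).φ (some P) (jR r)).coeff 0 = evP P r := by
  have h1 : jR r = algebraMap (RatFunc F) (FF α) (algebraMap F[X] (RatFunc F) r.re) +
      algebraMap (RatFunc F) (FF α) (algebraMap F[X] (RatFunc F) r.im) * (yU α : (FF α)ˣ) := by
    rw [jR_apply]
    have h2 : ((yU α : (FF α)ˣ) : FF α) = ⟨0, 1⟩ := rfl
    rw [h2]
    ext1
    · rw [QuadraticAlgebra.re_add, QuadraticAlgebra.re_mul]
      change _ = algebraMap F[X] (RatFunc F) r.re + _
      simp
    · rw [QuadraticAlgebra.im_add, QuadraticAlgebra.im_mul]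
      simp
  have hy : IntL ((crv α).φ (some P) (yU α : (FF α)ˣ)) ∧
      ((crv α).φ (some P) (yU α : (FF α)ˣ)).coeff 0 = P.b := by
    rw [φC_y]
    have h2 := wC_LT (some P)
    by_cases hb : P.b = 0
    · have hk : kC (some P) = 1 := by simp [kC, hb]
      rw [hk] at h2
      exact ⟨fun m hm => h2.1 m (by omega), by rw [h2.1 0 one_pos, hb]⟩
    · have hk : kC (some P) = 0 := by simp [kC, hb]
      have he : eC (some P) = P.b := by simp [eC, hb]
      rw [hk, he] at h2
      exact ⟨fun m hm => h2.1 m hm, h2.2.1⟩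
  rw [h1, map_add, map_mul]
  refine ⟨(IntL_pol P _).add ((IntL_pol P _).mul hy.1), ?_⟩
  have hmul : ∀ {x y : LaurentSeries F}, IntL x → IntL y → (x * y).coeff 0 =
      x.coeff 0 * y.coeff 0 := by
    intro x y hx hy
    rw [HahnSeries.coeff_mul]
    rw [Finset.sum_eq_single (0, 0)]
    · rintro ⟨i, j⟩ hij hne
      rw [Finset.mem_antidiagonal] at hij
      obtain ⟨hi, hj, hs⟩ := hij
      dsimp only at hi hj hs ⊢
      have hi0 : 0 ≤ i := by
        by_contra h
        exact hi (hx i (not_le.1 h))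
      have hj0 : 0 ≤ j := by
        by_contra h
        exact hj (hy j (not_le.1 h))
      exact absurd (Prod.ext (by omega : i = 0) (by omega : j = 0)) hne
    · intro h
      rw [Finset.mem_antidiagonal] at h
      dsimp only
      by_contra hne
      apply h
      refine ⟨?_, ?_, by simp⟩
      · intro h0
        exact hne (by rw [h0, zero_mul])
      · intro h0
        exact hne (by rw [h0, mul_zero])
  rw [HahnSeries.coeff_add, hmul (IntL_pol P _) hy.1, coeff_pol, coeff_pol, hy.2, evP_apply]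

end pts

end Pool.Agent.N171
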