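import Mathlib
import Pool.Agent.N171.Cls

/-!
# Divisors and the class group
-/

set_option linter.unusedSectionVars false

namespace Pool.Agent.N171

open HahnSeries Polynomial nonZeroDivisors

section ord

variable {F : Type*} [Field F]

/-- Order at least `n`. -/
def OrdGe (n : ℤ) (x : LaurentSeries F) : Prop := ∀ m < n, x.coeff m = 0

theorem OrdGe.order {n : ℤ} {x : LaurentSeries F} (h : OrdGe n x) (hx : x ≠ 0) : n ≤ x.order := by
  by_contra h1
  push Not at h1
  exact hx (coeff_order_eq_zero.1 (h _ h1))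

theorem OrdGe_of {n : ℤ} {x : LaurentSeries F} (h : n ≤ x.order) : OrdGe n x := fun _ hm =>
  coeff_eq_zero_of_lt_order (hm.trans_le h)

theorem OrdGe.mul {n k : ℤ} {x y : LaurentSeries F} (hx : OrdGe n x) (hy : OrdGe k y) :
    OrdGe (n + k) (x * y) := by
  by_cases hx0 : x = 0
  · subst hx0
    intro m _
    rw [zero_mul, HahnSeries.coeff_zero]
  by_cases hy0 : y = 0
  · subst hy0
    intro m _
    rw [mul_zero, HahnSeries.coeff_zero]
  apply OrdGe_of
  rw [order_mul hx0 hy0]
  exact add_le_add (hx.order hx0) (hy.order hy0)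

end ord

variable {F ι : Type*} [Field F] [Fintype ι] {α : ι → F} [IsAlgClosed F] [Hyp α]

/-- The ideal of the functions of order at least `n`. -/
def JP (P : Pt α) (n : ℕ) : Ideal (RR α) where
  carrier := {r | OrdGe n ((crv α).φ (some P) (jR r))}
  add_mem' := by
    intro x y hx hy m hm
    rw [map_add, map_add, HahnSeries.coeff_add, hx m hm, hy m hm, add_zero]
  zero_mem' := by
    intro m _
    rw [map_zero, map_zero, HahnSeries.coeff_zero]
  smul_mem' := by
    intro c x hx
    have h1 : OrdGe 0 ((crv α).φ (some P) (jR c)) := (IntL_jR P c).1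
    change OrdGe n ((crv α).φ (some P) (jR (c * x)))
    rw [map_mul, map_mul]
    have h2 := h1.mul hx
    rwa [zero_add] at h2

theorem mem_JP {P : Pt α} {n : ℕ} {r : RR α} :
    r ∈ JP P n ↔ OrdGe n ((crv α).φ (some P) (jR r)) := Iff.rfl

/-- A nonzero regular function as a unit of the function field. -/
noncomputable def jU (r : RR α) (hr : r ≠ 0) : (FF α)ˣ :=
  Units.mk0 (jR r) ((map_ne_zero_iff jR jR_inj).2 hr)

theorem o_jU (P : Option (Pt α)) (r : RR α) (hr : r ≠ 0) :
    (crv α).o P (jU r hr) = ((crv α).φ P (jR r)).order := rfl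

theorem mem_JP_iff {P : Pt α} {n : ℕ} {r : RR α} (hr : r ≠ 0) :
    r ∈ JP P n ↔ (n : ℤ) ≤ (crv α).o (some P) (jU r hr) := by
  rw [mem_JP, o_jU]
  constructor
  · intro h
    exact h.order ((map_ne_zero_iff _ ((crv α).φ (some P)).injective).2
      ((map_ne_zero_iff jR jR_inj).2 hr))
  · exact OrdGe_of

theorem JP_one (P : Pt α) : JP P 1 = mP P := by
  ext r
  rw [mem_JP, mem_mP, ← (IntL_jR P r).2]
  constructor
  · intro h
    exact h 0 (by norm_num)
  · intro h m hm
    rcases lt_or_eq_of_le (Int.le_sub_one_of_lt hm) with h1 | h1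
    · exact (IntL_jR P r).1 m (by simpa using h1)
    · have : m = 0 := by simpa using h1
      rw [this, h]

theorem pow_le_JP (P : Pt α) (n : ℕ) : mP P ^ n ≤ JP P n := by
  induction n with
  | zero =>
    intro r _
    exact (IntL_jR P r).1
  | succ n ih =>
    rw [pow_succ, Ideal.mul_le]
    intro r hr s hs
    rw [← JP_one] at hs
    change OrdGe ((n + 1 : ℕ) : ℤ) ((crv α).φ (some P) (jR (r * s)))
    rw [map_mul, map_mul, Nat.cast_succ]
    exact (ih hr).mul (by simpa using mem_JP.1 hs)

/-- A function with a simple zero at a point. -/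
theorem exists_unif (P : Pt α) : ∃ (r : RR α) (hr : r ≠ 0), (crv α).o (some P) (jU r hr) = 1 := by
  by_cases hb : P.b = 0
  · have h0 : (⟨0, 1⟩ : RR α) ≠ 0 := fun h => one_ne_zero (congrArg QuadraticAlgebra.im h)
    refine ⟨⟨0, 1⟩, h0, ?_⟩
    have h1 : jR (⟨0, 1⟩ : RR α) = ((yU α : (FF α)ˣ) : FF α) := by
      rw [jR_apply]
      ext1
      · exact map_zero _
      · exact map_one _
    rw [o_jU, h1, φC_y]
    have hk : kC (some P) = 1 := by simp [kC, hb]
    rw [(wC_LT (some P)).order, hk]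
  · have h0 : (⟨X - Polynomial.C P.a, 0⟩ : RR α) ≠ 0 := fun h =>
      X_sub_C_ne_zero P.a (congrArg QuadraticAlgebra.re h)
    refine ⟨⟨X - Polynomial.C P.a, 0⟩, h0, ?_⟩
    have h1 : jR (⟨X - Polynomial.C P.a, 0⟩ : RR α) =
        ((iL (xU P.a) : (FF α)ˣ) : FF α) := by
      rw [jR_apply]
      ext1
      · rfl
      · exact map_zero _
    rw [o_jU, h1, crv_iL, eH_xU, (zC_unr_self hb).order]

theorem JP_eq (P : Pt α) (n : ℕ) : JP P n = mP P ^ n := by
  have h1 : JP P n ∣ mP P ^ n := Ideal.dvd_iff_le.2 (pow_le_JP P n)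
  obtain ⟨i, hi, h2⟩ := (dvd_prime_pow (prime_mP P) n).1 h1
  rw [associated_iff_eq] at h2
  rcases hi.lt_or_eq with h | h
  · exfalso
    obtain ⟨r, hr, ho⟩ := exists_unif P
    have h3 : r ∈ mP P := by
      rw [← JP_one, mem_JP_iff hr, ho]
      rfl
    have h4 : r ^ i ∈ JP P n := by
      rw [h2]
      exact Ideal.pow_mem_pow h3 i
    rw [mem_JP_iff (pow_ne_zero i hr)] at h4
    have h5 : jU (r ^ i) (pow_ne_zero i hr) = jU r hr ^ i := Units.ext (map_pow jR r i)
    have h6 : ∀ i : ℕ, (crv α).o (some P) (jU r hr ^ i) = i := by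
      intro i
      induction i with
      | zero => rw [pow_zero, Places.o_one, Nat.cast_zero]
      | succ i ih => rw [pow_succ, Places.o_mul, ih, ho, Nat.cast_succ]
    rw [h5, h6] at h4
    omega
  · rw [h2, h]

theorem mem_pow_iff {P : Pt α} {n : ℕ} {r : RR α} (hr : r ≠ 0) :
    r ∈ mP P ^ n ↔ (n : ℤ) ≤ (crv α).o (some P) (jU r hr) := by
  rw [← JP_eq, mem_JP_iff hr]

theorem nf_prod (s : Multiset (Pt α)) :
    UniqueFactorizationMonoid.normalizedFactors (s.map mP).prod = s.map mP := by
  apply UniqueFactorizationMonoid.normalizedFactors_prod_of_prime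
  intro p hp
  obtain ⟨P, -, rfl⟩ := Multiset.mem_map.1 hp
  exact prime_mP P

theorem prod_ne (s : Multiset (Pt α)) : (s.map mP).prod ≠ 0 := by
  rw [Ne, Multiset.prod_eq_zero_iff]
  intro h
  obtain ⟨P, -, hP⟩ := Multiset.mem_map.1 h
  exact mP_ne_bot P hP

open Classical in
theorem count_eq {r : RR α} (hr : r ≠ 0) {s : Multiset (Pt α)}
    (hs : Ideal.span {r} = (s.map mP).prod) (P : Pt α) :
    (s.count P : ℤ) = (crv α).o (some P) (jU r hr) := by
  have h1 : ∀ n : ℕ, (n : ℤ) ≤ (crv α).o (some P) (jU r hr) ↔ n ≤ s.count P := by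
    intro n
    rw [← mem_pow_iff hr, ← Ideal.span_singleton_le_iff_mem, ← Ideal.dvd_iff_le, hs]
    have h2 : mP P ^ n = ((Multiset.replicate n P).map mP).prod := by
      rw [Multiset.map_replicate, Multiset.prod_replicate]
    rw [h2, UniqueFactorizationMonoid.dvd_iff_normalizedFactors_le_normalizedFactors (prod_ne _)
      (prod_ne _), nf_prod, nf_prod, Multiset.map_replicate, ← Multiset.le_count_iff_replicate_le,
      Multiset.count_map_eq_count' _ _ mP_inj]
  have h0 : 0 ≤ (crv α).o (some P) (jU r hr) := by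
    have := (h1 0).2 (Nat.zero_le _)
    simpa using this
  obtain ⟨k, hk⟩ := Int.eq_ofNat_of_zero_le h0
  rw [hk] at h1 ⊢
  congr 1
  apply le_antisymm
  · have := (h1 (s.count P)).2 le_rfl
    exact_mod_cast this
  · exact (h1 k).1 le_rfl

/-! ### divisors -/

/-- The divisor of a multiset of points. -/
noncomputable def Ds (s : Multiset (Pt α)) : Option (Pt α) →₀ ℤ :=
  (s.map fun P => Finsupp.single (some P) (1 : ℤ)).sum

theorem Ds_add (s t : Multiset (Pt α)) : Ds (s + t) = Ds s + Ds t := by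
  rw [Ds, Multiset.map_add, Multiset.sum_add]
  rfl

theorem Ds_cons (P : Pt α) (s : Multiset (Pt α)) :
    Ds (P ::ₘ s) = Finsupp.single (some P) 1 + Ds s := by
  rw [Ds, Multiset.map_cons, Multiset.sum_cons]
  rfl

open Classical in
theorem Ds_some (s : Multiset (Pt α)) (P : Pt α) : Ds s (some P) = s.count P := by
  induction s using Multiset.induction_on with
  | empty => rfl
  | cons Q s ih =>
    rw [Ds_cons, Finsupp.add_apply, ih, Multiset.count_cons, Finsupp.single_apply]
    by_cases h : P = Q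
    · subst h
      simp
      ring
    · rw [if_neg h, if_neg, zero_add, add_zero]
      exact fun h' => h (Option.some.inj h').symm

theorem Ds_none (s : Multiset (Pt α)) : Ds s none = 0 := by
  induction s using Multiset.induction_on with
  | empty => rfl
  | cons Q s ih =>
    rw [Ds_cons, Finsupp.add_apply, ih, add_zero]
    exact Finsupp.single_eq_of_ne (by simp)

theorem Ds_inj_some {s t : Multiset (Pt α)} (h : ∀ P, Ds s (some P) = Ds t (some P)) : s = t := by
  classical
  ext P
  have h1 := h P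
  rw [Ds_some, Ds_some] at h1
  exact_mod_cast h1

/-- The divisor of a regular function. -/
theorem dv_jU {r : RR α} (hr : r ≠ 0) {s : Multiset (Pt α)}
    (hs : Ideal.span {r} = (s.map mP).prod) :
    (crv α).dv (jU r hr) = Ds s + Finsupp.single none ((crv α).o none (jU r hr)) := by
  classical
  ext P
  rw [Finsupp.add_apply, Places.dv_apply]
  cases P with
  | none => rw [Ds_none, Finsupp.single_eq_same, zero_add]
  | some P =>
    rw [Ds_some, count_eq hr hs, Finsupp.single_eq_of_ne (by simp), add_zero]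

theorem exists_Ds (D : Option (Pt α) →₀ ℤ) : ∃ s t : Multiset (Pt α), ∃ c : ℤ,
    D + Ds t = Ds s + Finsupp.single none c := by
  induction D using Finsupp.induction_linear with
  | zero => exact ⟨0, 0, 0, by simp⟩
  | add D D' h h' =>
    obtain ⟨s, t, c, h⟩ := h
    obtain ⟨s', t', c', h'⟩ := h'
    refine ⟨s + s', t + t', c + c', ?_⟩
    rw [Ds_add, Ds_add, Finsupp.single_add]
    calc D + D' + (Ds t + Ds t') = (D + Ds t) + (D' + Ds t') := by abel
      _ = _ := by rw [h, h']; abel
  | single P k =>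
    cases P with
    | none => exact ⟨0, 0, k, by simp [Ds]⟩
    | some P =>
      have h1 : ∀ n : ℕ, Ds (Multiset.replicate n P) = Finsupp.single (some P) (n : ℤ) := by
        intro n
        rw [Ds, Multiset.map_replicate, Multiset.sum_replicate, Finsupp.smul_single]
        simp
      rcases le_total 0 k with h | h
      · obtain ⟨n, rfl⟩ := Int.eq_ofNat_of_zero_le h
        exact ⟨Multiset.replicate n P, 0, 0, by simp [Ds]⟩
      · obtain ⟨n, hn⟩ := Int.eq_ofNat_of_zero_le (Int.neg_nonneg_of_nonpos h)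
        refine ⟨0, Multiset.replicate n P, 0, ?_⟩
        rw [h1, ← Finsupp.single_add, ← hn]
        simp [Ds]

/-- The class of a point. -/
noncomputable def cl : Option (Pt α) → Additive (ClassGroup (RR α))
  | none => 0
  | some P => Additive.ofMul (ClassGroup.mk0 ⟨mP P, mem_nonZeroDivisors_iff_ne_zero.2 (mP_ne_bot P)⟩)

/-- The class of a divisor. -/
noncomputable def Th (α : ι → F) [Hyp α] :
    (Option (Pt α) →₀ ℤ) →+ Additive (ClassGroup (RR α)) :=
  Finsupp.liftAddHom fun P => zmultiplesHom _ (cl P)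

theorem Th_single (P : Option (Pt α)) (k : ℤ) : Th α (Finsupp.single P k) = k • cl P := by
  rw [Th, Finsupp.liftAddHom_apply_single]
  rfl

theorem Th_Ds (s : Multiset (Pt α)) : Th α (Ds s) = Additive.ofMul
    (ClassGroup.mk0 ⟨(s.map mP).prod, mem_nonZeroDivisors_iff_ne_zero.2 (prod_ne s)⟩) := by
  induction s using Multiset.induction_on with
  | empty =>
    have h1 : Ds (0 : Multiset (Pt α)) = 0 := rfl
    rw [h1, map_zero]
    symm
    have h2 : (⟨((0 : Multiset (Pt α)).map mP).prod, mem_nonZeroDivisors_iff_ne_zero.2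
        (prod_ne 0)⟩ : (Ideal (RR α))⁰) = 1 := Subtype.ext (by simp)
    rw [h2, map_one, ofMul_one]
  | cons P s ih =>
    rw [Ds_cons, map_add, ih, Th_single, one_smul]
    have h2 : (⟨((P ::ₘ s).map mP).prod, mem_nonZeroDivisors_iff_ne_zero.2
        (prod_ne _)⟩ : (Ideal (RR α))⁰) = ⟨mP P, mem_nonZeroDivisors_iff_ne_zero.2 (mP_ne_bot P)⟩ *
          ⟨(s.map mP).prod, mem_nonZeroDivisors_iff_ne_zero.2 (prod_ne s)⟩ :=
      Subtype.ext (by simp)
    rw [h2, map_mul, ofMul_mul]
    rfl

theorem Th_jU {r : RR α} (hr : r ≠ 0) : Th α ((crv α).dv (jU r hr)) = 0 := by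
  obtain ⟨s, hs⟩ := exists_prod (Ideal.span {r}) (by
    rw [Ne, Ideal.span_singleton_eq_bot]
    exact hr)
  rw [dv_jU hr hs, map_add, Th_Ds, Th_single]
  have h1 : ClassGroup.mk0 ⟨(s.map mP).prod, mem_nonZeroDivisors_iff_ne_zero.2 (prod_ne s)⟩ = 1 := by
    rw [ClassGroup.mk0_eq_one_iff]
    exact ⟨r, hs.symm⟩
  rw [h1, ofMul_one, zero_add]
  exact smul_zero _

theorem exists_frac (u : (FF α)ˣ) : ∃ (r s : RR α) (hr : r ≠ 0) (hs : s ≠ 0),
    u * jU s hs = jU r hr := by
  obtain ⟨r, s, hs, h⟩ := IsFractionRing.div_surjective (A := RR α) (u : FF α)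
  have hs0 : s ≠ 0 := nonZeroDivisors.ne_zero hs
  have hs1 : jR s ≠ 0 := (map_ne_zero_iff jR jR_inj).2 hs0
  have hr0 : r ≠ 0 := by
    rintro rfl
    rw [map_zero, zero_div] at h
    exact u.ne_zero h.symm
  refine ⟨r, s, hr0, hs0, Units.ext ?_⟩
  change (u : FF α) * jR s = jR r
  rw [← h, algR, algR]
  field_simp

/-- The class group is the group of the classes of divisors. -/
theorem isClasses_Th (α : ι → F) [Hyp α] : IsClasses (crv α) (Th α) where
  surj := by
    intro x
    obtain ⟨⟨I, hI⟩, hx⟩ := ClassGroup.mk0_surjective x.toMul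
    have hI0 : I ≠ ⊥ := mem_nonZeroDivisors_iff_ne_zero.1 hI
    obtain ⟨s, rfl⟩ := exists_prod I hI0
    refine ⟨Ds s - Finsupp.single none (Places.deg (Ds s)), ?_, ?_⟩
    · rw [map_sub, Places.deg_single, sub_self]
    · rw [map_sub, Th_Ds, Th_single, hx]
      change x - (_ • (0 : Additive (ClassGroup (RR α)))) = x
      rw [smul_zero, sub_zero]
  ker := by
    intro D hD hΘ
    obtain ⟨s, t, c, h⟩ := exists_Ds D
    have h1 := congrArg (Th α) h
    rw [map_add, map_add, hΘ, zero_add, Th_Ds, Th_Ds, Th_single] at h1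
    have h2 : ClassGroup.mk0 ⟨(t.map mP).prod, mem_nonZeroDivisors_iff_ne_zero.2 (prod_ne t)⟩ =
        ClassGroup.mk0 ⟨(s.map mP).prod, mem_nonZeroDivisors_iff_ne_zero.2 (prod_ne s)⟩ := by
      apply Additive.ofMul.injective
      rw [h1]
      change _ + (_ • (0 : Additive (ClassGroup (RR α)))) = _
      rw [smul_zero, add_zero]
    rw [ClassGroup.mk0_eq_mk0_iff] at h2
    obtain ⟨x, y, hx, hy, hxy⟩ := h2
    obtain ⟨sx, hsx⟩ := exists_prod (Ideal.span {x}) (by
      rw [Ne, Ideal.span_singleton_eq_bot]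
      exact hx)
    obtain ⟨sy, hsy⟩ := exists_prod (Ideal.span {y}) (by
      rw [Ne, Ideal.span_singleton_eq_bot]
      exact hy)
    have h3 : sx + t = sy + s := by
      apply prod_unique
      rw [Multiset.map_add, Multiset.map_add, Multiset.prod_add, Multiset.prod_add, ← hsx, ← hsy]
      exact hxy
    refine ⟨jU x hx * (jU y hy)⁻¹, ?_⟩
    have h4 : (crv α).dv (jU x hx * (jU y hy)⁻¹) = D + Finsupp.single none
        ((crv α).o none (jU x hx) - (crv α).o none (jU y hy) - c) := by
      rw [Places.dv_mul, Places.dv_inv, dv_jU hx hsx, dv_jU hy hsy]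
      have h5 := congrArg Ds h3
      rw [Ds_add, Ds_add] at h5
      have h6 : D = Ds s + Finsupp.single none c - Ds t := eq_sub_of_add_eq h
      have h7 : Ds sx = Ds sy + Ds s - Ds t := eq_sub_of_add_eq h5
      rw [h6, h7, Finsupp.single_sub, Finsupp.single_sub]
      abel
    have h5 : ((crv α).o none (jU x hx) - (crv α).o none (jU y hy) - c) = 0 := by
      have h6 := congrArg Places.deg h4
      rw [deg_crv, map_add, hD, Places.deg_single, zero_add] at h6
      exact h6.symm
    rw [h4, h5, Finsupp.single_zero, add_zero]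
  prin := by
    intro u
    obtain ⟨r, s, hr, hs, h⟩ := exists_frac u
    have h1 := congrArg (fun u => Th α ((crv α).dv u)) h
    rw [Places.dv_mul, map_add, Th_jU, Th_jU, add_zero] at h1
    exact h1

end Pool.Agent.N171
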