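import Mathlib
import Pool.Agent.N171.Crv5

/-!
# The action of automorphisms of the constants on the curve
-/

set_option linter.unusedSectionVars false

namespace Pool.Agent.N171

open HahnSeries Polynomial

section

variable {F ι : Type*} [Field F] [Fintype ι] {α : ι → F}

/-- The action on the rational functions. -/
noncomputable def gR (σ : F ≃+* F) : RatFunc F ≃+* RatFunc F :=
  IsFractionRing.ringEquivOfRingEquiv (Polynomial.mapEquiv σ)

theorem gR_pol (σ : F ≃+* F) (q : F[X]) : gR σ (algebraMap F[X] (RatFunc F) q) =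
    algebraMap F[X] (RatFunc F) (q.map (σ : F →+* F)) := by
  unfold gR
  rw [IsFractionRing.ringEquivOfRingEquiv_algebraMap]
  rfl

theorem gR_fP {σ : F ≃+* F} (hσ : ∀ i, σ (α i) = α i) :
    gR σ (algebraMap F[X] (RatFunc F) (fP α)) = algebraMap F[X] (RatFunc F) (fP α) := by
  rw [gR_pol, map_fP hσ]

/-- The action on the function field. -/
noncomputable def gL {σ : F ≃+* F} (hσ : ∀ i, σ (α i) = α i) : FF α ≃+* FF α where
  toFun x := ⟨gR σ x.re, gR σ x.im⟩
  invFun x := ⟨(gR σ).symm x.re, (gR σ).symm x.im⟩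
  left_inv x := by
    ext
    · exact (gR σ).symm_apply_apply _
    · exact (gR σ).symm_apply_apply _
  right_inv x := by
    ext
    · exact (gR σ).apply_symm_apply _
    · exact (gR σ).apply_symm_apply _
  map_mul' x y := by
    ext
    · simp only [QuadraticAlgebra.re_mul, map_add, map_mul, gR_fP hσ]
    · simp only [QuadraticAlgebra.im_mul, map_add, map_mul, map_zero, zero_mul]
  map_add' x y := by
    ext
    · simp only [QuadraticAlgebra.re_add, map_add]
    · simp only [QuadraticAlgebra.im_add, map_add]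

theorem gL_apply {σ : F ≃+* F} (hσ : ∀ i, σ (α i) = α i) (x : FF α) :
    gL hσ x = ⟨gR σ x.re, gR σ x.im⟩ := rfl

/-- The action on the affine points. -/
def gPt {σ : F ≃+* F} (hσ : ∀ i, σ (α i) = α i) (P : Pt α) : Pt α :=
  ⟨σ P.a, σ P.b, by
    rw [← map_pow, P.h, fP_eval, fP_eval, map_prod]
    refine Finset.prod_congr rfl fun i _ => ?_
    rw [map_sub, hσ]⟩

/-- The action on the points. -/
def gP {σ : F ≃+* F} (hσ : ∀ i, σ (α i) = α i) : Option (Pt α) → Option (Pt α) :=
  Option.map (gPt hσ)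

theorem gPt_inj {σ : F ≃+* F} (hσ : ∀ i, σ (α i) = α i) : Function.Injective (gPt hσ) := by
  intro P Q h
  exact Pt.ext (σ.injective (congrArg Pt.a h)) (σ.injective (congrArg Pt.b h))

theorem symm_fix {σ : F ≃+* F} (hσ : ∀ i, σ (α i) = α i) (i : ι) : σ.symm (α i) = α i := by
  rw [RingEquiv.symm_apply_eq, hσ]

theorem gPt_surj {σ : F ≃+* F} (hσ : ∀ i, σ (α i) = α i) : Function.Surjective (gPt hσ) := by
  intro P
  exact ⟨gPt (symm_fix hσ) P, Pt.ext (σ.apply_symm_apply _) (σ.apply_symm_apply _)⟩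

theorem gP_inj {σ : F ≃+* F} (hσ : ∀ i, σ (α i) = α i) : Function.Injective (gP hσ) :=
  Option.map_injective (gPt_inj hσ)

theorem gP_surj {σ : F ≃+* F} (hσ : ∀ i, σ (α i) = α i) : Function.Surjective (gP hσ) := by
  intro P
  cases P with
  | none => exact ⟨none, rfl⟩
  | some P =>
    obtain ⟨Q, rfl⟩ := gPt_surj hσ P
    exact ⟨some Q, rfl⟩

theorem gcc {σ : F ≃+* F} (hσ : ∀ i, σ (α i) = α i) (a : F) : σ (cc α a) = cc α (σ a) := by
  classical
  unfold cc
  rw [map_prod]
  apply Finset.prod_congr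
  · ext i
    simp only [Finset.mem_filter, Finset.mem_univ, true_and]
    rw [Ne, Ne, ← hσ i, σ.injective.eq_iff, hσ]
  · intro i _
    rw [map_sub, hσ]

theorem gzC {σ : F ≃+* F} (hσ : ∀ i, σ (α i) = α i) (P : Option (Pt α)) :
    cf (σ : F →+* F) (zC P) = zC (gP hσ P) := by
  cases P with
  | none =>
    change cf (σ : F →+* F) (single (-2) 1) = single (-2) 1
    rw [cf_single, map_one]
  | some P =>
    change _ = zC (some (gPt hσ P))
    by_cases hb : P.b = 0
    · have hb' : (gPt hσ P).b = 0 := by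
        change σ P.b = 0
        rw [hb, map_zero]
      rw [zC_ram hb, zC_ram hb', map_add, cf_C, cf_single]
      congr 2
      exact gcc hσ _
    · have hb' : (gPt hσ P).b ≠ 0 := by
        change σ P.b ≠ 0
        rwa [Ne, map_eq_zero_iff σ σ.injective]
      rw [zC_unr hb, zC_unr hb', map_add, cf_C, cf_single, map_one]
      rfl

theorem gkC {σ : F ≃+* F} (hσ : ∀ i, σ (α i) = α i) (P : Option (Pt α)) :
    kC (gP hσ P) = kC P ∧ eC (gP hσ P) = σ (eC P) := by
  classical
  cases P with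
  | none =>
    refine ⟨rfl, ?_⟩
    change (1 : F) = σ 1
    rw [map_one]
  | some P =>
    change kC (some (gPt hσ P)) = _ ∧ eC (some (gPt hσ P)) = _
    have h0 : (gPt hσ P).b = σ P.b := rfl
    have h1 : (gPt hσ P).a = σ P.a := rfl
    by_cases hb : P.b = 0
    · simp [kC, eC, h0, h1, hb, gcc hσ]
    · simp [kC, eC, h0, hb]

end

section

variable {F ι : Type*} [Field F] [Fintype ι] {α : ι → F} [IsAlgClosed F] [Hyp α]

omit [IsAlgClosed F] in
theorem gwC {σ : F ≃+* F} (hσ : ∀ i, σ (α i) = α i) (P : Option (Pt α)) :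
    cf (σ : F →+* F) (wC P) = wC (gP hσ P) := by
  have h1 := cf_LT (σ : F →+* F) (wC_LT P)
  have h2 := wC_LT (gP hσ P)
  have h3 : eC (gP hσ P) = (σ : F →+* F) (eC P) := (gkC hσ P).2
  rw [h3] at h2
  refine sqrt_unique (Hyp.two (α := α)) ?_ h1 h2
  rw [← map_mul, wC_mul, wC_mul, fP_eval₂, fP_eval₂, map_prod]
  refine Finset.prod_congr rfl fun i _ => ?_
  rw [map_sub, gzC hσ, cf_C]
  congr 2
  exact hσ i

theorem gφC {σ : F ≃+* F} (hσ : ∀ i, σ (α i) = α i) (P : Option (Pt α)) (x : FF α) :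
    φC (gP hσ P) (gL hσ x) = cf (σ : F →+* F) (φC P x) := by
  have key : ∀ r : RatFunc F, eH (zC (gP hσ P)) (zC_ne _) (gR σ r) =
      cf (σ : F →+* F) (eH (zC P) (zC_ne P) r) := by
    intro r
    have h1 : (eH (zC (gP hσ P)) (zC_ne _)).comp (gR σ : RatFunc F →+* RatFunc F) =
        (cf (σ : F →+* F)).comp (eH (zC P) (zC_ne P)) := by
      apply ratHom_ext
      · intro a
        rw [RingHom.comp_apply, RingHom.comp_apply, eH_pol, eval₂_C, cf_C]
        change eH _ _ (gR σ _) = _
        rw [gR_pol, Polynomial.map_C, eH_pol, eval₂_C]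
      · rw [RingHom.comp_apply, RingHom.comp_apply, eH_pol, eval₂_X, gzC]
        change eH _ _ (gR σ _) = _
        rw [gR_pol, Polynomial.map_X, eH_pol, eval₂_X]
    exact congrArg (fun f => f r) h1
  rw [φC_apply, φC_apply, map_add, map_mul, gwC hσ, ← key, ← key]
  rfl

theorem gDr {σ : F ≃+* F} (hσ : ∀ i, σ (α i) = α i) (i : ι) :
    (Dr α i).mapDomain (gP hσ) = Dr α i := by
  have h1 : gP hσ (some (rp α i)) = some (rp α i) := by
    change some (gPt hσ (rp α i)) = some (rp α i)
    congr 1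
    exact Pt.ext (hσ i) (map_zero σ)
  rw [Dr, Finsupp.mapDomain_add, Finsupp.mapDomain_single, Finsupp.mapDomain_single, h1]
  rfl

theorem ghr {σ : F ≃+* F} (hσ : ∀ i, σ (α i) = α i) (i : ι) :
    Units.map (gL hσ).toMonoidHom (hr α i) = hr α i := by
  apply Units.ext
  change gL hσ (algebraMap (RatFunc F) (FF α) (algebraMap F[X] (RatFunc F) _)) =
    algebraMap (RatFunc F) (FF α) (algebraMap F[X] (RatFunc F) _)
  rw [gL_apply]
  ext
  · change gR σ (algebraMap F[X] (RatFunc F) _) = algebraMap F[X] (RatFunc F) _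
    rw [gR_pol]
    congr 1
    rw [Polynomial.map_sub, Polynomial.map_X, Polynomial.map_C]
    congr 2
    exact hσ i
  · exact map_zero (gR σ)

end

end Pool.Agent.N171
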