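import Mathlib
import Pool.Agent.N171.Cls2
import Pool.Agent.N171.Gal

/-!
# The action on the class group
-/

set_option linter.unusedSectionVars false

namespace Pool.Agent.N171

open HahnSeries Polynomial nonZeroDivisors

theorem map_ne_bot {R R' : Type*} [CommRing R] [CommRing R'] [IsDomain R] [IsDomain R']
    (g : R ≃+* R') {I : Ideal R} (hI : I ∈ (Ideal R)⁰) : I.map (g : R →+* R') ∈ (Ideal R')⁰ := by
  rw [mem_nonZeroDivisors_iff_ne_zero] at hI ⊢
  intro h
  apply hI
  exact (Ideal.map_eq_bot_iff_of_injective (f := (g : R →+* R')) g.injective).1 h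

/-- The action of an isomorphism on the class of an ideal. -/
theorem mulEquiv_mk0 {R R' : Type*} [CommRing R] [CommRing R'] [IsDedekindDomain R]
    [IsDedekindDomain R'] (g : R ≃+* R') (I : Ideal R) (hI : I ∈ (Ideal R)⁰) :
    ClassGroup.mulEquiv g (ClassGroup.mk0 ⟨I, hI⟩) =
      ClassGroup.mk0 ⟨I.map (g : R →+* R'), map_ne_bot g hI⟩ := by
  have h0 : FractionalIdeal.ringEquivOfRingEquiv (FractionRing R) (FractionRing R') g
      (I : FractionalIdeal R⁰ (FractionRing R)) =
      ((I.map (g : R →+* R') : Ideal R') : FractionalIdeal R'⁰ (FractionRing R')) := by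
    apply FractionalIdeal.ext
    intro x
    rw [FractionalIdeal.mem_coeIdeal]
    constructor
    · rintro ⟨y, hy, rfl⟩
      obtain ⟨r, hr, rfl⟩ := (FractionalIdeal.mem_coeIdeal _).1 hy
      refine ⟨g r, Ideal.mem_map_of_mem _ hr, ?_⟩
      exact (IsFractionRing.ringEquivOfRingEquiv_algebraMap g r).symm
    · rintro ⟨s, hs, rfl⟩
      obtain ⟨r, hr, rfl⟩ := (Ideal.mem_map_of_equiv g s).1 hs
      refine ⟨algebraMap R (FractionRing R) r, (FractionalIdeal.mem_coeIdeal _).2 ⟨r, hr, rfl⟩, ?_⟩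
      exact IsFractionRing.ringEquivOfRingEquiv_algebraMap g r
  have h1 : Units.mapEquiv (FractionalIdeal.ringEquivOfRingEquiv (FractionRing R)
      (FractionRing R') g).toMulEquiv (FractionalIdeal.mk0 (FractionRing R) ⟨I, hI⟩) =
      FractionalIdeal.mk0 (FractionRing R') ⟨I.map (g : R →+* R'), map_ne_bot g hI⟩ := by
    apply Units.ext
    rw [Units.coe_mapEquiv, FractionalIdeal.coe_mk0, FractionalIdeal.coe_mk0]
    exact h0
  apply (ClassGroup.equiv (FractionRing R')).injective
  rw [ClassGroup.equiv_mk0, ← h1]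
  unfold ClassGroup.mulEquiv
  rw [MulEquiv.trans_apply, MulEquiv.trans_apply, MulEquiv.apply_symm_apply, ClassGroup.equiv_mk0]
  rfl

section

variable {F ι : Type*} [Field F] [Fintype ι] {α : ι → F}

theorem evP_gRi {σ : F ≃+* F} (hσ : ∀ i, σ (α i) = α i) (P : Pt α) (x : RR α) :
    evP (gPt hσ P) (gRi hσ x) = σ (evP P x) := by
  rw [evP_apply, evP_apply, map_add, map_mul]
  have h1 : ∀ q : F[X], (q.map (σ : F →+* F)).eval (σ P.a) = σ (q.eval P.a) := by
    intro q
    have := Polynomial.eval_map_apply (f := (σ : F →+* F)) (p := q) (x := P.a)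
    exact this
  change (x.re.map (σ : F →+* F)).eval (σ P.a) + (x.im.map (σ : F →+* F)).eval (σ P.a) * σ P.b = _
  rw [h1, h1]

theorem map_mP {σ : F ≃+* F} (hσ : ∀ i, σ (α i) = α i) (P : Pt α) :
    (mP P).map (gRi hσ : RR α →+* RR α) = mP (gPt hσ P) := by
  ext r
  rw [mem_mP]
  constructor
  · intro hr
    obtain ⟨s, hs, rfl⟩ := (Ideal.mem_map_of_equiv (gRi hσ) r).1 hr
    rw [mem_mP] at hs
    rw [evP_gRi, hs, map_zero]
  · intro hr
    refine (Ideal.mem_map_of_equiv (gRi hσ) r).2 ⟨(gRi hσ).symm r, ?_,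
      (gRi hσ).apply_symm_apply r⟩
    rw [mem_mP]
    apply σ.injective
    rw [← evP_gRi hσ, RingEquiv.apply_symm_apply, hr, map_zero]

variable [IsAlgClosed F] [Hyp α]

/-- The action on the class group. -/
noncomputable def gA {σ : F ≃+* F} (hσ : ∀ i, σ (α i) = α i) :
    Additive (ClassGroup (RR α)) →+ Additive (ClassGroup (RR α)) :=
  (ClassGroup.mulEquiv (gRi hσ)).toMonoidHom.toAdditive

theorem gA_cl {σ : F ≃+* F} (hσ : ∀ i, σ (α i) = α i) (P : Option (Pt α)) :
    gA hσ (cl P) = cl (gP hσ P) := by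
  cases P with
  | none => exact map_zero _
  | some P =>
    change Additive.ofMul (ClassGroup.mulEquiv (gRi hσ) (ClassGroup.mk0 _)) =
      Additive.ofMul (ClassGroup.mk0 _)
    rw [mulEquiv_mk0]
    congr 2
    exact Subtype.ext (map_mP hσ P)

/-- The actions are compatible. -/
theorem isAct {σ : F ≃+* F} (hσ : ∀ i, σ (α i) = α i) :
    IsAct (crv α) (Th α) (gL hσ) σ (gP hσ) (gA hσ) where
  φ P x := gφC hσ P x
  cls D := by
    induction D using Finsupp.induction_linear with
    | zero => rw [Finsupp.mapDomain_zero, map_zero, map_zero]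
    | add D D' h h' => rw [Finsupp.mapDomain_add, map_add, map_add, map_add, h, h']
    | single P k =>
      rw [Finsupp.mapDomain_single, Th_single, Th_single, map_zsmul, gA_cl]
  inj := gP_inj hσ
  surj := gP_surj hσ

end

end Pool.Agent.N171
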