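import Mathlib
import Pool.Agent.N171.GalC
import Pool.Agent.N171.Abs

/-!
# Galois action on the Jacobians of hyperelliptic curves and on their Tate modules

`K` is a field of characteristic different from two, `F` an algebraic closure, `α i` are an odd number
of distinct elements of `K`.  The curve `y ^ 2 = ∏ i, (x - α i)` has one point at infinity, and the
group of the `F`-points of its Jacobian is the class group of the coordinate ring of the affine curve.
-/

set_option linter.unusedSectionVars false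

namespace Pool.Agent.N171

open Polynomial nonZeroDivisors

section one

variable {K : Type*} [Field K] {F : Type*} [Field F] [Algebra K F] {ι : Type*} [Fintype ι]

/-- The class of an ideal in the Jacobian. -/
noncomputable def mkJ (α : ι → K) [Hyp α] (I : Ideal (RR (lf F α)))
    (hI : I ∈ (Ideal (RR (lf F α)))⁰) : Jac F α :=
  (Additive.ofMul (ClassGroup.mk0 ⟨I, hI⟩) : Additive (ClassGroup (RR (lf F α))))

theorem exists_mkJ (α : ι → K) [Hyp α] (x : Jac F α) : ∃ I hI, mkJ α I hI = x := by
  obtain ⟨⟨I, hI⟩, hx⟩ := ClassGroup.mk0_surjective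
    (Additive.toMul (x : Additive (ClassGroup (RR (lf F α)))))
  exact ⟨I, hI, congrArg Additive.ofMul hx⟩

theorem mkJ_congr (α : ι → K) [Hyp α] {I I' : Ideal (RR (lf F α))}
    {hI : I ∈ (Ideal (RR (lf F α)))⁰} {hI' : I' ∈ (Ideal (RR (lf F α)))⁰} (h : I = I') :
    mkJ α I hI = mkJ α I' hI' := by
  subst h
  rfl

theorem jacAct_mk0 (α : ι → K) [Hyp α] (σ : F ≃ₐ[K] F) (I : Ideal (RR (lf F α)))
    (hI : I ∈ (Ideal (RR (lf F α)))⁰) :
    jacAct α σ (mkJ α I hI) =
      mkJ α (I.map (gRi (lf_fix σ α) : RR (lf F α) →+* RR (lf F α))) (map_ne_bot _ hI) :=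
  congrArg Additive.ofMul (mulEquiv_mk0 _ I hI)

theorem jacAct_one (α : ι → K) [Hyp α] (x : Jac F α) : jacAct α (1 : F ≃ₐ[K] F) x = x := by
  obtain ⟨I, hI, rfl⟩ := exists_mkJ α x
  rw [jacAct_mk0]
  apply mkJ_congr
  have h1 : (gRi (lf_fix (1 : F ≃ₐ[K] F) α) : RR (lf F α) →+* RR (lf F α)) = RingHom.id _ := by
    refine RingHom.ext fun r => ?_
    change (⟨r.re.map _, r.im.map _⟩ : RR (lf F α)) = r
    ext1
    · exact Polynomial.map_id
    · exact Polynomial.map_id
  rw [h1, Ideal.map_id]

theorem jacAct_mul (α : ι → K) [Hyp α] (σ τ : F ≃ₐ[K] F) (x : Jac F α) :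
    jacAct α (σ * τ) x = jacAct α σ (jacAct α τ x) := by
  obtain ⟨I, hI, rfl⟩ := exists_mkJ α x
  rw [jacAct_mk0, jacAct_mk0, jacAct_mk0]
  apply mkJ_congr
  have h1 : (gRi (lf_fix (σ * τ) α) : RR (lf F α) →+* RR (lf F α)) =
      (gRi (lf_fix σ α) : RR (lf F α) →+* RR (lf F α)).comp
        (gRi (lf_fix τ α) : RR (lf F α) →+* RR (lf F α)) := by
    refine RingHom.ext fun r => ?_
    have h2 : ∀ p : F[X], p.map (((σ * τ : F ≃ₐ[K] F) : F ≃+* F) : F →+* F) =
        (p.map ((τ : F ≃+* F) : F →+* F)).map ((σ : F ≃+* F) : F →+* F) := by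
      intro p
      rw [Polynomial.map_map]
      rfl
    exact QuadraticAlgebra.ext (h2 r.re) (h2 r.im)
  rw [h1, Ideal.map_map]

/-- The action of the automorphisms of `F` over `K` on the points of the Jacobian. -/
noncomputable instance (α : ι → K) [Hyp α] : DistribMulAction (F ≃ₐ[K] F) (Jac F α) where
  smul σ x := jacAct α σ x
  one_smul x := jacAct_one α x
  mul_smul σ τ x := jacAct_mul α σ τ x
  smul_zero σ := map_zero (jacAct α σ)
  smul_add σ x y := map_add (jacAct α σ) x y

variable (F) in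
/-- The class of a divisor in the Jacobian. -/
noncomputable def ThJ (α : ι → K) [Hyp α] : (Option (Pt (lf F α)) →₀ ℤ) →+ Jac F α :=
  (Th (lf F α) : _ →+ Additive (ClassGroup (RR (lf F α))))

theorem isClasses_ThJ [IsAlgClosed F] (α : ι → K) [Hyp α] :
    IsClasses (crv (lf F α)) (ThJ F α) :=
  isClasses_Th (lf F α)

theorem isAct_J [IsAlgClosed F] (α : ι → K) [Hyp α] (σ : F ≃ₐ[K] F) :
    IsAct (crv (lf F α)) (ThJ F α) (gL (lf_fix σ α)) σ (gP (lf_fix σ α)) (jacAct α σ) :=
  isAct (lf_fix σ α)

variable (F) in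
/-- The Galois action on the 2-adic Tate module of the Jacobian. -/
noncomputable def tateRep1 (α : ι → K) [Hyp α] :
    Representation ℤ_[2] (F ≃ₐ[K] F) (TateMod 2 (Jac F α)) where
  toFun σ := tmMap (jacAct α σ)
  map_one' := by
    refine LinearMap.ext fun a => tm_ext fun n => ?_
    rw [tmMap_apply]
    exact jacAct_one α _
  map_mul' σ τ := by
    refine LinearMap.ext fun a => tm_ext fun n => ?_
    rw [Module.End.mul_apply, tmMap_apply, tmMap_apply, tmMap_apply]
    exact jacAct_mul α σ τ _

end one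

section prod

variable {K : Type*} [Field K] {F : Type*} [Field F] [Algebra K F] {Q : Type*} {ι : Q → Type*}
  [∀ q, Fintype (ι q)] (α : ∀ q, ι q → K) [∀ q, Hyp (α q)]

/-- The Galois action on the points of the product of the Jacobians. -/
noncomputable def prodAct (σ : F ≃ₐ[K] F) : (∀ q, Jac F (α q)) →+ (∀ q, Jac F (α q)) where
  toFun x q := jacAct (α q) σ (x q)
  map_zero' := funext fun _ => map_zero _
  map_add' _ _ := funext fun _ => map_add _ _ _

variable (F) in
/-- The Galois action on the 2-adic Tate module of the product of the Jacobians. -/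
noncomputable def tateRep : Representation ℤ_[2] (F ≃ₐ[K] F) (TateMod 2 (∀ q, Jac F (α q))) where
  toFun σ := tmMap (prodAct α σ)
  map_one' := by
    refine LinearMap.ext fun a => tm_ext fun n => ?_
    rw [tmMap_apply]
    exact funext fun q => jacAct_one (α q) _
  map_mul' σ τ := by
    refine LinearMap.ext fun a => tm_ext fun n => ?_
    rw [Module.End.mul_apply, tmMap_apply, tmMap_apply, tmMap_apply]
    exact funext fun q => jacAct_mul (α q) σ τ _

variable (K F) in
/-- The 2-adic cyclotomic character. -/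
noncomputable def cyc : (F ≃ₐ[K] F) →* ℤ_[2]ˣ :=
  (cyclotomicCharacter F 2).comp (MulSemiringAction.toRingAut (F ≃ₐ[K] F) F)

theorem cyc_apply (σ : F ≃ₐ[K] F) : cyc K F σ = cyclotomicCharacter F 2 (σ : F ≃+* F) := rfl

end prod

end Pool.Agent.N171
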