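import Mathlib

/-!
# Automorphisms with prescribed action on square roots
-/

namespace Pool.Agent.N171

open Polynomial

/-- The sign attached to an element of `ZMod 2`. -/
def eps (R : Type*) [Ring R] (x : ZMod 2) : R := (-1) ^ x.val

theorem eps_zero (R : Type*) [Ring R] : eps R 0 = 1 := by
  rw [eps, ZMod.val_zero, pow_zero]

theorem eps_one (R : Type*) [Ring R] : eps R 1 = -1 := by
  have h : (1 : ZMod 2).val = 1 := rfl
  rw [eps, h, pow_one]

theorem eps_add (R : Type*) [CommRing R] (x y : ZMod 2) : eps R (x + y) = eps R x * eps R y := by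
  rcases (by decide : ∀ x : ZMod 2, x = 0 ∨ x = 1) x with rfl | rfl <;>
  rcases (by decide : ∀ x : ZMod 2, x = 0 ∨ x = 1) y with rfl | rfl
  · rw [zero_add, eps_zero, one_mul]
  · rw [zero_add, eps_zero, one_mul]
  · rw [add_zero, eps_zero, mul_one]
  · rw [show (1 : ZMod 2) + 1 = 0 from rfl, eps_zero, eps_one]
    ring

theorem map_eps {R S : Type*} [Ring R] [Ring S] (f : R →+* S) (x : ZMod 2) :
    f (eps R x) = eps S x := by
  rw [eps, map_pow, map_neg, map_one]
  rfl

variable {K F : Type*} [Field K] [Field F] [Algebra K F] [Normal K F]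

theorem fixed_in_base (h2 : (2 : F) ≠ 0) {D : F} {e : K} (hD : D ^ 2 = algebraMap K F e)
    (hfix : ∀ σ : F ≃ₐ[K] F, σ D = D) : ∃ r : K, r ^ 2 = e := by
  by_contra hne
  push Not at hne
  have hirr : Irreducible (X ^ 2 - C e : K[X]) :=
    (X_pow_sub_C_irreducible_iff_of_prime Nat.prime_two).2 hne
  have hmon : (X ^ 2 - C e : K[X]).Monic := monic_X_pow_sub_C e two_ne_zero
  have hmin : X ^ 2 - C e = minpoly K D := by
    refine minpoly.eq_of_irreducible_of_monic hirr ?_ hmon
    rw [map_sub, map_pow, aeval_X, aeval_C, hD, sub_self]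
  have hconj : IsConjRoot K D (-D) := by
    rw [isConjRoot_iff_aeval_eq_zero (Normal.isIntegral inferInstance D), ← hmin, map_sub, map_pow,
      aeval_X, aeval_C, neg_sq, hD, sub_self]
  obtain ⟨σ, hσ⟩ := isConjRoot_iff_exists_algEquiv.1 hconj.symm
  rw [hfix] at hσ
  have h3 : 2 * D = 0 := by linear_combination hσ
  have h4 : D = 0 := (mul_eq_zero.1 h3).resolve_left h2
  rw [h4, zero_pow two_ne_zero] at hD
  apply hne 0
  rw [zero_pow two_ne_zero]
  exact (algebraMap K F).injective (by rw [map_zero, hD])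

/-- **Kummer theory**: characters of order two of `K ˣ` are given by automorphisms. -/
theorem kummer (h2 : (2 : F) ≠ 0) {ι : Type*} [Fintype ι] (d : ι → Kˣ) (s : ι → F)
    (hs : ∀ i, s i ^ 2 = algebraMap K F (d i)) (l : Kˣ →* ℤˣ) :
    ∃ σ : F ≃ₐ[K] F, ∀ i, σ (s i) = (((l (d i) : ℤˣ) : ℤ) : F) * s i := by
  classical
  -- the group of signs
  let H : Submodule (ZMod 2) (ι → ZMod 2) :=
    { carrier := {h | ∃ σ : F ≃ₐ[K] F, ∀ i, σ (s i) = eps F (h i) * s i}
      zero_mem' := ⟨1, fun i => by rw [Pi.zero_apply, eps_zero, one_mul]; rfl⟩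
      add_mem' := by
        rintro h h' ⟨σ, hσ⟩ ⟨τ, hτ⟩
        refine ⟨σ * τ, fun i => ?_⟩
        rw [AlgEquiv.mul_apply, hτ, map_mul, hσ, Pi.add_apply, eps_add]
        have h3 : σ (eps F (h' i)) = eps F (h' i) := map_eps (σ : F →+* F) _
        rw [h3]
        ring
      smul_mem' := by
        rintro c h ⟨σ, hσ⟩
        rcases (by decide : ∀ x : ZMod 2, x = 0 ∨ x = 1) c with rfl | rfl
        · refine ⟨1, fun i => ?_⟩
          rw [zero_smul, Pi.zero_apply, eps_zero, one_mul]
          rfl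
        · refine ⟨σ, fun i => ?_⟩
          rw [one_smul, hσ] }
  let c : ι → ZMod 2 := fun i => if l (d i) = 1 then 0 else 1
  have hc : ∀ i, eps ℤ (c i) = ((l (d i) : ℤˣ) : ℤ) := by
    intro i
    rcases Int.units_eq_one_or (l (d i)) with h | h
    · simp [c, h, eps_zero]
    · have h1 : c i = 1 := by
        simp only [c]
        rw [if_neg]
        rw [h]
        decide
      rw [h1, h, eps_one]
      rfl
  suffices hcH : c ∈ H by
    obtain ⟨σ, hσ⟩ := hcH
    refine ⟨σ, fun i => ?_⟩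
    rw [hσ, ← hc]
    congr 1
    exact (map_eps (Int.castRingHom F) (c i)).symm
  by_contra hcH
  obtain ⟨f, hf, hfH⟩ := Submodule.exists_le_ker_of_notMem hcH
  let a : ι → ZMod 2 := fun i => f (fun j => if i = j then 1 else 0)
  have hfa : ∀ x, f x = ∑ i, x i * a i := fun x => LinearMap.pi_apply_eq_sum_univ f x
  -- products
  have hprod : ∀ (R : Type) [CommRing R] (x : ι → ZMod 2) (t : Finset ι),
      ∏ i ∈ t, (eps R (x i)) ^ (a i).val = eps R (∑ i ∈ t, x i * a i) := by
    intro R _ x t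
    induction t using Finset.induction_on with
    | empty => rw [Finset.prod_empty, Finset.sum_empty, eps_zero]
    | insert i t hi ih =>
      rw [Finset.prod_insert hi, Finset.sum_insert hi, eps_add, ih]
      congr 1
      rcases (by decide : ∀ x : ZMod 2, x = 0 ∨ x = 1) (a i) with h | h
      · rw [h, ZMod.val_zero, pow_zero, mul_zero, eps_zero]
      · rw [h, mul_one, show (1 : ZMod 2).val = 1 from rfl, pow_one]
  have hprodF : ∀ (x : ι → ZMod 2) (t : Finset ι),
      ∏ i ∈ t, (eps F (x i)) ^ (a i).val = eps F (∑ i ∈ t, x i * a i) := by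
    intro x t
    have h3 := congrArg (Int.castRingHom F) (hprod ℤ x t)
    rw [map_prod, map_eps] at h3
    simp only [map_pow, map_eps] at h3
    exact h3
  have h3 := fixed_in_base (K := K) h2 (D := ∏ i, s i ^ (a i).val)
    (e := ((∏ i, d i ^ (a i).val : Kˣ) : K)) (by
      rw [← Finset.prod_pow, Units.coe_prod, map_prod]
      refine Finset.prod_congr rfl fun i _ => ?_
      rw [← pow_mul, mul_comm, pow_mul, hs, Units.val_pow_eq_pow_val, map_pow]) (by
      intro σ
      -- the signs of `σ`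
      have hσ : ∀ i, ∃ x : ZMod 2, σ (s i) = eps F x * s i := by
        intro i
        have h3 : σ (s i) ^ 2 = s i ^ 2 := by
          rw [← map_pow, hs, AlgEquiv.commutes]
        rcases sq_eq_sq_iff_eq_or_eq_neg.1 h3 with h | h
        · exact ⟨0, by rw [eps_zero, one_mul, h]⟩
        · exact ⟨1, by rw [eps_one, neg_one_mul, h]⟩
      choose x hx using hσ
      have h4 : f x = 0 := hfH (show x ∈ H from ⟨σ, hx⟩)
      rw [map_prod]
      have h5 : ∏ i, σ (s i ^ (a i).val) = (∏ i, (eps F (x i)) ^ (a i).val) *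
          ∏ i, s i ^ (a i).val := by
        rw [← Finset.prod_mul_distrib]
        refine Finset.prod_congr rfl fun i _ => ?_
        rw [map_pow, hx, mul_pow]
      rw [h5, hprodF, ← hfa, h4, eps_zero, one_mul])
  obtain ⟨r, hr⟩ := h3
  have hr0 : r ≠ 0 := by
    rintro rfl
    rw [zero_pow two_ne_zero] at hr
    exact Units.ne_zero _ hr.symm
  have hr' : (Units.mk0 r hr0) ^ 2 = ∏ i, d i ^ (a i).val := Units.ext (by
    rw [Units.val_pow_eq_pow_val, Units.val_mk0, hr])
  have h4 : ∏ i, l (d i) ^ (a i).val = 1 := by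
    rw [← map_one l]
    have h5 := congrArg l hr'
    rw [map_pow, map_prod] at h5
    simp only [map_pow] at h5
    rw [← h5, map_one]
    rcases Int.units_eq_one_or (l (Units.mk0 r hr0)) with h | h <;> rw [h] <;> rfl
  have h5 : eps ℤ (f c) = 1 := by
    rw [hfa, ← hprod]
    have h6 := congrArg (fun u : ℤˣ => (u : ℤ)) h4
    simp only [Units.coe_prod, Units.val_pow_eq_pow_val, Units.val_one, ← hc] at h6
    exact h6
  rcases (by decide : ∀ x : ZMod 2, x = 0 ∨ x = 1) (f c) with h | h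
  · exact hf h
  · rw [h, eps_one] at h5
    norm_num at h5

open PadicInt in
/-- The cyclotomic character of an automorphism that fixes the eighth roots of unity. -/
theorem chi_eight {F : Type*} [Field F] (h2 : (2 : F) ≠ 0)
    [∀ i : ℕ, HasEnoughRootsOfUnity F (2 ^ i)] (g : F ≃+* F) {a b : F}
    (ha : a ^ 2 = -1) (hb : b ^ 2 = 2) (hga : g a = a) (hgb : g b = b) :
    ∃ z, ((cyclotomicCharacter F 2 g : ℤ_[2]ˣ) : ℤ_[2]) = 1 + 8 * z := by
  have hb0 : b ≠ 0 := by
    rintro rfl
    apply h2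
    rw [← hb, zero_pow two_ne_zero]
  set x : F := (1 + a) / b with hx
  have h1 : x ^ 2 = a := by
    rw [hx, div_pow, hb, div_eq_iff h2]
    linear_combination ha
  have h4 : x ^ 2 ^ 2 = -1 := by
    rw [show 2 ^ 2 = 2 * 2 from rfl, pow_mul, h1, ha]
  have h8 : x ^ 2 ^ 3 = 1 := by
    rw [show 2 ^ 3 = 2 ^ 2 * 2 from rfl, pow_mul, h4]
    ring
  have hord : orderOf x = 2 ^ (2 + 1) := by
    refine orderOf_eq_prime_pow (p := 2) ?_ h8
    rw [h4]
    intro h
    apply h2
    linear_combination -h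
  have hgx : g x = x := by
    rw [hx, map_div₀, map_add, map_one, hga, hgb]
  have h5 := cyclotomicCharacter.spec 2 (n := 3) g x h8
  rw [hgx] at h5
  have h6 : x ^ ((toZModPow 3) ((cyclotomicCharacter F 2 g : ℤ_[2]ˣ) : ℤ_[2])).val = x ^ 1 := by
    rw [pow_one]
    exact h5.symm
  have hx0 : x ≠ 0 := by
    intro h
    rw [h, zero_pow two_ne_zero] at h1
    rw [← h1, zero_pow two_ne_zero] at ha
    exact one_ne_zero (neg_eq_zero.1 ha.symm)
  have h6' : (Units.mk0 x hx0) ^ ((toZModPow 3)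
      ((cyclotomicCharacter F 2 g : ℤ_[2]ˣ) : ℤ_[2])).val = (Units.mk0 x hx0) ^ 1 :=
    Units.ext (by simpa using h6)
  have hord' : orderOf (Units.mk0 x hx0) = 2 ^ (2 + 1) := by
    rw [← orderOf_units, Units.val_mk0, hord]
  clear h6
  have h6 := h6'
  rw [pow_eq_pow_iff_modEq, hord'] at h6
  have h7 : toZModPow 3 ((cyclotomicCharacter F 2 g : ℤ_[2]ˣ) : ℤ_[2]) = 1 := by
    have h8 := (ZMod.natCast_eq_natCast_iff _ _ _).2 h6
    rw [ZMod.natCast_zmod_val, Nat.cast_one] at h8
    exact h8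
  have h9 : ((cyclotomicCharacter F 2 g : ℤ_[2]ˣ) : ℤ_[2]) - 1 ∈
      RingHom.ker (toZModPow 3 : ℤ_[2] →+* ZMod (2 ^ 3)) := by
    rw [RingHom.mem_ker, map_sub, h7, map_one, sub_self]
  rw [ker_toZModPow, Ideal.mem_span_singleton] at h9
  obtain ⟨z, hz⟩ := h9
  refine ⟨z, ?_⟩
  have h10 : (((2 : ℕ) : ℤ_[2]) ^ 3) = 8 := by norm_num
  rw [h10] at hz
  linear_combination hz

end Pool.Agent.N171
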