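import Mathlib
import Pool.Agent.N171.Pair
import Pool.Agent.N171.Tt

/-!
# The Weil pairing on the Tate module
-/

namespace Pool.Agent.N171

open PadicInt

section mult

variable {F : Type*} [Field F]

theorem unit_div [IsAlgClosed F] (x : Additive Fˣ) : ∃ y, 2 • y = x := by
  obtain ⟨z, hz⟩ := IsAlgClosed.exists_pow_nat_eq (x.toMul : F) two_pos
  have hz0 : z ≠ 0 := by
    rintro rfl
    rw [zero_pow two_ne_zero] at hz
    exact x.toMul.ne_zero hz.symm
  refine ⟨Additive.ofMul (Units.mk0 z hz0), ?_⟩
  apply Additive.toMul.injective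
  apply Units.ext
  rw [toMul_nsmul, Units.val_pow_eq_pow_val]
  exact hz

theorem exists_gen [IsAlgClosed F] :
    ∃ z : TateMod 2 (Additive Fˣ), z.1 1 = Additive.ofMul (-1 : Fˣ) :=
  tm_lift unit_div (by
    rw [← ofMul_pow]
    simp)

variable (F) in
/-- A generator of the Tate module of the multiplicative group. -/
noncomputable def zg [IsAlgClosed F] : TateMod 2 (Additive Fˣ) := exists_gen.choose

theorem zg_one [IsAlgClosed F] : (zg F).1 1 = Additive.ofMul (-1 : Fˣ) := exists_gen.choose_spec

theorem neg_one_ne (h2 : (2 : F) ≠ 0) : (-1 : Fˣ) ≠ 1 := by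
  intro h
  have h1 := congrArg Units.val h
  rw [Units.val_neg, Units.val_one] at h1
  apply h2
  linear_combination -h1

theorem ofMul_neg_one_smul (h2 : (2 : F) ≠ 0) (c : ℤ_[2]) :
    (toZModPow 1 c).val • Additive.ofMul (-1 : Fˣ) = 0 ↔ toZModPow 1 c = 0 := by
  have h1 : (toZModPow 1 c).val < 2 := by
    have := ZMod.val_lt (toZModPow 1 c)
    simpa using this
  constructor
  · intro h
    rcases Nat.lt_succ_iff_lt_or_eq.1 h1 with h3 | h3
    · exact (ZMod.val_eq_zero _).1 (by omega)
    · exfalso
      rw [h3, one_smul] at h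
      exact neg_one_ne h2 (Additive.ofMul.injective h)
  · intro h
    rw [h, ZMod.val_zero, zero_smul]

/-- The Tate module of the multiplicative group has rank one. -/
noncomputable def psi [IsAlgClosed F] (h2 : (2 : F) ≠ 0) :
    ℤ_[2] ≃ₗ[ℤ_[2]] TateMod 2 (Additive Fˣ) :=
  LinearEquiv.ofBijective (LinearMap.toSpanSingleton ℤ_[2] _ (zg F)) (by
    constructor
    · rw [injective_iff_map_eq_zero]
      intro c hc
      rw [LinearMap.toSpanSingleton_apply] at hc
      rcases smul_eq_zero.1 hc with h | h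
      · exact h
      · exfalso
        have h1 := zg_one (F := F)
        rw [h] at h1
        exact neg_one_ne h2 (Additive.ofMul.injective h1.symm)
    · have h1 := finite_of_finite_quot (p := 2) (TateMod 2 (Additive Fˣ)) (S := Unit)
        (fun _ => zg F) (fun x => by
        have h3 : x.1 1 = 0 ∨ x.1 1 = Additive.ofMul (-1 : Fˣ) := by
          have h4 := tm_tors x 1
          rw [pow_one] at h4
          have h5 : (((x.1 1).toMul : Fˣ) : F) * (((x.1 1).toMul : Fˣ) : F) = 1 := by
            have := congrArg (fun y : Additive Fˣ => ((y.toMul : Fˣ) : F)) h4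
            simpa [two_nsmul] using this
          rcases mul_self_eq_one_iff.1 h5 with h6 | h6
          · left
            apply Additive.toMul.injective
            exact Units.ext h6
          · right
            apply Additive.toMul.injective
            exact Units.ext h6
        rcases h3 with h3 | h3
        · obtain ⟨y, hy⟩ := tm_shift' h3
          exact ⟨fun _ => 0, y, by rw [hy]; simp⟩
        · obtain ⟨y, hy⟩ := tm_shift' (p := 2) (a := x - zg F) (by
            change x.1 1 - (zg F).1 1 = 0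
            rw [h3, zg_one, sub_self])
          refine ⟨fun _ => 1, y, ?_⟩
          rw [hy]
          simp)
      intro x
      obtain ⟨c, hc⟩ := h1 x
      refine ⟨c (), ?_⟩
      rw [← hc, LinearMap.toSpanSingleton_apply, Fintype.linearCombination_apply]
      simp)

theorem psi_apply [IsAlgClosed F] (h2 : (2 : F) ≠ 0) (c : ℤ_[2]) : psi h2 c = c • zg F := rfl

/-- The action of automorphisms is multiplication with the cyclotomic character. -/
theorem tmMap_cyc [IsAlgClosed F] (h2 : (2 : F) ≠ 0) (g : F ≃+* F)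
    (x : TateMod 2 (Additive Fˣ)) :
    tmMap (Units.map g.toMonoidHom).toAdditive x =
      ((cyclotomicCharacter F 2 g : ℤ_[2]ˣ) : ℤ_[2]) • x := by
  have : ∀ i, HasEnoughRootsOfUnity F (2 ^ i) := by
    intro i
    have : NeZero ((2 ^ i : ℕ) : F) := ⟨by
      push_cast
      exact pow_ne_zero _ h2⟩
    infer_instance
  apply tm_ext
  intro n
  rw [tmMap_apply, tm_smul_apply]
  apply Additive.toMul.injective
  apply Units.ext
  rw [toMul_nsmul, Units.val_pow_eq_pow_val]
  apply cyclotomicCharacter.spec 2 (n := n)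
  have h1 := tm_tors x n
  have h3 := congrArg (fun y : Additive Fˣ => ((y.toMul : Fˣ) : F)) h1
  simpa using h3

end mult

section pairing

variable {L F Pl A : Type*} [Field L] [Field F] [AddCommGroup A] {p : Places L F Pl}
  {cst : Fˣ →* Lˣ} (hp : IsCurve p cst) {Θ : (Pl →₀ ℤ) →+ A} (hA : IsClasses p Θ)

theorem even_pow (n : ℕ) : Even (2 ^ (n + 1)) := ⟨2 ^ n, by ring⟩

include hp hA in
theorem e_nsmul_left {m : ℕ} (hm : Even m) {x y : A} (hx : m • x = 0)
    (hy : m • y = 0) (k : ℕ) : e p Θ m (k • x) y = e p Θ m x y ^ k := by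
  induction k with
  | zero => rw [zero_smul, e_zero_left hp hA hm hy, pow_zero]
  | succ k ih =>
    rw [succ_nsmul, e_add_left hp hA hm (by rw [smul_comm, hx, smul_zero]) hx hy, ih, pow_succ]

include hp hA in
theorem e_nsmul_right {m : ℕ} (hm : Even m) {x y : A} (hx : m • x = 0)
    (hy : m • y = 0) (k : ℕ) : e p Θ m x (k • y) = e p Θ m x y ^ k := by
  rw [e_symm hp hA hm (by rw [smul_comm, hy, smul_zero]) hx, e_nsmul_left hp hA hm hy hx,
    ← inv_pow, ← e_symm hp hA hm hy hx]

/-- The pairing with values in the Tate module of the multiplicative group. -/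
noncomputable def PPf (a b : TateMod 2 A) : TateMod 2 (Additive Fˣ) :=
  ⟨fun n => Nat.casesOn n 0 fun n => Additive.ofMul (e p Θ (2 ^ (n + 1)) (a.1 (n + 1))
    (b.1 (n + 1))), rfl, fun n => by
    cases n with
    | zero =>
      apply Additive.toMul.injective
      change e p Θ (2 ^ 1) (a.1 1) (b.1 1) ^ 2 = 1
      rw [pow_one]
      exact e_pow hp hA even_two (by simpa using tm_tors a 1) (by simpa using tm_tors b 1)
    | succ n =>
      apply Additive.toMul.injective
      change e p Θ (2 ^ (n + 1 + 1)) (a.1 (n + 1 + 1)) (b.1 (n + 1 + 1)) ^ 2 =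
        e p Θ (2 ^ (n + 1)) (a.1 (n + 1)) (b.1 (n + 1))
      have ha := tm_tors a (n + 1 + 1)
      have hb := tm_tors b (n + 1 + 1)
      rw [pow_succ' 2 (n + 1)] at ha hb ⊢
      rw [← e_two hp hA (even_pow n) ha hb, tm_succ, tm_succ]⟩

theorem PPf_succ (a b : TateMod 2 A) (n : ℕ) :
    (PPf hp hA a b).1 (n + 1) =
      Additive.ofMul (e p Θ (2 ^ (n + 1)) (a.1 (n + 1)) (b.1 (n + 1))) := rfl

/-- The pairing as a bilinear map. -/
noncomputable def PP : TateMod 2 A →ₗ[ℤ_[2]] TateMod 2 A →ₗ[ℤ_[2]] TateMod 2 (Additive Fˣ) :=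
  LinearMap.mk₂ ℤ_[2] (PPf hp hA)
    (fun a a' b => tm_ext fun n => by
      cases n with
      | zero => exact (add_zero (0 : Additive Fˣ)).symm
      | succ n =>
        apply Additive.toMul.injective
        exact e_add_left hp hA (even_pow n) (tm_tors a _) (tm_tors a' _) (tm_tors b _))
    (fun c a b => tm_ext fun n => by
      cases n with
      | zero =>
        rw [tm_zero, tm_zero]
      | succ n =>
        rw [PPf_succ, tm_smul_apply, tm_smul_apply, PPf_succ]
        apply Additive.toMul.injective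
        exact e_nsmul_left hp hA (even_pow n) (tm_tors a _) (tm_tors b _) _)
    (fun a b b' => tm_ext fun n => by
      cases n with
      | zero => exact (add_zero (0 : Additive Fˣ)).symm
      | succ n =>
        apply Additive.toMul.injective
        exact e_add_right hp hA (even_pow n) (tm_tors a _) (tm_tors b _) (tm_tors b' _))
    (fun c a b => tm_ext fun n => by
      cases n with
      | zero =>
        rw [tm_zero, tm_zero]
      | succ n =>
        rw [PPf_succ, tm_smul_apply, tm_smul_apply, PPf_succ]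
        apply Additive.toMul.injective
        exact e_nsmul_right hp hA (even_pow n) (tm_tors a _) (tm_tors b _) _)

theorem PP_succ (a b : TateMod 2 A) (n : ℕ) :
    (PP hp hA a b).1 (n + 1) =
      Additive.ofMul (e p Θ (2 ^ (n + 1)) (a.1 (n + 1)) (b.1 (n + 1))) := rfl

variable [IsAlgClosed F] (h2 : (2 : F) ≠ 0)

/-- The Weil pairing on the Tate module. -/
noncomputable def BB : TateMod 2 A →ₗ[ℤ_[2]] TateMod 2 A →ₗ[ℤ_[2]] ℤ_[2] :=
  (PP hp hA).compr₂ (psi h2).symm.toLinearMap

theorem BB_apply (a b : TateMod 2 A) : BB hp hA h2 a b = (psi h2).symm (PP hp hA a b) := rfl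

theorem BB_self (a : TateMod 2 A) : BB hp hA h2 a a = 0 := by
  rw [BB_apply, LinearEquiv.map_eq_zero_iff]
  apply tm_ext
  intro n
  cases n with
  | zero => rfl
  | succ n =>
    rw [PP_succ, e_self hp hA (even_pow n) (tm_tors a _)]
    rfl

/-- The reduction of the pairing. -/
theorem BB_mod (a b : TateMod 2 A) :
    toZModPow 1 (BB hp hA h2 a b) = 0 ↔ e p Θ 2 (a.1 1) (b.1 1) = 1 := by
  have h1 : PP hp hA a b = BB hp hA h2 a b • zg F := by
    rw [← psi_apply h2, BB_apply, LinearEquiv.apply_symm_apply]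
  have h3 := congrArg (fun x : TateMod 2 (Additive Fˣ) => x.1 1) h1
  have h4 : Additive.ofMul (e p Θ 2 (a.1 1) (b.1 1)) =
      (toZModPow 1 (BB hp hA h2 a b)).val • Additive.ofMul (-1 : Fˣ) := by
    rw [← zg_one, ← tm_smul_apply, ← h1]
    rfl
  rw [← ofMul_neg_one_smul h2, ← h4]
  exact Iff.rfl

/-- The behaviour under automorphisms. -/
theorem BB_act {σL : L ≃+* L} {σF : F ≃+* F} {σP : Pl → Pl} {σA : A →+ A}
    (hσ : IsAct p Θ σL σF σP σA) (a b : TateMod 2 A) :
    BB hp hA h2 (tmMap σA a) (tmMap σA b) =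
      ((cyclotomicCharacter F 2 σF : ℤ_[2]ˣ) : ℤ_[2]) * BB hp hA h2 a b := by
  have h1 : PP hp hA (tmMap σA a) (tmMap σA b) =
      tmMap (Units.map σF.toMonoidHom).toAdditive (PP hp hA a b) := by
    apply tm_ext
    intro n
    cases n with
    | zero => rw [tm_zero, tm_zero]
    | succ n =>
      rw [PP_succ, tmMap_apply, tmMap_apply, tmMap_apply, PP_succ,
        hσ.e hp hA (even_pow n) (tm_tors a _) (tm_tors b _)]
      rfl
  rw [BB_apply, h1, tmMap_cyc h2, map_smul, BB_apply, smul_eq_mul]

end pairing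

end Pool.Agent.N171
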