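import Mathlib
import Pool.Agent.N171.Gal
import Pool.Agent.N171.Wp

/-!
# The action on the points of order four
-/

set_option linter.unusedSectionVars false

namespace Pool.Agent.N171

open HahnSeries Polynomial

noncomputable section

variable {F ι : Type*} [Field F] [Fintype ι] [DecidableEq ι] {α : ι → F} [IsAlgClosed F] [Hyp α]
  {A : Type*} [AddCommGroup A] {Θ : (Option (Pt α) →₀ ℤ) →+ A} (hA : IsClasses (crv α) Θ)

variable (Θ) in
/-- The sum of the ramification points of a set. -/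
def DS (S : Finset ι) : A := ∑ i ∈ S, Θ (Dr α i)

include hA in
theorem two_DS (S : Finset ι) : (2 : ℕ) • DS Θ S = 0 := by
  rw [DS, Finset.smul_sum]
  exact Finset.sum_eq_zero fun i _ => two_Dr hA i

theorem DS_ite (S : Finset ι) : DS Θ S = ∑ i, if i ∈ S then Θ (Dr α i) else 0 := by
  rw [DS, Finset.sum_ite_mem, Finset.univ_inter]

include hA in
theorem DS_add (S S' : Finset ι) : DS Θ S + DS Θ S' = DS Θ (symmDiff S S') := by
  rw [DS_ite, DS_ite, DS_ite, ← Finset.sum_add_distrib]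
  refine Finset.sum_congr rfl fun i _ => ?_
  have h := two_Dr hA i
  rw [two_smul] at h
  by_cases h1 : i ∈ S <;> by_cases h2 : i ∈ S' <;> simp [Finset.mem_symmDiff, h1, h2, h]

include hA in
theorem exists_DS {x : A} (hx : (2 : ℕ) • x = 0) : ∃ S, x = DS Θ S := by
  have h := two_tors hA hx
  clear hx
  induction h using AddSubgroup.closure_induction with
  | mem x hx =>
    obtain ⟨i, rfl⟩ := hx
    exact ⟨{i}, by rw [DS, Finset.sum_singleton]⟩
  | zero => exact ⟨∅, by rw [DS, Finset.sum_empty]⟩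
  | add x y _ _ hx hy =>
    obtain ⟨S, rfl⟩ := hx
    obtain ⟨S', rfl⟩ := hy
    exact ⟨_, DS_add hA S S'⟩
  | neg x _ hx =>
    obtain ⟨S, rfl⟩ := hx
    refine ⟨S, ?_⟩
    rw [neg_eq_iff_add_eq_zero, ← two_smul ℕ, two_DS hA]

include hA in
theorem finite_two : {x : A | (2 : ℕ) • x = 0}.Finite := by
  refine (Set.finite_range (DS Θ)).subset fun x hx => ?_
  obtain ⟨S, rfl⟩ := exists_DS hA hx
  exact ⟨S, rfl⟩

/-- The pairing on the points of order two. -/
abbrev e2 (Θ : (Option (Pt α) →₀ ℤ) →+ A) (x y : A) : Fˣ := e (crv α) Θ 2 x y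

include hA in
theorem e2_sum (S : Finset ι) (x : ι → A) {y : A} (hx : ∀ i, (2 : ℕ) • x i = 0)
    (hy : (2 : ℕ) • y = 0) : e2 Θ (∑ i ∈ S, x i) y = ∏ i ∈ S, e2 Θ (x i) y := by
  induction S using Finset.induction_on with
  | empty => rw [Finset.sum_empty, Finset.prod_empty, e2,
      e_zero_left (isCurve_crv α) hA even_two hy]
  | insert i S hi ih =>
    rw [Finset.sum_insert hi, Finset.prod_insert hi, ← ih, e2,
      e_add_left (isCurve_crv α) hA even_two (hx i) _ hy]
    rw [Finset.smul_sum]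
    exact Finset.sum_eq_zero fun i _ => hx i

include hA in
theorem e2_D (S : Finset ι) (j : ι) :
    e2 Θ (DS Θ S) (Θ (Dr α j)) = (-1) ^ (S.erase j).card := by
  rw [DS, e2_sum hA S _ (two_Dr hA) (two_Dr hA j)]
  have h1 : ∀ i ∈ S, e2 Θ (Θ (Dr α i)) (Θ (Dr α j)) = if i ≠ j then (-1 : Fˣ) else 1 := by
    intro i _
    by_cases h : i = j
    · subst h
      rw [e2, e_self (isCurve_crv α) hA even_two (two_Dr hA i)]
      simp
    · rw [e2, e_Dr hA h, if_pos h]
  rw [Finset.prod_congr rfl h1, Finset.prod_ite, Finset.prod_const, Finset.prod_const_one, mul_one]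
  congr 2
  ext i
  simp only [Finset.mem_filter, Finset.mem_erase]
  tauto

theorem neg_one_pow_iff (h2 : (2 : F) ≠ 0) (n : ℕ) : (-1 : Fˣ) ^ n = 1 ↔ Even n := by
  constructor
  · intro h
    by_contra hn
    rw [Nat.not_even_iff_odd] at hn
    rw [hn.neg_one_pow] at h
    exact neg_one_ne h2 h
  · intro h
    exact h.neg_one_pow

include hA in
theorem eq_zero_of_e2 {x : A} (hx : (2 : ℕ) • x = 0) (h : ∀ j, e2 Θ x (Θ (Dr α j)) = 1) :
    x = 0 := by
  obtain ⟨S, rfl⟩ := exists_DS hA hx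
  have h1 : ∀ j, Even (S.erase j).card := fun j => by
    rw [← neg_one_pow_iff (Hyp.two (α := α)), ← e2_D hA, h]
  rcases S.eq_empty_or_nonempty with rfl | ⟨j, hj⟩
  · rw [DS, Finset.sum_empty]
  · have h2 := h1 j
    rw [Finset.card_erase_of_mem hj] at h2
    have h3 : S = Finset.univ := by
      by_contra hS
      have h4 : ∃ i, i ∉ S := by
        by_contra h5
        push Not at h5
        exact hS (Finset.eq_univ_iff_forall.2 h5)
      obtain ⟨i, hi⟩ := h4
      have h5 := h1 i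
      rw [Finset.erase_eq_of_notMem hi] at h5
      have h6 : 0 < S.card := Finset.card_pos.2 ⟨j, hj⟩
      obtain ⟨a, ha⟩ := h2
      obtain ⟨b, hb⟩ := h5
      omega
    rw [h3, DS]
    exact sum_Dr hA

include hA in
/-- The action on the halves of the ramification points. -/
theorem act_half {σ : F ≃+* F} (hσ : ∀ i, σ (α i) = α i) {σA : A →+ A}
    (hact : IsAct (crv α) Θ (gL hσ) σ (gP hσ) σA) {I : Finset ι} (hI : Even I.card)
    (hs : ∀ i j, i ≠ j → ∀ w : F, w ^ 2 = α i - α j → σ w = if i ∈ I ∧ j ∈ I then -w else w)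
    {i : ι} {q : A} (hq : (2 : ℕ) • q = Θ (Dr α i)) :
    σA q - q = if i ∈ I then DS Θ I else 0 := by
  have hne : ∀ j, i ≠ j → e2 Θ (σA q - q) (Θ (Dr α j)) = if i ∈ I ∧ j ∈ I then -1 else 1 := by
    intro j hij
    obtain ⟨-, w, hw, he⟩ := hact.half (isCurve_crv α) hA (deg_Dr i) hq (rep_Dr j)
      (gDr hσ i) (gDr hσ j) (ghr hσ j)
    have h1 : ((w⁻¹ : Fˣ) : F) ^ 2 = α i - α j := by
      rw [← ev_hr hij, ← Units.val_pow_eq_pow_val, inv_pow, hw, inv_inv]
    have h3 := hs i j hij _ h1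
    have h4 : Units.map σ.toMonoidHom w⁻¹ = if i ∈ I ∧ j ∈ I then -w⁻¹ else w⁻¹ := by
      apply Units.ext
      change σ ((w⁻¹ : Fˣ) : F) = _
      rw [h3]
      split_ifs <;> simp
    change e (crv α) Θ 2 (σA q - q) (Θ (Dr α j)) = _
    rw [he]
    have h5 : Units.map σ.toMonoidHom w = if i ∈ I ∧ j ∈ I then -w else w := by
      rw [map_inv] at h4
      rw [← inv_inj, h4]
      split_ifs
      · rw [inv_neg]
      · rfl
    rw [h5]
    split_ifs
    · rw [neg_mul, mul_inv_cancel]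
    · rw [mul_inv_cancel]
  have h20 : (2 : ℕ) • (σA q - q) = 0 := by
    rw [smul_sub, ← map_nsmul, hq, ← hact.cls, gDr hσ, sub_self]
  -- the pairing with the same point
  have hself : e2 Θ (σA q - q) (Θ (Dr α i)) = if i ∈ I then -1 else 1 := by
    have h1 : e2 Θ (∑ j, Θ (Dr α j)) (σA q - q) = 1 := by
      rw [sum_Dr hA]
      exact e_zero_left (isCurve_crv α) hA even_two h20
    rw [e2_sum hA _ _ (two_Dr hA) h20] at h1
    have h3 : ∀ j, e2 Θ (Θ (Dr α j)) (σA q - q) = (e2 Θ (σA q - q) (Θ (Dr α j)))⁻¹ := fun j =>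
      e_symm (isCurve_crv α) hA even_two h20 (two_Dr hA j)
    simp only [h3] at h1
    rw [Finset.prod_inv_distrib, inv_eq_one, ← Finset.mul_prod_erase _ _ (Finset.mem_univ i)] at h1
    have h4 : ∏ j ∈ Finset.univ.erase i, e2 Θ (σA q - q) (Θ (Dr α j)) =
        if i ∈ I then -1 else 1 := by
      rw [Finset.prod_congr rfl fun j hj => hne j (Ne.symm (Finset.ne_of_mem_erase hj)),
        Finset.prod_ite, Finset.prod_const_one, mul_one, Finset.prod_const]
      by_cases hi : i ∈ I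
      · rw [if_pos hi]
        have h5 : ((Finset.univ.erase i).filter (fun j => i ∈ I ∧ j ∈ I)) = I.erase i := by
          ext j
          simp only [Finset.mem_filter, Finset.mem_erase, Finset.mem_univ]
          tauto
        rw [h5, Finset.card_erase_of_mem hi]
        have h6 : Odd (I.card - 1) := by
          have h7 : 0 < I.card := Finset.card_pos.2 ⟨i, hi⟩
          obtain ⟨a, ha⟩ := hI
          exact ⟨a - 1, by omega⟩
        rw [h6.neg_one_pow]
      · rw [if_neg hi]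
        have h5 : ((Finset.univ.erase i).filter (fun j => i ∈ I ∧ j ∈ I)) = ∅ := by
          ext j
          simp [hi]
        rw [h5, Finset.card_empty, pow_zero]
    rw [h4] at h1
    split_ifs at h1 ⊢ with hi
    · rw [mul_neg, mul_one] at h1
      rw [← h1, neg_neg]
    · rwa [mul_one] at h1
  -- the comparison
  rw [← sub_eq_zero]
  by_cases hi : i ∈ I
  · rw [if_pos hi]
    apply eq_zero_of_e2 hA
    · rw [smul_sub, h20, two_DS hA, sub_zero]
    · intro j
      rw [e2, e_sub_left (isCurve_crv α) hA even_two h20 (two_DS hA I) (two_Dr hA j)]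
      change e2 Θ (σA q - q) (Θ (Dr α j)) * (e2 Θ (DS Θ I) (Θ (Dr α j)))⁻¹ = 1
      have h1 : e2 Θ (σA q - q) (Θ (Dr α j)) = if j ∈ I then -1 else 1 := by
        by_cases hij : i = j
        · subst hij
          exact hself
        · rw [hne j hij]
          simp [hi]
      rw [h1, e2_D hA]
      by_cases hj : j ∈ I
      · rw [if_pos hj, Finset.card_erase_of_mem hj]
        have h6 : Odd (I.card - 1) := by
          have h7 : 0 < I.card := Finset.card_pos.2 ⟨i, hi⟩
          obtain ⟨a, ha⟩ := hI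
          exact ⟨a - 1, by omega⟩
        rw [h6.neg_one_pow]
        exact mul_inv_cancel _
      · rw [if_neg hj, Finset.erase_eq_of_notMem hj, hI.neg_one_pow]
        simp
  · rw [if_neg hi, sub_zero]
    apply eq_zero_of_e2 hA h20
    intro j
    by_cases hij : i = j
    · subst hij
      rw [hself, if_neg hi]
    · rw [hne j hij, if_neg (fun h => hi h.1)]

include hA in
theorem e2_DS (I S : Finset ι) (hI : Even I.card) :
    e2 Θ (DS Θ I) (DS Θ S) = (-1) ^ (I ∩ S).card := by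
  have h1 : e2 Θ (DS Θ S) (DS Θ I) = (-1) ^ (I ∩ S).card := by
    rw [show DS Θ S = ∑ i ∈ S, Θ (Dr α i) from rfl, e2_sum hA S _ (two_Dr hA) (two_DS hA I)]
    have h3 : ∀ j ∈ S, e2 Θ (Θ (Dr α j)) (DS Θ I) = if j ∈ I then (-1 : Fˣ) else 1 := by
      intro j _
      have h4 : e2 Θ (Θ (Dr α j)) (DS Θ I) = (e2 Θ (DS Θ I) (Θ (Dr α j)))⁻¹ :=
        e_symm (isCurve_crv α) hA even_two (two_DS hA I) (two_Dr hA j)
      rw [h4, e2_D hA]
      by_cases hj : j ∈ I
      · rw [if_pos hj, Finset.card_erase_of_mem hj]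
        have h6 : Odd (I.card - 1) := by
          have h7 : 0 < I.card := Finset.card_pos.2 ⟨j, hj⟩
          obtain ⟨a, ha⟩ := hI
          exact ⟨a - 1, by omega⟩
        rw [h6.neg_one_pow, inv_neg, inv_one]
      · rw [if_neg hj, Finset.erase_eq_of_notMem hj, hI.neg_one_pow, inv_one]
    rw [Finset.prod_congr rfl h3, Finset.prod_ite, Finset.prod_const_one, mul_one,
      Finset.prod_const]
    congr 2
    ext j
    simp only [Finset.mem_filter, Finset.mem_inter]
    tauto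
  have h4 : e2 Θ (DS Θ I) (DS Θ S) = (e2 Θ (DS Θ S) (DS Θ I))⁻¹ :=
    e_symm (isCurve_crv α) hA even_two (two_DS hA S) (two_DS hA I)
  rw [h4, h1]
  rcases Nat.even_or_odd (I ∩ S).card with h | h
  · rw [h.neg_one_pow, inv_one]
  · rw [h.neg_one_pow, inv_neg, inv_one]

include hA in
/-- The action on the points of order four. -/
theorem act_four {σ : F ≃+* F} (hσ : ∀ i, σ (α i) = α i) {σA : A →+ A}
    (hact : IsAct (crv α) Θ (gL hσ) σ (gP hσ) σA) {I : Finset ι} (hI : Even I.card)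
    (hs : ∀ i j, i ≠ j → ∀ w : F, w ^ 2 = α i - α j → σ w = if i ∈ I ∧ j ∈ I then -w else w)
    {z : A} (hz : (4 : ℕ) • z = 0) :
    (e2 Θ (DS Θ I) ((2 : ℕ) • z) = 1 ∧ σA z = z) ∨
      (e2 Θ (DS Θ I) ((2 : ℕ) • z) = -1 ∧ σA z = z + DS Θ I) := by
  have hI2 : DS Θ I + DS Θ I = 0 := by rw [← two_smul ℕ, two_DS hA]
  have h44 : ∀ {x : A}, (4 : ℕ) • x = 0 → (2 : ℕ) • (2 : ℕ) • x = 0 := fun h => by
    rw [smul_smul]
    exact h
  let G : AddSubgroup A :=
    { carrier := {z | (4 : ℕ) • z = 0 ∧ ((e2 Θ (DS Θ I) ((2 : ℕ) • z) = 1 ∧ σA z = z) ∨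
        (e2 Θ (DS Θ I) ((2 : ℕ) • z) = -1 ∧ σA z = z + DS Θ I))}
      zero_mem' := by
        refine ⟨smul_zero _, Or.inl ⟨?_, map_zero _⟩⟩
        rw [smul_zero]
        have h4 : e2 Θ (DS Θ I) 0 = (e2 Θ 0 (DS Θ I))⁻¹ :=
          e_symm (isCurve_crv α) hA even_two (smul_zero _) (two_DS hA I)
        rw [h4, e2, e_zero_left (isCurve_crv α) hA even_two (two_DS hA I), inv_one]
      add_mem' := by
        rintro x y ⟨hx, hx'⟩ ⟨hy, hy'⟩
        refine ⟨by rw [smul_add, hx, hy, add_zero], ?_⟩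
        have h1 : e2 Θ (DS Θ I) ((2 : ℕ) • (x + y)) =
            e2 Θ (DS Θ I) ((2 : ℕ) • x) * e2 Θ (DS Θ I) ((2 : ℕ) • y) := by
          rw [smul_add]
          exact e_add_right (isCurve_crv α) hA even_two (two_DS hA I) (h44 hx) (h44 hy)
        rw [h1, map_add]
        rcases hx' with ⟨a1, a2⟩ | ⟨a1, a2⟩ <;> rcases hy' with ⟨b1, b2⟩ | ⟨b1, b2⟩
        · exact Or.inl ⟨by rw [a1, b1, mul_one], by rw [a2, b2]⟩
        · exact Or.inr ⟨by rw [a1, b1, one_mul], by rw [a2, b2]; abel⟩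
        · exact Or.inr ⟨by rw [a1, b1, mul_one], by rw [a2, b2]; abel⟩
        · refine Or.inl ⟨by rw [a1, b1]; simp, ?_⟩
          rw [a2, b2, add_add_add_comm, hI2, add_zero]
      neg_mem' := by
        rintro x ⟨hx, hx'⟩
        refine ⟨by rw [smul_neg, hx, neg_zero], ?_⟩
        have h1 : e2 Θ (DS Θ I) ((2 : ℕ) • (-x)) = e2 Θ (DS Θ I) ((2 : ℕ) • x) := by
          rw [smul_neg]
          have h3 := h44 hx
          rw [two_smul ℕ ((2 : ℕ) • x)] at h3
          rw [neg_eq_of_add_eq_zero_left h3]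
        rw [h1, map_neg]
        rcases hx' with ⟨a1, a2⟩ | ⟨a1, a2⟩
        · exact Or.inl ⟨a1, by rw [a2]⟩
        · refine Or.inr ⟨a1, ?_⟩
          rw [a2, neg_add]
          congr 1
          exact neg_eq_of_add_eq_zero_left hI2 }
  -- the points of order two
  have hD : ∀ i, Θ (Dr α i) ∈ G := by
    intro i
    have h2 := two_Dr hA i
    refine ⟨?_, Or.inl ⟨?_, ?_⟩⟩
    · rw [show (4 : ℕ) = 2 * 2 from rfl, mul_smul, h2, smul_zero]
    · rw [h2]
      have h4 : e2 Θ (DS Θ I) 0 = (e2 Θ 0 (DS Θ I))⁻¹ :=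
        e_symm (isCurve_crv α) hA even_two (smul_zero _) (two_DS hA I)
      rw [h4, e2, e_zero_left (isCurve_crv α) hA even_two (two_DS hA I), inv_one]
    · rw [← hact.cls, gDr hσ]
  have hDS : ∀ S, DS Θ S ∈ G := fun S => G.sum_mem fun i _ => hD i
  -- the halves
  choose q hq using fun i => two_div hA (Θ (Dr α i))
  have hqG : ∀ i, q i ∈ G := by
    intro i
    have h1 := act_half hA hσ hact hI hs (hq i)
    refine ⟨by rw [show (4 : ℕ) = 2 * 2 from rfl, mul_smul, hq, two_Dr hA], ?_⟩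
    have h3 : e2 Θ (DS Θ I) ((2 : ℕ) • q i) = if i ∈ I then -1 else 1 := by
      rw [hq, e2_D hA]
      by_cases hi : i ∈ I
      · rw [if_pos hi, Finset.card_erase_of_mem hi]
        have h6 : Odd (I.card - 1) := by
          have h7 : 0 < I.card := Finset.card_pos.2 ⟨i, hi⟩
          obtain ⟨a, ha⟩ := hI
          exact ⟨a - 1, by omega⟩
        rw [h6.neg_one_pow]
      · rw [if_neg hi, Finset.erase_eq_of_notMem hi, hI.neg_one_pow]
    rw [h3]
    by_cases hi : i ∈ I
    · rw [if_pos hi] at h1 ⊢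
      exact Or.inr ⟨rfl, by rw [← h1]; abel⟩
    · rw [if_neg hi] at h1 ⊢
      exact Or.inl ⟨rfl, sub_eq_zero.1 h1⟩
  suffices h : z ∈ G from h.2
  obtain ⟨S, hS⟩ := exists_DS hA (h44 hz)
  have h1 : (2 : ℕ) • (z - ∑ i ∈ S, q i) = 0 := by
    rw [smul_sub, hS, Finset.smul_sum, DS, Finset.sum_congr rfl fun i _ => hq i, sub_self]
  obtain ⟨S', hS'⟩ := exists_DS hA h1
  have h3 : z = DS Θ S' + ∑ i ∈ S, q i := by
    rw [← hS', sub_add_cancel]
  rw [h3]
  exact G.add_mem (hDS S') (G.sum_mem fun i _ => hqG i)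

end

end Pool.Agent.N171
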