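import Mathlib
import Pool.Agent.N171.Defs
import Pool.Agent.N171.Kum
import Pool.Agent.N171.Tor

/-!
# Tate classes on the powers of products of Jacobians of hyperelliptic curves
-/

set_option linter.unusedSectionVars false

namespace Pool.Agent.N171

open Polynomial PadicInt TensorProduct Pool.Agent.H204R3.GP

noncomputable section

/-! ### sets of branch points -/

section span

variable {F ι : Type*} [Field F] [Fintype ι] [DecidableEq ι] {α : ι → F} [IsAlgClosed F] [Hyp α]
  {A : Type*} [AddCommGroup A] {Θ : (Option (Pt α) →₀ ℤ) →+ A} (hA : IsClasses (crv α) Θ)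

/-- The sum of branch points. -/
def Phi (hA : IsClasses (crv α) Θ) : (ι → ZMod 2) →+ A where
  toFun f := ∑ i, (f i).val • Θ (Dr α i)
  map_zero' := Finset.sum_eq_zero fun i _ => by
    rw [Pi.zero_apply, ZMod.val_zero, zero_smul]
  map_add' f g := by
    rw [← Finset.sum_add_distrib]
    refine Finset.sum_congr rfl fun i _ => ?_
    have h := two_Dr hA i
    rw [Pi.add_apply]
    rcases (by decide : ∀ x : ZMod 2, x = 0 ∨ x = 1) (f i) with h1 | h1 <;>
    rcases (by decide : ∀ x : ZMod 2, x = 0 ∨ x = 1) (g i) with h2 | h2 <;> rw [h1, h2]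
    · simp
    · simp
    · simp
    · have h3 : ((1 : ZMod 2) + 1).val = 0 := rfl
      have h4 : (1 : ZMod 2).val = 1 := rfl
      rw [h3, h4, zero_smul, ← add_smul]
      exact h.symm

theorem Phi_apply (f : ι → ZMod 2) : Phi hA f = ∑ i, (f i).val • Θ (Dr α i) := rfl

theorem Phi_ind (S : Finset ι) : Phi hA (ind S) = DS Θ S := by
  rw [Phi_apply, DS_ite]
  refine Finset.sum_congr rfl fun i _ => ?_
  unfold ind
  split_ifs
  · rw [show (1 : ZMod 2).val = 1 from rfl, one_smul]
  · rw [ZMod.val_zero, zero_smul]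

theorem Phi_one : Phi hA (fun _ => 1) = 0 := by
  rw [Phi_apply, ← sum_Dr hA]
  refine Finset.sum_congr rfl fun i _ => ?_
  rw [show (1 : ZMod 2).val = 1 from rfl, one_smul]

theorem mem_of_pairs {ι : Type*} [Fintype ι] [DecidableEq ι] (H : AddSubgroup (ι → ZMod 2))
    (hH : ∀ i j, i ≠ j → ind {i, j} ∈ H) {f : ι → ZMod 2} (hf : ∑ i, f i = 0) : f ∈ H := by
  rcases isEmpty_or_nonempty ι with h | ⟨⟨j⟩⟩
  · rw [Subsingleton.elim f 0]
    exact H.zero_mem
  · have h1 : f = ∑ i, (f i).val • ((Pi.single i 1 : ι → ZMod 2) + Pi.single j 1) := by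
      have h2 : ∀ i, (f i).val • ((Pi.single i 1 : ι → ZMod 2) + Pi.single j 1) =
          Pi.single i (f i) + Pi.single j (f i) := by
        intro i
        rcases (by decide : ∀ x : ZMod 2, x = 0 ∨ x = 1) (f i) with h1 | h1
        · rw [h1, ZMod.val_zero, zero_smul, Pi.single_zero, Pi.single_zero, add_zero]
        · rw [h1, show (1 : ZMod 2).val = 1 from rfl, one_smul]
      rw [Finset.sum_congr rfl fun i _ => h2 i, Finset.sum_add_distrib, Finset.univ_sum_single]
      have h3 : ∑ i, (Pi.single j (f i) : ι → ZMod 2) = Pi.single j (∑ i, f i) :=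
        (map_sum (AddMonoidHom.single (fun _ : ι => ZMod 2) j) f Finset.univ).symm
      rw [h3, hf, Pi.single_zero, add_zero]
    rw [h1]
    refine H.sum_mem fun i _ => H.nsmul_mem ?_ _
    by_cases hij : i = j
    · subst hij
      have h2 : (Pi.single i 1 : ι → ZMod 2) + Pi.single i 1 = 0 := by
        rw [← Pi.single_add, show (1 : ZMod 2) + 1 = 0 from rfl, Pi.single_zero]
      rw [h2]
      exact H.zero_mem
    · have h2 : (Pi.single i 1 : ι → ZMod 2) + Pi.single j 1 = ind {i, j} := by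
        funext l
        unfold ind
        rw [Pi.add_apply, Pi.single_apply, Pi.single_apply]
        by_cases h3 : l = i
        · subst h3
          simp [hij]
        · simp [h3]
      rw [h2]
      exact hH i j hij

include hA in
theorem exists_even {x : A} (hx : (2 : ℕ) • x = 0) :
    ∃ f : ι → ZMod 2, ∑ i, f i = 0 ∧ Phi hA f = x := by
  obtain ⟨S, rfl⟩ := exists_DS hA hx
  rcases (by decide : ∀ x : ZMod 2, x = 0 ∨ x = 1) (∑ i, ind S i) with h | h
  · exact ⟨ind S, h, Phi_ind hA S⟩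
  · refine ⟨ind S + fun _ => 1, ?_, ?_⟩
    · simp only [Pi.add_apply]
      rw [Finset.sum_add_distrib, h, Finset.sum_const, Finset.card_univ, nsmul_eq_mul, mul_one]
      obtain ⟨k, hk⟩ := Hyp.odd (α := α)
      rw [hk]
      push_cast
      have h2 : (2 : ZMod 2) = 0 := rfl
      rw [h2, zero_mul, zero_add]
      rfl
    · rw [map_add, Phi_ind, Phi_one, add_zero]

end span

/-! ### the product -/

section prod

variable {K : Type*} [Field K] {F : Type*} [Field F] [Algebra K F] [IsAlgClosed F] {Q : Type*}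
  [Fintype Q] [DecidableEq Q] {ι : Q → Type*} [∀ q, Fintype (ι q)] [∀ q, DecidableEq (ι q)]
  (α : ∀ q, ι q → K) [∀ q, Hyp (α q)]

variable (F) in
/-- The Tate module of the product. -/
abbrev TT : Type _ := TateMod 2 (∀ q, Jac F (α q))

/-- The component of an element of the Tate module. -/
def ev (q : Q) : TT F α →ₗ[ℤ_[2]] TateMod 2 (Jac F (α q)) :=
  tmMap (Pi.evalAddMonoidHom (fun q => Jac F (α q)) q)

/-- The inclusion of a factor. -/
def sg (q : Q) : TateMod 2 (Jac F (α q)) →ₗ[ℤ_[2]] TT F α :=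
  tmMap (AddMonoidHom.single (fun q => Jac F (α q)) q)

theorem ev_apply (q : Q) (a : TT F α) (n : ℕ) : (ev α q a).1 n = a.1 n q := rfl

theorem sg_apply (q : Q) (a : TateMod 2 (Jac F (α q))) (n : ℕ) :
    (sg α q a).1 n = Pi.single q (a.1 n) := rfl

theorem ev_sg (q : Q) (a : TateMod 2 (Jac F (α q))) : ev α q (sg α q a) = a := by
  apply tm_ext
  intro n
  rw [ev_apply, sg_apply, Pi.single_eq_same]

theorem ev_sg_ne {q r : Q} (h : q ≠ r) (a : TateMod 2 (Jac F (α r))) : ev α q (sg α r a) = 0 := by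
  apply tm_ext
  intro n
  rw [ev_apply, sg_apply, Pi.single_eq_of_ne h]
  rfl

variable (h2 : (2 : F) ≠ 0)

/-- The Weil pairing of a factor. -/
abbrev Bq (q : Q) : TateMod 2 (Jac F (α q)) →ₗ[ℤ_[2]] TateMod 2 (Jac F (α q)) →ₗ[ℤ_[2]] ℤ_[2] :=
  BB (isCurve_crv (lf F (α q))) (isClasses_ThJ (F := F) (α q)) h2

/-- The Weil pairing of the product. -/
def BT : TT F α →ₗ[ℤ_[2]] TT F α →ₗ[ℤ_[2]] ℤ_[2] :=
  ∑ q, (Bq α h2 q).compl₁₂ (ev α q) (ev α q)

theorem BT_apply (a b : TT F α) : BT α h2 a b = ∑ q, Bq α h2 q (ev α q a) (ev α q b) := by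
  unfold BT
  simp only [LinearMap.sum_apply, LinearMap.compl₁₂_apply]

theorem BT_sg_left (q : Q) (a : TateMod 2 (Jac F (α q))) (b : TT F α) :
    BT α h2 (sg α q a) b = Bq α h2 q a (ev α q b) := by
  rw [BT_apply, Finset.sum_eq_single q]
  · rw [ev_sg]
  · intro r _ hr
    rw [ev_sg_ne α hr, map_zero, LinearMap.zero_apply]
  · intro h
    exact absurd (Finset.mem_univ _) h

theorem BT_sg_right (q : Q) (a : TateMod 2 (Jac F (α q))) (b : TT F α) :
    BT α h2 b (sg α q a) = Bq α h2 q (ev α q b) a := by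
  rw [BT_apply, Finset.sum_eq_single q]
  · rw [ev_sg]
  · intro r _ hr
    rw [ev_sg_ne α hr, map_zero]
  · intro h
    exact absurd (Finset.mem_univ _) h

/-- The projections. -/
def pj (q : Q) : Module.End ℤ_[2] (TT F α) := (sg α q).comp (ev α q)

theorem pj_apply (q : Q) (a : TT F α) : pj α q a = sg α q (ev α q a) := rfl

theorem BT_self (a : TT F α) : BT α h2 a a = 0 := by
  rw [BT_apply]
  exact Finset.sum_eq_zero fun q _ => BB_self _ _ _ _

theorem exists_lift (q : Q) {x : Jac F (α q)} (hx : (2 : ℕ) • x = 0) :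
    ∃ a : TateMod 2 (Jac F (α q)), a.1 1 = x :=
  tm_lift (two_div (isClasses_ThJ (F := F) (α q))) hx

theorem tt_shift {a : TT F α} (h : a.1 1 = 0) : ∃ b : TT F α, (2 : ℤ_[2]) • b = a := by
  obtain ⟨b, hb⟩ := tm_shift' h
  exact ⟨b, by rw [← hb]; norm_num⟩

theorem BT_nd (v : TT F α) (hv : ∀ w, ¬ IsUnit (BT α h2 v w)) :
    ∃ u : TT F α, (2 : ℤ_[2]) • u = v := by
  apply tt_shift
  funext q
  apply eq_zero_of_e2 (isClasses_ThJ (F := F) (α q))
  · have h := tm_tors v 1
    rw [pow_one] at h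
    exact congrFun h q
  · intro j
    obtain ⟨w, hw⟩ := exists_lift α q (two_Dr (isClasses_ThJ (F := F) (α q)) j)
    have h1 := hv (sg α q w)
    rw [BT_sg_right, isUnit_iff_toZModPow, not_not, BB_mod, hw] at h1
    exact h1

theorem ev_act (q : Q) (σ : F ≃ₐ[K] F) (a : TT F α) :
    ev α q (tateRep F α σ a) = tmMap (jacAct (α q) σ) (ev α q a) :=
  tm_ext fun _ => rfl

theorem BT_act (σ : F ≃ₐ[K] F) (a b : TT F α) :
    BT α h2 (tateRep F α σ a) (tateRep F α σ b) = (cyc K F σ : ℤ_[2]) * BT α h2 a b := by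
  rw [BT_apply, BT_apply, Finset.mul_sum]
  refine Finset.sum_congr rfl fun q _ => ?_
  rw [ev_act, ev_act, BB_act (isCurve_crv (lf F (α q))) (isClasses_ThJ (F := F) (α q)) h2
    (isAct_J (α q) σ), cyc_apply]

theorem pj_sum (x : TT F α) : ∑ q, pj α q x = x := by
  apply tm_ext
  intro n
  have h1 : (∑ q, pj α q x).1 n = ∑ q, (pj α q x).1 n :=
    map_sum (tmEv n) (fun q => pj α q x) Finset.univ
  rw [h1]
  exact Finset.univ_sum_single (x.1 n)

theorem pj_pj (q : Q) (x : TT F α) : pj α q (pj α q x) = pj α q x := by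
  rw [pj_apply, pj_apply, ev_sg]

theorem pj_pj_ne (q r : Q) (x : TT F α) (h : q ≠ r) : pj α q (pj α r x) = 0 := by
  rw [pj_apply, pj_apply, ev_sg_ne α h, map_zero]

theorem BT_pj (q : Q) (x y : TT F α) : BT α h2 (pj α q x) y = BT α h2 x (pj α q y) := by
  rw [pj_apply, pj_apply, BT_sg_left, BT_sg_right]

theorem pj_act (q : Q) (σ : F ≃ₐ[K] F) (x : TT F α) :
    pj α q (tateRep F α σ x) = tateRep F α σ (pj α q x) := by
  apply tm_ext
  intro n
  funext r
  change (Pi.single q (jacAct (α q) σ (x.1 n q)) : ∀ r, Jac F (α r)) r =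
    jacAct (α r) σ ((Pi.single q (x.1 n q) : ∀ r, Jac F (α r)) r)
  by_cases h : r = q
  · subst h
    rw [Pi.single_eq_same, Pi.single_eq_same]
  · rw [Pi.single_eq_of_ne h, Pi.single_eq_of_ne h, map_zero]

theorem finite_TT : {x : ∀ q, Jac F (α q) | (2 : ℕ) • x = 0}.Finite := by
  have h : {x : ∀ q, Jac F (α q) | (2 : ℕ) • x = 0} =
      Set.pi Set.univ (fun q => {x : Jac F (α q) | (2 : ℕ) • x = 0}) := by
    ext x
    simp only [Set.mem_pi, Set.mem_univ, true_implies]
    exact funext_iff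
  rw [h]
  exact Set.Finite.pi fun q => finite_two (isClasses_ThJ (F := F) (α q))

instance : Module.Finite ℤ_[2] (TT F α) := tm_finite (finite_TT α)

instance : Module.Free ℤ_[2] (TT F α) := tm_free

/-! ### the automorphisms -/

theorem exists_sigma [Normal K F] (l : Kˣ →* ℤˣ) (hl1 : l (-1) = 1)
    (hl2 : ∀ u : Kˣ, (u : K) = 2 → l u = 1) (h2 : (2 : F) ≠ 0) :
    ∃ σ : F ≃ₐ[K] F, (∀ r (i j : ι r) (u : Kˣ), (u : K) = α r i - α r j → ∀ w : F,
      w ^ 2 = lf F (α r) i - lf F (α r) j → σ w = ((l u : ℤ) : F) * w) ∧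
      ∃ z, ((cyc K F σ : ℤ_[2]ˣ) : ℤ_[2]) = 1 + 8 * z := by
  classical
  have h2K : (2 : K) ≠ 0 := by
    intro h
    apply h2
    have h3 : (2 : F) = algebraMap K F 2 := by rw [map_ofNat]
    rw [h3, h, map_zero]
  let d : (Σ r, ι r × ι r) ⊕ Bool → Kˣ := fun x => match x with
    | Sum.inl ⟨r, i, j⟩ => if h : α r i - α r j = 0 then 1 else Units.mk0 _ h
    | Sum.inr false => -1
    | Sum.inr true => Units.mk0 2 h2K
  choose s hs using fun x => IsAlgClosed.exists_pow_nat_eq (algebraMap K F (d x : K)) two_pos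
  obtain ⟨σ, hσ⟩ := kummer (K := K) (F := F) h2 d s hs l
  refine ⟨σ, ?_, ?_⟩
  · intro r i j u hu w hw
    have hd : d (Sum.inl ⟨r, i, j⟩) = u := by
      have h3 : α r i - α r j ≠ 0 := by
        rw [← hu]
        exact u.ne_zero
      change (if h : α r i - α r j = 0 then (1 : Kˣ) else Units.mk0 _ h) = u
      rw [dif_neg h3]
      exact Units.ext hu.symm
    have h3 := hσ (Sum.inl ⟨r, i, j⟩)
    have h4 := hs (Sum.inl ⟨r, i, j⟩)
    rw [hd] at h3 h4
    have h5 : w ^ 2 = s (Sum.inl ⟨r, i, j⟩) ^ 2 := by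
      rw [h4, hw, hu, map_sub]
      rfl
    rcases sq_eq_sq_iff_eq_or_eq_neg.1 h5 with h | h
    · rw [h, h3]
    · rw [h, map_neg, h3, mul_neg]
  · have : ∀ i, HasEnoughRootsOfUnity F (2 ^ i) := by
      intro i
      have : NeZero ((2 ^ i : ℕ) : F) := ⟨by
        push_cast
        exact pow_ne_zero _ h2⟩
      infer_instance
    have h3 := hσ (Sum.inr false)
    have h4 := hs (Sum.inr false)
    have h5 := hσ (Sum.inr true)
    have h6 := hs (Sum.inr true)
    have e1 : d (Sum.inr false) = -1 := rfl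
    have e2 : d (Sum.inr true) = Units.mk0 2 h2K := rfl
    rw [e1] at h3 h4
    rw [e2] at h5 h6
    rw [hl1, Units.val_one, Int.cast_one, one_mul] at h3
    rw [hl2 _ rfl, Units.val_one, Int.cast_one, one_mul] at h5
    rw [Units.val_neg, Units.val_one, map_neg, map_one] at h4
    rw [Units.val_mk0, map_ofNat] at h6
    rw [cyc_apply]
    exact chi_eight h2 (σ : F ≃+* F) h4 h6 h3 h5

end prod

end

end Pool.Agent.N171
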