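import Mathlib
import Pool.Agent.N171.Asm

/-!
# Tate classes on the powers of products of Jacobians: the theorem
-/

set_option linter.unusedSectionVars false

namespace Pool.Agent.N171

open Polynomial PadicInt TensorProduct Pool.Agent.H204R3.GP

noncomputable section

variable {K : Type*} [Field K] {F : Type*} [Field F] [Algebra K F] [IsAlgClosed F] {Q : Type*}
  [Fintype Q] [DecidableEq Q] {ι : Q → Type*} [∀ q, Fintype (ι q)] [∀ q, DecidableEq (ι q)]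
  (α : ∀ q, ι q → K) [∀ q, Hyp (α q)] (h2 : (2 : F) ≠ 0)

theorem toZ_one {z : ℤ_[2]} (h : toZModPow 1 z ≠ 0) : (toZModPow 1 z).val = 1 := by
  rcases (by decide : ∀ x : ZMod 2, x = 0 ∨ x = 1) (toZModPow 1 z) with h1 | h1
  · exact absurd h1 h
  · rw [h1]
    rfl

theorem hs_of {σ : F ≃ₐ[K] F} {r : Q} {I : Finset (ι r)} {l : Kˣ →* ℤˣ}
    (hσ : ∀ (i j : ι r) (u : Kˣ), (u : K) = α r i - α r j → ∀ w : F,
      w ^ 2 = lf F (α r) i - lf F (α r) j → σ w = ((l u : ℤ) : F) * w)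
    (hl : ∀ (i j : ι r) (u : Kˣ), (u : K) = α r i - α r j →
      l u = if i ∈ I ∧ j ∈ I then -1 else 1) :
    ∀ i j, i ≠ j → ∀ w : F, w ^ 2 = lf F (α r) i - lf F (α r) j →
      (σ : F ≃+* F) w = if i ∈ I ∧ j ∈ I then -w else w := by
  intro i j hij w hw
  have h3 : α r i - α r j ≠ 0 := sub_ne_zero.2 fun h => hij (Hyp.inj (α := α r) h)
  change σ w = _
  rw [hσ i j (Units.mk0 _ h3) rfl w hw, hl i j (Units.mk0 _ h3) rfl]
  split_ifs <;> simp

/-- The action of the automorphism modulo four. -/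
theorem act_mod (σ : F ≃ₐ[K] F) {q : Q} {I : Finset (ι q)} (hI : Even I.card)
    {v : TateMod 2 (Jac F (α q))} (hv : v.1 1 = DS (ThJ F (α q)) I)
    (hs : ∀ i j, i ≠ j → ∀ w : F, w ^ 2 = lf F (α q) i - lf F (α q) j →
      (σ : F ≃+* F) w = if i ∈ I ∧ j ∈ I then -w else w)
    (hs' : ∀ r, r ≠ q → ∀ i j, i ≠ j → ∀ w : F, w ^ 2 = lf F (α r) i - lf F (α r) j →
      (σ : F ≃+* F) w = if i ∈ (∅ : Finset (ι r)) ∧ j ∈ (∅ : Finset (ι r)) then -w else w)
    (x : TT F α) : ∃ y, tateRep F α σ x = x + (2 : ℤ_[2]) • (BT α h2 (sg α q v) x • sg α q v) +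
      (4 : ℤ_[2]) • y := by
  set c := BT α h2 (sg α q v) x with hc
  have hcq : c = Bq α h2 q v (ev α q x) := BT_sg_left α h2 q v x
  set y₀ : TT F α := tateRep F α σ x - x - (2 : ℤ_[2]) • (c • sg α q v) with hy₀
  have h0 : y₀.1 2 = 0 := by
    have e1 : ((2 : ℤ_[2]) • (c • sg α q v)).1 2 = (toZModPow 1 c).val • (sg α q v).1 1 := by
      have e2 : ((2 : ℤ_[2]) • (c • sg α q v)) = (2 : ℕ) • (c • sg α q v) := by
        rw [← tm_natCast_smul]
        norm_num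
      rw [e2]
      change (2 : ℕ) • (c • sg α q v).1 (1 + 1) = _
      rw [tm_succ, tm_smul_apply]
    funext r
    have e3 : y₀.1 2 r = jacAct (α r) σ (x.1 2 r) - x.1 2 r -
        ((2 : ℤ_[2]) • (c • sg α q v)).1 2 r := rfl
    rw [e3, e1, Pi.smul_apply, sg_apply]
    have h4 : (4 : ℕ) • x.1 2 r = 0 := congrFun (tm_tors x 2) r
    have h5 : (2 : ℕ) • x.1 2 r = x.1 1 r := congrFun (tm_succ x 1) r
    by_cases hr : r = q
    · subst hr
      rw [Pi.single_eq_same, hv]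
      have h6 := act_four (isClasses_ThJ (F := F) (α r)) (lf_fix σ (α r)) (isAct_J (α r) σ)
        hI hs h4
      rw [h5] at h6
      have h7 := BB_mod (isCurve_crv (lf F (α r))) (isClasses_ThJ (F := F) (α r)) h2 v (ev α r x)
      rw [hv] at h7
      change toZModPow 1 (Bq α h2 r v (ev α r x)) = 0 ↔
        e2 (ThJ F (α r)) (DS (ThJ F (α r)) I) (x.1 1 r) = 1 at h7
      rw [← hcq] at h7
      change (_ ∧ jacAct (α r) σ (x.1 2 r) = x.1 2 r) ∨
        (_ ∧ jacAct (α r) σ (x.1 2 r) = x.1 2 r + _) at h6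
      rcases h6 with ⟨h8, h9⟩ | ⟨h8, h9⟩
      · rw [h9, h7.2 h8, ZMod.val_zero, zero_smul, sub_self, sub_zero]
        rfl
      · have h10 : toZModPow 1 c ≠ 0 := by
          intro h
          rw [h7.1 h] at h8
          exact neg_one_ne h2 h8.symm
        rw [h9, toZ_one h10, one_smul, add_sub_cancel_left, sub_self]
        rfl
    · rw [Pi.single_eq_of_ne hr, smul_zero, sub_zero]
      have h6 := act_four (isClasses_ThJ (F := F) (α r)) (lf_fix σ (α r)) (isAct_J (α r) σ)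
        (I := ∅) (by simp) (hs' r hr) h4
      change (_ ∧ jacAct (α r) σ (x.1 2 r) = x.1 2 r) ∨
        (_ ∧ jacAct (α r) σ (x.1 2 r) = x.1 2 r + DS (ThJ F (α r)) ∅) at h6
      rcases h6 with ⟨_, h9⟩ | ⟨_, h9⟩
      · rw [h9, sub_self]
        rfl
      · rw [h9, DS, Finset.sum_empty, add_zero, sub_self]
        rfl
  obtain ⟨y, hy⟩ := tm_shift_pow (n := 2) h0
  refine ⟨y, ?_⟩
  have h4 : ((2 : ℕ) : ℤ_[2]) ^ 2 = 4 := by norm_num
  rw [h4] at hy
  rw [hy, hy₀]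
  abel

variable {κ : Q → Type*} (I : ∀ q, κ q → Finset (ι q)) (hI : ∀ q k, Even (I q k).card)
  (v : ∀ q (_ : κ q), TateMod 2 (Jac F (α q)))
  (hv : ∀ q k, (v q k).1 1 = DS (ThJ F (α q)) (I q k))

include h2 hI hv in
theorem adj_iff {q : Q} {k k' : κ q} (h : Odd (I q k ∩ I q k').card) :
    Adj (BT α h2) (fun x : Σ q, κ q => sg α x.1 (v x.1 x.2)) Sigma.fst ⟨q, k⟩ ⟨q, k'⟩ := by
  refine ⟨rfl, ?_⟩
  change IsUnit (BT α h2 (sg α q (v q k)) (sg α q (v q k')))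
  rw [BT_sg_left, ev_sg, isUnit_iff_toZModPow, Ne, BB_mod, hv, hv]
  have h3 := e2_DS (isClasses_ThJ (F := F) (α q)) (I q k) (I q k') (hI q k)
  intro h4
  rw [show Pool.Agent.N171.e (crv (lf F (α q))) (ThJ F (α q)) 2 (DS (ThJ F (α q)) (I q k))
    (DS (ThJ F (α q)) (I q k')) = _ from h3, h.neg_one_pow] at h4
  exact neg_one_ne h2 h4

include hv in
theorem span_aux {q : Q} {f : ι q → ZMod 2}
    (hf : f ∈ AddSubgroup.closure (Set.range fun k => ind (I q k))) :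
    ∃ w ∈ Wq (fun x : Σ q, κ q => sg α x.1 (v x.1 x.2)) Sigma.fst q,
      w.1 1 = Pi.single q (Phi (isClasses_ThJ (F := F) (α q)) f) := by
  induction hf using AddSubgroup.closure_induction with
  | mem f hf =>
    obtain ⟨k, rfl⟩ := hf
    refine ⟨sg α q (v q k), Submodule.subset_span (Or.inl ⟨⟨q, k⟩, rfl, rfl⟩), ?_⟩
    rw [sg_apply, hv, Phi_ind]
  | zero =>
    refine ⟨0, Submodule.zero_mem _, ?_⟩
    rw [map_zero, Pi.single_zero]
    rfl
  | add f g _ _ hf hg =>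
    obtain ⟨w, hw, h⟩ := hf
    obtain ⟨w', hw', h'⟩ := hg
    refine ⟨w + w', Submodule.add_mem _ hw hw', ?_⟩
    rw [map_add, Pi.single_add, ← h, ← h']
    rfl
  | neg f _ hf =>
    obtain ⟨w, hw, h⟩ := hf
    refine ⟨-w, Submodule.neg_mem _ hw, ?_⟩
    rw [map_neg, Pi.single_neg, ← h]
    rfl

include hv in
theorem span_mem (hspan : ∀ q (i j : ι q), i ≠ j →
      ind {i, j} ∈ AddSubgroup.closure (Set.range fun k => ind (I q k)))
    (q : Q) (x : TT F α) :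
    pj α q x ∈ Wq (fun x : Σ q, κ q => sg α x.1 (v x.1 x.2)) Sigma.fst q := by
  have h1 : (2 : ℕ) • x.1 1 q = 0 := by
    have h := tm_tors x 1
    rw [pow_one] at h
    exact congrFun h q
  obtain ⟨f, hf, hfx⟩ := exists_even (isClasses_ThJ (F := F) (α q)) h1
  obtain ⟨w, hw, hw1⟩ := span_aux α I v hv (mem_of_pairs _ (hspan q) hf)
  have h3 : (pj α q x - w).1 1 = 0 := by
    change Pi.single q (x.1 1 q) - w.1 1 = 0
    rw [hw1, hfx, sub_self]
  obtain ⟨y, hy⟩ := tt_shift α h3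
  have h4 : pj α q x = w + (2 : ℤ_[2]) • y := by
    rw [hy]
    abel
  rw [h4]
  exact Submodule.add_mem _ hw (Submodule.subset_span (Or.inr ⟨y, rfl⟩))

include hI in
/-- **The theorem on products of Jacobians of hyperelliptic curves.** -/
theorem main_prod [Normal K F] (h2 : (2 : F) ≠ 0) (l : ∀ q, κ q → (Kˣ →* ℤˣ))
    (hspan : ∀ q (i j : ι q), i ≠ j →
      ind {i, j} ∈ AddSubgroup.closure (Set.range fun k => ind (I q k)))
    (hconn : ∀ q (k k' : κ q),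
      Relation.ReflTransGen (fun k k' => Odd (I q k ∩ I q k').card) k k')
    (hl1 : ∀ q k, l q k (-1) = 1) (hl2 : ∀ q k (u : Kˣ), (u : K) = 2 → l q k u = 1)
    (hlq : ∀ q k (i j : ι q) (u : Kˣ), (u : K) = α q i - α q j →
      l q k u = if i ∈ I q k ∧ j ∈ I q k then -1 else 1)
    (hlr : ∀ q k r, r ≠ q → ∀ (i j : ι r) (u : Kˣ), (u : K) = α r i - α r j → l q k u = 1)
    {n m : ℕ} (f : (Fin n → ℚ_[2] ⊗[ℤ_[2]] TT F α) [⋀^Fin m × Fin 2]→ₗ[ℚ_[2]] ℚ_[2])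
    (hf : IsTateClass (ratRep (tateRep F α)) (ratChar (cyc K F)) m f) :
    f ∈ Submodule.span ℚ_[2] {g : (Fin n → ℚ_[2] ⊗[ℤ_[2]] TT F α)
        [⋀^Fin m × Fin 2]→ₗ[ℚ_[2]] ℚ_[2] |
      ∃ B' : Fin m → (Fin n → ℚ_[2] ⊗[ℤ_[2]] TT F α) [⋀^Fin 2]→ₗ[ℚ_[2]] ℚ_[2],
        (∀ l, IsLef (fun c => (BV (BT α h2)).comp (LinearMap.baseChange ℚ_[2] (pj α c))) (B' l)) ∧
          IsWedge B' g} := by
  classical
  choose v hv using fun q k => exists_lift (F := F) α q (two_DS (isClasses_ThJ (F := F) (α q)) (I q k))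
  choose σ hσ hσ8 using fun x : Σ q, κ q =>
    exists_sigma (F := F) α (l x.1 x.2) (hl1 x.1 x.2) (hl2 x.1 x.2) h2
  refine abs_main (tateRep F α) (cyc K F) (BT α h2) (BT_self α h2) (BT_nd α h2) (BT_act α h2)
    (pj α) (pj_sum α) (pj_pj α) (pj_pj_ne α) (BT_pj α h2) (pj_act α)
    (fun x : Σ q, κ q => sg α x.1 (v x.1 x.2)) Sigma.fst σ hσ8 ?_ ?_ (span_mem α I v hv hspan) f hf
  · intro x y
    refine act_mod α h2 (σ x) (hI x.1 x.2) (hv x.1 x.2) ?_ ?_ y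
    · exact hs_of α (hσ x x.1) (hlq x.1 x.2)
    · intro r hr
      refine hs_of α (hσ x r) ?_
      intro i j u hu
      rw [hlr x.1 x.2 r hr i j u hu]
      simp
  · rintro ⟨q, k⟩ ⟨q', k'⟩ (rfl : q = q')
    exact Relation.ReflTransGen.lift (fun k => (⟨q, k⟩ : Σ q, κ q))
      (fun a b hab => adj_iff α h2 I hI v hv hab) _ _ (hconn q k k')

end

end Pool.Agent.N171
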