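import Mathlib
import Pool.Agent.N171.Asm2

/-!
# Tate classes on the powers of products of Jacobians: the final form
-/

set_option linter.unusedSectionVars false

namespace Pool.Agent.N171

open Polynomial PadicInt TensorProduct Pool.Agent.H204R3.GP

noncomputable section

variable {K : Type*} [Field K] {F : Type*} [Field F] [Algebra K F] [IsAlgClosed F] {Q : Type*}
  [Fintype Q] [DecidableEq Q] {ι : Q → Type*} [∀ q, Fintype (ι q)] [∀ q, DecidableEq (ι q)]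
  (α : ∀ q, ι q → K) [∀ q, Hyp (α q)] (h2 : (2 : F) ≠ 0)

instance instFinOne (q : Q) : Module.Finite ℤ_[2] (TateMod 2 (Jac F (α q))) :=
  tm_finite (finite_two (isClasses_ThJ (F := F) (α q)))

instance instFreeOne (q : Q) : Module.Free ℤ_[2] (TateMod 2 (Jac F (α q))) := tm_free

theorem Bq_nd (q : Q) (v : TateMod 2 (Jac F (α q))) (hv : ∀ w, ¬ IsUnit (Bq α h2 q v w)) :
    ∃ u : TateMod 2 (Jac F (α q)), (2 : ℤ_[2]) • u = v := by
  have h0 : v.1 1 = 0 := by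
    apply eq_zero_of_e2 (isClasses_ThJ (F := F) (α q))
    · have h := tm_tors v 1
      rw [pow_one] at h
      exact h
    · intro j
      obtain ⟨w, hw⟩ := exists_lift α q (two_Dr (isClasses_ThJ (F := F) (α q)) j)
      have h1 := hv w
      rw [isUnit_iff_toZModPow, not_not, BB_mod, hw] at h1
      exact h1
  obtain ⟨b, hb⟩ := tm_shift' h0
  exact ⟨b, by rw [← hb]; norm_num⟩

theorem Bq_act (q : Q) (σ : F ≃ₐ[K] F) (a b : TateMod 2 (Jac F (α q))) :
    Bq α h2 q (tateRep1 F (α q) σ a) (tateRep1 F (α q) σ b) =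
      (cyc K F σ : ℤ_[2]) * Bq α h2 q a b := by
  have h1 : ∀ a, tateRep1 F (α q) σ a = tmMap (jacAct (α q) σ) a := fun a => rfl
  rw [h1, h1, BB_act (isCurve_crv (lf F (α q))) (isClasses_ThJ (F := F) (α q)) h2
    (isAct_J (α q) σ), cyc_apply]

theorem BV_comp (q : Q) : (BV (BT α h2)).comp (LinearMap.baseChange ℚ_[2] (pj α q)) =
    (BV (Bq α h2 q)).compl₁₂ (LinearMap.baseChange ℚ_[2] (ev α q))
      (LinearMap.baseChange ℚ_[2] (ev α q)) := by
  refine ext_tmul fun x => ext_tmul fun y => ?_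
  rw [LinearMap.comp_apply, LinearMap.compl₁₂_apply, LinearMap.baseChange_tmul,
    LinearMap.baseChange_tmul, LinearMap.baseChange_tmul, BV_tmul, BV_tmul, pj_apply, BT_sg_left]

variable {κ : Q → Type*} (I : ∀ q, κ q → Finset (ι q))

/-- **The theorem on products of Jacobians of hyperelliptic curves.** -/
theorem main_final [Normal K F] (h2 : (2 : F) ≠ 0) (hI : ∀ q k, Even (I q k).card)
    (l : ∀ q, κ q → (Kˣ →* ℤˣ))
    (hspan : ∀ q (i j : ι q), i ≠ j →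
      ind {i, j} ∈ AddSubgroup.closure (Set.range fun k => ind (I q k)))
    (hconn : ∀ q (k k' : κ q),
      Relation.ReflTransGen (fun k k' => Odd (I q k ∩ I q k').card) k k')
    (hl1 : ∀ q k, l q k (-1) = 1) (hl2 : ∀ q k (u : Kˣ), (u : K) = 2 → l q k u = 1)
    (hlq : ∀ q k (i j : ι q) (u : Kˣ), (u : K) = α q i - α q j →
      l q k u = if i ∈ I q k ∧ j ∈ I q k then -1 else 1)
    (hlr : ∀ q k r, r ≠ q → ∀ (i j : ι r) (u : Kˣ), (u : K) = α r i - α r j → l q k u = 1) :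
    ∃ ω : ∀ q, (ℚ_[2] ⊗[ℤ_[2]] TateMod 2 (Jac F (α q))) →ₗ[ℚ_[2]]
      (ℚ_[2] ⊗[ℤ_[2]] TateMod 2 (Jac F (α q))) →ₗ[ℚ_[2]] ℚ_[2],
      (∀ q v, ω q v v = 0) ∧ (∀ q v, (∀ w, ω q w v = 0) → v = 0) ∧
      (∀ q s v w, ω q (ratRep (tateRep1 F (α q)) s v) (ratRep (tateRep1 F (α q)) s w) =
        ratChar (cyc K F) s * ω q v w) ∧
      ∀ (n m : ℕ) (f : (Fin n → ℚ_[2] ⊗[ℤ_[2]] TateMod 2 (∀ q, Jac F (α q)))
          [⋀^Fin m × Fin 2]→ₗ[ℚ_[2]] ℚ_[2]),
        IsTateClass (ratRep (tateRep F α)) (ratChar (cyc K F)) m f →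
        f ∈ Submodule.span ℚ_[2] {g | ∃ B : Fin m →
          (Fin n → ℚ_[2] ⊗[ℤ_[2]] TateMod 2 (∀ q, Jac F (α q))) [⋀^Fin 2]→ₗ[ℚ_[2]] ℚ_[2],
          (∀ l, IsLef (fun q => (ω q).compl₁₂
            (LinearMap.baseChange ℚ_[2] (tmMap (Pi.evalAddMonoidHom (fun q => Jac F (α q)) q)))
            (LinearMap.baseChange ℚ_[2] (tmMap (Pi.evalAddMonoidHom (fun q => Jac F (α q)) q))))
            (B l)) ∧ IsWedge B g} := by
  refine ⟨fun q => BV (Bq α h2 q), fun q => BV_alt _ (BB_self _ _ _), fun q => BV_nd _ (Bq_nd α h2 q),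
    fun q => BV_inv (tateRep1 F (α q)) (cyc K F) _ (Bq_act α h2 q), fun n m f hf => ?_⟩
  have h := main_prod α I hI h2 l hspan hconn hl1 hl2 hlq hlr f hf
  refine Submodule.span_mono ?_ h
  rintro g ⟨B, hB, hg⟩
  refine ⟨B, fun l => ?_, hg⟩
  have h1 := hB l
  have h3 : (fun c => (BV (BT α h2)).comp (LinearMap.baseChange ℚ_[2] (pj α c))) =
      fun q => (BV (Bq α h2 q)).compl₁₂ (LinearMap.baseChange ℚ_[2] (ev α q))
      (LinearMap.baseChange ℚ_[2] (ev α q)) := funext fun q => BV_comp α h2 q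
  rw [h3] at h1
  exact h1

end

end Pool.Agent.N171
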