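import Mathlib
import Pool.Agent.N171.Asm

/-!
# Automorphisms in a subgroup with prescribed action on square roots
-/

namespace Pool.Agent.N171

open Polynomial PadicInt

variable {K F : Type*} [Field K] [Field F] [Algebra K F]

/-- **Kummer theory** for a subgroup: a homomorphism to the signs which is trivial at the elements whose
square roots are fixed by the subgroup is given by an element of the subgroup. -/
theorem kummerN (N : Subgroup (F ≃ₐ[K] F)) {ι : Type*} [Fintype ι] (d : ι → Kˣ) (s : ι → F)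
    (hs : ∀ i, s i ^ 2 = algebraMap K F (d i)) (l : Kˣ →* ℤˣ)
    (hl : ∀ (u : Kˣ) (r : F), r ^ 2 = algebraMap K F u → (∀ σ ∈ N, σ r = r) → l u = 1) :
    ∃ σ ∈ N, ∀ i, σ (s i) = (((l (d i) : ℤˣ) : ℤ) : F) * s i := by
  classical
  -- the group of signs
  let H : Submodule (ZMod 2) (ι → ZMod 2) :=
    { carrier := {h | ∃ σ ∈ N, ∀ i, σ (s i) = eps F (h i) * s i}
      zero_mem' := ⟨1, N.one_mem, fun i => by rw [Pi.zero_apply, eps_zero, one_mul]; rfl⟩
      add_mem' := by
        rintro h h' ⟨σ, hσN, hσ⟩ ⟨τ, hτN, hτ⟩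
        refine ⟨σ * τ, N.mul_mem hσN hτN, fun i => ?_⟩
        rw [AlgEquiv.mul_apply, hτ, map_mul, hσ, Pi.add_apply, eps_add]
        have h3 : σ (eps F (h' i)) = eps F (h' i) := map_eps (σ : F →+* F) _
        rw [h3]
        ring
      smul_mem' := by
        rintro c h ⟨σ, hσN, hσ⟩
        rcases (by decide : ∀ x : ZMod 2, x = 0 ∨ x = 1) c with rfl | rfl
        · refine ⟨1, N.one_mem, fun i => ?_⟩
          rw [zero_smul, Pi.zero_apply, eps_zero, one_mul]
          rfl
        · refine ⟨σ, hσN, fun i => ?_⟩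
          rw [one_smul, hσ] }
  let c : ι → ZMod 2 := fun i => if l (d i) = 1 then 0 else 1
  have hc : ∀ i, eps ℤ (c i) = ((l (d i) : ℤˣ) : ℤ) := by
    intro i
    rcases Int.units_eq_one_or (l (d i)) with h | h
    · simp [c, h, eps_zero]
    · have h1 : c i = 1 := by
        simp only [c]
        rw [if_neg]
        rw [h]
        decide
      rw [h1, h, eps_one]
      rfl
  suffices hcH : c ∈ H by
    obtain ⟨σ, hσN, hσ⟩ := hcH
    refine ⟨σ, hσN, fun i => ?_⟩
    rw [hσ, ← hc]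
    congr 1
    exact (map_eps (Int.castRingHom F) (c i)).symm
  by_contra hcH
  obtain ⟨f, hf, hfH⟩ := Submodule.exists_le_ker_of_notMem hcH
  let a : ι → ZMod 2 := fun i => f (fun j => if i = j then 1 else 0)
  have hfa : ∀ x, f x = ∑ i, x i * a i := fun x => LinearMap.pi_apply_eq_sum_univ f x
  -- products
  have hprod : ∀ (R : Type) [CommRing R] (x : ι → ZMod 2) (t : Finset ι),
      ∏ i ∈ t, (eps R (x i)) ^ (a i).val = eps R (∑ i ∈ t, x i * a i) := by
    intro R _ x t
    induction t using Finset.induction_on with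
    | empty => rw [Finset.prod_empty, Finset.sum_empty, eps_zero]
    | insert i t hi ih =>
      rw [Finset.prod_insert hi, Finset.sum_insert hi, eps_add, ih]
      congr 1
      rcases (by decide : ∀ x : ZMod 2, x = 0 ∨ x = 1) (a i) with h | h
      · rw [h, ZMod.val_zero, pow_zero, mul_zero, eps_zero]
      · rw [h, mul_one, show (1 : ZMod 2).val = 1 from rfl, pow_one]
  have hprodF : ∀ (x : ι → ZMod 2) (t : Finset ι),
      ∏ i ∈ t, (eps F (x i)) ^ (a i).val = eps F (∑ i ∈ t, x i * a i) := by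
    intro x t
    have h3 := congrArg (Int.castRingHom F) (hprod ℤ x t)
    rw [map_prod, map_eps] at h3
    simp only [map_pow, map_eps] at h3
    exact h3
  have h3 := hl (∏ i, d i ^ (a i).val : Kˣ) (∏ i, s i ^ (a i).val) (by
      rw [← Finset.prod_pow, Units.coe_prod, map_prod]
      refine Finset.prod_congr rfl fun i _ => ?_
      rw [← pow_mul, mul_comm, pow_mul, hs, Units.val_pow_eq_pow_val, map_pow]) (by
      intro σ hσN
      -- the signs of `σ`
      have hσ : ∀ i, ∃ x : ZMod 2, σ (s i) = eps F x * s i := by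
        intro i
        have h3 : σ (s i) ^ 2 = s i ^ 2 := by
          rw [← map_pow, hs, AlgEquiv.commutes]
        rcases sq_eq_sq_iff_eq_or_eq_neg.1 h3 with h | h
        · exact ⟨0, by rw [eps_zero, one_mul, h]⟩
        · exact ⟨1, by rw [eps_one, neg_one_mul, h]⟩
      choose x hx using hσ
      have h4 : f x = 0 := hfH (show x ∈ H from ⟨σ, hσN, hx⟩)
      rw [map_prod]
      have h5 : ∏ i, σ (s i ^ (a i).val) = (∏ i, (eps F (x i)) ^ (a i).val) *
          ∏ i, s i ^ (a i).val := by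
        rw [← Finset.prod_mul_distrib]
        refine Finset.prod_congr rfl fun i _ => ?_
        rw [map_pow, hx, mul_pow]
      rw [h5, hprodF, ← hfa, h4, eps_zero, one_mul])
  have h4 : ∏ i, l (d i) ^ (a i).val = 1 := by
    rw [map_prod] at h3
    simp only [map_pow] at h3
    exact h3
  have h5 : eps ℤ (f c) = 1 := by
    rw [hfa, ← hprod]
    have h6 := congrArg (fun u : ℤˣ => (u : ℤ)) h4
    simp only [Units.coe_prod, Units.val_pow_eq_pow_val, Units.val_one, ← hc] at h6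
    exact h6
  rcases (by decide : ∀ x : ZMod 2, x = 0 ∨ x = 1) (f c) with h | h
  · exact hf h
  · rw [h, eps_one] at h5
    norm_num at h5

/-- The cyclotomic character of an automorphism that fixes the eighth roots of unity. -/
theorem cyc_eight [IsAlgClosed F] (h2 : (2 : F) ≠ 0) {σ : F ≃ₐ[K] F}
    (hσ : ∀ x : F, x ^ 8 = 1 → σ x = x) :
    ∃ z, ((cyc K F σ : ℤ_[2]ˣ) : ℤ_[2]) = 1 + 8 * z := by
  have : ∀ i, HasEnoughRootsOfUnity F (2 ^ i) := by
    intro i
    have : NeZero ((2 ^ i : ℕ) : F) := ⟨by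
      push_cast
      exact pow_ne_zero _ h2⟩
    infer_instance
  obtain ⟨a, ha⟩ := IsAlgClosed.exists_pow_nat_eq (-1 : F) two_pos
  obtain ⟨x, hx⟩ := IsAlgClosed.exists_pow_nat_eq a two_pos
  have ha4 : a ^ 4 = 1 := by
    calc a ^ 4 = (a ^ 2) ^ 2 := by ring
      _ = 1 := by rw [ha]; ring
  have hx8 : x ^ 8 = 1 := by
    calc x ^ 8 = (x ^ 2) ^ 4 := by ring
      _ = 1 := by rw [hx, ha4]
  have ha8 : a ^ 8 = 1 := by
    calc a ^ 8 = (a ^ 4) ^ 2 := by ring
      _ = 1 := by rw [ha4]; ring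
  have hx0 : x ≠ 0 := by
    rintro rfl
    rw [zero_pow (by norm_num)] at hx8
    exact zero_ne_one hx8
  have h1 : x ^ 4 = -1 := by
    calc x ^ 4 = (x ^ 2) ^ 2 := by ring
      _ = -1 := by rw [hx, ha]
  rw [cyc_apply]
  refine chi_eight h2 (σ : F ≃+* F) ha (b := x - x ^ 3) ?_ (hσ a ha8) ?_
  · calc (x - x ^ 3) ^ 2 = x ^ 2 - 2 * x ^ 4 + x ^ 4 * x ^ 2 := by ring
      _ = 2 := by rw [h1]; ring
  · change σ (x - x ^ 3) = x - x ^ 3
    rw [map_sub, map_pow, hσ x hx8]

section prod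

variable [IsAlgClosed F] {Q : Type*}
  [Fintype Q] [DecidableEq Q] {ι : Q → Type*} [∀ q, Fintype (ι q)]
  (α : ∀ q, ι q → K)

theorem exists_sigmaN (N : Subgroup (F ≃ₐ[K] F)) (l : Kˣ →* ℤˣ)
    (hl : ∀ (u : Kˣ) (r : F), r ^ 2 = algebraMap K F u → (∀ σ ∈ N, σ r = r) → l u = 1) :
    ∃ σ ∈ N, ∀ r (i j : ι r) (u : Kˣ), (u : K) = α r i - α r j → ∀ w : F,
      w ^ 2 = lf F (α r) i - lf F (α r) j → σ w = ((l u : ℤ) : F) * w := by
  classical
  let d : (Σ r, ι r × ι r) → Kˣ := fun x =>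
    if h : α x.1 x.2.1 - α x.1 x.2.2 = 0 then 1 else Units.mk0 _ h
  choose s hs using fun x => IsAlgClosed.exists_pow_nat_eq (algebraMap K F (d x : K)) two_pos
  obtain ⟨σ, hσN, hσ⟩ := kummerN N d s hs l hl
  refine ⟨σ, hσN, ?_⟩
  intro r i j u hu w hw
  have hd : d ⟨r, i, j⟩ = u := by
    have h3 : α r i - α r j ≠ 0 := by
      rw [← hu]
      exact u.ne_zero
    change (if h : α r i - α r j = 0 then (1 : Kˣ) else Units.mk0 _ h) = u
    rw [dif_neg h3]
    exact Units.ext hu.symm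
  have h3 := hσ ⟨r, i, j⟩
  have h4 := hs ⟨r, i, j⟩
  rw [hd] at h3 h4
  have h5 : w ^ 2 = s ⟨r, i, j⟩ ^ 2 := by
    rw [h4, hw, hu, map_sub]
    rfl
  rcases sq_eq_sq_iff_eq_or_eq_neg.1 h5 with h | h
  · rw [h, h3]
  · rw [h, map_neg, h3, mul_neg]

end prod

end Pool.Agent.N171
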