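import Mathlib
import Pool.Agent.N171.Fin
import Pool.Agent.N171.KumN
import Pool.Agent.N171.AbsW

/-!
# Tate classes on the product of powers of a Jacobian and any variety
-/

set_option linter.unusedSectionVars false

namespace Pool.Agent.N171

open Polynomial PadicInt TensorProduct Pool.Agent.H204R3.GP

noncomputable section

section lat

variable {K F W κ : Type*} [Field K] [Field F] [Algebra K F] [AddCommGroup W] [Module ℚ_[2] W]

/-- The endomorphism `A` preserves the lattice spanned by the basis `b`, and it acts trivially on the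
lattice modulo `2 ^ n`. -/
def TrivMod {d : ℕ} (b : Module.Basis (Fin d) ℚ_[2] W) (A : Module.End ℚ_[2] W) (n : ℕ) : Prop :=
  ∀ i j, ∃ z : ℤ_[2], b.repr (A (b i)) j = (if i = j then 1 else 0) + 2 ^ n * (z : ℚ_[2])

/-- The representation on `W` has a stable lattice `L` over the 2-adic integers, such that all the
homomorphisms `l k : Kˣ → {1, -1}` are trivial on the elements which become squares in the field
`K (ζ_8, L / 4)`. -/
def Indep (τ : Representation ℚ_[2] (F ≃ₐ[K] F) W) (l : κ → (Kˣ →* ℤˣ)) : Prop :=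
  ∃ (d : ℕ) (b : Module.Basis (Fin d) ℚ_[2] W), (∀ s, TrivMod b (τ s) 0) ∧
    ∀ k (u : Kˣ) (r : F), r ^ 2 = algebraMap K F u →
      (∀ s : F ≃ₐ[K] F, (∀ x : F, x ^ 8 = 1 → s x = x) → TrivMod b (τ s) 2 → s r = r) →
      l k u = 1

theorem lat_data {τ : Representation ℚ_[2] (F ≃ₐ[K] F) W} {d : ℕ}
    {b : Module.Basis (Fin d) ℚ_[2] W} (h : ∀ s, TrivMod b (τ s) 0) :
    ∃ t : (F ≃ₐ[K] F) →* Matrix (Fin d) (Fin d) ℤ_[2],
      (∀ s i, τ s (b i) = ∑ j, algebraMap ℤ_[2] ℚ_[2] (t s j i) • b j) ∧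
      ∀ s, TrivMod b (τ s) 2 → ∃ Z, t s = 1 + (4 : ℤ_[2]) • Z := by
  have h' : ∀ s i j, ∃ z : ℤ_[2], b.repr (τ s (b i)) j = z := by
    intro s i j
    obtain ⟨z, hz⟩ := h s i j
    refine ⟨(if i = j then 1 else 0) + z, ?_⟩
    rw [hz, pow_zero, one_mul]
    split_ifs <;> simp
  choose z hz using h'
  have hinj : Function.Injective (algebraMap ℤ_[2] ℚ_[2]) :=
    FaithfulSMul.algebraMap_injective _ _
  let t : (F ≃ₐ[K] F) → Matrix (Fin d) (Fin d) ℤ_[2] := fun s => Matrix.of fun j i => z s i j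
  have ht : ∀ s, (algebraMap ℤ_[2] ℚ_[2]).mapMatrix (t s) = LinearMap.toMatrix b b (τ s) := by
    intro s
    ext j i
    rw [LinearMap.toMatrix_apply, hz]
    rfl
  have hinj' : Function.Injective ((algebraMap ℤ_[2] ℚ_[2]).mapMatrix :
      Matrix (Fin d) (Fin d) ℤ_[2] →+* Matrix (Fin d) (Fin d) ℚ_[2]) := Matrix.map_injective hinj
  refine ⟨⟨⟨t, ?_⟩, ?_⟩, fun s i => ?_, fun s hs => ?_⟩
  · apply hinj'
    rw [ht, map_one τ, map_one ((algebraMap ℤ_[2] ℚ_[2]).mapMatrix :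
      Matrix (Fin d) (Fin d) ℤ_[2] →+* Matrix (Fin d) (Fin d) ℚ_[2])]
    exact LinearMap.toMatrix_one b
  · intro s s'
    apply hinj'
    change (algebraMap ℤ_[2] ℚ_[2]).mapMatrix (t (s * s')) =
      (algebraMap ℤ_[2] ℚ_[2]).mapMatrix (t s * t s')
    rw [map_mul, ht, ht, ht, map_mul τ]
    exact LinearMap.toMatrix_mul b _ _
  · conv_lhs => rw [← b.sum_repr (τ s (b i))]
    refine Finset.sum_congr rfl fun j _ => ?_
    rw [hz]
    rfl
  · choose y hy using hs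
    refine ⟨Matrix.of fun j i => y i j, ?_⟩
    ext j i
    apply hinj
    change algebraMap ℤ_[2] ℚ_[2] (z s i j) =
      algebraMap ℤ_[2] ℚ_[2] ((1 : Matrix (Fin d) (Fin d) ℤ_[2]) j i + 4 * y i j)
    have h1 : algebraMap ℤ_[2] ℚ_[2] (z s i j) = b.repr (τ s (b i)) j := (hz s i j).symm
    have h4 : (2 : ℚ_[2]) ^ 2 = 4 := by norm_num
    rw [h1, hy, Matrix.one_apply, map_add, map_mul, map_ofNat, h4]
    congr 1
    by_cases h : i = j
    · rw [if_pos h, if_pos h.symm, map_one]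
    · rw [if_neg h, if_neg (Ne.symm h), map_zero]

/-- The automorphisms that fix the eighth roots of unity and act trivially modulo four. -/
def NW {d : ℕ} (t : (F ≃ₐ[K] F) →* Matrix (Fin d) (Fin d) ℤ_[2]) : Subgroup (F ≃ₐ[K] F) where
  carrier := {s | (∀ x : F, x ^ 8 = 1 → s x = x) ∧ ∃ Z, t s = 1 + (4 : ℤ_[2]) • Z}
  one_mem' := ⟨fun _ _ => rfl, 0, by rw [map_one, smul_zero, add_zero]⟩
  mul_mem' := by
    rintro s s' ⟨hs, Z, hZ⟩ ⟨hs', Z', hZ'⟩
    refine ⟨fun x hx => ?_, Z + Z' + (4 : ℤ_[2]) • (Z * Z'), ?_⟩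
    · rw [AlgEquiv.mul_apply, hs' x hx, hs x hx]
    · rw [map_mul, hZ, hZ']
      simp only [mul_add, add_mul, one_mul, mul_one, smul_mul_assoc, mul_smul_comm]
      module
  inv_mem' := by
    rintro s ⟨hs, Z, hZ⟩
    refine ⟨fun x hx => ?_, -(Z * t s⁻¹), ?_⟩
    · have h1 := hs x hx
      conv_lhs => rw [← h1]
      exact s.symm_apply_apply x
    · have h1 : t s * t s⁻¹ = 1 := by rw [← map_mul, mul_inv_cancel, map_one]
      rw [hZ, add_mul, one_mul, smul_mul_assoc] at h1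
      rw [← h1]
      module

end lat

section prod

variable {K : Type*} [Field K] {F : Type*} [Field F] [Algebra K F] [IsAlgClosed F] {Q : Type*}
  [Fintype Q] [DecidableEq Q] {ι : Q → Type*} [∀ q, Fintype (ι q)] [∀ q, DecidableEq (ι q)]
  (α : ∀ q, ι q → K) [∀ q, Hyp (α q)]
  {κ : Q → Type*} (I : ∀ q, κ q → Finset (ι q)) (hI : ∀ q k, Even (I q k).card)
  {W : Type*} [AddCommGroup W] [Module ℚ_[2] W] (τ : Representation ℚ_[2] (F ≃ₐ[K] F) W)

include hI in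
/-- The theorem on products of Jacobians of hyperelliptic curves and any representation. -/
theorem mainW (h2 : (2 : F) ≠ 0) (l : ∀ q, κ q → (Kˣ →* ℤˣ))
    (hτ : Indep τ (fun x : Σ q, κ q => l x.1 x.2))
    (hspan : ∀ q (i j : ι q), i ≠ j →
      ind {i, j} ∈ AddSubgroup.closure (Set.range fun k => ind (I q k)))
    (hconn : ∀ q (k k' : κ q),
      Relation.ReflTransGen (fun k k' => Odd (I q k ∩ I q k').card) k k')
    (hlq : ∀ q k (i j : ι q) (u : Kˣ), (u : K) = α q i - α q j →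
      l q k u = if i ∈ I q k ∧ j ∈ I q k then -1 else 1)
    (hlr : ∀ q k r, r ≠ q → ∀ (i j : ι r) (u : Kˣ), (u : K) = α r i - α r j → l q k u = 1) :
    (∀ (n m : ℕ) (f : (Fin n → ℚ_[2] ⊗[ℤ_[2]] TT F α) [⋀^Fin m × Fin 2]→ₗ[ℚ_[2]] W),
      IsTateV (ratRep (tateRep F α)) τ f → f ∈ Submodule.span ℚ_[2]
        {h | IsProdW (ratChar (cyc K F)) τ (fun q => (BV (Bq α h2 q)).compl₁₂
          (LinearMap.baseChange ℚ_[2] (ev α q)) (LinearMap.baseChange ℚ_[2] (ev α q))) h}) ∧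
    (∀ (n a : ℕ) (f : (Fin n → ℚ_[2] ⊗[ℤ_[2]] TT F α) [⋀^Fin a]→ₗ[ℚ_[2]] W), Odd a →
      IsTateV (ratRep (tateRep F α)) τ f → f = 0) := by
  classical
  obtain ⟨d, bW, hb, hlW⟩ := hτ
  obtain ⟨t, ht, ht4⟩ := lat_data hb
  choose v hv using fun q k => exists_lift (F := F) α q (two_DS (isClasses_ThJ (F := F) (α q)) (I q k))
  choose σ hσN hσ using fun x : Σ q, κ q =>
    exists_sigmaN (F := F) α (NW t) (l x.1 x.2) (fun u r hr hN => hlW x u r hr
      fun s hs8 hs4 => hN s ⟨hs8, ht4 s hs4⟩)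
  have hσ8 : ∀ x, ∃ z, ((cyc K F (σ x) : ℤ_[2]ˣ) : ℤ_[2]) = 1 + 8 * z :=
    fun x => cyc_eight h2 (hσN x).1
  have h3 : (fun c => (BV (BT α h2)).comp (LinearMap.baseChange ℚ_[2] (pj α c))) =
      fun q => (BV (Bq α h2 q)).compl₁₂ (LinearMap.baseChange ℚ_[2] (ev α q))
      (LinearMap.baseChange ℚ_[2] (ev α q)) := funext fun q => BV_comp α h2 q
  have hact : ∀ (x : Σ q, κ q) (y : TT F α), ∃ z, tateRep F α (σ x) y = y +
      (2 : ℤ_[2]) • (BT α h2 (sg α x.1 (v x.1 x.2)) y • sg α x.1 (v x.1 x.2)) +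
      (4 : ℤ_[2]) • z := by
    intro x y
    refine act_mod α h2 (σ x) (hI x.1 x.2) (hv x.1 x.2) ?_ ?_ y
    · exact hs_of α (hσ x x.1) (hlq x.1 x.2)
    · intro r hr
      refine hs_of α (hσ x r) ?_
      intro i j u hu
      rw [hlr x.1 x.2 r hr i j u hu]
      simp
  have hconn' : ∀ k l : Σ q, κ q, k.1 = l.1 → Relation.ReflTransGen
      (Adj (BT α h2) (fun x : Σ q, κ q => sg α x.1 (v x.1 x.2)) Sigma.fst) k l := by
    rintro ⟨q, k⟩ ⟨q', k'⟩ (rfl : q = q')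
    exact Relation.ReflTransGen.lift (fun k => (⟨q, k⟩ : Σ q, κ q))
      (fun a b hab => adj_iff α h2 I hI v hv hab) _ _ (hconn q k k')
  rw [← h3]
  exact ⟨fun n m f hf => absW_even (BT α h2) (tateRep F α) (cyc K F) τ bW t ht (BT_self α h2)
    (BT_nd α h2) (pj α) (pj_sum α) (pj_pj α) (pj_pj_ne α) (BT_pj α h2)
    (fun x : Σ q, κ q => sg α x.1 (v x.1 x.2)) Sigma.fst σ hσ8 hact hconn'
    (span_mem α I v hv hspan) (BT_act α h2) (pj_act α) (fun k => (hσN k).2) f hf,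
    fun n a f ha hf => absW_odd (BT α h2) (tateRep F α) (cyc K F) τ bW t ht (BT_self α h2)
    (BT_nd α h2) (pj α) (pj_sum α) (pj_pj α) (pj_pj_ne α) (BT_pj α h2)
    (fun x : Σ q, κ q => sg α x.1 (v x.1 x.2)) Sigma.fst σ hσ8 hact hconn'
    (span_mem α I v hv hspan) (BT_act α h2) (pj_act α) (fun k => (hσN k).2) ha f hf⟩

end prod

end

end Pool.Agent.N171
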