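import Mathlib
import Pool.Agent.N171.Al6

/-!
# Forms on a sum of lattices: one summand at a time
-/

set_option linter.unusedSectionVars false

namespace Pool.Agent.N171.Bg

open PadicInt Module Pool.Agent.N171 Pool.Agent.N171.Al

noncomputable section

/-! ### tensor products of matrices -/

section piM

variable {S : Type*} [Fintype S] [DecidableEq S] {m : S → Type*} [∀ s, Fintype (m s)]
  [∀ s, DecidableEq (m s)] {R : Type*} [CommRing R]

/-- The tensor product of a family of matrices. -/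
def piM (A : ∀ s, Matrix (m s) (m s) R) : Matrix (∀ s, m s) (∀ s, m s) R :=
  Matrix.of fun a a' => ∏ s, A s (a s) (a' s)

theorem piM_apply (A : ∀ s, Matrix (m s) (m s) R) (a a' : ∀ s, m s) :
    piM A a a' = ∏ s, A s (a s) (a' s) := rfl

theorem piM_mul (A A' : ∀ s, Matrix (m s) (m s) R) :
    piM (fun s => A s * A' s) = piM A * piM A' := by
  ext a a'
  rw [Matrix.mul_apply, piM_apply]
  simp only [piM_apply, Matrix.mul_apply, ← Finset.prod_mul_distrib]
  rw [Finset.prod_univ_sum, Fintype.piFinset_univ]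

theorem piM_one : piM (fun s => (1 : Matrix (m s) (m s) R)) = 1 := by
  ext a a'
  rw [piM_apply]
  by_cases h : a = a'
  · subst h
    rw [Matrix.one_apply_eq]
    exact Finset.prod_eq_one fun s _ => Matrix.one_apply_eq _
  · rw [Matrix.one_apply_ne h]
    obtain ⟨s, hs⟩ := Function.ne_iff.1 h
    exact Finset.prod_eq_zero (Finset.mem_univ s) (Matrix.one_apply_ne hs)

theorem piM_cong {c : R} {A : ∀ s, Matrix (m s) (m s) R}
    (h : ∀ s, ∃ Z, A s = 1 + c • Z) : ∃ Z, piM A = 1 + c • Z := by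
  choose Z hZ using h
  have h1 : ∀ a a' : ∀ s, m s, ∃ z, piM A a a' = (1 : Matrix (∀ s, m s) (∀ s, m s) R) a a' + c * z := by
    intro a a'
    have h2 : c ∣ piM A a a' - piM (fun s => (1 : Matrix (m s) (m s) R)) a a' := by
      rw [piM_apply, piM_apply, ← Ideal.mem_span_singleton, ← Ideal.Quotient.eq, map_prod, map_prod]
      refine Finset.prod_congr rfl fun s _ => ?_
      rw [Ideal.Quotient.eq, Ideal.mem_span_singleton]
      refine ⟨Z s (a s) (a' s), ?_⟩
      rw [hZ, Matrix.add_apply, Matrix.smul_apply, smul_eq_mul, add_sub_cancel_left]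
    obtain ⟨z, hz⟩ := h2
    rw [piM_one] at hz
    exact ⟨z, by rw [← hz]; ring⟩
  choose z hz using h1
  refine ⟨Matrix.of z, ?_⟩
  ext a a'
  rw [hz]
  rfl

theorem kron_cong {n n' : Type*} [Fintype n] [DecidableEq n] [Fintype n'] [DecidableEq n'] {c : R}
    {A : Matrix n n R} {A' : Matrix n' n' R} (h : ∃ Z, A = 1 + c • Z) (h' : ∃ Z, A' = 1 + c • Z) :
    ∃ Z, Matrix.kroneckerMap (· * ·) A A' = 1 + c • Z := by
  obtain ⟨Z, rfl⟩ := h
  obtain ⟨Z', rfl⟩ := h'
  refine ⟨Matrix.of fun a b => (1 : Matrix n n R) a.1 b.1 * Z' a.2 b.2 +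
    Z a.1 b.1 * (1 : Matrix n' n' R) a.2 b.2 + c * (Z a.1 b.1 * Z' a.2 b.2), ?_⟩
  ext ⟨a, a'⟩ ⟨b, b'⟩
  have h1 : (1 : Matrix (n × n') (n × n') R) (a, a') (b, b') =
      (1 : Matrix n n R) a b * (1 : Matrix n' n' R) a' b' := by
    rw [← Matrix.one_kronecker_one]
    rfl
  have h2 : (1 + c • (Matrix.of fun a b : n × n' => (1 : Matrix n n R) a.1 b.1 * Z' a.2 b.2 +
      Z a.1 b.1 * (1 : Matrix n' n' R) a.2 b.2 + c * (Z a.1 b.1 * Z' a.2 b.2))) (a, a') (b, b') =
      (1 : Matrix (n × n') (n × n') R) (a, a') (b, b') + c * ((1 : Matrix n n R) a b * Z' a' b' +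
        Z a b * (1 : Matrix n' n' R) a' b' + c * (Z a b * Z' a' b')) := rfl
  rw [h2, h1]
  change ((1 : Matrix n n R) a b + c * Z a b) * ((1 : Matrix n' n' R) a' b' + c * Z' a' b') = _
  ring

end piM

/-! ### sums of lattices -/

section tot

variable {ι : Type*} [Fintype ι] [DecidableEq ι] {T : ι → Type*} [∀ i, AddCommGroup (T i)]
  [∀ i, Module ℤ_[2] (T i)] {Γ : Type*} [Group Γ]

/-- The sum of representations. -/
def piRep (ρ : ∀ i, Representation ℤ_[2] Γ (T i)) : Representation ℤ_[2] Γ (∀ i, T i) where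
  toFun s := LinearMap.pi fun i => ρ i s ∘ₗ LinearMap.proj i
  map_one' := by
    refine LinearMap.ext fun x => funext fun i => ?_
    change ρ i 1 (x i) = x i
    rw [map_one]
    rfl
  map_mul' s s' := by
    refine LinearMap.ext fun x => funext fun i => ?_
    change ρ i (s * s') (x i) = ρ i s (ρ i s' (x i))
    rw [map_mul]
    rfl

theorem piRep_apply (ρ : ∀ i, Representation ℤ_[2] Γ (T i)) (s : Γ) (x : ∀ i, T i) (i : ι) :
    piRep ρ s x i = ρ i s (x i) := rfl

theorem piRep_single (ρ : ∀ i, Representation ℤ_[2] Γ (T i)) (s : Γ) (i : ι) (x : T i) :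
    piRep ρ s (Pi.single i x) = Pi.single i (ρ i s x) := by
  funext j
  rw [piRep_apply]
  by_cases h : j = i
  · subst h
    rw [Pi.single_eq_same, Pi.single_eq_same]
  · rw [Pi.single_eq_of_ne h, Pi.single_eq_of_ne h, map_zero]

variable [∀ i, Module.Finite ℤ_[2] (T i)] [∀ i, Module.Free ℤ_[2] (T i)]
  (ρ : ∀ i, Representation ℤ_[2] Γ (T i)) {d : ℕ} (t : Γ →* Matrix (Fin d) (Fin d) ℤ_[2])

/-- The matrices of the contragredient representation. -/
def cg {T : Type*} [AddCommGroup T] [Module ℤ_[2] T] {m : Type*} [Fintype m] [DecidableEq m]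
    (b : Basis m ℤ_[2] T) (ρ : Representation ℤ_[2] Γ T) (s : Γ) : Matrix m m ℤ_[2] :=
  (LinearMap.toMatrix b b (ρ s⁻¹)).transpose

theorem cg_one {T : Type*} [AddCommGroup T] [Module ℤ_[2] T] {m : Type*} [Fintype m]
    [DecidableEq m] (b : Basis m ℤ_[2] T) (ρ : Representation ℤ_[2] Γ T) : cg b ρ 1 = 1 := by
  rw [cg, inv_one, map_one]
  change (LinearMap.toMatrix b b LinearMap.id).transpose = 1
  rw [LinearMap.toMatrix_id, Matrix.transpose_one]

theorem cg_mul {T : Type*} [AddCommGroup T] [Module ℤ_[2] T] {m : Type*} [Fintype m]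
    [DecidableEq m] (b : Basis m ℤ_[2] T) (ρ : Representation ℤ_[2] Γ T) (s s' : Γ) :
    cg b ρ (s * s') = cg b ρ s * cg b ρ s' := by
  rw [cg, cg, cg, mul_inv_rev, map_mul, ← Matrix.transpose_mul]
  congr 1
  exact LinearMap.toMatrix_mul b _ _

theorem cg_spec {T : Type*} [AddCommGroup T] [Module ℤ_[2] T] {m : Type*} [Fintype m]
    [DecidableEq m] (b : Basis m ℤ_[2] T) (ρ : Representation ℤ_[2] Γ T) (s : Γ) (a : m) :
    ρ s⁻¹ (b a) = ∑ a', cg b ρ s a a' • b a' := by
  conv_lhs => rw [← b.sum_repr (ρ s⁻¹ (b a))]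
  refine Finset.sum_congr rfl fun a' _ => ?_
  rw [cg, Matrix.transpose_apply, LinearMap.toMatrix_apply]

theorem cg_cong {T : Type*} [AddCommGroup T] [Module ℤ_[2] T] {m : Type*} [Fintype m]
    [DecidableEq m] (b : Basis m ℤ_[2] T) (ρ : Representation ℤ_[2] Γ T) {s : Γ} {c : ℤ_[2]}
    (h : ∃ N, ρ s = 1 + c • N) : ∃ Z, cg b ρ s = 1 + c • Z := by
  obtain ⟨N, hN⟩ := h
  refine ⟨(LinearMap.toMatrix b b (-(ρ s⁻¹ * N))).transpose, ?_⟩
  have h1 : ρ s⁻¹ = 1 + c • (-(ρ s⁻¹ * N)) := by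
    have h2 : ρ s⁻¹ * ρ s = 1 := by rw [← map_mul, inv_mul_cancel, map_one]
    rw [hN, mul_add, mul_one, mul_smul_comm] at h2
    rw [smul_neg, ← h2]
    abel
  conv_lhs => rw [cg, h1]
  rw [map_add, map_smul, Matrix.transpose_add, Matrix.transpose_smul]
  congr 1
  change (LinearMap.toMatrix b b LinearMap.id).transpose = 1
  rw [LinearMap.toMatrix_id, Matrix.transpose_one]

/-- The representation on the values when the variables outside of the component are fixed. -/
def tens {S : Type*} [Fintype S] [DecidableEq S] {c : S → ι} {n : ι → ℕ}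
    (b : ∀ i, Basis (Fin (n i)) ℤ_[2] (T i)) :
    Γ →* Matrix ((∀ s : S, Fin (n (c s))) × Fin d) ((∀ s : S, Fin (n (c s))) × Fin d) ℤ_[2] where
  toFun g := Matrix.kroneckerMap (· * ·) (piM fun s : S => cg (b (c s)) (ρ (c s)) g) (t g)
  map_one' := by
    simp only [cg_one]
    rw [piM_one, map_one]
    exact Matrix.one_kronecker_one
  map_mul' g h := by
    simp only [cg_mul]
    rw [piM_mul, map_mul]
    exact Matrix.mul_kronecker_mul _ _ _ _

/-- The representation with matrices indexed by an initial segment. -/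
def renum {Q : Type*} [Fintype Q] [DecidableEq Q] (t : Γ →* Matrix Q Q ℤ_[2]) :
    Γ →* Matrix (Fin (Fintype.card Q)) (Fin (Fintype.card Q)) ℤ_[2] where
  toFun g := Matrix.reindexRingEquiv ℤ_[2] (Fintype.equivFin Q) (t g)
  map_one' := by rw [map_one, map_one]
  map_mul' g h := by rw [map_mul, map_mul]

theorem renum_cong {Q : Type*} [Fintype Q] [DecidableEq Q] {t : Γ →* Matrix Q Q ℤ_[2]} {s : Γ}
    {c : ℤ_[2]} (h : ∃ Z, t s = 1 + c • Z) : ∃ Z, renum t s = 1 + c • Z := by
  obtain ⟨Z, hZ⟩ := h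
  refine ⟨Matrix.reindexRingEquiv ℤ_[2] (Fintype.equivFin Q) Z, ?_⟩
  change Matrix.reindexRingEquiv ℤ_[2] (Fintype.equivFin Q) (t s) = _
  rw [hZ, map_add, map_one]
  congr 1

/-- The derivation of a multilinear map. -/
def dv {κ : Type*} [Fintype κ] [DecidableEq κ]
    (f : MultilinearMap ℤ_[2] (fun _ : κ => ∀ i, T i) ℚ_[2]) (i : ι)
    (X : Module.End ℤ_[2] (T i)) : MultilinearMap ℤ_[2] (fun _ : κ => ∀ i, T i) ℚ_[2] :=
  ∑ s, f.compLinearMap (Function.update (fun _ => LinearMap.id) s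
    ((LinearMap.single ℤ_[2] T i) ∘ₗ X ∘ₗ LinearMap.proj i))

theorem dv_apply {κ : Type*} [Fintype κ] [DecidableEq κ]
    (f : MultilinearMap ℤ_[2] (fun _ : κ => ∀ i, T i) ℚ_[2]) (i : ι)
    (X : Module.End ℤ_[2] (T i)) (x : κ → ∀ i, T i) :
    dv f i X x = ∑ s, f (Function.update x s (Pi.single i (X (x s i)))) := by
  rw [dv, _root_.sum_apply]
  refine Finset.sum_congr rfl fun s _ => ?_
  rw [MultilinearMap.compLinearMap_apply]
  congr 1
  funext s'
  by_cases hs : s' = s
  · subst hs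
    rw [Function.update_self, Function.update_self]
    rfl
  · rw [Function.update_of_ne hs, Function.update_of_ne hs]
    rfl

/-- The form on one summand when the other variables are fixed. -/
def slice {κ : Type*} [Fintype κ] [DecidableEq κ]
    (f : MultilinearMap ℤ_[2] (fun _ : κ => ∀ i, T i) ℚ_[2]) (c : κ → ι) (i : ι)
    (z : ∀ s : {s // ¬ c s = i}, T (c s)) :
    MultilinearMap ℤ_[2] (fun _ : {s // c s = i} => T i) ℚ_[2] :=
  (f.domDomRestrict (fun s => c s = i) fun s => Pi.single (c s) (z s)).compLinearMap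
    fun _ => LinearMap.single ℤ_[2] T i

theorem slice_apply {κ : Type*} [Fintype κ] [DecidableEq κ]
    (f : MultilinearMap ℤ_[2] (fun _ : κ => ∀ i, T i) ℚ_[2]) (c : κ → ι) (i : ι)
    (z : ∀ s : {s // ¬ c s = i}, T (c s)) (y : {s // c s = i} → T i) :
    slice f c i z y = f fun s => if h : c s = i then Pi.single i (y ⟨s, h⟩) else
      Pi.single (c s) (z ⟨s, h⟩) := by
  rw [slice, MultilinearMap.compLinearMap_apply, MultilinearMap.domDomRestrict_apply]
  rfl

end tot

end

end Pool.Agent.N171.Bg
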