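import Mathlib
import Pool.Agent.N171.Bg1

/-!
# Forms on a sum of lattices: one summand at a time, second part
-/

set_option linter.unusedSectionVars false

namespace Pool.Agent.N171.Bg

open PadicInt Module Pool.Agent.N171 Pool.Agent.N171.Al

noncomputable section

variable {ι : Type*} [Fintype ι] [DecidableEq ι] {T : ι → Type*} [∀ i, AddCommGroup (T i)]
  [∀ i, Module ℤ_[2] (T i)] {Γ : Type*} [Group Γ] [∀ i, Module.Finite ℤ_[2] (T i)]
  [∀ i, Module.Free ℤ_[2] (T i)]
  (ρ : ∀ i, Representation ℤ_[2] Γ (T i)) {d : ℕ} (t : Γ →* Matrix (Fin d) (Fin d) ℤ_[2])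
  {κ : Type*} [Fintype κ] [DecidableEq κ]

/-- Expansion of the fixed variables. -/
theorem slice_sum (f : MultilinearMap ℤ_[2] (fun _ : κ => ∀ i, T i) ℚ_[2]) (c : κ → ι) (i : ι)
    {n : ι → ℕ} (b : ∀ i, Basis (Fin (n i)) ℤ_[2] (T i))
    (A : ∀ s : {s // ¬ c s = i}, Fin (n (c s)) → ℤ_[2]) (y : {s // c s = i} → T i) :
    slice f c i (fun s => ∑ a', A s a' • b (c s) a') y =
      ∑ a' : ∀ s : {s // ¬ c s = i}, Fin (n (c s)), (∏ s, A s (a' s)) •
        slice f c i (fun s => b (c s) (a' s)) y := by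
  have h1 : ∀ z : ∀ s : {s // ¬ c s = i}, T (c s), slice f c i z y =
      (f.domDomRestrictₗ (fun s => c s = i) fun s => Pi.single (c s) (z s))
        (fun s => Pi.single i (y s)) := fun _ => rfl
  simp only [h1]
  have h2 : (fun s : {s // ¬ c s = i} => (Pi.single (c s) (∑ a', A s a' • b (c s) a') : ∀ i, T i)) =
      fun s => ∑ a', A s a' • (Pi.single (c s) (b (c s) a') : ∀ i, T i) := by
    funext s
    have h3 : ∀ x : T (c s), (Pi.single (c s) x : ∀ i, T i) = LinearMap.single ℤ_[2] T (c s) x :=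
      fun _ => rfl
    rw [h3, map_sum]
    refine Finset.sum_congr rfl fun a' _ => ?_
    rw [map_smul, h3]
  rw [h2, MultilinearMap.map_sum, _root_.sum_apply]
  refine Finset.sum_congr rfl fun a' _ => ?_
  rw [MultilinearMap.map_smul_univ]
  rfl

/-- The slices of an equivariant form. -/
theorem isTW_slice {φ : Fin d → MultilinearMap ℤ_[2] (fun _ : κ => ∀ i, T i) ℚ_[2]}
    (hφ : IsTW (piRep ρ) κ t φ) {n : ι → ℕ} (b : ∀ i, Basis (Fin (n i)) ℤ_[2] (T i))
    (c : κ → ι) (i : ι) :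
    IsTW (ρ i) {s // c s = i} (renum (tens (S := {s // ¬ c s = i}) (c := fun s => c s) ρ t b))
      (fun q => slice (φ ((Fintype.equivFin _).symm q).2) c i
        (fun s => b (c s) (((Fintype.equivFin _).symm q).1 s))) := by
  obtain ⟨Δ, hΔ, h⟩ := hφ
  refine ⟨Δ, hΔ, fun g hg q y => ?_⟩
  obtain ⟨⟨a, j⟩, rfl⟩ := (Fintype.equivFin _).surjective q
  simp only [Equiv.symm_apply_apply]
  have h1 : slice (φ j) c i (fun s => b (c s) (a s)) (fun k => ρ i g (y k)) =
      ∑ k, t g j k • slice (φ k) c i (fun s => ρ (c s) g⁻¹ (b (c s) (a s))) y := by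
    simp only [slice_apply]
    rw [← h g hg j]
    congr 1
    funext s
    by_cases hs : c s = i
    · rw [dif_pos hs, dif_pos hs, piRep_single]
    · rw [dif_neg hs, dif_neg hs, piRep_single]
      congr 1
      rw [← Module.End.mul_apply, ← map_mul, mul_inv_cancel, map_one]
      rfl
  rw [h1]
  have h2 : ∀ s : {s // ¬ c s = i}, ρ (c s) g⁻¹ (b (c s) (a s)) =
      ∑ a', cg (b (c s)) (ρ (c s)) g (a s) a' • b (c s) a' := fun s => cg_spec _ _ _ _
  simp only [h2, slice_sum]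
  have h3 : ∀ q' : Fin (Fintype.card ((∀ s : {s // ¬ c s = i}, Fin (n (c s))) × Fin d)),
      renum (tens (S := {s // ¬ c s = i}) (c := fun s => c s) ρ t b) g
        (Fintype.equivFin _ (a, j)) q' =
      (∏ s : {s // ¬ c s = i}, cg (b (c s)) (ρ (c s)) g (a s)
        (((Fintype.equivFin _).symm q').1 s)) * t g j ((Fintype.equivFin _).symm q').2 := by
    intro q'
    obtain ⟨⟨a', j'⟩, rfl⟩ := (Fintype.equivFin _).surjective q'
    rw [Equiv.symm_apply_apply]
    change Matrix.reindex (Fintype.equivFin _) (Fintype.equivFin _) _ _ _ = _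
    rw [Matrix.reindex_apply, Matrix.submatrix_apply, Equiv.symm_apply_apply,
      Equiv.symm_apply_apply]
    rfl
  simp only [h3]
  rw [(Fintype.equivFin ((∀ s : {s // ¬ c s = i}, Fin (n (c s))) × Fin d)).symm.sum_comp
    (fun q' => ((∏ s : {s // ¬ c s = i}, cg (b (c s)) (ρ (c s)) g (a s) (q'.1 s)) * t g j q'.2) •
      slice (φ q'.2) c i (fun s => b (c s) (q'.1 s)) y), Fintype.sum_prod_type, Finset.sum_comm]
  refine Finset.sum_congr rfl fun k _ => ?_
  rw [Finset.smul_sum]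
  refine Finset.sum_congr rfl fun a' _ => ?_
  rw [smul_smul, mul_comm]

variable {B : ∀ i, T i →ₗ[ℤ_[2]] T i →ₗ[ℤ_[2]] ℤ_[2]} {τ : ι → Type*} [∀ i, Fintype (τ i)]
  [∀ i, DecidableEq (τ i)] {D : ∀ i, τ i → T i} {χ : Γ →* ℤ_[2]ˣ}

/-- **Forms on a sum of lattices are killed by the symplectic Lie algebra of a summand.** -/
theorem kill_multi {i : ι} (hF : Big (B i) (D i) (ρ i) χ) {σ : Γ} {m : ℕ}
    (hσ : ∃ N, ρ i σ = 1 + (2 : ℤ_[2]) • N)
    (hσj : ∀ j, j ≠ i → ∃ N, ρ j σ = 1 + (2 : ℤ_[2]) ^ m • N)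
    (hσt : ∃ M, t σ = 1 + (2 : ℤ_[2]) ^ m • M)
    (hσm : ¬ ∃ (a : ℤ_[2]) (Z : Module.End ℤ_[2] (T i)), ρ i σ = a • 1 + (2 : ℤ_[2]) ^ m • Z)
    {X : Module.End ℤ_[2] (T i)} (hX : X ∈ spQ (B i) (p1 (T i)))
    {φ : Fin d → MultilinearMap ℤ_[2] (fun _ : κ => ∀ i, T i) ℚ_[2]}
    (hφ : IsTW (piRep ρ) κ t φ) (j : Fin d) (x : κ → ∀ i, T i) :
    ∑ s, φ j (Function.update x s (Pi.single i (X (x s i)))) = 0 := by
  rw [← dv_apply]
  suffices h : dv (φ j) i X = 0 by
    rw [h]
    rfl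
  let n : ι → ℕ := fun k => Fintype.card (Module.Free.ChooseBasisIndex ℤ_[2] (T k))
  let b : ∀ k, Basis (Fin (n k)) ℤ_[2] (T k) := fun k =>
    (Module.Free.chooseBasis ℤ_[2] (T k)).reindex (Fintype.equivFin _)
  refine Module.Basis.ext_multilinear (fun _ => Pi.basis b) fun v => ?_
  rw [dv_apply]
  change _ = (0 : ℚ_[2])
  let c : κ → ι := fun s => (v s).1
  have hb : ∀ s, Pi.basis b (v s) = Pi.single (c s) (b (c s) (v s).2) := fun s =>
    Pi.basis_apply b (v s)
  simp only [hb]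
  have htw := isTW_slice ρ t hφ b c i
  have h1 := kill_all' (ρ := ρ i) (κ := {s // c s = i})
    (renum (tens (S := {s // ¬ c s = i}) (c := fun s => c s) ρ t b)) hF hσ
    (renum_cong (kron_cong (piM_cong fun s => cg_cong _ _ (hσj _ s.2)) hσt)) hσm hX htw
    (Fintype.equivFin _ (fun s => (v s).2, j)) (fun s => s.2 ▸ b (c s) (v s).2)
  simp only [Equiv.symm_apply_apply, slice_apply] at h1
  have h2 : ∀ s, ¬ c s = i → φ j (Function.update
      (fun s => (Pi.single (c s) (b (c s) (v s).2) : ∀ i, T i)) s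
      (Pi.single i (X ((Pi.single (c s) (b (c s) (v s).2) : ∀ i, T i) i)))) = 0 := by
    intro s hs
    refine (φ j).map_coord_zero s ?_
    rw [Function.update_self, Pi.single_eq_of_ne (Ne.symm hs), map_zero, Pi.single_zero]
  rw [← Finset.sum_filter_add_sum_filter_not Finset.univ (fun s => c s = i),
    Finset.sum_eq_zero (s := Finset.univ.filter fun s => ¬ c s = i) fun s hs =>
      h2 s (Finset.mem_filter.1 hs).2, add_zero, ← Finset.sum_subtype_eq_sum_filter]
  have h3 : (Finset.univ.subtype fun s => c s = i) = (Finset.univ : Finset {s // c s = i}) := by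
    ext s
    simp
  rw [h3, ← h1]
  refine Finset.sum_congr rfl fun s _ => ?_
  congr 1
  have hsg : ∀ (k : ι) (h : k = i) (z : T k), (Pi.single i (h ▸ z) : ∀ i, T i) = Pi.single k z := by
    intro k h z
    subst h
    rfl
  have hev : ∀ (k : ι) (h : k = i) (z : T k), (Pi.single k z : ∀ i, T i) i = h ▸ z := by
    intro k h z
    subst h
    exact Pi.single_eq_same _ _
  funext s'
  by_cases hs' : s' = s
  · subst hs'
    rw [Function.update_self, dif_pos s.2]
    have h4 : (⟨(s : κ), s.2⟩ : {s // c s = i}) = s := rfl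
    rw [Function.update_self]
    congr 2
    exact hev _ s.2 _
  · rw [Function.update_of_ne hs']
    by_cases h5 : c s' = i
    · rw [dif_pos h5, Function.update_of_ne (fun h => hs' (congrArg Subtype.val h))]
      exact (hsg _ h5 _).symm
    · rw [dif_neg h5]

end

end Pool.Agent.N171.Bg
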