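import Mathlib
import Pool.Agent.N171.Bg2

/-!
# Squares of double transpositions, and groups which map onto the alternating group
-/

set_option linter.unusedSectionVars false

namespace Pool.Agent.N171.Bg

open PadicInt Module Pool.Agent.N171 Pool.Agent.N171.Al Equiv

noncomputable section

/-! ### squares of double transpositions -/

section sq

variable {T : Type*} [AddCommGroup T] [Module ℤ_[2] T] [Module.Finite ℤ_[2] T]
  [Module.Free ℤ_[2] T] {B : T →ₗ[ℤ_[2]] T →ₗ[ℤ_[2]] ℤ_[2]} {τ : Type*} [Fintype τ]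
  [DecidableEq τ] {D : τ → T} (hF : Frame B D)

include hF in
/-- A map which acts on the frame by an involution with a moved point and two fixed points: its
square is trivial modulo two, but it is not a scalar modulo four. -/
theorem sq_trivial {A : Module.End ℤ_[2] T} {π : Perm τ}
    (hA : ∀ i, rr B D (A (D i)) = rr B D (D (π i))) (hπ : ∀ i, π (π i) = i) :
    ∃ N, A * A = 1 + (2 : ℤ_[2]) • N := by
  have h1 : ∀ i, rr B D ((A * A) (D i)) = rr B D ((1 : Module.End ℤ_[2] T) (D i)) := by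
    intro i
    rw [Module.End.mul_apply, rr_map hF A (hA i), hA, hπ]
    rfl
  obtain ⟨Z, hZ⟩ := Sm_inj hF h1
  exact ⟨Z, hZ⟩

include hF in
theorem sq_not_scalar {A : Module.End ℤ_[2] T} {χ : ℤ_[2]} (hχ : ∃ z, χ = 1 + 4 * z)
    (hB : ∀ x y, B (A x) (A y) = χ * B x y) {π : Perm τ}
    (hA : ∀ i, rr B D (A (D i)) = rr B D (D (π i))) {i p r : τ} (hi : π i ≠ i) (hp : π p = p)
    (hr : π r = r) (hpr : p ≠ r) :
    ¬ ∃ (a : ℤ_[2]) (Z : Module.End ℤ_[2] T), A * A = a • 1 + (2 : ℤ_[2]) ^ 2 • Z := by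
  rintro ⟨a, Z, hZ⟩
  obtain ⟨z, rfl⟩ := hχ
  have hAA : ∀ x, A (A x) = a • x + (2 : ℤ_[2]) ^ 2 • Z x := fun x => congrArg (fun f => f x) hZ
  -- the scalar
  have h1 := hB (D i) (A (D i))
  rw [hAA, map_add, map_smul, map_smul, smul_eq_mul, smul_eq_mul, B_anti B hF.alt (A (D i)) (D i)] at h1
  have hu : IsUnit (B (D i) (A (D i))) := by
    rw [isUnit_iff_toZMod, B_symm2 hF, B_rr hF (hA i)]
    exact (isUnit_iff_toZMod _).1 (hF.one _ _ hi)
  obtain ⟨u, hu⟩ := hu
  rw [← hu] at h1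
  have h2 : a = -1 + 4 * ((B (A (D i))) (Z (D i)) * (u⁻¹ : ℤ_[2]ˣ) - z) := by
    have h3 : ((u⁻¹ : ℤ_[2]ˣ) : ℤ_[2]) * (u : ℤ_[2]) = 1 := Units.inv_mul u
    linear_combination (-((u⁻¹ : ℤ_[2]ˣ) : ℤ_[2])) * h1 - (1 + 4 * z + a) * h3
  -- the fixed point
  have hAp : rr B D (A (D p)) = rr B D (D p) := by rw [hA, hp]
  have hAr : rr B D (A (D r)) = rr B D (D r) := by rw [hA, hr]
  obtain ⟨w, hw⟩ := rr_inj hF hAp
  have h4 := hAA (D p)
  rw [hw, map_add, map_smul, hw] at h4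
  obtain ⟨y, hy⟩ : ∃ y, w + A w = D p + (2 : ℤ_[2]) • y := by
    refine ⟨(B (A (D i)) (Z (D i)) * (u⁻¹ : ℤ_[2]ˣ) - z) • D p + Z (D p) - D p, ?_⟩
    rw [← sub_eq_zero]
    apply two_smul_cancel
    rw [h2] at h4
    have h5 : ∀ v, (2 : ℤ_[2]) • (w + A w - v) =
        (D p + (2 : ℤ_[2]) • w + (2 : ℤ_[2]) • A w) - (D p + (2 : ℤ_[2]) • v) := fun v => by
      module
    rw [h5, h4]
    module
  have h6 := congrArg (fun v => (toZMod (B v (D r)) : ZMod 2)) hy
  simp only [map_add, LinearMap.add_apply, map_smul, LinearMap.smul_apply, smul_eq_mul, map_mul,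
    toZMod_two, zero_mul, add_zero] at h6
  have h7 : (toZMod (B (A w) (D r)) : ZMod 2) = toZMod (B w (D r)) := by
    rw [B_symm2 hF, ← B_rr hF hAr, B_symm2 hF, hB, map_mul, map_add, map_one, map_mul]
    have h8 : (toZMod (4 : ℤ_[2]) : ZMod 2) = 0 := by
      rw [map_ofNat]
      rfl
    rw [h8, zero_mul, add_zero, one_mul]
  rw [h7, zmod_two_add_self, (isUnit_iff_toZMod _).1 (hF.one p r hpr)] at h6
  exact zero_ne_one h6

end sq

/-! ### groups which map onto the alternating group -/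

section grp

variable {τ : Type*} [Fintype τ] [DecidableEq τ] {Γ : Type*} [Group Γ] (P : Γ →* Perm τ)

/-- The subgroup induces all the even permutations. -/
def OnAlt (N : Subgroup Γ) : Prop := ∀ π : Perm τ, Perm.sign π = 1 → ∃ s ∈ N, P s = π

theorem onAlt_of (h5 : 5 ≤ Fintype.card τ) (hP : OnAlt P ⊤) {N : Subgroup Γ} (hN : N.Normal)
    (h : ∃ s ∈ N, P s ≠ 1) : OnAlt P N := by
  have hs := alternatingGroup.isSimpleGroup (α := τ) (by rwa [Nat.card_eq_fintype_card])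
  -- the even elements of the image
  let H : Subgroup (alternatingGroup τ) := (N.map P).comap (alternatingGroup τ).subtype
  have hH : H.Normal := by
    refine ⟨fun n hn g => ?_⟩
    obtain ⟨s, hs, hsn⟩ := hn
    obtain ⟨γ, -, hγ⟩ := hP g.1 (Perm.mem_alternatingGroup.1 g.2)
    refine ⟨γ * s * γ⁻¹, hN.conj_mem s hs γ, ?_⟩
    rw [map_mul, map_mul, map_inv, hγ, hsn]
    rfl
  have key : H ≠ ⊥ := by
    intro hb
    obtain ⟨s, hs, hs1⟩ := h
    -- commutators with even permutations are trivial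
    have hc : ∀ g : Perm τ, Perm.sign g = 1 → g * P s = P s * g := by
      intro g hg
      obtain ⟨γ, -, hγ⟩ := hP g hg
      have h1 : γ * s * γ⁻¹ * s⁻¹ ∈ N := N.mul_mem (hN.conj_mem s hs γ) (N.inv_mem hs)
      have h2 : Perm.sign (P (γ * s * γ⁻¹ * s⁻¹)) = 1 := by
        simp only [map_mul, map_inv]
        rw [mul_comm (Perm.sign (P γ)), mul_assoc (Perm.sign (P s)), mul_inv_cancel, mul_one,
          mul_inv_cancel]
      have h3 : (⟨P (γ * s * γ⁻¹ * s⁻¹), Perm.mem_alternatingGroup.2 h2⟩ : alternatingGroup τ) ∈ H :=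
        ⟨_, h1, rfl⟩
      rw [hb, Subgroup.mem_bot] at h3
      have h4 : P (γ * s * γ⁻¹ * s⁻¹) = 1 := congrArg Subtype.val h3
      rw [map_mul, map_mul, map_mul, map_inv, map_inv, hγ, mul_inv_eq_one, mul_inv_eq_iff_eq_mul] at h4
      exact h4
    apply hs1
    ext i
    rw [Perm.one_apply]
    by_contra hi
    obtain ⟨k, -, -, hki, hkp, -⟩ := exists_two h5 i (P s i) i
    obtain ⟨l, hl⟩ := exists_notMem ({i, P s i, k} : Finset τ)
      (lt_of_le_of_lt Finset.card_le_three (by omega))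
    simp only [Finset.mem_insert, Finset.mem_singleton, not_or] at hl
    obtain ⟨hli, hlp, hlk⟩ := hl
    -- the cycle fixes i and moves the image of i
    have h6 := hc (cyc3 (P s i) k l) (sign_cyc3 (Ne.symm hkp) (Ne.symm hlk))
    have h7 := congrArg (fun g : Perm τ => g i) h6
    simp only [Perm.mul_apply] at h7
    rw [cyc3_x (Ne.symm hkp) (Ne.symm hlp), cyc3_ne (Ne.symm hi) (Ne.symm hki) (Ne.symm hli)] at h7
    exact hkp h7
  have htop : H = ⊤ := by
    rcases hs.eq_bot_or_eq_top_of_normal H hH with h1 | h1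
    · exact absurd h1 key
    · exact h1
  intro π hπ
  have h1 : (⟨π, Perm.mem_alternatingGroup.2 hπ⟩ : alternatingGroup τ) ∈ H := by
    rw [htop]
    exact Subgroup.mem_top _
  exact h1

theorem exists_cyc_ne (h5 : 5 ≤ Fintype.card τ) : ∃ g g' : Perm τ, Perm.sign g = 1 ∧
    Perm.sign g' = 1 ∧ g * g' ≠ g' * g ∧ g * g ≠ 1 := by
  obtain ⟨x, -⟩ := exists_notMem (∅ : Finset τ) (by rw [Finset.card_empty]; omega)
  obtain ⟨y, z, hyz, hyx, -, -, hzx, -, -⟩ := exists_two h5 x x x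
  obtain ⟨u, v, huv, hux, huy, huz, hvx, hvy, hvz⟩ := exists_two h5 x y z
  refine ⟨cyc3 x y z, cyc3 x u v, sign_cyc3 (Ne.symm hyx) hyz, sign_cyc3 (Ne.symm hux) huv, ?_, ?_⟩
  · intro h
    have h1 := congrArg (fun g : Perm τ => g x) h
    simp only [Perm.mul_apply] at h1
    rw [cyc3_x (Ne.symm hux) (Ne.symm hvx), cyc3_ne hux huy huz,
      cyc3_x (Ne.symm hyx) (Ne.symm hzx), cyc3_ne hyx (Ne.symm huy) (Ne.symm hvy)] at h1
    exact huy h1
  · intro h
    have h1 := congrArg (fun g : Perm τ => g x) h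
    simp only [Perm.mul_apply] at h1
    rw [cyc3_x (Ne.symm hyx) (Ne.symm hzx), cyc3_y hyz (Ne.symm hzx)] at h1
    exact hzx h1

theorem onAlt_inf (h5 : 5 ≤ Fintype.card τ) (hP : OnAlt P ⊤) {N N' : Subgroup Γ} (hN : N.Normal)
    (hN' : N'.Normal) (h : OnAlt P N) (h' : OnAlt P N') : OnAlt P (N ⊓ N') := by
  obtain ⟨g, g', hg, hg', hne, -⟩ := exists_cyc_ne (τ := τ) h5
  obtain ⟨s, hs, hsg⟩ := h g hg
  obtain ⟨s', hs', hsg'⟩ := h' g' hg'
  refine onAlt_of P h5 hP inferInstance ⟨s * s' * s⁻¹ * s'⁻¹, ⟨?_, ?_⟩, ?_⟩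
  · have h1 : s * s' * s⁻¹ * s'⁻¹ = s * (s' * s⁻¹ * s'⁻¹) := by group
    rw [h1]
    exact N.mul_mem hs (hN.conj_mem _ (N.inv_mem hs) s')
  · exact N'.mul_mem (hN'.conj_mem _ hs' s) (N'.inv_mem hs')
  · rw [map_mul, map_mul, map_mul, map_inv, map_inv, hsg, hsg', Ne, mul_inv_eq_one,
      mul_inv_eq_iff_eq_mul]
    exact hne

theorem onAlt_sq (h5 : 5 ≤ Fintype.card τ) (hP : OnAlt P ⊤) {N N' : Subgroup Γ}
    (hN' : N'.Normal) (h : OnAlt P N) (h' : ∀ s ∈ N, s * s ∈ N') : OnAlt P N' := by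
  obtain ⟨g, -, hg, -, -, hne⟩ := exists_cyc_ne (τ := τ) h5
  obtain ⟨s, hs, hsg⟩ := h g hg
  refine onAlt_of P h5 hP hN' ⟨s * s, h' s hs, ?_⟩
  rw [map_mul, hsg]
  exact hne

theorem onAlt_iInf (h5 : 5 ≤ Fintype.card τ) (hP : OnAlt P ⊤) {J : Type*} (S : Finset J)
    {N : J → Subgroup Γ} (hN : ∀ j, (N j).Normal) (h : ∀ j ∈ S, OnAlt P (N j)) :
    ∃ M : Subgroup Γ, M.Normal ∧ OnAlt P M ∧ ∀ j ∈ S, M ≤ N j := by
  classical
  induction S using Finset.induction_on with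
  | empty => exact ⟨⊤, inferInstance, hP, fun j hj => absurd hj (Finset.notMem_empty j)⟩
  | insert a S ha ih =>
    obtain ⟨M, hM, hM', hle⟩ := ih fun j hj => h j (Finset.mem_insert_of_mem hj)
    have := hN a
    refine ⟨N a ⊓ M, inferInstance, onAlt_inf P h5 hP (hN a) hM
      (h a (Finset.mem_insert_self a S)) hM', fun j hj => ?_⟩
    rcases Finset.mem_insert.1 hj with rfl | hj
    · exact inf_le_left
    · exact inf_le_right.trans (hle j hj)

/-- A double transposition with two fixed points. -/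
theorem exists_dt (h6 : 6 ≤ Fintype.card τ) : ∃ (π : Perm τ) (i p r : τ), Perm.sign π = 1 ∧
    (∀ i, π (π i) = i) ∧ π i ≠ i ∧ π p = p ∧ π r = r ∧ p ≠ r := by
  obtain ⟨a, -⟩ := exists_notMem (∅ : Finset τ) (by rw [Finset.card_empty]; omega)
  obtain ⟨b, -, -, hba, -⟩ := exists_two (by omega) a a a
  obtain ⟨c, d, hcd, hca, hcb, -, hda, hdb, -⟩ := exists_two (by omega) a b b
  obtain ⟨p, hp⟩ := exists_notMem ({a, b, c, d} : Finset τ)
    (lt_of_le_of_lt Finset.card_le_four (by omega))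
  obtain ⟨r, hr⟩ := exists_notMem ({a, b, c, d, p} : Finset τ)
    (lt_of_le_of_lt Finset.card_le_five (by omega))
  simp only [Finset.mem_insert, Finset.mem_singleton, not_or] at hp hr
  obtain ⟨hpa, hpb, hpc, hpd⟩ := hp
  obtain ⟨hra, hrb, hrc, hrd, hrp⟩ := hr
  have hdis : (swap a b).Disjoint (swap c d) := by
    intro x
    by_cases h1 : x = a
    · subst h1
      exact Or.inr (swap_apply_of_ne_of_ne (Ne.symm hca) (Ne.symm hda))
    by_cases h2 : x = b
    · subst h2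
      exact Or.inr (swap_apply_of_ne_of_ne (Ne.symm hcb) (Ne.symm hdb))
    exact Or.inl (swap_apply_of_ne_of_ne h1 h2)
  refine ⟨swap a b * swap c d, a, p, r, ?_, fun x => ?_, ?_, ?_, ?_, Ne.symm hrp⟩
  · rw [map_mul, Perm.sign_swap (Ne.symm hba), Perm.sign_swap hcd]
    rfl
  · have h1 : (swap a b * swap c d) * (swap a b * swap c d) = 1 := by
      rw [mul_assoc, ← mul_assoc (swap c d), ← hdis.commute.eq, mul_assoc (swap a b) (swap c d),
        swap_mul_self, mul_one, swap_mul_self]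
    exact congrArg (fun g : Perm τ => g x) h1
  · rw [Perm.mul_apply, swap_apply_of_ne_of_ne (Ne.symm hca) (Ne.symm hda), swap_apply_left]
    exact hba
  · rw [Perm.mul_apply, swap_apply_of_ne_of_ne hpc hpd, swap_apply_of_ne_of_ne hpa hpb]
  · rw [Perm.mul_apply, swap_apply_of_ne_of_ne hrc hrd, swap_apply_of_ne_of_ne hra hrb]

end grp

end

end Pool.Agent.N171.Bg
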