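import Mathlib
import Pool.Agent.N171.Bg3

/-!
# Sums of lattices with large images modulo two
-/

set_option linter.unusedSectionVars false

namespace Pool.Agent.N171.Bg

open PadicInt Module Pool.Agent.N171 Pool.Agent.N171.Al Equiv

noncomputable section

/-! ### levels -/

section lev

variable {Γ : Type*} [Group Γ] {R : Type*} [Ring R] [Algebra ℤ_[2] R] (r : Γ →* R)

theorem lev_inv {c : ℤ_[2]} {s : Γ} (h : ∃ N, r s = 1 + c • N) : ∃ N, r s⁻¹ = 1 + c • N := by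
  obtain ⟨N, hN⟩ := h
  refine ⟨-(r s⁻¹ * N), ?_⟩
  have h2 : r s⁻¹ * r s = 1 := by rw [← map_mul, inv_mul_cancel, map_one]
  rw [hN, mul_add, mul_one, mul_smul_comm] at h2
  rw [smul_neg, ← h2]
  abel

/-- The elements congruent to one. -/
def lev (m : ℕ) : Subgroup Γ where
  carrier := {s | ∃ N, r s = 1 + (2 : ℤ_[2]) ^ m • N}
  one_mem' := ⟨0, by rw [map_one, smul_zero, add_zero]⟩
  mul_mem' := by
    rintro s s' ⟨N, hN⟩ ⟨N', hN'⟩
    refine ⟨N + N' + (2 : ℤ_[2]) ^ m • (N * N'), ?_⟩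
    rw [map_mul, hN, hN']
    simp only [mul_add, add_mul, one_mul, mul_one, smul_add, mul_smul_comm, smul_mul_assoc]
    abel
  inv_mem' h := lev_inv r h

theorem mem_lev {m : ℕ} {s : Γ} : s ∈ lev r m ↔ ∃ N, r s = 1 + (2 : ℤ_[2]) ^ m • N := Iff.rfl

instance lev_normal (m : ℕ) : (lev r m).Normal := by
  refine ⟨fun s hs g => ?_⟩
  obtain ⟨N, hN⟩ := hs
  refine ⟨r g * N * r g⁻¹, ?_⟩
  have h2 : r g * r g⁻¹ = 1 := by rw [← map_mul, mul_inv_cancel, map_one]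
  rw [map_mul, map_mul, hN]
  simp only [mul_add, add_mul, mul_one, mul_smul_comm, smul_mul_assoc, h2]

theorem lev_sq {s : Γ} (h : s ∈ lev r 1) : s * s ∈ lev r 2 := by
  obtain ⟨N, hN⟩ := h
  refine ⟨N + N * N, ?_⟩
  rw [map_mul, hN, pow_one]
  simp only [mul_add, add_mul, one_mul, mul_one, smul_mul_smul_comm]
  have e : (2 : ℤ_[2]) * 2 = 2 ^ 2 := by norm_num
  rw [e]
  have e2 : ((2 : ℤ_[2]) ^ 2) • N = (2 : ℤ_[2]) • N + (2 : ℤ_[2]) • N := by
    rw [← add_smul]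
    norm_num
  rw [smul_add, e2]
  abel

end lev

variable {ι : Type*} [Fintype ι] [DecidableEq ι] {T : ι → Type*} [∀ i, AddCommGroup (T i)]
  [∀ i, Module ℤ_[2] (T i)] {Γ : Type*} [Group Γ] [∀ i, Module.Finite ℤ_[2] (T i)]
  [∀ i, Module.Free ℤ_[2] (T i)]
  (ρ : ∀ i, Representation ℤ_[2] Γ (T i)) {d : ℕ} (t : Γ →* Matrix (Fin d) (Fin d) ℤ_[2])
  {B : ∀ i, T i →ₗ[ℤ_[2]] T i →ₗ[ℤ_[2]] ℤ_[2]} {τ : ι → Type*} [∀ i, Fintype (τ i)]
  [∀ i, DecidableEq (τ i)] {D : ∀ i, τ i → T i} (χ : Γ →* ℤ_[2]ˣ)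

/-- Some element is trivial modulo two on the summand, trivial modulo `2 ^ m` on the other ones
and on the values, but not a scalar modulo `2 ^ m` on the summand. -/
def Sep (i : ι) : Prop := ∃ (m : ℕ) (σ : Γ), (∃ N, ρ i σ = 1 + (2 : ℤ_[2]) • N) ∧
  (∀ j, j ≠ i → ∃ N, ρ j σ = 1 + (2 : ℤ_[2]) ^ m • N) ∧ (∃ M, t σ = 1 + (2 : ℤ_[2]) ^ m • M) ∧
  (∃ z, (χ σ : ℤ_[2]) = 1 + 2 ^ m * z) ∧
  ¬ ∃ (a : ℤ_[2]) (Z : Module.End ℤ_[2] (T i)), ρ i σ = a • 1 + (2 : ℤ_[2]) ^ m • Z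

/-- The action on the frames. -/
structure Perms (P : ∀ i, Γ →* Perm (τ i)) : Prop where
  frame : ∀ i, Frame (B i) (D i)
  inv : ∀ i s x y, B i (ρ i s x) (ρ i s y) = (χ s : ℤ_[2]) * B i x y
  act : ∀ i s k, rr (B i) (D i) (ρ i s (D i k)) = rr (B i) (D i) (D i (P i s k))
  onto : ∀ i, OnAlt (P i) ⊤
  card : ∀ i, 6 ≤ Fintype.card (τ i)
  odd : ∀ i, Odd (Fintype.card (τ i))

variable {ρ χ} {P : ∀ i, Γ →* Perm (τ i)} (h : Perms ρ (B := B) (D := D) χ P)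

include h in
theorem Perms.big (i : ι) : Big (B i) (D i) (ρ i) χ :=
  ⟨h.frame i, h.inv i, fun π hπ => by
    obtain ⟨s, -, hs⟩ := h.onto i π hπ
    exact ⟨s, fun k => by rw [h.act, hs]⟩, by have := h.card i; omega, h.odd i⟩

include h in
theorem Perms.ker_le (i : ι) {s : Γ} (hs : P i s = 1) : s ∈ lev (ρ i) 1 := by
  obtain ⟨Z, hZ⟩ := Sm_inj (h.frame i) (N := ρ i s) (N' := 1) (fun k => by
    rw [h.act, hs]
    rfl)
  exact ⟨Z, by rw [pow_one, ← hZ]⟩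

include h in
/-- **The separation.** -/
theorem Perms.sep (hsep : ∀ i j, j ≠ i → ∃ s, P j s = 1 ∧ P i s ≠ 1)
    (ht : ∀ i, ∃ s, (∃ M, t s = 1 + (2 : ℤ_[2]) • M) ∧ P i s ≠ 1) (i : ι) : Sep ρ t χ i := by
  classical
  have h5 : 5 ≤ Fintype.card (τ i) := by have := h.card i; omega
  have hon := h.onto i
  -- the elements which are trivial modulo two on the other lattices
  obtain ⟨M, hM, hMon, hMle⟩ := onAlt_iInf (P i) h5 hon (Finset.univ.erase i)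
    (N := fun j => (P j).ker) (fun j => inferInstance) fun j hj => by
      obtain ⟨s, hs, hs'⟩ := hsep i j (Finset.ne_of_mem_erase hj)
      exact onAlt_of (P i) h5 hon inferInstance ⟨s, hs, hs'⟩
  have ht1 : OnAlt (P i) (lev t 1) := by
    obtain ⟨s, ⟨M, hs⟩, hs'⟩ := ht i
    exact onAlt_of (P i) h5 hon inferInstance ⟨s, ⟨M, by rw [pow_one]; exact hs⟩, hs'⟩
  have hinf := onAlt_inf (P i) h5 hon hM (lev_normal t 1) hMon ht1
  let χ' : Γ →* ℤ_[2] := (Units.coeHom ℤ_[2]).comp χ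
  have hn : (⨅ j, ⨅ _ : j ≠ i, lev (ρ j) 2).Normal :=
    Subgroup.normal_iInf_normal fun j => Subgroup.normal_iInf_normal fun _ => lev_normal _ _
  have hn2 : ((⨅ j, ⨅ _ : j ≠ i, lev (ρ j) 2) ⊓ lev t 2 ⊓ lev χ' 2).Normal := inferInstance
  have h2 := onAlt_sq (P i) h5 hon hn2 hinf fun s hs => by
    refine Subgroup.mem_inf.2 ⟨Subgroup.mem_inf.2 ⟨?_, lev_sq t (Subgroup.mem_inf.1 hs).2⟩, ?_⟩
    · rw [Subgroup.mem_iInf]
      intro j
      rw [Subgroup.mem_iInf]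
      intro hj
      refine lev_sq (ρ j) (h.ker_le j ?_)
      exact hMle j (Finset.mem_erase.2 ⟨hj, Finset.mem_univ j⟩) (Subgroup.mem_inf.1 hs).1
    · refine lev_sq χ' ?_
      have h3 : (toZMod ((χ s : ℤ_[2]) - 1) : ZMod 2) = 0 := by
        rw [map_sub, (isUnit_iff_toZMod _).1 (χ s).isUnit, map_one, sub_self]
      obtain ⟨z, hz⟩ := (toZMod_eq_zero _).1 h3
      refine ⟨z, ?_⟩
      change (χ s : ℤ_[2]) = _
      rw [pow_one, smul_eq_mul, ← hz]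
      ring
  obtain ⟨π, i₀, p, r, hπ, hππ, hi₀, hp, hr, hpr⟩ := exists_dt (h.card i)
  obtain ⟨g, hg0, hg⟩ := h2 π hπ
  obtain ⟨hg12, hg3⟩ := Subgroup.mem_inf.1 hg0
  obtain ⟨hg1, hg2⟩ := Subgroup.mem_inf.1 hg12
  rw [Subgroup.mem_iInf] at hg1
  have hact : ∀ k, rr (B i) (D i) (ρ i g (D i k)) = rr (B i) (D i) (D i (π k)) := fun k => by
    rw [h.act, hg]
  refine ⟨2, g * g, ?_, fun j hj => ?_, ?_, ?_, ?_⟩
  · rw [map_mul]
    exact sq_trivial (h.frame i) hact hππ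
  · have h3 := hg1 j
    rw [Subgroup.mem_iInf] at h3
    exact (lev (ρ j) 2).mul_mem (h3 hj) (h3 hj)
  · exact (lev t 2).mul_mem hg2 hg2
  · obtain ⟨z, hz⟩ := (lev χ' 2).mul_mem hg3 hg3
    exact ⟨z, hz⟩
  · rw [map_mul]
    obtain ⟨z, hz⟩ := hg3
    refine sq_not_scalar (h.frame i) (χ := χ g) ⟨z, ?_⟩ (h.inv i g) hact hi₀ hp hr hpr
    have h3 : (χ g : ℤ_[2]) = 1 + (2 : ℤ_[2]) ^ 2 • z := hz
    rw [h3, smul_eq_mul]
    norm_num

/-! ### the sum of the forms -/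

section form

variable (B)

/-- The sum of the forms. -/
def piB : (∀ i, T i) →ₗ[ℤ_[2]] (∀ i, T i) →ₗ[ℤ_[2]] ℤ_[2] :=
  ∑ i, (B i).compl₁₂ (LinearMap.proj i) (LinearMap.proj i)

theorem piB_apply (x y : ∀ i, T i) : piB B x y = ∑ i, B i (x i) (y i) := by
  rw [piB, LinearMap.sum_apply, LinearMap.sum_apply]
  rfl

variable (T) in
/-- The projections. -/
def piP (i : ι) : Module.End ℤ_[2] (∀ i, T i) := LinearMap.single ℤ_[2] T i ∘ₗ LinearMap.proj i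

theorem piP_apply (i : ι) (x : ∀ i, T i) : piP T i x = Pi.single i (x i) := rfl

theorem piP_sum (x : ∀ i, T i) : ∑ i, piP T i x = x := Finset.univ_sum_single x

theorem piP_self (i : ι) (x : ∀ i, T i) : piP T i (piP T i x) = piP T i x := by
  rw [piP_apply, piP_apply, Pi.single_eq_same]

theorem piP_ne (i j : ι) (x : ∀ i, T i) (h : i ≠ j) : piP T i (piP T j x) = 0 := by
  rw [piP_apply, piP_apply, Pi.single_eq_of_ne h, Pi.single_zero]

theorem piB_single_left (i : ι) (x : T i) (y : ∀ i, T i) :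
    piB B (Pi.single i x) y = B i x (y i) := by
  rw [piB_apply, Finset.sum_eq_single i]
  · rw [Pi.single_eq_same]
  · intro j _ hj
    rw [Pi.single_eq_of_ne hj, map_zero, LinearMap.zero_apply]
  · intro h
    exact absurd (Finset.mem_univ i) h

theorem piB_single_right (i : ι) (x : ∀ i, T i) (y : T i) :
    piB B x (Pi.single i y) = B i (x i) y := by
  rw [piB_apply, Finset.sum_eq_single i]
  · rw [Pi.single_eq_same]
  · intro j _ hj
    rw [Pi.single_eq_of_ne hj, map_zero]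
  · intro h
    exact absurd (Finset.mem_univ i) h

theorem piB_piP (i : ι) (x y : ∀ i, T i) : piB B (piP T i x) y = piB B x (piP T i y) := by
  rw [piP_apply, piP_apply, piB_single_left, piB_single_right]

theorem piB_self (hB : ∀ i x, B i x x = 0) (x : ∀ i, T i) : piB B x x = 0 := by
  rw [piB_apply]
  exact Finset.sum_eq_zero fun i _ => hB i _

theorem piB_nd (hB : ∀ i v, (∀ w, ¬ IsUnit (B i v w)) → ∃ u, (2 : ℤ_[2]) • u = v)
    (v : ∀ i, T i) (hv : ∀ w, ¬ IsUnit (piB B v w)) : ∃ u, (2 : ℤ_[2]) • u = v := by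
  choose u hu using fun i => hB i (v i) fun w hw => hv (Pi.single i w) (by
    rwa [piB_single_right])
  exact ⟨u, funext hu⟩

theorem piB_inv {B : ∀ i, T i →ₗ[ℤ_[2]] T i →ₗ[ℤ_[2]] ℤ_[2]}
    (hB : ∀ i s x y, B i (ρ i s x) (ρ i s y) = (χ s : ℤ_[2]) * B i x y) (s : Γ)
    (x y : ∀ i, T i) : piB B (piRep ρ s x) (piRep ρ s y) = (χ s : ℤ_[2]) * piB B x y := by
  rw [piB_apply, piB_apply, Finset.mul_sum]
  exact Finset.sum_congr rfl fun i _ => hB i s _ _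

theorem piP_rho (i : ι) (s : Γ) (x : ∀ i, T i) :
    piP T i (piRep ρ s x) = piRep ρ s (piP T i x) := by
  rw [piP_apply, piP_apply, piRep_single, piRep_apply]

end form

/-- The operators `so` of a summand. -/
theorem so_pi {B : ∀ i, T i →ₗ[ℤ_[2]] T i →ₗ[ℤ_[2]] ℤ_[2]} (i : ι) (u w x : ∀ i, T i) :
    so (piB B) (piP T i u) (piP T i w) x = Pi.single i (so (B i) (u i) (w i) (x i)) := by
  rw [so_apply, so_apply, piP_apply, piP_apply, piB_single_left, piB_single_left, Pi.single_add,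
    Pi.single_smul, Pi.single_smul]

theorem so_mem_one {T : Type*} [AddCommGroup T] [Module ℤ_[2] T]
    {B : T →ₗ[ℤ_[2]] T →ₗ[ℤ_[2]] ℤ_[2]} (halt : ∀ x, B x x = 0) (u w : T) :
    so B u w ∈ spQ B (p1 T) := by
  refine ⟨fun x y => ?_, fun _ _ => rfl⟩
  rw [so_apply, so_apply]
  simp only [map_add, map_smul, LinearMap.add_apply, LinearMap.smul_apply, smul_eq_mul]
  rw [B_anti B halt x w, B_anti B halt x u]
  ring

variable {κ : Type*} [Fintype κ] [DecidableEq κ]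

/-- All forms are killed. -/
theorem kill_pi (hF : ∀ i, Big (B i) (D i) (ρ i) χ) {i : ι} (hs : Sep ρ t χ i)
    {φ : Fin d → MultilinearMap ℤ_[2] (fun _ : κ => ∀ i, T i) ℚ_[2]}
    (hφ : IsTW (piRep ρ) κ t φ) (j : Fin d) (u w : ∀ i, T i) (x : κ → ∀ i, T i) :
    ∑ s, φ j (Function.update x s (so (piB B) (piP T i u) (piP T i w) (x s))) = 0 := by
  obtain ⟨m, σ, h1, h2, h3, -, h5⟩ := hs
  simp only [so_pi]
  exact kill_multi ρ t (hF i) h1 h2 h3 h5 (so_mem_one (hF i).frame.alt _ _) hφ j x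

end

end Pool.Agent.N171.Bg
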