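import Mathlib
import Pool.Agent.N171.Bg4

/-!
# Tate classes on products of abelian varieties with large images modulo two
-/

set_option linter.unusedSectionVars false

namespace Pool.Agent.N171.Bg

open PadicInt Module TensorProduct Pool.Agent.N171 Pool.Agent.N171.Al Equiv
  Pool.Agent.H204R3.SP Pool.Agent.H204R3.GP

noncomputable section

variable {ι : Type*} [Fintype ι] [DecidableEq ι] {T : ι → Type*} [∀ i, AddCommGroup (T i)]
  [∀ i, Module ℤ_[2] (T i)] {Γ : Type*} [Group Γ] [∀ i, Module.Finite ℤ_[2] (T i)]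
  [∀ i, Module.Free ℤ_[2] (T i)]
  {ρ : ∀ i, Representation ℤ_[2] Γ (T i)} {d : ℕ} (t : Γ →* Matrix (Fin d) (Fin d) ℤ_[2])
  {B : ∀ i, T i →ₗ[ℤ_[2]] T i →ₗ[ℤ_[2]] ℤ_[2]} {τ : ι → Type*} [∀ i, Fintype (τ i)]
  [∀ i, DecidableEq (τ i)] {D : ∀ i, τ i → T i} {χ : Γ →* ℤ_[2]ˣ}
  (hF : ∀ i, Big (B i) (D i) (ρ i) χ) (hS : ∀ i, Sep ρ t χ i)
  {κ : Type*} [Fintype κ] [DecidableEq κ]
  {W : Type*} [AddCommGroup W] [Module ℚ_[2] W] (τW : Representation ℚ_[2] Γ W)
  (bW : Basis (Fin d) ℚ_[2] W)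
  (hτ : ∀ s i, τW s (bW i) = ∑ j, algebraMap ℤ_[2] ℚ_[2] (t s j i) • bW j)

include hτ hF hS in
theorem coord_pi {n : ℕ} {f : (Fin n → ℚ_[2] ⊗[ℤ_[2]] (∀ i, T i)) [⋀^κ]→ₗ[ℚ_[2]] W}
    (hf : IsTateV (ratRep (piRep ρ)) τW f) (c : κ → Fin n) (j : Fin d) (cc : ι)
    (u w : ℚ_[2] ⊗[ℤ_[2]] (∀ i, T i)) :
    Kills (SS (BV (piB B)) (LinearMap.baseChange ℚ_[2] (piP T cc) u)
      (LinearMap.baseChange ℚ_[2] (piP T cc) w))
      (cmp ((bW.coord j).compAlternatingMap f).toMultilinearMap c) := by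
  refine SS_rat (piB B) (fun u w => kills_rat fun x => ?_) u w
  exact kill_pi t hF (hS cc) (isTW_of (piRep ρ) τW bW t hτ hf c) j u w x

include hτ hF hS in
/-- **The abstract theorem, even degree.** -/
theorem absM_even {n m : ℕ}
    (f : (Fin n → ℚ_[2] ⊗[ℤ_[2]] (∀ i, T i)) [⋀^Fin m × Fin 2]→ₗ[ℚ_[2]] W)
    (hf : IsTateV (ratRep (piRep ρ)) τW f) :
    f ∈ Submodule.span ℚ_[2] {h | IsProdW (ratChar χ) τW
      (fun c => (BV (piB B)).comp (LinearMap.baseChange ℚ_[2] (piP T c))) h} := by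
  have hfin : FiniteDimensional ℚ_[2] (ℚ_[2] ⊗[ℤ_[2]] (∀ i, T i)) := inferInstance
  have halt : ∀ x, piB B x x = 0 := piB_self B fun i => (hF i).frame.alt
  have hnd := piB_nd B fun i => (hF i).frame.nd
  have hinv := piB_inv fun i => (hF i).inv
  refine assemble (ratRep (piRep ρ)) (ratChar χ) τW _ ?_ bW f hf fun j => ?_
  · intro c s u w
    rw [LinearMap.comp_apply, LinearMap.comp_apply]
    have h1 : LinearMap.baseChange ℚ_[2] (piP T c) (ratRep (piRep ρ) s u) =
        ratRep (piRep ρ) s (LinearMap.baseChange ℚ_[2] (piP T c) u) := by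
      have h2 : (LinearMap.baseChange ℚ_[2] (piP T c)).comp (ratRep (piRep ρ) s) =
          (ratRep (piRep ρ) s).comp (LinearMap.baseChange ℚ_[2] (piP T c)) := by
        refine ext_tmul fun x => ?_
        rw [LinearMap.comp_apply, LinearMap.comp_apply, ratRep_tmul, LinearMap.baseChange_tmul,
          LinearMap.baseChange_tmul, ratRep_tmul, piP_rho]
      exact congrArg (fun f => f u) h2
    rw [h1]
    exact BV_inv (piRep ρ) χ (piB B) hinv s _ _
  · refine altK_mem (BV (piB B)) (fun v w => BV_anti (piB B) halt w v)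
      (fun c => LinearMap.baseChange ℚ_[2] (piP T c)) ?_ _ fun c => ?_
    · intro c u w
      have h1 : (BV (piB B)).comp (LinearMap.baseChange ℚ_[2] (piP T c)) =
          (BV (piB B)).compl₂ (LinearMap.baseChange ℚ_[2] (piP T c)) := by
        refine ext_tmul fun x => ext_tmul fun y => ?_
        rw [LinearMap.comp_apply, LinearMap.compl₂_apply, LinearMap.baseChange_tmul,
          LinearMap.baseChange_tmul, BV_tmul, BV_tmul, piB_piP]
      exact congrArg (fun f => f u w) h1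
    · exact (kil_rat (piB B) halt hnd (piP T) piP_sum piP_self piP_ne (piB_piP B)).1 m _
        fun cc u w => coord_pi t hF hS τW bW hτ hf c j cc u w

include hτ hF hS in
/-- **The abstract theorem, odd degree.** -/
theorem absM_odd {n a : ℕ} (ha : Odd a)
    (f : (Fin n → ℚ_[2] ⊗[ℤ_[2]] (∀ i, T i)) [⋀^Fin a]→ₗ[ℚ_[2]] W)
    (hf : IsTateV (ratRep (piRep ρ)) τW f) : f = 0 := by
  have halt : ∀ x, piB B x x = 0 := piB_self B fun i => (hF i).frame.alt
  have hnd := piB_nd B fun i => (hF i).frame.nd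
  have h1 : ∀ j c, cmp ((bW.coord j).compAlternatingMap f).toMultilinearMap c = 0 :=
    fun j c => (kil_rat (piB B) halt hnd (piP T) piP_sum piP_self piP_ne (piB_piP B)).2 a _ ha
      fun cc u w => coord_pi t hF hS τW bW hτ hf c j cc u w
  ext x
  apply bW.repr.injective
  ext j
  have h2 := cmp_sum ((bW.coord j).compAlternatingMap f).toMultilinearMap x
  rw [AlternatingMap.zero_apply, map_zero, Finsupp.zero_apply]
  refine h2.trans (Finset.sum_eq_zero fun c _ => ?_)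
  rw [h1]
  rfl

end

end Pool.Agent.N171.Bg
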