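import Mathlib
import Pool.Agent.N171.Bas

/-!
# The Jacobian of the curve `y ^ 2 = f (x)`

`K` is a field of characteristic different from two, `F` an algebraic closure, `f` a monic separable
polynomial of odd degree with coefficients in `K`.  The curve `y ^ 2 = f (x)` has one point at infinity,
and the group of the `F`-points of its Jacobian is the class group of the coordinate ring `F[x, y]` of
the affine curve.  The group of automorphisms of `F` over `K` acts on the coefficients.
-/

set_option linter.unusedSectionVars false

namespace Pool.Agent.N171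

open Polynomial

section cl

variable {R R' R'' : Type*} [CommRing R] [IsDomain R] [CommRing R'] [IsDomain R'] [CommRing R'']
  [IsDomain R'']

theorem clMap_refl (x : ClG R) : clMap (RingEquiv.refl R) x = x := by
  change ClassGroup.mulEquiv (RingEquiv.refl R) (Additive.toMul x) = Additive.toMul x
  generalize Additive.toMul x = y
  obtain ⟨z, rfl⟩ := (ClassGroup.equiv (FractionRing R)).symm.surjective y
  obtain ⟨I, rfl⟩ := QuotientGroup.mk_surjective z
  unfold ClassGroup.mulEquiv
  rw [MulEquiv.trans_apply, MulEquiv.trans_apply, MulEquiv.apply_symm_apply]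
  congr 1
  refine (QuotientGroup.congr_mk _ _ _ _ I).trans ?_
  congr 1
  apply Units.ext
  rw [Units.coe_mapEquiv]
  exact congrArg (fun e => e (I : FractionalIdeal (nonZeroDivisors R) (FractionRing R)))
    (FractionalIdeal.ringEquivOfRingEquiv_refl (FractionRing R))

theorem clMap_trans (g : R ≃+* R') (g' : R' ≃+* R'') (x : ClG R) :
    clMap (g.trans g') x = clMap g' (clMap g x) := by
  change ClassGroup.mulEquiv (g.trans g') (Additive.toMul x) =
    ClassGroup.mulEquiv g' (ClassGroup.mulEquiv g (Additive.toMul x))
  generalize Additive.toMul x = y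
  obtain ⟨z, rfl⟩ := (ClassGroup.equiv (FractionRing R)).symm.surjective y
  obtain ⟨I, rfl⟩ := QuotientGroup.mk_surjective z
  unfold ClassGroup.mulEquiv
  simp only [MulEquiv.trans_apply, MulEquiv.apply_symm_apply]
  congr 1
  refine (QuotientGroup.congr_mk _ _ _ _ I).trans (Eq.symm ?_)
  refine (congrArg _ (QuotientGroup.congr_mk _ _ _ _ I)).trans ?_
  refine (QuotientGroup.congr_mk _ _ _ _ _).trans (Eq.symm ?_)
  congr 1
  apply Units.ext
  rw [Units.coe_mapEquiv, Units.coe_mapEquiv, Units.coe_mapEquiv]
  exact FractionalIdeal.ringEquivOfRingEquiv_trans_apply _ _ _ g g' _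

end cl

section dom

variable {F : Type*} [Field F]

/-- The coordinate ring `F[x, y] / (y ^ 2 - g (x))`. -/
abbrev RG (g : F[X]) : Type _ := QuadraticAlgebra F[X] g 0

theorem rg_domain {g : F[X]} (hg : Odd g.natDegree) : IsDomain (RG g) := by
  have hns : ∀ r : RatFunc F, r ^ 2 ≠ algebraMap F[X] (RatFunc F) g + 0 * r := by
    intro r h
    rw [zero_mul, add_zero] at h
    have hg0 : g ≠ 0 := by
      rintro rfl
      rw [natDegree_zero] at hg
      exact (by decide : ¬ Odd 0) hg
    have hr : r ≠ 0 := by
      rintro rfl
      exact (map_ne_zero_iff _ (IsFractionRing.injective F[X] (RatFunc F))).2 hg0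
        (by rw [← h]; ring)
    have h1 := congrArg RatFunc.intDegree h
    rw [pow_two, RatFunc.intDegree_mul hr hr, RatFunc.intDegree_polynomial] at h1
    obtain ⟨k, hk⟩ := hg
    omega
  have hf : Fact (∀ r : RatFunc F, r ^ 2 ≠ algebraMap F[X] (RatFunc F) g + 0 * r) := ⟨hns⟩
  let j : RG g →+* QuadraticAlgebra (RatFunc F) (algebraMap F[X] (RatFunc F) g) 0 :=
    { toFun := fun x => ⟨algebraMap F[X] (RatFunc F) x.re, algebraMap F[X] (RatFunc F) x.im⟩
      map_one' := by
        ext
        · exact map_one _
        · exact map_zero _
      map_zero' := by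
        ext
        · exact map_zero _
        · exact map_zero _
      map_add' := fun x y => by
        ext
        · simp only [QuadraticAlgebra.re_add, map_add]
        · simp only [QuadraticAlgebra.im_add, map_add]
      map_mul' := fun x y => by
        ext
        · simp only [QuadraticAlgebra.re_mul, map_add, map_mul]
        · simp only [QuadraticAlgebra.im_mul, map_add, map_mul, map_zero, zero_mul] }
  have hj : Function.Injective j := by
    intro x y h
    have h1 := congrArg QuadraticAlgebra.re h
    have h2 := congrArg QuadraticAlgebra.im h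
    exact QuadraticAlgebra.ext (IsFractionRing.injective F[X] (RatFunc F) h1)
      (IsFractionRing.injective F[X] (RatFunc F) h2)
  exact hj.isDomain j

/-- An automorphism of the field that fixes `g` acts on the coefficients of the elements of the
coordinate ring. -/
noncomputable def gRg {g : F[X]} {σ : F ≃+* F} (hσ : g.map (σ : F →+* F) = g) : RG g ≃+* RG g where
  toFun x := ⟨x.re.map (σ : F →+* F), x.im.map (σ : F →+* F)⟩
  invFun x := ⟨x.re.map (σ.symm : F →+* F), x.im.map (σ.symm : F →+* F)⟩
  left_inv x := by
    ext1
    · change (x.re.map _).map _ = x.re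
      rw [Polynomial.map_map, RingEquiv.symm_comp, Polynomial.map_id]
    · change (x.im.map _).map _ = x.im
      rw [Polynomial.map_map, RingEquiv.symm_comp, Polynomial.map_id]
  right_inv x := by
    ext1
    · change (x.re.map _).map _ = x.re
      rw [Polynomial.map_map, RingEquiv.comp_symm, Polynomial.map_id]
    · change (x.im.map _).map _ = x.im
      rw [Polynomial.map_map, RingEquiv.comp_symm, Polynomial.map_id]
  map_mul' x y := by
    ext1
    · simp only [QuadraticAlgebra.re_mul, Polynomial.map_add, Polynomial.map_mul, hσ]
    · simp only [QuadraticAlgebra.im_mul, Polynomial.map_add, Polynomial.map_mul,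
        Polynomial.map_zero, zero_mul]
  map_add' x y := by
    ext1
    · simp only [QuadraticAlgebra.re_add, Polynomial.map_add]
    · simp only [QuadraticAlgebra.im_add, Polynomial.map_add]

end dom

section jac

variable {K : Type*} [Field K] (f : K[X]) (F : Type*) [Field F] [Algebra K F]

/-- The hypotheses on the polynomial: it is monic and separable, the degree is odd, and the
characteristic is not two. -/
class HypP : Prop where
  monic : f.Monic
  sep : f.Separable
  odd : Odd f.natDegree
  two : (2 : K) ≠ 0

/-- The coordinate ring `F[x, y] / (y ^ 2 - f (x))`. -/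
abbrev RF : Type _ := RG (f.map (algebraMap K F))

instance instRF [h : HypP f] : IsDomain (RF f F) :=
  rg_domain (by rw [natDegree_map]; exact h.odd)

/-- The group of the `F`-points of the Jacobian of the curve `y ^ 2 = f (x)`: the class group of the
coordinate ring `F[x, y]`. -/
def JacP [HypP f] : Type _ := ClG (RF f F)

noncomputable instance instJacP [HypP f] : AddCommGroup (JacP f F) :=
  (instClG : AddCommGroup (ClG (RF f F)))

variable {F}

theorem rf_fix (σ : F ≃ₐ[K] F) :
    (f.map (algebraMap K F)).map ((σ : F ≃+* F) : F →+* F) = f.map (algebraMap K F) := by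
  rw [Polynomial.map_map]
  congr 1
  exact RingHom.ext fun x => σ.commutes x

/-- The action of an automorphism of `F` over `K` on the points of the Jacobian: it acts on the
coefficients of the elements of the coordinate ring. -/
noncomputable def jpAct [HypP f] (σ : F ≃ₐ[K] F) : JacP f F →+ JacP f F :=
  (clMap (gRg (rf_fix f σ)) : ClG (RF f F) →+ ClG (RF f F))

noncomputable instance instActP [HypP f] : DistribMulAction (F ≃ₐ[K] F) (JacP f F) where
  smul σ x := jpAct f σ x
  one_smul x := by
    have h1 : gRg (rf_fix f (1 : F ≃ₐ[K] F)) = RingEquiv.refl (RF f F) :=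
      RingEquiv.ext fun r => QuadraticAlgebra.ext Polynomial.map_id Polynomial.map_id
    have h2 := clMap_refl (R := RF f F) (x : ClG (RF f F))
    rw [← h1] at h2
    exact h2
  mul_smul σ τ x := by
    have h1 : gRg (rf_fix f (σ * τ)) =
        (gRg (rf_fix f τ) : RF f F ≃+* RF f F).trans (gRg (rf_fix f σ)) := by
      refine RingEquiv.ext fun r => ?_
      have h2 : ∀ p : F[X], p.map (((σ * τ : F ≃ₐ[K] F) : F ≃+* F) : F →+* F) =
          (p.map ((τ : F ≃+* F) : F →+* F)).map ((σ : F ≃+* F) : F →+* F) := by
        intro p
        rw [Polynomial.map_map]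
        rfl
      exact QuadraticAlgebra.ext (h2 r.re) (h2 r.im)
    have h2 := clMap_trans (gRg (rf_fix f τ) : RF f F ≃+* RF f F) (gRg (rf_fix f σ))
      (x : ClG (RF f F))
    rw [← h1] at h2
    exact h2
  smul_zero σ := map_zero (jpAct f σ)
  smul_add σ x y := map_add (jpAct f σ) x y

end jac

end Pool.Agent.N171
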