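import Mathlib
import Pool.Agent.N171.GalC
import Pool.Agent.N171.PmDefs

/-!
# The action on the curve of automorphisms which permute the ramification points
-/

set_option linter.unusedSectionVars false

namespace Pool.Agent.N171.Pm

open HahnSeries Polynomial nonZeroDivisors Pool.Agent.N171

section

variable {F ι : Type*} [Field F] [Fintype ι] {α : ι → F}

theorem pm_fix {σ : F ≃+* F} {π : Equiv.Perm ι} (hσ : ∀ i, σ (α i) = α (π i)) :
    (fP α).map (σ : F →+* F) = fP α := by
  unfold fP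
  rw [Polynomial.map_prod]
  have h : ∀ i, (X - Polynomial.C (α i)).map (σ : F →+* F) = X - Polynomial.C (α (π i)) := by
    intro i
    rw [Polynomial.map_sub, Polynomial.map_X, Polynomial.map_C]
    congr 2
    exact hσ i
  rw [Finset.prod_congr rfl fun i _ => h i]
  exact Equiv.prod_comp π (fun i => X - Polynomial.C (α i))

theorem gR_fix {σ : F ≃+* F} {π : Equiv.Perm ι} (hσ : ∀ i, σ (α i) = α (π i)) :
    gR σ (algebraMap F[X] (RatFunc F) (fP α)) = algebraMap F[X] (RatFunc F) (fP α) := by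
  rw [gR_pol, pm_fix hσ]

/-- The action on the function field. -/
noncomputable def gL {σ : F ≃+* F} {π : Equiv.Perm ι} (hσ : ∀ i, σ (α i) = α (π i)) :
    FF α ≃+* FF α where
  toFun x := ⟨gR σ x.re, gR σ x.im⟩
  invFun x := ⟨(gR σ).symm x.re, (gR σ).symm x.im⟩
  left_inv x := by
    ext
    · exact (gR σ).symm_apply_apply _
    · exact (gR σ).symm_apply_apply _
  right_inv x := by
    ext
    · exact (gR σ).apply_symm_apply _
    · exact (gR σ).apply_symm_apply _
  map_mul' x y := by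
    ext
    · simp only [QuadraticAlgebra.re_mul, map_add, map_mul, gR_fix hσ]
    · simp only [QuadraticAlgebra.im_mul, map_add, map_mul, map_zero, zero_mul]
  map_add' x y := by
    ext
    · simp only [QuadraticAlgebra.re_add, map_add]
    · simp only [QuadraticAlgebra.im_add, map_add]

theorem gL_apply {σ : F ≃+* F} {π : Equiv.Perm ι} (hσ : ∀ i, σ (α i) = α (π i)) (x : FF α) :
    gL hσ x = ⟨gR σ x.re, gR σ x.im⟩ := rfl

/-- The action on the affine points. -/
def gPt {σ : F ≃+* F} {π : Equiv.Perm ι} (hσ : ∀ i, σ (α i) = α (π i)) (P : Pt α) : Pt α :=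
  ⟨σ P.a, σ P.b, by
    rw [← map_pow, P.h, fP_eval, fP_eval, map_prod]
    have h : ∀ i, σ (P.a - α i) = σ P.a - α (π i) := fun i => by rw [map_sub, hσ]
    rw [Finset.prod_congr rfl fun i _ => h i]
    exact Equiv.prod_comp π (fun i => σ P.a - α i)⟩

/-- The action on the points. -/
def gP {σ : F ≃+* F} {π : Equiv.Perm ι} (hσ : ∀ i, σ (α i) = α (π i)) :
    Option (Pt α) → Option (Pt α) :=
  Option.map (gPt hσ)

theorem gPt_inj {σ : F ≃+* F} {π : Equiv.Perm ι} (hσ : ∀ i, σ (α i) = α (π i)) :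
    Function.Injective (gPt hσ) := by
  intro P Q h
  exact Pt.ext (σ.injective (congrArg Pt.a h)) (σ.injective (congrArg Pt.b h))

theorem symm_fix {σ : F ≃+* F} {π : Equiv.Perm ι} (hσ : ∀ i, σ (α i) = α (π i)) (i : ι) :
    σ.symm (α i) = α (π⁻¹ i) := by
  rw [RingEquiv.symm_apply_eq, hσ]
  simp

theorem gPt_surj {σ : F ≃+* F} {π : Equiv.Perm ι} (hσ : ∀ i, σ (α i) = α (π i)) :
    Function.Surjective (gPt hσ) := by
  intro P
  exact ⟨gPt (symm_fix hσ) P, Pt.ext (σ.apply_symm_apply _) (σ.apply_symm_apply _)⟩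

theorem gP_inj {σ : F ≃+* F} {π : Equiv.Perm ι} (hσ : ∀ i, σ (α i) = α (π i)) :
    Function.Injective (gP hσ) :=
  Option.map_injective (gPt_inj hσ)

theorem gP_surj {σ : F ≃+* F} {π : Equiv.Perm ι} (hσ : ∀ i, σ (α i) = α (π i)) :
    Function.Surjective (gP hσ) := by
  intro P
  cases P with
  | none => exact ⟨none, rfl⟩
  | some P =>
    obtain ⟨Q, rfl⟩ := gPt_surj hσ P
    exact ⟨some Q, rfl⟩

theorem gcc {σ : F ≃+* F} {π : Equiv.Perm ι} (hσ : ∀ i, σ (α i) = α (π i)) (a : F) :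
    σ (cc α a) = cc α (σ a) := by
  classical
  unfold cc
  rw [map_prod]
  refine Finset.prod_bij (fun i _ => π i) ?_ ?_ ?_ ?_
  · intro i hi
    simp only [Finset.mem_filter, Finset.mem_univ, true_and] at hi ⊢
    rw [← hσ i, Ne, σ.injective.eq_iff]
    exact hi
  · intro i _ j _ h
    exact π.injective h
  · intro i hi
    simp only [Finset.mem_filter, Finset.mem_univ, true_and] at hi
    refine ⟨π⁻¹ i, ?_, by simp⟩
    simp only [Finset.mem_filter, Finset.mem_univ, true_and]
    intro h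
    apply hi
    have h1 := hσ (π⁻¹ i)
    rw [h] at h1
    rw [h1]
    simp
  · intro i _
    rw [map_sub, hσ]

theorem gzC {σ : F ≃+* F} {π : Equiv.Perm ι} (hσ : ∀ i, σ (α i) = α (π i))
    (P : Option (Pt α)) : cf (σ : F →+* F) (zC P) = zC (gP hσ P) := by
  cases P with
  | none =>
    change cf (σ : F →+* F) (single (-2) 1) = single (-2) 1
    rw [cf_single, map_one]
  | some P =>
    change _ = zC (some (gPt hσ P))
    by_cases hb : P.b = 0
    · have hb' : (gPt hσ P).b = 0 := by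
        change σ P.b = 0
        rw [hb, map_zero]
      rw [zC_ram hb, zC_ram hb', map_add, cf_C, cf_single]
      congr 2
      exact gcc hσ _
    · have hb' : (gPt hσ P).b ≠ 0 := by
        change σ P.b ≠ 0
        rwa [Ne, map_eq_zero_iff σ σ.injective]
      rw [zC_unr hb, zC_unr hb', map_add, cf_C, cf_single, map_one]
      rfl

theorem gkC {σ : F ≃+* F} {π : Equiv.Perm ι} (hσ : ∀ i, σ (α i) = α (π i))
    (P : Option (Pt α)) : kC (gP hσ P) = kC P ∧ eC (gP hσ P) = σ (eC P) := by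
  classical
  cases P with
  | none =>
    refine ⟨rfl, ?_⟩
    change (1 : F) = σ 1
    rw [map_one]
  | some P =>
    change kC (some (gPt hσ P)) = _ ∧ eC (some (gPt hσ P)) = _
    have h0 : (gPt hσ P).b = σ P.b := rfl
    have h1 : (gPt hσ P).a = σ P.a := rfl
    by_cases hb : P.b = 0
    · simp [kC, eC, h0, h1, hb, gcc hσ]
    · simp [kC, eC, h0, hb]

end

section

variable {F ι : Type*} [Field F] [Fintype ι] {α : ι → F} [IsAlgClosed F] [Hyp α]

omit [IsAlgClosed F] in
theorem gwC {σ : F ≃+* F} {π : Equiv.Perm ι} (hσ : ∀ i, σ (α i) = α (π i))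
    (P : Option (Pt α)) : cf (σ : F →+* F) (wC P) = wC (gP hσ P) := by
  have h1 := cf_LT (σ : F →+* F) (wC_LT P)
  have h2 := wC_LT (gP hσ P)
  have h3 : eC (gP hσ P) = (σ : F →+* F) (eC P) := (gkC hσ P).2
  rw [h3] at h2
  refine sqrt_unique (Hyp.two (α := α)) ?_ h1 h2
  rw [← map_mul, wC_mul, wC_mul, fP_eval₂, fP_eval₂, map_prod]
  have h : ∀ i, cf (σ : F →+* F) (zC P - HahnSeries.C (α i)) =
      zC (gP hσ P) - HahnSeries.C (α (π i)) := by
    intro i
    rw [map_sub, gzC hσ, cf_C]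
    congr 2
    exact hσ i
  rw [Finset.prod_congr rfl fun i _ => h i]
  exact Equiv.prod_comp π (fun i => zC (gP hσ P) - HahnSeries.C (α i))

theorem gφC {σ : F ≃+* F} {π : Equiv.Perm ι} (hσ : ∀ i, σ (α i) = α (π i))
    (P : Option (Pt α)) (x : FF α) :
    φC (gP hσ P) (gL hσ x) = cf (σ : F →+* F) (φC P x) := by
  have key : ∀ r : RatFunc F, eH (zC (gP hσ P)) (zC_ne _) (gR σ r) =
      cf (σ : F →+* F) (eH (zC P) (zC_ne P) r) := by
    intro r
    have h1 : (eH (zC (gP hσ P)) (zC_ne _)).comp (gR σ : RatFunc F →+* RatFunc F) =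
        (cf (σ : F →+* F)).comp (eH (zC P) (zC_ne P)) := by
      apply ratHom_ext
      · intro a
        rw [RingHom.comp_apply, RingHom.comp_apply, eH_pol, eval₂_C, cf_C]
        change eH _ _ (gR σ _) = _
        rw [gR_pol, Polynomial.map_C, eH_pol, eval₂_C]
      · rw [RingHom.comp_apply, RingHom.comp_apply, eH_pol, eval₂_X, gzC]
        change eH _ _ (gR σ _) = _
        rw [gR_pol, Polynomial.map_X, eH_pol, eval₂_X]
    exact congrArg (fun f => f r) h1
  rw [φC_apply, φC_apply, map_add, map_mul, gwC hσ, ← key, ← key]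
  rfl

theorem gDr {σ : F ≃+* F} {π : Equiv.Perm ι} (hσ : ∀ i, σ (α i) = α (π i)) (i : ι) :
    (Dr α i).mapDomain (gP hσ) = Dr α (π i) := by
  have h1 : gP hσ (some (rp α i)) = some (rp α (π i)) := by
    change some (gPt hσ (rp α i)) = some (rp α (π i))
    congr 1
    exact Pt.ext (hσ i) (map_zero σ)
  rw [Dr, Finsupp.mapDomain_add, Finsupp.mapDomain_single, Finsupp.mapDomain_single, h1]
  rfl

theorem evP_gRg {σ : F ≃+* F} {π : Equiv.Perm ι} (hσ : ∀ i, σ (α i) = α (π i)) (P : Pt α)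
    (x : RR α) : evP (gPt hσ P) (gRg (pm_fix hσ) x) = σ (evP P x) := by
  rw [evP_apply, evP_apply, map_add, map_mul]
  have h1 : ∀ q : F[X], (q.map (σ : F →+* F)).eval (σ P.a) = σ (q.eval P.a) := by
    intro q
    have := Polynomial.eval_map_apply (f := (σ : F →+* F)) (p := q) (x := P.a)
    exact this
  change (x.re.map (σ : F →+* F)).eval (σ P.a) + (x.im.map (σ : F →+* F)).eval (σ P.a) * σ P.b = _
  rw [h1, h1]

theorem map_mP {σ : F ≃+* F} {π : Equiv.Perm ι} (hσ : ∀ i, σ (α i) = α (π i)) (P : Pt α) :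
    (mP P).map (gRg (pm_fix hσ) : RR α →+* RR α) = mP (gPt hσ P) := by
  ext r
  rw [mem_mP]
  constructor
  · intro hr
    obtain ⟨s, hs, rfl⟩ := (Ideal.mem_map_of_equiv (gRg (pm_fix hσ)) r).1 hr
    rw [mem_mP] at hs
    rw [evP_gRg, hs, map_zero]
  · intro hr
    refine (Ideal.mem_map_of_equiv (gRg (pm_fix hσ)) r).2 ⟨(gRg (pm_fix hσ)).symm r, ?_,
      (gRg (pm_fix hσ)).apply_symm_apply r⟩
    rw [mem_mP]
    apply σ.injective
    rw [← evP_gRg hσ, RingEquiv.apply_symm_apply, hr, map_zero]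

/-- The action on the class group. -/
noncomputable def gA {σ : F ≃+* F} {π : Equiv.Perm ι} (hσ : ∀ i, σ (α i) = α (π i)) :
    Additive (ClassGroup (RR α)) →+ Additive (ClassGroup (RR α)) :=
  (ClassGroup.mulEquiv (gRg (pm_fix hσ))).toMonoidHom.toAdditive

theorem gA_cl {σ : F ≃+* F} {π : Equiv.Perm ι} (hσ : ∀ i, σ (α i) = α (π i))
    (P : Option (Pt α)) : gA hσ (cl P) = cl (gP hσ P) := by
  cases P with
  | none => exact map_zero _
  | some P =>
    change Additive.ofMul (ClassGroup.mulEquiv (gRg (pm_fix hσ)) (ClassGroup.mk0 _)) =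
      Additive.ofMul (ClassGroup.mk0 _)
    rw [mulEquiv_mk0]
    congr 2
    exact Subtype.ext (map_mP hσ P)

/-- The actions are compatible. -/
theorem isAct {σ : F ≃+* F} {π : Equiv.Perm ι} (hσ : ∀ i, σ (α i) = α (π i)) :
    IsAct (crv α) (Th α) (gL hσ) σ (gP hσ) (gA hσ) where
  φ P x := gφC hσ P x
  cls D := by
    induction D using Finsupp.induction_linear with
    | zero => rw [Finsupp.mapDomain_zero, map_zero, map_zero]
    | add D D' h h' => rw [Finsupp.mapDomain_add, map_add, map_add, map_add, h, h']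
    | single P k =>
      rw [Finsupp.mapDomain_single, Th_single, Th_single, map_zsmul, gA_cl]
  inj := gP_inj hσ
  surj := gP_surj hσ

end

end Pool.Agent.N171.Pm
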