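import Mathlib
import Pool.Agent.N171.PmGal
import Pool.Agent.N171.Al6
import Pool.Agent.N171.AsmW

/-!
# The frame of the Tate module of a hyperelliptic Jacobian
-/

set_option linter.unusedSectionVars false

namespace Pool.Agent.N171.Pm

open Polynomial PadicInt TensorProduct Pool.Agent.N171 Pool.Agent.N171.Al Pool.Agent.H204R3.GP

noncomputable section

/-! ### lifts to the Tate module -/

section lift

variable {M : Type*} [AddCommGroup M]

theorem tm_lift_pow (hdiv : ∀ x : M, ∃ y, 2 • y = x) (m : ℕ) {x : M} (hx : 2 ^ m • x = 0) :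
    ∃ a : TateMod 2 M, a.1 m = x := by
  choose g hg using hdiv
  let s : ℕ → M := fun n => Nat.rec x (fun _ y => g y) n
  refine ⟨⟨fun n => if n ≤ m then 2 ^ (m - n) • x else s (n - m), ?_, fun n => ?_⟩, ?_⟩
  · rw [if_pos (Nat.zero_le _), Nat.sub_zero, hx]
  · by_cases h : n + 1 ≤ m
    · rw [if_pos h, if_pos (by omega), smul_smul, ← pow_succ']
      congr 2
      omega
    · rw [if_neg h]
      by_cases h' : n ≤ m
      · have h1 : n = m := by omega
        subst h1
        rw [if_pos h', Nat.sub_self, pow_zero, one_smul, Nat.add_sub_cancel_left]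
        exact hg x
      · rw [if_neg h']
        obtain ⟨k, hk⟩ : ∃ k, n - m = k + 1 := ⟨n - m - 1, by omega⟩
        have h1 : n + 1 - m = k + 1 + 1 := by omega
        rw [hk, h1]
        exact hg _
  · change (if m ≤ m then 2 ^ (m - m) • x else s (m - m)) = x
    rw [if_pos le_rfl, Nat.sub_self, pow_zero, one_smul]

theorem tm_half {a : TateMod 2 M} (h : a.1 1 = 0) : ∃ b : TateMod 2 M, a = (2 : ℤ_[2]) • b := by
  obtain ⟨b, hb⟩ := tm_shift' h
  exact ⟨b, by rw [← hb]; norm_num⟩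

theorem tm_sum {ι : Type*} (s : Finset ι) (f : ι → TateMod 2 M) (n : ℕ) :
    (∑ i ∈ s, f i).1 n = ∑ i ∈ s, (f i).1 n := map_sum (tmEv n : TateMod 2 M →+ M) f s

end lift

section frame

variable {F ι : Type*} [Field F] [Fintype ι] [DecidableEq ι] {α : ι → F} [IsAlgClosed F] [Hyp α]
  {A : Type*} [AddCommGroup A] {Θ : (Option (Pt α) →₀ ℤ) →+ A} (hA : IsClasses (crv α) Θ)
  (h2 : (2 : F) ≠ 0)

/-- The pairing. -/
abbrev Bx : TateMod 2 A →ₗ[ℤ_[2]] TateMod 2 A →ₗ[ℤ_[2]] ℤ_[2] := BB (isCurve_crv α) hA h2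

include hA in
theorem finite_T : Module.Finite ℤ_[2] (TateMod 2 A) := tm_finite (finite_two hA)

theorem Bx_unit (a b : TateMod 2 A) :
    IsUnit (Bx hA h2 a b) ↔ e (crv α) Θ 2 (a.1 1) (b.1 1) ≠ 1 := by
  rw [isUnit_iff_toZModPow, Ne, BB_mod]

/-- The frame. -/
theorem exists_frame : ∃ D : ι → TateMod 2 A, (∀ i, (D i).1 1 = Θ (Dr α i)) ∧
    Frame (Bx hA h2) D := by
  choose D hD using fun i => tm_lift (two_div hA) (two_Dr hA i)
  refine ⟨D, hD, ⟨fun x => BB_self _ _ _ x, fun v hv => ?_, fun i j hij => ?_, ?_, fun x => ?_⟩⟩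
  · have h0 : v.1 1 = 0 := by
      apply eq_zero_of_e2 hA
      · have h := tm_tors v 1
        rw [pow_one] at h
        exact h
      · intro j
        have h1 := hv (D j)
        rw [Bx_unit, not_not, hD] at h1
        exact h1
    obtain ⟨b, hb⟩ := tm_half h0
    exact ⟨b, hb.symm⟩
  · rw [Bx_unit, hD, hD, e_Dr hA hij]
    exact neg_one_ne h2
  · refine tm_half ?_
    rw [tm_sum, Finset.sum_congr rfl fun i _ => hD i, sum_Dr hA]
  · obtain ⟨S, hS⟩ := exists_DS hA (x := x.1 1) (by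
      have h := tm_tors x 1
      rwa [pow_one] at h)
    obtain ⟨b, hb⟩ := tm_half (a := x - ∑ i ∈ S, D i) (by
      change x.1 1 - (∑ i ∈ S, D i).1 1 = 0
      rw [tm_sum, Finset.sum_congr rfl fun i _ => hD i, hS, DS, sub_self])
    rw [sub_eq_iff_eq_add] at hb
    rw [hb]
    refine Submodule.add_mem _ (Submodule.subset_span (Or.inr ⟨b, rfl⟩)) ?_
    exact Submodule.sum_mem _ fun i _ => Submodule.subset_span (Or.inl ⟨i, rfl⟩)

theorem rr_of_one {D : ι → TateMod 2 A} {a b : TateMod 2 A} (h : a.1 1 = b.1 1) :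
    rr (Bx hA h2) D a = rr (Bx hA h2) D b := by
  have := finite_T hA
  obtain ⟨z, hz⟩ := tm_half (a := a - b) (by
    change a.1 1 - b.1 1 = 0
    rw [h, sub_self])
  rw [sub_eq_iff_eq_add] at hz
  rw [hz, rr_add, rr_two, zero_add]

end frame

/-! ### the action of the Galois group -/

section gal

variable {K F ι : Type*} [Field K] [Field F] [Algebra K F] [Fintype ι] [DecidableEq ι]
  {α : ι → F} [Hyp α]

/-- The action on the class group of the coordinate ring. -/
def actG {g : F[X]} [IsDomain (RG g)]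
    (hg : ∀ s : F ≃ₐ[K] F, g.map ((s : F ≃+* F) : F →+* F) = g) (s : F ≃ₐ[K] F) :
    ClG (RG g) →+ ClG (RG g) := clMap (gRg (hg s))

theorem actG_one {g : F[X]} [IsDomain (RG g)]
    (hg : ∀ s : F ≃ₐ[K] F, g.map ((s : F ≃+* F) : F →+* F) = g) (x : ClG (RG g)) :
    actG hg 1 x = x := by
  have h1 : gRg (hg 1) = RingEquiv.refl (RG g) :=
    RingEquiv.ext fun r => QuadraticAlgebra.ext Polynomial.map_id Polynomial.map_id
  have h2 := clMap_refl (R := RG g) x
  rw [← h1] at h2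
  exact h2

theorem actG_mul {g : F[X]} [IsDomain (RG g)]
    (hg : ∀ s : F ≃ₐ[K] F, g.map ((s : F ≃+* F) : F →+* F) = g) (s s' : F ≃ₐ[K] F)
    (x : ClG (RG g)) : actG hg (s * s') x = actG hg s (actG hg s' x) := by
  have h1 : gRg (hg (s * s')) = (gRg (hg s') : RG g ≃+* RG g).trans (gRg (hg s)) := by
    refine RingEquiv.ext fun r => ?_
    have h2 : ∀ p : F[X], p.map (((s * s' : F ≃ₐ[K] F) : F ≃+* F) : F →+* F) =
        (p.map ((s' : F ≃+* F) : F →+* F)).map ((s : F ≃+* F) : F →+* F) := by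
      intro p
      rw [Polynomial.map_map]
      rfl
    exact QuadraticAlgebra.ext (h2 r.re) (h2 r.im)
  have h2 := clMap_trans (gRg (hg s') : RG g ≃+* RG g) (gRg (hg s)) x
  rw [← h1] at h2
  exact h2

/-- The representation on the Tate module. -/
def rhoG {g : F[X]} [IsDomain (RG g)]
    (hg : ∀ s : F ≃ₐ[K] F, g.map ((s : F ≃+* F) : F →+* F) = g) :
    Representation ℤ_[2] (F ≃ₐ[K] F) (TateMod 2 (ClG (RG g))) where
  toFun s := tmMap (actG hg s)
  map_one' := LinearMap.ext fun _ => tm_ext fun _ => actG_one hg _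
  map_mul' s s' := LinearMap.ext fun _ => tm_ext fun _ => actG_mul hg s s' _

theorem exists_perm (hg : ∀ s : F ≃ₐ[K] F, (fP α).map ((s : F ≃+* F) : F →+* F) = fP α)
    (s : F ≃ₐ[K] F) : ∃ π : Equiv.Perm ι, ∀ i, (s : F ≃+* F) (α i) = α (π i) := by
  have h1 : ∀ i, ∃ j, s (α i) = α j := by
    intro i
    have h2 : (fP α).eval (s (α i)) = 0 := by
      have h3 := Polynomial.eval_map_apply (f := ((s : F ≃+* F) : F →+* F)) (p := fP α) (x := α i)
      rw [hg s, fP_eval (α i), Finset.prod_eq_zero (Finset.mem_univ i) (sub_self _), map_zero] at h3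
      exact h3
    rw [fP_eval] at h2
    obtain ⟨j, -, hj⟩ := Finset.prod_eq_zero_iff.1 h2
    exact ⟨j, sub_eq_zero.1 hj⟩
  choose p hp using h1
  have hinj : Function.Injective p := by
    intro i j hij
    apply Hyp.inj (α := α)
    apply s.injective
    rw [hp, hp, hij]
  exact ⟨Equiv.ofBijective p (Finite.injective_iff_bijective.1 hinj), hp⟩

variable [IsAlgClosed F]

/-- The classes of the divisors. -/
def ThG (α : ι → F) [Hyp α] [IsDomain (RG (fP α))] :
    (Option (Pt α) →₀ ℤ) →+ ClG (RG (fP α)) :=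
  (Th α : _ →+ Additive (ClassGroup (RR α)))

theorem isClasses_ThG [IsDomain (RG (fP α))] : IsClasses (crv α) (ThG α) := isClasses_Th α

theorem isAct_G [IsDomain (RG (fP α))]
    (hg : ∀ s : F ≃ₐ[K] F, (fP α).map ((s : F ≃+* F) : F →+* F) = fP α) {s : F ≃ₐ[K] F}
    {π : Equiv.Perm ι} (hπ : ∀ i, (s : F ≃+* F) (α i) = α (π i)) :
    IsAct (crv α) (ThG α) (gL hπ) s (gP hπ) (actG hg s) := isAct hπ

/-- The action of the Galois group on the frame. -/
theorem exists_big [IsDomain (RG (fP α))] (h2 : (2 : F) ≠ 0)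
    (hg : ∀ s : F ≃ₐ[K] F, (fP α).map ((s : F ≃+* F) : F →+* F) = fP α)
    (h5 : 5 ≤ Fintype.card ι)
    (hbig : ∀ π : Equiv.Perm ι, Equiv.Perm.sign π = 1 → ∃ s : F ≃ₐ[K] F, ∀ i, s (α i) = α (π i)) :
    ∃ D : ι → TateMod 2 (ClG (RG (fP α))),
      haveI := finite_T (isClasses_ThG (α := α))
      Big (Bx (isClasses_ThG (α := α)) h2) D (rhoG hg) (cyc K F) := by
  obtain ⟨D, hD, hF⟩ := exists_frame (isClasses_ThG (α := α)) h2
  have := finite_T (isClasses_ThG (α := α))
  refine ⟨D, hF, fun s x y => ?_, fun π hπ => ?_, h5, Hyp.odd (α := α)⟩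
  · obtain ⟨π, hπ⟩ := exists_perm hg s
    exact BB_act (isCurve_crv α) isClasses_ThG h2 (isAct_G hg hπ) x y
  · obtain ⟨s, hs⟩ := hbig π hπ
    refine ⟨s, fun i => rr_of_one _ h2 ?_⟩
    have h1 := (isAct_G hg (s := s) (π := π) hs).cls (Dr α i)
    rw [gDr (σ := (s : F ≃+* F)) hs] at h1
    rw [hD, h1, ← hD]
    rfl

/-- The elements that act trivially on the points of order two. -/
theorem rho_two [IsDomain (RG (fP α))]
    (hg : ∀ s : F ≃ₐ[K] F, (fP α).map ((s : F ≃+* F) : F →+* F) = fP α) {s : F ≃ₐ[K] F}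
    (hs : ∀ x : ClG (RG (fP α)), 2 • x = 0 → actG hg s x = x) :
    ∃ N, rhoG hg s = 1 + (2 : ℤ_[2]) • N := by
  have := finite_T (isClasses_ThG (α := α))
  let b := Module.Free.chooseBasis ℤ_[2] (TateMod 2 (ClG (RG (fP α))))
  choose w hw using fun i => tm_half (a := rhoG hg s (b i) - b i) (by
    change actG hg s ((b i).1 1) - (b i).1 1 = 0
    rw [hs, sub_self]
    have h := tm_tors (b i) 1
    rwa [pow_one] at h)
  refine ⟨b.constr ℤ_[2] w, b.ext fun i => ?_⟩
  rw [LinearMap.add_apply, LinearMap.smul_apply, Module.Basis.constr_basis, ← hw]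
  exact (add_sub_cancel _ _).symm

/-- The elements that are scalar modulo `2 ^ m` act as scalars on the points of order `2 ^ m`. -/
theorem rho_scalar [IsDomain (RG (fP α))]
    (hg : ∀ s : F ≃ₐ[K] F, (fP α).map ((s : F ≃+* F) : F →+* F) = fP α) {s : F ≃ₐ[K] F} {m : ℕ}
    (h : ∃ (a : ℤ_[2]) (Z : Module.End ℤ_[2] (TateMod 2 (ClG (RG (fP α))))),
      rhoG hg s = a • 1 + (2 : ℤ_[2]) ^ m • Z) :
    ∃ a : ℕ, ∀ x : ClG (RG (fP α)), 2 ^ m • x = 0 → actG hg s x = a • x := by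
  obtain ⟨a, Z, h⟩ := h
  obtain ⟨k, hk⟩ := exists_rep_nat a m
  refine ⟨k, fun x hx => ?_⟩
  obtain ⟨c, rfl⟩ := tm_lift_pow (two_div (isClasses_ThG (α := α))) m hx
  have h1 : rhoG hg s c = a • c + (2 : ℤ_[2]) ^ m • Z c := by
    rw [h]
    rfl
  have h3 := congrArg (fun y => tmEv m y) h1
  rw [map_add] at h3
  have h4 : tmEv m (a • c) = k • c.1 m := tm_smul_eq hk c
  have h5 : tmEv m ((2 : ℤ_[2]) ^ m • Z c) = 0 := by
    have h6 := tm_eval_pow_smul (p := 2) m (Z c)
    have h7 : (((2 : ℕ) : ℤ_[2])) = 2 := by norm_num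
    rw [h7] at h6
    exact h6
  rw [h4, h5, add_zero] at h3
  exact h3

end gal

/-! ### the representation on the values -/

section lat

variable {K F W : Type*} [Field K] [Field F] [Algebra K F] [AddCommGroup W] [Module ℚ_[2] W]

theorem lat_pow {τ : Representation ℚ_[2] (F ≃ₐ[K] F) W} {d : ℕ}
    {b : Module.Basis (Fin d) ℚ_[2] W} {t : (F ≃ₐ[K] F) →* Matrix (Fin d) (Fin d) ℤ_[2]}
    (ht : ∀ s i, τ s (b i) = ∑ j, algebraMap ℤ_[2] ℚ_[2] (t s j i) • b j) {s : F ≃ₐ[K] F} {m : ℕ}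
    (hs : TrivMod b (τ s) m) : ∃ Z, t s = 1 + (2 : ℤ_[2]) ^ m • Z := by
  have hinj : Function.Injective (algebraMap ℤ_[2] ℚ_[2]) :=
    FaithfulSMul.algebraMap_injective _ _
  choose y hy using hs
  refine ⟨Matrix.of fun j i => y i j, ?_⟩
  ext j i
  apply hinj
  change algebraMap ℤ_[2] ℚ_[2] (t s j i) =
    algebraMap ℤ_[2] ℚ_[2] ((1 : Matrix (Fin d) (Fin d) ℤ_[2]) j i + 2 ^ m * y i j)
  have h1 : algebraMap ℤ_[2] ℚ_[2] (t s j i) = b.repr (τ s (b i)) j := by
    rw [ht, map_sum, Finsupp.finsetSum_apply, Finset.sum_eq_single j]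
    · rw [map_smul, Finsupp.smul_apply, Module.Basis.repr_self, Finsupp.single_eq_same,
        smul_eq_mul, mul_one]
    · intro k _ hk
      rw [map_smul, Finsupp.smul_apply, Module.Basis.repr_self, Finsupp.single_eq_of_ne hk.symm,
        smul_zero]
    · intro h
      exact absurd (Finset.mem_univ _) h
  rw [h1, hy, Matrix.one_apply, map_add, map_mul, map_pow, map_ofNat]
  congr 1
  by_cases h : i = j
  · rw [if_pos h, if_pos h.symm, map_one]
  · rw [if_neg h, if_neg (Ne.symm h), map_zero]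

end lat

end

end Pool.Agent.N171.Pm
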