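import Mathlib
import Pool.Agent.N171.Defs

/-!
# Rational Tate modules and the Tate classes generated by divisors

The definitions used in the statement of the final theorem: the rational 2-adic Tate module `Vt M` of an
abelian group `M`, the representation of a group which acts on `M`, and the Tate classes on the powers
of `V`.
-/

set_option linter.unusedSectionVars false

namespace Pool.Agent.N171

open TensorProduct Pool.Agent.H204R3.GP

noncomputable section

section gen

variable {k V Γ Q : Type*} [Field k] [AddCommGroup V] [Module k V] [Group Γ]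

/-- An alternating, nondegenerate form on which the group acts through the character `χ`. -/
structure IsWeil (ρ : Representation k Γ V) (χ : Γ →* k) (ω : V →ₗ[k] V →ₗ[k] k) : Prop where
  alt : ∀ v, ω v v = 0
  nondeg : ∀ v, (∀ w, ω w v = 0) → v = 0
  equiv : ∀ s v w, ω (ρ s v) (ρ s w) = χ s * ω v w

/-- On all the powers `V ^ n`, all Tate classes are linear combinations of wedge products of the
alternating forms `ω q (v i) (w j) + ω q (v j) (w i)`. -/
def TateLef (ρ : Representation k Γ V) (χ : Γ →* k) (ω : Q → V →ₗ[k] V →ₗ[k] k) : Prop :=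
  ∀ (n m : ℕ) (f : (Fin n → V) [⋀^Fin m × Fin 2]→ₗ[k] k), IsTateClass ρ χ m f →
    f ∈ Submodule.span k {g : (Fin n → V) [⋀^Fin m × Fin 2]→ₗ[k] k |
      ∃ B : Fin m → (Fin n → V) [⋀^Fin 2]→ₗ[k] k, (∀ l, IsLef ω (B l)) ∧ IsWedge B g}

end gen

section rat

variable (M : Type*) [AddCommGroup M]

/-- The rational 2-adic Tate module `ℚ_2 ⊗ T_2 M`. -/
def Vt : Type _ := ℚ_[2] ⊗[ℤ_[2]] TateMod 2 M

instance : AddCommGroup (Vt M) :=
  (TensorProduct.addCommGroup : AddCommGroup (ℚ_[2] ⊗[ℤ_[2]] TateMod 2 M))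

instance : Module ℚ_[2] (Vt M) :=
  (TensorProduct.leftModule : Module ℚ_[2] (ℚ_[2] ⊗[ℤ_[2]] TateMod 2 M))

variable {M} {M' : Type*} [AddCommGroup M']

/-- The map of the rational Tate modules of a homomorphism. -/
def vMap (f : M →+ M') : Vt M →ₗ[ℚ_[2]] Vt M' :=
  (LinearMap.baseChange ℚ_[2] (tmMap f) :
    (ℚ_[2] ⊗[ℤ_[2]] TateMod 2 M) →ₗ[ℚ_[2]] (ℚ_[2] ⊗[ℤ_[2]] TateMod 2 M'))

theorem vMap_id : vMap (AddMonoidHom.id M) = LinearMap.id := by
  have h1 : (tmMap (AddMonoidHom.id M) : TateMod 2 M →ₗ[ℤ_[2]] TateMod 2 M) = LinearMap.id :=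
    LinearMap.ext fun a => tm_ext fun n => rfl
  unfold vMap
  rw [h1]
  exact LinearMap.baseChange_id

theorem vMap_comp {M'' : Type*} [AddCommGroup M''] (g : M' →+ M'') (f : M →+ M') :
    vMap (g.comp f) = (vMap g).comp (vMap f) := by
  have h1 : (tmMap (g.comp f) : TateMod 2 M →ₗ[ℤ_[2]] TateMod 2 M'') =
      (tmMap g).comp (tmMap f) :=
    LinearMap.ext fun a => tm_ext fun n => rfl
  unfold vMap
  rw [h1]
  exact LinearMap.baseChange_comp _ _

/-- The homomorphism given by an element of a group which acts. -/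
def act {Γ : Type*} [Group Γ] [DistribMulAction Γ M] (s : Γ) : M →+ M where
  toFun x := s • x
  map_zero' := smul_zero s
  map_add' := smul_add s

variable (Γ : Type*) [Group Γ]

variable (M) in
/-- The representation on the rational Tate module of a group which acts on `M`. -/
def vRep [DistribMulAction Γ M] : Representation ℚ_[2] Γ (Vt M) where
  toFun s := vMap (act s)
  map_one' := by
    have h1 : (act (1 : Γ) : M →+ M) = AddMonoidHom.id M :=
      AddMonoidHom.ext fun x => one_smul Γ x
    rw [h1, vMap_id]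
    rfl
  map_mul' s t := by
    have h1 : (act (s * t) : M →+ M) = (act s).comp (act t) :=
      AddMonoidHom.ext fun x => mul_smul s t x
    rw [h1, vMap_comp]
    rfl

end rat

section prod

variable {K : Type*} [Field K] (F : Type*) [Field F] [Algebra K F] {Q : Type*} {ι : Q → Type*}
  [∀ q, Fintype (ι q)] (α : ∀ q, ι q → K) [∀ q, Hyp (α q)]

/-- The product of the Jacobians. -/
def JJ : Type _ := ∀ q, Jac F (α q)

instance : AddCommGroup (JJ F α) := (Pi.addCommGroup : AddCommGroup (∀ q, Jac F (α q)))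

instance : DistribMulAction (F ≃ₐ[K] F) (JJ F α) where
  smul σ x := fun q => σ • x q
  one_smul x := funext fun q => one_smul (F ≃ₐ[K] F) (x q)
  mul_smul σ τ x := funext fun q => mul_smul σ τ (x q)
  smul_zero σ := funext fun _ => smul_zero σ
  smul_add σ x y := funext fun q => smul_add σ (x q) (y q)

/-- The projection to a factor. -/
def prJ (q : Q) : JJ F α →+ Jac F (α q) := (Pi.evalAddMonoidHom (fun q => Jac F (α q)) q)

/-- The pull back to the product of a form on the rational Tate module of a factor. -/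
def pull (q : Q) (ω : Vt (Jac F (α q)) →ₗ[ℚ_[2]] Vt (Jac F (α q)) →ₗ[ℚ_[2]] ℚ_[2]) :
    Vt (JJ F α) →ₗ[ℚ_[2]] Vt (JJ F α) →ₗ[ℚ_[2]] ℚ_[2] :=
  ω.compl₁₂ (vMap (prJ F α q)) (vMap (prJ F α q))

end prod

variable (K F : Type*) [Field K] [Field F] [Algebra K F] in
/-- The cyclotomic character with values in `ℚ_2`. -/
def cycQ : (F ≃ₐ[K] F) →* ℚ_[2] := ratChar (cyc K F)

end

end Pool.Agent.N171
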