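import Mathlib
import Pool.Agent.N171.AsmW
import Pool.Agent.N171.St

/-!
# Tate classes on the product of powers of a Jacobian and any variety: one Jacobian
-/

set_option linter.unusedSectionVars false

namespace Pool.Agent.N171

open Polynomial PadicInt TensorProduct Pool.Agent.H204R3.GP

noncomputable section

section transfer

variable {k V V' W Γ Q : Type*} [Field k] [AddCommGroup V] [Module k V] [AddCommGroup V']
  [Module k V'] [AddCommGroup W] [Module k W] [Group Γ]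
  {ρ : Representation k Γ V} {ρ' : Representation k Γ V'} {τ : Representation k Γ W}
  (E : V' →ₗ[k] V) (hE : ∀ s x, E (ρ' s x) = ρ s (E x))

include hE in
theorem tateV_comp {n : ℕ} {κ : Type*} {f : (Fin n → V) [⋀^κ]→ₗ[k] W} (hf : IsTateV ρ τ f) :
    IsTateV ρ' τ (f.compLinearMap (E.compLeft (Fin n))) := by
  obtain ⟨Δ, hΔ, hf⟩ := hf
  refine ⟨Δ, hΔ, fun s hs v => ?_⟩
  have h1 := hf s hs (fun l i => E (v l i))
  simp only [← hE] at h1
  exact h1

theorem prodW_comp (S : V →ₗ[k] V') (hES : ∀ x, E (S x) = x) {χ : Γ →* k}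
    {ω : Q → V →ₗ[k] V →ₗ[k] k} {n m : ℕ} {h : (Fin n → V') [⋀^Fin m × Fin 2]→ₗ[k] W}
    (hh : IsProdW χ τ (fun q => (ω q).compl₁₂ E E) h) :
    IsProdW χ τ ω (h.compLinearMap (S.compLeft (Fin n))) := by
  obtain ⟨B, g, w, hB, hg, hw, hgw⟩ := hh
  refine ⟨fun l => (B l).compLinearMap (S.compLeft (Fin n)), g.compLinearMap (S.compLeft (Fin n)),
    w, fun l => ?_, fun v => ?_, hw, fun v => hgw _⟩
  · obtain ⟨q, i, j, hBl⟩ := hB l
    refine ⟨q, i, j, fun v u => ?_⟩
    have h1 := hBl (fun i => S (v i)) (fun i => S (u i))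
    simp only [LinearMap.compl₁₂_apply, hES] at h1
    rw [← h1, AlternatingMap.compLinearMap_apply]
    congr 1
    funext l
    fin_cases l <;> rfl
  · rw [AlternatingMap.compLinearMap_apply, hg]
    refine Finset.sum_congr rfl fun σ _ => ?_
    congr 1
    refine Finset.prod_congr rfl fun l _ => ?_
    rw [AlternatingMap.compLinearMap_apply]
    congr 1
    funext l
    fin_cases l <;> rfl

end transfer

section one

variable {K : Type*} [Field K] {F : Type*} [Field F] [Algebra K F] [IsAlgClosed F]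
  {ι : Type*} [Fintype ι] [DecidableEq ι] (α : ι → K) [hα : Hyp α]
  {κ : Type*} (I : κ → Finset ι) (hI : ∀ k, Even (I k).card)

instance instHypConst (u : Unit) : Hyp ((fun _ : Unit => α) u) := hα

/-- The Weil pairing of one Jacobian. -/
abbrev B1 (h2 : (2 : F) ≠ 0) :
    TateMod 2 (Jac F α) →ₗ[ℤ_[2]] TateMod 2 (Jac F α) →ₗ[ℤ_[2]] ℤ_[2] :=
  Bq (fun _ : Unit => α) h2 ()

include hI in
/-- The theorem on one Jacobian and any representation. -/
theorem mainW1 (h2 : (2 : F) ≠ 0) (l : κ → (Kˣ →* ℤˣ))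
    (hspan : ∀ (i j : ι), i ≠ j →
      ind {i, j} ∈ AddSubgroup.closure (Set.range fun k => ind (I k)))
    (hconn : ∀ (k k' : κ),
      Relation.ReflTransGen (fun k k' => Odd (I k ∩ I k').card) k k')
    (hlq : ∀ k (i j : ι) (u : Kˣ), (u : K) = α i - α j →
      l k u = if i ∈ I k ∧ j ∈ I k then -1 else 1)
    {W : Type*} [AddCommGroup W] [Module ℚ_[2] W] {τ : Representation ℚ_[2] (F ≃ₐ[K] F) W}
    (hτ : Indep τ l) :
    (∀ (n m : ℕ) (f : (Fin n → ℚ_[2] ⊗[ℤ_[2]] TateMod 2 (Jac F α)) [⋀^Fin m × Fin 2]→ₗ[ℚ_[2]] W),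
      IsTateV (ratRep (tateRep1 F α)) τ f → f ∈ Submodule.span ℚ_[2]
        {h | IsProdW (ratChar (cyc K F)) τ (fun _ : Unit => BV (B1 α h2)) h}) ∧
    (∀ (n a : ℕ) (f : (Fin n → ℚ_[2] ⊗[ℤ_[2]] TateMod 2 (Jac F α)) [⋀^Fin a]→ₗ[ℚ_[2]] W),
      Odd a → IsTateV (ratRep (tateRep1 F α)) τ f → f = 0) := by
  have hfi : Module.Finite ℤ_[2] (TateMod 2 (Jac F α)) := instFinOne (F := F) (fun _ : Unit => α) ()
  have hfr : Module.Free ℤ_[2] (TateMod 2 (Jac F α)) := instFreeOne (F := F) (fun _ : Unit => α) ()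
  obtain ⟨h3, h4⟩ := mainW (F := F) (fun _ : Unit => α) (fun _ => I) (fun _ => hI) τ h2
    (fun _ => l) (by
      obtain ⟨d, b, h0, h1⟩ := hτ
      exact ⟨d, b, h0, fun k => h1 k.2⟩) (fun _ => hspan) (fun _ => hconn) (fun _ => hlq)
    (fun q k r hr => absurd (Subsingleton.elim r q) hr)
  let E : (ℚ_[2] ⊗[ℤ_[2]] TT F (fun _ : Unit => α)) →ₗ[ℚ_[2]]
      (ℚ_[2] ⊗[ℤ_[2]] TateMod 2 (Jac F α)) :=
    LinearMap.baseChange ℚ_[2] (ev (fun _ : Unit => α) ())
  let S : (ℚ_[2] ⊗[ℤ_[2]] TateMod 2 (Jac F α)) →ₗ[ℚ_[2]]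
      (ℚ_[2] ⊗[ℤ_[2]] TT F (fun _ : Unit => α)) :=
    LinearMap.baseChange ℚ_[2] (sg (fun _ : Unit => α) ())
  have hES : ∀ x, E (S x) = x := by
    intro x
    have h5 : E.comp S = LinearMap.id := by
      refine ext_tmul fun x => ?_
      change (1 : ℚ_[2]) ⊗ₜ[ℤ_[2]] (ev (fun _ : Unit => α) () (sg (fun _ : Unit => α) () x)) =
        1 ⊗ₜ x
      rw [ev_sg]
    exact congrArg (fun f => f x) h5
  have hE : ∀ s x, E (ratRep (tateRep F (fun _ : Unit => α)) s x) =
      ratRep (tateRep1 F α) s (E x) := by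
    intro s x
    have h5 : E.comp (ratRep (tateRep F (fun _ : Unit => α)) s) =
        (ratRep (tateRep1 F α) s).comp E := by
      refine ext_tmul fun x => ?_
      rfl
    exact congrArg (fun f => f x) h5
  have hback : ∀ {n : ℕ} {μ : Type} (f : (Fin n → ℚ_[2] ⊗[ℤ_[2]] TateMod 2 (Jac F α))
      [⋀^μ]→ₗ[ℚ_[2]] W), (f.compLinearMap (E.compLeft (Fin n))).compLinearMap
        (S.compLeft (Fin n)) = f := by
    intro n μ f
    ext v
    rw [AlternatingMap.compLinearMap_apply, AlternatingMap.compLinearMap_apply]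
    congr 1
    funext l i
    exact hES (v l i)
  refine ⟨fun n m f hf => ?_, fun n a f ha hf => ?_⟩
  · have h5 := h3 n m _ (tateV_comp E hE hf)
    have h6 : ∀ g ∈ Submodule.span ℚ_[2] {h : (Fin n → ℚ_[2] ⊗[ℤ_[2]] TT F (fun _ : Unit => α))
        [⋀^Fin m × Fin 2]→ₗ[ℚ_[2]] W | IsProdW (ratChar (cyc K F)) τ
        (fun q => (BV (Bq (fun _ : Unit => α) h2 q)).compl₁₂
          (LinearMap.baseChange ℚ_[2] (ev (fun _ : Unit => α) q))
          (LinearMap.baseChange ℚ_[2] (ev (fun _ : Unit => α) q))) h},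
        g.compLinearMap (S.compLeft (Fin n)) ∈ Submodule.span ℚ_[2]
        {h | IsProdW (ratChar (cyc K F)) τ (fun _ : Unit => BV (B1 α h2)) h} := by
      intro g hg
      induction hg using Submodule.span_induction with
      | mem g hg =>
        exact Submodule.subset_span (prodW_comp E S hES
          (ω := fun _ : Unit => BV (B1 α h2)) hg)
      | zero => exact Submodule.zero_mem _
      | add a b _ _ ha hb => exact Submodule.add_mem _ ha hb
      | smul c a _ ha => exact Submodule.smul_mem _ c ha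
    have h7 := h6 _ h5
    rwa [hback] at h7
  · have h5 := h4 n a _ ha (tateV_comp E hE hf)
    rw [← hback f, h5]
    rfl

end one

end

end Pool.Agent.N171
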