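import Mathlib
import Pool.Agent.N171.FinW

/-!
# The converse: products of Lefschetz classes with Tate classes are Tate classes
-/

set_option linter.unusedSectionVars false

namespace Pool.Agent.N171

open TensorProduct Pool.Agent.H204R3.GP

noncomputable section

variable {k V W Γ : Type*} [Field k] [AddCommGroup V] [Module k V]
  [AddCommGroup W] [Module k W] [Group Γ]
  {ρ : Representation k Γ V} {χ : Γ →* k} {τ : Representation k Γ W}

theorem tateV_add {n : ℕ} {κ : Type*} {f g : (Fin n → V) [⋀^κ]→ₗ[k] W} (hf : IsTateV ρ τ f)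
    (hg : IsTateV ρ τ g) : IsTateV ρ τ (f + g) := by
  obtain ⟨Δ, hΔ, hf⟩ := hf
  obtain ⟨Δ', hΔ', hg⟩ := hg
  refine ⟨Δ ⊓ Δ', inferInstance, fun s hs v => ?_⟩
  rw [AlternatingMap.add_apply, AlternatingMap.add_apply, hf s hs.1, hg s hs.2, map_add]

theorem tateV_smul {n : ℕ} {κ : Type*} {f : (Fin n → V) [⋀^κ]→ₗ[k] W} (c : k)
    (hf : IsTateV ρ τ f) : IsTateV ρ τ (c • f) := by
  obtain ⟨Δ, hΔ, hf⟩ := hf
  refine ⟨Δ, hΔ, fun s hs v => ?_⟩
  rw [AlternatingMap.smul_apply, AlternatingMap.smul_apply, hf s hs, map_smul]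

theorem tateV_zero {n : ℕ} {κ : Type*} : IsTateV ρ τ (0 : (Fin n → V) [⋀^κ]→ₗ[k] W) :=
  ⟨⊤, inferInstance, fun s _ v => by
    rw [AlternatingMap.zero_apply, AlternatingMap.zero_apply, map_zero]⟩

theorem tateV_prod {Q : Type*} {ω : Q → V →ₗ[k] V →ₗ[k] k}
    (hω : ∀ q s u v, ω q (ρ s u) (ρ s v) = χ s * ω q u v) {n m : ℕ}
    {h : (Fin n → V) [⋀^Fin m × Fin 2]→ₗ[k] W} (hh : IsProdW χ τ ω h) : IsTateV ρ τ h := by
  obtain ⟨B, g, w, hB, hg, ⟨Δ, hΔ, hw⟩, hgw⟩ := hh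
  refine ⟨Δ, hΔ, fun s hs v => ?_⟩
  rw [hgw, hgw, lef_equiv ρ χ ω hω (Submodule.subset_span ⟨B, hB, hg⟩), map_smul, hw s hs,
    smul_smul, mul_comm]

theorem tateV_span {Q : Type*} {ω : Q → V →ₗ[k] V →ₗ[k] k}
    (hω : ∀ q s u v, ω q (ρ s u) (ρ s v) = χ s * ω q u v) {n m : ℕ}
    {f : (Fin n → V) [⋀^Fin m × Fin 2]→ₗ[k] W}
    (hf : f ∈ Submodule.span k {h | IsProdW χ τ ω h}) : IsTateV ρ τ f := by
  induction hf using Submodule.span_induction with
  | mem f hf => exact tateV_prod hω hf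
  | zero => exact tateV_zero
  | add a b _ _ ha hb => exact tateV_add ha hb
  | smul c a _ ha => exact tateV_smul c ha

end

end Pool.Agent.N171
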