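import Mathlib
import Pool.Agent.N171.PmAsm
import Pool.Agent.N171.StW
import Pool.Agent.N171.Fin

/-!
# Tate classes on the products of powers of a Jacobian with a large image modulo two
-/

set_option linter.unusedSectionVars false

namespace Pool.Agent.N171.Pm

open Polynomial PadicInt TensorProduct Pool.Agent.N171 Pool.Agent.N171.Al Pool.Agent.H204R3.GP

noncomputable section

variable {K F ι : Type*} [Field K] [Field F] [Algebra K F] [Fintype ι] [DecidableEq ι]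

section crit

variable {α : ι → F} [Hyp α] [IsAlgClosed F]

theorem isAct_fix [IsDomain (RG (fP α))]
    (hg : ∀ s : F ≃ₐ[K] F, (fP α).map ((s : F ≃+* F) : F →+* F) = fP α) {s : F ≃ₐ[K] F}
    (hs : ∀ i, (s : F ≃+* F) (α i) = α i) :
    IsAct (crv α) (ThG α) (N171.gL hs) s (N171.gP hs) (actG hg s) := N171.isAct hs

/-- The elements that fix the roots act trivially on the points of order two. -/
theorem fix_two [IsDomain (RG (fP α))]
    (hg : ∀ s : F ≃ₐ[K] F, (fP α).map ((s : F ≃+* F) : F →+* F) = fP α) {s : F ≃ₐ[K] F}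
    (hs : ∀ i, s (α i) = α i) (x : ClG (RG (fP α))) (hx : 2 • x = 0) : actG hg s x = x := by
  obtain ⟨S, rfl⟩ := exists_DS (isClasses_ThG (α := α)) hx
  rw [DS, map_sum]
  refine Finset.sum_congr rfl fun i _ => ?_
  rw [← (isAct_fix hg (s := s) hs).cls, N171.gDr (σ := (s : F ≃+* F)) hs]

/-- The criterion: a square root of `(α i - α j) (α i - α k)` is moved. -/
theorem crit (hg : ∀ s : F ≃ₐ[K] F, (fP α).map ((s : F ≃+* F) : F →+* F) = fP α)
    [IsDomain (RG (fP α))] {s : F ≃ₐ[K] F}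
    (hs : ∀ i, s (α i) = α i) {i j k : ι} {w : F} (hw : w ^ 2 = (α i - α j) * (α i - α k))
    (hsw : s w ≠ w) :
    ¬ ∃ a : ℕ, ∀ x : ClG (RG (fP α)), 2 ^ 2 • x = 0 → actG hg s x = a • x := by
  rintro ⟨a, ha⟩
  have hA := isClasses_ThG (α := α)
  have h2 : (2 : F) ≠ 0 := Hyp.two (α := α)
  have hw0 : w ≠ 0 := by
    rintro rfl
    exact hsw (map_zero s)
  have hij : i ≠ j := by
    rintro rfl
    rw [sub_self, zero_mul] at hw
    exact hw0 (pow_eq_zero_iff two_ne_zero |>.1 hw)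
  have hik : i ≠ k := by
    rintro rfl
    rw [sub_self, mul_zero] at hw
    exact hw0 (pow_eq_zero_iff two_ne_zero |>.1 hw)
  obtain ⟨q, hq⟩ := two_div hA (ThG α (Dr α i))
  have h20 := two_Dr hA i
  have hact := isAct_fix hg (s := s) hs
  have hsD : actG hg s (ThG α (Dr α i)) = ThG α (Dr α i) := fix_two hg hs _ h20
  have hsq := ha q (by rw [show (2 : ℕ) ^ 2 = 2 * 2 from rfl, mul_smul, hq, h20])
  have haD : a • ThG α (Dr α i) = ThG α (Dr α i) := by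
    rw [← hq, smul_comm, ← hsq, ← map_nsmul, hq, hsD]
  obtain ⟨c, hc⟩ : ∃ c, a = 2 * c + 1 := by
    rcases Nat.even_or_odd a with h | h
    · exfalso
      obtain ⟨c, rfl⟩ := h
      rw [← two_mul, mul_comm, mul_smul, h20, smul_zero] at haD
      have h3 := e_Dr hA hij
      rw [← haD, e_zero_left (isCurve_crv α) hA even_two (two_Dr hA j)] at h3
      exact neg_one_ne h2 h3.symm
    · exact h
  have hdiff : actG hg s q - q = c • ThG α (Dr α i) := by
    rw [hsq, hc, add_smul, one_smul, add_sub_cancel_right, mul_comm, mul_smul, hq]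
  have key : ∀ l, i ≠ l → ∃ v : Fˣ, (v : F) ^ 2 = α i - α l ∧
      (Units.map (s : F →* F) v) = (-1) ^ c * v := by
    intro l hil
    obtain ⟨-, v, hv, he⟩ := hact.half (isCurve_crv α) hA (deg_Dr i) hq (rep_Dr l)
      (N171.gDr (σ := (s : F ≃+* F)) hs i) (N171.gDr (σ := (s : F ≃+* F)) hs l)
      (N171.ghr (σ := (s : F ≃+* F)) hs l)
    rw [hdiff, e_nsmul_left (isCurve_crv α) hA even_two h20 (two_Dr hA l), e_Dr hA hil] at he
    refine ⟨v⁻¹, ?_, ?_⟩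
    · rw [← ev_hr hil, ← Units.val_pow_eq_pow_val, inv_pow, hv, inv_inv]
    · have h3 : Units.map (s : F →* F) v = (-1) ^ c * v := by
        rw [he, mul_assoc, inv_mul_cancel, mul_one]
        rfl
      rw [map_inv, h3, _root_.mul_inv, ← inv_pow, inv_neg, inv_one]
  obtain ⟨v, hv, hsv⟩ := key j hij
  obtain ⟨v', hv', hsv'⟩ := key k hik
  have h3 : s ((v : F) * v') = v * v' := by
    have h4 : Units.map (s : F →* F) (v * v') = v * v' := by
      rw [map_mul, hsv, hsv', mul_mul_mul_comm, ← mul_pow]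
      norm_num
    exact congrArg Units.val h4
  have h4 : (w - v * v') * (w + v * v') = 0 := by
    linear_combination hw - (α i - α k) * hv - (v : F) ^ 2 * hv'
  apply hsw
  rcases mul_eq_zero.1 h4 with h | h
  · rw [sub_eq_zero.1 h, h3]
  · rw [eq_neg_of_add_eq_zero_left h, map_neg, h3]

end crit

/-- The condition on the representation `τ`: some element of the group acts trivially on `J[2]` and on
the lattice modulo `2 ^ m`, but not by scalars on `J[2 ^ m]`. -/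
def CondG {W : Type*} [AddCommGroup W] [Module ℚ_[2] W] {g : F[X]} [IsDomain (RG g)]
    (hg : ∀ s : F ≃ₐ[K] F, g.map ((s : F ≃+* F) : F →+* F) = g)
    (τ : Representation ℚ_[2] (F ≃ₐ[K] F) W) : Prop :=
  ∃ (d : ℕ) (b : Module.Basis (Fin d) ℚ_[2] W), (∀ s, TrivMod b (τ s) 0) ∧
    ∃ (m : ℕ) (s : F ≃ₐ[K] F), (∀ x : ClG (RG g), 2 • x = 0 → actG hg s x = x) ∧
      TrivMod b (τ s) m ∧ ¬ ∃ a : ℕ, ∀ x : ClG (RG g), 2 ^ m • x = 0 → actG hg s x = a • x

theorem condG_of {W : Type*} [AddCommGroup W] [Module ℚ_[2] W] [IsAlgClosed F] {g : F[X]}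
    [IsDomain (RG g)] (hg : ∀ s : F ≃ₐ[K] F, g.map ((s : F ≃+* F) : F →+* F) = g) (α : ι → F)
    [Hyp α] (hα : g = fP α) (τ : Representation ℚ_[2] (F ≃ₐ[K] F) W)
    (h : ∃ (d : ℕ) (b : Module.Basis (Fin d) ℚ_[2] W), (∀ s, TrivMod b (τ s) 0) ∧
      ∃ s : F ≃ₐ[K] F, (∀ i, s (α i) = α i) ∧ TrivMod b (τ s) 2 ∧
        ∃ (i j k : ι) (w : F), w ^ 2 = (α i - α j) * (α i - α k) ∧ s w ≠ w) : CondG hg τ := by
  subst hα
  obtain ⟨d, b, hb, s, hs, hs4, i, j, k, w, hw, hsw⟩ := h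
  exact ⟨d, b, hb, 2, s, fun x hx => fix_two hg hs x hx, hs4, crit hg hs hw hsw⟩

universe w

/-- The theorem in terms of the representation on the Tate module. -/
theorem pm_main [IsAlgClosed F] {g : F[X]} [IsDomain (RG g)]
    (hg : ∀ s : F ≃ₐ[K] F, g.map ((s : F ≃+* F) : F →+* F) = g) (α : ι → F) [Hyp α]
    (hα : g = fP α) (h5 : 5 ≤ Fintype.card ι)
    (hbig : ∀ π : Equiv.Perm ι, Equiv.Perm.sign π = 1 →
      ∃ s : F ≃ₐ[K] F, ∀ i, s (α i) = α (π i)) :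
    ∃ ω : (ℚ_[2] ⊗[ℤ_[2]] TateMod 2 (ClG (RG g))) →ₗ[ℚ_[2]]
      (ℚ_[2] ⊗[ℤ_[2]] TateMod 2 (ClG (RG g))) →ₗ[ℚ_[2]] ℚ_[2],
      IsWeil (ratRep (rhoG hg)) (ratChar (cyc K F)) ω ∧
      ∀ (W : Type w) [AddCommGroup W] [Module ℚ_[2] W]
        (τ : Representation ℚ_[2] (F ≃ₐ[K] F) W), CondG hg τ →
        (∀ (n a : ℕ) (f : (Fin n → ℚ_[2] ⊗[ℤ_[2]] TateMod 2 (ClG (RG g))) [⋀^Fin a]→ₗ[ℚ_[2]] W),
          Odd a → IsTateV (ratRep (rhoG hg)) τ f → f = 0) ∧
        ∀ (n m : ℕ) (f : (Fin n → ℚ_[2] ⊗[ℤ_[2]] TateMod 2 (ClG (RG g)))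
            [⋀^Fin m × Fin 2]→ₗ[ℚ_[2]] W),
          IsTateV (ratRep (rhoG hg)) τ f ↔
            f ∈ Submodule.span ℚ_[2] {h | IsProdW (ratChar (cyc K F)) τ (fun _ : Unit => ω) h} := by
  subst hα
  have h2 : (2 : F) ≠ 0 := Hyp.two (α := α)
  have hfin := finite_T (isClasses_ThG (α := α))
  obtain ⟨D, hD⟩ := exists_big h2 hg h5 hbig
  have hw : IsWeil (ratRep (rhoG hg)) (ratChar (cyc K F))
      (BV (Bx (isClasses_ThG (α := α)) h2)) :=
    ⟨BV_alt _ hD.frame.alt, BV_nd _ hD.frame.nd, BV_inv (rhoG hg) (cyc K F) _ hD.inv⟩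
  refine ⟨BV (Bx (isClasses_ThG (α := α)) h2), hw, fun W _ _ τ hτ => ?_⟩
  obtain ⟨d, b, hb, m, s, h0, hm, hns⟩ := hτ
  obtain ⟨t, ht, -⟩ := lat_data hb
  have e1 := rho_two hg h0
  have e2 := lat_pow ht hm
  have e3 : ¬ ∃ (a : ℤ_[2]) (Z : Module.End ℤ_[2] (TateMod 2 (ClG (RG (fP α))))),
      rhoG hg s = a • 1 + (2 : ℤ_[2]) ^ m • Z := fun h => hns (rho_scalar hg h)
  exact ⟨fun n a f ha hf => absA_odd t hD e1 e2 e3 τ b ht ha f hf, fun n m f =>
    ⟨fun hf => absA_even t hD e1 e2 e3 τ b ht f hf,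
      fun hf => tateV_span (fun _ s u v => hw.equiv s u v) hf⟩⟩

end

end Pool.Agent.N171.Pm
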