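import Mathlib
import Pool.Agent.N171.Bg5
import Pool.Agent.N171.PmFin

/-!
# Several hyperelliptic curves with large Galois groups
-/

set_option linter.unusedSectionVars false

namespace Pool.Agent.N171.Bg

open Polynomial PadicInt TensorProduct Pool.Agent.N171 Pool.Agent.N171.Al Pool.Agent.N171.Pm
  Pool.Agent.H204R3.GP

noncomputable section

/-! ### the permutations of the roots -/

section perm

variable {K F τ : Type*} [Field K] [Field F] [Algebra K F] [Fintype τ] [DecidableEq τ]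
  (α : τ → F) [Hyp α]

/-- The permutation of the roots. -/
def prm (hg : ∀ s : F ≃ₐ[K] F, (fP α).map ((s : F ≃+* F) : F →+* F) = fP α) :
    (F ≃ₐ[K] F) →* Equiv.Perm τ where
  toFun s := (exists_perm hg s).choose
  map_one' := by
    ext i
    apply Hyp.inj (α := α)
    rw [← (exists_perm hg 1).choose_spec i]
    rfl
  map_mul' s s' := by
    ext i
    apply Hyp.inj (α := α)
    rw [← (exists_perm hg (s * s')).choose_spec i, Equiv.Perm.mul_apply,
      ← (exists_perm hg s).choose_spec, ← (exists_perm hg s').choose_spec]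
    rfl

theorem prm_spec (hg : ∀ s : F ≃ₐ[K] F, (fP α).map ((s : F ≃+* F) : F →+* F) = fP α)
    (s : F ≃ₐ[K] F) (i : τ) : s (α i) = α (prm α hg s i) := (exists_perm hg s).choose_spec i

theorem prm_eq (hg : ∀ s : F ≃ₐ[K] F, (fP α).map ((s : F ≃+* F) : F →+* F) = fP α)
    {s : F ≃ₐ[K] F} {π : Equiv.Perm τ} (h : ∀ i, s (α i) = α (π i)) : prm α hg s = π := by
  ext i
  apply Hyp.inj (α := α)
  rw [← prm_spec α hg, h]

theorem prm_one (hg : ∀ s : F ≃ₐ[K] F, (fP α).map ((s : F ≃+* F) : F →+* F) = fP α)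
    {s : F ≃ₐ[K] F} : prm α hg s = 1 ↔ ∀ i, s (α i) = α i := by
  constructor
  · intro h i
    rw [prm_spec α hg, h]
    rfl
  · intro h
    exact prm_eq α hg h

end perm

variable {K F ι : Type*} [Field K] [Field F] [Algebra K F] [IsAlgClosed F] [Fintype ι]
  [DecidableEq ι] {τ : ι → Type*} [∀ i, Fintype (τ i)] [∀ i, DecidableEq (τ i)]
  (α : ∀ i, τ i → F) [∀ i, Hyp (α i)] [∀ i, IsDomain (RG (fP (α i)))]
  (hg : ∀ i (s : F ≃ₐ[K] F), (fP (α i)).map ((s : F ≃+* F) : F →+* F) = fP (α i))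

/-- The forms. -/
def BP (h2 : (2 : F) ≠ 0) (i : ι) : TateMod 2 (ClG (RG (fP (α i)))) →ₗ[ℤ_[2]]
    TateMod 2 (ClG (RG (fP (α i)))) →ₗ[ℤ_[2]] ℤ_[2] :=
  Bx (isClasses_ThG (α := α i)) h2

instance instFinP (i : ι) : Module.Finite ℤ_[2] (TateMod 2 (ClG (RG (fP (α i))))) :=
  finite_T (isClasses_ThG (α := α i))

theorem exists_perms (h2 : (2 : F) ≠ 0) (h6 : ∀ i, 6 ≤ Fintype.card (τ i))
    (hbig : ∀ i (π : Equiv.Perm (τ i)), Equiv.Perm.sign π = 1 →
      ∃ s : F ≃ₐ[K] F, ∀ k, s (α i k) = α i (π k)) :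
    ∃ D : ∀ i, τ i → TateMod 2 (ClG (RG (fP (α i)))),
      Perms (fun i => rhoG (hg i)) (B := BP α h2) (D := D) (cyc K F)
        (fun i => prm (α i) (hg i)) := by
  choose D hD hF using fun i => exists_frame (isClasses_ThG (α := α i)) h2
  refine ⟨D, hF, fun i s x y => ?_, fun i s k => ?_, fun i π hπ => ?_, h6,
    fun i => Hyp.odd (α := α i)⟩
  · exact BB_act (isCurve_crv (α i)) isClasses_ThG h2 (isAct_G (hg i)
      (fun k => prm_spec (α i) (hg i) s k)) x y
  · refine rr_of_one _ h2 ?_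
    have hs := fun k => prm_spec (α i) (hg i) s k
    have h1 := (isAct_G (hg i) (s := s) (π := prm (α i) (hg i) s) hs).cls (Dr (α i) k)
    rw [Pm.gDr (σ := (s : F ≃+* F)) hs] at h1
    rw [hD, h1, ← hD]
    rfl
  · obtain ⟨s, hs⟩ := hbig i π hπ
    exact ⟨s, Subgroup.mem_top _, prm_eq (α i) (hg i) hs⟩

/-! ### counting -/

/-- If the elements which act trivially modulo two fix the roots then the factorial is small. -/
theorem count_le {τ : Type*} [Fintype τ] [DecidableEq τ] {Γ : Type*} [Group Γ]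
    {P : Γ →* Equiv.Perm τ} (hP : OnAlt P ⊤) {d : ℕ}
    (t : Γ →* Matrix (Fin d) (Fin d) ℤ_[2])
    (h : ∀ s, (∃ M, t s = 1 + (2 : ℤ_[2]) • M) → P s = 1) :
    (Fintype.card τ).factorial ≤ 2 ^ (d ^ 2 + 1) := by
  classical
  choose S hS hSP using fun π : alternatingGroup τ => hP π.1 (Equiv.Perm.mem_alternatingGroup.1 π.2)
  let red : alternatingGroup τ → Matrix (Fin d) (Fin d) (ZMod 2) := fun π =>
    (t (S π)).map (toZMod : ℤ_[2] →+* ZMod 2)
  have hinj : Function.Injective red := by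
    intro π π' hππ
    have h1 : ∃ M, t (S π) - t (S π') = (2 : ℤ_[2]) • M := by
      have h2 : ∀ i j, ∃ z, t (S π) i j - t (S π') i j = 2 * z := by
        intro i j
        refine (toZMod_eq_zero _).1 ?_
        rw [map_sub, sub_eq_zero]
        exact congrFun (congrFun hππ i) j
      choose z hz using h2
      refine ⟨Matrix.of z, ?_⟩
      ext i j
      exact hz i j
    obtain ⟨M, hM⟩ := h1
    have h3 : P ((S π')⁻¹ * S π) = 1 := by
      refine h _ ⟨t (S π')⁻¹ * M, ?_⟩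
      have h4 : t (S π')⁻¹ * t (S π') = 1 := by rw [← map_mul, inv_mul_cancel, map_one]
      rw [map_mul, sub_eq_iff_eq_add.1 hM, mul_add, h4, mul_smul_comm, add_comm]
    rw [map_mul, map_inv, inv_mul_eq_one] at h3
    apply Subtype.ext
    rw [← hSP π, ← hSP π', h3]
  have h1 := Fintype.card_le_of_injective red hinj
  rw [← Fintype.card_congr (Matrix.of (m := Fin d) (n := Fin d) (α := ZMod 2)), Fintype.card_fun,
    Fintype.card_fun, Fintype.card_fin, ZMod.card, ← pow_mul] at h1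
  rcases subsingleton_or_nontrivial τ with hs | hn
  · have h2 : Fintype.card τ ≤ 1 := Fintype.card_le_one_iff_subsingleton.2 hs
    have h3 : (Fintype.card τ).factorial = 1 := by
      interval_cases (Fintype.card τ) <;> rfl
    rw [h3]
    exact Nat.one_le_two_pow
  · have h2 := two_mul_card_alternatingGroup (α := τ)
    rw [Fintype.card_perm] at h2
    rw [← h2, pow_succ, mul_comm, pow_two]
    exact Nat.mul_le_mul_right 2 h1

/-! ### the theorem -/

/-- The condition on the values: a stable lattice `L` such that for each curve some element acts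
trivially on `L / 2` and moves a root, or the factorial of the number of roots is large. -/
def FreeG {W : Type*} [AddCommGroup W] [Module ℚ_[2] W]
    (τW : Representation ℚ_[2] (F ≃ₐ[K] F) W) : Prop :=
  ∃ (d : ℕ) (b : Module.Basis (Fin d) ℚ_[2] W), (∀ s, TrivMod b (τW s) 0) ∧
    ∀ i, 2 ^ (d ^ 2 + 1) < (Fintype.card (τ i)).factorial ∨
      ∃ s, TrivMod b (τW s) 1 ∧ ∃ k, s (α i k) ≠ α i k

theorem trivMod_of {W : Type*} [AddCommGroup W] [Module ℚ_[2] W]
    {τ : Representation ℚ_[2] (F ≃ₐ[K] F) W} {d : ℕ}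
    {b : Module.Basis (Fin d) ℚ_[2] W} {t : (F ≃ₐ[K] F) →* Matrix (Fin d) (Fin d) ℤ_[2]}
    (ht : ∀ s i, τ s (b i) = ∑ j, algebraMap ℤ_[2] ℚ_[2] (t s j i) • b j) {s : F ≃ₐ[K] F} {m : ℕ}
    (hs : ∃ Z, t s = 1 + (2 : ℤ_[2]) ^ m • Z) : TrivMod b (τ s) m := by
  obtain ⟨Z, hZ⟩ := hs
  intro i j
  refine ⟨Z j i, ?_⟩
  rw [ht, map_sum, Finsupp.finsetSum_apply, Finset.sum_eq_single j]
  · rw [map_smul, Finsupp.smul_apply, Module.Basis.repr_self, Finsupp.single_eq_same,
      smul_eq_mul, mul_one, hZ, Matrix.add_apply, Matrix.smul_apply, Matrix.one_apply, smul_eq_mul]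
    by_cases h : i = j
    · subst h
      rw [if_pos rfl, if_pos rfl]
      push_cast
      rfl
    · rw [if_neg h, if_neg (Ne.symm h)]
      push_cast
      rfl
  · intro k _ hk
    rw [map_smul, Finsupp.smul_apply, Module.Basis.repr_self, Finsupp.single_eq_of_ne hk.symm,
      smul_zero]
  · intro h
    exact absurd (Finset.mem_univ _) h

/-- The separation. -/
theorem sep_all {P : ∀ i, (F ≃ₐ[K] F) →* Equiv.Perm (τ i)} {T : ι → Type*}
    [∀ i, AddCommGroup (T i)] [∀ i, Module ℤ_[2] (T i)] [∀ i, Module.Finite ℤ_[2] (T i)]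
    [∀ i, Module.Free ℤ_[2] (T i)] {ρ : ∀ i, Representation ℤ_[2] (F ≃ₐ[K] F) (T i)}
    {B : ∀ i, T i →ₗ[ℤ_[2]] T i →ₗ[ℤ_[2]] ℤ_[2]} {D : ∀ i, τ i → T i}
    {χ : (F ≃ₐ[K] F) →* ℤ_[2]ˣ} (h : Perms ρ (B := B) (D := D) χ P)
    (hsep : ∀ i j, j ≠ i → ∃ s, P j s = 1 ∧ P i s ≠ 1) {d : ℕ}
    (t : (F ≃ₐ[K] F) →* Matrix (Fin d) (Fin d) ℤ_[2])
    (ht : ∀ i, 2 ^ (d ^ 2 + 1) < (Fintype.card (τ i)).factorial ∨
      ∃ s, (∃ M, t s = 1 + (2 : ℤ_[2]) • M) ∧ P i s ≠ 1) (i : ι) : Sep ρ t χ i := by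
  refine h.sep t hsep (fun i => ?_) i
  rcases ht i with h1 | h1
  · by_contra h2
    push Not at h2
    exact absurd (count_le (h.onto i) t h2) (not_le.2 h1)
  · exact h1

end

end Pool.Agent.N171.Bg
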