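import Mathlib
import Pool.Agent.N171.PmDefs
import Pool.Agent.N171.St
import Pool.Agent.N171.AsmW

/-!
# Products of Jacobians of curves `y ^ 2 = f (x)`
-/

set_option linter.unusedSectionVars false

namespace Pool.Agent.N171

open Polynomial TensorProduct

noncomputable section

variable {K ι : Type*} [Field K] (f : ι → K[X]) [∀ i, HypP (f i)] (F : Type*) [Field F]
  [Algebra K F]

/-- The group of the `F`-points of the product of the Jacobians of the curves `y ^ 2 = f i (x)`. -/
def JPi : Type _ := ∀ i, JacP (f i) F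

instance instJPi : AddCommGroup (JPi f F) := (Pi.addCommGroup : AddCommGroup (∀ i, JacP (f i) F))

instance instActJPi : DistribMulAction (F ≃ₐ[K] F) (JPi f F) where
  smul σ x := fun i => σ • x i
  one_smul x := funext fun i => one_smul (F ≃ₐ[K] F) (x i)
  mul_smul σ τ x := funext fun i => mul_smul σ τ (x i)
  smul_zero σ := funext fun _ => smul_zero σ
  smul_add σ x y := funext fun i => smul_add σ (x i) (y i)

/-- The projection to a factor. -/
def prP (i : ι) : JPi f F →+ JacP (f i) F := Pi.evalAddMonoidHom (fun i => JacP (f i) F) i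

/-- The pull back to the product of a form on the rational Tate module of a factor. -/
def pullP (i : ι) (ω : Vt (JacP (f i) F) →ₗ[ℚ_[2]] Vt (JacP (f i) F) →ₗ[ℚ_[2]] ℚ_[2]) :
    Vt (JPi f F) →ₗ[ℚ_[2]] Vt (JPi f F) →ₗ[ℚ_[2]] ℚ_[2] :=
  ω.compl₁₂ (vMap (prP f F i)) (vMap (prP f F i))

end

end Pool.Agent.N171
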