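import Mathlib
import Pool.Agent.N171.Bg6
import Pool.Agent.N171.BgDefs

/-!
# Tate classes on the products of Jacobians with large Galois groups with any variety
-/

set_option linter.unusedSectionVars false

namespace Pool.Agent.N171.Bg

open Polynomial PadicInt TensorProduct Pool.Agent.N171 Pool.Agent.N171.Al Pool.Agent.N171.Pm
  Pool.Agent.H204R3.GP

noncomputable section

/-! ### the Tate module of a product -/

section prod

variable {ι : Type*} {M : ι → Type*} [∀ i, AddCommGroup (M i)]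

/-- The map from the product of the Tate modules to the Tate module of the product. -/
def tmE : (∀ i, TateMod 2 (M i)) →ₗ[ℤ_[2]] TateMod 2 (∀ i, M i) where
  toFun x := ⟨fun n i => (x i).1 n, funext fun i => (x i).2.1, fun n => funext fun i => (x i).2.2 n⟩
  map_add' x y := tm_ext fun n => rfl
  map_smul' z x := tm_ext fun n => rfl

/-- The map from the Tate module of the product to the product of the Tate modules. -/
def tmS : TateMod 2 (∀ i, M i) →ₗ[ℤ_[2]] (∀ i, TateMod 2 (M i)) :=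
  LinearMap.pi fun i => tmMap (Pi.evalAddMonoidHom M i)

theorem tmE_tmS (x : TateMod 2 (∀ i, M i)) : tmE (tmS x) = x := tm_ext fun _ => rfl

end prod

variable {K F ι : Type*} [Field K] [Field F] [Algebra K F] [Fintype ι]
  [DecidableEq ι]

universe w

theorem splits_P [IsAlgClosed F] (g : ι → F[X]) [∀ i, IsDomain (RG (g i))]
    (hg : ∀ i (s : F ≃ₐ[K] F), (g i).map ((s : F ≃+* F) : F →+* F) = g i)
    {τ : ι → Type*} [∀ i, Fintype (τ i)] [∀ i, DecidableEq (τ i)] (α : ∀ i, τ i → F)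
    [∀ i, Hyp (α i)] (hα : ∀ i, g i = fP (α i)) (h2 : (2 : F) ≠ 0)
    (h6 : ∀ i, 6 ≤ Fintype.card (τ i))
    (hbig : ∀ i (π : Equiv.Perm (τ i)), Equiv.Perm.sign π = 1 →
      ∃ s : F ≃ₐ[K] F, ∀ k, s (α i k) = α i (π k))
    (hsep : ∀ i j, j ≠ i → ∃ s : F ≃ₐ[K] F, (∀ k, s (α j k) = α j k) ∧ ∃ k, s (α i k) ≠ α i k) :
    ∃ ω : ∀ i, (ℚ_[2] ⊗[ℤ_[2]] TateMod 2 (ClG (RG (g i)))) →ₗ[ℚ_[2]]
      (ℚ_[2] ⊗[ℤ_[2]] TateMod 2 (ClG (RG (g i)))) →ₗ[ℚ_[2]] ℚ_[2],
      (∀ i, IsWeil (ratRep (rhoG (hg i))) (ratChar (cyc K F)) (ω i)) ∧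
      ∀ (W : Type w) [AddCommGroup W] [Module ℚ_[2] W]
        (τW : Representation ℚ_[2] (F ≃ₐ[K] F) W), FreeG α τW →
        ∀ (V : Type*) [AddCommGroup V] [Module ℚ_[2] V] (ρV : Representation ℚ_[2] (F ≃ₐ[K] F) V)
          (E : (ℚ_[2] ⊗[ℤ_[2]] (∀ i, TateMod 2 (ClG (RG (g i))))) →ₗ[ℚ_[2]] V)
          (S : V →ₗ[ℚ_[2]] (ℚ_[2] ⊗[ℤ_[2]] (∀ i, TateMod 2 (ClG (RG (g i)))))),
          (∀ x, E (S x) = x) → (∀ s x, E (ratRep (piRep fun i => rhoG (hg i)) s x) = ρV s (E x)) →
          ∀ ωV : ι → V →ₗ[ℚ_[2]] V →ₗ[ℚ_[2]] ℚ_[2],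
          (∀ i x y, ωV i (E x) (E y) = ω i (LinearMap.baseChange ℚ_[2] (LinearMap.proj i) x)
            (LinearMap.baseChange ℚ_[2] (LinearMap.proj i) y)) →
          (∀ (n a : ℕ) (f : (Fin n → V) [⋀^Fin a]→ₗ[ℚ_[2]] W), Odd a → IsTateV ρV τW f → f = 0) ∧
          ∀ (n m : ℕ) (f : (Fin n → V) [⋀^Fin m × Fin 2]→ₗ[ℚ_[2]] W), IsTateV ρV τW f →
            f ∈ Submodule.span ℚ_[2] {h | IsProdW (ratChar (cyc K F)) τW ωV h} := by
  obtain rfl : g = fun i => fP (α i) := funext hα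
  obtain ⟨D, hD⟩ := exists_perms α hg h2 h6 hbig
  refine ⟨fun i => BV (BP α h2 i), fun i => ⟨BV_alt _ (hD.frame i).alt, BV_nd _ (hD.frame i).nd,
    BV_inv (rhoG (hg i)) (cyc K F) _ (hD.inv i)⟩, fun W _ _ τW hτ V _ _ ρV E S hES hE ωV hω => ?_⟩
  obtain ⟨d, b, hb, hfr⟩ := hτ
  obtain ⟨t, ht, -⟩ := lat_data hb
  have hS : ∀ i, Sep (fun i => rhoG (hg i)) t (cyc K F) i := by
    refine sep_all hD (fun i j hij => ?_) t fun i => ?_
    · obtain ⟨s, hs, k, hk⟩ := hsep i j hij
      exact ⟨s, (prm_one (α j) (hg j)).2 hs, fun h => hk ((prm_one (α i) (hg i)).1 h k)⟩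
    · rcases hfr i with h | ⟨s, hs, k, hk⟩
      · exact Or.inl h
      · obtain ⟨Z, hZ⟩ := lat_pow ht hs
        exact Or.inr ⟨s, ⟨Z, by rw [hZ, pow_one]⟩,
          fun h => hk ((prm_one (α i) (hg i)).1 h k)⟩
  have hF : ∀ i, Big (BP α h2 i) (D i) (rhoG (hg i)) (cyc K F) := fun i => hD.big i
  have hωE : (fun c => (BV (piB (BP α h2))).comp
      (LinearMap.baseChange ℚ_[2] (piP (fun i => TateMod 2 (ClG (RG (fP (α i))))) c))) =
      fun c => (ωV c).compl₁₂ E E := by
    funext c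
    refine ext_tmul fun x => ext_tmul fun y => ?_
    rw [LinearMap.comp_apply, LinearMap.compl₁₂_apply, hω]
    simp only [LinearMap.baseChange_tmul]
    rw [BV_tmul, BV_tmul, piP_apply, piB_single_left]
    rfl
  refine ⟨fun n a f ha hf => ?_, fun n m f hf => ?_⟩
  · have h1 := absM_odd t hF hS τW b ht ha _ (tateV_comp E hE hf)
    ext v
    have h3 := congrArg (fun f => f (fun l i => S (v l i))) h1
    have h4 : (f.compLinearMap (E.compLeft (Fin n))) (fun l i => S (v l i)) = f v := by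
      rw [AlternatingMap.compLinearMap_apply]
      congr 1
      funext l i
      exact hES _
    rw [← h4]
    exact h3
  · have h1 := absM_even t hF hS τW b ht _ (tateV_comp E hE hf)
    rw [hωE] at h1
    have h2 : f = (f.compLinearMap (E.compLeft (Fin n))).compLinearMap (S.compLeft (Fin n)) := by
      ext v
      rw [AlternatingMap.compLinearMap_apply, AlternatingMap.compLinearMap_apply]
      congr 1
      funext l i
      exact (hES _).symm
    rw [h2]
    have key : ∀ h ∈ Submodule.span ℚ_[2] {h | IsProdW (ratChar (cyc K F)) τW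
        (fun c => (ωV c).compl₁₂ E E) (n := n) (m := m) h},
        h.compLinearMap (S.compLeft (Fin n)) ∈
          Submodule.span ℚ_[2] {h | IsProdW (ratChar (cyc K F)) τW ωV h} := by
      intro h hh
      induction hh using Submodule.span_induction with
      | mem h hh => exact Submodule.subset_span (prodW_comp E S hES hh)
      | zero => exact Submodule.zero_mem _
      | add a b _ _ ha hb => exact Submodule.add_mem _ ha hb
      | smul c a _ ha => exact Submodule.smul_mem _ c ha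
    exact key _ h1

end

end Pool.Agent.N171.Bg
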