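import Mathlib
import Pool.Agent.N171.Bg7

/-!
# Tate classes on the products of Jacobians with large Galois groups with any variety: transfer
-/

set_option linter.unusedSectionVars false

namespace Pool.Agent.N171.Bg

open Polynomial PadicInt TensorProduct Pool.Agent.N171 Pool.Agent.N171.Al Pool.Agent.N171.Pm
  Pool.Agent.H204R3.GP

noncomputable section

variable {K F ι : Type*} [Field K] [Field F] [Algebra K F] (f : ι → K[X]) [∀ i, HypP (f i)]

variable (F) in
/-- The map from the sum of the Tate modules. -/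
def vE : (ℚ_[2] ⊗[ℤ_[2]] (∀ i, TateMod 2 (ClG (RG ((f i).map (algebraMap K F)))))) →ₗ[ℚ_[2]]
    Vt (JPi f F) :=
  LinearMap.baseChange ℚ_[2] (tmE (M := fun i => ClG (RG ((f i).map (algebraMap K F)))))

variable (F) in
/-- The map to the sum of the Tate modules. -/
def vS : Vt (JPi f F) →ₗ[ℚ_[2]]
    (ℚ_[2] ⊗[ℤ_[2]] (∀ i, TateMod 2 (ClG (RG ((f i).map (algebraMap K F)))))) :=
  LinearMap.baseChange ℚ_[2] (tmS (M := fun i => ClG (RG ((f i).map (algebraMap K F)))))

theorem vE_vS (x : Vt (JPi f F)) : vE F f (vS F f x) = x := by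
  have h1 : (vE F f).comp (vS F f) = LinearMap.id := by
    refine (LinearMap.baseChange_comp (A := ℚ_[2])
      (tmS (M := fun i => ClG (RG ((f i).map (algebraMap K F)))))
      (tmE (M := fun i => ClG (RG ((f i).map (algebraMap K F)))))).symm.trans ?_
    have h2 : (tmE (M := fun i => ClG (RG ((f i).map (algebraMap K F))))).comp tmS =
        LinearMap.id := LinearMap.ext fun x => tmE_tmS x
    rw [h2]
    exact LinearMap.baseChange_id
  exact congrArg (fun g => g x) h1

theorem vE_act (s : F ≃ₐ[K] F)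
    (x : ℚ_[2] ⊗[ℤ_[2]] (∀ i, TateMod 2 (ClG (RG ((f i).map (algebraMap K F)))))) :
    vE F f (ratRep (piRep fun i => rhoG (rf_fix (f i))) s x) =
      vRep (JPi f F) (F ≃ₐ[K] F) s (vE F f x) := by
  have h1 : (vE F f).comp (ratRep (piRep fun i => rhoG (rf_fix (f i))) s) =
      (vRep (JPi f F) (F ≃ₐ[K] F) s).comp (vE F f) := by
    refine (LinearMap.baseChange_comp (A := ℚ_[2])
      (piRep (fun i => rhoG (rf_fix (f i))) s)
      (tmE (M := fun i => ClG (RG ((f i).map (algebraMap K F)))))).symm.trans ?_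
    refine Eq.trans ?_ (LinearMap.baseChange_comp (A := ℚ_[2])
      (tmE (M := fun i => ClG (RG ((f i).map (algebraMap K F)))))
      (tmMap (act s : JPi f F →+ JPi f F)))
    congr 1
  exact congrArg (fun g => g x) h1

theorem vE_pr (i : ι)
    (x : ℚ_[2] ⊗[ℤ_[2]] (∀ i, TateMod 2 (ClG (RG ((f i).map (algebraMap K F)))))) :
    vMap (prP f F i) (vE F f x) = LinearMap.baseChange ℚ_[2] (LinearMap.proj i) x := by
  have h1 : (vMap (prP f F i)).comp (vE F f) = LinearMap.baseChange ℚ_[2] (LinearMap.proj i) := by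
    refine (LinearMap.baseChange_comp (A := ℚ_[2])
      (tmE (M := fun i => ClG (RG ((f i).map (algebraMap K F))))) (tmMap (prP f F i))).symm.trans ?_
    congr 1
  exact congrArg (fun g => g x) h1

theorem vMap_act (i : ι) (s : F ≃ₐ[K] F) (x : Vt (JPi f F)) :
    vMap (prP f F i) (vRep (JPi f F) (F ≃ₐ[K] F) s x) =
      vRep (JacP (f i) F) (F ≃ₐ[K] F) s (vMap (prP f F i) x) := by
  have h1 : (vMap (prP f F i)).comp (vRep (JPi f F) (F ≃ₐ[K] F) s) =
      (vRep (JacP (f i) F) (F ≃ₐ[K] F) s).comp (vMap (prP f F i)) := by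
    change (vMap (prP f F i)).comp (vMap (act s)) = (vMap (act s)).comp (vMap (prP f F i))
    rw [← vMap_comp, ← vMap_comp]
    congr 1
  exact congrArg (fun g => g x) h1

theorem pullP_inv {i : ι} {ω : Vt (JacP (f i) F) →ₗ[ℚ_[2]] Vt (JacP (f i) F) →ₗ[ℚ_[2]] ℚ_[2]}
    {χ : (F ≃ₐ[K] F) →* ℚ_[2]} (h : IsWeil (vRep (JacP (f i) F) (F ≃ₐ[K] F)) χ ω)
    (s : F ≃ₐ[K] F) (u v : Vt (JPi f F)) :
    pullP f F i ω (vRep (JPi f F) (F ≃ₐ[K] F) s u) (vRep (JPi f F) (F ≃ₐ[K] F) s v) =
      χ s * pullP f F i ω u v := by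
  change ω (vMap (prP f F i) _) (vMap (prP f F i) _) = χ s * ω (vMap (prP f F i) u)
    (vMap (prP f F i) v)
  rw [vMap_act, vMap_act, h.equiv]

end

end Pool.Agent.N171.Bg
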