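import Mathlib
import Pool.Agent.V11219.SstKill

/-!
# Products with powers: the step for a Lie algebra which kills all equivariant maps, twisted by the
powers of the character `χ`
-/

open CategoryTheory AlgebraicGeometry Finset Function

set_option linter.unusedSectionVars false

namespace Pool.Agent.N171.Ht

universe u

open Pool.Agent.TH125.Gal Pool.Agent.TH118.SG Pool.Agent.V11219.IsoF Pool.Agent.V11219.Loc
  Pool.Agent.V11219.Sst

open Pool.Agent.H914 Pool.Agent.H914.VarClass Pool.Agent.H914.VarClass.Obj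
  Pool.Agent.H914.WeilCohomology Pool.Agent.H281R3.HT Pool.Agent.W552

variable {k : Type u} [Field k] {𝒱 : VarClass k} {ops : CycleOps 𝒱}
  {W : WeilCohomology.{u, 0} ops} {P : Polarized 𝒱} {n : ℕ} {Z : 𝒱.Obj} {s : SB W P.X}
  {Γ : Type} [Group Γ] {χ : Γ →* W.Kˣ} {ρ : Γ →* (W.H P.X ≃ₐ[W.K] W.H P.X)}
  {τ : Γ →* (W.H Z ≃ₐ[W.K] W.H Z)}
  {υ : Γ →* (W.H ((nest ops n fun _ => P).X.prod Z) ≃ₐ[W.K]
    W.H ((nest ops n fun _ => P).X.prod Z))}

/-- The twisting characters are powers of the character `χ`. -/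
theorem lamb_pow (χ : Γ →* W.Kˣ) (s : SB W P.X) (c₀ : Fin (n + 1) → Option (Fin s.NC)) (j : ℕ) :
    lamb χ s c₀ j ∈ Subgroup.zpowers χ := by
  have h1 : χ ∈ Subgroup.zpowers χ := Subgroup.mem_zpowers χ
  unfold lamb
  refine mul_mem (mul_mem (Subgroup.prod_mem _ fun p _ => ?_) ?_) ?_
  · exact inv_mem (pow_mem h1 _)
  · exact inv_mem (pow_mem h1 _)
  · exact pow_mem (pow_mem h1 _) _

/-- All Lie algebras for the twists of the action by powers of `χ` are the whole symplectic one. -/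
def FullP (χ : Γ →* W.Kˣ) (hG : IsGalois W χ P.X ρ) (τ : Γ →* (W.H Z ≃ₐ[W.K] W.H Z)) : Prop :=
  ∀ (S : Type) [Fintype S] [DecidableEq S] (lam : Γ →* W.Kˣ), lam ∈ Subgroup.zpowers χ →
    ∀ x y, rk (rform W P.X (transcendental W P.X)) y x + rk (rform W P.X (transcendental W P.X)) x y
      ∈ LL S (rform W P.X (transcendental W P.X)) (rhoT hG) (twist lam τ)

section

variable {b : Module.Basis (Fin (n + 1) → Fin s.NC ⊕ Fin s.NT) W.K (W.H (nest ops n fun _ => P).X)}
  (hb : ∀ r, b r = mono (prj ops n fun _ => P) fun p => s.e (r p))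

include hb in
/-- the coordinates at the free positions are invariant -/
theorem gen_freeP (hDX : HomEqNum W P.X) (hmid : transcendental W P.X ≤ W.gr P.X P.X.dim)
    (hG : IsGalois W χ P.X ρ) (hP : IsPowAct W P n Z ρ τ υ) (hodd : Odd P.X.dim)
    (hfull : FullP χ hG τ)
    {c : W.H ((nest ops n fun _ => P).X.prod Z)} {j : ℕ} {Δ : Subgroup Γ} (hΔ : Δ.FiniteIndex)
    (hc : ∀ g ∈ Δ, υ g c = (χ g : W.K) ^ j • c) (c₀ : Fin (n + 1) → Option (Fin s.NC)) :
    (fun r : Free c₀ → Fin s.NT => hml s.e b c fun p => s.es (comb c₀ r p)) ∈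
      Pool.Agent.TH125.Nod.Gen (fun _ : Fin s.NT => ())
        (Matrix.of fun i j => bil W P.X (s.uT i) (s.uT j)) (fun _ : Free c₀ => ()) := by
  have h1 := gen_mem' (S := Free c₀) (J := Fin s.NT) (s := (-1) ^ P.X.dim)
    (B := rform W P.X (transcendental W P.X)) hodd.neg_one_pow
    (fun a b => by
      rw [rform_apply, rform_apply, trans_symm hmid a.2 b.2]
      push_cast
      rfl)
    (trans_nondeg hDX)
    (fun u v => hfull (Free c₀) (lamb χ s c₀ j) (lamb_pow χ s c₀ j) u v)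
    (hS_eqv hb hG hP hΔ hc c₀) s.uT
  have h2 : (fun r : Free c₀ → Fin s.NT => hS s b c c₀ fun j => s.uT (r j)) =
      fun r : Free c₀ → Fin s.NT => hml s.e b c fun p => s.es (comb c₀ r p) := by
    funext r
    exact hS_comb c c₀ r
  rw [← h2]
  exact h1

include hb in
/-- **The structure of the Tate classes on products with powers.** -/
theorem mem_TgtP (hDX : HomEqNum W P.X) (hmid : transcendental W P.X ≤ W.gr P.X P.X.dim)
    (hG : IsGalois W χ P.X ρ) (hP : IsPowAct W P n Z ρ τ υ) (hodd : Odd P.X.dim)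
    (hfull : FullP χ hG τ)
    {c : W.H ((nest ops n fun _ => P).X.prod Z)} {j : ℕ} {Δ : Subgroup Γ} (hΔ : Δ.FiniteIndex)
    (hc : ∀ g ∈ Δ, υ g c = (χ g : W.K) ^ j • c) : c ∈ Tgt s n Z := by
  rw [expand b c, sum_patterns]
  refine Submodule.sum_mem _ fun c₀ _ => ?_
  have h1 := gen_freeP hb hDX hmid hG hP hodd hfull hΔ hc c₀
  have h2 : ∀ F ∈ Pool.Agent.TH125.Nod.Gen (fun _ : Fin s.NT => ())
      (Matrix.of fun i j => bil W P.X (s.uT i) (s.uT j)) (fun _ : Free c₀ => ()),
      ∑ r : Free c₀ → Fin s.NT, W.map (fst _ Z) (b (comb c₀ r)) * W.map (snd _ Z) (F r : W.H Z) ∈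
        Tgt s n Z := by
    intro F hF
    induction hF using Submodule.span_induction with
    | mem F hF =>
      obtain ⟨m, e, w, rfl⟩ := hF
      obtain ⟨ε, S, i, x, hx, h3⟩ := mq_sum (s := s) (π := prj ops n fun _ => P) hmid e
      have h4 : ∑ r : Free c₀ → Fin s.NT, W.map (fst _ Z) (b (comb c₀ r)) *
          W.map (snd _ Z) (Pool.Agent.TH125.Nod.gen (fun _ : Fin s.NT => ())
            (Matrix.of fun i j => bil W P.X (s.uT i) (s.uT j)) (fun _ : Free c₀ => ()) e w r) =
          (ε : W.K) • (W.map (fst _ Z) x * W.map (snd _ Z) w) := by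
        rw [← smul_mul_assoc, ← map_smul, ← h3, map_sum, Finset.sum_mul]
        refine Finset.sum_congr rfl fun r _ => ?_
        rw [Pool.Agent.TH125.Nod.gen, if_pos (fun _ => rfl), map_smul, map_smul, mul_smul_comm,
          smul_mul_assoc, hb]
        rfl
      rw [h4]
      exact Submodule.smul_mem _ _ (Submodule.subset_span ⟨S, i, x, w, hx, rfl⟩)
    | zero =>
      simp only [Pi.zero_apply, map_zero, mul_zero, Finset.sum_const_zero]
      exact Submodule.zero_mem _
    | add F F' _ _ hF hF' =>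
      simp only [Pi.add_apply, map_add, mul_add, Finset.sum_add_distrib]
      exact Submodule.add_mem _ hF hF'
    | smul x F _ hF =>
      simp only [Pi.smul_apply, map_smul, mul_smul_comm]
      rw [← Finset.smul_sum]
      exact Submodule.smul_mem _ _ hF
  have h3 := h2 _ h1
  simp only [coord_eq hb]
  exact h3

end

/-- **The Tate conjecture for products with powers.** -/
theorem tate_stepP (hDX : HomEqNum W P.X) (hmid : transcendental W P.X ≤ W.gr P.X P.X.dim)
    (hG : IsGalois W χ P.X ρ) (hP : IsPowAct W P n Z ρ τ υ) (hodd : Odd P.X.dim)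
    (hfull : FullP χ hG τ)
    (hT : TateConj W χ Z τ) :
    TateConj W χ ((nest ops n fun _ => P).X.prod Z) υ := by
  obtain ⟨s⟩ := exists_SB hDX
  obtain ⟨b, hb⟩ := exists_monoBasis (ops := ops) P s.e n
  intro j c hcj ⟨Δ, hΔ, hc⟩
  have h1 := mem_TgtP hb hDX hmid hG hP hodd hfull hΔ hc
  obtain ⟨N, m, i, φ, hm, hφ, hexp⟩ := exists_expansion s n Z
  obtain ⟨Δ', hΔ', hfix⟩ := exists_fix hG s
  have h2 := hexp c h1
  -- uniqueness
  have huni : ∀ (x : Fin N → W.H Z) (l : Fin N),
      ctr (φ l) (∑ l', W.map (fst _ Z) (m l') * W.map (snd _ Z) (x l')) = x l := by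
    intro x l
    rw [map_sum, Finset.sum_eq_single l]
    · rw [ctr_apply, hφ, if_pos rfl, one_smul]
    · intro l' _ hl
      rw [ctr_apply, hφ, if_neg hl, zero_smul]
    · intro h
      exact absurd (Finset.mem_univ _) h
  set x : Fin N → W.H Z := fun l => ctr (φ l) c with hx
  -- degrees
  have hdeg : ∀ l, x l = if 2 * i l ≤ 2 * j then
      proj (W.isInternal Z) (2 * j - 2 * i l) (x l) else 0 := by
    intro l
    have h3 : c = ∑ l', W.map (fst _ Z) (m l') * W.map (snd _ Z)
        (if 2 * i l' ≤ 2 * j then proj (W.isInternal Z) (2 * j - 2 * i l') (x l') else 0) := by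
      conv_lhs => rw [← proj_same (W.isInternal _) hcj, h2]
      rw [map_sum]
      refine Finset.sum_congr rfl fun l' _ => ?_
      obtain ⟨S, hS⟩ := hm l'
      rw [proj_ext (hS.gr hmid)]
      by_cases h : 2 * i l' ≤ 2 * j
      · rw [if_pos h, if_pos h]
      · rw [if_neg h, if_neg h, map_zero, mul_zero]
    conv_lhs => rw [hx]
    beta_reduce
    rw [h3]
    exact huni _ l
  -- semi-invariance
  have hact : ∀ g ∈ Δ ⊓ Δ', ∀ l, (χ g : W.K) ^ i l • τ g (x l) = (χ g : W.K) ^ j • x l := by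
    intro g hg l
    have h3 : υ g c = ∑ l', W.map (fst _ Z) (m l') * W.map (snd _ Z)
        ((χ g : W.K) ^ i l' • τ g (x l')) := by
      conv_lhs => rw [h2]
      rw [map_sum]
      refine Finset.sum_congr rfl fun l' _ => ?_
      obtain ⟨S, hS⟩ := hm l'
      rw [map_mul, mq_act hmid hG hP (hfix g hg.2) hS, (hP g).2, map_smul, smul_mul_assoc,
        mul_smul_comm]
    have h4 := huni (fun l' => (χ g : W.K) ^ i l' • τ g (x l')) l
    rw [← h3, hc g hg.1, map_smul] at h4
    exact h4.symm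
  have halg : ∀ l, x l ∈ algSpan W Z := by
    intro l
    by_cases h : 2 * i l ≤ 2 * j
    · have h3 := hdeg l
      rw [if_pos h] at h3
      have h4 : x l ∈ W.gr Z (2 * (j - i l)) := by
        rw [h3, show 2 * (j - i l) = 2 * j - 2 * i l by omega]
        exact proj_mem _ _ _
      have h5 := hT (j - i l) (x l) h4 ⟨Δ ⊓ Δ', inferInstance, fun g hg => ?_⟩
      · exact Submodule.span_mono (Set.subset_iUnion _ _) h5
      · have h6 := hact g hg l
        have h7 : (χ g : W.K) ^ j = (χ g : W.K) ^ i l * (χ g : W.K) ^ (j - i l) := by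
          rw [← pow_add]
          congr 1
          omega
        rw [h7, mul_smul] at h6
        exact smul_right_injective _ (pow_ne_zero _ (Units.ne_zero (χ g))) h6
    · have h3 := hdeg l
      rw [if_neg h] at h3
      rw [h3]
      exact Submodule.zero_mem _
  refine algSpan_gr ?_ hcj
  rw [h2]
  refine Submodule.sum_mem _ fun l _ => ?_
  obtain ⟨S, hS⟩ := hm l
  exact algSpan_mul (algSpan_map _ (hS.alg hDX hmid)) (algSpan_map _ (halg l))


/-- **The algebraic classes on a product.** -/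
theorem tgt_of_fullP {A B : GVar W Γ} {D : A.X.Cycles} {G : Set (GVar W Γ)}
    (hG : GaloisClass χ G) (hA : A ∈ G) (hB : B ∈ G)
    (hmid : transcendental W A.X ≤ W.gr A.X A.X.dim) (hDX : HomEqNum W A.X)
    (hodd : Odd A.X.dim)
    (hfull : FullP (P := ⟨A.X, D⟩) χ (isGalois (hG.galois A hA)) B.act)
    (s : SB W A.X) (m : ℕ)
    (c : W.H ((nest ops m fun _ => ⟨A.X, D⟩).X.prod B.X)) (hc : W552.AS W _ c) :
    c ∈ Tgt (P := ⟨A.X, D⟩) s m B.X := by
  obtain ⟨υ, hυ, hP⟩ := exists_pow_act hG hA hB D m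
  obtain ⟨b, hb⟩ := exists_monoBasis (ops := ops) (⟨A.X, D⟩ : Polarized 𝒱) s.e m
  have hgal := (hG.galois _ hυ)
  refine W552.AS.ind (p := fun c => c ∈ Tgt (P := ⟨A.X, D⟩) s m B.X) ?_ ?_ hc
  · intro j c hc
    obtain ⟨Δ, hΔ, h1⟩ := hgal.cl_fix j c hc
    exact mem_TgtP (P := ⟨A.X, D⟩) hb hDX hmid (isGalois (hG.galois A hA)) hP hodd hfull hΔ h1
  · intro x y hx hy
    exact Submodule.add_mem _ hx hy

end Pool.Agent.N171.Ht
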