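import Mathlib
import Pool.Agent.N171.Ht2
import Pool.Agent.N171.LW2

/-!
# From forms on 2-adic lattices to the cohomology: the base of the induction
-/

open CategoryTheory AlgebraicGeometry Finset Function

set_option linter.unusedSectionVars false
set_option linter.unusedVariables false

namespace Pool.Agent.N171.Ht

universe u

open Pool.Agent.TH125.Gal Pool.Agent.TH118.SG Pool.Agent.V11219.IsoF Pool.Agent.V11219.Loc
  Pool.Agent.V11219.Sst Pool.Agent.H204R3.SP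

open Pool.Agent.H914 Pool.Agent.H914.VarClass Pool.Agent.H914.VarClass.Obj
  Pool.Agent.H914.WeilCohomology Pool.Agent.H281R3.HT Pool.Agent.W552

/-- Two alternating forms of which one is killed by the symplectic Lie algebra of the other one. -/
theorem prop_form {T k : Type*} [Field k] [CharZero k] {b φ : T → T → k}
    (hb : ∀ x y, b x y = - b y x) (hp : ∀ x y, φ x y = - φ y x)
    (h : ∀ u w x y, b u x * φ w y + b w x * φ u y + b u y * φ x w + b w y * φ x u = 0)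
    (p q r s : T) : b p q * φ r s = b r s * φ p q := by
  have e1 := h p q r s
  have e2 := h p r q s
  have e3 := h p s q r
  have a1 := hp r q
  have a2 := hp r p
  have a3 := hb r q
  have a4 := hp q p
  have a5 := hp s r
  have a6 := hb s q
  have a7 := hb s r
  rw [a1, a2] at e1
  rw [a3, a4] at e2
  rw [a5, a6, a7, a4] at e3
  linear_combination (1 / 2) * (e1 + e2 - e3)

section lat

variable {T : Type} [AddCommGroup T] [Module ℤ_[2] T] {Γ : Type} [Group Γ]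
  (ρ : Representation ℤ_[2] Γ T) (cy : Γ →* ℤ_[2]ˣ)
  (B : T →ₗ[ℤ_[2]] T →ₗ[ℤ_[2]] ℤ_[2]) {ι : Type} (π : ι → Module.End ℤ_[2] T)

/-- The twist of a matrix representation by a power of the cyclotomic character. -/
noncomputable def tw (M : ℤ) {d : ℕ} (t : Γ →* Matrix (Fin d) (Fin d) ℤ_[2]) :
    Γ →* Matrix (Fin d) (Fin d) ℤ_[2] where
  toFun g := (((cy g) ^ M : ℤ_[2]ˣ) : ℤ_[2]) • t g
  map_one' := by rw [map_one, map_one, one_zpow, Units.val_one, one_smul]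
  map_mul' g h := by rw [map_mul, map_mul, mul_zpow, Units.val_mul, smul_mul_smul_comm]

theorem tw_apply (M : ℤ) {d : ℕ} (t : Γ →* Matrix (Fin d) (Fin d) ℤ_[2]) (g : Γ) :
    tw cy M t g = (((cy g) ^ M : ℤ_[2]ˣ) : ℤ_[2]) • t g := rfl

/-- The symplectic Lie algebras of the pieces kill all forms with values in the twists of `t`. -/
def KillsAll {d : ℕ} (t : Γ →* Matrix (Fin d) (Fin d) ℤ_[2]) : Prop :=
  ∀ (S : Type) [Fintype S] [DecidableEq S] (M : ℤ)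
    (φ : Fin d → MultilinearMap ℤ_[2] (fun _ : S => T) ℚ_[2]), IsTW ρ S (tw cy M t) φ →
    ∀ i u w j (x : S → T), ∑ s, φ j (update x s (so B (π i u) (π i w) (x s))) = 0

theorem zpow_eight {s : Γ} (h : ∃ z, (cy s : ℤ_[2]) = 1 + 8 * z) (M : ℤ) :
    ∃ z, (((cy s) ^ M : ℤ_[2]ˣ) : ℤ_[2]) = 1 + 8 * z := by
  obtain ⟨n, rfl | rfl⟩ := M.eq_nat_or_neg
  · obtain ⟨z, hz⟩ := h
    rw [zpow_natCast, Units.val_pow_eq_pow_val, hz]
    exact pow_eight n z
  · obtain ⟨z, hz⟩ := inv_eight cy h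
    rw [zpow_neg, zpow_natCast, ← inv_pow, Units.val_pow_eq_pow_val, hz]
    exact pow_eight n z

theorem tw_four {s : Γ} (h : ∃ z, (cy s : ℤ_[2]) = 1 + 8 * z) (M : ℤ) {d : ℕ}
    {t : Γ →* Matrix (Fin d) (Fin d) ℤ_[2]} (ht : ∃ Z, t s = 1 + (4 : ℤ_[2]) • Z) :
    ∃ Z, tw cy M t s = 1 + (4 : ℤ_[2]) • Z := by
  obtain ⟨z, hz⟩ := zpow_eight cy h M
  obtain ⟨Z, hZ⟩ := ht
  refine ⟨Z + (2 * z) • (1 + (4 : ℤ_[2]) • Z), ?_⟩
  rw [tw_apply, hz, hZ]
  module

/-- A family of reflections modulo four. -/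
theorem killsAll_of [Module.Finite ℤ_[2] T] [Module.Free ℤ_[2] T] [DecidableEq ι] [Fintype ι]
    (halt : ∀ x, B x x = 0) (hnd : ∀ v, (∀ w, ¬ IsUnit (B v w)) → ∃ u, (2 : ℤ_[2]) • u = v)
    (hπ1 : ∀ x, ∑ q, π q x = x) (hππ : ∀ q x, π q (π q x) = π q x)
    (hππ' : ∀ q r x, q ≠ r → π q (π r x) = 0)
    (hBπ : ∀ q x y, B (π q x) y = B x (π q y))
    {μ : Type*} (v : μ → T) (q : μ → ι) (σ : μ → Γ)
    (hσ8 : ∀ k, ∃ z, (cy (σ k) : ℤ_[2]) = 1 + 8 * z)
    (hσ : ∀ k x, ∃ y, ρ (σ k) x = x + (2 : ℤ_[2]) • (B (v k) x • v k) + (4 : ℤ_[2]) • y)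
    (hconn : ∀ k l, q k = q l → Relation.ReflTransGen (Adj B v q) k l)
    (hspan : ∀ c x, π c x ∈ Wq v q c)
    (hB : ∀ s x y, B (ρ s x) (ρ s y) = (cy s : ℤ_[2]) * B x y)
    (hπρ : ∀ q s x, π q (ρ s x) = ρ s (π q x))
    {d : ℕ} (t : Γ →* Matrix (Fin d) (Fin d) ℤ_[2])
    (ht : ∀ k, ∃ Z, t (σ k) = 1 + (4 : ℤ_[2]) • Z) : KillsAll ρ cy B π t := by
  intro S _ _ M φ hφ i u w j x
  exact kill_all (ρ := ρ) (κ := S) (t := tw cy M t) cy B halt hnd π hπ1 hππ hππ' hBπ v q σ hσ8 hσ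
    hconn hspan hB hπρ (fun k => tw_four cy (hσ8 k) M (ht k))
    (so_spQ B halt π hππ hππ' hBπ i u w) hφ j x

theorem nondeg_T [Module.Finite ℤ_[2] T] [Module.Free ℤ_[2] T] (halt : ∀ x, B x x = 0)
    (hnd : ∀ v, (∀ w, ¬ IsUnit (B v w)) → ∃ u, (2 : ℤ_[2]) • u = v) {x : T}
    (hx : ∀ w, B x w = 0) : x = 0 := by
  classical
  let n := Fintype.card (Module.Free.ChooseBasisIndex ℤ_[2] T)
  let b₀ : Module.Basis (Fin n) ℤ_[2] T :=
    (Module.Free.chooseBasis ℤ_[2] T).reindex (Fintype.equivFin _)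
  obtain ⟨b', hb'⟩ := (exists_dual B hnd b₀).1
  have h1 : ∀ i, b₀.coord i = B (b' i) := by
    intro i
    refine b₀.ext fun j => ?_
    rw [Module.Basis.coord_apply, Module.Basis.repr_self, hb', Finsupp.single_apply]
    by_cases h : i = j
    · rw [if_pos h, if_pos h.symm]
    · rw [if_neg h, if_neg (Ne.symm h)]
  refine b₀.forall_coord_eq_zero_iff.1 fun i => ?_
  rw [h1, B_anti B halt, hx, neg_zero]

end lat

end Pool.Agent.N171.Ht
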