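import Mathlib
import Pool.Agent.N171.Ht3

/-!
# From forms on 2-adic lattices to the cohomology: the base of the induction
-/

open CategoryTheory AlgebraicGeometry Finset Function

set_option linter.unusedSectionVars false
set_option linter.unusedVariables false

namespace Pool.Agent.N171.Ht

universe u

open Pool.Agent.TH125.Gal Pool.Agent.TH118.SG Pool.Agent.V11219.IsoF Pool.Agent.V11219.Loc
  Pool.Agent.V11219.Sst Pool.Agent.H204R3.SP

open Pool.Agent.H914 Pool.Agent.H914.VarClass Pool.Agent.H914.VarClass.Obj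
  Pool.Agent.H914.WeilCohomology Pool.Agent.H281R3.HT Pool.Agent.W552

/-- The map from the 2-adic integers to the coefficients. -/
noncomputable def aK (K : Type) [Field K] [Algebra ℚ_[2] K] : ℤ_[2] →+* K :=
  (algebraMap ℚ_[2] K).comp (algebraMap ℤ_[2] ℚ_[2])

theorem aK_ne {K : Type} [Field K] [Algebra ℚ_[2] K] {r : ℤ_[2]} (h : r ≠ 0) : aK K r ≠ 0 := by
  intro h0
  apply h
  have h1 : Function.Injective (aK K) :=
    (algebraMap ℚ_[2] K).injective.comp (FaithfulSMul.algebraMap_injective ℤ_[2] ℚ_[2])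
  exact h1 (h0.trans (map_zero _).symm)

section pull

variable {T : Type} [AddCommGroup T] [Module ℤ_[2] T] {K : Type} [Field K] [Algebra ℚ_[2] K]
  {S : Type} {A E : Type} [AddCommGroup A] [Module K A] [AddCommGroup E] [Module K E]

theorem upd_L (L : S → T →+ A) (x : S → T) [DecidableEq S] (s : S) (y : T) :
    (fun s' => L s' (update x s y s')) = update (fun s' => L s' (x s')) s (L s y) := by
  funext s'
  by_cases h : s' = s
  · subst h
    rw [update_self, update_self]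
  · rw [update_of_ne h, update_of_ne h]

/-- The restriction of a multilinear map to a lattice. -/
noncomputable def pullF (f : MultilinearMap K (fun _ : S => A) E) (L : S → T →+ A)
    (hL : ∀ s (r : ℤ_[2]) x, L s (r • x) = aK K r • L s x) (l : E →+ ℚ_[2])
    (hl : ∀ (r : ℤ_[2]) y, l (aK K r • y) = r • l y) :
    MultilinearMap ℤ_[2] (fun _ : S => T) ℚ_[2] where
  toFun x := l (f fun s => L s (x s))
  map_update_add' := by
    intro dec x s y z
    rw [upd_L, upd_L, upd_L, map_add, MultilinearMap.map_update_add, map_add]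
  map_update_smul' := by
    intro dec x s r y
    rw [upd_L, upd_L, hL, MultilinearMap.map_update_smul, hl]

theorem pullF_apply (f : MultilinearMap K (fun _ : S => A) E) (L : S → T →+ A)
    (hL : ∀ s (r : ℤ_[2]) x, L s (r • x) = aK K r • L s x) (l : E →+ ℚ_[2])
    (hl : ∀ (r : ℤ_[2]) y, l (aK K r • y) = r • l y) (x : S → T) :
    pullF f L hL l hl x = l (f fun s => L s (x s)) := rfl

/-- The coordinates. -/
noncomputable def crd {d : ℕ} (e : Module.Basis (Fin d) K E) (l : K →ₗ[ℚ_[2]] ℚ_[2]) (j : Fin d) :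
    E →+ ℚ_[2] := l.toAddMonoidHom.comp (e.coord j).toAddMonoidHom

theorem crd_apply {d : ℕ} (e : Module.Basis (Fin d) K E) (l : K →ₗ[ℚ_[2]] ℚ_[2]) (j : Fin d)
    (y : E) : crd e l j y = l (e.repr y j) := rfl

theorem l_aK (l : K →ₗ[ℚ_[2]] ℚ_[2]) (r : ℤ_[2]) (y : K) : l (aK K r * y) = r • l y := by
  have h1 : aK K r * y = (algebraMap ℤ_[2] ℚ_[2] r) • y := by
    rw [Algebra.smul_def]
    rfl
  rw [h1, map_smul]
  rfl

theorem crd_smul {d : ℕ} (e : Module.Basis (Fin d) K E) (l : K →ₗ[ℚ_[2]] ℚ_[2]) (j : Fin d)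
    (r : ℤ_[2]) (y : E) : crd e l j (aK K r • y) = r • crd e l j y := by
  rw [crd_apply, crd_apply, map_smul, Finsupp.smul_apply, smul_eq_mul, l_aK]

theorem eq_zero_of_crd {d : ℕ} (e : Module.Basis (Fin d) K E) {y : E}
    (h : ∀ l j, crd e l j y = 0) : y = 0 := by
  apply e.repr.injective
  rw [map_zero]
  ext j
  exact (Module.forall_dual_apply_eq_zero_iff ℚ_[2] _).1 fun l => h l j

end pull

variable {k : Type u} [Field k] {𝒱 : VarClass k} {ops : CycleOps 𝒱}
  {W : WeilCohomology.{u, 0} ops} [Algebra ℚ_[2] W.K] {Γ : Type} [Group Γ] {χ : Γ →* W.Kˣ}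
  {ι : Type} [Fintype ι] [DecidableEq ι] {X : ι → GVar W Γ} {Z : GVar W Γ}
  {T : Type} [AddCommGroup T] [Module ℤ_[2] T]
  {ρ : Representation ℤ_[2] Γ T} {cy : Γ →* ℤ_[2]ˣ} {B : T →ₗ[ℤ_[2]] T →ₗ[ℤ_[2]] ℤ_[2]}
  {π : ι → Module.End ℤ_[2] T}

/-- The maps from the lattice to the transcendental cohomology. -/
structure LatData (χ : Γ →* W.Kˣ) (X : ι → GVar W Γ) (hG : ∀ i, IsGalois W χ (X i).X (X i).act)
    (ρ : Representation ℤ_[2] Γ T) (cy : Γ →* ℤ_[2]ˣ)
    (π : ι → Module.End ℤ_[2] T) (ε : ∀ i, T →+ transcendental W (X i).X) (c : ι → ℕ) : Prop where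
  smul : ∀ i (r : ℤ_[2]) x, ε i (r • x) = aK W.K r • ε i x
  proj : ∀ i x, ε i (π i x) = ε i x
  proj_ne : ∀ i j x, i ≠ j → ε i (π j x) = 0
  span : ∀ i, Submodule.span W.K (Set.range (ε i)) = ⊤
  act : ∀ i g x, rhoT (hG i) g (ε i x) = (χ g : W.K) ^ c i • ε i (ρ g x)
  chi : ∀ g, (χ g : W.K) = aK W.K (((cy g)⁻¹ : ℤ_[2]ˣ) : ℤ_[2])

variable {hG : ∀ i, IsGalois W χ (X i).X (X i).act} {ε : ∀ i, T →+ transcendental W (X i).X}
  {c : ι → ℕ}

theorem chi_zpow (h : LatData χ X hG ρ cy π ε c) (g : Γ) (m : ℤ) :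
    (((χ g) ^ m : W.Kˣ) : W.K) = aK W.K (((cy g) ^ (-m) : ℤ_[2]ˣ) : ℤ_[2]) := by
  have h1 : χ g = Units.map (aK W.K : ℤ_[2] →* W.K) (cy g)⁻¹ := Units.ext (h.chi g)
  rw [h1, ← map_zpow, inv_zpow', Units.coe_map]
  rfl

/-- The maps to the sum. -/
noncomputable def sgl {S : Type} (ε : ∀ i, T →+ transcendental W (X i).X) (c' : S → ι) (s : S) :
    T →+ ∀ j, transcendental W (X j).X :=
  (AddMonoidHom.single (fun j => transcendental W (X j).X) (c' s)).comp (ε (c' s))

theorem sgl_apply {S : Type} (c' : S → ι) (s : S) (x : T) :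
    sgl ε c' s x = Pi.single (c' s) (ε (c' s) x) := rfl

theorem sgl_smul (h : LatData χ X hG ρ cy π ε c) {S : Type} (c' : S → ι) (s : S) (r : ℤ_[2])
    (x : T) : sgl ε c' s (r • x) = aK W.K r • sgl ε c' s x := by
  rw [sgl_apply, sgl_apply, h.smul, Pi.single_smul]

/-- Equivariance of the restrictions. -/
theorem isTW_pull (h : LatData χ X hG ρ cy π ε c) {S : Type} [Fintype S] [DecidableEq S]
    {m : ℤ} {Δ : Subgroup Γ} (hΔ : Δ.FiniteIndex)
    {E : Type} [AddCommGroup E] [Module W.K E] (τ : Γ → E →ₗ[W.K] E)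
    {d : ℕ} (e : Module.Basis (Fin d) W.K E) (t : Γ →* Matrix (Fin d) (Fin d) ℤ_[2])
    (ht : ∀ g i, τ g (e i) = ∑ j, aK W.K (t g j i) • e j)
    (f : MultilinearMap W.K (fun _ : S => ∀ j, transcendental W (X j).X) E)
    (hf : ∀ g ∈ Δ, ∀ x : S → ∀ j, transcendental W (X j).X,
      f (fun s j => rhoT (hG j) g (x s j)) = (((χ g) ^ m : W.Kˣ) : W.K) • τ g (f x))
    (c' : S → ι) (l : W.K →ₗ[ℚ_[2]] ℚ_[2]) :
    IsTW ρ S (tw cy ((∑ s, (c (c' s) : ℤ)) - m) t)
      (fun j => pullF f (sgl ε c') (sgl_smul h c') (crd e l j) (crd_smul e l j)) := by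
  refine ⟨Δ, hΔ, fun g hg j x => ?_⟩
  simp only [pullF_apply]
  set y := f (fun s => sgl ε c' s (x s)) with hy
  have h1 := hf g hg (fun s => sgl ε c' s (x s))
  have h2 : (fun s j => rhoT (hG j) g (sgl ε c' s (x s) j)) =
      fun s => ((χ g : W.K) ^ c (c' s)) • sgl ε c' s (ρ g (x s)) := by
    funext s j
    rw [sgl_apply, sgl_apply, Pi.smul_apply]
    by_cases hj : j = c' s
    · subst hj
      rw [Pi.single_eq_same, Pi.single_eq_same, h.act]
    · rw [Pi.single_eq_of_ne hj, Pi.single_eq_of_ne hj, map_zero, smul_zero]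
  rw [h2, MultilinearMap.map_smul_univ, ← hy] at h1
  have h3 : f (fun s => sgl ε c' s (ρ g (x s))) =
      aK W.K (((cy g) ^ ((∑ s, (c (c' s) : ℤ)) - m) : ℤ_[2]ˣ) : ℤ_[2]) • τ g y := by
    have h4 : (∏ s, (χ g : W.K) ^ c (c' s)) =
        (((χ g) ^ (∑ s, (c (c' s) : ℤ)) : W.Kˣ) : W.K) := by
      rw [← Nat.cast_sum, zpow_natCast, Finset.prod_pow_eq_pow_sum, Units.val_pow_eq_pow_val]
    rw [h4] at h1
    have h5 := congrArg (fun z => (((χ g) ^ (-(∑ s, (c (c' s) : ℤ))) : W.Kˣ) : W.K) • z) h1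
    simp only [smul_smul, ← Units.val_mul, ← zpow_add] at h5
    rw [neg_add_cancel, zpow_zero, Units.val_one, one_smul] at h5
    rw [h5, chi_zpow h]
    congr 4
    ring
  rw [h3, crd_smul]
  have h6 : crd e l j (τ g y) = ∑ i, t g j i • crd e l i y := by
    have h7 : τ g y = ∑ i, e.repr y i • τ g (e i) := by
      conv_lhs => rw [← e.sum_repr y, map_sum]
      exact Finset.sum_congr rfl fun i _ => map_smul _ _ _
    rw [crd_apply, h7]
    simp only [ht, map_sum, Finsupp.finsetSum_apply, map_smul, Finsupp.smul_apply, smul_eq_mul,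
      Module.Basis.repr_self, Finsupp.single_apply, mul_ite, mul_one, mul_zero,
      Finset.sum_ite_eq', Finset.mem_univ, if_true]
    refine Finset.sum_congr rfl fun i _ => ?_
    rw [mul_comm, l_aK]
    rfl
  rw [h6, Finset.smul_sum]
  refine Finset.sum_congr rfl fun i _ => ?_
  rw [tw_apply, Matrix.smul_apply, smul_eq_mul, mul_smul]

end Pool.Agent.N171.Ht
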