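import Mathlib
import Pool.Agent.V11219.SstStd
import Pool.Agent.N171.Ht5

/-!
# The conjectures for the products with powers
-/

open CategoryTheory AlgebraicGeometry Finset Function

set_option linter.unusedSectionVars false
set_option linter.unusedVariables false

namespace Pool.Agent.N171.Ht

universe u

open Pool.Agent.TH125.Gal Pool.Agent.TH118.SG Pool.Agent.V11219.IsoF Pool.Agent.V11219.Loc
  Pool.Agent.V11219.Quad

open Pool.Agent.H914 Pool.Agent.H914.VarClass Pool.Agent.H914.VarClass.Obj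
  Pool.Agent.H914.WeilCohomology Pool.Agent.H281R3.HT Pool.Agent.W552 Pool.Agent.H447

variable {k : Type u} [Field k] {𝒱 : VarClass k} {ops : CycleOps 𝒱}
  {W : WeilCohomology.{u, 0} ops} {Γ : Type} [Group Γ] {χ : Γ →* W.Kˣ} {G : Set (GVar W Γ)}
  {ι : Type} {X : ι → GVar W Γ} {D : ∀ i, (X i).X.Cycles} {Z : GVar W Γ}
  [Fintype ι] [DecidableEq ι]

/-- Varieties for which the symplectic Lie algebras kill all the equivariant forms with values in the
cohomology of the base. -/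
structure KSys (χ : Γ →* W.Kˣ) (G : Set (GVar W Γ)) (X : ι → GVar W Γ)
    (D : ∀ i, (X i).X.Cycles) (Z : GVar W Γ) : Prop where
  galoisClass : GaloisClass χ G
  mem : ∀ i, X i ∈ G
  mem_base : Z ∈ G
  odd : ∀ i, Odd (X i).X.dim
  pol : ∀ i, IsPolarization W (X i).X (D i)
  middle : ∀ i, transcendental W (X i).X ≤ W.gr (X i).X (X i).X.dim
  one_ne : ∀ i, (1 : W.H (X i).X) ≠ 0
  base : ∀ (hG : ∀ i, IsGalois W χ (X i).X (X i).act) i, KP hG Z.X Z.act i

theorem KSys.gal (h : KSys χ G X D Z) (i : ι) : IsGalois W χ (X i).X (X i).act :=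
  isGalois (h.galoisClass.galois _ (h.mem i))

/-- The action on the towers. -/
theorem KSys.tower (h : KSys χ G X D Z)
    (E : Z.X.Cycles) (L : List (ι × ℕ)) :
    ∃ υ : Γ →* (W.H (tower' ops (fun i => ⟨(X i).X, D i⟩) ⟨Z.X, E⟩ L).X ≃ₐ[W.K]
        W.H (tower' ops (fun i => ⟨(X i).X, D i⟩) ⟨Z.X, E⟩ L).X),
      (⟨(tower' ops (fun i => ⟨(X i).X, D i⟩) ⟨Z.X, E⟩ L).X, υ⟩ : GVar W Γ) ∈ G ∧
      ∀ i, i ∉ L.map Prod.fst →
        KP h.gal (tower' ops (fun i => ⟨(X i).X, D i⟩) ⟨Z.X, E⟩ L).X υ i := by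
  induction L with
  | nil => exact ⟨Z.act, h.mem_base, fun i _ => h.base h.gal i⟩
  | cons a L ih =>
    obtain ⟨τ, hτ, hK⟩ := ih
    obtain ⟨υ, hυ, hP⟩ := exists_pow_act h.galoisClass (h.mem a.1) hτ (D a.1) a.2
    refine ⟨υ, hυ, fun i hi => ?_⟩
    rw [List.map_cons, List.mem_cons, not_or] at hi
    exact KP.step h.gal hi.1 (hK i hi.2) (homEqNum_of_pol (h.pol a.1)) hP

/-- The conditions for one step. -/
theorem KSys.split (h : KSys χ G X D Z) (i : ι)
    {Y : 𝒱.Obj} {υ : Γ →* (W.H Y ≃ₐ[W.K] W.H Y)} (hY : (⟨Y, υ⟩ : GVar W Γ) ∈ G)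
    (hK : KP h.gal Y υ i) : SplitData (X i) (D i) ⟨Y, υ⟩ := by
  have hpol := h.pol i
  have hmid := h.middle i
  have hDX := homEqNum_of_pol hpol
  have hfull : FullP (P := ⟨(X i).X, D i⟩) χ (h.gal i) υ := fullP_of h.gal hK (D i) hmid (h.odd i)
  exact ⟨hpol, hmid, h.one_ne i, fun s m c hc =>
    tgt_of_fullP h.galoisClass (h.mem i) hY hmid hDX (h.odd i) hfull s m c hc⟩

/-- **The conjecture D.** -/
theorem KSys.homEqNum (h : KSys χ G X D Z) (E : Z.X.Cycles)
    (L : List (ι × ℕ)) (hL : (L.map Prod.fst).Nodup) :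
    HomEqNum W (nodalTower X D Z E L).X ↔ HomEqNum W Z.X := by
  rw [nodalTower, tower_eq]
  induction L with
  | nil => exact Iff.rfl
  | cons a L ih =>
    rw [List.map_cons, List.nodup_cons] at hL
    obtain ⟨υ, hυ, hK⟩ := h.tower E L
    have hN := h.split a.1 hυ (hK a.1 hL.1)
    rw [← ih hL.2]
    constructor
    · intro h1
      obtain ⟨x, hx⟩ := exists_tr hN.one_ne
      have h2 : W.tr (nest ops a.2 fun _ => (⟨(X a.1).X, D a.1⟩ : Polarized 𝒱)).X
          (mono (prj ops a.2 fun _ => (⟨(X a.1).X, D a.1⟩ : Polarized 𝒱)) fun _ => x) ≠ 0 := by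
        rw [tr_mono]
        exact pow_ne_zero _ hx
      exact homEqNum_factor h2 h1
    · intro h1
      exact hN.homEqNum_prod a.2 h1

/-- **The conjecture of Hodge type.** -/
theorem KSys.hodge (h : KSys χ G X D Z) {E : Z.X.Cycles}
    (hE : IsPolarization W Z.X E) (L : List (ι × ℕ)) (hL : (L.map Prod.fst).Nodup) :
    HodgeType W (nodalTower X D Z E L).X (nodalTower X D Z E L).D ∧
      HomEqNum W (nodalTower X D Z E L).X := by
  rw [nodalTower, tower_eq]
  have key : ∃ g, Fp W (tower' ops (fun i => ⟨(X i).X, D i⟩) ⟨Z.X, E⟩ L).X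
      (tower' ops (fun i => ⟨(X i).X, D i⟩) ⟨Z.X, E⟩ L).D g := by
    induction L with
    | nil =>
      obtain ⟨g, hg, _⟩ := exists_Fp hE.div hE.hard hE.lefschetz hE.hodge
      exact ⟨g, hg⟩
    | cons a L ih =>
      rw [List.map_cons, List.nodup_cons] at hL
      obtain ⟨υ, hυ, hK⟩ := h.tower E L
      exact (h.split a.1 hυ (hK a.1 hL.1)).fp_prod a.2 (ih hL.2)
  obtain ⟨g, F⟩ := key
  exact F.hodge

/-- **The conjecture A for towers and all divisors.** -/
theorem KSys.lefAll (h : KSys χ G X D Z) (E : Z.X.Cycles)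
    (L : List (ι × ℕ)) (hL : (L.map Prod.fst).Nodup) :
    LefAll W (nodalTower X D Z E L).X ↔ LefAll W Z.X := by
  rw [nodalTower, tower_eq]
  induction L with
  | nil => exact Iff.rfl
  | cons a L ih =>
    rw [List.map_cons, List.nodup_cons] at hL
    obtain ⟨υ, hυ, hK⟩ := h.tower E L
    have hN := h.split a.1 hυ (hK a.1 hL.1)
    rw [← ih hL.2]
    exact hN.lefAll_iff a.2

end Pool.Agent.N171.Ht
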