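import Mathlib
import Pool.Agent.V11219.LocDefs
import Pool.Agent.N171.Defs

/-!
# Varieties whose transcendental cohomology is the Tate module of a hyperelliptic Jacobian: definitions
-/

open CategoryTheory AlgebraicGeometry

universe u

namespace Pool.Agent.N171.Ht

open Pool.Agent.TH125.Gal Pool.Agent.V11219.Loc Pool.Agent.H914 Pool.Agent.H914.VarClass
  Pool.Agent.H914.VarClass.Obj Pool.Agent.H914.WeilCohomology Pool.Agent.H281R3.HT

noncomputable section

section field

variable {K F : Type} [Field K] [Field F] [Algebra K F] {C : Type} [Field C] [Algebra ℚ_[2] C]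

variable (C) in
/-- The inclusion of the 2-adic integers in a field which contains the 2-adic numbers. -/
def incl : ℤ_[2] →+* C := (algebraMap ℚ_[2] C).comp (algebraMap ℤ_[2] ℚ_[2])

variable (K F C) in
/-- The action of the Galois group on the Tate twists: the inverse of the 2-adic cyclotomic
character, with values in a field `C` which contains the 2-adic numbers. -/
def twistChar : (F ≃ₐ[K] F) →* Cˣ := (Units.map (incl C : ℤ_[2] →* C)).comp (cyc K F)⁻¹

/-- The map `ρ` preserves the lattice spanned over the 2-adic integers by the basis `e`, and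
it acts trivially on the lattice modulo `2 ^ n`. -/
def PresLat {A : Type} [AddCommGroup A] [Module C A] {d : ℕ} (e : Module.Basis (Fin d) C A)
    (ρ : A → A) (n : ℕ) : Prop :=
  ∀ i j, ∃ z : ℤ_[2], e.repr (ρ (e i)) j = incl C ((if i = j then 1 else 0) + 2 ^ n * z)

/-- The space `A` has a lattice `L` over the 2-adic integers which is stable under the Galois group,
such that all the homomorphisms `l k` are trivial on the elements of `K` which become squares in the
field `K (ζ_8, L / 4)`. -/
def IndepOf {A : Type} [Ring A] [Algebra C A] (ρ : (F ≃ₐ[K] F) →* (A ≃ₐ[C] A)) {κ : Type}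
    (l : κ → (Kˣ →* ℤˣ)) : Prop :=
  ∃ (d : ℕ) (e : Module.Basis (Fin d) C A), (∀ s, PresLat e (ρ s) 0) ∧
    ∀ k (u : Kˣ) (r : F), r ^ 2 = algebraMap K F u →
      (∀ s, (∀ x : F, x ^ 8 = 1 → s x = x) → PresLat e (ρ s) 2 → s r = r) → l k u = 1

/-- The subspace `T` of `A` is the Tate twist of the 2-adic Tate module of `M`: it is spanned by the
image of an additive map, linear over the 2-adic integers and equivariant up to `χ ^ c`. -/
def IsTwistOf {Γ : Type} [Group Γ] (χ : Γ →* Cˣ) {A : Type} [Ring A] [Algebra C A]
    (T : Submodule C A) (ρ : Γ →* (A ≃ₐ[C] A)) {M : Type} [AddCommGroup M] (φ : Γ → (M →+ M))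
    (c : ℕ) : Prop :=
  ∃ ε : TateMod 2 M →+ A, (∀ (r : ℤ_[2]) x, ε (r • x) = incl C r • ε x) ∧
    Submodule.span C (Set.range ε) = T ∧
    ∀ g x, ρ g (ε x) = (χ g : C) ^ c • ε (tmMap (φ g) x)

/-- The hypothesis on the differences of the branch points modulo squares: the homomorphism `l i k` is
`-1` at the difference of `α i a` and `α i b` if and only if `a` and `b` are in the set `I i k`, of even
cardinality; it is `1` at the differences of the branch points of the other curves. The sets `I i k`,
for fixed `i`, generate the sets of even cardinality and are connected by odd intersections. -/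
structure SignData {ι : Type} {τ κ : ι → Type} [∀ i, DecidableEq (τ i)]
    (α : ∀ i, τ i → K) (I : ∀ i, κ i → Finset (τ i)) (l : ∀ i, κ i → (Kˣ →* ℤˣ)) : Prop where
  even : ∀ i k, Even (I i k).card
  span : ∀ i (a b : τ i), a ≠ b → ind {a, b} ∈ AddSubgroup.closure (Set.range fun k => ind (I i k))
  conn : ∀ i (k k' : κ i), Relation.ReflTransGen (fun k k' => Odd (I i k ∩ I i k').card) k k'
  same : ∀ i k (a b : τ i) (u : Kˣ), (u : K) = α i a - α i b →
    l i k u = if a ∈ I i k ∧ b ∈ I i k then -1 else 1
  other : ∀ i k j, j ≠ i → ∀ (a b : τ j) (u : Kˣ), (u : K) = α j a - α j b → l i k u = 1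

end field

variable {k : Type u} [Field k] {𝒱 : VarClass k} {ops : CycleOps 𝒱}
  {W : WeilCohomology.{u, 0} ops} {Γ : Type} [Group Γ] {ι : Type}

/-- The group acts on the cohomology of the members of the class `G` with the formal properties
of a Galois action, and `G` is closed under products. The variety `Z` and the odd-dimensional
varieties `X i` are members of `G`; the divisors `D i` on `X i` satisfy the hard Lefschetz theorem and
the standard conjectures of Lefschetz and of Hodge type; the transcendental cohomology of `X i` is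
not zero, and it is in the middle degree. -/
structure PolSystem (χ : Γ →* W.Kˣ) (G : Set (GVar W Γ)) (X : ι → GVar W Γ)
    (D : ∀ i, (X i).X.Cycles) (Z : GVar W Γ) : Prop where
  galois : ∀ A ∈ G, IsGaloisVar χ A
  prod : ClosedUnderProducts G
  mem : ∀ i, X i ∈ G
  mem_base : Z ∈ G
  odd : ∀ i, Odd (X i).X.dim
  pol : ∀ i, IsPolarization W (X i).X (D i)
  middle : ∀ i, transcendental W (X i).X ≤ W.gr (X i).X (X i).X.dim
  ne_bot : ∀ i, transcendental W (X i).X ≠ ⊥

end

end Pool.Agent.N171.Ht
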