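import Mathlib
import Pool.Agent.N171.Ht6
import Pool.Agent.N171.HtDefs
import Pool.Agent.N171.AsmW

/-!
# Varieties whose transcendental cohomology is the Tate module of a hyperelliptic Jacobian
-/

open CategoryTheory AlgebraicGeometry Finset Function

set_option linter.unusedSectionVars false
set_option linter.unusedVariables false

namespace Pool.Agent.N171.Ht

universe u

open Pool.Agent.TH125.Gal Pool.Agent.TH118.SG Pool.Agent.V11219.Loc

open Pool.Agent.H914 Pool.Agent.H914.VarClass Pool.Agent.H914.VarClass.Obj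
  Pool.Agent.H914.WeilCohomology Pool.Agent.H281R3.HT

open TensorProduct Pool.Agent.H204R3.GP

noncomputable section

section lat

variable {K F : Type} [Field K] [Field F] [Algebra K F] {C H : Type} [Field C]
  [Algebra ℚ_[2] C] [AddCommGroup H] [Module C H] {κ : Type}

theorem incl_eq : incl C = aK C := rfl

theorem latK {A : (F ≃ₐ[K] F) →* Module.End C H} {d : ℕ}
    {b : Module.Basis (Fin d) C H} (h : ∀ s, PresLat b (A s) 0) :
    ∃ t : (F ≃ₐ[K] F) →* Matrix (Fin d) (Fin d) ℤ_[2],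
      (∀ s i, A s (b i) = ∑ j, aK C (t s j i) • b j) ∧
      ∀ s, PresLat b (A s) 2 → ∃ Z, t s = 1 + (4 : ℤ_[2]) • Z := by
  have h' : ∀ s i j, ∃ z : ℤ_[2], b.repr (A s (b i)) j = aK C z := by
    intro s i j
    obtain ⟨z, hz⟩ := h s i j
    exact ⟨(if i = j then 1 else 0) + 2 ^ 0 * z, hz⟩
  choose z hz using h'
  have hinj : Function.Injective (aK C) :=
    (algebraMap ℚ_[2] C).injective.comp (FaithfulSMul.algebraMap_injective ℤ_[2] ℚ_[2])
  let t : (F ≃ₐ[K] F) → Matrix (Fin d) (Fin d) ℤ_[2] := fun s => Matrix.of fun j i => z s i j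
  have ht : ∀ s, (aK C).mapMatrix (t s) = LinearMap.toMatrix b b (A s) := by
    intro s
    ext j i
    rw [LinearMap.toMatrix_apply, hz]
    rfl
  have hinj' : Function.Injective ((aK C).mapMatrix :
      Matrix (Fin d) (Fin d) ℤ_[2] →+* Matrix (Fin d) (Fin d) C) := Matrix.map_injective hinj
  refine ⟨⟨⟨t, ?_⟩, ?_⟩, fun s i => ?_, fun s hs => ?_⟩
  · apply hinj'
    rw [ht, map_one A, map_one ((aK C).mapMatrix :
      Matrix (Fin d) (Fin d) ℤ_[2] →+* Matrix (Fin d) (Fin d) C)]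
    exact LinearMap.toMatrix_one b
  · intro s s'
    apply hinj'
    change (aK C).mapMatrix (t (s * s')) = (aK C).mapMatrix (t s * t s')
    rw [map_mul, ht, ht, ht, map_mul A]
    exact LinearMap.toMatrix_mul b _ _
  · conv_lhs => rw [← b.sum_repr (A s (b i))]
    refine Finset.sum_congr rfl fun j _ => ?_
    rw [hz]
    rfl
  · choose y hy using hs
    refine ⟨Matrix.of fun j i => y i j, ?_⟩
    ext j i
    apply hinj
    change aK C (z s i j) = aK C ((1 : Matrix (Fin d) (Fin d) ℤ_[2]) j i + 4 * y i j)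
    have h1 : aK C (z s i j) = b.repr (A s (b i)) j := (hz s i j).symm
    rw [h1, hy, incl_eq, Matrix.one_apply]
    have h4 : (2 : ℤ_[2]) ^ 2 = 4 := by norm_num
    rw [h4]
    congr 2
    by_cases h : i = j
    · rw [if_pos h, if_pos h.symm]
    · rw [if_neg h, if_neg (Ne.symm h)]

end lat

variable {k : Type u} [Field k] {𝒱 : VarClass k} {ops : CycleOps 𝒱}
  {W : WeilCohomology.{u, 0} ops} [Algebra ℚ_[2] W.K]
  {K F : Type} [Field K] [Field F] [Algebra K F] [IsAlgClosed F] {ι : Type} [Fintype ι]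
  [DecidableEq ι] {τ κ : ι → Type} [∀ i, Fintype (τ i)] [∀ i, DecidableEq (τ i)] {α : ∀ i, τ i → K}
  [∀ i, Hyp (α i)] {I : ∀ i, κ i → Finset (τ i)} {l : ∀ i, κ i → (Kˣ →* ℤˣ)}
  {G : Set (GVar W (F ≃ₐ[K] F))} {X : ι → GVar W (F ≃ₐ[K] F)} {D : ∀ i, (X i).X.Cycles}
  {Z : GVar W (F ≃ₐ[K] F)}

theorem twistChar_apply {C : Type} [Field C] [Algebra ℚ_[2] C] (g : F ≃ₐ[K] F) :
    (twistChar K F C g : C) = aK C (((cyc K F g)⁻¹ : ℤ_[2]ˣ) : ℤ_[2]) := rfl

/-- The symplectic Lie algebras kill all forms on the Tate modules with values in a representation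
which is trivial modulo four on sufficiently many elements. -/
theorem killsAll_jac (h2 : (2 : F) ≠ 0) (hs : SignData α I l) {d : ℕ}
    (t : (F ≃ₐ[K] F) →* Matrix (Fin d) (Fin d) ℤ_[2])
    (hl : ∀ i k (u : Kˣ) (r : F), r ^ 2 = algebraMap K F u →
      (∀ s ∈ NW t, s r = r) → l i k u = 1) :
    KillsAll (tateRep F α) (cyc K F) (BT α h2) (pj α) t := by
  choose v hv using fun q k => exists_lift (F := F) α q
    (two_DS (isClasses_ThJ (F := F) (α q)) (I q k))
  choose σ hσN hσ using fun x : Σ q, κ q =>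
    exists_sigmaN (F := F) α (NW t) (l x.1 x.2) (fun u r hr hN => hl x.1 x.2 u r hr hN)
  have hσ8 : ∀ x, ∃ z, ((cyc K F (σ x) : ℤ_[2]ˣ) : ℤ_[2]) = 1 + 8 * z :=
    fun x => cyc_eight h2 (hσN x).1
  have hact : ∀ (x : Σ q, κ q) (y : TT F α), ∃ z, tateRep F α (σ x) y = y +
      (2 : ℤ_[2]) • (BT α h2 (sg α x.1 (v x.1 x.2)) y • sg α x.1 (v x.1 x.2)) +
      (4 : ℤ_[2]) • z := by
    intro x y
    refine act_mod α h2 (σ x) (hs.even x.1 x.2) (hv x.1 x.2) ?_ ?_ y
    · exact hs_of α (hσ x x.1) (hs.same x.1 x.2)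
    · intro r hr
      refine hs_of α (hσ x r) ?_
      intro i j u hu
      rw [hs.other x.1 x.2 r hr i j u hu]
      simp
  have hconn' : ∀ k l : Σ q, κ q, k.1 = l.1 → Relation.ReflTransGen
      (Adj (BT α h2) (fun x : Σ q, κ q => sg α x.1 (v x.1 x.2)) Sigma.fst) k l := by
    rintro ⟨q, k⟩ ⟨q', k'⟩ (rfl : q = q')
    exact Relation.ReflTransGen.lift (fun k => (⟨q, k⟩ : Σ q, κ q))
      (fun a b hab => adj_iff α h2 I hs.even v hv hab) _ _ (hs.conn q k k')
  exact killsAll_of (tateRep F α) (cyc K F) (BT α h2) (pj α) (BT_self α h2)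
    (BT_nd α h2) (pj_sum α) (pj_pj α) (pj_pj_ne α) (BT_pj α h2)
    (fun x : Σ q, κ q => sg α x.1 (v x.1 x.2)) Sigma.fst σ hσ8 hact hconn'
    (span_mem α I v hv hs.span) (BT_act α h2) (pj_act α) t (fun k => (hσN k).2)

/-- The map from the lattice to the transcendental cohomology. -/
def epsJ (α : ∀ i, τ i → K) [∀ i, Hyp (α i)] {i : ι} {A : GVar W (F ≃ₐ[K] F)}
    (ε : TateMod 2 (Jac F (α i)) →+ W.H A.X)
    (h : Submodule.span W.K (Set.range ε) = transcendental W A.X) :
    TT F α →+ transcendental W A.X where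
  toFun x := ⟨ε (ev α i x), by
    rw [← h]
    exact Submodule.subset_span ⟨_, rfl⟩⟩
  map_zero' := by
    apply Subtype.ext
    change ε (ev α i 0) = 0
    rw [map_zero, map_zero]
  map_add' x y := by
    apply Subtype.ext
    change ε (ev α i (x + y)) = ε (ev α i x) + ε (ev α i y)
    rw [map_add, map_add]

theorem epsJ_apply {i : ι} {A : GVar W (F ≃ₐ[K] F)}
    (ε : TateMod 2 (Jac F (α i)) →+ W.H A.X)
    (h : Submodule.span W.K (Set.range ε) = transcendental W A.X) (x : TT F α) :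
    (epsJ α ε h x : W.H A.X) = ε (ev α i x) := rfl

/-- The data on the lattices. -/
theorem latData_jac (hG : ∀ i, IsGalois W (twistChar K F W.K) (X i).X (X i).act)
    (ε : ∀ i, TateMod 2 (Jac F (α i)) →+ W.H (X i).X)
    (hr : ∀ i (r : ℤ_[2]) x, ε i (r • x) = incl W.K r • ε i x)
    (h : ∀ i, Submodule.span W.K (Set.range (ε i)) = transcendental W (X i).X) (c : ι → ℕ)
    (hc : ∀ i g x, (X i).act g (ε i x) =
      (twistChar K F W.K g : W.K) ^ c i • ε i (tmMap (jacAct (α i) g) x)) :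
    LatData (twistChar K F W.K) X hG (tateRep F α) (cyc K F) (pj α)
      (fun i => epsJ α (ε i) (h i)) c where
  smul i r x := by
    apply Subtype.ext
    rw [epsJ_apply, map_smul, hr]
    rfl
  proj i x := by
    apply Subtype.ext
    rw [epsJ_apply, epsJ_apply, pj_apply, ev_sg]
  proj_ne i j x hij := by
    apply Subtype.ext
    rw [epsJ_apply, pj_apply, ev_sg_ne α hij, map_zero]
    rfl
  span i := by
    rw [eq_top_iff]
    rintro ⟨y, hy⟩ -
    have h4 : transcendental W (X i).X ≤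
        (Submodule.span W.K (Set.range (epsJ α (ε i) (h i)))).map
          (transcendental W (X i).X).subtype := by
      refine (h i).symm.le.trans (Submodule.span_le.2 ?_)
      rintro _ ⟨z, rfl⟩
      refine ⟨epsJ α (ε i) (h i) (sg α i z), Submodule.subset_span ⟨_, rfl⟩, ?_⟩
      rw [Submodule.subtype_apply, epsJ_apply, ev_sg]
    obtain ⟨z, hz, hzy⟩ := h4 hy
    have h5 : z = ⟨y, hy⟩ := Subtype.ext hzy
    rwa [← h5]
  act i g x := by
    apply Subtype.ext
    exact hc i g (ev α i x)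
  chi g := rfl

/-- **The system.** -/
theorem kSys_jac (hs : SignData α I l) (h : PolSystem (twistChar K F W.K) G X D Z)
    (hJ : ∀ i, ∃ c, IsTwistOf (twistChar K F W.K) (transcendental W (X i).X) (X i).act
      (jacAct (F := F) (α i)) c)
    (hZ : IndepOf Z.act fun x : Σ i, κ i => l x.1 x.2) : KSys (twistChar K F W.K) G X D Z where
  galoisClass := ⟨h.galois, fun A hA B hB => by
    obtain ⟨υ, hυ, hG⟩ := h.prod A hA B hB
    exact ⟨_, hG, IsProdVar.mk υ hυ.1 hυ.2⟩⟩
  mem := h.mem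
  mem_base := h.mem_base
  odd := h.odd
  pol := h.pol
  middle := h.middle
  one_ne i := by
    intro h3
    apply h.ne_bot i
    rw [eq_bot_iff]
    intro t _
    rw [Submodule.mem_bot, ← one_mul t, h3, zero_mul]
  base hG i := by
    have h2 : (2 : F) ≠ 0 := Hyp.two (α := lf F (α i))
    choose c ε hr hsp hc using hJ
    obtain ⟨d, e, he, hl⟩ := hZ
    obtain ⟨t, ht, ht4⟩ := latK (C := W.K) (H := W.H Z.X)
      (A := ⟨⟨fun s => (Z.act s).toLinearMap,
        (congrArg AlgEquiv.toLinearMap (map_one Z.act)).trans rfl⟩,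
        fun s s' => (congrArg AlgEquiv.toLinearMap (map_mul Z.act s s')).trans rfl⟩) he
    have hN : ∀ i k (u : Kˣ) (r : F), r ^ 2 = algebraMap K F u →
        (∀ s ∈ NW t, s r = r) → l i k u = 1 := fun i k u r hr hN =>
      hl ⟨i, k⟩ u r hr fun s hs8 hs4 => hN s ⟨hs8, ht4 s hs4⟩
    have hN1 : ∀ i k (u : Kˣ) (r : F), r ^ 2 = algebraMap K F u →
        (∀ s ∈ NW (1 : (F ≃ₐ[K] F) →* Matrix (Fin 1) (Fin 1) ℤ_[2]), s r = r) → l i k u = 1 :=
      fun i k u r hr hN' => hN i k u r hr fun s hs' => hN' s ⟨hs'.1, 0, by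
        rw [smul_zero, add_zero]
        rfl⟩
    exact kp_base (latData_jac hG ε hr hsp c hc) (BT_self α h2) (BT_nd α h2) (pj_sum α) (pj_pj α)
      (pj_pj_ne α) (BT_pj α h2) e t ht (killsAll_jac h2 hs t hN) (killsAll_jac h2 hs 1 hN1) i
      (h.middle i) (h.odd i)

end

end Pool.Agent.N171.Ht
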