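import Mathlib
import Pool.Agent.N171.Ht7
import Pool.Agent.N171.Bg6

/-!
# Varieties whose transcendental cohomology is the Tate module of a Jacobian with a large Galois group
-/

open CategoryTheory AlgebraicGeometry Finset Function

set_option linter.unusedSectionVars false
set_option linter.unusedVariables false

namespace Pool.Agent.N171.Bk

universe u

open PadicInt Module Pool.Agent.N171 Pool.Agent.N171.Al Pool.Agent.N171.Bg Pool.Agent.N171.Ht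

noncomputable section

section kills

variable {ι : Type} [Fintype ι] [DecidableEq ι] {T : ι → Type} [∀ i, AddCommGroup (T i)]
  [∀ i, Module ℤ_[2] (T i)] {Γ : Type} [Group Γ] [∀ i, Module.Finite ℤ_[2] (T i)]
  [∀ i, Module.Free ℤ_[2] (T i)]
  {ρ : ∀ i, Representation ℤ_[2] Γ (T i)} {d : ℕ} {t : Γ →* Matrix (Fin d) (Fin d) ℤ_[2]}
  {B : ∀ i, T i →ₗ[ℤ_[2]] T i →ₗ[ℤ_[2]] ℤ_[2]} {τ : ι → Type*} [∀ i, Fintype (τ i)]
  [∀ i, DecidableEq (τ i)] {D : ∀ i, τ i → T i} {χ : Γ →* ℤ_[2]ˣ}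

theorem sep_tw {i : ι} (h : Sep ρ t χ i) (M : ℤ) : Sep ρ (tw χ M t) χ i := by
  obtain ⟨m, σ, h1, h2, h3, h4, h5⟩ := h
  refine ⟨m, σ, h1, h2, ?_, h4, h5⟩
  obtain ⟨Z, hZ⟩ := h3
  let χ' : Γ →* ℤ_[2] := (Units.coeHom ℤ_[2]).comp χ
  have h6 : σ ^ M ∈ lev χ' m := (lev χ' m).zpow_mem h4 M
  obtain ⟨z, hz⟩ := h6
  have h7 : (((χ σ) ^ M : ℤ_[2]ˣ) : ℤ_[2]) = 1 + 2 ^ m * z := by
    rw [← map_zpow]
    exact hz
  refine ⟨Z + z • (1 + (2 : ℤ_[2]) ^ m • Z), ?_⟩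
  rw [tw_apply, h7, hZ]
  module

theorem killsAll_pi (hF : ∀ i, Big (B i) (D i) (ρ i) χ) (hS : ∀ i, Sep ρ t χ i) :
    KillsAll (piRep ρ) χ (piB B) (piP T) t := by
  intro S _ _ M φ hφ i u w j x
  exact kill_pi (tw χ M t) hF (sep_tw (hS i) M) hφ j u w x

end kills

end

end Pool.Agent.N171.Bk
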