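import Mathlib
import Pool.Agent.TH125.Gal.Pub2
import Pool.Agent.N171.Bas

/-!
# Varieties whose transcendental cohomology is the Tate module of a hyperelliptic Jacobian: definitions
-/

open CategoryTheory AlgebraicGeometry Polynomial

universe u

namespace Pool.Agent.N171.Htp

open Pool.Agent.TH125.Gal Pool.Agent.H914 Pool.Agent.H914.VarClass
  Pool.Agent.H914.VarClass.Obj Pool.Agent.H914.WeilCohomology Pool.Agent.H281R3.HT

noncomputable section

section one

variable {K τ : Type} [Field K]

/-- The branch points: an odd number of distinct elements of a field of characteristic not two. -/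
class Branch [Fintype τ] (α : τ → K) : Prop where
  inj : Function.Injective α
  odd : Odd (Fintype.card τ)
  two : (2 : K) ≠ 0

variable (F : Type) [Field F] [Algebra K F]

/-- The ring `F[x, y]` of the affine curve `y ^ 2 = ∏ a, (x - α a)`. -/
abbrev Crd [Fintype τ] (α : τ → K) : Type :=
  QuadraticAlgebra F[X] (∏ a, (X - C (algebraMap K F (α a)))) 0

instance [Fintype τ] (α : τ → K) [h : Branch α] : Hyp α := ⟨h.inj, h.odd, h.two⟩

instance instIsDomainCrd [Fintype τ] (α : τ → K) [Branch α] : IsDomain (Crd F α) :=
  inferInstanceAs (IsDomain (RR (lf F α)))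

/-- The indicator function modulo two. -/
def ind2 [DecidableEq τ] (S : Finset τ) : τ → ZMod 2 := fun a => if a ∈ S then 1 else 0

/-- The elements of the 2-adic Tate module of `M`: the compatible sequences of elements of order
a power of two. -/
def TateSeq (M : Type) [CommGroup M] : Set (ℕ → M) := {x | x 0 = 1 ∧ ∀ n, x (n + 1) ^ 2 = x n}

end one

section two

variable {K F : Type} [Field K] [Field F] [Algebra K F] {C : Type} [Field C] [Algebra ℚ_[2] C]

variable (C) in
/-- The inclusion of the 2-adic integers in a field which contains the 2-adic numbers. -/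
def incl : ℤ_[2] →+* C := (algebraMap ℚ_[2] C).comp (algebraMap ℤ_[2] ℚ_[2])

variable (K F C) in
/-- The action of the Galois group on the Tate twists: the inverse of the 2-adic cyclotomic
character, with values in a field `C` which contains the 2-adic numbers. -/
def twistChar : (F ≃ₐ[K] F) →* Cˣ := (Units.map (incl C : ℤ_[2] →* C)).comp
  ((cyclotomicCharacter F 2).comp (MulSemiringAction.toRingAut (F ≃ₐ[K] F) F))⁻¹

/-- The map `φ` on the class group of `F[x, y]` (the group of the points of the Jacobian) is given by
the automorphism `g` of `F`, by the action on the coefficients. -/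
def IsActionOf {τ : Type} [Fintype τ] (α : τ → K) [Branch α] (g : F ≃ₐ[K] F)
    (φ : ClassGroup (Crd F α) → ClassGroup (Crd F α)) : Prop :=
  ∃ f : Crd F α ≃+* Crd F α, (∀ r, f r = ⟨r.re.map (g : F →+* F), r.im.map (g : F →+* F)⟩) ∧
    ∀ x, φ x = ClassGroup.mulEquiv f x

/-- The nonzero subspace `T` of `B` is a Tate twist of the 2-adic Tate module of the group `M`: it is
spanned by the image of a map `ε` on the Tate module which is additive, linear over the 2-adic
integers and compatible with the actions of the Galois group, up to a power of the inverse `χ` of the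
cyclotomic character (`S g φ` says that the map `φ` on `M` is the action of `g`). -/
def IsTwistOf (χ : (F ≃ₐ[K] F) →* Cˣ) {M : Type} [CommGroup M] (S : (F ≃ₐ[K] F) → (M → M) → Prop)
    {A : Type} [Ring A] [Algebra C A] (ρ : (F ≃ₐ[K] F) →* (A ≃ₐ[C] A)) (T B : Submodule C A) :
    Prop :=
  T ≠ ⊥ ∧ T ≤ B ∧ ∃ (ε : (ℕ → M) → A) (c : ℕ), Submodule.span C (ε '' TateSeq M) = T ∧
    ∀ x ∈ TateSeq M, (∀ y ∈ TateSeq M, ε (x * y) = ε x + ε y) ∧
      (∀ r : ℤ_[2], ε (fun n => x n ^ r.appr n) = incl C r • ε x) ∧
      ∀ g φ, S g φ → ρ g (ε x) = (χ g : C) ^ c • ε (fun n => φ (x n))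

/-- The map `ρ` preserves the lattice spanned over the 2-adic integers by the basis `e`, and
it acts trivially on the lattice modulo `2 ^ n`. -/
def PresLat {A : Type} [AddCommGroup A] [Module C A] {d : ℕ} (e : Module.Basis (Fin d) C A)
    (ρ : A → A) (n : ℕ) : Prop :=
  ∀ i j, ∃ z : ℤ_[2], e.repr (ρ (e i)) j = incl C ((if i = j then 1 else 0) + 2 ^ n * z)

/-- The space `A` has a lattice `L` over the 2-adic integers which is stable under the Galois group,
such that all the homomorphisms `l k` are trivial on the elements of `K` which become squares in the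
field `K (ζ_8, L / 4)`. -/
def IndepOf {A : Type} [Ring A] [Algebra C A] (ρ : (F ≃ₐ[K] F) →* (A ≃ₐ[C] A)) {κ : Type}
    (l : κ → (Kˣ →* ℤˣ)) : Prop :=
  ∃ (d : ℕ) (e : Module.Basis (Fin d) C A), (∀ s, PresLat e (ρ s) 0) ∧
    ∀ k (u : Kˣ) (r : F), r ^ 2 = algebraMap K F u →
      (∀ s, (∀ x : F, x ^ 8 = 1 → s x = x) → PresLat e (ρ s) 2 → s r = r) → l k u = 1

/-- The hypothesis on the differences of the branch points modulo squares: the homomorphism `l i k` is
`-1` at the difference of `α i a` and `α i b` if and only if `a` and `b` are in the set `I i k`, of even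
cardinality; it is `1` at the differences of the branch points of the other curves. The sets `I i k`,
for fixed `i`, generate the sets of even cardinality and are connected by odd intersections. -/
structure SignData {ι : Type} {τ κ : ι → Type} [∀ i, DecidableEq (τ i)]
    (α : ∀ i, τ i → K) (I : ∀ i, κ i → Finset (τ i)) (l : ∀ i, κ i → (Kˣ →* ℤˣ)) : Prop where
  even : ∀ i k, Even (I i k).card
  span : ∀ i (a b : τ i), a ≠ b →
    ind2 {a, b} ∈ AddSubgroup.closure (Set.range fun k => ind2 (I i k))
  conn : ∀ i (k k' : κ i), Relation.ReflTransGen (fun k k' => Odd (I i k ∩ I i k').card) k k'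
  same : ∀ i k (a b : τ i) (u : Kˣ), (u : K) = α i a - α i b →
    l i k u = if a ∈ I i k ∧ b ∈ I i k then -1 else 1
  other : ∀ i k j, j ≠ i → ∀ (a b : τ j) (u : Kˣ), (u : K) = α j a - α j b → l i k u = 1

end two

variable {k : Type u} [Field k] {𝒱 : VarClass k} {ops : CycleOps 𝒱}
  {W : WeilCohomology.{u, 0} ops} [Algebra ℚ_[2] W.K]
  {K F : Type} [Field K] [Field F] [Algebra K F] {ι : Type} {τ : ι → Type} [∀ i, Fintype (τ i)]

/-- `G` is a class of varieties with an action of the Galois group of `F` over `K` on the cohomology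
with the formal properties of a Galois action, closed under products. The variety `Z` and the
odd-dimensional varieties `X i` are members of `G`; the divisors `D i` on `X i` satisfy the hard
Lefschetz theorem and the standard conjectures of Lefschetz and of Hodge type; the transcendental
cohomology of `X i` is not zero and in the middle degree, and it is a Tate twist of the Tate module of
the Jacobian of the curve `y ^ 2 = ∏ a, (x - α i a)`. -/
structure TateSystem (α : ∀ i, τ i → K) [∀ i, Branch (α i)] (G : Set (GVar W (F ≃ₐ[K] F)))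
    (X : ι → GVar W (F ≃ₐ[K] F)) (D : ∀ i, (X i).X.Cycles) (Z : GVar W (F ≃ₐ[K] F)) : Prop where
  galois : GaloisClass (twistChar K F W.K) G
  mem : ∀ i, X i ∈ G
  mem_base : Z ∈ G
  odd : ∀ i, Odd (X i).X.dim
  pol : ∀ i, IsPolarization W (X i).X (D i)
  tate : ∀ i, IsTwistOf (twistChar K F W.K) (IsActionOf (F := F) (α i)) (X i).act
    (transcendental W (X i).X) (W.gr (X i).X (X i).X.dim)

end

end Pool.Agent.N171.Htp
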