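import Mathlib
import Pool.Agent.N171.Bk1
import Pool.Agent.N171.BkPub

/-!
# Varieties whose transcendental cohomology is the Tate module of the Jacobian of `y ^ 2 = f (x)`
-/

open CategoryTheory AlgebraicGeometry Finset Function Polynomial

set_option linter.unusedSectionVars false
set_option linter.unusedVariables false

namespace Pool.Agent.N171.Bkp

universe u

open Pool.Agent.TH125.Gal Pool.Agent.TH118.SG Pool.Agent.V11219.Loc Pool.Agent.N171.Ht
  Pool.Agent.N171.Al Pool.Agent.N171.Bg Pool.Agent.N171.Bk Pool.Agent.N171.Pm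

open Pool.Agent.H914 Pool.Agent.H914.VarClass Pool.Agent.H914.VarClass.Obj
  Pool.Agent.H914.WeilCohomology Pool.Agent.H281R3.HT

open TensorProduct Pool.Agent.H204R3.GP

noncomputable section

section seq

variable {K : Type} [Field K] {F : Type} [Field F] [Algebra K F] (f : K[X]) [Branch f]

instance instDomRG : IsDomain (RG (f.map (algebraMap K F))) := instIsDomainCrd F f

variable (F) in
/-- The sequence of classes. -/
def sqOf (x : TateMod 2 (ClG (RG (f.map (algebraMap K F))))) : ℕ → ClassGroup (Crd F f) := fun n =>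
  Additive.toMul (x.1 n : Additive (ClassGroup (RG (f.map (algebraMap K F)))))

theorem sqOf_mem (x : TateMod 2 (ClG (RG (f.map (algebraMap K F))))) :
    sqOf F f x ∈ Htp.TateSeq (ClassGroup (Crd F f)) := by
  refine ⟨?_, fun n => ?_⟩
  · exact congrArg Additive.toMul
      (x.2.1 : (x.1 0 : Additive (ClassGroup (RG (f.map (algebraMap K F))))) = 0)
  · exact congrArg Additive.toMul
      (x.2.2 n : (2 • x.1 (n + 1) : Additive (ClassGroup (RG (f.map (algebraMap K F))))) = x.1 n)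

theorem sqOf_surj {y : ℕ → ClassGroup (Crd F f)} (hy : y ∈ Htp.TateSeq (ClassGroup (Crd F f))) :
    ∃ x, sqOf F f x = y :=
  ⟨⟨fun n => (Additive.ofMul (y n) : Additive (ClassGroup (RG (f.map (algebraMap K F))))),
    congrArg Additive.ofMul hy.1, fun n => congrArg Additive.ofMul (hy.2 n)⟩, rfl⟩

theorem sqOf_add (x y : TateMod 2 (ClG (RG (f.map (algebraMap K F))))) :
    sqOf F f (x + y) = sqOf F f x * sqOf F f y := rfl

theorem sqOf_smul (r : ℤ_[2]) (x : TateMod 2 (ClG (RG (f.map (algebraMap K F))))) :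
    sqOf F f (r • x) = fun n => sqOf F f x n ^ r.appr n := by
  funext n
  have h1 : (PadicInt.toZModPow n r : ZMod (2 ^ n)) = ((r.appr n : ℕ) : ZMod (2 ^ n)) := by
    have h := PadicInt.appr_spec n r
    have h2 : PadicInt.toZModPow n (r - ((r.appr n : ℕ) : ℤ_[2])) = 0 := by
      rw [← RingHom.mem_ker, PadicInt.ker_toZModPow]
      exact h
    rw [map_sub, map_natCast, sub_eq_zero] at h2
    exact h2
  exact congrArg Additive.toMul (tm_smul_eq h1 x :
    ((r • x).1 n : Additive (ClassGroup (RG (f.map (algebraMap K F))))) = (r.appr n) • x.1 n)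

theorem sqOf_act (g : F ≃ₐ[K] F) (x : TateMod 2 (ClG (RG (f.map (algebraMap K F))))) :
    sqOf F f (rhoG (rf_fix f) g x) = fun n =>
      ClassGroup.mulEquiv (gRg (rf_fix f g) : Crd F f ≃+* Crd F f) (sqOf F f x n) := rfl

end seq

variable {K F : Type} [Field K] [Field F] [Algebra K F] {C : Type} [Field C] [Algebra ℚ_[2] C]

/-- The map on the Tate module. -/
theorem twist {f : K[X]} [Branch f] {A : Type} [Ring A]
    [Algebra C A] {ρ : (F ≃ₐ[K] F) →* (A ≃ₐ[C] A)} {T B : Submodule C A}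
    (h : Htp.IsTwistOf (Htp.twistChar K F C) (IsActionOf (F := F) f) ρ T B) :
    ∃ c : ℕ, ∃ ε : TateMod 2 (ClG (RG (f.map (algebraMap K F)))) →+ A,
      (∀ (r : ℤ_[2]) x, ε (r • x) = Ht.incl C r • ε x) ∧
      Submodule.span C (Set.range ε) = T ∧
      ∀ g x, ρ g (ε x) = (Ht.twistChar K F C g : C) ^ c • ε (rhoG (rf_fix f) g x) := by
  obtain ⟨-, -, ε, c, hsp, hε⟩ := h
  have hadd : ∀ x y, ε (sqOf F f (x + y)) = ε (sqOf F f x) + ε (sqOf F f y) := fun x y =>
    (hε _ (sqOf_mem f x)).1 _ (sqOf_mem f y)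
  have h0 : ε (sqOf F f 0) = 0 := by
    have h1 := hadd 0 0
    rw [add_zero] at h1
    exact left_eq_add.1 h1
  refine ⟨c, ⟨⟨fun x => ε (sqOf F f x), h0⟩, hadd⟩, fun r x => ?_, ?_, fun g x => ?_⟩
  · change ε (sqOf F f (r • x)) = _
    rw [sqOf_smul]
    exact (hε _ (sqOf_mem f x)).2.1 r
  · rw [← hsp]
    congr 1
    apply Set.eq_of_subset_of_subset
    · rintro _ ⟨x, rfl⟩
      exact ⟨_, sqOf_mem f x, rfl⟩
    · rintro _ ⟨y, hy, rfl⟩
      obtain ⟨x, rfl⟩ := sqOf_surj f hy
      exact ⟨x, rfl⟩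
  · change ρ g (ε (sqOf F f x)) = (Ht.twistChar K F C g : C) ^ c • ε (sqOf F f (rhoG (rf_fix f) g x))
    rw [sqOf_act]
    refine ((hε _ (sqOf_mem f x)).2.2 g
      (fun y => ClassGroup.mulEquiv (gRg (rf_fix f g) : Crd F f ≃+* Crd F f) y)
      ⟨(gRg (rf_fix f g) : Crd F f ≃+* Crd F f), fun r => ?_, fun y => ?_⟩)
    · rfl
    · rfl

end

end Pool.Agent.N171.Bkp
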