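import Mathlib
import Pool.Agent.N171.Bk2

/-!
# Varieties whose transcendental cohomology is the Tate module of the Jacobian of `y ^ 2 = f (x)`
-/

open CategoryTheory AlgebraicGeometry Finset Function Polynomial

set_option linter.unusedSectionVars false
set_option linter.unusedVariables false

namespace Pool.Agent.N171.Bkp

universe u

open Pool.Agent.TH125.Gal Pool.Agent.TH118.SG Pool.Agent.V11219.Loc Pool.Agent.N171.Ht
  Pool.Agent.N171.Al Pool.Agent.N171.Bg Pool.Agent.N171.Bk Pool.Agent.N171.Pm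

open Pool.Agent.H914 Pool.Agent.H914.VarClass Pool.Agent.H914.VarClass.Obj
  Pool.Agent.H914.WeilCohomology Pool.Agent.H281R3.HT

open TensorProduct Pool.Agent.H204R3.GP

noncomputable section

section forms

variable {K F ι : Type} [Field K] [Field F] [Algebra K F] [Fintype ι] [DecidableEq ι]

theorem exists_forms [IsAlgClosed F] (g : ι → F[X]) [∀ i, IsDomain (RG (g i))]
    (hg : ∀ i (s : F ≃ₐ[K] F), (g i).map ((s : F ≃+* F) : F →+* F) = g i)
    {τ : ι → Type} [∀ i, Fintype (τ i)] [∀ i, DecidableEq (τ i)] (α : ∀ i, τ i → F)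
    [∀ i, Hyp (α i)] (hα : ∀ i, g i = fP (α i)) (h2 : (2 : F) ≠ 0)
    (h6 : ∀ i, 6 ≤ Fintype.card (τ i))
    (hbig : ∀ i (π : Equiv.Perm (τ i)), Equiv.Perm.sign π = 1 →
      ∃ s : F ≃ₐ[K] F, ∀ k, s (α i k) = α i (π k))
    (hsep : ∀ i j, j ≠ i → ∃ s : F ≃ₐ[K] F, (∀ k, s (α j k) = α j k) ∧ ∃ k, s (α i k) ≠ α i k) :
    (∀ i, Module.Finite ℤ_[2] (TateMod 2 (ClG (RG (g i))))) ∧
    ∃ B : ∀ i, TateMod 2 (ClG (RG (g i))) →ₗ[ℤ_[2]] TateMod 2 (ClG (RG (g i))) →ₗ[ℤ_[2]] ℤ_[2],
      (∀ i x, B i x x = 0) ∧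
      (∀ i v, (∀ w, ¬ IsUnit (B i v w)) → ∃ u, (2 : ℤ_[2]) • u = v) ∧
      ∀ (d : ℕ) (t : (F ≃ₐ[K] F) →* Matrix (Fin d) (Fin d) ℤ_[2]),
        (∀ i, 2 ^ (d ^ 2 + 1) < (Fintype.card (τ i)).factorial ∨
          ∃ s, (∃ M, t s = 1 + (2 : ℤ_[2]) • M) ∧ ∃ k, s (α i k) ≠ α i k) →
        KillsAll (piRep fun i => rhoG (hg i)) (cyc K F) (piB B) (piP _) t := by
  obtain rfl : g = fun i => fP (α i) := funext hα
  have hfin : ∀ i, Module.Finite ℤ_[2] (TateMod 2 (ClG (RG (fP (α i))))) :=
    fun i => finite_T (isClasses_ThG (α := α i))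
  obtain ⟨D, hD⟩ := exists_perms α hg h2 h6 hbig
  refine ⟨hfin, BP α h2, fun i => (hD.frame i).alt, fun i => (hD.frame i).nd, fun d t ht => ?_⟩
  have hS : ∀ i, Sep (fun i => rhoG (hg i)) t (cyc K F) i := by
    refine sep_all hD (fun i j hij => ?_) t fun i => ?_
    · obtain ⟨s, hs, k, hk⟩ := hsep i j hij
      exact ⟨s, (prm_one (α j) (hg j)).2 hs, fun h => hk ((prm_one (α i) (hg i)).1 h k)⟩
    · rcases ht i with h | ⟨s, hs, k, hk⟩
      · exact Or.inl h
      · exact Or.inr ⟨s, hs, fun h => hk ((prm_one (α i) (hg i)).1 h k)⟩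
  exact killsAll_pi (fun i => hD.big i) hS

end forms

variable {k : Type u} [Field k] {𝒱 : VarClass k} {ops : CycleOps 𝒱}
  {W : WeilCohomology.{u, 0} ops} [Algebra ℚ_[2] W.K]
  {K F : Type} [Field K] [Field F] [Algebra K F] {ι : Type} [Fintype ι]
  [DecidableEq ι] {f : ι → K[X]} [∀ i, Branch (f i)]
  {G : Set (GVar W (F ≃ₐ[K] F))} {X : ι → GVar W (F ≃ₐ[K] F)} {D : ∀ i, (X i).X.Cycles}
  {Z : GVar W (F ≃ₐ[K] F)}

/-- The map from the lattice to the transcendental cohomology. -/
def epsP (f : ι → K[X]) [∀ i, Branch (f i)] {i : ι} {A : GVar W (F ≃ₐ[K] F)}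
    (ε : TateMod 2 (ClG (RG ((f i).map (algebraMap K F)))) →+ W.H A.X)
    (h : Submodule.span W.K (Set.range ε) = transcendental W A.X) :
    (∀ i, TateMod 2 (ClG (RG ((f i).map (algebraMap K F))))) →+ transcendental W A.X where
  toFun x := ⟨ε (x i), by
    rw [← h]
    exact Submodule.subset_span ⟨_, rfl⟩⟩
  map_zero' := by
    apply Subtype.ext
    change ε 0 = 0
    rw [map_zero]
  map_add' x y := by
    apply Subtype.ext
    change ε (x i + y i) = ε (x i) + ε (y i)
    rw [map_add]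

theorem epsP_apply {i : ι} {A : GVar W (F ≃ₐ[K] F)}
    (ε : TateMod 2 (ClG (RG ((f i).map (algebraMap K F)))) →+ W.H A.X)
    (h : Submodule.span W.K (Set.range ε) = transcendental W A.X)
    (x : ∀ i, TateMod 2 (ClG (RG ((f i).map (algebraMap K F))))) :
    (epsP f ε h x : W.H A.X) = ε (x i) := rfl

/-- The data on the lattices. -/
theorem latData_P [∀ i, Module.Finite ℤ_[2] (TateMod 2 (ClG (RG ((f i).map (algebraMap K F)))))]
    (hG : ∀ i, IsGalois W (Ht.twistChar K F W.K) (X i).X (X i).act)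
    (ε : ∀ i, TateMod 2 (ClG (RG ((f i).map (algebraMap K F)))) →+ W.H (X i).X)
    (hr : ∀ i (r : ℤ_[2]) x, ε i (r • x) = Ht.incl W.K r • ε i x)
    (h : ∀ i, Submodule.span W.K (Set.range (ε i)) = transcendental W (X i).X) (c : ι → ℕ)
    (hc : ∀ i g x, (X i).act g (ε i x) =
      (Ht.twistChar K F W.K g : W.K) ^ c i • ε i (rhoG (rf_fix (f i)) g x)) :
    LatData (Ht.twistChar K F W.K) X hG (piRep fun i => rhoG (rf_fix (f i))) (cyc K F)
      (piP fun i => TateMod 2 (ClG (RG ((f i).map (algebraMap K F)))))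
      (fun i => epsP f (ε i) (h i)) c where
  smul i r x := by
    apply Subtype.ext
    rw [epsP_apply, Pi.smul_apply, hr]
    rfl
  proj i x := by
    apply Subtype.ext
    rw [epsP_apply, epsP_apply, piP_apply, Pi.single_eq_same]
  proj_ne i j x hij := by
    apply Subtype.ext
    rw [epsP_apply, piP_apply, Pi.single_eq_of_ne hij, map_zero]
    rfl
  span i := by
    rw [eq_top_iff]
    rintro ⟨y, hy⟩ -
    have h4 : transcendental W (X i).X ≤
        (Submodule.span W.K (Set.range (epsP f (ε i) (h i)))).map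
          (transcendental W (X i).X).subtype := by
      refine (h i).symm.le.trans (Submodule.span_le.2 ?_)
      rintro _ ⟨z, rfl⟩
      refine ⟨epsP f (ε i) (h i) (Pi.single i z), Submodule.subset_span ⟨_, rfl⟩, ?_⟩
      rw [Submodule.subtype_apply, epsP_apply, Pi.single_eq_same]
    obtain ⟨z, hz, hzy⟩ := h4 hy
    have h5 : z = ⟨y, hy⟩ := Subtype.ext hzy
    rwa [← h5]
  act i g x := by
    apply Subtype.ext
    exact hc i g (x i)
  chi g := rfl

theorem lat_lev {H : Type} [AddCommGroup H] {C : Type} [Field C] [Algebra ℚ_[2] C] [Module C H]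
    {A : H → H} {d : ℕ} {b : Module.Basis (Fin d) C H} {M : Matrix (Fin d) (Fin d) ℤ_[2]}
    (h : ∀ i, A (b i) = ∑ j, aK C (M j i) • b j) {n : ℕ} (hs : Htp.PresLat b A n) :
    ∃ Z, M = 1 + (2 : ℤ_[2]) ^ n • Z := by
  have hinj : Function.Injective (aK C) :=
    (algebraMap ℚ_[2] C).injective.comp (FaithfulSMul.algebraMap_injective ℤ_[2] ℚ_[2])
  choose y hy using hs
  refine ⟨Matrix.of fun j i => y i j, ?_⟩
  ext j i
  apply hinj
  have h1 : aK C (M j i) = b.repr (A (b i)) j := by
    rw [h, map_sum, Finsupp.finsetSum_apply, Finset.sum_eq_single j]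
    · rw [map_smul, Finsupp.smul_apply, Module.Basis.repr_self, Finsupp.single_eq_same,
        smul_eq_mul, mul_one]
    · intro k _ hk
      rw [map_smul, Finsupp.smul_apply, Module.Basis.repr_self, Finsupp.single_eq_of_ne hk.symm,
        smul_zero]
    · intro h
      exact absurd (Finset.mem_univ _) h
  rw [h1, hy]
  change aK C _ = aK C _
  congr 1
  rw [Matrix.add_apply, Matrix.smul_apply, Matrix.one_apply, smul_eq_mul, Matrix.of_apply]
  congr 1
  by_cases h : i = j
  · rw [if_pos h, if_pos h.symm]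
  · rw [if_neg h, if_neg (Ne.symm h)]

/-- **The system.** -/
theorem kSys_large [IsAlgClosed F] (hs : Large F f) (h : TateSystem f G X D Z)
    (hZ : FreeOf Z.act f) : KSys (Ht.twistChar K F W.K) G X D Z where
  galoisClass := h.galois
  mem := h.mem
  mem_base := h.mem_base
  odd := h.odd
  pol := h.pol
  middle i := (h.tate i).2.1
  one_ne i := by
    intro h3
    apply (h.tate i).1
    rw [eq_bot_iff]
    intro t _
    rw [Submodule.mem_bot, ← one_mul t, h3, zero_mul]
  base hG i := by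
    classical
    have hsp : ∀ i, ((f i).map (algebraMap K F)).Splits := fun i => IsAlgClosed.splits _
    have hm : ∀ i, ((f i).map (algebraMap K F)).Monic := fun i => (Branch.monic (f := f i)).map _
    have hnd : ∀ i, ((f i).aroots F).Nodup := fun i => nodup_roots (Branch.sep (f := f i)).map
    have hcard : ∀ i, Fintype.card ((f i).rootSet F) = (f i).natDegree := fun i =>
      card_rootSet_eq_natDegree (Branch.sep (f := f i)) (hsp i)
    have h2 : (2 : F) ≠ 0 := by
      have h1 : (2 : F) = algebraMap K F 2 := by rw [map_ofNat]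
      rw [h1, Ne, map_eq_zero]
      exact Branch.two (f := f i)
    have hyp : ∀ i, Hyp (fun x : (f i).rootSet F => (x : F)) := fun i =>
      { inj := Subtype.val_injective
        odd := by
          rw [hcard]
          exact Branch.odd (f := f i)
        two := h2 }
    have hα : ∀ i, (f i).map (algebraMap K F) = fP (fun x : (f i).rootSet F => (x : F)) := by
      intro i
      rw [(hsp i).eq_prod_roots_of_monic (hm i), fP]
      have h1 : ∏ x ∈ ((f i).aroots F).toFinset, (Polynomial.X - C x) =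
          ∏ x : (f i).rootSet F, (Polynomial.X - C (x : F)) :=
        Finset.prod_subtype _ (fun x => Iff.rfl) _
      rw [← h1, Finset.prod, Multiset.toFinset_val, Multiset.Nodup.dedup (hnd i)]
    obtain ⟨hfin, B, halt, hndB, hkill⟩ := exists_forms (K := K) (F := F)
      (fun i => (f i).map (algebraMap K F)) (fun i => rf_fix (f i))
      (fun i (x : (f i).rootSet F) => (x : F)) hα h2
      (fun i => by rw [hcard]; exact (by norm_num : 6 ≤ 7).trans (Branch.seven (f := f i)))
      (fun i π hπ => by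
        obtain ⟨s, hs⟩ := hs.alt i π (by convert! hπ)
        exact ⟨s, hs⟩) (fun i j hij => by
        obtain ⟨s, hs, x, hx, hsx⟩ := hs.moves i j hij
        exact ⟨s, fun k => hs k k.2, ⟨x, hx⟩, hsx⟩)
    have hJ := fun i => twist (h.tate i)
    choose c ε hr hsp' hc using hJ
    obtain ⟨d, e, he, hl⟩ := hZ
    obtain ⟨t, ht, ht4⟩ := latK (C := W.K) (H := W.H Z.X)
      (A := ⟨⟨fun s => (Z.act s).toLinearMap,
        (congrArg AlgEquiv.toLinearMap (map_one Z.act)).trans rfl⟩,
        fun s s' => (congrArg AlgEquiv.toLinearMap (map_mul Z.act s s')).trans rfl⟩) he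
    have ht2 : ∀ s, Htp.PresLat e (Z.act s) 1 → ∃ M, t s = 1 + (2 : ℤ_[2]) • M := by
      intro s hs
      obtain ⟨M, hM⟩ := lat_lev (ht s) hs
      exact ⟨M, by rw [hM, pow_one]⟩
    refine kp_base (latData_P hG ε hr hsp' c hc) (piB_self B halt) (piB_nd B hndB) piP_sum piP_self
      piP_ne (piB_piP B) e t ht (hkill d t fun i => ?_) (hkill 1 1 fun i => ?_) i
      (h.tate i).2.1 (h.odd i)
    · rcases hl i with h1 | ⟨s, hs, x, hx, hsx⟩
      · exact Or.inl (by rw [hcard]; exact h1)
      · exact Or.inr ⟨s, ht2 s hs, ⟨x, hx⟩, hsx⟩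
    · refine Or.inl ?_
      rw [hcard]
      have h1 : (7).factorial ≤ (f i).natDegree.factorial :=
        Nat.factorial_le (Branch.seven (f := f i))
      refine lt_of_lt_of_le ?_ h1
      decide

end

end Pool.Agent.N171.Bkp
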