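import Mathlib
import Pool.Agent.TH125.Gal.Pub2
import Pool.Agent.N171.PmDefs

/-!
# Varieties whose transcendental cohomology is the Tate module of the Jacobian of `y ^ 2 = f (x)`
-/

open CategoryTheory AlgebraicGeometry Polynomial

universe u

namespace Pool.Agent.N171.Bq

open Pool.Agent.TH125.Gal Pool.Agent.H914 Pool.Agent.H914.VarClass
  Pool.Agent.H914.VarClass.Obj Pool.Agent.H914.WeilCohomology Pool.Agent.H281R3.HT

noncomputable section

/-- The elements of the 2-adic Tate module of `M`: the compatible sequences of elements of order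
a power of two. -/
def TateSeq (M : Type) [CommGroup M] : Set (ℕ → M) := {x | x 0 = 1 ∧ ∀ n, x (n + 1) ^ 2 = x n}

variable {K F : Type} [Field K] [Field F] [Algebra K F] {C : Type} [Field C] [Algebra ℚ_[2] C]

variable (C) in
/-- The inclusion of the 2-adic integers in a field which contains the 2-adic numbers. -/
def incl : ℤ_[2] →+* C := (algebraMap ℚ_[2] C).comp (algebraMap ℤ_[2] ℚ_[2])

variable (K F C) in
/-- The action of the Galois group on the Tate twists: the inverse of the 2-adic cyclotomic
character, with values in a field `C` which contains the 2-adic numbers. -/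
def twistChar : (F ≃ₐ[K] F) →* Cˣ := (Units.map (incl C : ℤ_[2] →* C)).comp
  ((cyclotomicCharacter F 2).comp (MulSemiringAction.toRingAut (F ≃ₐ[K] F) F))⁻¹

/-- The nonzero subspace `T` of `B` is a Tate twist of the 2-adic Tate module of the group `M`: it is
spanned by the image of a map `ε` on the Tate module which is additive, linear over the 2-adic
integers and compatible with the actions of the Galois group, up to a power of the inverse `χ` of the
cyclotomic character (`S g φ` says that the map `φ` on `M` is the action of `g`). -/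
def IsTwistOf (χ : (F ≃ₐ[K] F) →* Cˣ) {M : Type} [CommGroup M] (S : (F ≃ₐ[K] F) → (M → M) → Prop)
    {A : Type} [Ring A] [Algebra C A] (ρ : (F ≃ₐ[K] F) →* (A ≃ₐ[C] A)) (T B : Submodule C A) :
    Prop :=
  T ≠ ⊥ ∧ T ≤ B ∧ ∃ (ε : (ℕ → M) → A) (c : ℕ), Submodule.span C (ε '' TateSeq M) = T ∧
    ∀ x ∈ TateSeq M, (∀ y ∈ TateSeq M, ε (x * y) = ε x + ε y) ∧
      (∀ r : ℤ_[2], ε (fun n => x n ^ r.appr n) = incl C r • ε x) ∧
      ∀ g φ, S g φ → ρ g (ε x) = (χ g : C) ^ c • ε (fun n => φ (x n))

/-- The map `ρ` preserves the lattice spanned over the 2-adic integers by the basis `e`, and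
it acts trivially on the lattice modulo `2 ^ n`. -/
def PresLat {A : Type} [AddCommGroup A] [Module C A] {d : ℕ} (e : Module.Basis (Fin d) C A)
    (ρ : A → A) (n : ℕ) : Prop :=
  ∀ i j, ∃ z : ℤ_[2], e.repr (ρ (e i)) j = incl C ((if i = j then 1 else 0) + 2 ^ n * z)

/-- The polynomial is monic and separable, of odd degree at least seven, and the characteristic
is not two. -/
class Branch (f : K[X]) : Prop where
  monic : f.Monic
  sep : f.Separable
  odd : Odd f.natDegree
  seven : 7 ≤ f.natDegree
  two : (2 : K) ≠ 0

/-- The ring `F[x, y]` of the affine curve `y ^ 2 = f (x)`. -/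
abbrev Crd (F : Type) [Field F] [Algebra K F] (f : K[X]) : Type :=
  QuadraticAlgebra F[X] (f.map (algebraMap K F)) 0

instance instIsDomainCrd (F : Type) [Field F] [Algebra K F] (f : K[X]) [h : Branch f] :
    IsDomain (Crd F f) :=
  rg_domain (by rw [natDegree_map]; exact h.odd)

/-- The map `φ` on the class group of `F[x, y]` (the group of the points of the Jacobian) is given by
the automorphism `g` of `F`, by the action on the coefficients. -/
def IsActionOf (f : K[X]) [Branch f] (g : F ≃ₐ[K] F)
    (φ : ClassGroup (Crd F f) → ClassGroup (Crd F f)) : Prop :=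
  ∃ h : Crd F f ≃+* Crd F f, (∀ r, h r = ⟨r.re.map (g : F →+* F), r.im.map (g : F →+* F)⟩) ∧
    ∀ x, φ x = ClassGroup.mulEquiv h x

/-- The automorphisms of `F` over `K` induce all the even permutations of the roots of `f i`, and for
`j ≠ i` some automorphism fixes the roots of `f j` and moves a root of `f i`. -/
structure Large (F : Type) [Field F] [Algebra K F] {ι : Type} (f : ι → K[X]) : Prop where
  alt : open Classical in ∀ (i : ι) (π : Equiv.Perm ((f i).rootSet F)), Equiv.Perm.sign π = 1 →
    ∃ s : F ≃ₐ[K] F, ∀ x : (f i).rootSet F, s (x : F) = (π x : F)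
  moves : ∀ i j, j ≠ i → ∃ s : F ≃ₐ[K] F, (∀ x ∈ (f j).rootSet F, s x = x) ∧
    ∃ x ∈ (f i).rootSet F, s x ≠ x

/-- The space `A` has a lattice `L`, of rank `d` over the 2-adic integers, which is stable under the
Galois group, and for all `i` some automorphism acts trivially on `L / 2` and moves a root of `f i`,
or `2 ^ (d ^ 2 + 1)` is less than the factorial of the degree of `f i`. -/
def FreeOf {A : Type} [Ring A] [Algebra C A] (ρ : (F ≃ₐ[K] F) →* (A ≃ₐ[C] A)) {ι : Type}
    (f : ι → K[X]) : Prop :=
  ∃ (d : ℕ) (e : Module.Basis (Fin d) C A), (∀ s, PresLat e (ρ s) 0) ∧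
    ∀ i, 2 ^ (d ^ 2 + 1) < (f i).natDegree.factorial ∨
      ∃ s : F ≃ₐ[K] F, PresLat e (ρ s) 1 ∧ ∃ x ∈ (f i).rootSet F, s x ≠ x

variable {k : Type u} [Field k] {𝒱 : VarClass k} {ops : CycleOps 𝒱}
  {W : WeilCohomology.{u, 0} ops} [Algebra ℚ_[2] W.K] {ι : Type}

/-- `G` is a class of varieties with an action of the Galois group of `F` over `K` on the cohomology
with the formal properties of a Galois action, closed under products. The variety `Z` and the
odd-dimensional varieties `X i` are members of `G`; the divisors `D i` on `X i` satisfy the hard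
Lefschetz theorem and the standard conjectures of Lefschetz and of Hodge type; the transcendental
cohomology of `X i` is not zero and in the middle degree, and it is a Tate twist of the Tate module of
the Jacobian of the curve `y ^ 2 = f i (x)`. -/
structure TateSystem (f : ι → K[X]) [∀ i, Branch (f i)] (G : Set (GVar W (F ≃ₐ[K] F)))
    (X : ι → GVar W (F ≃ₐ[K] F)) (D : ∀ i, (X i).X.Cycles) (Z : GVar W (F ≃ₐ[K] F)) : Prop where
  galois : GaloisClass (twistChar K F W.K) G
  mem : ∀ i, X i ∈ G
  mem_base : Z ∈ G
  odd : ∀ i, Odd (X i).X.dim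
  pol : ∀ i, IsPolarization W (X i).X (D i)
  tate : ∀ i, IsTwistOf (twistChar K F W.K) (IsActionOf (F := F) (f i)) (X i).act
    (transcendental W (X i).X) (W.gr (X i).X (X i).X.dim)

end

end Pool.Agent.N171.Bq
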