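import Mathlib
import Pool.Agent.N171.Bk3
import Pool.Agent.N171.BqPub

/-!
# Varieties whose transcendental cohomology is the Tate module of the Jacobian of `y ^ 2 = f (x)`
-/

open CategoryTheory AlgebraicGeometry Finset Function Polynomial

set_option linter.unusedSectionVars false
set_option linter.unusedVariables false

namespace Pool.Agent.N171.Bq

universe u

open Pool.Agent.TH125.Gal Pool.Agent.N171.Ht

open Pool.Agent.H914 Pool.Agent.H914.VarClass Pool.Agent.H914.VarClass.Obj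
  Pool.Agent.H914.WeilCohomology Pool.Agent.H281R3.HT

variable {k : Type u} [Field k] {𝒱 : VarClass k} {ops : CycleOps 𝒱}
  {W : WeilCohomology.{u, 0} ops} [Algebra ℚ_[2] W.K]
  {K F : Type} [Field K] [Field F] [Algebra K F] {ι : Type} [Fintype ι]
  [DecidableEq ι] {f : ι → K[X]} [∀ i, Branch (f i)]
  {G : Set (GVar W (F ≃ₐ[K] F))} {X : ι → GVar W (F ≃ₐ[K] F)} {D : ∀ i, (X i).X.Cycles}
  {Z : GVar W (F ≃ₐ[K] F)}

instance instBranch (f : K[X]) [h : Branch f] : Bkp.Branch f := ⟨h.monic, h.sep, h.odd, h.seven, h.two⟩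

theorem kSys_large' [IsAlgClosed F] (hs : Large F f) (h : TateSystem f G X D Z)
    (hZ : FreeOf Z.act f) : KSys (Ht.twistChar K F W.K) G X D Z :=
  Bkp.kSys_large (f := f) ⟨hs.alt, hs.moves⟩ ⟨h.galois, h.mem, h.mem_base, h.odd, h.pol, h.tate⟩ hZ

end Pool.Agent.N171.Bq
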