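import Mathlib
import Pool.Agent.N171.Ht7
import Pool.Agent.N171.HtPub

/-!
# Varieties whose transcendental cohomology is the Tate module of a hyperelliptic Jacobian
-/

open CategoryTheory AlgebraicGeometry Finset Function Polynomial

set_option linter.unusedSectionVars false
set_option linter.unusedVariables false

namespace Pool.Agent.N171.Htp

universe u

open Pool.Agent.TH125.Gal Pool.Agent.TH118.SG Pool.Agent.V11219.Loc Pool.Agent.N171.Ht

open Pool.Agent.H914 Pool.Agent.H914.VarClass Pool.Agent.H914.VarClass.Obj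
  Pool.Agent.H914.WeilCohomology Pool.Agent.H281R3.HT

open TensorProduct Pool.Agent.H204R3.GP

noncomputable section

section seq

variable {K F : Type} [Field K] [Field F] [Algebra K F] {τ : Type} [Fintype τ] (α : τ → K)
  [Branch α]

variable (F) in
/-- The sequence of classes. -/
def sqOf (x : TateMod 2 (Jac F α)) : ℕ → ClassGroup (Crd F α) := fun n =>
  Additive.toMul (x.1 n : Additive (ClassGroup (RR (lf F α))))

theorem sqOf_mem (x : TateMod 2 (Jac F α)) : sqOf F α x ∈ TateSeq (ClassGroup (Crd F α)) := by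
  refine ⟨?_, fun n => ?_⟩
  · exact congrArg Additive.toMul (x.2.1 : (x.1 0 : Additive (ClassGroup (RR (lf F α)))) = 0)
  · exact congrArg Additive.toMul
      (x.2.2 n : (2 • x.1 (n + 1) : Additive (ClassGroup (RR (lf F α)))) = x.1 n)

theorem sqOf_surj {y : ℕ → ClassGroup (Crd F α)} (hy : y ∈ TateSeq (ClassGroup (Crd F α))) :
    ∃ x, sqOf F α x = y :=
  ⟨⟨fun n => (Additive.ofMul (y n) : Additive (ClassGroup (RR (lf F α)))),
    congrArg Additive.ofMul hy.1, fun n => congrArg Additive.ofMul (hy.2 n)⟩, rfl⟩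

theorem sqOf_add (x y : TateMod 2 (Jac F α)) : sqOf F α (x + y) = sqOf F α x * sqOf F α y := rfl

theorem sqOf_smul (r : ℤ_[2]) (x : TateMod 2 (Jac F α)) :
    sqOf F α (r • x) = fun n => sqOf F α x n ^ r.appr n := by
  funext n
  have h1 : (PadicInt.toZModPow n r : ZMod (2 ^ n)) = ((r.appr n : ℕ) : ZMod (2 ^ n)) := by
    have h := PadicInt.appr_spec n r
    have h2 : PadicInt.toZModPow n (r - ((r.appr n : ℕ) : ℤ_[2])) = 0 := by
      rw [← RingHom.mem_ker, PadicInt.ker_toZModPow]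
      exact h
    rw [map_sub, map_natCast, sub_eq_zero] at h2
    exact h2
  exact congrArg Additive.toMul (tm_smul_eq h1 x :
    ((r • x).1 n : Additive (ClassGroup (RR (lf F α)))) = (r.appr n) • x.1 n)

theorem sqOf_act (g : F ≃ₐ[K] F) (x : TateMod 2 (Jac F α)) :
    sqOf F α (tmMap (jacAct α g) x) = fun n =>
      ClassGroup.mulEquiv (gRi (lf_fix g α) : RR (lf F α) ≃+* RR (lf F α)) (sqOf F α x n) := rfl

end seq

variable {K F : Type} [Field K] [Field F] [Algebra K F] {C : Type} [Field C] [Algebra ℚ_[2] C]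

theorem twistChar_eq : Htp.twistChar K F C = Ht.twistChar K F C := rfl

/-- The map on the Tate module. -/
theorem IsTwistOf.twist {τ : Type} [Fintype τ] {α : τ → K} [Branch α] {A : Type} [Ring A]
    [Algebra C A] {ρ : (F ≃ₐ[K] F) →* (A ≃ₐ[C] A)} {T B : Submodule C A}
    (h : Htp.IsTwistOf (Htp.twistChar K F C) (IsActionOf (F := F) α) ρ T B) :
    ∃ c, Ht.IsTwistOf (Ht.twistChar K F C) T ρ (jacAct (F := F) α) c := by
  obtain ⟨-, -, ε, c, hsp, hε⟩ := h
  have hadd : ∀ x y, ε (sqOf F α (x + y)) = ε (sqOf F α x) + ε (sqOf F α y) := fun x y =>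
    (hε _ (sqOf_mem α x)).1 _ (sqOf_mem α y)
  have h0 : ε (sqOf F α 0) = 0 := by
    have h1 := hadd 0 0
    rw [add_zero] at h1
    exact left_eq_add.1 h1
  refine ⟨c, ⟨⟨fun x => ε (sqOf F α x), h0⟩, hadd⟩, fun r x => ?_, ?_, fun g x => ?_⟩
  · change ε (sqOf F α (r • x)) = _
    rw [sqOf_smul]
    exact (hε _ (sqOf_mem α x)).2.1 r
  · rw [← hsp]
    congr 1
    apply Set.eq_of_subset_of_subset
    · rintro _ ⟨x, rfl⟩
      exact ⟨_, sqOf_mem α x, rfl⟩
    · rintro _ ⟨y, hy, rfl⟩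
      obtain ⟨x, rfl⟩ := sqOf_surj α hy
      exact ⟨x, rfl⟩
  · change ρ g (ε (sqOf F α x)) = _
    refine ((hε _ (sqOf_mem α x)).2.2 g
      (fun y => ClassGroup.mulEquiv (gRi (lf_fix g α) : RR (lf F α) ≃+* RR (lf F α)) y)
      ⟨(gRi (lf_fix g α) : RR (lf F α) ≃+* RR (lf F α)), fun r => ?_, fun y => ?_⟩).trans ?_
    · rfl
    · rfl
    · rfl

theorem SignData.toHt {ι : Type} {τ κ : ι → Type} [∀ i, DecidableEq (τ i)]
    {α : ∀ i, τ i → K} {I : ∀ i, κ i → Finset (τ i)} {l : ∀ i, κ i → (Kˣ →* ℤˣ)}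
    (h : Htp.SignData α I l) : Ht.SignData α I l :=
  ⟨h.even, h.span, h.conn, h.same, h.other⟩

variable {k : Type u} [Field k] {𝒱 : VarClass k} {ops : CycleOps 𝒱}
  {W : WeilCohomology.{u, 0} ops} [Algebra ℚ_[2] W.K]
  [IsAlgClosed F] {ι : Type} [Fintype ι]
  [DecidableEq ι] {τ κ : ι → Type} [∀ i, Fintype (τ i)] [∀ i, DecidableEq (τ i)] {α : ∀ i, τ i → K}
  [∀ i, Branch (α i)] {I : ∀ i, κ i → Finset (τ i)} {l : ∀ i, κ i → (Kˣ →* ℤˣ)}
  {G : Set (GVar W (F ≃ₐ[K] F))} {X : ι → GVar W (F ≃ₐ[K] F)} {D : ∀ i, (X i).X.Cycles}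
  {Z : GVar W (F ≃ₐ[K] F)}

/-- **The system.** -/
theorem kSys_tate (hs : Htp.SignData α I l) (h : TateSystem α G X D Z)
    (hZ : Htp.IndepOf Z.act fun x : Σ i, κ i => l x.1 x.2) :
    KSys (Ht.twistChar K F W.K) G X D Z where
  galoisClass := h.galois
  mem := h.mem
  mem_base := h.mem_base
  odd := h.odd
  pol := h.pol
  middle i := (h.tate i).2.1
  one_ne i := by
    intro h3
    apply (h.tate i).1
    rw [eq_bot_iff]
    intro t _
    rw [Submodule.mem_bot, ← one_mul t, h3, zero_mul]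
  base hG i := by
    have h2 : (2 : F) ≠ 0 := Hyp.two (α := lf F (α i))
    have hs' := hs.toHt
    have hJ := fun i => (h.tate i).twist
    choose c ε hr hsp hc using hJ
    obtain ⟨d, e, he, hl⟩ := hZ
    obtain ⟨t, ht, ht4⟩ := latK (C := W.K) (H := W.H Z.X)
      (A := ⟨⟨fun s => (Z.act s).toLinearMap,
        (congrArg AlgEquiv.toLinearMap (map_one Z.act)).trans rfl⟩,
        fun s s' => (congrArg AlgEquiv.toLinearMap (map_mul Z.act s s')).trans rfl⟩) he
    have hN : ∀ i k (u : Kˣ) (r : F), r ^ 2 = algebraMap K F u →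
        (∀ s ∈ NW t, s r = r) → l i k u = 1 := fun i k u r hr hN =>
      hl ⟨i, k⟩ u r hr fun s hs8 hs4 => hN s ⟨hs8, ht4 s hs4⟩
    have hN1 : ∀ i k (u : Kˣ) (r : F), r ^ 2 = algebraMap K F u →
        (∀ s ∈ NW (1 : (F ≃ₐ[K] F) →* Matrix (Fin 1) (Fin 1) ℤ_[2]), s r = r) → l i k u = 1 :=
      fun i k u r hr hN' => hN i k u r hr fun s hs' => hN' s ⟨hs'.1, 0, by
        rw [smul_zero, add_zero]
        rfl⟩
    exact kp_base (latData_jac hG ε hr hsp c hc) (BT_self α h2) (BT_nd α h2) (pj_sum α) (pj_pj α)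
      (pj_pj_ne α) (BT_pj α h2) e t ht (killsAll_jac h2 hs' t hN) (killsAll_jac h2 hs' 1 hN1) i
      (h.tate i).2.1 (h.odd i)

end

end Pool.Agent.N171.Htp
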